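import Pool.Agent.H.MP_83e36b_nt.Defs

/-! Module A3b: change of generator: roots and discriminant. -/

open Polynomial Filter Topology

namespace AnWA

theorem A3b_monic {L : Type*} [Field L] {n : ℕ} (x : Fin n → L) : (rootPoly x).Monic :=
  monic_prod_of_monic _ _ fun i _ => monic_X_sub_C (x i)

theorem A3b_natDegree {L : Type*} [Field L] {n : ℕ} (x : Fin n → L) :
    (rootPoly x).natDegree = n := by
  rw [rootPoly, natDegree_prod_of_monic _ _ fun i _ => monic_X_sub_C (x i)]
  simp

theorem A3b_eval {L : Type*} [Field L] {n : ℕ} (x : Fin n → L) (i : Fin n) :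
    (rootPoly x).eval (x i) = 0 := by
  rw [rootPoly, eval_prod]
  apply Finset.prod_eq_zero (Finset.mem_univ i)
  simp

/-- `V * compMat = diagonal x * V` -/
theorem A3b_semiconj {L : Type*} [Field L] {n : ℕ} (x : Fin n → L) :
    Matrix.vandermonde x * compMat n (rootPoly x) = Matrix.diagonal x * Matrix.vandermonde x := by
  ext i j
  rw [Matrix.mul_apply, Matrix.diagonal_mul, Matrix.vandermonde_apply]
  by_cases hj : (j : ℕ) + 1 = n
  · have h1 : ∀ k : Fin n, Matrix.vandermonde x i k * compMat n (rootPoly x) k j
        = - ((rootPoly x).coeff k * x i ^ (k : ℕ)) := by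
      intro k
      rw [Matrix.vandermonde_apply, compMat, if_pos hj]
      ring
    rw [Finset.sum_congr rfl fun k _ => h1 k, Finset.sum_neg_distrib,
      Fin.sum_univ_eq_sum_range (fun k => (rootPoly x).coeff k * x i ^ k) n]
    have h2 := A3b_eval x i
    rw [eval_eq_sum_range, A3b_natDegree, Finset.sum_range_succ] at h2
    have h3 : (rootPoly x).coeff n = 1 := by
      have := (A3b_monic x).coeff_natDegree
      rwa [A3b_natDegree] at this
    rw [h3, one_mul] at h2
    rw [← pow_succ', hj]
    linear_combination -h2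
  · have hlt : (j : ℕ) + 1 < n := by
      have := j.2
      omega
    rw [Finset.sum_eq_single (⟨(j : ℕ) + 1, hlt⟩ : Fin n)]
    · rw [Matrix.vandermonde_apply, compMat, if_neg hj, if_pos rfl, mul_one, ← pow_succ']
    · intro k _ hk
      rw [compMat, if_neg hj, if_neg, mul_zero]
      intro h
      exact hk (Fin.ext h)
    · intro h
      exact absurd (Finset.mem_univ _) h

theorem A3b_semiconj_aeval {L : Type*} [Field L] {n : ℕ} (x : Fin n → L) (ρ : L[X]) :
    Matrix.vandermonde x * genMat n (rootPoly x) ρ
      = Matrix.diagonal (fun i => ρ.eval (x i)) * Matrix.vandermonde x := by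
  rw [genMat]
  induction ρ using Polynomial.induction_on' with
  | add p q hp hq =>
    rw [map_add, mul_add, hp, hq, ← add_mul, Matrix.diagonal_add]
    simp
  | monomial k a =>
    have hpow : ∀ k : ℕ, Matrix.vandermonde x * compMat n (rootPoly x) ^ k
        = Matrix.diagonal (fun i => x i ^ k) * Matrix.vandermonde x := by
      intro k
      induction k with
      | zero =>
        rw [pow_zero, mul_one]
        have : Matrix.diagonal (fun i => x i ^ 0) = (1 : Matrix (Fin n) (Fin n) L) := by
          simp
        rw [this, one_mul]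
      | succ k ih =>
        rw [pow_succ, ← mul_assoc, ih, mul_assoc, A3b_semiconj, ← mul_assoc,
          Matrix.diagonal_mul_diagonal]
        congr 2
        ext i
        rw [pow_succ]
    rw [aeval_monomial, Algebra.algebraMap_eq_smul_one, smul_mul_assoc, one_mul,
      Matrix.mul_smul, hpow, ← Matrix.smul_mul, ← Matrix.diagonal_smul]
    congr 2
    ext i
    simp [eval_monomial]

/-- roots of the new polynomial -/
theorem chg_rootPoly {L : Type*} [Field L] {n : ℕ} (x : Fin n → L) (hx : Function.Injective x)
    (ρ : L[X]) : chg n (rootPoly x) ρ = rootPoly (fun i => ρ.eval (x i)) := by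
  have hdet : IsUnit (Matrix.vandermonde x).det :=
    isUnit_iff_ne_zero.2 (Matrix.det_vandermonde_ne_zero_iff.2 hx)
  have hu : IsUnit (Matrix.vandermonde x) := (Matrix.isUnit_iff_isUnit_det _).2 hdet
  obtain ⟨V, hV⟩ := hu
  have h1 := A3b_semiconj_aeval x ρ
  rw [← hV] at h1
  have h2 : Matrix.diagonal (fun i => ρ.eval (x i))
      = (V : Matrix (Fin n) (Fin n) L) * genMat n (rootPoly x) ρ * (V⁻¹ : (Matrix (Fin n) (Fin n) L)ˣ) := by
    rw [h1, mul_assoc, Units.mul_inv, mul_one]
  have h3 : rootPoly (fun i => ρ.eval (x i)) = (Matrix.diagonal (fun i => ρ.eval (x i))).charpoly :=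
    (Matrix.charpoly_diagonal _).symm
  rw [h3, chg, h2, Matrix.charpoly_mul_comm, ← mul_assoc, Units.inv_mul, one_mul]

theorem A3b_resultant_deriv {L : Type*} [CommRing L] [Nontrivial L] {f : L[X]} (hf : f.Monic)
    (hn : 0 < f.natDegree) : f.discr = (-1) ^ (f.natDegree * (f.natDegree - 1) / 2) *
      resultant f f.derivative f.natDegree (f.natDegree - 1) := by
  rw [resultant_deriv (natDegree_pos_iff_degree_pos.1 hn), hf.leadingCoeff, mul_one, ← mul_assoc,
    ← pow_add, ← two_mul, pow_mul]
  simp

theorem A3b_discr_map {K L : Type*} [Field K] [Field L] (φ : K →+* L) {f : K[X]} (hf : f.Monic) :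
    φ f.discr = (f.map φ).discr := by
  rcases Nat.eq_zero_or_pos f.natDegree with h | h
  · have h1 : f = 1 := hf.natDegree_eq_zero.1 h
    rw [h1, Polynomial.map_one, ← C_1, ← C_1, discr_C, discr_C, map_one]
  · rw [A3b_resultant_deriv hf h, A3b_resultant_deriv (hf.map φ) (by rwa [natDegree_map]),
      map_mul, natDegree_map, derivative_map, resultant_map_map]
    simp

/-- discriminant of a product of linear factors -/
theorem discr_rootPoly {L : Type*} [Field L] {n : ℕ} (x : Fin n → L) :
    (rootPoly x).discr = (Matrix.vandermonde x).det ^ 2 := by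
  classical
  rcases Nat.eq_zero_or_pos n with h | h
  · subst h
    rw [Matrix.det_isEmpty, one_pow]
    have : rootPoly x = C 1 := by simp [rootPoly]
    rw [this, discr_C]
  · rw [A3b_resultant_deriv (A3b_monic x) (by rw [A3b_natDegree]; exact h)]
    have hsplit : (rootPoly x).Splits := Polynomial.Splits.prod fun i _ => Splits.X_sub_C (x i)
    rw [resultant_eq_prod_eval _ _ _ (natDegree_derivative_le _) hsplit,
      (A3b_monic x).leadingCoeff, one_pow, one_mul, A3b_natDegree]
    have hroots : (rootPoly x).roots = Finset.univ.val.map x := by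
      have := roots_multiset_prod_X_sub_C (Finset.univ.val.map x)
      rwa [Multiset.map_map] at this
    rw [hroots, Multiset.map_map]
    have h1 : ∀ i, (rootPoly x).derivative.eval (x i) = ∏ j ∈ {i}ᶜ, (x i - x j) := by
      intro i
      rw [rootPoly, derivative_prod_finset, eval_finsetSum, Finset.sum_eq_single i]
      · rw [derivative_X_sub_C, mul_one, eval_prod]
        rw [← Finset.compl_singleton] 
        simp
      · intro j _ hj
        rw [eval_mul, eval_prod, Finset.prod_eq_zero (Finset.mem_erase.2 ⟨Ne.symm hj, Finset.mem_univ i⟩),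
          zero_mul]
        simp
      · intro h
        exact absurd (Finset.mem_univ _) h
    have h2 : (Multiset.map ((fun y => (rootPoly x).derivative.eval y) ∘ x) Finset.univ.val).prod
        = ∏ i, ∏ j ∈ {i}ᶜ, (x i - x j) := by
      change ∏ i, (rootPoly x).derivative.eval (x i) = _
      exact Finset.prod_congr rfl fun i _ => h1 i
    have h3 := Finset.prod_prod_Ioi_mul_eq_prod_prod_off_diag (fun i j => x j - x i)
    have h4 : ∏ i, ∏ j ∈ Finset.Ioi i, (x i - x j) * (x j - x i)
        = (-1) ^ (n * (n - 1) / 2) * (Matrix.vandermonde x).det ^ 2 := by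
      have h5 : ∀ i j : Fin n, (x i - x j) * (x j - x i) = (-1) * (x j - x i) ^ 2 := by
        intro i j; ring
      simp only [h5, Finset.prod_mul_distrib, Finset.prod_const, Finset.prod_pow]
      rw [Matrix.det_vandermonde, Finset.prod_pow_eq_pow_sum]
      congr 2
      simp only [Fin.card_Ioi]
      rw [Fin.sum_univ_eq_sum_range (fun i => n - 1 - i) n,
        Finset.sum_range_reflect (fun i => i) n, Finset.sum_range_id]
    rw [h2, ← h3, h4, ← mul_assoc, ← pow_add, ← two_mul, pow_mul]
    simp

theorem A3b_chg_map {K K' : Type*} [Field K] [Field K'] (φ : K →+* K') (n : ℕ) (f ρ : K[X]) :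
    genMat n (f.map φ) (ρ.map φ) = φ.mapMatrix (genMat n f ρ) := by
  have h1 : compMat n (f.map φ) = φ.mapMatrix (compMat n f) := by
    ext i j
    simp only [compMat, RingHom.mapMatrix_apply, Matrix.map_apply, coeff_map]
    split_ifs <;> simp
  rw [genMat, genMat, h1, aeval_def, aeval_def, eval₂_map, hom_eval₂]
  congr 1
  ext a i j
  simp only [RingHom.comp_apply, Matrix.algebraMap_matrix_apply, RingHom.mapMatrix_apply,
    Matrix.map_apply]
  split_ifs <;> simp

/-- the Vandermonde matrix times the matrix of coordinates of the powers of the generator -/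
theorem A3b_vandermonde {L : Type*} [Field L] {n : ℕ} (x : Fin n → L) (ρ : L[X]) :
    (Matrix.vandermonde (fun i => ρ.eval (x i))).det
      = (Matrix.vandermonde x).det * chgDet n (rootPoly x) ρ := by
  rw [chgDet, ← Matrix.det_mul]
  congr 1
  ext i j
  have h1 := A3b_semiconj_aeval x (ρ ^ (j : ℕ))
  have h2 : genMat n (rootPoly x) (ρ ^ (j : ℕ)) = genMat n (rootPoly x) ρ ^ (j : ℕ) := by
    rw [genMat, genMat, map_pow]
  rw [h2] at h1
  have h3 := congrFun (congrFun h1 i) ⟨0, i.pos⟩
  rw [Matrix.diagonal_mul, Matrix.vandermonde_apply] at h3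
  rw [Matrix.vandermonde_apply, Matrix.mul_apply]
  rw [Matrix.mul_apply] at h3
  simp only [pow_zero, mul_one, eval_pow] at h3
  rw [← h3]

theorem A3b_enum {L : Type*} {n : ℕ} (s : Multiset L) (hs : s.card = n) (hn : s.Nodup) :
    ∃ x : Fin n → L, Function.Injective x ∧ Finset.univ.val.map x = s := by
  subst hs
  obtain ⟨l, rfl⟩ := Quot.exists_rep s
  change (l : Multiset L).Nodup at hn
  rw [Multiset.coe_nodup] at hn
  refine ⟨fun i => l.get i, ?_, ?_⟩
  · exact hn.injective_get
  · rw [Fin.univ_val_map]
    change ((List.ofFn l.get : List L) : Multiset L) = (l : Multiset L)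
    rw [List.ofFn_get]

/-- discriminant of the new polynomial -/
theorem discr_chg {K : Type*} [Field K] {n : ℕ} {f : K[X]} (hf : f.Monic)
    (hfn : f.natDegree = n) (hs : f.Separable) (ρ : K[X]) :
    (chg n f ρ).discr = f.discr * (chgDet n f ρ) ^ 2 := by
  classical
  let φ := algebraMap K (AlgebraicClosure K)
  apply φ.injective
  have hchgm : (chg n f ρ).Monic := Matrix.charpoly_monic _
  rw [A3b_discr_map φ hchgm, map_mul, A3b_discr_map φ hf, map_pow]
  have h1 : (chg n f ρ).map φ = chg n (f.map φ) (ρ.map φ) := by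
    rw [chg, chg, A3b_chg_map, ← Matrix.charpoly_map]
    rfl
  have h2 : φ (chgDet n f ρ) = chgDet n (f.map φ) (ρ.map φ) := by
    rw [chgDet, chgDet, RingHom.map_det]
    congr 1
    ext i j
    rw [A3b_chg_map, ← map_pow]
    rfl
  rw [h1, h2]
  have hsep : (f.map φ).Separable := hs.map
  have hsplit : (f.map φ).Splits := IsAlgClosed.splits _
  have hcard : (f.map φ).roots.card = n := by
    rw [← hsplit.natDegree_eq_card_roots, natDegree_map, hfn]
  have hnodup : (f.map φ).roots.Nodup := nodup_roots hsep
  obtain ⟨x, hx, hxr⟩ := A3b_enum _ hcard hnodup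
  have hfx : f.map φ = rootPoly x := by
    have h3 := hsplit.eq_prod_roots_of_monic (hf.map φ)
    rw [h3, rootPoly, ← hxr, Multiset.map_map]
    rfl
  rw [hfx, chg_rootPoly x hx, discr_rootPoly, discr_rootPoly, A3b_vandermonde]
  ring

end AnWA
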