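import Mathlib

/-!
# MP_83e36b_nt : weak approximation for `y ^ 2 = disc (f)`

Definitions shared by all modules.
-/

open Polynomial Filter Topology

namespace AnWA

section Algebra

variable {K : Type*}

/-- The differential expression `2 ω q' w' + (ω' q' - ω q'') w`. -/
noncomputable def dOp [CommRing K] (ω q w : K[X]) : K[X] :=
  2 * ω * derivative q * derivative w
    + (derivative ω * derivative q - ω * derivative (derivative q)) * w

/-- Wronskian `P' q - P q'`. -/
noncomputable def wr [CommRing K] (P q : K[X]) : K[X] :=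
  derivative P * q - P * derivative q

/-- `q` is nondegenerate for the weight `ω`: the operator `dOp ω q` is injective modulo `q`
on polynomials of degree less than `deg q`. -/
def NonDeg [CommRing K] (ω q : K[X]) : Prop :=
  ∀ w : K[X], w.degree < q.degree → q ∣ dOp ω q w → w = 0

/-- `h`, `P` are the companions of `q` for the weight `ω` (`ω` of degree at most one):
`h` is monic of the degree of `q`, `P' q - P q' = ω h ^ 2`, and `P = Π q + r` with
`Π = ω₁/2 X² + (ω₀ + 2 ω₁ κ) X`, `κ = [X^(m-1)] (h - q)`, `deg r < deg q`. -/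
structure Pencil [Field K] (ω q h P : K[X]) : Prop where
  monic : q.Monic
  sep : q.Separable
  hdeg : (h - q).degree < q.degree
  hD : q ∣ dOp ω q h
  form : ∃ r : K[X], r.degree < q.degree ∧
    P = (C (ω.coeff 1 / 2) * X ^ 2
      + C (ω.coeff 0 + 2 * ω.coeff 1 * (h - q).coeff (q.natDegree - 1)) * X) * q + r
  wr_eq : wr P q = ω * h ^ 2

/-- Multiplication by `X` on `K[X]/(f)` in the basis `1, X, …, X^(n-1)` (`f` monic of degree `n`). -/
def compMat [CommRing K] (n : ℕ) (f : K[X]) : Matrix (Fin n) (Fin n) K :=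
  fun i j => if (j : ℕ) + 1 = n then - f.coeff i else if (i : ℕ) = j + 1 then 1 else 0

/-- Multiplication by `ρ(X)` on `K[X]/(f)`. -/
noncomputable def genMat [CommRing K] (n : ℕ) (f ρ : K[X]) : Matrix (Fin n) (Fin n) K :=
  aeval (compMat n f) ρ

/-- The characteristic polynomial of `ρ(X)` in `K[X]/(f)`: for `f = ∏ (X - x i)` this is
`∏ (X - ρ(x i))`. -/
noncomputable def chg [CommRing K] (n : ℕ) (f ρ : K[X]) : K[X] := (genMat n f ρ).charpoly

/-- The determinant of `1, ρ, …, ρ^(n-1)` with respect to `1, X, …, X^(n-1)` modulo `f`. -/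
noncomputable def chgDet [CommRing K] (n : ℕ) (f ρ : K[X]) : K :=
  Matrix.det (fun i j : Fin n => ((genMat n f ρ) ^ (j : ℕ)) i ⟨0, i.pos⟩)

/-- Columns `dOp ω q (X^j)` (`j < m`) and `q X^j` (`j < m - 1`). -/
noncomputable def ndCol [CommRing K] (ω q : K[X]) (m : ℕ) : Fin m ⊕ Fin (m - 1) → K[X] :=
  Sum.elim (fun j => dOp ω q (X ^ (j : ℕ))) (fun j => q * X ^ (j : ℕ))

/-- The degrees corresponding to the rows: `0, …, m - 1, m, …, 2 m - 2`. -/
def ndRow (m : ℕ) : Fin m ⊕ Fin (m - 1) → ℕ := Sum.elim (fun i => (i : ℕ)) (fun i => m + (i : ℕ))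

/-- Square matrix of size `2 m - 1` expressing `(w, s) ↦ dOp ω q w + q s`. -/
noncomputable def ndMat [CommRing K] (ω q : K[X]) (m : ℕ) :
    Matrix (Fin m ⊕ Fin (m - 1)) (Fin m ⊕ Fin (m - 1)) K :=
  fun r c => (ndCol ω q m c).coeff (ndRow m r)

end Algebra

section Roots

variable {L : Type*} [Field L] {ι : Type*} [Fintype ι] [DecidableEq ι]

/-- `∏ (X - x i)`. -/
noncomputable def rootPoly (x : ι → L) : L[X] := ∏ i, (X - C (x i))

/-- The matrix of the linear system attached to the roots `x` and the weight `ω`. -/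
noncomputable def sysMat (ω : L[X]) (x : ι → L) : Matrix ι ι L := fun i j =>
  if i = j then (derivative ω).eval (x i) / (2 * ω.eval (x i)) else 1 / (x i - x j)

/-- `v` solves the linear system: `ω'(x i) v i / (2 ω(x i)) + ∑_{j ≠ i} v j / (x i - x j) = -1`. -/
def IsSol (ω : L[X]) (x v : ι → L) : Prop := ∀ i, (sysMat ω x).mulVec v i = -1

/-- `H(z) = 1 + ∑ v i / (z - x i)`. -/
noncomputable def Hval (x v : ι → L) (z : L) : L := 1 + ∑ i, v i / (z - x i)

/-- `φ(z) = ω₀ z + ω₁/2 z² + 2 ω₁ (∑ v) z - ∑ ω(x i) (v i)² / (z - x i)`; it satisfies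
`φ' = ω H²`. -/
noncomputable def phiVal (ω : L[X]) (x v : ι → L) (z : L) : L :=
  ω.coeff 0 * z + ω.coeff 1 / 2 * z ^ 2 + 2 * ω.coeff 1 * (∑ i, v i) * z
    - ∑ i, ω.eval (x i) * v i ^ 2 / (z - x i)

/-- The companions written in terms of a solution `v` of the linear system. -/
def RootForm (ω : L[X]) (x v : ι → L) (h P : L[X]) : Prop :=
  Pencil ω (rootPoly x) h P ∧
    (∀ z, (∀ i, z ≠ x i) → h.eval z = Hval x v z * (rootPoly x).eval z ∧
      P.eval z = phiVal ω x v z * (rootPoly x).eval z) ∧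
    ∀ i, h.eval (x i) = v i * (derivative (rootPoly x)).eval (x i) ∧
      P.eval (x i) = - ω.eval (x i) * v i ^ 2 * (derivative (rootPoly x)).eval (x i)

/-- `g = P - t G` is the member with parameter `t` of the pencil of weight one attached to `G`,
with all nondegeneracy conditions which are needed later. -/
structure OddDatum (g G H : L[X]) (t : L) : Prop where
  pen : Pencil 1 G H (g + C t * G)
  nd : NonDeg 1 G
  nd2 : NonDeg (2 * X) G
  zero : G.eval 0 ≠ 0
  cop : IsCoprime g G
  uniq : ∀ (G' H' : L[X]) (t' : L), Pencil 1 G' H' (g + C t' * G') → IsCoprime g G' →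
    G' = G ∧ H' = H ∧ t' = t

/-- `G = ∑ b i ^ 2 ∏_{j ≠ i} (X - x j)`. -/
noncomputable def partner (x b : ι → L) : L[X] :=
  ∑ i, C (b i ^ 2) * ∏ j ∈ Finset.univ.erase i, (X - C (x j))

/-- `b` spans the kernel of the antisymmetric matrix `1 / (x i - x j)`, and the associated
partner `G = ∑ b i ^ 2 ∏_{j ≠ i} (X - x j)` is nondegenerate. -/
structure OddKernel (x b : ι → L) : Prop where
  inj : Function.Injective x
  ne : ∀ i, b i ≠ 0
  sum : ∑ i, b i = 1
  ker : ∀ i, ∑ j, (if i = j then 0 else b j / (x i - x j)) = 0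
  uniq : ∀ c : ι → L, (∀ i, ∑ j, (if i = j then 0 else c j / (x i - x j)) = 0) →
    ∃ l : L, ∀ i, c i = l * b i
  sep : (partner x b).Separable
  nd : NonDeg 1 (partner x b)
  nd2 : NonDeg (2 * X) (partner x b)
  zero : (partner x b).eval 0 ≠ 0

/-- `φ` is a rational function of `x`, regular at `x0`. -/
def Reg {ι : Type*} (x0 : ι → L) (φ : (ι → L) → L) : Prop :=
  ∃ N D : MvPolynomial ι L, MvPolynomial.eval x0 D ≠ 0 ∧
    ∀ x, MvPolynomial.eval x D ≠ 0 → φ x * MvPolynomial.eval x D = MvPolynomial.eval x N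

end Roots

section Insertion

/-- the roots after insertion of the clusters `μ i + ε δ i j` -/
def bigX {L κ I : Type*} [Field L] {J : I → Type*} (x0 : κ → L) (μ : I → L)
    (δ : ∀ i, J i → L) (ε : L) : κ ⊕ (Σ i, J i) → L :=
  Sum.elim x0 (fun p => μ p.1 + ε * δ p.1 p.2)

/-- the limit behaviour of the solutions of the linear system when clusters are inserted -/
structure InsLimit {L κ I : Type*} [NormedField L] [Fintype κ] [DecidableEq κ] [Fintype I]
    [DecidableEq I] {J : I → Type*} [∀ i, Fintype (J i)] [∀ i, DecidableEq (J i)]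
    (ω : L[X]) (x0 v0 : κ → L) (μ : I → L) (δ u : ∀ i, J i → L)
    (v : L → κ ⊕ (Σ i, J i) → L) : Prop where
  ev : ∀ᶠ ε in 𝓝[≠] (0 : L), Function.Injective (bigX x0 μ δ ε) ∧
    (∀ r, ω.eval (bigX x0 μ δ ε r) ≠ 0) ∧ (sysMat ω (bigX x0 μ δ ε)).det ≠ 0 ∧
    IsSol ω (bigX x0 μ δ ε) (v ε)
  lim0 : ∀ k, Tendsto (fun ε => (v ε (Sum.inl k) - v0 k) / ε) (𝓝[≠] (0 : L)) (𝓝 0)
  lim1 : ∀ i j, Tendsto (fun ε => v ε (Sum.inr ⟨i, j⟩) / ε) (𝓝[≠] (0 : L))
    (𝓝 (Hval x0 v0 (μ i) * u i j))

variable {L : Type*} [Field L] [DecidableEq L]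

/-- a cluster (the Finset `D` of positions) is usable: the linear system of weight one is
invertible and its solution has no zero entry -/
def GoodCluster (D : Finset L) : Prop :=
  (sysMat 1 (Subtype.val : {z // z ∈ D} → L)).det ≠ 0 ∧
    ∀ u : {z // z ∈ D} → L, IsSol 1 Subtype.val u → ∀ j, u j ≠ 0

/-- `γ` is a root of the inner member (parameter `0`) attached to the cluster `D` -/
def InnerRoot (D : Finset L) (γ : L) : Prop :=
  γ ∉ D ∧ ∀ u : {z // z ∈ D} → L, IsSol 1 Subtype.val u →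
    phiVal 1 Subtype.val u γ = 0 ∧ Hval Subtype.val u γ ≠ 0

end Insertion

section Topology

/-- Coefficientwise convergence of polynomials. -/
def PolyTendsto {K T : Type*} [Semiring K] [TopologicalSpace K] (l : Filter T)
    (f : T → K[X]) (g : K[X]) : Prop :=
  ∀ j, Tendsto (fun t => (f t).coeff j) l (𝓝 (g.coeff j))

end Topology

section Global

variable {k : Type*} [Field k] {ι : Type*} {K : ι → Type*} [∀ i, NormedField (K i)]

/-- Weak approximation for the field `k` with respect to the embeddings `φ i : k → K i`. -/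
def FieldWA (φ : ∀ i, k →+* K i) : Prop :=
  ∀ (a : ∀ i, K i) (ε : ℝ), 0 < ε → ∃ x : k, ∀ i, ‖φ i x - a i‖ < ε

/-- Weak approximation for the variety `c * disc f = y²`, `f` monic of degree `n`, at the points
with `y ≠ 0`. -/
def DiscWA (c : k) (n : ℕ) (φ : ∀ i, k →+* K i) : Prop :=
  ∀ (f : ∀ i, (K i)[X]) (y : ∀ i, K i),
    (∀ i, (f i).Monic ∧ (f i).natDegree = n ∧ φ i c * (f i).discr = y i ^ 2 ∧ y i ≠ 0) →
    ∀ ε : ℝ, 0 < ε → ∃ (g : k[X]) (z : k), g.Monic ∧ g.natDegree = n ∧ c * g.discr = z ^ 2 ∧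
      z ≠ 0 ∧ ∀ i, ‖φ i z - y i‖ < ε ∧ ∀ j, ‖(g.map (φ i)).coeff j - (f i).coeff j‖ < ε

end Global

section Local

/-- The hypotheses on a completion `F` and its algebraic closure `L` which are used in the local
part: automorphisms of `L` over `F` are isometries and finite Galois groups are solvable. -/
structure GoodPair (F L : Type*) [NontriviallyNormedField F] [NormedField L]
    [NormedAlgebra F L] : Prop where
  iso : ∀ (σ : L ≃ₐ[F] L) (x : L), ‖σ x‖ = ‖x‖
  solv : ∀ (E : IntermediateField F L), FiniteDimensional F E → IsGalois F E →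
    Group.IsSolvable (E ≃ₐ[F] E)

/-- A field to which the local theory applies. -/
def HasGoodClosure.{u} (F : Type u) [NontriviallyNormedField F] : Prop :=
  ∃ (L : Type u) (_ : NormedField L) (_ : NormedAlgebra F L), IsAlgClosed L ∧ IsGalois F L ∧
    GoodPair F L

/-- Local surjectivity of the family of weight `2X` in degree `n` over the field `F`. -/
def LocalU (F : Type*) [Field F] (n : ℕ) : Prop :=
  ∀ f : F[X], f.Monic → f.natDegree = n → f.Separable →
    ∃ (q h P ρ : F[X]) (t : F), Pencil (2 * X) q h P ∧ NonDeg (2 * X) q ∧ q.natDegree + 2 = n ∧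
      IsCoprime (P - C t * q) q ∧ (P - C t * q).Separable ∧ chg n (P - C t * q) ρ = f

end Local

end AnWA
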