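import Pool.Agent.H.MP_83e36b_nt.Defs

/-! Auxiliary lemmas on resultants `Res (f, g)` with `f` monic. -/

open Polynomial

namespace AnWA

variable {R : Type*} [CommRing R]

/-- for monic `f` the second degree argument does not matter -/
theorem res_deg {f : R[X]} (hf : f.Monic) (g : R[X]) {N : ℕ} (hN : g.natDegree ≤ N) :
    f.resultant g f.natDegree N = f.resultant g := by
  obtain ⟨k, rfl⟩ := le_iff_exists_add.mp hN
  rw [resultant_add_right_deg _ _ _ _ _ le_rfl, coeff_natDegree, hf.leadingCoeff, one_pow, one_mul]

theorem res_mul {f : R[X]} (hf : f.Monic) (g₁ g₂ : R[X]) :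
    f.resultant (g₁ * g₂) = f.resultant g₁ * f.resultant g₂ := by
  rw [← resultant_mul_right f g₁ g₂ _ le_rfl, res_deg hf _ natDegree_mul_le]

theorem res_pow {f : R[X]} (hf : f.Monic) (g : R[X]) (k : ℕ) :
    f.resultant (g ^ k) = f.resultant g ^ k := by
  induction k with
  | zero => simp
  | succ k ih => rw [pow_succ, res_mul hf, ih, pow_succ]

theorem res_add_mul {f : R[X]} (hf : f.Monic) (g p : R[X]) :
    f.resultant (g + f * p) = f.resultant g := by
  set N := max (max g.natDegree (g + f * p).natDegree) (p.natDegree + f.natDegree) with hN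
  rw [← res_deg hf g (N := N) ((le_max_left _ _).trans (le_max_left _ _)),
    ← res_deg hf (g + f * p) (N := N) ((le_max_right _ _).trans (le_max_left _ _)),
    resultant_add_mul_right _ _ _ _ _ (le_max_right _ _) le_rfl]

theorem res_congr {f : R[X]} (hf : f.Monic) {g₁ g₂ : R[X]} (h : f ∣ g₁ - g₂) :
    f.resultant g₁ = f.resultant g₂ := by
  obtain ⟨p, hp⟩ := h
  rw [← res_add_mul hf g₂ p, ← hp]
  congr 1
  · ring
  · congr 1; ring

theorem res_C {f : R[X]} (c : R) : f.resultant (C c) = c ^ f.natDegree := by
  simp

theorem res_X {f : R[X]} (_hf : f.Monic) : f.resultant X = (-1) ^ f.natDegree * f.eval 0 := by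
  nontriviality R
  have h := resultant_X_sub_C_right f f.natDegree (0 : R) le_rfl
  rw [C_0, sub_zero] at h
  rw [natDegree_X, h]

theorem res_neg {f : R[X]} (hf : f.Monic) (g : R[X]) :
    f.resultant (-g) = (-1) ^ f.natDegree * f.resultant g := by
  have h : -g = C (-1 : R) * g := by simp
  rw [h, res_mul hf, res_C]

theorem res_deriv {f : R[X]} (hf : f.Monic) :
    f.resultant (derivative f) = (-1) ^ (f.natDegree * (f.natDegree - 1) / 2) * f.discr := by
  nontriviality R
  by_cases h0 : f.natDegree = 0
  · obtain rfl := eq_one_of_monic_natDegree_zero hf h0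
    have : (1 : R[X]).discr = 1 := by
      have := discr_C (R := R) 1
      simpa using this
    simp [this]
  · have hd : 0 < f.degree := natDegree_pos_iff_degree_pos.mp (Nat.pos_of_ne_zero h0)
    have := resultant_deriv hd
    rw [hf.leadingCoeff, mul_one] at this
    rw [← this, res_deg hf _ (natDegree_derivative_le f)]

theorem res_comm (f g : R[X]) :
    f.resultant g = (-1) ^ (f.natDegree * g.natDegree) * g.resultant f :=
  resultant_comm _ _ _ _

theorem tri_two (m : ℕ) : (m + 2) * (m + 2 - 1) / 2 = m * (m - 1) / 2 + (2 * m + 1) := by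
  have h : (m + 2) * (m + 2 - 1) = m * (m - 1) + (2 * m + 1) * 2 := by
    cases m with
    | zero => rfl
    | succ k => simp only [Nat.add_sub_cancel]
                have : k + 1 + 2 - 1 = k + 2 := by omega
                rw [this]; ring
  rw [h, Nat.add_mul_div_right _ _ (by norm_num)]

theorem tri_one (m : ℕ) : (m + 1) * (m + 1 - 1) / 2 = m * (m - 1) / 2 + m := by
  have h : (m + 1) * (m + 1 - 1) = m * (m - 1) + m * 2 := by
    cases m with
    | zero => rfl
    | succ k => simp only [Nat.add_sub_cancel]; ring
  rw [h, Nat.add_mul_div_right _ _ (by norm_num)]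

end AnWA
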