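import Pool.Agent.H.MP_83e36b_nt.Defs
import Pool.Agent.H.MP_83e36b_nt.A2_Res

/-! Module A2a: discriminant identity, weight 2X (discr_two).

PROOF. f monic of degree n=m+2 (m=deg q). wr f q = wr P q = 2X h^2. In an algebraic closure (or directly with resultants): at every root x of f: f'(x) q(x) = 2x h(x)^2; product over the n roots: prod f'(x) = (-1)^{n(n-1)/2} disc f, prod q(x) = Res(f,q), prod (2x) = 2^n (-1)^n f(0), prod h(x)=Res(f,h). At every root z of q: -f(z) q'(z) = 2z h(z)^2; product: (-1)^m Res(q,f) (-1)^{m(m-1)/2} disc q = 2^m (-1)^m q(0) Res(q,h)^2, Res(q,f)=(-1)^{nm} Res(f,q). Multiply; the total sign is -1 for every m, 2^{n+m}=2^{2(m+1)}. With resultants: Res(f, f' q)=Res(f, 2X h^2) using f' q = f q' + 2X h^2 and multiplicativity (take care of the degree arguments of Polynomial.resultant; going to a splitting field and using products over roots is probably easiest). q=1 (m=0) is allowed (discr 1 = 1): check the Mathlib convention.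
-/

open Polynomial

namespace AnWA

variable {K : Type*} [Field K]

/-- degree and monicity of `P - t q` -/
theorem member_monic {q P f : K[X]} {t : K} {k : ℕ} (hq : q.Monic) (hP : P.Monic)
    (hPd : P.natDegree = q.natDegree + (k + 1)) (hf : f = P - C t * q) :
    f.Monic ∧ f.natDegree = q.natDegree + (k + 1) := by
  have hlt : (C t * q).degree < P.degree := by
    have h1 : (C t * q).degree ≤ (q.natDegree : WithBot ℕ) :=
      degree_le_of_natDegree_le (natDegree_C_mul_le t q)
    refine h1.trans_lt ?_
    rw [degree_eq_natDegree hP.ne_zero, hPd]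
    exact_mod_cast Nat.lt_add_of_pos_right (Nat.succ_pos k)
  subst hf
  refine ⟨hP.sub_of_left hlt, ?_⟩
  rw [natDegree_sub_eq_left_of_natDegree_lt, hPd]
  calc (C t * q).natDegree ≤ q.natDegree := natDegree_C_mul_le t q
    _ < P.natDegree := by rw [hPd]; omega

/-- the two resultant identities -/
theorem member_res {q h P f W : K[X]} {t : K} (hq : q.Monic) (hfm : f.Monic)
    (hw : wr P q = W * h ^ 2) (hf : f = P - C t * q) :
    (-1) ^ (f.natDegree * (f.natDegree - 1) / 2) * f.discr * f.resultant q
        = f.resultant W * f.resultant h ^ 2 ∧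
    (-1) ^ q.natDegree * ((-1) ^ (q.natDegree * f.natDegree) * f.resultant q) *
        ((-1) ^ (q.natDegree * (q.natDegree - 1) / 2) * q.discr)
        = q.resultant W * q.resultant h ^ 2 := by
  have hwf : derivative f * q - f * derivative q = W * h ^ 2 := by
    rw [← hw, hf]
    simp only [wr, derivative_sub, derivative_mul, derivative_C]
    ring
  constructor
  · rw [← res_deriv hfm, ← res_mul hfm, ← res_pow hfm, ← res_mul hfm]
    apply res_congr hfm
    rw [← hwf]
    exact ⟨derivative q, by ring⟩
  · rw [← res_deriv hq, ← res_pow hq, ← res_mul hq, ← res_comm, ← res_neg hq, ← res_mul hq]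
    apply res_congr hq
    rw [← hwf]
    exact ⟨-derivative f, by ring⟩

theorem discr_two {q h P f : K[X]} {t : K} (hq : q.Monic) (hh : h.Monic)
    (hd : h.natDegree = q.natDegree) (hP : P.Monic) (hPd : P.natDegree = q.natDegree + 2)
    (hw : wr P q = 2 * X * h ^ 2) (hf : f = P - C t * q) :
    f.discr * q.discr * (f.resultant q) ^ 2 =
      - (2 ^ (q.natDegree + 1) * f.resultant h * q.resultant h) ^ 2
        * (f.eval 0 * q.eval 0) := by
  obtain ⟨hfm, hfd⟩ := member_monic (k := 1) hq hP hPd hf
  obtain ⟨h1, h2⟩ := member_res hq hfm hw hf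
  have hW : ∀ g : K[X], g.Monic → g.resultant (2 * X) = 2 ^ g.natDegree *
      ((-1) ^ g.natDegree * g.eval 0) := by
    intro g hg
    have : (2 : K[X]) = C 2 := rfl
    rw [res_mul hg, res_X hg, this, res_C]
  rw [hW f hfm] at h1
  rw [hW q hq] at h2
  generalize f.resultant q = A at *
  generalize f.resultant h = B at *
  generalize q.resultant h = D at *
  generalize f.discr = U at *
  generalize q.discr = V at *
  generalize f.eval 0 = u at *
  generalize q.eval 0 = v at *
  rw [hfd] at h1 h2
  generalize q.natDegree = m at *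
  have e1 : ((-1 : K)) ^ ((m + (1 + 1)) * (m + (1 + 1) - 1) / 2) =
      - (-1) ^ (m * (m - 1) / 2) := by
    have := tri_two m
    rw [show m + (1 + 1) = m + 2 from rfl, this, pow_add, pow_add, pow_mul]
    norm_num
  have e2 : ((-1 : K)) ^ m * (-1) ^ (m * (m + (1 + 1))) = 1 := by
    rw [← pow_add]
    apply Even.neg_one_pow
    have : m + m * (m + (1 + 1)) = m * (m + 1) + 2 * m := by ring
    rw [this]
    exact (Nat.even_mul_succ_self m).add (even_two_mul m)
  have e3 : ((-1 : K)) ^ (m * (m - 1) / 2) * (-1) ^ (m * (m - 1) / 2) = 1 := by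
    rw [← mul_pow]; norm_num
  have e4 : ((-1 : K)) ^ (m + (1 + 1)) * (-1) ^ m = 1 := by
    rw [← pow_add]; apply Even.neg_one_pow; exact ⟨m + 1, by ring⟩
  rw [e1] at h1
  have h3 := congrArg₂ (· * ·) h1 h2
  have h4 : ∀ s a b : K, s * s = 1 → a * b = 1 →
      -s * U * A * (a * (b * A) * (s * V)) = - (U * V * A ^ 2) := by
    intro s a b hs hab
    linear_combination (-(a * b) * (U * V * A ^ 2)) * hs - (U * V * A ^ 2) * hab
  rw [h4 _ _ _ e3 e2] at h3
  have h5 : U * V * A ^ 2 = - (2 ^ (m + (1 + 1)) * 2 ^ m *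
      (((-1) ^ (m + (1 + 1)) * (-1) ^ m) * ((B * D) ^ 2 * (u * v)))) := by
    linear_combination -h3
  rw [h5, e4]
  ring

end AnWA
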