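import Pool.Agent.H.MP_83e36b_nt.Defs
import Pool.Agent.H.MP_83e36b_nt.A2a

/-! Module A2b: discriminant identity, weight 1; separability criterion.

PROOF. discr_one: same as A2a with ω=1: at roots x of f: f'(x)q(x)=h(x)^2; at roots z of q: -f(z)q'(z)=h(z)^2. n=m+1, m even. Product: (-1)^{n(n-1)/2+m(m-1)/2+m} disc f disc q Res(f,q)Res(q,f)=(Res(f,h)Res(q,h))^2 (up to squares of signs), Res(q,f)=(-1)^{nm}Res(f,q)=Res(f,q), sign exponent n(n-1)/2+m(m-1)/2+m = m^2+m even... (m even) so +1. The other statements: look in Mathlib (Polynomial.discr, Polynomial.resultant; discr_ne_zero / resultant_ne_zero / separable lemmas may exist). f = 1 allowed (discr 1 = 1, separable). If discr_ne_zero_iff_separable fails for f=1 by the Mathlib convention tell helper3.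
-/

open Polynomial

namespace AnWA

variable {K : Type*} [Field K]

theorem discr_one {q h P f : K[X]} {t : K} (hq : q.Monic) (hh : h.Monic)
    (hd : h.natDegree = q.natDegree) (hP : P.Monic) (hPd : P.natDegree = q.natDegree + 1)
    (hm : Even q.natDegree) (hw : wr P q = h ^ 2) (hf : f = P - C t * q) :
    f.discr * q.discr * (f.resultant q) ^ 2 = (f.resultant h * q.resultant h) ^ 2 := by
  obtain ⟨hfm, hfd⟩ := member_monic (k := 0) hq hP hPd hf
  obtain ⟨h1, h2⟩ := member_res (W := 1) hq hfm (by rw [hw, one_mul]) hf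
  have hW : ∀ g : K[X], g.Monic → g.resultant 1 = 1 := by
    intro g hg
    simp
  rw [hW f hfm] at h1
  rw [hW q hq] at h2
  generalize f.resultant q = A at *
  generalize f.resultant h = B at *
  generalize q.resultant h = D at *
  generalize f.discr = U at *
  generalize q.discr = V at *
  rw [hfd] at h1 h2
  generalize q.natDegree = m at *
  have em : ((-1 : K)) ^ m = 1 := hm.neg_one_pow
  have e1 : ((-1 : K)) ^ ((m + (0 + 1)) * (m + (0 + 1) - 1) / 2) =
      (-1) ^ (m * (m - 1) / 2) := by
    have := tri_one m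
    rw [show m + (0 + 1) = m + 1 from rfl, this, pow_add, em, mul_one]
  have e2 : ((-1 : K)) ^ (m * (m + (0 + 1))) = 1 := by
    rw [pow_mul, em, one_pow]
  have e3 : ((-1 : K)) ^ (m * (m - 1) / 2) * (-1) ^ (m * (m - 1) / 2) = 1 := by
    rw [← mul_pow]; norm_num
  rw [e1] at h1
  rw [em, e2] at h2
  have h3 := congrArg₂ (· * ·) h1 h2
  linear_combination h3 - (U * V * A ^ 2) * e3

theorem resultant_ne_zero_iff_isCoprime {f g : K[X]} (hf : f.Monic) (hg : g.Monic) :
    f.resultant g ≠ 0 ↔ IsCoprime f g := by
  rw [← isUnit_resultant_iff_isCoprime hf, isUnit_iff_ne_zero]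

/-- for separability -/
theorem discr_ne_zero_iff_separable {f : K[X]} (hf : f.Monic) :
    f.discr ≠ 0 ↔ f.Separable := by
  rw [separable_def, ← isUnit_resultant_iff_isCoprime hf, isUnit_iff_ne_zero, res_deriv hf]
  have : ((-1 : K)) ^ (f.natDegree * (f.natDegree - 1) / 2) ≠ 0 := pow_ne_zero _ (by norm_num)
  constructor
  · intro h; exact mul_ne_zero this h
  · intro h; exact right_ne_zero_of_mul h

theorem resultant_map {K' : Type*} [Field K'] (φ : K →+* K') (f g : K[X]) :
    (f.map φ).resultant (g.map φ) = φ (f.resultant g) := by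
  rw [natDegree_map, natDegree_map, resultant_map_map]

theorem discr_map {K' : Type*} [Field K'] (φ : K →+* K') (f : K[X]) :
    (f.map φ).discr = φ f.discr := by
  by_cases h0 : f.natDegree = 0
  · obtain ⟨a, rfl⟩ := natDegree_eq_zero.mp h0
    simp
  · have hd : 0 < f.degree := natDegree_pos_iff_degree_pos.mp (Nat.pos_of_ne_zero h0)
    have hd' : 0 < (f.map φ).degree := by rwa [degree_map]
    have h1 := resultant_deriv hd
    have h2 := resultant_deriv hd'
    rw [natDegree_map, derivative_map, resultant_map_map, h1, leadingCoeff_map, map_mul, map_mul,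
      map_pow, map_neg, map_one] at h2
    have hne : ((-1 : K')) ^ (f.natDegree * (f.natDegree - 1) / 2) * φ f.leadingCoeff ≠ 0 := by
      refine mul_ne_zero (pow_ne_zero _ (by norm_num)) ?_
      rw [_root_.map_ne_zero]
      intro h
      rw [leadingCoeff_eq_zero] at h
      rw [h] at h0
      exact h0 natDegree_zero
    exact (mul_left_cancel₀ hne h2).symm

end AnWA
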