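import Pool.Agent.H.MP_83e36b_nt.Defs

/-! Module A3a: change of generator: functoriality and continuity. -/

open Polynomial Filter Topology

namespace AnWA

theorem chg_monic {K : Type*} [Field K] (n : ℕ) (f ρ : K[X]) :
    (chg n f ρ).Monic ∧ (chg n f ρ).natDegree = n := by
  refine ⟨Matrix.charpoly_monic _, ?_⟩
  unfold chg
  rw [Matrix.charpoly_natDegree_eq_dim, Fintype.card_fin]

theorem compMat_map {K K' : Type*} [Field K] [Field K'] (φ : K →+* K') (n : ℕ) (f : K[X]) :
    compMat n (f.map φ) = (compMat n f).map φ := by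
  ext i j
  simp only [compMat, Matrix.map_apply, coeff_map]
  split_ifs <;> simp

theorem genMat_map {K K' : Type*} [Field K] [Field K'] (φ : K →+* K') (n : ℕ) (f ρ : K[X]) :
    genMat n (f.map φ) (ρ.map φ) = (genMat n f ρ).map φ := by
  have h1 : (genMat n f ρ).map φ = φ.mapMatrix (aeval (compMat n f) ρ) := rfl
  rw [h1]
  unfold genMat
  rw [aeval_def, aeval_def, eval₂_map, hom_eval₂, compMat_map]
  congr 1
  ext a i j
  simp only [RingHom.comp_apply, RingHom.mapMatrix_apply, Matrix.map_apply,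
    Matrix.algebraMap_matrix_apply]
  split_ifs <;> simp

theorem chg_map {K K' : Type*} [Field K] [Field K'] (φ : K →+* K') (n : ℕ) (f ρ : K[X]) :
    (chg n f ρ).map φ = chg n (f.map φ) (ρ.map φ) := by
  unfold chg
  rw [genMat_map, Matrix.charpoly_map]

theorem chgDet_map {K K' : Type*} [Field K] [Field K'] (φ : K →+* K') (n : ℕ) (f ρ : K[X]) :
    φ (chgDet n f ρ) = chgDet n (f.map φ) (ρ.map φ) := by
  unfold chgDet
  rw [RingHom.map_det]
  congr 1
  ext i j
  rw [genMat_map]
  have h1 : ((genMat n f ρ).map φ) ^ (j : ℕ) = ((genMat n f ρ) ^ (j : ℕ)).map φ :=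
    (map_pow φ.mapMatrix (genMat n f ρ) (j : ℕ)).symm
  rw [h1]
  rfl

section Tendsto

variable {K T : Type*} [NormedField K] {l : Filter T}

theorem polyTendsto_const (g : K[X]) : PolyTendsto l (fun _ : T => g) g :=
  fun _ => tendsto_const_nhds

theorem PolyTendsto.mul' {f g : T → K[X]} {f0 g0 : K[X]} (hf : PolyTendsto l f f0)
    (hg : PolyTendsto l g g0) : PolyTendsto l (fun t => f t * g t) (f0 * g0) := by
  intro j
  simp only [coeff_mul]
  exact tendsto_finsetSum _ (fun i _ => (hf i.1).mul (hg i.2))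

theorem PolyTendsto.sub' {f g : T → K[X]} {f0 g0 : K[X]} (hf : PolyTendsto l f f0)
    (hg : PolyTendsto l g g0) : PolyTendsto l (fun t => f t - g t) (f0 - g0) := by
  intro j
  simp only [coeff_sub]
  exact (hf j).sub (hg j)

theorem PolyTendsto.prod' {ι : Type*} {f : ι → T → K[X]} {f0 : ι → K[X]} (s : Finset ι)
    (hf : ∀ i ∈ s, PolyTendsto l (f i) (f0 i)) :
    PolyTendsto l (fun t => ∏ i ∈ s, f i t) (∏ i ∈ s, f0 i) := by
  classical
  induction s using Finset.induction_on with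
  | empty =>
    simp only [Finset.prod_empty]
    exact polyTendsto_const 1
  | insert a s ha ih =>
    simp only [Finset.prod_insert ha]
    exact (hf a (Finset.mem_insert_self a s)).mul'
      (ih (fun i hi => hf i (Finset.mem_insert_of_mem hi)))

theorem PolyTendsto.sum' {ι : Type*} {f : ι → T → K[X]} {f0 : ι → K[X]} (s : Finset ι)
    (hf : ∀ i ∈ s, PolyTendsto l (f i) (f0 i)) :
    PolyTendsto l (fun t => ∑ i ∈ s, f i t) (∑ i ∈ s, f0 i) := by
  intro j
  simp only [finsetSum_coeff]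
  exact tendsto_finsetSum _ (fun i hi => hf i hi j)

theorem polyTendsto_C {a : T → K} {a0 : K} (h : Tendsto a l (𝓝 a0)) :
    PolyTendsto l (fun t => C (a t)) (C a0) := by
  intro j
  simp only [coeff_C]
  split_ifs
  · exact h
  · exact tendsto_const_nhds

theorem charpoly_tendsto {n : ℕ} {M : T → Matrix (Fin n) (Fin n) K}
    {M0 : Matrix (Fin n) (Fin n) K} (h : ∀ i j, Tendsto (fun t => M t i j) l (𝓝 (M0 i j))) :
    PolyTendsto l (fun t => (M t).charpoly) M0.charpoly := by
  simp only [Matrix.charpoly, Matrix.det_apply']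
  apply PolyTendsto.sum'
  intro σ _
  apply (polyTendsto_const _).mul'
  apply PolyTendsto.prod'
  intro i _
  simp only [Matrix.charmatrix_apply]
  exact (polyTendsto_const _).sub' (polyTendsto_C (h _ _))

theorem matrix_tendsto {n : ℕ} {A : T → Matrix (Fin n) (Fin n) K}
    {A0 : Matrix (Fin n) (Fin n) K} (h : ∀ i j, Tendsto (fun t => A t i j) l (𝓝 (A0 i j))) :
    Tendsto A l (𝓝 A0) :=
  (tendsto_pi_nhds (f := fun t i => (A t i : Fin n → K)) (g := fun i => A0 i)).mpr
    (fun i => tendsto_pi_nhds.mpr (h i))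

theorem matrix_entry_tendsto {n : ℕ} {A : T → Matrix (Fin n) (Fin n) K}
    {A0 : Matrix (Fin n) (Fin n) K} (h : Tendsto A l (𝓝 A0)) (i j : Fin n) :
    Tendsto (fun t => A t i j) l (𝓝 (A0 i j)) :=
  ((continuous_id.matrix_elem i j).tendsto A0).comp h

theorem compMat_tendsto (n : ℕ) {f : T → K[X]} {f0 : K[X]} (hf : PolyTendsto l f f0) :
    Tendsto (fun t => compMat n (f t)) l (𝓝 (compMat n f0)) := by
  apply matrix_tendsto
  intro i j
  simp only [compMat]
  split_ifs
  · exact (hf i).neg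
  · exact tendsto_const_nhds
  · exact tendsto_const_nhds

theorem genMat_tendsto (n N : ℕ) {f ρ : T → K[X]}
    {f0 ρ0 : K[X]} (hf : PolyTendsto l f f0) (hρ : PolyTendsto l ρ ρ0)
    (hN : ∀ t, (ρ t).natDegree ≤ N) (hN0 : ρ0.natDegree ≤ N) :
    Tendsto (fun t => genMat n (f t) (ρ t)) l (𝓝 (genMat n f0 ρ0)) := by
  unfold genMat
  have e0 : aeval (compMat n f0) ρ0
      = ∑ k ∈ Finset.range (N + 1), ρ0.coeff k • (compMat n f0) ^ k :=
    aeval_eq_sum_range' (Nat.lt_succ_of_le hN0) _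
  have e : ∀ t, aeval (compMat n (f t)) (ρ t)
      = ∑ k ∈ Finset.range (N + 1), (ρ t).coeff k • (compMat n (f t)) ^ k := fun t =>
    aeval_eq_sum_range' (Nat.lt_succ_of_le (hN t)) _
  rw [e0]
  simp only [e]
  exact tendsto_finsetSum _ (fun k _ => (hρ k).smul ((compMat_tendsto n hf).pow k))

end Tendsto

theorem chg_tendsto {K T : Type*} [NormedField K] {l : Filter T} (n N : ℕ) {f ρ : T → K[X]}
    {f0 ρ0 : K[X]} (hf : PolyTendsto l f f0) (hρ : PolyTendsto l ρ ρ0)
    (hN : ∀ t, (ρ t).natDegree ≤ N) (hN0 : ρ0.natDegree ≤ N) :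
    PolyTendsto l (fun t => chg n (f t) (ρ t)) (chg n f0 ρ0) := by
  have h := genMat_tendsto n N hf hρ hN hN0
  unfold chg
  exact charpoly_tendsto (fun i j => matrix_entry_tendsto h i j)

theorem chgDet_tendsto {K T : Type*} [NormedField K] {l : Filter T} (n N : ℕ)
    {f ρ : T → K[X]} {f0 ρ0 : K[X]} (hf : PolyTendsto l f f0) (hρ : PolyTendsto l ρ ρ0)
    (hN : ∀ t, (ρ t).natDegree ≤ N) (hN0 : ρ0.natDegree ≤ N) :
    Tendsto (fun t => chgDet n (f t) (ρ t)) l (𝓝 (chgDet n f0 ρ0)) := by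
  have h := genMat_tendsto n N hf hρ hN hN0
  unfold chgDet
  have hdet : Continuous (fun A : Matrix (Fin n) (Fin n) K => A.det) :=
    continuous_id.matrix_det
  refine (hdet.tendsto _).comp (matrix_tendsto ?_)
  intro i j
  exact matrix_entry_tendsto (h.pow (j : ℕ)) i _

end AnWA
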