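import Pool.Agent.H.MP_83e36b_nt.Defs

/-! Module C2a: equivariant points are Zariski dense.

PROOF. n = card ι. The linear map c ∈ (Fin n → L) ↦ (Σ_k c_k ξ_i^k)_i is bijective (Vandermonde, ξ injective). So Ψ := Φ composed with it (MvPolynomial.bind₁/aeval with the linear forms Σ_k C(ξ_i^k) X_k) is nonzero in MvPolynomial (Fin n) L: evaluate at a preimage of a point where Φ≠0 (MvPolynomial.funext: L infinite, it contains F). By MvPolynomial.funext_set (s k = range (algebraMap F L), infinite), Ψ does not vanish at some c ∈ F^n; ρ = Σ c_k X^k.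
-/

open Polynomial

namespace AnWA

theorem exists_equivariant {F L : Type*} [Field F] [Infinite F] [Field L] [Algebra F L]
    {ι : Type*} [Fintype ι] (ξ : ι → L) (hξ : Function.Injective ξ)
    (Φ : MvPolynomial ι L) (hΦ : Φ ≠ 0) :
    ∃ ρ : F[X], MvPolynomial.eval (fun i => aeval (ξ i) ρ) Φ ≠ 0 := by
  classical
  have hL : Infinite L := Infinite.of_injective _ (algebraMap F L).injective
  let n := Fintype.card ι
  let lin : ι → MvPolynomial (Fin n) L := fun i =>
    ∑ k : Fin n, MvPolynomial.C (ξ i ^ (k : ℕ)) * MvPolynomial.X k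
  let Ψ : MvPolynomial (Fin n) L := MvPolynomial.bind₁ lin Φ
  have hev : ∀ c : Fin n → L, MvPolynomial.eval c Ψ =
      MvPolynomial.eval (fun i => ∑ k : Fin n, ξ i ^ (k : ℕ) * c k) Φ := by
    intro c
    have h1 : MvPolynomial.eval c Ψ = MvPolynomial.eval (fun i => MvPolynomial.eval c (lin i)) Φ := by
      change MvPolynomial.eval c (MvPolynomial.bind₁ lin Φ) = _
      rw [← MvPolynomial.coe_aeval_eq_eval, ← MvPolynomial.coe_aeval_eq_eval]
      exact MvPolynomial.aeval_bind₁ _ _ _
    rw [h1]
    congr 1
    congr 1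
    funext i
    change MvPolynomial.eval c (∑ k : Fin n, MvPolynomial.C (ξ i ^ (k : ℕ)) * MvPolynomial.X k) = _
    rw [map_sum]
    refine Finset.sum_congr rfl fun k _ => ?_
    rw [map_mul, MvPolynomial.eval_C, MvPolynomial.eval_X]
  have hΨ : Ψ ≠ 0 := by
    obtain ⟨x, hx⟩ : ∃ x : ι → L, MvPolynomial.eval x Φ ≠ 0 := by
      by_contra hcon
      push Not at hcon
      exact hΦ (MvPolynomial.funext (fun x => by rw [hcon x, map_zero]))
    intro h0
    apply hx
    let q : L[X] := Lagrange.interpolate Finset.univ ξ x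
    have hq1 : q.degree < (Finset.univ : Finset ι).card :=
      Lagrange.degree_interpolate_lt x hξ.injOn
    have hq2 : q.natDegree < n ∨ n = 0 := by
      by_cases hn : n = 0
      · exact Or.inr hn
      · left
        by_cases hq : q = 0
        · rw [hq, natDegree_zero]
          exact Nat.pos_of_ne_zero hn
        · exact (natDegree_lt_iff_degree_lt hq).2 hq1
    have h2 := hev (fun k => q.coeff k)
    rw [h0, map_zero] at h2
    have h3 : (fun i => ∑ k : Fin n, ξ i ^ (k : ℕ) * q.coeff k) = x := by
      funext i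
      have h4 : q.eval (ξ i) = x i :=
        Lagrange.eval_interpolate_at_node x hξ.injOn (Finset.mem_univ i)
      rcases hq2 with h5 | h5
      · rw [← h4, Polynomial.eval_eq_sum_range' h5, ← Fin.sum_univ_eq_sum_range
          (fun k => q.coeff k * ξ i ^ k)]
        refine Finset.sum_congr rfl fun k _ => ?_
        ring
      · exfalso
        have : Nonempty ι := ⟨i⟩
        exact Fintype.card_ne_zero h5
    rw [h3] at h2
    exact h2.symm
  obtain ⟨c, hc, hc2⟩ : ∃ c ∈ Set.pi Set.univ (fun _ : Fin n => Set.range (algebraMap F L)),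
      MvPolynomial.eval c Ψ ≠ 0 := by
    by_contra hcon
    push Not at hcon
    apply hΨ
    apply MvPolynomial.funext_set (fun _ : Fin n => Set.range (algebraMap F L))
      (fun _ => Set.infinite_range_of_injective (algebraMap F L).injective)
    intro c hc
    rw [hcon c hc, map_zero]
  have hc' : ∀ k, ∃ a : F, algebraMap F L a = c k := fun k => hc k (Set.mem_univ k)
  choose a ha using hc'
  refine ⟨∑ k : Fin n, C (a k) * X ^ (k : ℕ), ?_⟩
  rw [hev] at hc2
  have h6 : (fun i => aeval (ξ i) (∑ k : Fin n, C (a k) * X ^ (k : ℕ))) =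
      fun i => ∑ k : Fin n, ξ i ^ (k : ℕ) * c k := by
    funext i
    rw [map_sum]
    refine Finset.sum_congr rfl fun k _ => ?_
    rw [map_mul, map_pow, aeval_X, aeval_C, ha, mul_comm]
  rw [h6]
  exact hc2

end AnWA
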