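import Pool.Agent.H.MP_83e36b_nt.Defs

/-! Module RDefs: definitions for the theorem at the non-dyadic places.
-/

open Polynomial Filter Topology

namespace AnWA

/-- Polynomials of degree `n` which can be reached from an even polynomial by changes of the
generator and by the moves `q ↦ g`, `(X - x0) * g = P - t * q`, in the pencils of weight one. -/
inductive Reach {F : Type*} [Field F] (n : ℕ) : F[X] → Prop
  | base (g : F[X]) (hg : g.Monic) (hn : 2 * g.natDegree = n)
      (hs : (expand F 2 g).Separable) : Reach n (expand F 2 g)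
  | gen (f ρ : F[X]) (hf : Reach n f) (hs : (chg n f ρ).Separable) : Reach n (chg n f ρ)
  | move (q h P g : F[X]) (x0 t : F) (hq : Reach n q) (hp : Pencil 1 q h P) (hnd : NonDeg 1 q)
      (hg : (X - C x0) * g = P - C t * q) (hs : (P - C t * q).Separable)
      (hc : IsCoprime (P - C t * q) q) : Reach n g

/-- every subgroup is of odd index in a subgroup `K` which is everything or of index two in a
larger subgroup -/
def ChainGroup (G : Type*) [Group G] : Prop :=
  ∀ H : Subgroup G, ∃ K : Subgroup G, H ≤ K ∧ Odd (H.relIndex K) ∧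
    (K = ⊤ ∨ ∃ M : Subgroup G, K ≤ M ∧ K.relIndex M = 2)

/-- The hypotheses on a field `F` and its algebraic closure `L` which are used in the local
part for the fields of odd residue characteristic. -/
structure ChainPair (F L : Type*) [NontriviallyNormedField F] [NormedField L]
    [NormedAlgebra F L] : Prop where
  iso : ∀ (σ : L ≃ₐ[F] L) (x : L), ‖σ x‖ = ‖x‖
  chain : ∀ (E : IntermediateField F L), FiniteDimensional F E → IsGalois F E →
    ChainGroup (E ≃ₐ[F] E)

/-- `F` has an algebraic closure as in `ChainPair`. -/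
def HasChainClosure.{u} (F : Type u) [NontriviallyNormedField F] : Prop :=
  ∃ (L : Type u) (_ : NormedField L) (_ : NormedAlgebra F L), IsAlgClosed L ∧ IsGalois F L ∧
    ChainPair F L

section Types

variable {F : Type*} (L : Type*) [Field F] [Field L] [Algebra F L] [DecidableEq L]

/-- On the roots of `f` the function `p` has no zero, its set of values is symmetric and its
fibres have odd cardinality. -/
structure OddType (f p : F[X]) : Prop where
  ne : ∀ x ∈ (f.aroots L).toFinset, aeval x p ≠ 0
  neg : ∀ x ∈ (f.aroots L).toFinset, ∃ x' ∈ (f.aroots L).toFinset, aeval x' p = - aeval x p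
  odd : ∀ x ∈ (f.aroots L).toFinset,
    Odd ((f.aroots L).toFinset.filter (fun z => aeval z p = aeval x p)).card

/-- On the roots of `f` the function `p` has no zero, its set of values is symmetric and it is
injective. -/
structure TType (f p : F[X]) : Prop where
  ne : ∀ x ∈ (f.aroots L).toFinset, aeval x p ≠ 0
  neg : ∀ x ∈ (f.aroots L).toFinset, ∃ x' ∈ (f.aroots L).toFinset, aeval x' p = - aeval x p
  inj : Set.InjOn (fun x => aeval x p) ((f.aroots L).toFinset : Set L)

end Types

section Global

variable {k : Type*} [Field k] {ι : Type*} {K : ι → Type*} [∀ i, NormedField (K i)]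

/-- valid local data -/
def Valid (c : k) (n : ℕ) (φ : ∀ i, k →+* K i) (f : ∀ i, (K i)[X]) (y : ∀ i, K i) : Prop :=
  ∀ i, (f i).Monic ∧ (f i).natDegree = n ∧ φ i c * (f i).discr = y i ^ 2 ∧ y i ≠ 0

/-- the local data can be approximated -/
def App (c : k) (n : ℕ) (φ : ∀ i, k →+* K i) (f : ∀ i, (K i)[X]) (y : ∀ i, K i) : Prop :=
  ∀ ε : ℝ, 0 < ε → ∃ (g : k[X]) (z : k), g.Monic ∧ g.natDegree = n ∧ c * g.discr = z ^ 2 ∧
    z ≠ 0 ∧ ∀ i, ‖φ i z - y i‖ < ε ∧ ∀ j, ‖(g.map (φ i)).coeff j - (f i).coeff j‖ < ε

/-- approximation holds at `f` for all valid `y` -/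
def AppAll (c : k) (n : ℕ) (φ : ∀ i, k →+* K i) (f : ∀ i, (K i)[X]) : Prop :=
  ∀ y, Valid c n φ f y → App c n φ f y

end Global

/-- the factor between the square roots of the discriminants in a move -/
noncomputable def moveE {K : Type*} [Field K] (q h g : K[X]) (x0 : K) : K :=
  g.resultant h * q.resultant h / (q.discr * h.eval x0 * g.resultant q)

end AnWA
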