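import Pool.Agent.H.MP_83e36b_nt.Defs

/-! Module A1b: uniqueness and functoriality of companions.

PROOF. unique: h-h' has degree < deg q and q | dOp ω q (h-h') (linear), so h=h' by NonDeg. The forms of P,P' then have the same Π, so P-P'=r-r' has degree < deg q and wr(P-P') q = 0, i.e. (r-r')'q=(r-r')q'; q | (r-r')q', gcd(q,q')=1, so q | r-r', r=r'. map: every clause maps (Separable.map, degree_map, map_dvd). of_map: same clauses descend (monic: monic of injective map; separable_map; degree_map; Polynomial.map_dvd_map' / map_dvd_map; form: take r := P - Π q and compare with the map; wr by map_injective). nonDeg_of_map: map w. pencil_h_monic: h = q + (h-q), monic_add_of_left like lemmas. pencil_P_two: ω=2X has coeff 1 = 2, coeff 0 = 0, so P=(X²+cX)q+r. pencil_P_one: coeff 0 =1, coeff 1 = 0, P=(0*X²+1*X)q+r.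
-/

open Polynomial

namespace AnWA

variable {K : Type*} [Field K]

theorem A1b_dOp_sub (ω q a b : K[X]) : dOp ω q (a - b) = dOp ω q a - dOp ω q b := by
  unfold dOp
  rw [derivative_sub]
  ring

theorem A1b_dOp_map {K' : Type*} [Field K'] (φ : K →+* K') (ω q w : K[X]) :
    (dOp ω q w).map φ = dOp (ω.map φ) (q.map φ) (w.map φ) := by
  simp [dOp, derivative_map]

theorem A1b_wr_map {K' : Type*} [Field K'] (φ : K →+* K') (P q : K[X]) :
    (wr P q).map φ = wr (P.map φ) (q.map φ) := by
  simp [wr, derivative_map]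

/-- uniqueness of the companions -/
theorem pencil_unique [CharZero K] {ω q h P h' P' : K[X]} (hnd : NonDeg ω q)
    (H : Pencil ω q h P) (H' : Pencil ω q h' P') : h = h' ∧ P = P' := by
  have hh : h = h' := by
    have hdeg : (h - h').degree < q.degree := by
      have e : h - h' = (h - q) - (h' - q) := by ring
      rw [e]
      exact lt_of_le_of_lt (degree_sub_le _ _) (max_lt H.hdeg H'.hdeg)
    have hdvd : q ∣ dOp ω q (h - h') := by
      rw [A1b_dOp_sub]
      exact dvd_sub H.hD H'.hD
    exact sub_eq_zero.1 (hnd _ hdeg hdvd)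
  subst hh
  refine ⟨rfl, ?_⟩
  obtain ⟨r, hr, hP⟩ := H.form
  obtain ⟨r', hr', hP'⟩ := H'.form
  have hPP : P - P' = r - r' := by rw [hP, hP']; ring
  have hwr : derivative (r - r') * q = (r - r') * derivative q := by
    have h1 := H.wr_eq
    have h2 := H'.wr_eq
    have h3 : wr P q - wr P' q = 0 := by rw [h1, h2, sub_self]
    rw [← hPP]
    unfold wr at h3
    rw [derivative_sub]
    linear_combination h3
  have hdvd : q ∣ (r - r') := by
    have h1 : q ∣ (r - r') * derivative q := ⟨derivative (r - r'), by rw [← hwr]; ring⟩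
    have hcop : IsCoprime q (derivative q) := H.sep
    exact hcop.dvd_of_dvd_mul_right h1
  have hz : r - r' = 0 := by
    refine Polynomial.eq_zero_of_dvd_of_degree_lt hdvd ?_
    exact lt_of_le_of_lt (degree_sub_le _ _) (max_lt hr hr')
  rw [hz] at hPP
  exact sub_eq_zero.1 hPP

theorem pencil_map {K' : Type*} [Field K'] (φ : K →+* K') {ω q h P : K[X]}
    (H : Pencil ω q h P) : Pencil (ω.map φ) (q.map φ) (h.map φ) (P.map φ) := by
  refine ⟨H.monic.map φ, H.sep.map, ?_, ?_, ?_, ?_⟩
  · rw [← Polynomial.map_sub, degree_map, degree_map]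
    exact H.hdeg
  · rw [← A1b_dOp_map]
    exact Polynomial.map_dvd φ H.hD
  · obtain ⟨r, hr, hP⟩ := H.form
    refine ⟨r.map φ, ?_, ?_⟩
    · rw [degree_map, degree_map]; exact hr
    · rw [natDegree_map, ← Polynomial.map_sub]
      conv_lhs => rw [hP]
      simp only [Polynomial.map_add, Polynomial.map_mul, Polynomial.map_pow, map_C, map_X,
        coeff_map, map_add, map_mul, map_div₀, map_ofNat, Polynomial.map_ofNat]
  · rw [← A1b_wr_map, H.wr_eq]
    simp

theorem pencil_of_map {K' : Type*} [Field K'] (φ : K →+* K') {ω q h P : K[X]}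
    (H : Pencil (ω.map φ) (q.map φ) (h.map φ) (P.map φ)) : Pencil ω q h P := by
  refine ⟨monic_of_injective φ.injective H.monic, (separable_map φ).1 H.sep, ?_, ?_, ?_, ?_⟩
  · have := H.hdeg
    rwa [← Polynomial.map_sub, degree_map, degree_map] at this
  · have := H.hD
    rw [← A1b_dOp_map] at this
    exact (Polynomial.map_dvd_map' φ).1 this
  · obtain ⟨r, hr, hP⟩ := H.form
    refine ⟨P - (C (ω.coeff 1 / 2) * X ^ 2
      + C (ω.coeff 0 + 2 * ω.coeff 1 * (h - q).coeff (q.natDegree - 1)) * X) * q, ?_, by ring⟩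
    rw [← degree_map (P - _) φ, ← degree_map q φ]
    have e : (P - (C (ω.coeff 1 / 2) * X ^ 2
      + C (ω.coeff 0 + 2 * ω.coeff 1 * (h - q).coeff (q.natDegree - 1)) * X) * q).map φ = r := by
      rw [natDegree_map, ← Polynomial.map_sub] at hP
      simp only [coeff_map] at hP
      rw [Polynomial.map_sub, hP]
      simp only [Polynomial.map_add, Polynomial.map_mul, Polynomial.map_pow, map_C, map_X,
        map_add, map_mul, map_div₀, map_ofNat, Polynomial.map_ofNat]
      ring
    rw [e]
    exact hr
  · apply Polynomial.map_injective φ φ.injective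
    rw [A1b_wr_map, H.wr_eq]
    simp

theorem nonDeg_of_map {K' : Type*} [Field K'] (φ : K →+* K') {ω q : K[X]}
    (H : NonDeg (ω.map φ) (q.map φ)) : NonDeg ω q := by
  intro w hw hd
  have h1 : w.map φ = 0 := by
    refine H (w.map φ) ?_ ?_
    · rw [degree_map, degree_map]; exact hw
    · rw [← A1b_dOp_map]; exact Polynomial.map_dvd φ hd
  exact (Polynomial.map_eq_zero φ).1 h1

theorem pencil_h_monic {ω q h P : K[X]} (H : Pencil ω q h P) :
    h.Monic ∧ h.natDegree = q.natDegree := by
  have e : h = q + (h - q) := by ring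
  constructor
  · rw [e]
    exact H.monic.add_of_left H.hdeg
  · rw [e]
    exact natDegree_add_eq_left_of_degree_lt H.hdeg

theorem pencil_P_two [CharZero K] {q h P : K[X]} (H : Pencil (2 * X) q h P) :
    P.Monic ∧ P.natDegree = q.natDegree + 2 := by
  obtain ⟨r, hr, hP⟩ := H.form
  have c1 : (2 * X : K[X]).coeff 1 = 2 := by
    have : (2 * X : K[X]) = C 2 * X := by rw [map_ofNat]
    rw [this, coeff_C_mul, coeff_X_one, mul_one]
  rw [c1, div_self (two_ne_zero' K), C_1, one_mul] at hP
  set c := (2 * X : K[X]).coeff 0 + 2 * 2 * (h - q).coeff (q.natDegree - 1) with hc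
  have hm : (X ^ 2 + C c * X).Monic := by
    refine (monic_X_pow 2).add_of_left ?_
    rw [degree_X_pow]
    exact lt_of_le_of_lt (degree_C_mul_X_le c) (by norm_num)
  have hd : (X ^ 2 + C c * X).natDegree = 2 := by
    rw [natDegree_add_eq_left_of_degree_lt, natDegree_X_pow]
    rw [degree_X_pow]
    exact lt_of_le_of_lt (degree_C_mul_X_le c) (by norm_num)
  have hm2 : ((X ^ 2 + C c * X) * q).Monic := hm.mul H.monic
  have hlt : r.degree < ((X ^ 2 + C c * X) * q).degree := by
    refine lt_of_lt_of_le hr ?_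
    rw [degree_mul]
    have : (0 : WithBot ℕ) ≤ (X ^ 2 + C c * X).degree := by
      rw [zero_le_degree_iff]; exact hm.ne_zero
    exact le_add_of_nonneg_left this
  rw [hP]
  refine ⟨hm2.add_of_left hlt, ?_⟩
  rw [natDegree_add_eq_left_of_degree_lt hlt, hm.natDegree_mul H.monic, hd]
  ring

theorem pencil_P_one [CharZero K] {q h P : K[X]} (H : Pencil 1 q h P) :
    P.Monic ∧ P.natDegree = q.natDegree + 1 := by
  obtain ⟨r, hr, hP⟩ := H.form
  have c1 : (1 : K[X]).coeff 1 = 0 := by rw [coeff_one]; simp
  have c0 : (1 : K[X]).coeff 0 = 1 := by simp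
  rw [c1, c0] at hP
  simp only [zero_div, map_zero, zero_mul, zero_add, mul_zero, add_zero, map_one, one_mul] at hP
  have hm2 : (X * q).Monic := monic_X.mul H.monic
  have hlt : r.degree < (X * q).degree := by
    refine lt_of_lt_of_le hr ?_
    rw [degree_mul, degree_X]
    exact le_add_of_nonneg_left (by norm_num)
  rw [hP]
  refine ⟨hm2.add_of_left hlt, ?_⟩
  rw [natDegree_add_eq_left_of_degree_lt hlt, monic_X.natDegree_mul H.monic, natDegree_X]
  ring

end AnWA
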