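import Pool.Agent.H.MP_83e36b_nt.Defs

/-! Module B1a: rootForm_of_sol (pencil in terms of roots).

PROOF. q = rootPoly x, q_i = prod_{j≠i}(X - x j), q_i(x_i)=q'(x_i) ≠ 0. h := q + sum v_i q_i, P := (ω₀X + ω₁/2 X² + 2ω₁(sum v) X) q - sum ω(x_i)v_i² q_i.
hD: dOp ω q h vanishes at every x_i. wr P q = ω h²: equality of values at all z different from the x_i, where q_i(z) = q(z)/(z-x_i); with r_i = 1/(z-x_i) it reduces to
ω₀+ω₁z+2ω₁V+Σ w_i v_i² r_i² = ω(z)(1+Σ v_i r_i)², and (1+Σ v_i r_i)² = 1 + Σ v_i² r_i² - ω₁ Σ v_i² r_i/w_i, V = -ω₁/2 Σ v_i²/w_i.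
-/

open Polynomial

namespace AnWA

variable {L : Type*} [Field L] [CharZero L] {ι : Type*} [Fintype ι] [DecidableEq ι]

namespace B1

section Aux

/-- `∏_{j ≠ i} (X - x j)` -/
noncomputable def coPoly {L : Type*} [Field L] {ι : Type*} [Fintype ι] [DecidableEq ι]
    (x : ι → L) (i : ι) : L[X] := ∏ j ∈ Finset.univ.erase i, (X - C (x j))

omit [CharZero L]

theorem rootPoly_eq_mul (x : ι → L) (i : ι) : (X - C (x i)) * coPoly x i = rootPoly x :=
  Finset.mul_prod_erase Finset.univ (fun j => X - C (x j)) (Finset.mem_univ i)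

omit [DecidableEq ι] in
theorem rootPoly_monic (x : ι → L) : (rootPoly x).Monic :=
  monic_prod_of_monic _ _ fun i _ => monic_X_sub_C (x i)

theorem coPoly_monic (x : ι → L) (i : ι) : (coPoly x i).Monic :=
  monic_prod_of_monic _ _ fun j _ => monic_X_sub_C (x j)

theorem derivative_rootPoly (x : ι → L) : derivative (rootPoly x) = ∑ i, coPoly x i := by
  unfold rootPoly coPoly
  rw [derivative_prod_finset]
  refine Finset.sum_congr rfl fun i _ => ?_
  rw [derivative_X_sub_C, mul_one]

theorem natDegree_rootPoly (x : ι → L) (i : ι) :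
    (rootPoly x).natDegree = (coPoly x i).natDegree + 1 := by
  rw [← rootPoly_eq_mul x i, (monic_X_sub_C _).natDegree_mul (coPoly_monic x i),
    natDegree_X_sub_C, add_comm]

theorem degree_coPoly_lt (x : ι → L) (i : ι) : (coPoly x i).degree < (rootPoly x).degree := by
  rw [degree_eq_natDegree (coPoly_monic x i).ne_zero,
    degree_eq_natDegree (rootPoly_monic x).ne_zero, natDegree_rootPoly x i]
  exact_mod_cast Nat.lt_succ_self _

theorem degree_sum_coPoly_lt (x c : ι → L) :
    (∑ i, C (c i) * coPoly x i).degree < (rootPoly x).degree := by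
  have hb : ⊥ < (rootPoly x).degree := by
    rw [bot_lt_iff_ne_bot, Ne, degree_eq_bot]
    exact (rootPoly_monic x).ne_zero
  refine (degree_sum_le _ _).trans_lt ((Finset.sup_lt_iff hb).2 fun i _ => ?_)
  by_cases hc : c i = 0
  · rw [hc, C_0, zero_mul, degree_zero]
    exact hb
  · rw [degree_C_mul hc]
    exact degree_coPoly_lt x i

theorem coeff_sum_coPoly (x c : ι → L) :
    (∑ i, C (c i) * coPoly x i).coeff ((rootPoly x).natDegree - 1) = ∑ i, c i := by
  rw [finsetSum_coeff]
  refine Finset.sum_congr rfl fun i _ => ?_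
  rw [coeff_C_mul, natDegree_rootPoly x i, Nat.add_sub_cancel]
  have := (coPoly_monic x i).leadingCoeff
  rw [leadingCoeff] at this
  rw [this, mul_one]

theorem coPoly_eval_ne {x : ι → L} {i j : ι} (h : i ≠ j) : (coPoly x j).eval (x i) = 0 := by
  unfold coPoly
  rw [eval_prod]
  exact Finset.prod_eq_zero (Finset.mem_erase.2 ⟨h, Finset.mem_univ i⟩) (by simp)

theorem derivative_rootPoly_eval (x : ι → L) (i : ι) :
    (derivative (rootPoly x)).eval (x i) = (coPoly x i).eval (x i) := by
  rw [derivative_rootPoly, eval_finsetSum]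
  exact Finset.sum_eq_single i (fun j _ h => coPoly_eval_ne (Ne.symm h))
    (fun h => absurd (Finset.mem_univ i) h)

theorem derivative2_rootPoly_eval (x : ι → L) (i : ι) :
    (derivative (derivative (rootPoly x))).eval (x i)
      = 2 * (derivative (coPoly x i)).eval (x i) := by
  rw [← rootPoly_eq_mul x i]
  simp only [derivative_mul, derivative_add, derivative_sub, derivative_X, derivative_C, eval_add,
    eval_mul, eval_sub, eval_X, eval_C, derivative_one, eval_one, sub_zero,
    eval_zero, sub_self]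
  ring

theorem derivative_coPoly_eval {x : ι → L} (hx : Function.Injective x) {i j : ι} (h : i ≠ j) :
    (derivative (coPoly x j)).eval (x i)
      = (derivative (rootPoly x)).eval (x i) / (x i - x j) := by
  have h0 : x i - x j ≠ 0 := sub_ne_zero.2 fun e => h (hx e)
  rw [eq_div_iff h0, ← rootPoly_eq_mul x j]
  simp only [derivative_mul, derivative_sub, derivative_X, derivative_C, eval_add,
    eval_mul, eval_sub, eval_X, eval_C, eval_one, sub_zero, coPoly_eval_ne h]
  ring

omit [DecidableEq ι] in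
theorem rootPoly_eval_ne {x : ι → L} {z : L} (hz : ∀ i, z ≠ x i) : (rootPoly x).eval z ≠ 0 := by
  unfold rootPoly
  rw [eval_prod]
  refine Finset.prod_ne_zero_iff.2 fun i _ => ?_
  simpa [sub_eq_zero] using hz i

theorem coPoly_eval {x : ι → L} {z : L} (hz : ∀ i, z ≠ x i) (i : ι) :
    (coPoly x i).eval z = (rootPoly x).eval z / (z - x i) := by
  have h0 : z - x i ≠ 0 := sub_ne_zero.2 (hz i)
  rw [eq_div_iff h0, ← rootPoly_eq_mul x i, eval_mul, eval_sub, eval_X, eval_C, mul_comm]

theorem derivative_coPoly_eval' {x : ι → L} {z : L} (hz : ∀ i, z ≠ x i) (i : ι) :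
    (derivative (coPoly x i)).eval z = ((derivative (rootPoly x)).eval z
      - (rootPoly x).eval z / (z - x i)) / (z - x i) := by
  have h0 : z - x i ≠ 0 := sub_ne_zero.2 (hz i)
  have h1 : (derivative (rootPoly x)).eval z
      = (coPoly x i).eval z + (z - x i) * (derivative (coPoly x i)).eval z := by
    rw [← rootPoly_eq_mul x i]
    simp only [derivative_mul, derivative_sub, derivative_X, derivative_C, eval_add,
      eval_mul, eval_sub, eval_X, eval_C, eval_one, sub_zero]
    ring
  rw [eq_div_iff h0, h1, coPoly_eval hz i]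
  ring

omit [DecidableEq ι] in
/-- a polynomial which vanishes at all roots is divisible by the root polynomial -/
theorem rootPoly_dvd {x : ι → L} (hx : Function.Injective x) {p : L[X]}
    (h : ∀ i, p.eval (x i) = 0) : rootPoly x ∣ p := by
  unfold rootPoly
  refine Finset.prod_dvd_of_coprime ?_ fun i _ => dvd_iff_isRoot.2 (h i)
  intro i _ j _ hij
  exact pairwise_coprime_X_sub_C hx hij

omit [Fintype ι] [DecidableEq ι] in
theorem eval_of_natDegree_le_one {ω : L[X]} (hω : ω.natDegree ≤ 1) (z : L) :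
    ω.eval z = ω.coeff 0 + ω.coeff 1 * z := by
  have h := eq_X_add_C_of_natDegree_le_one hω
  conv_lhs => rw [h]
  simp only [eval_add, eval_mul, eval_C, eval_X]
  ring

omit [Fintype ι] [DecidableEq ι] in
theorem derivative_eval_of_natDegree_le_one {ω : L[X]} (hω : ω.natDegree ≤ 1) (z : L) :
    (derivative ω).eval z = ω.coeff 1 := by
  have h := eq_X_add_C_of_natDegree_le_one hω
  conv_lhs => rw [h]
  simp

end Aux

/-- the sum `∑_{j ≠ i} v j / (x i - x j)` for a solution -/
theorem sol_sum {ω : L[X]} (hω : ω.natDegree ≤ 1) {x v : ι → L} (hv : IsSol ω x v) (i : ι) :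
    ∑ j, (if i = j then 0 else v j / (x i - x j))
      = -1 - ω.coeff 1 * v i / (2 * ω.eval (x i)) := by
  have h := hv i
  rw [Matrix.mulVec, dotProduct, ← Finset.add_sum_erase _ _ (Finset.mem_univ i)] at h
  rw [← Finset.add_sum_erase _ _ (Finset.mem_univ i), if_pos rfl, zero_add]
  have h1 : ∑ j ∈ Finset.univ.erase i, (if i = j then 0 else v j / (x i - x j))
      = ∑ j ∈ Finset.univ.erase i, sysMat ω x i j * v j := by
    refine Finset.sum_congr rfl fun j hj => ?_
    have hij : ¬ i = j := fun e => (Finset.mem_erase.1 hj).1 e.symm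
    rw [if_neg hij]
    unfold sysMat
    rw [if_neg hij]
    ring
  rw [h1, eq_sub_iff_add_eq, ← h]
  unfold sysMat
  rw [if_pos rfl, derivative_eval_of_natDegree_le_one hω]
  ring

/-- `∑ v i = - ω₁/2 ∑ (v i)² / ω(x i)` -/
theorem sol_total {ω : L[X]} (hω : ω.natDegree ≤ 1) {x v : ι → L} (hv : IsSol ω x v) :
    2 * ∑ i, v i = - ω.coeff 1 * ∑ i, v i ^ 2 / ω.eval (x i) := by
  have h1 : ∑ i, v i * ∑ j, (if i = j then 0 else v j / (x i - x j)) = 0 := by
    have h2 : ∑ i, v i * ∑ j, (if i = j then 0 else v j / (x i - x j))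
        = ∑ i, ∑ j, (if i = j then 0 else v i * v j / (x i - x j)) := by
      refine Finset.sum_congr rfl fun i _ => ?_
      rw [Finset.mul_sum]
      refine Finset.sum_congr rfl fun j _ => ?_
      split_ifs
      · rw [mul_zero]
      · rw [mul_div_assoc]
    have h3 : ∑ i, ∑ j, (if i = j then 0 else v i * v j / (x i - x j))
        = - ∑ i, ∑ j, (if i = j then 0 else v i * v j / (x i - x j)) := by
      conv_lhs => rw [Finset.sum_comm]
      rw [← Finset.sum_neg_distrib]
      refine Finset.sum_congr rfl fun i _ => ?_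
      rw [← Finset.sum_neg_distrib]
      refine Finset.sum_congr rfl fun j _ => ?_
      by_cases h : i = j
      · subst h
        simp
      · rw [if_neg h, if_neg (Ne.symm h), ← neg_sub (x i) (x j), div_neg, mul_comm (v j)]
    rw [h2]
    exact self_eq_neg.1 h3
  have h4 : ∑ i, v i * ∑ j, (if i = j then 0 else v j / (x i - x j))
      = - ∑ i, v i - ω.coeff 1 / 2 * ∑ i, v i ^ 2 / ω.eval (x i) := by
    rw [Finset.mul_sum, ← Finset.sum_neg_distrib, ← Finset.sum_sub_distrib]
    refine Finset.sum_congr rfl fun i _ => ?_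
    rw [sol_sum hω hv i]
    have h2 : (2 : L) ≠ 0 := two_ne_zero
    rw [div_eq_mul_inv, div_eq_mul_inv, div_eq_mul_inv, mul_inv]
    ring
  rw [h4] at h1
  linear_combination (-2 : L) * h1

/-- the square of `H`: `H² = 1 + ∑ v i² r i² - ω₁ ∑ v i² r i / ω(x i)`, `r i = 1 / (z - x i)` -/
theorem H_sq {ω : L[X]} (hω : ω.natDegree ≤ 1) {x v : ι → L} (hx : Function.Injective x)
    (hv : IsSol ω x v) {z : L} (hz : ∀ i, z ≠ x i) :
    Hval x v z ^ 2 = 1 + ∑ i, v i ^ 2 * (1 / (z - x i)) ^ 2
      - ω.coeff 1 * ∑ i, v i ^ 2 * (1 / (z - x i)) / ω.eval (x i) := by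
  have hzi : ∀ i, z - x i ≠ 0 := fun i => sub_ne_zero.2 (hz i)
  have h1 : (∑ i, v i / (z - x i)) ^ 2
      = ∑ i, v i ^ 2 * (1 / (z - x i)) ^ 2
        + 2 * ∑ i, v i * (1 / (z - x i)) * ∑ j, (if i = j then 0 else v j / (x i - x j)) := by
    have h2 : ∀ i j, v i / (z - x i) * (v j / (z - x j))
        = (if i = j then v i ^ 2 * (1 / (z - x i)) ^ 2 else 0)
          + (v i * (1 / (z - x i)) * (if i = j then 0 else v j / (x i - x j))
            + v j * (1 / (z - x j)) * (if j = i then 0 else v i / (x j - x i))) := by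
      intro i j
      by_cases h : i = j
      · subst h
        simp only [if_true, mul_zero, add_zero]
        ring
      · rw [if_neg h, if_neg h, if_neg (Ne.symm h)]
        have h3 : x i - x j ≠ 0 := sub_ne_zero.2 fun e => h (hx e)
        have h4 := hzi i
        have h5 := hzi j
        rw [← neg_sub (x i) (x j)]
        field_simp
        ring
    rw [sq, Finset.sum_mul_sum]
    simp only [h2]
    simp only [Finset.sum_add_distrib]
    have h6 : ∑ i, ∑ j, (if i = j then v i ^ 2 * (1 / (z - x i)) ^ 2 else 0)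
        = ∑ i, v i ^ 2 * (1 / (z - x i)) ^ 2 := by
      refine Finset.sum_congr rfl fun i _ => ?_
      rw [Finset.sum_ite_eq]
      simp
    have h7 : ∑ i, ∑ j, v j * (1 / (z - x j)) * (if j = i then 0 else v i / (x j - x i))
        = ∑ i, v i * (1 / (z - x i)) * ∑ j, (if i = j then 0 else v j / (x i - x j)) := by
      rw [Finset.sum_comm]
      refine Finset.sum_congr rfl fun i _ => ?_
      rw [Finset.mul_sum]
    have h8 : ∑ i, ∑ j, v i * (1 / (z - x i)) * (if i = j then 0 else v j / (x i - x j))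
        = ∑ i, v i * (1 / (z - x i)) * ∑ j, (if i = j then 0 else v j / (x i - x j)) := by
      refine Finset.sum_congr rfl fun i _ => ?_
      rw [Finset.mul_sum]
    rw [h6, h7, h8]
    ring
  have h9 : ∑ i, v i * (1 / (z - x i)) * ∑ j, (if i = j then 0 else v j / (x i - x j))
      = - ∑ i, v i / (z - x i)
        - ω.coeff 1 / 2 * ∑ i, v i ^ 2 * (1 / (z - x i)) / ω.eval (x i) := by
    rw [Finset.mul_sum, ← Finset.sum_neg_distrib, ← Finset.sum_sub_distrib]
    refine Finset.sum_congr rfl fun i _ => ?_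
    rw [sol_sum hω hv i]
    simp only [div_eq_mul_inv, mul_inv]
    ring
  unfold Hval
  rw [add_sq, h1, h9]
  ring

/-- the value of the Wronskian away from the roots -/
theorem core_id {ω : L[X]} (hω : ω.natDegree ≤ 1) {x v : ι → L} (hx : Function.Injective x)
    (hωx : ∀ i, ω.eval (x i) ≠ 0) (hv : IsSol ω x v) {z : L} (hz : ∀ i, z ≠ x i) :
    ω.coeff 0 + ω.coeff 1 * z + 2 * ω.coeff 1 * (∑ i, v i)
      + ∑ i, ω.eval (x i) * v i ^ 2 * (1 / (z - x i)) ^ 2 = ω.eval z * Hval x v z ^ 2 := by
  have hzi : ∀ i, z - x i ≠ 0 := fun i => sub_ne_zero.2 (hz i)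
  have h1 : ω.eval z * ∑ i, v i ^ 2 * (1 / (z - x i)) ^ 2
      - ω.coeff 1 * (ω.eval z * ∑ i, v i ^ 2 * (1 / (z - x i)) / ω.eval (x i))
      = ∑ i, ω.eval (x i) * v i ^ 2 * (1 / (z - x i)) ^ 2
        - ω.coeff 1 ^ 2 * ∑ i, v i ^ 2 / ω.eval (x i) := by
    simp only [Finset.mul_sum]
    rw [← Finset.sum_sub_distrib, ← Finset.sum_sub_distrib]
    refine Finset.sum_congr rfl fun i _ => ?_
    have h2 : ω.eval z = ω.eval (x i) + ω.coeff 1 * (z - x i) := by
      rw [eval_of_natDegree_le_one hω z, eval_of_natDegree_le_one hω (x i)]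
      ring
    have h3 := hωx i
    have h4 := hzi i
    rw [h2]
    field_simp
    ring
  rw [H_sq hω hx hv hz, ← eval_of_natDegree_le_one hω z]
  have h5 := sol_total hω hv
  linear_combination ω.coeff 1 * h5 - h1

omit [CharZero L] in
theorem sum_coPoly_eval {x : ι → L} {z : L} (hz : ∀ i, z ≠ x i) (c : ι → L) :
    (∑ i, C (c i) * coPoly x i).eval z = (∑ i, c i / (z - x i)) * (rootPoly x).eval z := by
  rw [eval_finsetSum, Finset.sum_mul]
  refine Finset.sum_congr rfl fun i _ => ?_
  rw [eval_mul, eval_C, coPoly_eval hz i]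
  ring

omit [CharZero L] in
theorem sum_coPoly_eval_root (x : ι → L) (c : ι → L) (i : ι) :
    (∑ j, C (c j) * coPoly x j).eval (x i) = c i * (derivative (rootPoly x)).eval (x i) := by
  rw [eval_finsetSum, Finset.sum_eq_single i]
  · rw [eval_mul, eval_C, derivative_rootPoly_eval]
  · intro j _ h
    rw [eval_mul, coPoly_eval_ne (Ne.symm h), mul_zero]
  · intro h
    exact absurd (Finset.mem_univ i) h

omit [CharZero L] in
theorem rootPoly_eval_root (x : ι → L) (i : ι) : (rootPoly x).eval (x i) = 0 := by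
  rw [← rootPoly_eq_mul x i]
  simp

omit [CharZero L] in
theorem derivative_sum_coPoly_eval {x : ι → L} {z : L} (hz : ∀ i, z ≠ x i) (c : ι → L) :
    (derivative (∑ i, C (c i) * coPoly x i)).eval z
      = (∑ i, c i * (1 / (z - x i))) * (derivative (rootPoly x)).eval z
        - (∑ i, c i * (1 / (z - x i)) ^ 2) * (rootPoly x).eval z := by
  rw [derivative_sum, eval_finsetSum, Finset.sum_mul, Finset.sum_mul, ← Finset.sum_sub_distrib]
  refine Finset.sum_congr rfl fun i _ => ?_
  rw [derivative_C_mul, eval_mul, eval_C, derivative_coPoly_eval' hz i]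
  ring

end B1

open B1 in
theorem rootForm_of_sol {ω : L[X]} (hω : ω.natDegree ≤ 1) {x v : ι → L}
    (hx : Function.Injective x) (hωx : ∀ i, ω.eval (x i) ≠ 0) (hv : IsSol ω x v) :
    ∃ h P : L[X], RootForm ω x v h P := by
  have hmon := rootPoly_monic x
  -- the companions
  obtain ⟨h, hh⟩ : ∃ h : L[X], h = rootPoly x + ∑ i, C (v i) * coPoly x i := ⟨_, rfl⟩
  obtain ⟨A, hA⟩ : ∃ A : L[X], A = C (ω.coeff 1 / 2) * X ^ 2
    + C (ω.coeff 0 + 2 * ω.coeff 1 * ∑ i, v i) * X := ⟨_, rfl⟩
  obtain ⟨P, hP⟩ : ∃ P : L[X], P = A * rootPoly x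
    + ∑ i, C (- (ω.eval (x i) * v i ^ 2)) * coPoly x i := ⟨_, rfl⟩
  have hhq : h - rootPoly x = ∑ i, C (v i) * coPoly x i := by rw [hh]; ring
  have hAz : ∀ z : L, A.eval z = ω.coeff 0 * z + ω.coeff 1 / 2 * z ^ 2
      + 2 * ω.coeff 1 * (∑ i, v i) * z := by
    intro z
    rw [hA]
    simp only [eval_add, eval_mul, eval_C, eval_X, eval_pow]
    ring
  have hA'z : ∀ z : L, (derivative A).eval z = ω.coeff 0 + ω.coeff 1 * z
      + 2 * ω.coeff 1 * (∑ i, v i) := by
    intro z
    rw [hA]
    simp only [derivative_add, derivative_C_mul, derivative_X_pow, derivative_X, eval_add,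
      eval_mul, eval_C, eval_X, eval_pow, eval_one, Nat.cast_ofNat]
    norm_num
    ring
  have hhz : ∀ z : L, (∀ i, z ≠ x i) → h.eval z = Hval x v z * (rootPoly x).eval z := by
    intro z hz
    rw [hh, eval_add, sum_coPoly_eval hz]
    unfold Hval
    ring
  have hPz : ∀ z : L, (∀ i, z ≠ x i) → P.eval z = phiVal ω x v z * (rootPoly x).eval z := by
    intro z hz
    rw [hP, eval_add, eval_mul, sum_coPoly_eval hz, hAz]
    unfold phiVal
    simp only [neg_div, Finset.sum_neg_distrib]
    ring
  have hhx : ∀ i, h.eval (x i) = v i * (derivative (rootPoly x)).eval (x i) := by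
    intro i
    rw [hh, eval_add, sum_coPoly_eval_root, rootPoly_eval_root, zero_add]
  have hPx : ∀ i, P.eval (x i)
      = - ω.eval (x i) * v i ^ 2 * (derivative (rootPoly x)).eval (x i) := by
    intro i
    rw [hP, eval_add, eval_mul, sum_coPoly_eval_root, rootPoly_eval_root, mul_zero, zero_add]
    ring
  refine ⟨h, P, ⟨⟨hmon, ?_, ?_, ?_, ?_, ?_⟩, fun z hz => ⟨hhz z hz, hPz z hz⟩,
    fun i => ⟨hhx i, hPx i⟩⟩⟩
  · exact (separable_prod_X_sub_C_iff).2 hx
  · rw [hhq]
    exact degree_sum_coPoly_lt x v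
  · -- divisibility
    apply rootPoly_dvd hx
    intro i
    have h1 : (derivative h).eval (x i) = (derivative (rootPoly x)).eval (x i)
        + v i * (derivative (coPoly x i)).eval (x i)
        + (derivative (rootPoly x)).eval (x i)
          * ∑ j, (if i = j then 0 else v j / (x i - x j)) := by
      rw [hh, derivative_add, eval_add, derivative_sum, eval_finsetSum,
        ← Finset.add_sum_erase _ _ (Finset.mem_univ i),
        ← Finset.add_sum_erase Finset.univ (fun j => if i = j then 0 else v j / (x i - x j))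
          (Finset.mem_univ i), if_pos rfl, zero_add, derivative_C_mul, eval_mul, eval_C,
        Finset.mul_sum, ← add_assoc]
      congr 1
      refine Finset.sum_congr rfl fun j hj => ?_
      have hij : ¬ i = j := fun e => (Finset.mem_erase.1 hj).1 e.symm
      rw [if_neg hij, derivative_C_mul, eval_mul, eval_C, derivative_coPoly_eval hx hij]
      ring
    rw [sol_sum hω hv i] at h1
    unfold dOp
    simp only [eval_add, eval_mul, eval_sub, eval_ofNat]
    rw [h1, hhx i, derivative2_rootPoly_eval, derivative_eval_of_natDegree_le_one hω]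
    have h3 := hωx i
    field_simp
    ring
  · refine ⟨∑ i, C (- (ω.eval (x i) * v i ^ 2)) * coPoly x i,
      degree_sum_coPoly_lt x _, ?_⟩
    rw [hhq, coeff_sum_coPoly, hP, hA]
  · apply eq_of_infinite_eval_eq
    refine Set.Infinite.mono ?_ (Set.finite_range x).infinite_compl
    intro z hz
    have hz' : ∀ i, z ≠ x i := fun i e => hz ⟨i, e.symm⟩
    have h5 := core_id hω hx hωx hv hz'
    change (wr P (rootPoly x)).eval z = (ω * h ^ 2).eval z
    unfold wr
    rw [eval_sub, eval_mul, eval_mul, eval_mul, eval_pow, hhz z hz', hPz z hz', hP,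
      derivative_add, eval_add, derivative_mul, eval_add, eval_mul, eval_mul, hA'z, hAz,
      derivative_sum_coPoly_eval hz', mul_pow, ← mul_assoc, ← h5]
    unfold phiVal
    simp only [neg_mul, Finset.sum_neg_distrib, div_eq_mul_inv, one_mul]
    ring

end AnWA
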