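import Pool.Agent.H.MP_83e36b_nt.Defs
import Pool.Agent.H.MP_83e36b_nt.A1b
import Pool.Agent.H.MP_83e36b_nt.B1a

/-! Module B1b: NonDeg in terms of the linear system of the roots.

PROOF. For w of degree < m=card ι put v_i = w(x_i)/q'(x_i) (so w = Σ v_i q_i, q_i = prod_{j≠i}(X-x_j); w'(x_i)=Σ_{j≠i}v_jq'(x_i)/(x_i-x_j)+v_iq''(x_i)/2). Then dOp ω q w (x_i) = 2ω(x_i)q'(x_i)² (sysMat·v)_i. So q | dOp ω q w iff sysMat v = 0. nonDeg_of_det and det_of_nonDeg (exists_mulVec_eq_zero_iff) follow. rootForm_of_pencil: det≠0, v := sysMat⁻¹(-1); rootForm_of_sol gives h',P' with Pencil; pencil_unique gives h=h',P=P'.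
-/

open Polynomial

namespace AnWA

variable {L : Type*} [Field L] {ι : Type*} [Fintype ι] [DecidableEq ι]

namespace B1

/-- a polynomial of degree less than the number of roots is a combination of the `coPoly x i` -/
theorem eq_sum_coPoly {x : ι → L} (hx : Function.Injective x) {w : L[X]}
    (hw : w.degree < (rootPoly x).degree)
    (hq : ∀ i, (derivative (rootPoly x)).eval (x i) ≠ 0) :
    w = ∑ i, C (w.eval (x i) / (derivative (rootPoly x)).eval (x i)) * coPoly x i := by
  rw [← sub_eq_zero]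
  refine eq_zero_of_dvd_of_degree_lt (p := rootPoly x) (rootPoly_dvd hx fun i => ?_) ?_
  · rw [eval_sub, sum_coPoly_eval_root, div_mul_cancel₀ _ (hq i), sub_self]
  · exact (degree_sub_le _ _).trans_lt (max_lt hw (degree_sum_coPoly_lt x _))

theorem derivative_rootPoly_ne {x : ι → L} (hx : Function.Injective x) (i : ι) :
    (derivative (rootPoly x)).eval (x i) ≠ 0 := by
  rw [derivative_rootPoly_eval]
  unfold coPoly
  rw [eval_prod]
  refine Finset.prod_ne_zero_iff.2 fun j hj => ?_
  have hij : j ≠ i := (Finset.mem_erase.1 hj).1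
  rw [eval_sub, eval_X, eval_C, sub_ne_zero]
  exact fun e => hij (hx e).symm

/-- the value of `dOp ω q w` at a root, `w = ∑ v i q_i` -/
theorem dOp_sum_coPoly_eval [CharZero L] {ω : L[X]} {x : ι → L} (hx : Function.Injective x)
    (hωx : ∀ i, ω.eval (x i) ≠ 0) (v : ι → L) (i : ι) :
    (dOp ω (rootPoly x) (∑ j, C (v j) * coPoly x j)).eval (x i)
      = 2 * ω.eval (x i) * (derivative (rootPoly x)).eval (x i) ^ 2
        * (sysMat ω x).mulVec v i := by
  have h1 : (derivative (∑ j, C (v j) * coPoly x j)).eval (x i)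
      = v i * (derivative (coPoly x i)).eval (x i)
        + (derivative (rootPoly x)).eval (x i)
          * ∑ j ∈ Finset.univ.erase i, v j / (x i - x j) := by
    rw [derivative_sum, eval_finsetSum, ← Finset.add_sum_erase _ _ (Finset.mem_univ i),
      derivative_C_mul, eval_mul, eval_C, Finset.mul_sum]
    congr 1
    refine Finset.sum_congr rfl fun j hj => ?_
    have hij : i ≠ j := (Finset.mem_erase.1 hj).1.symm
    rw [derivative_C_mul, eval_mul, eval_C, derivative_coPoly_eval hx hij]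
    ring
  have h2 : (sysMat ω x).mulVec v i = (derivative ω).eval (x i) / (2 * ω.eval (x i)) * v i
      + ∑ j ∈ Finset.univ.erase i, v j / (x i - x j) := by
    rw [Matrix.mulVec, dotProduct, ← Finset.add_sum_erase _ _ (Finset.mem_univ i)]
    congr 1
    · unfold sysMat
      rw [if_pos rfl]
    · refine Finset.sum_congr rfl fun j hj => ?_
      have hij : ¬ i = j := fun e => (Finset.mem_erase.1 hj).1 e.symm
      unfold sysMat
      rw [if_neg hij]
      ring
  have h3 := hωx i
  unfold dOp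
  simp only [eval_add, eval_mul, eval_sub, eval_ofNat]
  rw [h1, h2, sum_coPoly_eval_root, derivative2_rootPoly_eval]
  field_simp
  ring

theorem rootPoly_dvd_dOp_iff [CharZero L] {ω : L[X]} {x : ι → L} (hx : Function.Injective x)
    (hωx : ∀ i, ω.eval (x i) ≠ 0) (v : ι → L) :
    rootPoly x ∣ dOp ω (rootPoly x) (∑ j, C (v j) * coPoly x j) ↔
      (sysMat ω x).mulVec v = 0 := by
  constructor
  · intro h
    funext i
    obtain ⟨g, hg⟩ := h
    have h1 := dOp_sum_coPoly_eval hx hωx v i
    rw [hg, eval_mul, rootPoly_eval_root, zero_mul] at h1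
    have h2 : (2 : L) * ω.eval (x i) * (derivative (rootPoly x)).eval (x i) ^ 2 ≠ 0 :=
      mul_ne_zero (mul_ne_zero two_ne_zero (hωx i)) (pow_ne_zero 2 (derivative_rootPoly_ne hx i))
    exact (mul_eq_zero.1 h1.symm).resolve_left h2
  · intro h
    apply rootPoly_dvd hx
    intro i
    rw [dOp_sum_coPoly_eval hx hωx v i, h]
    simp

end B1

open B1

theorem nonDeg_of_det [CharZero L] {ω : L[X]} {x : ι → L} (hx : Function.Injective x)
    (hωx : ∀ i, ω.eval (x i) ≠ 0) (hdet : (sysMat ω x).det ≠ 0) : NonDeg ω (rootPoly x) := by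
  intro w hw hd
  have h1 := eq_sum_coPoly hx hw (derivative_rootPoly_ne hx)
  rw [h1, rootPoly_dvd_dOp_iff hx hωx] at hd
  have h2 := Matrix.eq_zero_of_mulVec_eq_zero hdet hd
  rw [h1]
  apply Finset.sum_eq_zero
  intro i _
  have h3 := congrFun h2 i
  simp only [Pi.zero_apply] at h3
  rw [h3, C_0, zero_mul]

theorem det_of_nonDeg [CharZero L] {ω : L[X]} {x : ι → L} (hx : Function.Injective x)
    (hωx : ∀ i, ω.eval (x i) ≠ 0) (hnd : NonDeg ω (rootPoly x)) : (sysMat ω x).det ≠ 0 := by
  intro h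
  obtain ⟨v, hv, hv'⟩ := Matrix.exists_mulVec_eq_zero_iff.2 h
  apply hv
  have h1 := hnd _ (degree_sum_coPoly_lt x v) ((rootPoly_dvd_dOp_iff hx hωx v).2 hv')
  funext i
  have h2 := sum_coPoly_eval_root x v i
  rw [h1, eval_zero] at h2
  exact (mul_eq_zero.1 h2.symm).resolve_right (derivative_rootPoly_ne hx i)

theorem rootForm_of_pencil [CharZero L] {ω : L[X]} (hω : ω.natDegree ≤ 1) {x : ι → L}
    (hx : Function.Injective x) (hωx : ∀ i, ω.eval (x i) ≠ 0) (hnd : NonDeg ω (rootPoly x))
    {h P : L[X]} (H : Pencil ω (rootPoly x) h P) :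
    (sysMat ω x).det ≠ 0 ∧ ∃ v, IsSol ω x v ∧ RootForm ω x v h P := by
  have hdet := det_of_nonDeg hx hωx hnd
  refine ⟨hdet, (sysMat ω x)⁻¹.mulVec (fun _ => -1), ?_⟩
  have hv : IsSol ω x ((sysMat ω x)⁻¹.mulVec (fun _ => -1)) := by
    intro i
    rw [Matrix.mulVec_mulVec, Matrix.mul_nonsing_inv _ (isUnit_iff_ne_zero.2 hdet),
      Matrix.one_mulVec]
  refine ⟨hv, ?_⟩
  obtain ⟨h', P', hR⟩ := rootForm_of_sol hω hx hωx hv
  obtain ⟨e1, e2⟩ := pencil_unique hnd H hR.1
  rw [e1, e2]
  exact hR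

/-- derivative of a member at a point in terms of `q` and `h` -/
theorem member_deriv {ω q h P : L[X]} (hw : wr P q = ω * h ^ 2) (t z : L) :
    (derivative (P - C t * q)).eval z * q.eval z
      = (P - C t * q).eval z * (derivative q).eval z + ω.eval z * (h.eval z) ^ 2 := by
  have h1 := congrArg (Polynomial.eval z) hw
  simp only [wr, eval_sub, eval_mul, eval_pow] at h1
  simp only [derivative_sub, derivative_mul, derivative_C, zero_mul, zero_add, eval_sub, eval_mul,
    eval_C]
  linear_combination h1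

end AnWA
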