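import Pool.Agent.H.MP_83e36b_nt.Defs

/-! Module C2b: calculus of rational functions regular at a point.

PROOF. Reg x0 φ := ∃ N D, D(x0)≠0 and φ(x)D(x)=N(x) whenever D(x)≠0. add: (N1D2+N2D1, D1D2); mul: (N1N2,D1D2); inv: D' = N·D (N(x0)=φ(x0)D(x0)≠0), N' = D²; sums/products by Finset induction; det by det_apply (sum of signed products; sign as integer cast times product: use Reg.const). exists_poly: Φ=N·D. RegPoly: coefficient formulas (coeff_mul: finite sum over antidiagonal, coeff_derivative, coeff_C, finsetSum_coeff); products by induction.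
-/

open Polynomial

namespace AnWA

variable {L ι : Type*} [Field L] {x0 : ι → L} {φ ψ : (ι → L) → L}

theorem Reg.const (c : L) : Reg x0 (fun _ => c) :=
  ⟨MvPolynomial.C c, 1, by simp, fun x _ => by simp⟩

theorem Reg.proj (i : ι) : Reg x0 (fun x => x i) :=
  ⟨MvPolynomial.X i, 1, by simp, fun x _ => by simp⟩

theorem Reg.add (h1 : Reg x0 φ) (h2 : Reg x0 ψ) : Reg x0 (fun x => φ x + ψ x) := by
  obtain ⟨N1, D1, hD1, e1⟩ := h1
  obtain ⟨N2, D2, hD2, e2⟩ := h2
  refine ⟨N1 * D2 + N2 * D1, D1 * D2, ?_, fun x hx => ?_⟩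
  · rw [map_mul]
    exact mul_ne_zero hD1 hD2
  · rw [map_mul] at hx
    have h1 := e1 x (left_ne_zero_of_mul hx)
    have h2 := e2 x (right_ne_zero_of_mul hx)
    rw [map_mul, map_add, map_mul, map_mul, ← h1, ← h2]
    ring

theorem Reg.mul (h1 : Reg x0 φ) (h2 : Reg x0 ψ) : Reg x0 (fun x => φ x * ψ x) := by
  obtain ⟨N1, D1, hD1, e1⟩ := h1
  obtain ⟨N2, D2, hD2, e2⟩ := h2
  refine ⟨N1 * N2, D1 * D2, ?_, fun x hx => ?_⟩
  · rw [map_mul]
    exact mul_ne_zero hD1 hD2
  · rw [map_mul] at hx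
    have h1 := e1 x (left_ne_zero_of_mul hx)
    have h2 := e2 x (right_ne_zero_of_mul hx)
    rw [map_mul, map_mul, ← h1, ← h2]
    ring

theorem Reg.sub (h1 : Reg x0 φ) (h2 : Reg x0 ψ) : Reg x0 (fun x => φ x - ψ x) := by
  have h := h1.add ((Reg.const (-1)).mul h2)
  have e : (fun x => φ x - ψ x) = fun x => φ x + -1 * ψ x := by
    funext x
    ring
  rw [e]
  exact h

theorem Reg.inv (h1 : Reg x0 φ) (h : φ x0 ≠ 0) : Reg x0 (fun x => (φ x)⁻¹) := by
  obtain ⟨N1, D1, hD1, e1⟩ := h1
  refine ⟨D1 * D1, N1 * D1, ?_, fun x hx => ?_⟩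
  · rw [map_mul, ← e1 x0 hD1]
    exact mul_ne_zero (mul_ne_zero h hD1) hD1
  · rw [map_mul] at hx
    have hD := right_ne_zero_of_mul hx
    have hN := left_ne_zero_of_mul hx
    rw [← e1 x hD] at hN
    have hφ := left_ne_zero_of_mul hN
    rw [map_mul, map_mul, ← e1 x hD]
    field_simp

theorem Reg.div (h1 : Reg x0 φ) (h2 : Reg x0 ψ) (h : ψ x0 ≠ 0) :
    Reg x0 (fun x => φ x / ψ x) := by
  have h3 := h1.mul (h2.inv h)
  have e : (fun x => φ x / ψ x) = fun x => φ x * (ψ x)⁻¹ := by
    funext x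
    rw [div_eq_mul_inv]
  rw [e]
  exact h3

theorem Reg.sum {α : Type*} (s : Finset α) {φ : α → (ι → L) → L}
    (h : ∀ a ∈ s, Reg x0 (φ a)) : Reg x0 (fun x => ∑ a ∈ s, φ a x) := by
  classical
  induction s using Finset.induction_on with
  | empty =>
    simp only [Finset.sum_empty]
    exact Reg.const 0
  | insert a s ha ih =>
    simp only [Finset.sum_insert ha]
    exact (h a (Finset.mem_insert_self a s)).add
      (ih fun b hb => h b (Finset.mem_insert_of_mem hb))

theorem Reg.prod {α : Type*} (s : Finset α) {φ : α → (ι → L) → L}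
    (h : ∀ a ∈ s, Reg x0 (φ a)) : Reg x0 (fun x => ∏ a ∈ s, φ a x) := by
  classical
  induction s using Finset.induction_on with
  | empty =>
    simp only [Finset.prod_empty]
    exact Reg.const 1
  | insert a s ha ih =>
    simp only [Finset.prod_insert ha]
    exact (h a (Finset.mem_insert_self a s)).mul
      (ih fun b hb => h b (Finset.mem_insert_of_mem hb))

theorem Reg.det {n : Type*} [Fintype n] [DecidableEq n] {M : (ι → L) → Matrix n n L}
    (h : ∀ i j, Reg x0 (fun x => M x i j)) : Reg x0 (fun x => (M x).det) := by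
  have e : (fun x => (M x).det) = fun x => ∑ σ : Equiv.Perm n,
      ((Equiv.Perm.sign σ : ℤ) : L) * ∏ i, M x (σ i) i := by
    funext x
    rw [Matrix.det_apply']
  rw [e]
  exact Reg.sum _ fun σ _ => (Reg.const _).mul (Reg.prod _ fun i _ => h _ _)

/-- a regular function not vanishing at `x0` does not vanish on a nonempty Zariski open set -/
theorem Reg.exists_poly (h1 : Reg x0 φ) (h : φ x0 ≠ 0) :
    ∃ Φ : MvPolynomial ι L, MvPolynomial.eval x0 Φ ≠ 0 ∧
      ∀ x, MvPolynomial.eval x Φ ≠ 0 → φ x ≠ 0 := by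
  obtain ⟨N, D, hD, e⟩ := h1
  refine ⟨N * D, ?_, fun x hx => ?_⟩
  · rw [map_mul, ← e x0 hD]
    exact mul_ne_zero (mul_ne_zero h hD) hD
  · rw [map_mul] at hx
    have hD' := right_ne_zero_of_mul hx
    have hN := left_ne_zero_of_mul hx
    rw [← e x hD'] at hN
    exact left_ne_zero_of_mul hN

/-- polynomials whose coefficients are regular functions -/
def RegPoly {L ι : Type*} [Field L] (x0 : ι → L) (f : (ι → L) → L[X]) : Prop :=
  ∀ j, Reg x0 (fun x => (f x).coeff j)

theorem RegPoly.add {f g : (ι → L) → L[X]} (hf : RegPoly x0 f) (hg : RegPoly x0 g) :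
    RegPoly x0 (fun x => f x + g x) := by
  intro j
  simp only [coeff_add]
  exact (hf j).add (hg j)

theorem RegPoly.sub {f g : (ι → L) → L[X]} (hf : RegPoly x0 f) (hg : RegPoly x0 g) :
    RegPoly x0 (fun x => f x - g x) := by
  intro j
  simp only [coeff_sub]
  exact (hf j).sub (hg j)

theorem RegPoly.mul {f g : (ι → L) → L[X]} (hf : RegPoly x0 f) (hg : RegPoly x0 g) :
    RegPoly x0 (fun x => f x * g x) := by
  intro j
  simp only [coeff_mul]
  exact Reg.sum _ fun p _ => (hf p.1).mul (hg p.2)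

theorem RegPoly.derivative {f : (ι → L) → L[X]} (hf : RegPoly x0 f) :
    RegPoly x0 (fun x => Polynomial.derivative (f x)) := by
  intro j
  simp only [coeff_derivative]
  exact (hf (j + 1)).mul (Reg.const _)

theorem RegPoly.const (p : L[X]) : RegPoly x0 (fun _ => p) := fun _ => Reg.const _

theorem RegPoly.C (h1 : Reg x0 φ) : RegPoly x0 (fun x => Polynomial.C (φ x)) := by
  intro j
  simp only [coeff_C]
  by_cases hj : j = 0
  · simp only [hj, if_true]
    exact h1
  · simp only [hj, if_false]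
    exact Reg.const 0

theorem RegPoly.sum {α : Type*} (s : Finset α) {f : α → (ι → L) → L[X]}
    (h : ∀ a ∈ s, RegPoly x0 (f a)) : RegPoly x0 (fun x => ∑ a ∈ s, f a x) := by
  intro j
  simp only [finsetSum_coeff]
  exact Reg.sum _ fun a ha => h a ha j

theorem RegPoly.prod {α : Type*} (s : Finset α) {f : α → (ι → L) → L[X]}
    (h : ∀ a ∈ s, RegPoly x0 (f a)) : RegPoly x0 (fun x => ∏ a ∈ s, f a x) := by
  classical
  induction s using Finset.induction_on with
  | empty =>
    simp only [Finset.prod_empty]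
    exact RegPoly.const 1
  | insert a s ha ih =>
    simp only [Finset.prod_insert ha]
    exact (h a (Finset.mem_insert_self a s)).mul
      (ih fun b hb => h b (Finset.mem_insert_of_mem hb))

end AnWA
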