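import Pool.Agent.H.MP_83e36b_nt.Defs
import Pool.Agent.H.MP_83e36b_nt.C2b

/-! Module C4: the generic even lemma.

PROOF. `m = card ι` even (`m = 0` trivial, `Φ = 1`). Example `x0` = the `m`-th roots of unity.
The matrix `A = 1 / (x i - x j)` maps the vector `x j ^ (l + 1)` to `(l - (m - 1) / 2) x i ^ l`, for
`0 ≤ l < m`; so `A` is invertible (Vandermonde), and `2 x i / (m - 1)` solves the linear system.
Generic: Cramer's rule and module C2b.
-/

open Polynomial

namespace AnWA

section C4

variable {L : Type*} [Field L] [CharZero L] {m : ℕ} [NeZero m]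

/-- the sums `∑_{k ≠ 0} z(k)^(l+1) / (1 - z(k))` over the nontrivial `m`-th roots of unity -/
theorem C4_sum {ζ : L} (hζ : IsPrimitiveRoot ζ m) (z : ZMod m → L)
    (hz : ∀ a, z a = ζ ^ a.val) (hadd : ∀ a b, z (a + b) = z a * z b) (l : ℕ) (hl : l < m) :
    ∑ k ∈ Finset.univ.erase (0 : ZMod m), z k ^ (l + 1) / (1 - z k) = (l : L) - (m - 1) / 2 := by
  have hz0 : z 0 = 1 := by rw [hz]; simp
  have hne : ∀ k ∈ Finset.univ.erase (0 : ZMod m), 1 - z k ≠ 0 := by
    intro k hk h
    have hk0 : k ≠ 0 := (Finset.mem_erase.mp hk).1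
    have h1 : ζ ^ k.val = 1 := by rw [← hz]; linear_combination -h
    exact hζ.pow_ne_one_of_pos_of_lt (by rwa [Ne, ZMod.val_eq_zero]) (ZMod.val_lt k) h1
  have hcard : ((Finset.univ.erase (0 : ZMod m)).card : L) = m - 1 := by
    rw [Finset.card_erase_of_mem (Finset.mem_univ _), Finset.card_univ, ZMod.card,
      Nat.cast_sub (Nat.one_le_iff_ne_zero.mpr (NeZero.ne m)), Nat.cast_one]
  induction l with
  | zero =>
    have hzn : ∀ k, z k ≠ 0 := by
      intro k h
      have := hadd k (-k)
      rw [add_neg_cancel, hz0, h, zero_mul] at this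
      exact one_ne_zero this
    have hinv : ∀ k, z (-k) = (z k)⁻¹ := by
      intro k
      have := hadd k (-k)
      rw [add_neg_cancel, hz0] at this
      exact eq_inv_of_mul_eq_one_right this.symm
    have h1 : ∑ k ∈ Finset.univ.erase (0 : ZMod m), z k ^ (0 + 1) / (1 - z k)
        = ∑ k ∈ Finset.univ.erase (0 : ZMod m), z (-k) ^ (0 + 1) / (1 - z (-k)) := by
      refine Finset.sum_bij' (fun k _ => -k) (fun k _ => -k) ?_ ?_ ?_ ?_ ?_
      · intro k hk; simpa using hk
      · intro k hk; simpa using hk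
      · intro k _; simp
      · intro k _; simp
      · intro k _; simp
    have h2 : ∑ k ∈ Finset.univ.erase (0 : ZMod m), z k ^ (0 + 1) / (1 - z k)
        + ∑ k ∈ Finset.univ.erase (0 : ZMod m), z (-k) ^ (0 + 1) / (1 - z (-k))
        = -((m : L) - 1) := by
      rw [← Finset.sum_add_distrib, ← hcard, ← nsmul_one, ← Finset.sum_const,
        ← Finset.sum_neg_distrib]
      refine Finset.sum_congr rfl fun k hk => ?_
      have h3 := hne k hk
      have h4 := hzn k
      have h5 : z k - 1 ≠ 0 := fun h => h3 (by linear_combination -h)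
      rw [hinv]
      have h6 : 1 - (z k)⁻¹ = (z k - 1) / z k := by field_simp
      rw [h6, zero_add, pow_one, pow_one]
      have h7 : z k / (1 - z k) = - (z k / (z k - 1)) := by
        rw [← neg_sub (z k) 1, div_neg]
      have h8 : (z k)⁻¹ / ((z k - 1) / z k) = 1 / (z k - 1) := by
        field_simp
      rw [h7, h8]
      field_simp
      ring
    rw [← h1] at h2
    push_cast
    linear_combination (1/2 : L) * h2
  | succ l ih =>
    have ih' := ih (by omega)
    have hsum : ∑ k, z k ^ (l + 1) = 0 := by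
      have h1 : z 1 ^ (l + 1) * ∑ k, z k ^ (l + 1) = ∑ k, z k ^ (l + 1) := by
        rw [Finset.mul_sum]
        refine Fintype.sum_equiv (Equiv.addLeft (1 : ZMod m)) _ _ fun k => ?_
        rw [Equiv.coe_addLeft, hadd, mul_pow]
      have h2 : z 1 ^ (l + 1) ≠ 1 := by
        intro h
        have h3 : (1 : ZMod m).val = 1 := by
          have : Fact (1 < m) := ⟨by omega⟩
          exact ZMod.val_one m
        rw [hz, h3, pow_one] at h
        exact hζ.pow_ne_one_of_pos_of_lt (by omega) hl h
      by_contra h3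
      exact h2 (mul_right_cancel₀ h3 (by rw [h1, one_mul]))
    have hsum' : ∑ k ∈ Finset.univ.erase (0 : ZMod m), z k ^ (l + 1) = -1 := by
      have := Finset.add_sum_erase Finset.univ (fun k => z k ^ (l + 1)) (Finset.mem_univ (0 : ZMod m))
      simp only [hz0, one_pow] at this
      rw [hsum] at this
      linear_combination this
    have h1 : ∑ k ∈ Finset.univ.erase (0 : ZMod m), z k ^ (l + 1 + 1) / (1 - z k)
        = ∑ k ∈ Finset.univ.erase (0 : ZMod m), z k ^ (l + 1) / (1 - z k)
          - ∑ k ∈ Finset.univ.erase (0 : ZMod m), z k ^ (l + 1) := by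
      rw [← Finset.sum_sub_distrib]
      refine Finset.sum_congr rfl fun k hk => ?_
      have h3 := hne k hk
      field_simp
      ring
    rw [h1, ih', hsum']
    push_cast
    ring

/-- the roots of unity: nondegeneracy of the system and its solution -/
theorem C4_example (L : Type*) [Field L] [CharZero L] [IsAlgClosed L] (ι : Type*) [Fintype ι]
    [DecidableEq ι] (heven : Even (Fintype.card ι)) (hpos : Fintype.card ι ≠ 0) :
    ∃ x0 u0 : ι → L, Function.Injective x0 ∧ (sysMat 1 x0).det ≠ 0 ∧ IsSol 1 x0 u0 ∧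
      ∀ i, u0 i ≠ 0 := by
  obtain ⟨m, hm⟩ : ∃ m, Fintype.card ι = m := ⟨_, rfl⟩
  have : NeZero m := ⟨by rwa [hm] at hpos⟩
  have hm0 : m ≠ 0 := NeZero.ne m
  rw [hm] at heven
  have : NeZero ((m : ℕ) : L) := ⟨by simpa using hm0⟩
  obtain ⟨ζ, hζ⟩ := HasEnoughRootsOfUnity.exists_primitiveRoot L m
  let e : ι ≃ ZMod m := Fintype.equivOfCardEq (by rw [hm, ZMod.card])
  obtain ⟨z, hz⟩ : ∃ z : ZMod m → L, z = fun a => AddChar.zmodChar m hζ.pow_eq_one a := ⟨_, rfl⟩
  have hzv : ∀ a, z a = ζ ^ a.val := by intro a; rw [hz]; exact AddChar.zmodChar_apply _ _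
  have hadd : ∀ a b, z (a + b) = z a * z b := by
    intro a b; rw [hz]; exact AddChar.map_add_eq_mul _ _ _
  have hz0 : z 0 = 1 := by rw [hzv]; simp
  have hzn : ∀ k, z k ≠ 0 := by
    intro k h
    have := hadd k (-k)
    rw [add_neg_cancel, hz0, h, zero_mul] at this
    exact one_ne_zero this
  have hzinj : Function.Injective z := by
    intro a b h
    rw [hzv, hzv] at h
    exact ZMod.val_injective m (hζ.pow_inj (ZMod.val_lt a) (ZMod.val_lt b) h)
  have hsum := C4_sum hζ z hzv hadd
  obtain ⟨x0, hx0⟩ : ∃ x0 : ι → L, x0 = fun i => z (e i) := ⟨_, rfl⟩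
  have hinj : Function.Injective x0 := by
    rw [hx0]; exact hzinj.comp e.injective
  -- the action on powers
  have hact : ∀ (l : ℕ), l < m → ∀ i, ∑ j, sysMat 1 x0 i j * x0 j ^ (l + 1)
      = ((l : L) - (m - 1) / 2) * x0 i ^ l := by
    intro l hl i
    have h1 : ∑ j, sysMat 1 x0 i j * x0 j ^ (l + 1)
        = ∑ a : ZMod m, (if a = 0 then 0 else x0 i ^ l * (z a ^ (l + 1) / (1 - z a))) := by
      refine Fintype.sum_equiv (e.trans (Equiv.subRight (e i))) _ _ fun j => ?_
      simp only [Equiv.trans_apply, Equiv.subRight_apply]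
      by_cases hij : i = j
      · subst hij
        simp [sysMat]
      · have hne : e j - e i ≠ 0 := by
          intro h; exact hij (e.injective (sub_eq_zero.mp h)).symm
        rw [if_neg hne]
        have hxj : x0 j = x0 i * z (e j - e i) := by
          rw [hx0]
          show z (e j) = z (e i) * z (e j - e i)
          rw [← hadd]
          congr 1
          ring
        have hd : x0 i - x0 j ≠ 0 := by
          intro h; exact hij (hinj (sub_eq_zero.mp h))
        have hxi : x0 i ≠ 0 := by rw [hx0]; exact hzn _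
        have hd1 : 1 - z (e j - e i) ≠ 0 := by
          intro h
          apply hd
          rw [hxj]
          linear_combination (x0 i) * h
        simp only [sysMat, if_neg hij]
        have hd2 : x0 i - x0 j = x0 i * (1 - z (e j - e i)) := by rw [hxj]; ring
        rw [hd2, hxj, mul_pow]
        field_simp
        ring
    rw [h1, ← hsum l hl, Finset.sum_mul, ← Finset.add_sum_erase Finset.univ _ (Finset.mem_univ (0 : ZMod m)),
      if_pos rfl, zero_add]
    refine Finset.sum_congr rfl fun a ha => ?_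
    rw [if_neg (Finset.mem_erase.mp ha).1]
    ring
  -- determinant
  have hlam : ∀ l : ℕ, (l : L) - (m - 1) / 2 ≠ 0 := by
    intro l h
    have h1 : ((2 * l + 1 : ℕ) : L) = (m : ℕ) := by
      push_cast
      linear_combination 2 * h
    have h2 : 2 * l + 1 = m := by exact_mod_cast h1
    obtain ⟨c, hc⟩ := heven
    omega
  have hdet : (sysMat 1 x0).det ≠ 0 := by
    obtain ⟨V0, hV0⟩ : ∃ V0 : Matrix ι ι L, V0 = fun i l => x0 i ^ (e l).val := ⟨_, rfl⟩
    obtain ⟨V1, hV1⟩ : ∃ V1 : Matrix ι ι L, V1 = fun i l => x0 i ^ ((e l).val + 1) := ⟨_, rfl⟩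
    have hmul : sysMat 1 x0 * V1
        = V0 * Matrix.diagonal (fun l => (((e l).val : ℕ) : L) - (m - 1) / 2) := by
      ext i l
      rw [Matrix.mul_apply, Matrix.mul_diagonal, hV0, hV1]
      show ∑ j, sysMat 1 x0 i j * x0 j ^ ((e l).val + 1) = _
      rw [hact _ (ZMod.val_lt _) i]
      show _ = x0 i ^ (e l).val * _
      ring
    have hV0det : V0.det ≠ 0 := by
      let e' : ι ≃ Fin m := e.trans (ZMod.finEquiv m).symm.toEquiv
      have hval : ∀ l, ((e' l : Fin m) : ℕ) = (e l).val := by
        intro l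
        have h1 : ZMod.finEquiv m (e' l) = e l := by
          show ZMod.finEquiv m ((ZMod.finEquiv m).symm (e l)) = e l
          exact (ZMod.finEquiv m).apply_symm_apply _
        rw [← h1]
        cases m with
        | zero => exact absurd rfl hm0
        | succ n => rfl
      have h2 : V0 = (Matrix.vandermonde (fun a => x0 (e'.symm a))).submatrix e' e' := by
        rw [hV0]
        ext i l
        rw [Matrix.submatrix_apply, Matrix.vandermonde_apply, hval, e'.symm_apply_apply]
      rw [h2, Matrix.det_submatrix_equiv_self, Matrix.det_vandermonde_ne_zero_iff]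
      exact hinj.comp e'.symm.injective
    intro h0
    have h3 := congrArg Matrix.det hmul
    rw [Matrix.det_mul, Matrix.det_mul, h0, zero_mul, Matrix.det_diagonal] at h3
    exact mul_ne_zero hV0det (Finset.prod_ne_zero_iff.mpr fun l _ => hlam _) h3.symm
  -- the solution
  have hm1 : (m : L) - 1 ≠ 0 := by
    have := hlam 0
    intro h
    apply this
    rw [h]
    simp
  refine ⟨x0, fun i => 2 * x0 i / (m - 1), hinj, hdet, ?_, ?_⟩
  · intro i
    have h1 := hact 0 (Nat.pos_of_ne_zero hm0) i
    show ∑ j, sysMat 1 x0 i j * (2 * x0 j / (m - 1)) = -1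
    have h2 : ∀ j, sysMat 1 x0 i j * (2 * x0 j / (m - 1))
        = 2 / (m - 1) * (sysMat 1 x0 i j * x0 j ^ (0 + 1)) := by
      intro j; ring
    rw [Finset.sum_congr rfl fun j _ => h2 j, ← Finset.mul_sum, h1]
    push_cast
    field_simp
    ring
  · intro i
    have : x0 i ≠ 0 := by rw [hx0]; exact hzn _
    exact div_ne_zero (mul_ne_zero two_ne_zero this) hm1

end C4

theorem generic_even {L : Type*} [Field L] [CharZero L] [IsAlgClosed L] (ι : Type*) [Fintype ι]
    [DecidableEq ι] (heven : Even (Fintype.card ι)) :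
    ∃ Φ : MvPolynomial ι L, Φ ≠ 0 ∧ ∀ x, MvPolynomial.eval x Φ ≠ 0 →
      Function.Injective x ∧ (sysMat 1 x).det ≠ 0 ∧
      ∀ u : ι → L, IsSol 1 x u → ∀ i, u i ≠ 0 := by
  by_cases hpos : Fintype.card ι = 0
  · have : IsEmpty ι := Fintype.card_eq_zero_iff.mp hpos
    refine ⟨1, one_ne_zero, fun x _ => ⟨Function.injective_of_subsingleton x, ?_, ?_⟩⟩
    · rw [Matrix.det_isEmpty]; exact one_ne_zero
    · intro u _ i
      exact isEmptyElim i
  obtain ⟨x0, u0, hinj, hdet, hsol, hu0⟩ := C4_example L ι heven hpos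
  -- entries are regular
  have hentry : ∀ i j, Reg x0 (fun x => sysMat 1 x i j) := by
    intro i j
    by_cases hij : i = j
    · have h1 : (fun x : ι → L => sysMat 1 x i j) = fun _ => 0 := by
        funext x
        simp [sysMat, hij]
      rw [h1]
      exact Reg.const 0
    · have h1 : (fun x : ι → L => sysMat 1 x i j) = fun x => 1 / (x i - x j) := by
        funext x
        simp [sysMat, hij]
      rw [h1]
      refine Reg.div (Reg.const 1) (Reg.sub (Reg.proj i) (Reg.proj j)) ?_
      intro h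
      exact hij (hinj (sub_eq_zero.mp h))
  obtain ⟨Φd, hΦd0, hΦd⟩ := Reg.exists_poly (Reg.det hentry) hdet
  -- differences
  have hdiff : ∀ p : ι × ι, ∃ Φ : MvPolynomial ι L, MvPolynomial.eval x0 Φ ≠ 0 ∧
      ∀ x, MvPolynomial.eval x Φ ≠ 0 → p.1 ≠ p.2 → x p.1 ≠ x p.2 := by
    intro p
    by_cases hp : p.1 = p.2
    · exact ⟨1, by simp, fun x _ h => absurd hp h⟩
    · obtain ⟨Φ, h1, h2⟩ := Reg.exists_poly (x0 := x0) (φ := fun x => x p.1 - x p.2)
        (Reg.sub (Reg.proj p.1) (Reg.proj p.2))
        (fun h => hp (hinj (sub_eq_zero.mp h)))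
      exact ⟨Φ, h1, fun x hx _ => sub_ne_zero.mp (h2 x hx)⟩
  -- Cramer numerators
  have hcr : ∀ (x u : ι → L), IsSol 1 x u → ∀ i,
      ((sysMat 1 x).updateCol i (fun _ => -1)).det = (sysMat 1 x).det * u i := by
    intro x u hu i
    have h1 : (sysMat 1 x).mulVec u = fun _ => -1 := funext hu
    rw [← Matrix.cramer_apply, Matrix.cramer_eq_adjugate_mulVec, ← h1, Matrix.mulVec_mulVec,
      Matrix.adjugate_mul, Matrix.smul_mulVec, Matrix.one_mulVec]
    rfl
  have hnum : ∀ i, ∃ Φ : MvPolynomial ι L, MvPolynomial.eval x0 Φ ≠ 0 ∧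
      ∀ x, MvPolynomial.eval x Φ ≠ 0 → ((sysMat 1 x).updateCol i (fun _ => -1)).det ≠ 0 := by
    intro i
    have hreg : Reg x0 (fun x => ((sysMat 1 x).updateCol i (fun _ => -1)).det) := by
      refine Reg.det fun a b => ?_
      by_cases hb : b = i
      · have h1 : (fun x : ι → L => (sysMat 1 x).updateCol i (fun _ => -1) a b)
            = fun _ => -1 := by
          funext x
          rw [hb, Matrix.updateCol_self]
        rw [h1]
        exact Reg.const _
      · have h1 : (fun x : ι → L => (sysMat 1 x).updateCol i (fun _ => -1) a b)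
            = fun x => sysMat 1 x a b := by
          funext x
          rw [Matrix.updateCol_ne hb]
        rw [h1]
        exact hentry a b
    refine Reg.exists_poly hreg ?_
    rw [hcr x0 u0 hsol i]
    exact mul_ne_zero hdet (hu0 i)
  choose Φ1 hΦ1 hΦ1' using hdiff
  choose Φ2 hΦ2 hΦ2' using hnum
  refine ⟨Φd * (∏ p, Φ1 p) * ∏ i, Φ2 i, ?_, ?_⟩
  · intro h
    have h1 := congrArg (MvPolynomial.eval x0) h
    rw [map_mul, map_mul, map_prod, map_prod, map_zero] at h1
    exact mul_ne_zero (mul_ne_zero hΦd0 (Finset.prod_ne_zero_iff.mpr fun p _ => hΦ1 p))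
      (Finset.prod_ne_zero_iff.mpr fun i _ => hΦ2 i) h1
  · intro x hx
    rw [map_mul, map_mul, map_prod, map_prod] at hx
    have hd := left_ne_zero_of_mul (left_ne_zero_of_mul hx)
    have h1 := Finset.prod_ne_zero_iff.mp (right_ne_zero_of_mul (left_ne_zero_of_mul hx))
    have h2 := Finset.prod_ne_zero_iff.mp (right_ne_zero_of_mul hx)
    refine ⟨?_, hΦd x hd, ?_⟩
    · intro i j hij
      by_contra hne
      exact hΦ1' (i, j) x (h1 (i, j) (Finset.mem_univ _)) hne hij
    · intro u hu i hui
      have h3 := hΦ2' i x (h2 i (Finset.mem_univ _))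
      rw [hcr x u hu i, hui, mul_zero] at h3
      exact h3 rfl

end AnWA
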