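import Pool.Agent.H.MP_83e36b_nt.Defs
import Pool.Agent.H.MP_83e36b_nt.C2a
import Pool.Agent.H.MP_83e36b_nt.C4

/-! Module S4: even_exists: inner datum of even type.

PROOF. generic_even on ι={x // x∈X2}, exists_equivariant with ξ=Subtype.val gives r with the tuple x_i=r(i) injective, sysMat 1 x invertible, solution without zero entries. Transport along the equivalence ι ≃ {z // z∈X2.image r}, i ↦ r(i): sysMat 1 Subtype.val reindexed is sysMat 1 x (Matrix.det_reindex_self or det_submatrix_equiv_self), IsSol transports.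
-/

open Polynomial

namespace AnWA

theorem sysMat_submatrix {L : Type*} [Field L] {ι κ : Type*} [DecidableEq ι] [DecidableEq κ]
    (ω : L[X]) (x : κ → L) (e : ι ≃ κ) :
    (sysMat ω x).submatrix e e = sysMat ω (x ∘ e) := by
  ext i j
  simp only [Matrix.submatrix_apply, sysMat, Function.comp, e.apply_eq_iff_eq]

theorem IsSol.comp_equiv {L : Type*} [Field L] {ι κ : Type*} [Fintype ι] [Fintype κ]
    [DecidableEq ι] [DecidableEq κ] {ω : L[X]} {x v : κ → L} (e : ι ≃ κ) (h : IsSol ω x v) :
    IsSol ω (x ∘ e) (v ∘ e) := by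
  intro i
  rw [← sysMat_submatrix, ← h (e i)]
  simp only [Matrix.mulVec, dotProduct, Matrix.submatrix_apply, Function.comp]
  exact e.sum_comp (fun k => sysMat ω x (e i) k * v k)

variable {F L : Type*} [Field F] [CharZero F] [Field L] [Algebra F L] [IsAlgClosed L]
  [DecidableEq L]

theorem even_exists (X2 : Finset L) (heven : Even X2.card) :
    ∃ r : F[X], Set.InjOn (fun x => aeval x r) (X2 : Set L) ∧
      GoodCluster (X2.image (fun x => aeval x r)) := by
  have hL : CharZero L := charZero_of_injective_algebraMap (algebraMap F L).injective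
  obtain ⟨Φ, hΦ, h⟩ := generic_even (L := L) {x // x ∈ X2} (by rwa [Fintype.card_coe])
  obtain ⟨r, hr⟩ := exists_equivariant (F := F) (Subtype.val : {x // x ∈ X2} → L)
    Subtype.val_injective Φ hΦ
  obtain ⟨hinj, hdet, hsol⟩ := h _ hr
  have hInj : Set.InjOn (fun x => aeval x r) (X2 : Set L) := by
    intro a ha b hb hab
    have := @hinj ⟨a, ha⟩ ⟨b, hb⟩ hab
    exact congrArg Subtype.val this
  refine ⟨r, hInj, ?_⟩
  let f : {x // x ∈ X2} → {z // z ∈ X2.image (fun x => aeval x r)} :=
    fun i => ⟨aeval i.1 r, Finset.mem_image_of_mem _ i.2⟩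
  have hf : Function.Bijective f := by
    constructor
    · intro a b hab
      exact hinj (congrArg Subtype.val hab)
    · rintro ⟨z, hz⟩
      obtain ⟨x, hx, rfl⟩ := Finset.mem_image.mp hz
      exact ⟨⟨x, hx⟩, rfl⟩
  let e : {x // x ∈ X2} ≃ {z // z ∈ X2.image (fun x => aeval x r)} := Equiv.ofBijective f hf
  have he : (Subtype.val : {z // z ∈ X2.image (fun x => aeval x r)} → L) ∘ e =
      fun i : {x // x ∈ X2} => aeval i.1 r := by
    funext i
    rfl
  refine ⟨?_, ?_⟩
  · rw [← Matrix.det_submatrix_equiv_self e, sysMat_submatrix, he]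
    exact hdet
  · intro u hu j
    have h1 := hu.comp_equiv e
    rw [he] at h1
    have h2 := hsol _ h1 (e.symm j)
    simpa using h2

end AnWA
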