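import Pool.Agent.H.MP_83e36b_nt.Defs

/-! Module A1a: existence of the companions of q (pencil_exists). -/

open Polynomial

namespace AnWA

section aux

variable {K : Type*} [Field K]

lemma a1a_dOp_add (ω q a b : K[X]) : dOp ω q (a + b) = dOp ω q a + dOp ω q b := by
  simp only [dOp, derivative_add]; ring

lemma a1a_dOp_smul (ω q a : K[X]) (c : K) : dOp ω q (c • a) = c • dOp ω q a := by
  simp only [dOp, derivative_smul, mul_smul_comm, smul_add]

lemma a1a_dOp_self (ω q : K[X]) : dOp ω q q = 2 * ω * derivative q ^ 2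
    + (derivative ω * derivative q - ω * derivative (derivative q)) * q := by
  simp only [dOp]; ring

/-- the operator of `NonDeg`, as a linear endomorphism of the polynomials of small degree -/
noncomputable def a1aMap (ω q : K[X]) (hq : q.Monic) :
    degreeLT K q.natDegree →ₗ[K] degreeLT K q.natDegree where
  toFun w := ⟨dOp ω q w %ₘ q, by
    rw [mem_degreeLT, ← degree_eq_natDegree hq.ne_zero]
    exact degree_modByMonic_lt _ hq⟩
  map_add' a b := by
    ext1
    simp only [Submodule.coe_add, a1a_dOp_add, add_modByMonic]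
  map_smul' c a := by
    ext1
    simp only [SetLike.val_smul, a1a_dOp_smul, smul_modByMonic, RingHom.id_apply]

lemma a1a_surj {ω q : K[X]} (hq : q.Monic) (hnd : NonDeg ω q) (p : K[X]) :
    ∃ w : K[X], w.degree < q.degree ∧ q ∣ dOp ω q w + p := by
  have hdeg : q.degree = q.natDegree := degree_eq_natDegree hq.ne_zero
  have hinj : Function.Injective (a1aMap ω q hq) := by
    rw [injective_iff_map_eq_zero]
    intro a ha
    have h1 : dOp ω q a %ₘ q = 0 := congrArg Subtype.val ha
    rw [modByMonic_eq_zero_iff_dvd hq] at h1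
    have h2 : (a : K[X]).degree < q.degree := by
      rw [hdeg]; exact mem_degreeLT.1 a.2
    exact Subtype.ext (hnd _ h2 h1)
  have hfd : FiniteDimensional K (degreeLT K q.natDegree) :=
    Module.Finite.equiv (degreeLTEquiv K q.natDegree).symm
  have hsurj : Function.Surjective (a1aMap ω q hq) :=
    LinearMap.injective_iff_surjective.1 hinj
  obtain ⟨w, hw⟩ := hsurj ⟨(-p) %ₘ q, by
    rw [mem_degreeLT, ← hdeg]
    exact degree_modByMonic_lt _ hq⟩
  refine ⟨w, by rw [hdeg]; exact mem_degreeLT.1 w.2, ?_⟩
  have h1 : dOp ω q w %ₘ q = (-p) %ₘ q := congrArg Subtype.val hw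
  rw [← modByMonic_eq_zero_iff_dvd hq, add_modByMonic, h1, ← add_modByMonic]
  simp

end aux

/-- existence of the companions -/
theorem pencil_exists {K : Type*} [Field K] [CharZero K] {ω q : K[X]} (hq : q.Monic)
    (hs : q.Separable) (hω : ω.natDegree ≤ 1) (hnd : NonDeg ω q) :
    ∃ h P : K[X], Pencil ω q h P := by
  have hdeg : q.degree = q.natDegree := degree_eq_natDegree hq.ne_zero
  obtain ⟨w, hw, U, hU⟩ := a1a_surj hq hnd (2 * ω * derivative q ^ 2)
  obtain ⟨a, b, hab⟩ := hs
  -- the remainder `r`
  obtain ⟨r, hr, T, hT⟩ : ∃ r : K[X], r.degree < q.degree ∧ q ∣ r * derivative q + ω * w ^ 2 := by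
    refine ⟨(-(b * ω * w ^ 2)) %ₘ q, degree_modByMonic_lt _ hq, ?_⟩
    have h1 : (-(b * ω * w ^ 2)) %ₘ q
        = -(b * ω * w ^ 2) - q * ((-(b * ω * w ^ 2)) /ₘ q) := by
      rw [modByMonic_eq_sub_mul_div]
    refine ⟨a * ω * w ^ 2 - ((-(b * ω * w ^ 2)) /ₘ q) * derivative q, ?_⟩
    rw [h1]
    linear_combination (- (ω * w ^ 2)) * hab
  have hω' : ω = C (ω.coeff 1) * X + C (ω.coeff 0) := eq_X_add_C_of_natDegree_le_one hω
  set w1 := ω.coeff 1 with hw1
  set w0 := ω.coeff 0 with hw0
  set m := q.natDegree with hm
  set κ := w.coeff (m - 1) with hκ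
  have hwc : ∀ j, m ≤ j → w.coeff j = 0 := by
    rw [hdeg] at hw
    exact (degree_lt_iff_coeff_zero _ _).1 hw
  have hrc : ∀ j, m ≤ j → r.coeff j = 0 := by
    rw [hdeg] at hr
    exact (degree_lt_iff_coeff_zero _ _).1 hr
  -- degree of `T`
  have hTdeg : T.degree < m := by
    rcases Nat.eq_zero_or_pos m with h0 | hpos
    · have h1 : w = 0 := by
        ext j; rw [hwc j (by omega)]; simp
      have h2 : r = 0 := by
        ext j; rw [hrc j (by omega)]; simp
      rw [h1, h2] at hT
      have h3 : q * T = 0 := by rw [← hT]; simp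
      rcases mul_eq_zero.1 h3 with h | h
      · exact absurd h hq.ne_zero
      · rw [h, degree_zero]; exact WithBot.bot_lt_coe _
    · have hwn : w.natDegree ≤ m - 1 := by
        rw [natDegree_le_iff_coeff_eq_zero]
        intro j hj; exact hwc j (by omega)
      have hrn : r.natDegree ≤ m - 1 := by
        rw [natDegree_le_iff_coeff_eq_zero]
        intro j hj; exact hrc j (by omega)
      have h1 : (r * derivative q + ω * w ^ 2).natDegree ≤ 2 * m - 1 := by
        refine natDegree_add_le_of_degree_le ?_ ?_
        · refine natDegree_mul_le.trans ?_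
          have := natDegree_derivative_le q
          omega
        · refine natDegree_mul_le.trans ?_
          have h2 : (w ^ 2).natDegree ≤ 2 * w.natDegree := natDegree_pow_le
          omega
      by_cases hT0 : T = 0
      · rw [hT0, degree_zero]; exact WithBot.bot_lt_coe _
      · rw [hT, natDegree_mul hq.ne_zero hT0] at h1
        rw [degree_eq_natDegree hT0]
        have : T.natDegree < m := by omega
        exact_mod_cast this
  have hTc : ∀ j, m ≤ j → T.coeff j = 0 := (degree_lt_iff_coeff_zero _ _).1 hTdeg
  -- the difference `Δ`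
  set Δ := C (2 * w1 * κ) * q + derivative r - 2 * ω * w - T with hΔ
  have hΔdeg : Δ.degree < q.degree := by
    rw [hdeg, degree_lt_iff_coeff_zero]
    intro j hj
    have e1 : (2 * ω * w).coeff j = 2 * (w1 * (X * w).coeff j + w0 * w.coeff j) := by
      rw [hω']
      have : 2 * (C w1 * X + C w0) * w = C 2 * (C w1 * (X * w) + C w0 * w) := by
        simp only [map_ofNat]; ring
      rw [this, coeff_C_mul, coeff_add, coeff_C_mul, coeff_C_mul]
    have e2 : (derivative r).coeff j = 0 := by
      rw [coeff_derivative, hrc (j+1) (by omega), zero_mul]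
    rw [hΔ, coeff_sub, coeff_sub, coeff_add, coeff_C_mul, e1, e2, hTc j hj, hwc j hj]
    rcases Nat.eq_or_lt_of_le hj with h | h
    · -- `j = m`
      rw [← h]
      have hq1 : q.coeff m = 1 := hq
      rw [hq1]
      rcases Nat.eq_zero_or_pos m with h0 | hpos
      · have : κ = 0 := by rw [hκ]; exact hwc _ (by omega)
        rw [h0, this]; simp
      · obtain ⟨n, hn⟩ : ∃ n, m = n + 1 := ⟨m - 1, by omega⟩
        have : (X * w).coeff m = κ := by
          rw [hκ, hn, coeff_X_mul]; simp
        rw [this]; ring
    · have hq1 : q.coeff j = 0 := coeff_eq_zero_of_natDegree_lt h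
      obtain ⟨n, hn⟩ : ∃ n, j = n + 1 := ⟨j - 1, by omega⟩
      have : (X * w).coeff j = 0 := by
        rw [hn, coeff_X_mul]; exact hwc _ (by omega)
      rw [this, hq1]; ring
  -- differentiated equation
  have hD := congrArg derivative hT
  have hsq : derivative (w ^ 2) = 2 * w * derivative w := by
    rw [pow_two, derivative_mul]; ring
  simp only [derivative_add, derivative_mul, hsq] at hD
  have hdvd : q ∣ derivative q ^ 2 * Δ := by
    refine ⟨C (2 * w1 * κ) * derivative q ^ 2 + derivative q * derivative T
      - derivative (derivative q) * T - w * U, ?_⟩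
    have hU' : 2 * ω * derivative q * derivative w
      + (derivative ω * derivative q - ω * derivative (derivative q)) * w
      + 2 * ω * derivative q ^ 2 = q * U := hU
    have hD' : derivative r * derivative q + r * derivative (derivative q)
        + (derivative ω * w ^ 2 + ω * (2 * w * derivative w))
        = derivative q * T + q * derivative T := by
      rw [← hD]
    rw [hΔ]
    linear_combination (- derivative (derivative q)) * hT + (derivative q) * hD' - w * hU'
  have hcop : IsCoprime q (derivative q ^ 2) := IsCoprime.pow_right ⟨a, b, hab⟩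
  have hΔ0 : Δ = 0 := by
    have h1 : q ∣ Δ := hcop.dvd_of_dvd_mul_left hdvd
    exact eq_zero_of_dvd_of_degree_lt h1 hΔdeg
  refine ⟨q + w, (C (w1 / 2) * X ^ 2 + C (w0 + 2 * w1 * κ) * X) * q + r, ?_⟩
  refine ⟨hq, ⟨a, b, hab⟩, by rw [add_sub_cancel_left]; exact hw, ?_, ?_, ?_⟩
  · rw [a1a_dOp_add, a1a_dOp_self]
    refine ⟨U + (derivative ω * derivative q - ω * derivative (derivative q)), ?_⟩
    linear_combination hU
  · exact ⟨r, hr, by rw [add_sub_cancel_left]⟩
  · have hPi : derivative (C (w1 / 2) * X ^ 2 + C (w0 + 2 * w1 * κ) * X) = ω + C (2 * w1 * κ) := by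
      rw [hω']
      simp only [derivative_add, derivative_mul, derivative_C, zero_mul, zero_add, derivative_X_pow,
        derivative_X, mul_one, map_add]
      have : C (w1 / 2) * (C ((2 : ℕ) : K) * X ^ (2 - 1)) = C w1 * X := by
        rw [← mul_assoc, ← C_mul, pow_one]
        congr 2
        push_cast
        ring
      rw [this]; ring
    rw [wr, derivative_add, derivative_mul, hPi]
    have hΔ' : C (2 * w1 * κ) * q + derivative r - 2 * ω * w - T = 0 := hΔ0
    linear_combination q * hΔ' - hT

end AnWA
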