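import Pool.Agent.H.MP_83e36b_nt.Defs

/-! Module B2: ins_asymp: the linear system when clusters are inserted.

PROOF. sum_sol_eq_zero: multiply row i (Σ_{j≠i}u_j/(x_i-x_j) = -1) by u_i and sum; the left side vanishes by antisymmetry (char ≠ 2).
ins_asymp: unknowns v_k (k∈κ), v_ij = ε a_ij. Let z_ij=μ_i+εδ_ij. Scaled matrix B(ε): row k: (entries of sysMat ω x0 on κ), ε/(x_k - z_ij) on column ij. Row ij: 1/(z_ij-x_k) on column k; on column i'j' with i'≠i: ε/(z_ij-z_i'j'); on column ij', j'≠j: 1/(δ_ij-δ_ij'); diagonal ε ω'(z_ij)/(2ω(z_ij)). sysMat ω (bigX ε) * diag(1 on κ, ε on the rest) = B(ε) for ε ≠ 0. B(ε) -> B(0) as ε -> 0, B(0) is injective by solving first on κ then on each cluster. So det B(ε) ≠ 0 near 0, (v_κ, a)(ε) := B(ε)⁻¹(-1) is continuous at 0 with limit (v0, H0(μ_i) u_ij).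
lim0: row k gives sysMat ω x0 (v_κ(ε)-v0) = -ε Σ_ij a_ij(ε)/(x_k - z_ij), so (v_κ(ε)-v0)/ε = -(sysMat ω x0)⁻¹(Σ_ij a_ij(ε)/(x_k-z_ij)) -> -(sysMat)⁻¹(Σ_i H0(μ_i)(Σ_j u_ij)/(x_k-μ_i)) = 0 by sum_sol_eq_zero.
-/

open Polynomial Filter Topology

namespace AnWA

/-- for the weight one the entries of a solution sum to zero -/
theorem sum_sol_eq_zero {L ι : Type*} [Field L] [CharZero L] [Fintype ι] [DecidableEq ι]
    {x u : ι → L} (hx : Function.Injective x) (hu : IsSol 1 x u) : ∑ i, u i = 0 := by
  have h1 : ∑ i, u i * (sysMat 1 x).mulVec u i = - ∑ i, u i := by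
    rw [← Finset.sum_neg_distrib]
    refine Finset.sum_congr rfl fun i _ => ?_
    rw [hu i]
    ring
  have h2 : ∑ i, u i * (sysMat 1 x).mulVec u i = ∑ i, ∑ j, u i * (sysMat 1 x i j * u j) := by
    refine Finset.sum_congr rfl fun i _ => ?_
    rw [Matrix.mulVec, dotProduct, Finset.mul_sum]
  have h3 : ∑ i, ∑ j, u i * (sysMat 1 x i j * u j)
      = - ∑ i, ∑ j, u i * (sysMat 1 x i j * u j) := by
    conv_lhs => rw [Finset.sum_comm]
    rw [← Finset.sum_neg_distrib]
    refine Finset.sum_congr rfl fun i _ => ?_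
    rw [← Finset.sum_neg_distrib]
    refine Finset.sum_congr rfl fun j _ => ?_
    unfold sysMat
    by_cases h : i = j
    · subst h
      simp
    · rw [if_neg h, if_neg (Ne.symm h)]
      rw [← neg_sub (x i) (x j), one_div, one_div, inv_neg]
      ring
  have h4 : ∑ i, ∑ j, u i * (sysMat 1 x i j * u j) = 0 := by
    have := self_eq_neg.1 h3
    exact this
  rw [h2, h4] at h1
  rw [← neg_eq_zero, ← h1]

section Aux

variable {L κ I : Type*} [NormedField L] [Fintype κ] [DecidableEq κ]
    [Fintype I] [DecidableEq I] {J : I → Type*} [∀ i, Fintype (J i)] [∀ i, DecidableEq (J i)]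

/-- the scaled matrix of the linear system with inserted clusters -/
noncomputable def insB (ω : L[X]) (x0 : κ → L) (μ : I → L) (δ : ∀ i, J i → L) (ε : L) :
    Matrix (κ ⊕ (Σ i, J i)) (κ ⊕ (Σ i, J i)) L := fun r c =>
  match r, c with
  | .inl k, .inl k' => sysMat ω x0 k k'
  | .inl k, .inr p => ε / (x0 k - (μ p.1 + ε * δ p.1 p.2))
  | .inr p, .inl k => 1 / ((μ p.1 + ε * δ p.1 p.2) - x0 k)
  | .inr p, .inr p' =>
    if p = p' then (derivative ω).eval (μ p.1 + ε * δ p.1 p.2)
        / (2 * ω.eval (μ p.1 + ε * δ p.1 p.2)) * ε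
      else if p.1 = p'.1 then 1 / (δ p.1 p.2 - δ p'.1 p'.2)
      else ε / ((μ p.1 + ε * δ p.1 p.2) - (μ p'.1 + ε * δ p'.1 p'.2))

/-- the scaling of the columns -/
def insD (κ : Type*) {I : Type*} (J : I → Type*) (ε : L) : κ ⊕ (Σ i, J i) → L :=
  Sum.elim (fun _ => 1) (fun _ => ε)

theorem insB_eq (ω : L[X]) (x0 : κ → L) (μ : I → L) (δ : ∀ i, J i → L) {ε : L} (hε : ε ≠ 0) :
    sysMat ω (bigX x0 μ δ ε) * Matrix.diagonal (insD κ J ε) = insB ω x0 μ δ ε := by
  ext r c
  rw [Matrix.mul_diagonal]
  rcases r with k | p <;> rcases c with k' | p'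
  · simp only [insB, insD, Sum.elim_inl, mul_one, sysMat, bigX, Sum.inl.injEq]
  · simp only [insB, insD, Sum.elim_inl, Sum.elim_inr, sysMat, bigX, reduceCtorEq, if_false]
    rw [one_div, div_eq_mul_inv, mul_comm]
  · simp only [insB, insD, Sum.elim_inl, Sum.elim_inr, sysMat, bigX, reduceCtorEq, if_false,
      mul_one]
  · simp only [insB, insD, Sum.elim_inr, sysMat, bigX, Sum.inr.injEq]
    by_cases h : p = p'
    · rw [if_pos h, if_pos h]
    · rw [if_neg h, if_neg h]
      by_cases h' : p.1 = p'.1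
      · rw [if_pos h']
        have hm : μ p.1 = μ p'.1 := congrArg μ h'
        have e : μ p.1 + ε * δ p.1 p.2 - (μ p'.1 + ε * δ p'.1 p'.2)
            = ε * (δ p.1 p.2 - δ p'.1 p'.2) := by rw [hm]; ring
        rw [e, one_div, one_div, mul_inv, mul_comm, mul_inv_cancel_left₀ hε]
      · rw [if_neg h', one_div, div_eq_mul_inv, mul_comm]

/-- the matrix at `ε = 0` is injective -/
theorem insB_zero_inj {ω : L[X]} {x0 : κ → L} {μ : I → L} {δ : ∀ i, J i → L}
    (hdet : (sysMat ω x0).det ≠ 0)
    (hdetδ : ∀ i, (sysMat 1 (δ i)).det ≠ 0) {w : κ ⊕ (Σ i, J i) → L}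
    (hw : (insB ω x0 μ δ 0).mulVec w = 0) : w = 0 := by
  have hk : (fun k => w (Sum.inl k)) = 0 := by
    apply Matrix.eq_zero_of_mulVec_eq_zero hdet
    funext k
    have h := congrFun hw (Sum.inl k)
    simp only [Matrix.mulVec, dotProduct, Fintype.sum_sum_type, insB, zero_div, zero_mul,
      Finset.sum_const_zero, add_zero] at h
    exact h
  have hk' : ∀ k, w (Sum.inl k) = 0 := fun k => congrFun hk k
  have hi : ∀ i, (fun j => w (Sum.inr ⟨i, j⟩)) = 0 := by
    intro i
    apply Matrix.eq_zero_of_mulVec_eq_zero (hdetδ i)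
    funext j
    have h := congrFun hw (Sum.inr ⟨i, j⟩)
    simp only [Matrix.mulVec, dotProduct, Fintype.sum_sum_type, insB, hk', mul_zero,
      Finset.sum_const_zero, zero_add, zero_div, Fintype.sum_sigma] at h
    rw [Finset.sum_eq_single i] at h
    · refine Eq.trans (Finset.sum_congr rfl fun j' _ => ?_) h
      by_cases e : j = j'
      · subst e
        simp [sysMat]
      · have e' : ¬ ((⟨i, j⟩ : Σ i, J i) = ⟨i, j'⟩) := by
          intro h'
          simp at h'
          exact e h'
        rw [if_neg e', if_pos rfl]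
        simp [sysMat, e]
    · intro i' _ hi'
      apply Finset.sum_eq_zero
      intro j' _
      have e' : ¬ ((⟨i, j⟩ : Σ i, J i) = ⟨i', j'⟩) := by
        intro h'
        exact hi' (congrArg Sigma.fst h').symm
      rw [if_neg e', if_neg (Ne.symm hi')]
      simp
    · intro h'
      exact absurd (Finset.mem_univ i) h'
  funext r
  rcases r with k | p
  · exact hk' k
  · exact congrFun (hi p.1) p.2

omit [Fintype κ] [Fintype I] [∀ i, Fintype (J i)] in
theorem insB_continuousAt {ω : L[X]} {x0 : κ → L} {μ : I → L} {δ : ∀ i, J i → L}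
    [CharZero L] (hμ : Function.Injective μ) (hxμ : ∀ k i, x0 k ≠ μ i)
    (hωμ : ∀ i, ω.eval (μ i) ≠ 0) :
    ContinuousAt (insB ω x0 μ δ) 0 := by
  have hz : ∀ p : Σ i, J i, ContinuousAt (fun ε : L => μ p.1 + ε * δ p.1 p.2) 0 := fun p => by
    fun_prop
  refine continuousAt_pi.2 fun r => continuousAt_pi.2 fun c => ?_
  rcases r with k | p <;> rcases c with k' | p'
  · exact continuousAt_const
  · refine ContinuousAt.div continuousAt_id (continuousAt_const.sub (hz p')) ?_
    simpa [sub_eq_zero] using hxμ k p'.1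
  · refine ContinuousAt.div continuousAt_const ((hz p).sub continuousAt_const) ?_
    simpa [sub_eq_zero] using (hxμ k' p.1).symm
  · simp only [insB]
    by_cases h : p = p'
    · simp only [if_pos h]
      refine ContinuousAt.mul (ContinuousAt.div ?_ ?_ ?_) continuousAt_id
      · exact (Polynomial.continuous _).continuousAt.comp (hz p)
      · exact continuousAt_const.mul ((Polynomial.continuous _).continuousAt.comp (hz p))
      · simpa using hωμ p.1
    · simp only [if_neg h]
      by_cases h' : p.1 = p'.1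
      · simp only [if_pos h']
        exact continuousAt_const
      · simp only [if_neg h']
        refine ContinuousAt.div continuousAt_id ((hz p).sub (hz p')) ?_
        simpa [sub_eq_zero] using fun e => h' (hμ e)

/-- the limit of the scaled solution solves the limit system -/
theorem insB_zero_sol {ω : L[X]} {x0 v0 : κ → L} {μ : I → L} {δ u : ∀ i, J i → L}
    (hv0 : IsSol ω x0 v0) (hu : ∀ i, IsSol 1 (δ i) (u i)) :
    (insB ω x0 μ δ 0).mulVec
      (Sum.elim v0 (fun p : Σ i, J i => Hval x0 v0 (μ p.1) * u p.1 p.2)) = fun _ => -1 := by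
  funext r
  rcases r with k | p
  · simp only [Matrix.mulVec, dotProduct, Fintype.sum_sum_type, insB, zero_div, zero_mul,
      Finset.sum_const_zero, add_zero, Sum.elim_inl]
    exact hv0 k
  · obtain ⟨i, j⟩ := p
    simp only [Matrix.mulVec, dotProduct, Fintype.sum_sum_type, insB, zero_div, zero_mul,
      add_zero, Sum.elim_inl, Sum.elim_inr, mul_zero, Fintype.sum_sigma]
    rw [Finset.sum_eq_single i]
    · have h1 : ∑ k, 1 / (μ i - x0 k) * v0 k = Hval x0 v0 (μ i) - 1 := by
        unfold Hval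
        rw [add_sub_cancel_left]
        refine Finset.sum_congr rfl fun k _ => ?_
        ring
      have h2 : ∑ j', (if (⟨i, j⟩ : Σ i, J i) = ⟨i, j'⟩ then 0 else
          if i = i then 1 / (δ i j - δ i j') else 0) * (Hval x0 v0 (μ i) * u i j')
          = Hval x0 v0 (μ i) * (sysMat 1 (δ i)).mulVec (u i) j := by
        rw [Matrix.mulVec, dotProduct, Finset.mul_sum]
        refine Finset.sum_congr rfl fun j' _ => ?_
        by_cases e : j = j'
        · subst e
          simp [sysMat]
        · have e' : ¬ ((⟨i, j⟩ : Σ i, J i) = ⟨i, j'⟩) := by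
            intro h'
            simp at h'
            exact e h'
          rw [if_neg e', if_pos rfl]
          simp only [sysMat, if_neg e]
          ring
      rw [h1, h2, hu i j]
      ring
    · intro i' _ hi'
      apply Finset.sum_eq_zero
      intro j' _
      have e' : ¬ ((⟨i, j⟩ : Σ i, J i) = ⟨i', j'⟩) := by
        intro h'
        exact hi' (congrArg Sigma.fst h').symm
      rw [if_neg e', if_neg (Ne.symm hi')]
      simp
    · intro h'
      exact absurd (Finset.mem_univ i) h'

end Aux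

theorem ins_asymp {L κ I : Type*} [NormedField L] [CharZero L] [Fintype κ] [DecidableEq κ]
    [Fintype I] [DecidableEq I] {J : I → Type*} [∀ i, Fintype (J i)] [∀ i, DecidableEq (J i)]
    {ω : L[X]} (hω : ω.natDegree ≤ 1) {x0 v0 : κ → L} {μ : I → L} {δ u : ∀ i, J i → L}
    (hx0 : Function.Injective x0) (hμ : Function.Injective μ) (hxμ : ∀ k i, x0 k ≠ μ i)
    (hωx : ∀ k, ω.eval (x0 k) ≠ 0) (hωμ : ∀ i, ω.eval (μ i) ≠ 0)
    (hdet : (sysMat ω x0).det ≠ 0) (hv0 : IsSol ω x0 v0)
    (hδ : ∀ i, Function.Injective (δ i)) (hdetδ : ∀ i, (sysMat 1 (δ i)).det ≠ 0)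
    (hu : ∀ i, IsSol 1 (δ i) (u i)) :
    ∃ v : L → κ ⊕ (Σ i, J i) → L, InsLimit ω x0 v0 μ δ u v := by
  -- the scaled solution
  let B := insB ω x0 μ δ
  let s : L → κ ⊕ (Σ i, J i) → L := fun ε => (B ε).det⁻¹ • (B ε).adjugate.mulVec (fun _ => -1)
  have hBc : ContinuousAt B 0 := insB_continuousAt hμ hxμ hωμ
  have hB0 : (B 0).det ≠ 0 := by
    intro h
    obtain ⟨w, hw, hw'⟩ := Matrix.exists_mulVec_eq_zero_iff.2 h
    exact hw (insB_zero_inj hdet hdetδ hw')
  have hdetc : ContinuousAt (fun ε => (B ε).det) 0 :=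
    (continuous_id.matrix_det).continuousAt.comp hBc
  have hadjc : ContinuousAt (fun ε => (B ε).adjugate) 0 :=
    (continuous_id.matrix_adjugate).continuousAt.comp hBc
  have hsc : ContinuousAt s 0 := by
    refine ContinuousAt.smul (hdetc.inv₀ hB0) ?_
    exact (Continuous.matrix_mulVec continuous_id continuous_const).continuousAt.comp hadjc
  have hBev : ∀ᶠ ε in 𝓝 (0 : L), (B ε).det ≠ 0 := hdetc.eventually_ne hB0
  have hsol : ∀ ε, (B ε).det ≠ 0 → (B ε).mulVec (s ε) = fun _ => -1 := by
    intro ε h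
    simp only [s]
    rw [Matrix.mulVec_smul, Matrix.mulVec_mulVec, Matrix.mul_adjugate, Matrix.smul_mulVec,
      Matrix.one_mulVec, smul_smul, inv_mul_cancel₀ h, one_smul]
  have hs0 : s 0 = Sum.elim v0 (fun p : Σ i, J i => Hval x0 v0 (μ p.1) * u p.1 p.2) := by
    rw [← sub_eq_zero]
    apply insB_zero_inj hdet hdetδ
    rw [Matrix.mulVec_sub, insB_zero_sol hv0 hu]
    rw [show (insB ω x0 μ δ 0).mulVec (s 0) = fun _ => -1 from hsol 0 hB0, sub_self]
  -- distinctness of the roots
  have hz : ∀ p : Σ i, J i, ContinuousAt (fun ε : L => μ p.1 + ε * δ p.1 p.2) 0 := fun p => by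
    fun_prop
  have hinj : ∀ᶠ ε in 𝓝[≠] (0 : L), Function.Injective (bigX x0 μ δ ε) := by
    have h : ∀ r c : κ ⊕ (Σ i, J i), ∀ᶠ ε in 𝓝[≠] (0 : L),
        bigX x0 μ δ ε r = bigX x0 μ δ ε c → r = c := by
      intro r c
      rcases r with k | p <;> rcases c with k' | p'
      · exact Eventually.of_forall fun ε h => congrArg Sum.inl (hx0 h)
      · have h1 : ∀ᶠ ε in 𝓝 (0 : L), μ p'.1 + ε * δ p'.1 p'.2 ≠ x0 k := by
          refine (hz p').eventually_ne ?_
          simpa using (hxμ k p'.1).symm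
        filter_upwards [h1.filter_mono nhdsWithin_le_nhds] with ε h h'
        exact absurd h'.symm h
      · have h1 : ∀ᶠ ε in 𝓝 (0 : L), μ p.1 + ε * δ p.1 p.2 ≠ x0 k' := by
          refine (hz p).eventually_ne ?_
          simpa using (hxμ k' p.1).symm
        filter_upwards [h1.filter_mono nhdsWithin_le_nhds] with ε h h'
        exact absurd h' h
      · obtain ⟨i, j⟩ := p
        obtain ⟨i', j'⟩ := p'
        by_cases e : i = i'
        · subst e
          filter_upwards [self_mem_nhdsWithin] with ε hε h'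
          have h2 : ε * δ i j = ε * δ i j' := add_left_cancel h'
          have h3 := hδ i (mul_left_cancel₀ hε h2)
          rw [h3]
        · have h1 : ∀ᶠ ε in 𝓝 (0 : L),
              (μ i + ε * δ i j) - (μ i' + ε * δ i' j') ≠ 0 := by
            refine ((hz ⟨i, j⟩).sub (hz ⟨i', j'⟩)).eventually_ne ?_
            simpa [sub_eq_zero] using fun e' => e (hμ e')
          filter_upwards [h1.filter_mono nhdsWithin_le_nhds] with ε h h'
          exact absurd (sub_eq_zero.2 h') h
    have h' := eventually_all.2 fun r => eventually_all.2 (h r)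
    filter_upwards [h'] with ε h'' r c hrc
    exact h'' r c hrc
  have hωev : ∀ᶠ ε in 𝓝[≠] (0 : L), ∀ r, ω.eval (bigX x0 μ δ ε r) ≠ 0 := by
    refine eventually_all.2 fun r => ?_
    rcases r with k | p
    · exact Eventually.of_forall fun ε => hωx k
    · have h1 : ContinuousAt (fun ε : L => ω.eval (μ p.1 + ε * δ p.1 p.2)) 0 :=
        (Polynomial.continuous _).continuousAt.comp (hz p)
      have h2 : ∀ᶠ ε in 𝓝 (0 : L), ω.eval (μ p.1 + ε * δ p.1 p.2) ≠ 0 := by
        refine h1.eventually_ne ?_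
        simpa using hωμ p.1
      exact h2.filter_mono nhdsWithin_le_nhds
  have hBev' : ∀ᶠ ε in 𝓝[≠] (0 : L), (B ε).det ≠ 0 := hBev.filter_mono nhdsWithin_le_nhds
  refine ⟨fun ε r => insD κ J ε r * s ε r, ?_, ?_, ?_⟩
  · filter_upwards [hinj, hωev, hBev', self_mem_nhdsWithin] with ε h1 h2 h3 h4
    have hB := insB_eq (κ := κ) ω x0 μ δ (ε := ε) h4
    refine ⟨h1, h2, ?_, ?_⟩
    · have h5 : (B ε).det = (sysMat ω (bigX x0 μ δ ε)).det * (Matrix.diagonal (insD κ J ε)).det := by
        rw [← Matrix.det_mul, hB]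
      rw [h5] at h3
      exact left_ne_zero_of_mul h3
    · intro r
      have h6 : (fun r => insD κ J ε r * s ε r)
          = (Matrix.diagonal (insD κ J ε)).mulVec (s ε) := by
        funext r
        rw [Matrix.mulVec_diagonal]
      have h7 := congrFun (hsol ε h3) r
      rw [h6, Matrix.mulVec_mulVec, hB]
      exact h7
  · intro k
    -- the difference quotient solves the system with matrix `sysMat ω x0`
    let g : L → κ → L := fun ε k => ∑ p : Σ i, J i,
      1 / (x0 k - (μ p.1 + ε * δ p.1 p.2)) * s ε (Sum.inr p)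
    have hg : Tendsto g (𝓝[≠] (0 : L)) (𝓝 0) := by
      have hgc : ContinuousAt g 0 := by
        refine continuousAt_pi.2 fun k => ?_
        refine tendsto_finsetSum _ fun p _ => ?_
        refine ContinuousAt.mul (ContinuousAt.div continuousAt_const
          (continuousAt_const.sub (hz p)) ?_) ?_
        · simpa [sub_eq_zero] using hxμ k p.1
        · exact (continuousAt_pi.1 hsc) (Sum.inr p)
      have hg0 : g 0 = 0 := by
        funext k
        simp only [g, hs0, Sum.elim_inr, zero_mul, add_zero, Fintype.sum_sigma, Pi.zero_apply]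
        apply Finset.sum_eq_zero
        intro i _
        have : ∑ j, 1 / (x0 k - μ i) * (Hval x0 v0 (μ i) * u i j)
            = 1 / (x0 k - μ i) * Hval x0 v0 (μ i) * ∑ j, u i j := by
          rw [Finset.mul_sum]
          refine Finset.sum_congr rfl fun j _ => ?_
          ring
        rw [this, sum_sol_eq_zero (hδ i) (hu i), mul_zero]
      have := hgc.tendsto
      rw [hg0] at this
      exact this.mono_left nhdsWithin_le_nhds
    have heq : ∀ᶠ ε in 𝓝[≠] (0 : L),
        (sysMat ω x0)⁻¹.mulVec (- g ε) = fun k => (s ε (Sum.inl k) - v0 k) / ε := by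
      filter_upwards [hBev', self_mem_nhdsWithin] with ε h3 h4
      have h5 : (sysMat ω x0).mulVec (fun k => (s ε (Sum.inl k) - v0 k) / ε) = - g ε := by
        funext k
        have h6 := congrFun (hsol ε h3) (Sum.inl k)
        have h7 := hv0 k
        simp only [B, Matrix.mulVec, dotProduct, Fintype.sum_sum_type, insB] at h6
        simp only [Matrix.mulVec, dotProduct] at h7
        have h8 : (sysMat ω x0).mulVec (fun k => (s ε (Sum.inl k) - v0 k) / ε) k
            = (∑ k', sysMat ω x0 k k' * s ε (Sum.inl k') - ∑ k', sysMat ω x0 k k' * v0 k') / ε := by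
          rw [Matrix.mulVec, dotProduct, ← Finset.sum_sub_distrib, Finset.sum_div]
          refine Finset.sum_congr rfl fun k' _ => ?_
          ring
        have h9 : ∑ p : Σ i, J i, ε / (x0 k - (μ p.1 + ε * δ p.1 p.2)) * s ε (Sum.inr p)
            = ε * g ε k := by
          simp only [g]
          rw [Finset.mul_sum]
          refine Finset.sum_congr rfl fun p _ => ?_
          ring
        rw [h9] at h6
        have hε : ε ≠ 0 := h4
        rw [h8, h7, eq_sub_of_add_eq h6]
        simp only [Pi.neg_apply]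
        field_simp
        ring
      rw [← h5, Matrix.mulVec_mulVec, Matrix.nonsing_inv_mul _ (isUnit_iff_ne_zero.2 hdet),
        Matrix.one_mulVec]
    have hlim : Tendsto (fun ε => (sysMat ω x0)⁻¹.mulVec (- g ε)) (𝓝[≠] (0 : L)) (𝓝 0) := by
      have hc : Continuous (fun y : κ → L => (sysMat ω x0)⁻¹.mulVec (- y)) :=
        Continuous.matrix_mulVec continuous_const continuous_neg
      have h0 : (sysMat ω x0)⁻¹.mulVec (- (0 : κ → L)) = 0 := by
        rw [neg_zero, Matrix.mulVec_zero]
      have := (hc.tendsto 0).comp hg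
      rw [h0] at this
      exact this
    have hlim' := (tendsto_pi_nhds.1 (hlim.congr' heq)) k
    simpa [insD] using hlim'
  · intro i j
    have h1 : Tendsto (fun ε => s ε (Sum.inr ⟨i, j⟩)) (𝓝[≠] (0 : L))
        (𝓝 (Hval x0 v0 (μ i) * u i j)) := by
      have := ((continuousAt_pi.1 hsc) (Sum.inr ⟨i, j⟩)).tendsto
      rw [hs0] at this
      exact this.mono_left nhdsWithin_le_nhds
    refine h1.congr' ?_
    filter_upwards [self_mem_nhdsWithin] with ε hε
    have hε' : ε ≠ 0 := hε
    simp only [insD, Sum.elim_inr]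
    rw [mul_div_cancel_left₀ _ hε']

end AnWA
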