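import Pool.Agent.H.MP_83e36b_nt.Defs
import Pool.Agent.H.MP_83e36b_nt.B2

/-! Module B3: values of phi and H near an inserted cluster.

PROOF. Consequences of InsLimit: v_k(ε) -> v0_k (since (v_k(ε)-v0_k)/ε -> 0), v_ij(ε) -> 0, v_ij(ε)/ε -> H0(μ_i)u_ij, v_ij²/ε -> 0, Σ_j u_ij = 0 (sum_sol_eq_zero, B2). z=μ_i+εγ.
H_near: Hval = 1+Σ_k v_k/(z-x_k) + Σ_{i'≠i}v_i'j/(z-z_i'j) + Σ_j v_ij/(ε(γ-δ_ij)) -> 1+Σ v0_k/(μ_i-x_k) + 0 + Σ_j H0 u_ij/(γ-δ_ij).
logder_near: κ part and the other clusters: ε·(bounded) -> 0; own cluster: ε·1/(ε(γ-δ_ij)) = 1/(γ-δ_ij) for ε≠0.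
phi_near: phiVal ω x v z = ω₀z+ω₁/2z²+2ω₁(Σv)z-Σω(x_r)v_r²/(z-x_r). Difference quotient: (ω₀z+ω₁/2z²)-(…at μ_i) over ε -> (ω₀+ω₁μ_i)γ = ω(μ_i)γ. 2ω₁[(Σ_all v(ε)) z - (Σv0)μ_i]/ε: Σ_all v(ε) = Σv0 + ε·(o(1) + Σ_i'H0(μ_i')Σ_ju_i'j) so -> 2ω₁(Σv0)γ. κ part: -Σ ω(x_k)(v_k²/(z-x_k) - v0_k²/(μ_i-x_k))/ε -> +Σ ω(x_k)v0_k²γ/(μ_i-x_k)² (because (v_k²-v0_k²)/ε->0). Other clusters: v²/ε->0. Own cluster: -ω(z_ij)(v_ij/ε)²/(γ-δ_ij) -> -ω(μ_i)H0²u_ij²/(γ-δ_ij). Sum: γ[ω(μ_i)+2ω₁Σv0+Σω(x_k)v0_k²/(μ_i-x_k)²] - ω(μ_i)H0²Σu_ij²/(γ-δ_ij); the bracket = ω(μ_i)H0(μ_i)² (the identity φ'=ωH²; it uses hv0 : IsSol; see job B1a for its proof; prove it here as a lemma for a point z0=μ_i different from all x_k). And phiVal 1 δ u γ = γ - Σu_ij²/(γ-δ_ij) ((1:L[X]).coeff 0 = 1, coeff 1 = 0).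
-/

open Polynomial Filter Topology

namespace AnWA

section Aux

variable {L κ I : Type*} [NormedField L] [CharZero L] [Fintype κ] [DecidableEq κ]
    [Fintype I] [DecidableEq I] {J : I → Type*} [∀ i, Fintype (J i)] [∀ i, DecidableEq (J i)]
    {ω : L[X]} {x0 v0 : κ → L} {μ : I → L} {δ u : ∀ i, J i → L} {v : L → κ ⊕ (Σ i, J i) → L}

omit [DecidableEq I] [Fintype I] [∀ i, Fintype (J i)] [∀ i, DecidableEq (J i)] [CharZero L] in
theorem B3_eval_lin (hω : ω.natDegree ≤ 1) (z : L) :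
    ω.eval z = ω.coeff 0 + ω.coeff 1 * z := by
  have h := Polynomial.eq_X_add_C_of_natDegree_le_one hω
  conv_lhs => rw [h]
  simp
  ring

omit [CharZero L] in
theorem B3_deriv_eval (hω : ω.natDegree ≤ 1) (z : L) :
    (derivative ω).eval z = ω.coeff 1 := by
  have h := Polynomial.eq_X_add_C_of_natDegree_le_one hω
  conv_lhs => rw [h]
  simp

omit [CharZero L] in
theorem B3_row (hω : ω.natDegree ≤ 1) (hv0 : IsSol ω x0 v0) (k : κ) :
    ∑ l, (if k = l then 0 else v0 l / (x0 k - x0 l))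
      = -1 - ω.coeff 1 * v0 k / (2 * ω.eval (x0 k)) := by
  have h := hv0 k
  have e : (sysMat ω x0).mulVec v0 k
      = ω.coeff 1 / (2 * ω.eval (x0 k)) * v0 k
        + ∑ l, (if k = l then 0 else v0 l / (x0 k - x0 l)) := by
    have e1 : (sysMat ω x0).mulVec v0 k = ∑ l, sysMat ω x0 k l * v0 l := rfl
    rw [e1]
    have e2 : ∀ l, sysMat ω x0 k l * v0 l
        = (if k = l then ω.coeff 1 / (2 * ω.eval (x0 k)) * v0 l else 0)
          + (if k = l then 0 else v0 l / (x0 k - x0 l)) := by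
      intro l
      unfold sysMat
      by_cases hkl : k = l
      · subst hkl
        simp [B3_deriv_eval hω]
      · simp [hkl]
        ring
    rw [Finset.sum_congr rfl (fun l _ => e2 l), Finset.sum_add_distrib, Finset.sum_ite_eq]
    simp
  rw [e] at h
  linear_combination h

theorem B3_identity (hω : ω.natDegree ≤ 1) (hx0 : Function.Injective x0)
    (hωx : ∀ k, ω.eval (x0 k) ≠ 0) (hv0 : IsSol ω x0 v0) (z : L) (hz : ∀ k, z ≠ x0 k) :
    ω.eval z + 2 * ω.coeff 1 * ∑ k, v0 k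
      + ∑ k, ω.eval (x0 k) * v0 k ^ 2 / (z - x0 k) ^ 2 = ω.eval z * (Hval x0 v0 z) ^ 2 := by
  have hz' : ∀ k, z - x0 k ≠ 0 := fun k => sub_ne_zero.2 (hz k)
  have hrow := fun k => B3_row hω hv0 k
  set R : κ → L := fun k => ∑ l, (if k = l then 0 else v0 l / (x0 k - x0 l)) with hR
  set a : κ → L := fun k => v0 k / (z - x0 k) with ha
  -- the square of the sum
  have hsq : (∑ k, a k) ^ 2 = ∑ k, a k ^ 2 + 2 * ∑ k, a k * R k := by
    have h1 : (∑ k, a k) ^ 2 = ∑ k, ∑ l, a k * a l := by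
      rw [sq, Finset.sum_mul_sum]
    have h2 : ∀ k l, a k * a l = (if k = l then a k ^ 2 else 0)
        + (a k * (if k = l then 0 else v0 l / (x0 k - x0 l))
          + a l * (if l = k then 0 else v0 k / (x0 l - x0 k))) := by
      intro k l
      by_cases hkl : k = l
      · subst hkl; simp [sq]
      · have hlk : ¬ l = k := fun h => hkl h.symm
        simp only [hkl, hlk, if_false]
        have hx : x0 k - x0 l ≠ 0 := sub_ne_zero.2 (fun h => hkl (hx0 h))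
        have hx' : x0 l - x0 k ≠ 0 := sub_ne_zero.2 (fun h => hkl (hx0 h.symm))
        have h3 := hz' k
        have h4 := hz' l
        simp only [ha]
        have e : x0 l - x0 k = -(x0 k - x0 l) := by ring
        rw [e]
        field_simp
        ring
    rw [h1, Finset.sum_congr rfl (fun k _ => Finset.sum_congr rfl (fun l _ => h2 k l))]
    simp only [Finset.sum_add_distrib]
    rw [Finset.sum_comm (f := fun k l => a l * (if l = k then 0 else v0 k / (x0 l - x0 k)))]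
    simp only [← Finset.mul_sum, Finset.sum_ite_eq, Finset.mem_univ, if_true]
    simp only [hR]
    ring
  -- the sum of the entries
  have hanti : ∑ k, v0 k * R k = 0 := by
    have h1 : ∑ k, v0 k * R k
        = ∑ k, ∑ l, v0 k * (if k = l then 0 else v0 l / (x0 k - x0 l)) := by
      simp only [hR, Finset.mul_sum]
    have h2 : ∑ k, v0 k * R k = - ∑ k, v0 k * R k := by
      conv_lhs => rw [h1, Finset.sum_comm]
      rw [h1, ← Finset.sum_neg_distrib]
      refine Finset.sum_congr rfl fun k _ => ?_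
      rw [← Finset.sum_neg_distrib]
      refine Finset.sum_congr rfl fun l _ => ?_
      by_cases hkl : k = l
      · subst hkl; simp
      · have hlk : ¬ l = k := fun h => hkl h.symm
        simp only [hkl, hlk, if_false]
        have hx : x0 k - x0 l ≠ 0 := sub_ne_zero.2 (fun h => hkl (hx0 h))
        have e : x0 l - x0 k = -(x0 k - x0 l) := by ring
        rw [e]
        field_simp
    have h3 : (2 : L) * ∑ k, v0 k * R k = 0 := by linear_combination h2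
    exact (mul_eq_zero.1 h3).resolve_left two_ne_zero
  have hsum : ω.coeff 1 * ∑ k, v0 k ^ 2 / ω.eval (x0 k) = - (2 * ∑ k, v0 k) := by
    have h1 : ∀ k, v0 k * R k = - v0 k - ω.coeff 1 / 2 * (v0 k ^ 2 / ω.eval (x0 k)) := by
      intro k
      have hRk : R k = -1 - ω.coeff 1 * v0 k / (2 * ω.eval (x0 k)) := hrow k
      rw [hRk]
      have := hωx k
      field_simp
    rw [Finset.sum_congr rfl (fun k _ => h1 k), Finset.sum_sub_distrib,
      Finset.sum_neg_distrib, ← Finset.mul_sum] at hanti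
    linear_combination (-2 : L) * hanti
  have hH : Hval x0 v0 z = 1 + ∑ k, a k := rfl
  rw [hH]
  have e1 : (1 + ∑ k, a k) ^ 2 = 1 + 2 * ∑ k, a k + (∑ k, a k) ^ 2 := by ring
  rw [e1, hsq]
  have e2 : ∑ k, a k * R k = - ∑ k, a k - ω.coeff 1 / 2 * ∑ k, a k * v0 k / ω.eval (x0 k) := by
    rw [Finset.mul_sum, ← Finset.sum_neg_distrib, ← Finset.sum_sub_distrib]
    refine Finset.sum_congr rfl fun k _ => ?_
    have hRk : R k = -1 - ω.coeff 1 * v0 k / (2 * ω.eval (x0 k)) := hrow k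
    rw [hRk]
    have := hωx k
    field_simp
  rw [e2]
  have e3 : ω.eval z * ∑ k, a k ^ 2 = ∑ k, ω.eval (x0 k) * v0 k ^ 2 / (z - x0 k) ^ 2
      + ω.coeff 1 * ∑ k, v0 k ^ 2 / (z - x0 k) := by
    rw [Finset.mul_sum, Finset.mul_sum, ← Finset.sum_add_distrib]
    refine Finset.sum_congr rfl fun k _ => ?_
    have h3 := hz' k
    have h5 : ω.eval z = ω.eval (x0 k) + ω.coeff 1 * (z - x0 k) := by
      rw [B3_eval_lin hω z, B3_eval_lin hω (x0 k)]; ring
    rw [h5]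
    simp only [ha]
    field_simp
  have e4 : ω.eval z * ∑ k, a k * v0 k / ω.eval (x0 k) = ∑ k, v0 k ^ 2 / (z - x0 k)
      + ω.coeff 1 * ∑ k, v0 k ^ 2 / ω.eval (x0 k) := by
    rw [Finset.mul_sum, Finset.mul_sum, ← Finset.sum_add_distrib]
    refine Finset.sum_congr rfl fun k _ => ?_
    have h3 := hz' k
    have h6 := hωx k
    have h5 : ω.eval z = ω.eval (x0 k) + ω.coeff 1 * (z - x0 k) := by
      rw [B3_eval_lin hω z, B3_eval_lin hω (x0 k)]; ring
    rw [h5]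
    simp only [ha]
    field_simp
  linear_combination (-1 : L) * e3 + ω.coeff 1 * e4 + ω.coeff 1 * hsum

omit [CharZero L] in
/-- from a difference quotient to the function -/
theorem B3_of_quot {f : L → L} {a b : L}
    (h : Tendsto (fun ε => (f ε - a) / ε) (𝓝[≠] (0 : L)) (𝓝 b)) :
    Tendsto f (𝓝[≠] (0 : L)) (𝓝 a) := by
  have hid : Tendsto (fun ε : L => ε) (𝓝[≠] (0 : L)) (𝓝 0) :=
    tendsto_id.mono_left nhdsWithin_le_nhds
  have h1 : Tendsto (fun ε => a + ε * ((f ε - a) / ε)) (𝓝[≠] (0 : L)) (𝓝 (a + 0 * b)) :=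
    tendsto_const_nhds.add (hid.mul h)
  rw [zero_mul, add_zero] at h1
  refine h1.congr' ?_
  filter_upwards [self_mem_nhdsWithin] with ε hε
  have hε' : ε ≠ 0 := hε
  field_simp
  ring

omit [CharZero L] in
/-- sums over the roots near a cluster -/
theorem B3_cluster (hμ : Function.Injective μ) (hxμ : ∀ k i, x0 k ≠ μ i)
    {w : L → κ ⊕ (Σ i, J i) → L} {a : κ → L} {b : ∀ i, J i → L}
    (hwa : ∀ k, Tendsto (fun ε => w ε (Sum.inl k)) (𝓝[≠] (0 : L)) (𝓝 (a k)))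
    (hwb : ∀ i j, Tendsto (fun ε => w ε (Sum.inr ⟨i, j⟩) / ε) (𝓝[≠] (0 : L)) (𝓝 (b i j)))
    (i : I) (γ : L) (hγ : ∀ j, γ ≠ δ i j) :
    Tendsto (fun ε => ∑ r, w ε r / (μ i + ε * γ - bigX x0 μ δ ε r)) (𝓝[≠] (0 : L))
      (𝓝 (∑ k, a k / (μ i - x0 k) + ∑ j, b i j / (γ - δ i j))) := by
  have hid : Tendsto (fun ε : L => ε) (𝓝[≠] (0 : L)) (𝓝 0) :=
    tendsto_id.mono_left nhdsWithin_le_nhds
  have hz : Tendsto (fun ε : L => μ i + ε * γ) (𝓝[≠] (0 : L)) (𝓝 (μ i)) := by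
    have := (tendsto_const_nhds (x := μ i)).add (hid.mul (tendsto_const_nhds (x := γ)))
    simpa using this
  have hsplit : ∀ ε, ∑ r, w ε r / (μ i + ε * γ - bigX x0 μ δ ε r)
      = ∑ k, w ε (Sum.inl k) / (μ i + ε * γ - x0 k)
        + ∑ i', ∑ j, w ε (Sum.inr ⟨i', j⟩) / (μ i + ε * γ - (μ i' + ε * δ i' j)) := by
    intro ε
    rw [Fintype.sum_sum_type, Fintype.sum_sigma]
    rfl
  simp_rw [hsplit]
  refine Tendsto.add (tendsto_finsetSum _ fun k _ => ?_) ?_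
  · refine (hwa k).div (hz.sub tendsto_const_nhds) (sub_ne_zero.2 (hxμ k i).symm)
  · have key : ∀ i', Tendsto (fun ε => ∑ j, w ε (Sum.inr ⟨i', j⟩)
        / (μ i + ε * γ - (μ i' + ε * δ i' j))) (𝓝[≠] (0 : L))
        (𝓝 (if i' = i then ∑ j, b i j / (γ - δ i j) else 0)) := by
      intro i'
      by_cases hi : i' = i
      · subst hi
        simp only [if_true]
        refine tendsto_finsetSum _ fun j _ => ?_
        have h1 : Tendsto (fun ε => (w ε (Sum.inr ⟨i', j⟩) / ε) / (γ - δ i' j))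
            (𝓝[≠] (0 : L)) (𝓝 (b i' j / (γ - δ i' j))) :=
          (hwb i' j).div_const _
        refine h1.congr' ?_
        filter_upwards [self_mem_nhdsWithin] with ε hε
        have hε' : ε ≠ 0 := hε
        have e : μ i' + ε * γ - (μ i' + ε * δ i' j) = ε * (γ - δ i' j) := by ring
        rw [e, div_div]
      · simp only [hi, if_false]
        have : Tendsto (fun ε => ∑ j, w ε (Sum.inr ⟨i', j⟩)
            / (μ i + ε * γ - (μ i' + ε * δ i' j))) (𝓝[≠] (0 : L)) (𝓝 (∑ _j : J i', (0 : L))) := by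
          refine tendsto_finsetSum _ fun j _ => ?_
          have h0 : Tendsto (fun ε => w ε (Sum.inr ⟨i', j⟩)) (𝓝[≠] (0 : L)) (𝓝 0) := by
            refine B3_of_quot (a := 0) (b := b i' j) ?_
            simpa using hwb i' j
          have h1 : Tendsto (fun ε : L => μ i + ε * γ - (μ i' + ε * δ i' j)) (𝓝[≠] (0 : L))
              (𝓝 (μ i - μ i')) := by
            refine hz.sub ?_
            have := (tendsto_const_nhds (x := μ i')).add
              (hid.mul (tendsto_const_nhds (x := δ i' j)))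
            simpa using this
          have h2 := h0.div h1 (sub_ne_zero.2 fun h => hi (hμ h).symm)
          rw [zero_div] at h2
          exact h2
        simpa using this
    have h2 := tendsto_finsetSum Finset.univ fun i' (_ : i' ∈ Finset.univ) => key i'
    rw [Finset.sum_ite_eq' Finset.univ i, if_pos (Finset.mem_univ i)] at h2
    exact h2

end Aux

variable {L κ I : Type*} [NormedField L] [CharZero L] [Fintype κ] [DecidableEq κ]
    [Fintype I] [DecidableEq I] {J : I → Type*} [∀ i, Fintype (J i)] [∀ i, DecidableEq (J i)]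
    {ω : L[X]} {x0 v0 : κ → L} {μ : I → L} {δ u : ∀ i, J i → L} {v : L → κ ⊕ (Σ i, J i) → L}

theorem H_near (hμ : Function.Injective μ) (hxμ : ∀ k i, x0 k ≠ μ i)
    (H : InsLimit ω x0 v0 μ δ u v) (i : I) (γ : L) (hγ : ∀ j, γ ≠ δ i j) :
    Tendsto (fun ε => Hval (bigX x0 μ δ ε) (v ε) (μ i + ε * γ)) (𝓝[≠] (0 : L))
      (𝓝 (Hval x0 v0 (μ i) * Hval (δ i) (u i) γ)) := by
  have h1 := B3_cluster (w := v) (a := v0) (b := fun i j => Hval x0 v0 (μ i) * u i j) (δ := δ)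
    hμ hxμ (fun k => B3_of_quot (H.lim0 k)) H.lim1 i γ hγ
  have h2 := (tendsto_const_nhds (x := (1 : L))).add h1
  have e : (1 : L) + (∑ k, v0 k / (μ i - x0 k)
      + ∑ j, Hval x0 v0 (μ i) * u i j / (γ - δ i j))
      = Hval x0 v0 (μ i) * Hval (δ i) (u i) γ := by
    have e1 : ∑ j, Hval x0 v0 (μ i) * u i j / (γ - δ i j)
        = Hval x0 v0 (μ i) * ∑ j, u i j / (γ - δ i j) := by
      rw [Finset.mul_sum]
      exact Finset.sum_congr rfl fun j _ => by ring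
    rw [e1]
    simp only [Hval]
    ring
  rw [e] at h2
  exact h2

/-- logarithmic derivative of `q` near the cluster -/
theorem logder_near (hμ : Function.Injective μ) (hxμ : ∀ k i, x0 k ≠ μ i)
    (i : I) (γ : L) (hγ : ∀ j, γ ≠ δ i j) :
    Tendsto (fun ε => ε * ∑ r, 1 / (μ i + ε * γ - bigX x0 μ δ ε r)) (𝓝[≠] (0 : L))
      (𝓝 (∑ j, 1 / (γ - δ i j))) := by
  have hid : Tendsto (fun ε : L => ε) (𝓝[≠] (0 : L)) (𝓝 0) :=
    tendsto_id.mono_left nhdsWithin_le_nhds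
  have h1 := B3_cluster (w := fun ε _ => ε) (a := fun _ => 0) (b := fun _ _ => 1) (δ := δ)
    hμ hxμ (fun k => hid) (fun i j => ?_) i γ hγ
  · have e : ∑ k, (0 : L) / (μ i - x0 k) + ∑ j, 1 / (γ - δ i j) = ∑ j, 1 / (γ - δ i j) := by
      simp
    rw [e] at h1
    refine h1.congr fun ε => ?_
    rw [Finset.mul_sum]
    exact Finset.sum_congr rfl fun r _ => by ring
  · refine (tendsto_const_nhds (x := (1 : L))).congr' ?_
    filter_upwards [self_mem_nhdsWithin] with ε hε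
    have hε' : ε ≠ 0 := hε
    field_simp

theorem phi_near (hω : ω.natDegree ≤ 1) (hx0 : Function.Injective x0)
    (hμ : Function.Injective μ) (hxμ : ∀ k i, x0 k ≠ μ i)
    (hωx : ∀ k, ω.eval (x0 k) ≠ 0) (hωμ : ∀ i, ω.eval (μ i) ≠ 0) (hv0 : IsSol ω x0 v0)
    (hδ : ∀ i, Function.Injective (δ i)) (hu : ∀ i, IsSol 1 (δ i) (u i))
    (H : InsLimit ω x0 v0 μ δ u v) (i : I) (γ : L) (hγ : ∀ j, γ ≠ δ i j) :
    Tendsto (fun ε => (phiVal ω (bigX x0 μ δ ε) (v ε) (μ i + ε * γ)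
      - phiVal ω x0 v0 (μ i)) / ε) (𝓝[≠] (0 : L))
      (𝓝 (ω.eval (μ i) * (Hval x0 v0 (μ i)) ^ 2 * phiVal 1 (δ i) (u i) γ)) := by
  have hid : Tendsto (fun ε : L => ε) (𝓝[≠] (0 : L)) (𝓝 0) :=
    tendsto_id.mono_left nhdsWithin_le_nhds
  have hz : Tendsto (fun ε : L => μ i + ε * γ) (𝓝[≠] (0 : L)) (𝓝 (μ i)) := by
    have := (tendsto_const_nhds (x := μ i)).add (hid.mul (tendsto_const_nhds (x := γ)))
    simpa using this
  -- first part
  have hA : Tendsto (fun ε : L => ω.coeff 0 * γ + ω.coeff 1 * μ i * γ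
      + ω.coeff 1 / 2 * (ε * γ ^ 2)) (𝓝[≠] (0 : L))
      (𝓝 (ω.eval (μ i) * γ)) := by
    have h1 := (tendsto_const_nhds (x := ω.coeff 0 * γ + ω.coeff 1 * μ i * γ)).add
      ((tendsto_const_nhds (x := ω.coeff 1 / 2)).mul (hid.mul (tendsto_const_nhds (x := γ ^ 2))))
    have e : ω.coeff 0 * γ + ω.coeff 1 * μ i * γ + ω.coeff 1 / 2 * (0 * γ ^ 2)
        = ω.eval (μ i) * γ := by
      rw [B3_eval_lin hω]; ring
    rw [e] at h1
    exact h1
  -- second part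
  have hsumu : ∀ i, ∑ j, u i j = 0 := fun i => sum_sol_eq_zero (hδ i) (hu i)
  have hB0 : Tendsto (fun ε => ∑ k, (v ε (Sum.inl k) - v0 k) / ε
      + ∑ i', ∑ j, v ε (Sum.inr ⟨i', j⟩) / ε) (𝓝[≠] (0 : L)) (𝓝 0) := by
    have h1 := tendsto_finsetSum Finset.univ fun k (_ : k ∈ Finset.univ) => H.lim0 k
    have h2 := tendsto_finsetSum Finset.univ fun i' (_ : i' ∈ Finset.univ) =>
      tendsto_finsetSum Finset.univ fun j (_ : j ∈ Finset.univ) => H.lim1 i' j
    have h3 := h1.add h2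
    have e : ∑ _k : κ, (0 : L) + ∑ i', ∑ j, Hval x0 v0 (μ i') * u i' j = 0 := by
      simp only [← Finset.mul_sum, hsumu]
      simp
    rw [e] at h3
    exact h3
  have hB : Tendsto (fun ε => 2 * ω.coeff 1 * ((∑ k, (v ε (Sum.inl k) - v0 k) / ε
      + ∑ i', ∑ j, v ε (Sum.inr ⟨i', j⟩) / ε) * (μ i + ε * γ) + (∑ k, v0 k) * γ))
      (𝓝[≠] (0 : L)) (𝓝 (2 * ω.coeff 1 * ((∑ k, v0 k) * γ))) := by
    have h1 := (tendsto_const_nhds (x := 2 * ω.coeff 1)).mul
      ((hB0.mul hz).add (tendsto_const_nhds (x := (∑ k, v0 k) * γ)))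
    rw [zero_mul, zero_add] at h1
    exact h1
  -- third part: the roots `x0`
  have hC : Tendsto (fun ε => ∑ k, ω.eval (x0 k) * (((v ε (Sum.inl k) - v0 k) / ε)
      * (v ε (Sum.inl k) + v0 k) / (μ i + ε * γ - x0 k)
      - v0 k ^ 2 * γ / ((μ i + ε * γ - x0 k) * (μ i - x0 k)))) (𝓝[≠] (0 : L))
      (𝓝 (∑ k, ω.eval (x0 k) * (- (v0 k ^ 2 * γ / (μ i - x0 k) ^ 2)))) := by
    refine tendsto_finsetSum _ fun k _ => ?_
    have hne : μ i - x0 k ≠ 0 := sub_ne_zero.2 (hxμ k i).symm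
    have hd : Tendsto (fun ε : L => μ i + ε * γ - x0 k) (𝓝[≠] (0 : L)) (𝓝 (μ i - x0 k)) :=
      hz.sub tendsto_const_nhds
    have hvk : Tendsto (fun ε => v ε (Sum.inl k)) (𝓝[≠] (0 : L)) (𝓝 (v0 k)) :=
      B3_of_quot (H.lim0 k)
    have h1 := (((H.lim0 k).mul (hvk.add (tendsto_const_nhds (x := v0 k)))).div hd hne).sub
      ((tendsto_const_nhds (x := v0 k ^ 2 * γ)).div
        (hd.mul (tendsto_const_nhds (x := μ i - x0 k))) (mul_ne_zero hne hne))
    have h2 := (tendsto_const_nhds (x := ω.eval (x0 k))).mul h1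
    have e : ω.eval (x0 k) * (0 * (v0 k + v0 k) / (μ i - x0 k)
        - v0 k ^ 2 * γ / ((μ i - x0 k) * (μ i - x0 k)))
        = ω.eval (x0 k) * (- (v0 k ^ 2 * γ / (μ i - x0 k) ^ 2)) := by
      rw [zero_mul, zero_div, zero_sub, sq (μ i - x0 k)]
    rw [e] at h2
    exact h2
  -- fourth part: the clusters
  have hD : Tendsto (fun ε => ∑ r, (Sum.elim (fun _ : κ => (0 : L))
      (fun p : Σ i, J i => ω.eval (μ p.1 + ε * δ p.1 p.2) * v ε (Sum.inr p) ^ 2 / ε) r)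
      / (μ i + ε * γ - bigX x0 μ δ ε r)) (𝓝[≠] (0 : L))
      (𝓝 (∑ j, ω.eval (μ i) * (Hval x0 v0 (μ i) * u i j) ^ 2 / (γ - δ i j))) := by
    have h1 := B3_cluster (δ := δ) (a := fun _ => (0 : L))
      (b := fun i j => ω.eval (μ i) * (Hval x0 v0 (μ i) * u i j) ^ 2)
      (w := fun ε => Sum.elim (fun _ : κ => (0 : L))
        (fun p : Σ i, J i => ω.eval (μ p.1 + ε * δ p.1 p.2) * v ε (Sum.inr p) ^ 2 / ε))
      hμ hxμ (fun k => tendsto_const_nhds) (fun i' j => ?_) i γ hγ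
    · have e : ∑ k, (0 : L) / (μ i - x0 k)
          + ∑ j, ω.eval (μ i) * (Hval x0 v0 (μ i) * u i j) ^ 2 / (γ - δ i j)
          = ∑ j, ω.eval (μ i) * (Hval x0 v0 (μ i) * u i j) ^ 2 / (γ - δ i j) := by simp
      rw [e] at h1
      exact h1
    · have hzz : Tendsto (fun ε : L => μ i' + ε * δ i' j) (𝓝[≠] (0 : L)) (𝓝 (μ i')) := by
        have := (tendsto_const_nhds (x := μ i')).add
          (hid.mul (tendsto_const_nhds (x := δ i' j)))
        simpa using this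
      have hev : Tendsto (fun ε : L => ω.eval (μ i' + ε * δ i' j)) (𝓝[≠] (0 : L))
          (𝓝 (ω.eval (μ i'))) := (ω.continuous.tendsto (μ i')).comp hzz
      have h2 := hev.mul ((H.lim1 i' j).pow 2)
      refine h2.congr' ?_
      filter_upwards [self_mem_nhdsWithin] with ε hε
      have hε' : ε ≠ 0 := hε
      simp only [Sum.elim_inr]
      field_simp
  -- put together
  have hall := ((hA.add hB).sub hC).sub hD
  have hlim : ω.eval (μ i) * γ + 2 * ω.coeff 1 * ((∑ k, v0 k) * γ)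
      - (∑ k, ω.eval (x0 k) * (- (v0 k ^ 2 * γ / (μ i - x0 k) ^ 2)))
      - (∑ j, ω.eval (μ i) * (Hval x0 v0 (μ i) * u i j) ^ 2 / (γ - δ i j))
      = ω.eval (μ i) * (Hval x0 v0 (μ i)) ^ 2 * phiVal 1 (δ i) (u i) γ := by
    have hid2 := B3_identity hω hx0 hωx hv0 (μ i) (fun k => (hxμ k i).symm)
    have e1 : (∑ k, ω.eval (x0 k) * (- (v0 k ^ 2 * γ / (μ i - x0 k) ^ 2)))
        = - (γ * ∑ k, ω.eval (x0 k) * v0 k ^ 2 / (μ i - x0 k) ^ 2) := by
      rw [Finset.mul_sum, ← Finset.sum_neg_distrib]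
      exact Finset.sum_congr rfl fun k _ => by ring
    have e2 : (∑ j, ω.eval (μ i) * (Hval x0 v0 (μ i) * u i j) ^ 2 / (γ - δ i j))
        = ω.eval (μ i) * (Hval x0 v0 (μ i)) ^ 2 * ∑ j, u i j ^ 2 / (γ - δ i j) := by
      rw [Finset.mul_sum]
      exact Finset.sum_congr rfl fun j _ => by ring
    have e3 : phiVal 1 (δ i) (u i) γ = γ - ∑ j, u i j ^ 2 / (γ - δ i j) := by
      unfold phiVal
      have c0 : (1 : L[X]).coeff 0 = 1 := by simp
      have c1 : (1 : L[X]).coeff 1 = 0 := by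
        rw [Polynomial.coeff_one]; simp
      rw [c0, c1]
      simp
    rw [e1, e2, e3]
    linear_combination γ * hid2
  rw [hlim] at hall
  have hd_ev : ∀ᶠ ε in 𝓝[≠] (0 : L), ∀ k, μ i + ε * γ - x0 k ≠ 0 := by
    refine Filter.eventually_all.2 fun k => ?_
    have hd : Tendsto (fun ε : L => μ i + ε * γ - x0 k) (𝓝[≠] (0 : L)) (𝓝 (μ i - x0 k)) :=
      hz.sub tendsto_const_nhds
    exact hd.eventually_ne (sub_ne_zero.2 (hxμ k i).symm)
  refine hall.congr' ?_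
  filter_upwards [self_mem_nhdsWithin, hd_ev] with ε hε hdε
  have hε' : ε ≠ 0 := hε
  have hS : ∑ k, (v ε (Sum.inl k) - v0 k) / ε + ∑ i', ∑ j, v ε (Sum.inr ⟨i', j⟩) / ε
      = (∑ r, v ε r - ∑ k, v0 k) / ε := by
    rw [Fintype.sum_sum_type, Fintype.sum_sigma]
    simp only [← Finset.sum_div, Finset.sum_sub_distrib]
    ring
  have hC' : ∑ k, ω.eval (x0 k) * (((v ε (Sum.inl k) - v0 k) / ε)
      * (v ε (Sum.inl k) + v0 k) / (μ i + ε * γ - x0 k)
      - v0 k ^ 2 * γ / ((μ i + ε * γ - x0 k) * (μ i - x0 k)))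
      = (∑ k, ω.eval (x0 k) * v ε (Sum.inl k) ^ 2 / (μ i + ε * γ - x0 k)
        - ∑ k, ω.eval (x0 k) * v0 k ^ 2 / (μ i - x0 k)) / ε := by
    rw [← Finset.sum_sub_distrib, Finset.sum_div]
    refine Finset.sum_congr rfl fun k _ => ?_
    have h1 := hdε k
    have h2 : μ i - x0 k ≠ 0 := sub_ne_zero.2 (hxμ k i).symm
    field_simp
    ring
  have hD' : ∑ r, (Sum.elim (fun _ : κ => (0 : L))
      (fun p : Σ i, J i => ω.eval (μ p.1 + ε * δ p.1 p.2) * v ε (Sum.inr p) ^ 2 / ε) r)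
      / (μ i + ε * γ - bigX x0 μ δ ε r)
      = (∑ p : Σ i, J i, ω.eval (μ p.1 + ε * δ p.1 p.2) * v ε (Sum.inr p) ^ 2
        / (μ i + ε * γ - (μ p.1 + ε * δ p.1 p.2))) / ε := by
    rw [Fintype.sum_sum_type, Finset.sum_div]
    simp only [Sum.elim_inl, Sum.elim_inr, zero_div, Finset.sum_const_zero, zero_add, bigX]
    exact Finset.sum_congr rfl fun p _ => by ring
  rw [hS, hC', hD']
  unfold phiVal
  have hT : ∑ r, ω.eval (bigX x0 μ δ ε r) * v ε r ^ 2 / (μ i + ε * γ - bigX x0 μ δ ε r)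
      = ∑ k, ω.eval (x0 k) * v ε (Sum.inl k) ^ 2 / (μ i + ε * γ - x0 k)
        + ∑ p : Σ i, J i, ω.eval (μ p.1 + ε * δ p.1 p.2) * v ε (Sum.inr p) ^ 2
        / (μ i + ε * γ - (μ p.1 + ε * δ p.1 p.2)) := by
    rw [Fintype.sum_sum_type]
    rfl
  rw [hT]
  field_simp
  ring

end AnWA
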