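import Pool.Agent.H.MP_83e36b_nt.Defs

/-! Module B4a: an elementary root estimate.

PROOF. f ≠ 0. If f(z)=0 take r=z. Otherwise f'(z)/f(z)=Σ_{roots r with multiplicity}1/(z-r) (Polynomial.eval_derivative_div_eval_of_ne_zero_of_splits or logarithmic derivative of a product), so ‖f'(z)/f(z)‖ ≤ N max 1/‖z-r‖, N = number of roots = natDegree (IsAlgClosed.splits). So some root has ‖z-r‖ ≤ N‖f(z)/f'(z)‖.
-/

open Polynomial

namespace AnWA

/-- an elementary root estimate -/
theorem exists_root_near {L : Type*} [NormedField L] [IsAlgClosed L] {f : L[X]} {z : L}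
    (hz : (derivative f).eval z ≠ 0) :
    ∃ r : L, f.eval r = 0 ∧ ‖z - r‖ ≤ f.natDegree * ‖f.eval z / (derivative f).eval z‖ := by
  classical
  by_cases h0 : f.eval z = 0
  · exact ⟨z, h0, by simp [h0]⟩
  have hf0 : f ≠ 0 := by
    rintro rfl
    simp at hz
  have hs := IsAlgClosed.splits f
  have h1 := hs.eval_derivative_div_eval_of_ne_zero h0
  have hne : (f.roots.toFinset).Nonempty := by
    rw [Finset.nonempty_iff_ne_empty]
    intro he
    rw [Multiset.toFinset_eq_empty] at he
    rw [he, Multiset.map_zero, Multiset.sum_zero] at h1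
    exact (div_ne_zero hz h0) h1
  obtain ⟨r0, hr0, hmin⟩ := Finset.exists_min_image f.roots.toFinset (fun r => ‖z - r‖) hne
  have hr0' : f.eval r0 = 0 := (mem_roots hf0).1 (Multiset.mem_toFinset.1 hr0)
  have hpos : 0 < ‖z - r0‖ := by
    rw [norm_pos_iff, sub_ne_zero]
    rintro rfl
    exact h0 hr0'
  have h2 : ‖(f.roots.map fun r => 1 / (z - r)).sum‖
      ≤ (f.roots.map fun r => ‖1 / (z - r)‖).sum := by
    have := norm_multiset_sum_le (f.roots.map fun r => 1 / (z - r))
    rwa [Multiset.map_map] at this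
  have h3 : (f.roots.map fun r => ‖1 / (z - r)‖).sum
      ≤ (f.roots.map fun r => ‖1 / (z - r)‖).card • (1 / ‖z - r0‖) := by
    refine Multiset.sum_le_card_nsmul _ _ ?_
    intro y hy
    obtain ⟨r, hr, rfl⟩ := Multiset.mem_map.1 hy
    rw [norm_div, norm_one]
    exact one_div_le_one_div_of_le hpos (hmin r (Multiset.mem_toFinset.2 hr))
  have h4 : ((f.roots.map fun r => ‖1 / (z - r)‖).card : ℝ) = f.natDegree := by
    rw [Multiset.card_map, hs.natDegree_eq_card_roots]
  refine ⟨r0, hr0', ?_⟩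
  have h5 : ‖(derivative f).eval z / f.eval z‖ ≤ f.natDegree * (1 / ‖z - r0‖) := by
    rw [h1]
    refine (h2.trans h3).trans (le_of_eq ?_)
    rw [nsmul_eq_mul, h4]
  have h6 : 0 < ‖(derivative f).eval z / f.eval z‖ := norm_pos_iff.2 (div_ne_zero hz h0)
  have h7 : ‖f.eval z / (derivative f).eval z‖ = ‖(derivative f).eval z / f.eval z‖⁻¹ := by
    rw [← norm_inv, inv_div]
  rw [h7, ← div_eq_mul_inv, le_div_iff₀ h6]
  calc ‖z - r0‖ * ‖(derivative f).eval z / f.eval z‖
      ≤ ‖z - r0‖ * (f.natDegree * (1 / ‖z - r0‖)) := by gcongr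
    _ = f.natDegree := by field_simp

end AnWA
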