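import Pool.Agent.H.MP_83e36b_nt.Defs

/-! Auxiliary lemmas for B4b and B4c. -/

set_option linter.unusedSectionVars false

open Polynomial Filter Topology

namespace AnWA

section Alg

variable {L : Type*} [Field L] {ι : Type*} [Fintype ι] [DecidableEq ι]

theorem rootPoly_eval (x : ι → L) (z : L) : (rootPoly x).eval z = ∏ i, (z - x i) := by
  simp [rootPoly, eval_prod]

theorem rootPoly_monic (x : ι → L) : (rootPoly x).Monic :=
  monic_prod_of_monic _ _ fun i _ => monic_X_sub_C (x i)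

theorem rootPoly_natDegree (x : ι → L) : (rootPoly x).natDegree = Fintype.card ι := by
  rw [rootPoly, natDegree_prod_of_monic _ _ fun i _ => monic_X_sub_C (x i)]
  simp

theorem rootPoly_eval_ne_zero {x : ι → L} {z : L} (h : ∀ i, z ≠ x i) :
    (rootPoly x).eval z ≠ 0 := by
  rw [rootPoly_eval, Finset.prod_ne_zero_iff]
  exact fun i _ => sub_ne_zero.2 (h i)

theorem deriv_rootPoly_eval (x : ι → L) (z : L) :
    (derivative (rootPoly x)).eval z = ∑ i, ∏ j ∈ Finset.univ.erase i, (z - x j) := by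
  rw [rootPoly, derivative_prod_finset, eval_finsetSum]
  refine Finset.sum_congr rfl fun i _ => ?_
  simp [eval_prod]

/-- logarithmic derivative -/
theorem deriv_rootPoly_eval_of_ne {x : ι → L} {z : L} (h : ∀ i, z ≠ x i) :
    (derivative (rootPoly x)).eval z = (rootPoly x).eval z * ∑ i, 1 / (z - x i) := by
  rw [deriv_rootPoly_eval, Finset.mul_sum]
  refine Finset.sum_congr rfl fun i _ => ?_
  rw [rootPoly_eval, ← Finset.mul_prod_erase _ _ (Finset.mem_univ i)]
  field_simp [sub_ne_zero.2 (h i)]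

theorem deriv_rootPoly_eval_root (x : ι → L) (i : ι) :
    (derivative (rootPoly x)).eval (x i) = ∏ j ∈ Finset.univ.erase i, (x i - x j) := by
  rw [deriv_rootPoly_eval, Finset.sum_eq_single i]
  · intro b _ hb
    exact Finset.prod_eq_zero (Finset.mem_erase.2 ⟨Ne.symm hb, Finset.mem_univ i⟩) (sub_self _)
  · intro h
    exact absurd (Finset.mem_univ i) h

theorem deriv_rootPoly_eval_root_ne_zero {x : ι → L} (hx : Function.Injective x) (i : ι) :
    (derivative (rootPoly x)).eval (x i) ≠ 0 := by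
  rw [deriv_rootPoly_eval_root, Finset.prod_ne_zero_iff]
  intro j hj
  exact sub_ne_zero.2 fun h => (Finset.mem_erase.1 hj).1 (hx h).symm

theorem member_natDegree_le {ω : L[X]} {x v : ι → L} {h P : L[X]} (H : RootForm ω x v h P)
    (t : L) : (P - C t * rootPoly x).natDegree ≤ Fintype.card ι + 2 := by
  obtain ⟨r, hr, hP⟩ := H.1.form
  have hq := rootPoly_natDegree x
  have h1 : (C (ω.coeff 1 / 2) * X ^ 2 + C (ω.coeff 0 + 2 * ω.coeff 1 *
      (h - rootPoly x).coeff ((rootPoly x).natDegree - 1)) * X : L[X]).natDegree ≤ 2 := by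
    refine (natDegree_add_le _ _).trans (max_le ?_ ?_)
    · exact (natDegree_C_mul_X_pow_le _ _)
    · refine (natDegree_C_mul_le _ _).trans ?_
      exact (natDegree_X_le).trans (by norm_num)
  have h2 : P.natDegree ≤ Fintype.card ι + 2 := by
    rw [hP]
    refine (natDegree_add_le _ _).trans (max_le ?_ ?_)
    · refine natDegree_mul_le.trans ?_
      refine (Nat.add_le_add h1 hq.le).trans ?_
      omega
    · have : r.natDegree ≤ (rootPoly x).natDegree := natDegree_le_natDegree hr.le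
      omega
  refine (natDegree_sub_le _ _).trans (max_le h2 ?_)
  refine (natDegree_C_mul_le _ _).trans ?_
  omega

end Alg

section Limits

variable {L κ I : Type*} [NormedField L] [Fintype κ] [DecidableEq κ] [Fintype I]
    [DecidableEq I] {J : I → Type*} [∀ i, Fintype (J i)] [∀ i, DecidableEq (J i)]

theorem tendsto_center (a γ : L) : Tendsto (fun ε : L => a + ε * γ) (𝓝[≠] (0 : L)) (𝓝 a) := by
  have h : Tendsto (fun ε : L => a + ε * γ) (𝓝 (0 : L)) (𝓝 (a + 0 * γ)) :=
    (continuous_const.add (continuous_id.mul continuous_const)).tendsto 0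
  rw [zero_mul, add_zero] at h
  exact h.mono_left nhdsWithin_le_nhds

theorem tendsto_eps : Tendsto (fun ε : L => ε) (𝓝[≠] (0 : L)) (𝓝 0) :=
  tendsto_id.mono_left nhdsWithin_le_nhds

theorem eventually_ne_bigX {x0 : κ → L} {μ : I → L} {δ : ∀ i, J i → L}
    (hμ : Function.Injective μ) (hxμ : ∀ k i, x0 k ≠ μ i) (i : I) (γ : L)
    (hγ : ∀ j, γ ≠ δ i j) :
    ∀ᶠ ε in 𝓝[≠] (0 : L), ∀ r, μ i + ε * γ ≠ bigX x0 μ δ ε r := by
  rw [eventually_all]
  rintro (k | ⟨i', j⟩)
  · simp only [bigX, Sum.elim_inl]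
    exact (tendsto_center (μ i) γ).eventually_ne (hxμ k i).symm
  · simp only [bigX, Sum.elim_inr]
    by_cases h : i' = i
    · subst h
      have h1 : ∀ᶠ ε in 𝓝[≠] (0 : L), ε ≠ 0 := eventually_mem_nhdsWithin
      filter_upwards [h1] with ε hε heq
      rw [add_right_inj] at heq
      exact hγ j (mul_left_cancel₀ hε heq)
    · have h1 : Tendsto (fun ε : L => (μ i + ε * γ) - (μ i' + ε * δ i' j)) (𝓝[≠] (0 : L))
          (𝓝 (μ i - μ i')) := (tendsto_center (μ i) γ).sub (tendsto_center (μ i') (δ i' j))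
      have h2 : μ i - μ i' ≠ 0 := sub_ne_zero.2 fun hh => h (hμ hh).symm
      filter_upwards [h1.eventually_ne h2] with ε hε heq
      exact hε (sub_eq_zero.2 heq)

variable {ω : L[X]} {x0 v0 : κ → L} {μ : I → L} {δ u : ∀ i, J i → L}
  {v : L → κ ⊕ (Σ i, J i) → L}

theorem InsLimit.tendsto_inl (H : InsLimit ω x0 v0 μ δ u v) (k : κ) :
    Tendsto (fun ε => v ε (Sum.inl k)) (𝓝[≠] (0 : L)) (𝓝 (v0 k)) := by
  have h1 := (tendsto_eps (L := L)).mul (H.lim0 k)
  have h2 : Tendsto (fun ε => v0 k + ε * ((v ε (Sum.inl k) - v0 k) / ε)) (𝓝[≠] (0 : L))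
      (𝓝 (v0 k + 0 * 0)) := tendsto_const_nhds.add h1
  rw [zero_mul, add_zero] at h2
  refine h2.congr' ?_
  have h3 : ∀ᶠ ε in 𝓝[≠] (0 : L), ε ≠ 0 := eventually_mem_nhdsWithin
  filter_upwards [h3] with ε hε
  rw [mul_div_cancel₀ _ hε]
  ring

theorem InsLimit.tendsto_inr (H : InsLimit ω x0 v0 μ δ u v) (p : Σ i, J i) :
    Tendsto (fun ε => v ε (Sum.inr p)) (𝓝[≠] (0 : L)) (𝓝 0) := by
  have h1 := (tendsto_eps (L := L)).mul (H.lim1 p.1 p.2)
  rw [zero_mul] at h1
  refine h1.congr' ?_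
  have h3 : ∀ᶠ ε in 𝓝[≠] (0 : L), ε ≠ 0 := eventually_mem_nhdsWithin
  filter_upwards [h3] with ε hε
  exact mul_div_cancel₀ _ hε

end Limits

end AnWA
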