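import Pool.Agent.H.MP_83e36b_nt.Defs
import Pool.Agent.H.MP_83e36b_nt.B1b
import Pool.Agent.H.MP_83e36b_nt.B3
import Pool.Agent.H.MP_83e36b_nt.B4a
import Pool.Agent.H.MP_83e36b_nt.B4b_Aux

/-! Module B4b: root_typeO and P_ne_zero.

PROOF. z=μ_i+εγ, q=rootPoly(bigX ε), f=P-tq. For ε≠0 small z is none of the roots bigX r. RootForm: P(z)=φ(z)q(z), h(z)=Hval(z) q(z). member_deriv (B1b): f'(z)q(z)=f(z)q'(z)+ω(z)h(z)². Divide by q(z)²: f'(z)/q(z) = (φ(z)-t)·(q'/q)(z) + ω(z)Hval(z)². φ(z)-t = ε·(ω(μ_i)H0²·0 + o(1)) by phi_near and hφ, hi; q'/q(z) = Σ_r 1/(z-x_r), ε·that bounded (logder_near). So f'(z)/q(z) -> ω(μ_i)H0(μ_i)²H_in(γ)² ≠ 0 (H_near) and f(z)/q(z)/ε -> 0, hence (f(z)/f'(z))/ε -> 0. exists_root_near with natDegree f ≤ fixed N = card κ + Σ card J_i + 2 (natDegree of P from the form in Pencil: ≤ natDegree q + 2) gives the root with ‖z-r‖ ≤ N‖f/f'‖ ≤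 η‖ε‖ eventually.
P_ne_zero: P(x_r) = -ω(x_r)v_r²q'(x_r); q'(x_r) ≠0 (injective, from InsLimit.ev), ω(x_r)≠0 (ev), v_r(ε) ≠ 0 eventually: v_k -> v0_k ≠0; v_ij/ε -> H0 u_ij≠0.
-/

open Polynomial Filter Topology

namespace AnWA

variable {L κ I : Type*} [NormedField L] [CharZero L] [IsAlgClosed L] [Fintype κ]
    [DecidableEq κ] [Fintype I] [DecidableEq I] {J : I → Type*} [∀ i, Fintype (J i)]
    [∀ i, DecidableEq (J i)]
    {ω : L[X]} {x0 v0 : κ → L} {μ : I → L} {δ u : ∀ i, J i → L} {v : L → κ ⊕ (Σ i, J i) → L}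

/-- from a bound for `f / f'` to a root -/
theorem root_of_ratio {ι : Type*} [Fintype ι] [DecidableEq ι] {ω : L[X]} {x v : ι → L}
    {h P : L[X]} (H : RootForm ω x v h P) {t z ε a c d : L} {η : ℝ}
    (hf : (P - C t * rootPoly x).eval z = d * (ε * a))
    (hf' : (derivative (P - C t * rootPoly x)).eval z = d * c) (hd : d ≠ 0) (hc : c ≠ 0)
    (hb : ((Fintype.card ι + 2 : ℕ) : ℝ) * ‖a / c‖ ≤ η) :
    ∃ r : L, (P - C t * rootPoly x).eval r = 0 ∧ ‖r - z‖ ≤ η * ‖ε‖ := by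
  have hne : (derivative (P - C t * rootPoly x)).eval z ≠ 0 := by
    rw [hf']; exact mul_ne_zero hd hc
  obtain ⟨r, hr, hzr⟩ := exists_root_near hne
  refine ⟨r, hr, ?_⟩
  rw [norm_sub_rev]
  refine hzr.trans ?_
  have h1 : (P - C t * rootPoly x).eval z / (derivative (P - C t * rootPoly x)).eval z
      = ε * (a / c) := by
    rw [hf, hf']
    field_simp
  rw [h1, norm_mul]
  have h2 : ((P - C t * rootPoly x).natDegree : ℝ) ≤ ((Fintype.card ι + 2 : ℕ) : ℝ) := by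
    exact_mod_cast member_natDegree_le H t
  calc ((P - C t * rootPoly x).natDegree : ℝ) * (‖ε‖ * ‖a / c‖)
      ≤ ((Fintype.card ι + 2 : ℕ) : ℝ) * (‖ε‖ * ‖a / c‖) := by gcongr
    _ = (((Fintype.card ι + 2 : ℕ) : ℝ) * ‖a / c‖) * ‖ε‖ := by ring
    _ ≤ η * ‖ε‖ := by gcongr

/-- centre of type O: `φ₀(μ i) = t`; roots of the inner member. -/
theorem root_typeO (hω : ω.natDegree ≤ 1) (hx0 : Function.Injective x0)
    (hμ : Function.Injective μ) (hxμ : ∀ k i, x0 k ≠ μ i)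
    (hωx : ∀ k, ω.eval (x0 k) ≠ 0) (hωμ : ∀ i, ω.eval (μ i) ≠ 0) (hv0 : IsSol ω x0 v0)
    (hδ : ∀ i, Function.Injective (δ i)) (hu : ∀ i, IsSol 1 (δ i) (u i))
    (H : InsLimit ω x0 v0 μ δ u v) {t : L} (i : I) (hi : phiVal ω x0 v0 (μ i) = t)
    (hH0 : Hval x0 v0 (μ i) ≠ 0) (γ : L) (hγ : ∀ j, γ ≠ δ i j)
    (hφ : phiVal 1 (δ i) (u i) γ = 0) (hH : Hval (δ i) (u i) γ ≠ 0) (η : ℝ) (hη : 0 < η) :
    ∀ᶠ ε in 𝓝[≠] (0 : L), ∀ h P : L[X], RootForm ω (bigX x0 μ δ ε) (v ε) h P →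
      ∃ r : L, (P - C t * rootPoly (bigX x0 μ δ ε)).eval r = 0 ∧
        ‖r - (μ i + ε * γ)‖ ≤ η * ‖ε‖ := by
  -- the three scalar functions
  have ha := phi_near hω hx0 hμ hxμ hωx hωμ hv0 hδ hu H i γ hγ
  rw [hφ, mul_zero, hi] at ha
  have hb := logder_near (δ := δ) hμ hxμ i γ hγ
  have hc1 := H_near hμ hxμ H i γ hγ
  have hωc : Tendsto (fun ε : L => ω.eval (μ i + ε * γ)) (𝓝[≠] (0 : L)) (𝓝 (ω.eval (μ i))) :=
    (ω.continuous.tendsto (μ i)).comp (tendsto_center (μ i) γ)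
  have hc := hωc.mul (hc1.pow 2)
  have hden := (ha.mul hb).add hc
  rw [zero_mul, zero_add] at hden
  have hlim0 : ω.eval (μ i) * (Hval x0 v0 (μ i) * Hval (δ i) (u i) γ) ^ 2 ≠ 0 :=
    mul_ne_zero (hωμ i) (pow_ne_zero _ (mul_ne_zero hH0 hH))
  have hrat := ((ha.div hden hlim0).norm).const_mul
    (((Fintype.card (κ ⊕ (Σ i, J i)) + 2 : ℕ) : ℝ))
  rw [zero_div, norm_zero, mul_zero] at hrat
  have h1 := hrat.eventually (Iic_mem_nhds hη)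
  have h2 := hden.eventually_ne hlim0
  have h3 := eventually_ne_bigX (x0 := x0) (δ := δ) hμ hxμ i γ hγ
  have h4 : ∀ᶠ ε in 𝓝[≠] (0 : L), ε ≠ 0 := eventually_mem_nhdsWithin
  filter_upwards [h1, h2, h3, h4] with ε h1 h2 h3 h4 h P hRF
  have hq0 := rootPoly_eval_ne_zero h3
  obtain ⟨hh, hP⟩ := hRF.2.1 _ h3
  have hfz : (P - C t * rootPoly (bigX x0 μ δ ε)).eval (μ i + ε * γ) =
      (rootPoly (bigX x0 μ δ ε)).eval (μ i + ε * γ) *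
        (ε * ((phiVal ω (bigX x0 μ δ ε) (v ε) (μ i + ε * γ) - t) / ε)) := by
    rw [mul_div_cancel₀ _ h4, eval_sub, hP, eval_mul, eval_C]
    ring
  refine root_of_ratio hRF hfz (c := (phiVal ω (bigX x0 μ δ ε) (v ε) (μ i + ε * γ) - t) / ε *
    (ε * ∑ r, 1 / (μ i + ε * γ - bigX x0 μ δ ε r)) +
    ω.eval (μ i + ε * γ) * (Hval (bigX x0 μ δ ε) (v ε) (μ i + ε * γ)) ^ 2) ?_ hq0 h2 h1
  have hmd := member_deriv hRF.1.wr_eq t (μ i + ε * γ)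
  rw [hfz, deriv_rootPoly_eval_of_ne h3, hh] at hmd
  refine mul_right_cancel₀ hq0 ?_
  rw [hmd]
  ring

/-- `P` does not vanish at the roots of `q` -/
theorem P_ne_zero (H : InsLimit ω x0 v0 μ δ u v) (h0 : ∀ k, v0 k ≠ 0)
    (hH0 : ∀ i, Hval x0 v0 (μ i) ≠ 0) (hu0 : ∀ i j, u i j ≠ 0) :
    ∀ᶠ ε in 𝓝[≠] (0 : L), ∀ h P : L[X], RootForm ω (bigX x0 μ δ ε) (v ε) h P →
      ∀ r, P.eval (bigX x0 μ δ ε r) ≠ 0 := by
  have h4 : ∀ᶠ ε in 𝓝[≠] (0 : L), ε ≠ 0 := eventually_mem_nhdsWithin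
  have hv : ∀ᶠ ε in 𝓝[≠] (0 : L), ∀ r, v ε r ≠ 0 := by
    rw [eventually_all]
    rintro (k | ⟨i, j⟩)
    · exact (H.tendsto_inl k).eventually_ne (h0 k)
    · have h1 := (H.lim1 i j).eventually_ne (mul_ne_zero (hH0 i) (hu0 i j))
      filter_upwards [h1] with ε h1 h2
      rw [h2, zero_div] at h1
      exact h1 rfl
  filter_upwards [H.ev, hv] with ε hev hv h P hRF r
  rw [(hRF.2.2 r).2]
  refine mul_ne_zero (mul_ne_zero (neg_ne_zero.2 (hev.2.1 r)) (pow_ne_zero _ (hv r))) ?_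
  exact deriv_rootPoly_eval_root_ne_zero hev.1 r

end AnWA
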