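import Pool.Agent.H.MP_83e36b_nt.Defs
import Pool.Agent.H.MP_83e36b_nt.B1b
import Pool.Agent.H.MP_83e36b_nt.B3
import Pool.Agent.H.MP_83e36b_nt.B4a
import Pool.Agent.H.MP_83e36b_nt.B4b

/-! Module B4c: root_typeE.

PROOF. z = z_ij = μ_i+εδ_ij = bigX (inr ij), q=rootPoly(bigX ε), f=P-tq. f(z) = P(z) = -ω(z)v_ij²q'(z) (RootForm, third clause). Write P = A q - ω(z) v_ij² q_z with q_z = q/(X-z) = product over the other roots and A the regular part: precisely for all y not a root P(y)=φ(y)q(y), φ(y)=A(y)-ω(z)v_ij²/(y-z), A(y)=ω₀y+ω₁/2y²+2ω₁(Σv)y-Σ_{r≠ij}ω(x_r)v_r²/(y-x_r). Derivative at z: P'(z) = A(z)q'(z) - ω(z)v_ij² q''(z)/2, f'(z)/q'(z) = A(z) - t - ω(z)v_ij²·Σ_{r≠ij}1/(z-x_r). (To get P'(z) as a polynomial identity: P = polynomial expression (…)q - Σ_r ω(x_r)v_r² q_r with q_r=∏_{s≠r}(X-x_s): both sides agree at all non-roots (RootForm second clause), hence equal; then differentiate.) As ε->0: A(z) -> ω₀μ_i+ω₁/2μ_i²+2ω₁(Σv0)μ_i-Σω(x_k)v0_k²/(μ_i-x_k)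 = phiVal ω x0 v0 (μ i) (same cluster terms: ω v_ij'²/(ε(δ_ij-δ_ij')) = ε·(bounded) -> 0), and v_ij²·Σ1/(z-x_r) = O(ε²/ε) -> 0. So f'(z)/q'(z) -> φ0(μ_i)-t ≠ 0 while f(z)/q'(z) = -ω v_ij² = O(ε²). So (f/f')/ε -> 0, and exists_root_near (natDegree f ≤ card κ+Σ card J_i+2) gives the claim.
-/

set_option linter.unusedSectionVars false

open Polynomial Filter Topology

namespace AnWA

section Alg

variable {L : Type*} [Field L] [CharZero L] {ι : Type*} [Fintype ι] [DecidableEq ι]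

/-- the polynomial form of `P` -/
theorem P_eq_of_rootForm {ω : L[X]} {x v : ι → L} {h P : L[X]} (H : RootForm ω x v h P) :
    P = (C (ω.coeff 0) * X + C (ω.coeff 1 / 2) * X ^ 2 + C (2 * ω.coeff 1 * ∑ i, v i) * X) *
        rootPoly x
      - ∑ i, C (ω.eval (x i) * v i ^ 2) * ∏ s ∈ Finset.univ.erase i, (X - C (x s)) := by
  refine Polynomial.eq_of_infinite_eval_eq _ _ ?_
  have hfin : (Set.range x)ᶜ.Infinite := (Set.finite_range x).infinite_compl
  refine hfin.mono fun z hz => ?_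
  have hz' : ∀ i, z ≠ x i := fun i hi => hz ⟨i, hi.symm⟩
  show P.eval z = _
  rw [(H.2.1 z hz').2]
  simp only [eval_sub, eval_mul, eval_add, eval_C, eval_X, eval_pow, eval_finsetSum, eval_prod]
  rw [phiVal, sub_mul, Finset.sum_mul]
  congr 1
  refine Finset.sum_congr rfl fun i _ => ?_
  rw [rootPoly_eval, ← Finset.mul_prod_erase _ _ (Finset.mem_univ i)]
  field_simp [sub_ne_zero.2 (hz' i)]

theorem prod_erase_erase {x : ι → L} (hx : Function.Injective x) {ρ r : ι} (hr : r ≠ ρ) :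
    ∏ s ∈ (Finset.univ.erase ρ).erase r, (x ρ - x s) =
      (derivative (rootPoly x)).eval (x ρ) / (x ρ - x r) := by
  rw [deriv_rootPoly_eval_root, ← Finset.mul_prod_erase _ _
    (Finset.mem_erase.2 ⟨hr, Finset.mem_univ r⟩)]
  have : x ρ - x r ≠ 0 := sub_ne_zero.2 fun h => hr (hx h).symm
  field_simp

/-- the derivative of `P` at a root of `q` -/
theorem deriv_P_root {ω : L[X]} {x v : ι → L} (hx : Function.Injective x) {h P : L[X]}
    (H : RootForm ω x v h P) (ρ : ι) :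
    (derivative P).eval (x ρ) = (derivative (rootPoly x)).eval (x ρ) *
      ((ω.coeff 0 * x ρ + ω.coeff 1 / 2 * x ρ ^ 2 + (2 * ω.coeff 1 * ∑ i, v i) * x ρ
        - ∑ r ∈ Finset.univ.erase ρ, ω.eval (x r) * v r ^ 2 / (x ρ - x r))
        - ∑ r ∈ Finset.univ.erase ρ, ω.eval (x ρ) * v ρ ^ 2 / (x ρ - x r)) := by
  have hq0 : (rootPoly x).eval (x ρ) = 0 := by
    rw [rootPoly_eval]
    exact Finset.prod_eq_zero (Finset.mem_univ ρ) (sub_self _)
  have hder : ∀ r, (derivative (∏ s ∈ Finset.univ.erase r, (X - C (x s)))).eval (x ρ) =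
      ∑ s ∈ Finset.univ.erase r, ∏ s' ∈ (Finset.univ.erase r).erase s, (x ρ - x s') := by
    intro r
    rw [derivative_prod_finset, eval_finsetSum]
    refine Finset.sum_congr rfl fun i _ => ?_
    simp [eval_prod]
  have hder1 : ∀ r, r ≠ ρ → (derivative (∏ s ∈ Finset.univ.erase r, (X - C (x s)))).eval (x ρ) =
      (derivative (rootPoly x)).eval (x ρ) / (x ρ - x r) := by
    intro r hr
    rw [hder, Finset.sum_eq_single ρ]
    · rw [Finset.erase_right_comm, prod_erase_erase hx hr]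
    · intro b hb hbρ
      refine Finset.prod_eq_zero (i := ρ) ?_ (sub_self _)
      exact Finset.mem_erase.2 ⟨hbρ.symm, Finset.mem_erase.2 ⟨hr.symm, Finset.mem_univ ρ⟩⟩
    · intro h1
      exact absurd (Finset.mem_erase.2 ⟨hr.symm, Finset.mem_univ ρ⟩) h1
  have hder2 : (derivative (∏ s ∈ Finset.univ.erase ρ, (X - C (x s)))).eval (x ρ) =
      ∑ r ∈ Finset.univ.erase ρ, (derivative (rootPoly x)).eval (x ρ) / (x ρ - x r) := by
    rw [hder]
    refine Finset.sum_congr rfl fun r hr => ?_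
    exact prod_erase_erase hx (Finset.mem_erase.1 hr).1
  have hder3 : ∀ r, (derivative (C (ω.eval (x r) * v r ^ 2) *
      ∏ s ∈ Finset.univ.erase r, (X - C (x s)))).eval (x ρ) = ω.eval (x r) * v r ^ 2 *
        (derivative (∏ s ∈ Finset.univ.erase r, (X - C (x s)))).eval (x ρ) := by
    intro r
    rw [derivative_C_mul, eval_mul, eval_C]
  conv_lhs => rw [P_eq_of_rootForm H]
  have hsplit := (Finset.add_sum_erase Finset.univ (fun r => (derivative (C (ω.eval (x r) *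
    v r ^ 2) * ∏ s ∈ Finset.univ.erase r, (X - C (x s)))).eval (x ρ)) (Finset.mem_univ ρ)).symm
  rw [derivative_sub, derivative_sum, eval_sub, eval_finsetSum, derivative_mul, eval_add, eval_mul,
    eval_mul, hq0, mul_zero, zero_add, hsplit, hder3, hder2]
  have hs : ∑ r ∈ Finset.univ.erase ρ, (derivative (C (ω.eval (x r) * v r ^ 2) *
      ∏ s ∈ Finset.univ.erase r, (X - C (x s)))).eval (x ρ) =
      ∑ r ∈ Finset.univ.erase ρ, ω.eval (x r) * v r ^ 2 *
        ((derivative (rootPoly x)).eval (x ρ) / (x ρ - x r)) := by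
    refine Finset.sum_congr rfl fun r hr => ?_
    rw [hder3, hder1 r (Finset.mem_erase.1 hr).1]
  rw [hs]
  simp only [eval_mul, eval_add, eval_C, eval_X, eval_pow]
  have h1 : ∀ r, ω.eval (x ρ) * v ρ ^ 2 * ((derivative (rootPoly x)).eval (x ρ) / (x ρ - x r)) =
      (derivative (rootPoly x)).eval (x ρ) * (ω.eval (x ρ) * v ρ ^ 2 / (x ρ - x r)) := by
    intro r; ring
  have h2 : ∀ r, ω.eval (x r) * v r ^ 2 * ((derivative (rootPoly x)).eval (x ρ) / (x ρ - x r)) =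
      (derivative (rootPoly x)).eval (x ρ) * (ω.eval (x r) * v r ^ 2 / (x ρ - x r)) := by
    intro r; ring
  have hs1 : ω.eval (x ρ) * v ρ ^ 2 * ∑ r ∈ Finset.univ.erase ρ,
      (derivative (rootPoly x)).eval (x ρ) / (x ρ - x r) =
      (derivative (rootPoly x)).eval (x ρ) *
        ∑ r ∈ Finset.univ.erase ρ, ω.eval (x ρ) * v ρ ^ 2 / (x ρ - x r) := by
    rw [Finset.mul_sum, Finset.mul_sum]
    exact Finset.sum_congr rfl fun r _ => h1 r
  have hs2 : ∑ r ∈ Finset.univ.erase ρ, ω.eval (x r) * v r ^ 2 *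
      ((derivative (rootPoly x)).eval (x ρ) / (x ρ - x r)) =
      (derivative (rootPoly x)).eval (x ρ) *
        ∑ r ∈ Finset.univ.erase ρ, ω.eval (x r) * v r ^ 2 / (x ρ - x r) := by
    rw [Finset.mul_sum]
    exact Finset.sum_congr rfl fun r _ => h2 r
  rw [hs1, hs2]
  ring

end Alg

variable {L κ I : Type*} [NormedField L] [CharZero L] [IsAlgClosed L] [Fintype κ]
    [DecidableEq κ] [Fintype I] [DecidableEq I] {J : I → Type*} [∀ i, Fintype (J i)]
    [∀ i, DecidableEq (J i)]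
    {ω : L[X]} {x0 v0 : κ → L} {μ : I → L} {δ u : ∀ i, J i → L} {v : L → κ ⊕ (Σ i, J i) → L}

/-- centre of type E: `φ₀(μ i) ≠ t`; the roots stay close to the inserted roots. -/
theorem root_typeE (hω : ω.natDegree ≤ 1) (hx0 : Function.Injective x0)
    (hμ : Function.Injective μ) (hxμ : ∀ k i, x0 k ≠ μ i)
    (hωx : ∀ k, ω.eval (x0 k) ≠ 0) (hωμ : ∀ i, ω.eval (μ i) ≠ 0) (hv0 : IsSol ω x0 v0)
    (hδ : ∀ i, Function.Injective (δ i)) (hu : ∀ i, IsSol 1 (δ i) (u i))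
    (H : InsLimit ω x0 v0 μ δ u v) {t : L} (i : I) (hi : phiVal ω x0 v0 (μ i) ≠ t)
    (j : J i) (η : ℝ) (hη : 0 < η) :
    ∀ᶠ ε in 𝓝[≠] (0 : L), ∀ h P : L[X], RootForm ω (bigX x0 μ δ ε) (v ε) h P →
      ∃ r : L, (P - C t * rootPoly (bigX x0 μ δ ε)).eval r = 0 ∧
        ‖r - (μ i + ε * δ i j)‖ ≤ η * ‖ε‖ := by
  set ρ : κ ⊕ (Σ i, J i) := Sum.inr ⟨i, j⟩ with hρ
  have h4 : ∀ᶠ ε in 𝓝[≠] (0 : L), ε ≠ 0 := eventually_mem_nhdsWithin
  have hz : Tendsto (fun ε : L => μ i + ε * δ i j) (𝓝[≠] (0 : L)) (𝓝 (μ i)) :=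
    tendsto_center _ _
  -- limits of the roots
  have hx : ∀ r, Tendsto (fun ε : L => bigX x0 μ δ ε r) (𝓝[≠] (0 : L))
      (𝓝 (Sum.elim x0 (fun p => μ p.1) r)) := by
    rintro (k | ⟨i', j'⟩)
    · simp only [bigX, Sum.elim_inl]; exact tendsto_const_nhds
    · simp only [bigX, Sum.elim_inr]; exact tendsto_center _ _
  -- limits of the `v`
  have hv : ∀ r, Tendsto (fun ε : L => v ε r) (𝓝[≠] (0 : L)) (𝓝 (Sum.elim v0 (fun _ => 0) r)) := by
    rintro (k | p)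
    · exact H.tendsto_inl k
    · exact H.tendsto_inr p
  have hω : ∀ r, Tendsto (fun ε : L => ω.eval (bigX x0 μ δ ε r)) (𝓝[≠] (0 : L))
      (𝓝 (ω.eval (Sum.elim x0 (fun p => μ p.1) r))) := fun r =>
    (ω.continuous.tendsto _).comp (hx r)
  have hvsq : ∀ (p : Σ i, J i), Tendsto (fun ε : L => v ε (Sum.inr p) ^ 2 / ε) (𝓝[≠] (0 : L))
      (𝓝 0) := by
    intro p
    have h1 := (H.lim1 p.1 p.2).mul (H.tendsto_inr p)
    rw [mul_zero] at h1
    refine h1.congr fun ε => ?_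
    ring
  -- a term of the sums over the other roots
  have hterm : ∀ (w : L → L) (l : L) (r : κ ⊕ (Σ i, J i)), r ≠ ρ →
      Tendsto w (𝓝[≠] (0 : L)) (𝓝 l) →
      ((∃ j', r = Sum.inr ⟨i, j'⟩) → l = 0 ∧ Tendsto (fun ε => w ε / ε) (𝓝[≠] (0 : L)) (𝓝 0)) →
      Tendsto (fun ε : L => w ε / (μ i + ε * δ i j - bigX x0 μ δ ε r)) (𝓝[≠] (0 : L))
        (𝓝 (l / (μ i - Sum.elim x0 (fun p => μ p.1) r))) := by
    intro w l r hr hw hs
    by_cases hcase : ∃ j', r = Sum.inr ⟨i, j'⟩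
    · obtain ⟨hl, hs'⟩ := hs hcase
      obtain ⟨j', rfl⟩ := hcase
      have hjj : j ≠ j' := by
        rintro rfl
        exact hr rfl
      have hd : δ i j - δ i j' ≠ 0 := sub_ne_zero.2 fun hh => hjj (hδ i hh)
      rw [hl, zero_div]
      have h1 := hs'.div_const (δ i j - δ i j')
      rw [zero_div] at h1
      refine h1.congr' ?_
      filter_upwards [h4] with ε hε
      simp only [bigX, Sum.elim_inr]
      have : μ i + ε * δ i j - (μ i + ε * δ i j') = ε * (δ i j - δ i j') := by ring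
      rw [this, div_div]
    · refine hw.div (hz.sub (hx r)) ?_
      rcases r with k | ⟨i', j'⟩
      · simp only [Sum.elim_inl]
        exact sub_ne_zero.2 (hxμ k i).symm
      · simp only [Sum.elim_inr]
        refine sub_ne_zero.2 fun hh => hcase ?_
        have := hμ hh
        subst this
        exact ⟨j', rfl⟩
  -- first sum
  have hS1 : Tendsto (fun ε : L => ∑ r ∈ Finset.univ.erase ρ, ω.eval (bigX x0 μ δ ε r) *
      v ε r ^ 2 / (μ i + ε * δ i j - bigX x0 μ δ ε r)) (𝓝[≠] (0 : L))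
      (𝓝 (∑ r ∈ Finset.univ.erase ρ, ω.eval (Sum.elim x0 (fun p => μ p.1) r) *
        (Sum.elim v0 (fun _ => 0) r) ^ 2 / (μ i - Sum.elim x0 (fun p => μ p.1) r))) := by
    refine tendsto_finsetSum _ fun r hr => ?_
    refine hterm _ _ r (Finset.mem_erase.1 hr).1 ((hω r).mul ((hv r).pow 2)) ?_
    rintro ⟨j', rfl⟩
    refine ⟨by simp, ?_⟩
    have h1 := (hω (Sum.inr ⟨i, j'⟩)).mul (hvsq ⟨i, j'⟩)
    rw [mul_zero] at h1
    refine h1.congr fun ε => ?_
    ring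
  -- second sum
  have hS2 : Tendsto (fun ε : L => ∑ r ∈ Finset.univ.erase ρ, ω.eval (bigX x0 μ δ ε ρ) *
      v ε ρ ^ 2 / (μ i + ε * δ i j - bigX x0 μ δ ε r)) (𝓝[≠] (0 : L)) (𝓝 0) := by
    have h0 : ∑ r ∈ Finset.univ.erase ρ,
        (0 : L) / (μ i - Sum.elim x0 (fun p : Σ i, J i => μ p.1) r) = 0 := by simp
    have h5 : Tendsto (fun ε : L => ∑ r ∈ Finset.univ.erase ρ, ω.eval (bigX x0 μ δ ε ρ) *
        v ε ρ ^ 2 / (μ i + ε * δ i j - bigX x0 μ δ ε r)) (𝓝[≠] (0 : L))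
        (𝓝 (∑ r ∈ Finset.univ.erase ρ,
        (0 : L) / (μ i - Sum.elim x0 (fun p : Σ i, J i => μ p.1) r))) := by
      refine tendsto_finsetSum _ fun r hr => ?_
      refine hterm (fun ε => ω.eval (bigX x0 μ δ ε ρ) * v ε ρ ^ 2) 0 r
        (Finset.mem_erase.1 hr).1 ?_ ?_
      · have h1 := (hω ρ).mul ((hv ρ).pow 2)
        simpa [hρ] using h1
      · intro _
        refine ⟨rfl, ?_⟩
        have h1 := (hω (Sum.inr ⟨i, j⟩)).mul (hvsq ⟨i, j⟩)
        rw [mul_zero] at h1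
        refine h1.congr fun ε => ?_
        rw [← hρ]
        ring
    rwa [h0] at h5
  -- the sum of the `v`
  have hsum : Tendsto (fun ε : L => ∑ r, v ε r) (𝓝[≠] (0 : L)) (𝓝 (∑ k, v0 k)) := by
    have h1 : Tendsto (fun ε : L => ∑ r, v ε r) (𝓝[≠] (0 : L))
        (𝓝 (∑ r, Sum.elim v0 (fun _ => 0) r)) := tendsto_finsetSum _ fun r _ => hv r
    rw [Fintype.sum_sum_type] at h1
    simpa using h1
  have hS1lim : ∑ r ∈ Finset.univ.erase ρ, ω.eval (Sum.elim x0 (fun p => μ p.1) r) *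
        (Sum.elim v0 (fun _ => 0) r) ^ 2 / (μ i - Sum.elim x0 (fun p => μ p.1) r) =
        ∑ k, ω.eval (x0 k) * v0 k ^ 2 / (μ i - x0 k) := by
    set F : κ ⊕ (Σ i, J i) → L := fun r => ω.eval (Sum.elim x0 (fun p => μ p.1) r) *
        (Sum.elim v0 (fun _ => 0) r) ^ 2 / (μ i - Sum.elim x0 (fun p => μ p.1) r) with hF
    have hF0 : F ρ = 0 := by simp [hF, hρ]
    have h2 := Finset.add_sum_erase Finset.univ F (Finset.mem_univ ρ)
    rw [hF0, zero_add] at h2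
    rw [h2, Fintype.sum_sum_type]
    simp [hF]
  rw [hS1lim] at hS1
  have hA : Tendsto (fun ε : L => ω.coeff 0 * (μ i + ε * δ i j) +
      ω.coeff 1 / 2 * (μ i + ε * δ i j) ^ 2 + (2 * ω.coeff 1 * ∑ r, v ε r) * (μ i + ε * δ i j)
      - ∑ r ∈ Finset.univ.erase ρ, ω.eval (bigX x0 μ δ ε r) *
      v ε r ^ 2 / (μ i + ε * δ i j - bigX x0 μ δ ε r)) (𝓝[≠] (0 : L))
      (𝓝 (phiVal ω x0 v0 (μ i))) := by
    rw [phiVal]
    refine Tendsto.sub (Tendsto.add (Tendsto.add ?_ ?_) ?_) hS1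
    · exact hz.const_mul _
    · exact (hz.pow 2).const_mul _
    · exact (hsum.const_mul _).mul hz
  have hc := (hA.sub hS2).sub_const t
  rw [sub_zero] at hc
  have hlim0 : phiVal ω x0 v0 (μ i) - t ≠ 0 := sub_ne_zero.2 hi
  have ha : Tendsto (fun ε : L => -(ω.eval (bigX x0 μ δ ε ρ) * (v ε ρ ^ 2 / ε))) (𝓝[≠] (0 : L))
      (𝓝 0) := by
    have h1 := ((hω ρ).mul (hvsq ⟨i, j⟩)).neg
    rw [mul_zero, neg_zero] at h1
    exact h1
  have hrat := ((ha.div hc hlim0).norm).const_mul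
    (((Fintype.card (κ ⊕ (Σ i, J i)) + 2 : ℕ) : ℝ))
  rw [zero_div, norm_zero, mul_zero] at hrat
  have h1 := hrat.eventually (Iic_mem_nhds hη)
  have h2 := hc.eventually_ne hlim0
  filter_upwards [h1, h2, H.ev, h4] with ε h1 h2 hev h4 h P hRF
  have hzρ : μ i + ε * δ i j = bigX x0 μ δ ε ρ := by simp [bigX, hρ]
  have hd0 := deriv_rootPoly_eval_root_ne_zero hev.1 ρ
  have hq0 : (rootPoly (bigX x0 μ δ ε)).eval (bigX x0 μ δ ε ρ) = 0 := by
    rw [rootPoly_eval]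
    exact Finset.prod_eq_zero (Finset.mem_univ ρ) (sub_self _)
  refine root_of_ratio hRF (d := (derivative (rootPoly (bigX x0 μ δ ε))).eval
    (bigX x0 μ δ ε ρ)) (ε := ε) ?_ ?_ hd0 h2 h1
  · rw [hzρ, eval_sub, (hRF.2.2 ρ).2, eval_mul, hq0, mul_zero, sub_zero]
    field_simp
  · rw [hzρ, derivative_sub, eval_sub, deriv_P_root hev.1 hRF ρ, derivative_C_mul, eval_mul,
      eval_C]
    ring

end AnWA
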