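import Pool.Agent.H.MP_83e36b_nt.Defs

/-! Module C1: Galois descent and equivariant interpolation.

PROOF. descend_elem: InfiniteGalois.mem_range_algebraMap_iff_fixed. descend_poly: coefficientwise (Polynomial.lifts / coeff). interp: Lagrange interpolation polynomial (Lagrange.interpolate s id φ) is fixed by all σ (uniqueness of interpolation: both have degree < card s and agree on s = σ(s)), descend. prod_X_sub_C_aroots: separable → nodup roots, splits; σ maps roots to roots. descend_prod: σ permutes s (injective map of a finite set to itself is a bijection).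
-/

open Polynomial

namespace AnWA

variable {F L : Type*} [Field F] [Field L] [Algebra F L] [IsGalois F L]

theorem descend_elem {x : L} (h : ∀ σ : L ≃ₐ[F] L, σ x = x) : ∃ y : F, algebraMap F L y = x := by
  exact (InfiniteGalois.mem_range_algebraMap_iff_fixed x).2 h

theorem descend_poly {p : L[X]} (h : ∀ σ : L ≃ₐ[F] L, p.map (σ : L →+* L) = p) :
    ∃ q : F[X], q.map (algebraMap F L) = p := by
  rw [← Polynomial.mem_lifts, Polynomial.lifts_iff_coeff_lifts]
  intro n
  obtain ⟨y, hy⟩ := descend_elem (F := F) (x := p.coeff n) (by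
    intro σ
    have h1 := congrArg (fun q : L[X] => q.coeff n) (h σ)
    simp only [coeff_map] at h1
    exact h1)
  exact ⟨y, hy⟩

/-- an equivariant function on a Galois stable finite set is given by a polynomial -/
theorem interp [DecidableEq L] (s : Finset L) (hs : ∀ σ : L ≃ₐ[F] L, ∀ x ∈ s, σ x ∈ s)
    (φ : L → L) (hφ : ∀ σ : L ≃ₐ[F] L, ∀ x ∈ s, φ (σ x) = σ (φ x)) :
    ∃ ρ : F[X], ρ.natDegree ≤ s.card ∧ ∀ x ∈ s, aeval x ρ = φ x := by
  have hinj : Set.InjOn (id : L → L) (s : Set L) := Function.injective_id.injOn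
  have hdeg := Lagrange.degree_interpolate_lt φ hinj
  obtain ⟨ρ, hρ⟩ := descend_poly (F := F) (p := Lagrange.interpolate s id φ) (by
    intro σ
    apply Lagrange.eq_interpolate_of_eval_eq φ hinj
    · exact lt_of_le_of_lt degree_map_le hdeg
    · intro x hx
      have h1 : σ.symm x ∈ s := hs σ.symm x hx
      have h2 := Lagrange.eval_interpolate_at_node φ hinj h1
      have h3 := hφ σ (σ.symm x) h1
      rw [σ.apply_symm_apply] at h3
      rw [h3, ← h2]
      have h4 : (σ : L →+* L) (σ.symm x) = x := σ.apply_symm_apply x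
      rw [Polynomial.eval_map]
      change Polynomial.eval₂ (σ : L →+* L) x _ = (σ : L →+* L) _
      conv_lhs => rw [← h4]
      rw [Polynomial.eval₂_at_apply]
      rfl)
  refine ⟨ρ, ?_, ?_⟩
  · rw [← natDegree_map (algebraMap F L), hρ]
    apply natDegree_le_of_degree_le
    exact hdeg.le
  · intro x hx
    rw [← Polynomial.eval_map_algebraMap, hρ]
    exact Lagrange.eval_interpolate_at_node φ hinj hx

/-- roots of a polynomial over `F` -/
theorem prod_X_sub_C_aroots [IsAlgClosed L] [DecidableEq L] {f : F[X]} (hf : f.Monic)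
    (hs : f.Separable) :
    (∏ x ∈ (f.aroots L).toFinset, (X - C x)) = f.map (algebraMap F L) ∧
    (f.aroots L).toFinset.card = f.natDegree ∧
    ∀ σ : L ≃ₐ[F] L, ∀ x ∈ (f.aroots L).toFinset, σ x ∈ (f.aroots L).toFinset := by
  have hnd : (f.aroots L).Nodup := nodup_roots hs.map
  have hsp : (f.map (algebraMap F L)).Splits := IsAlgClosed.splits _
  have h1 : (∏ x ∈ (f.aroots L).toFinset, (X - C x)) = f.map (algebraMap F L) := by
    rw [Finset.prod_eq_multiset_prod, Multiset.toFinset_val, Multiset.dedup_eq_self.2 hnd]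
    exact (hsp.eq_prod_roots_of_monic (hf.map _)).symm
  refine ⟨h1, ?_, ?_⟩
  · have h2 := congrArg Polynomial.natDegree h1
    rw [natDegree_map, Polynomial.natDegree_prod_of_monic _ _ (fun i _ => monic_X_sub_C i)] at h2
    rw [← h2]
    simp
  · intro σ x hx
    rw [Multiset.mem_toFinset, mem_aroots] at hx ⊢
    refine ⟨hx.1, ?_⟩
    have h3 : aeval (σ x) f = σ (aeval x f) :=
      Polynomial.aeval_algHom_apply (σ : L →ₐ[F] L) x f
    rw [h3, hx.2, map_zero]

/-- a polynomial with Galois stable root set descends -/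
theorem descend_prod [DecidableEq L] (s : Finset L) (hs : ∀ σ : L ≃ₐ[F] L, ∀ x ∈ s, σ x ∈ s) :
    ∃ f : F[X], f.Monic ∧ f.map (algebraMap F L) = ∏ x ∈ s, (X - C x) := by
  obtain ⟨f, hf⟩ := descend_poly (F := F) (p := ∏ x ∈ s, (X - C x)) (by
    intro σ
    have himage : s.image σ = s := by
      ext x
      rw [Finset.mem_image]
      constructor
      · rintro ⟨w, hw, rfl⟩
        exact hs σ w hw
      · intro hx
        exact ⟨σ.symm x, hs σ.symm x hx, σ.apply_symm_apply x⟩
    conv_rhs => rw [← himage, Finset.prod_image (fun a _ b _ hab => σ.injective hab)]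
    rw [Polynomial.map_prod]
    refine Finset.prod_congr rfl fun z _ => ?_
    rw [Polynomial.map_sub, map_X, map_C]
    rfl)
  refine ⟨f, ?_, hf⟩
  apply Polynomial.monic_of_injective (algebraMap F L).injective
  rw [hf]
  exact monic_prod_of_monic _ _ (fun i _ => monic_X_sub_C i)

end AnWA
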