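import Pool.Agent.H.MP_83e36b_nt.Defs
import Pool.Agent.H.MP_83e36b_nt.A1a
import Pool.Agent.H.MP_83e36b_nt.A1b
import Pool.Agent.H.MP_83e36b_nt.B4b
import Pool.Agent.H.MP_83e36b_nt.B4c
import Pool.Agent.H.MP_83e36b_nt.C1

/-! Module S5: equivariant insertion of clusters. -/

open Polynomial Filter Topology

namespace AnWA

section aux

variable {L : Type*} [Field L]

theorem rpMonic {ι : Type*} [Fintype ι] (x : ι → L) : (rootPoly x).Monic :=
  monic_prod_of_monic _ _ (fun i _ => monic_X_sub_C (x i))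

theorem rpNatDegree {ι : Type*} [Fintype ι] (x : ι → L) :
    (rootPoly x).natDegree = Fintype.card ι := by
  unfold rootPoly
  rw [natDegree_prod_of_monic _ _ (fun i _ => monic_X_sub_C (x i))]
  simp

theorem rootPoly_separable {ι : Type*} [Fintype ι] {x : ι → L} (hx : Function.Injective x) :
    (rootPoly x).Separable := by
  unfold rootPoly
  rw [separable_prod_X_sub_C_iff]
  exact hx

theorem eval_rootPoly_eq_zero {ι : Type*} [Fintype ι] {x : ι → L} {z : L} :
    (rootPoly x).eval z = 0 ↔ ∃ i, z = x i := by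
  unfold rootPoly
  rw [eval_prod, Finset.prod_eq_zero_iff]
  simp [sub_eq_zero]

/-- a monic polynomial with as many distinct roots as its degree -/
theorem eq_rootPoly_of_roots {ι : Type*} [Fintype ι] {f : L[X]} (hf : f.Monic)
    (hd : f.natDegree = Fintype.card ι) {r : ι → L} (hr : Function.Injective r)
    (h0 : ∀ i, f.eval (r i) = 0) : f = rootPoly r := by
  refine eq_of_monic_of_dvd_of_natDegree_le (rpMonic r) hf ?_ ?_
  · unfold rootPoly
    refine Finset.prod_dvd_of_coprime ?_ ?_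
    · intro i _ j _ hij
      exact pairwise_coprime_X_sub_C hr hij
    · intro i _
      exact dvd_iff_isRoot.mpr (h0 i)
  · rw [rpNatDegree, hd]

theorem isCoprime_rootPoly {ι : Type*} [Fintype ι] {p : L[X]} {x : ι → L}
    (h : ∀ i, p.eval (x i) ≠ 0) : IsCoprime p (rootPoly x) := by
  unfold rootPoly
  refine IsCoprime.prod_right (fun i _ => ?_)
  refine IsCoprime.symm ?_
  rw [(irreducible_X_sub_C (x i)).coprime_iff_not_dvd, dvd_iff_isRoot]
  exact h i

/-- the linear system has a solution when the determinant is nonzero -/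
theorem exists_isSol {ι : Type*} [Fintype ι] [DecidableEq ι] {ω : L[X]} {x : ι → L}
    (h : (sysMat ω x).det ≠ 0) : ∃ u, IsSol ω x u := by
  refine ⟨(sysMat ω x)⁻¹.mulVec (fun _ => -1), fun i => ?_⟩
  rw [Matrix.mulVec_mulVec, Matrix.mul_nonsing_inv _ (isUnit_iff_ne_zero.mpr h), Matrix.one_mulVec]

end aux

section ins

variable {L κ I A : Type*} [NormedField L] [CharZero L] [IsAlgClosed L] [Fintype κ]
    [DecidableEq κ] [Fintype I] [DecidableEq I] {J : I → Type*} [∀ i, Fintype (J i)]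
    [∀ i, DecidableEq (J i)] [Finite A]
    {ω : L[X]} {x0 v0 : κ → L} {μ : I → L} {δ u : ∀ i, J i → L} {v : L → κ ⊕ (Σ i, J i) → L}

/-- separation of the approximate positions -/
theorem separation (hμ : Function.Injective μ) (cen : A → I) (pos : A → L)
    (hinj : ∀ a b, cen a = cen b → pos a = pos b → a = b) :
    ∃ η : ℝ, 0 < η ∧ ∀ᶠ ε in 𝓝[≠] (0 : L), ∀ a b, a ≠ b →
      2 * η * ‖ε‖ < ‖(μ (cen a) + ε * pos a) - (μ (cen b) + ε * pos b)‖ := by
  have h1 : ∀ᶠ η in 𝓝[>] (0 : ℝ), ∀ a b, cen a = cen b → a ≠ b → 2 * η < ‖pos a - pos b‖ := by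
    refine eventually_all.mpr fun a => eventually_all.mpr fun b => ?_
    by_cases hc : cen a = cen b
    · by_cases hab : a = b
      · exact Eventually.of_forall fun η _ h => absurd hab h
      · have hpos : 0 < ‖pos a - pos b‖ := by
          rw [norm_pos_iff, sub_ne_zero]
          exact fun h => hab (hinj a b hc h)
        have : ∀ᶠ η in 𝓝[>] (0 : ℝ), η < ‖pos a - pos b‖ / 2 :=
          nhdsWithin_le_nhds (Iio_mem_nhds (by positivity))
        filter_upwards [this] with η h _ _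
        linarith
    · exact Eventually.of_forall fun η h => absurd h hc
  obtain ⟨η, h2, hη⟩ := (h1.and self_mem_nhdsWithin).exists
  refine ⟨η, hη, ?_⟩
  refine eventually_all.mpr fun a => eventually_all.mpr fun b => ?_
  by_cases hab : a = b
  · exact Eventually.of_forall fun ε h => absurd hab h
  by_cases hc : cen a = cen b
  · filter_upwards [self_mem_nhdsWithin] with ε hε _
    have hε : ε ≠ 0 := hε
    have : (μ (cen a) + ε * pos a) - (μ (cen b) + ε * pos b) = ε * (pos a - pos b) := by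
      rw [hc]; ring
    rw [this, norm_mul]
    have h3 := h2 a b hc hab
    have h4 : 0 < ‖ε‖ := norm_pos_iff.mpr hε
    nlinarith
  · have hpos : 0 < ‖μ (cen a) - μ (cen b)‖ := by
      rw [norm_pos_iff, sub_ne_zero]
      exact fun h => hc (hμ h)
    have h5 : Tendsto (fun ε : L => ‖(μ (cen a) + ε * pos a) - (μ (cen b) + ε * pos b)‖
        - 2 * η * ‖ε‖) (𝓝[≠] 0) (𝓝 (‖μ (cen a) - μ (cen b)‖)) := by
      have : Continuous (fun ε : L => ‖(μ (cen a) + ε * pos a) - (μ (cen b) + ε * pos b)‖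
        - 2 * η * ‖ε‖) := by fun_prop
      have h6 := this.tendsto 0
      simp only [zero_mul, add_zero, norm_zero, mul_zero, sub_zero] at h6
      exact h6.mono_left nhdsWithin_le_nhds
    filter_upwards [h5.eventually (lt_mem_nhds hpos)] with ε hε _
    linarith

theorem insertion_roots (hω : ω.natDegree ≤ 1) (hx0 : Function.Injective x0)
    (hμ : Function.Injective μ) (hxμ : ∀ k i, x0 k ≠ μ i)
    (hωx : ∀ k, ω.eval (x0 k) ≠ 0) (hωμ : ∀ i, ω.eval (μ i) ≠ 0) (hv0 : IsSol ω x0 v0)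
    (hδ : ∀ i, Function.Injective (δ i)) (hu : ∀ i, IsSol 1 (δ i) (u i))
    (hH0 : ∀ i, Hval x0 v0 (μ i) ≠ 0)
    (H : InsLimit ω x0 v0 μ δ u v) (t : L) (cen : A → I) (pos : A → L)
    (hinj : ∀ a b, cen a = cen b → pos a = pos b → a = b)
    (htype : ∀ a, (phiVal ω x0 v0 (μ (cen a)) = t ∧ (∀ j, pos a ≠ δ (cen a) j) ∧
        phiVal 1 (δ (cen a)) (u (cen a)) (pos a) = 0 ∧
        Hval (δ (cen a)) (u (cen a)) (pos a) ≠ 0) ∨
      (phiVal ω x0 v0 (μ (cen a)) ≠ t ∧ ∃ j, pos a = δ (cen a) j)) :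
    ∃ η : ℝ, 0 < η ∧ ∀ᶠ ε in 𝓝[≠] (0 : L),
      (∀ a b, a ≠ b →
        2 * η * ‖ε‖ < ‖(μ (cen a) + ε * pos a) - (μ (cen b) + ε * pos b)‖) ∧
      ∀ h P : L[X], RootForm ω (bigX x0 μ δ ε) (v ε) h P → ∀ a, ∃ r : L,
        (P - C t * rootPoly (bigX x0 μ δ ε)).eval r = 0 ∧
        ‖r - (μ (cen a) + ε * pos a)‖ ≤ η * ‖ε‖ := by
  obtain ⟨η, hη, hsep⟩ := separation hμ cen pos hinj
  refine ⟨η, hη, hsep.and ?_⟩
  have key : ∀ᶠ ε in 𝓝[≠] (0 : L), ∀ a, ∀ h P : L[X],
      RootForm ω (bigX x0 μ δ ε) (v ε) h P → ∃ r : L,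
        (P - C t * rootPoly (bigX x0 μ δ ε)).eval r = 0 ∧
        ‖r - (μ (cen a) + ε * pos a)‖ ≤ η * ‖ε‖ := by
    refine eventually_all.mpr fun a => ?_
    rcases htype a with ⟨h1, h2, h3, h4⟩ | ⟨h1, j, h2⟩
    · exact root_typeO hω hx0 hμ hxμ hωx hωμ hv0 hδ hu H (cen a) h1 (hH0 _) (pos a) h2 h3 h4 η hη
    · rw [h2]
      exact root_typeE hω hx0 hμ hxμ hωx hωμ hv0 hδ hu H (cen a) h1 j η hη
  filter_upwards [key] with ε hε h P hR a
  exact hε a h P hR

end ins

section main

variable {F L : Type*} [NontriviallyNormedField F] [CharZero F] [NormedField L]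
  [NormedAlgebra F L] [IsAlgClosed L] [IsGalois F L] [DecidableEq L]

theorem rootPoly_aroots {q : F[X]} (hq : q.Monic) (hs : q.Separable) :
    rootPoly (Subtype.val : {z // z ∈ (q.aroots L).toFinset} → L) = q.map (algebraMap F L) := by
  rw [← (prod_X_sub_C_aroots (L := L) hq hs).1]
  unfold rootPoly
  exact Finset.prod_coe_sort _ (fun x => X - C x)

theorem tendsto_algebraMap_punctured :
    Tendsto (algebraMap F L) (𝓝[≠] (0 : F)) (𝓝[≠] (0 : L)) := by
  refine tendsto_nhdsWithin_iff.mpr ⟨?_, ?_⟩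
  · have h1 : Continuous (algebraMap F L) := continuous_algebraMap F L
    have h2 := h1.tendsto 0
    rw [map_zero] at h2
    exact h2.mono_left nhdsWithin_le_nhds
  · filter_upwards [self_mem_nhdsWithin] with x hx
    have hx : x ≠ 0 := hx
    exact fun h => hx ((map_eq_zero _).mp h)

/-- the polynomial with the inserted roots descends to the base field -/
theorem descend_bigX {I : Type*} [Fintype I] {q0 : F[X]} (hq0 : q0.Monic) (hs0 : q0.Separable)
    (μ : I → L) (D : I → Finset L)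
    (π : (L ≃ₐ[F] L) → Equiv.Perm I) (hπμ : ∀ σ i, μ (π σ i) = σ (μ i))
    (hπD : ∀ σ i, D (π σ i) = (D i).image σ) (e : F)
    (hinj : Function.Injective (bigX (Subtype.val : {z // z ∈ (q0.aroots L).toFinset} → L) μ
      (fun i => (Subtype.val : {z // z ∈ D i} → L)) (algebraMap F L e))) :
    ∃ q : F[X], q.Monic ∧ q.map (algebraMap F L) =
      rootPoly (bigX (Subtype.val : {z // z ∈ (q0.aroots L).toFinset} → L) μ
        (fun i => (Subtype.val : {z // z ∈ D i} → L)) (algebraMap F L e)) := by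
  set x := bigX (Subtype.val : {z // z ∈ (q0.aroots L).toFinset} → L) μ
    (fun i => (Subtype.val : {z // z ∈ D i} → L)) (algebraMap F L e) with hx
  have hst : ∀ σ : L ≃ₐ[F] L, ∀ y ∈ Finset.univ.image x, σ y ∈ Finset.univ.image x := by
    intro σ y hy
    rw [Finset.mem_image] at hy ⊢
    obtain ⟨r, -, rfl⟩ := hy
    rcases r with k | ⟨i, j⟩
    · refine ⟨Sum.inl ⟨σ k, (prod_X_sub_C_aroots hq0 hs0).2.2 σ k k.2⟩, Finset.mem_univ _, ?_⟩
      simp [hx, bigX]
    · refine ⟨Sum.inr ⟨π σ i, ⟨σ j, ?_⟩⟩, Finset.mem_univ _, ?_⟩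
      · rw [hπD]
        exact Finset.mem_image_of_mem _ j.2
      · simp [hx, bigX, hπμ]
  obtain ⟨q, hq, h⟩ := descend_prod _ hst
  refine ⟨q, hq, ?_⟩
  rw [h]
  unfold rootPoly
  rw [Finset.prod_image (fun a _ b _ h => hinj h)]

theorem pencil_P_natDegree {K : Type*} [Field K] [CharZero K] {ω : K[X]}
    (hω : ω = 1 ∨ ω = 2 * X) : ∃ d, 0 < d ∧ d ≤ 2 ∧ ∀ {q h P : K[X]}, Pencil ω q h P →
      P.Monic ∧ P.natDegree = q.natDegree + d := by
  rcases hω with rfl | rfl
  · exact ⟨1, one_pos, by norm_num, fun H => pencil_P_one H⟩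
  · exact ⟨2, two_pos, le_rfl, fun H => pencil_P_two H⟩

/-- separable monic polynomial has nonzero derivative value at its roots: coprimality -/
theorem eval_ne_zero_of_isCoprime {K : Type*} [Field K] {p q : K[X]} (h : IsCoprime p q) {z : K}
    (hz : q.eval z = 0) : p.eval z ≠ 0 := by
  obtain ⟨a, b, hab⟩ := h
  intro hp
  have := congrArg (Polynomial.eval z) hab
  simp [hz, hp] at this

theorem assembly {I A : Type*} [Fintype I] [DecidableEq I] [Fintype A] [DecidableEq A]
    (hiso : ∀ (σ : L ≃ₐ[F] L) (x : L), ‖σ x‖ = ‖x‖)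
    {ω q0 h0 P0 : F[X]} {t : F} (hω : ω = 1 ∨ ω = 2 * X) (H0 : Pencil ω q0 h0 P0)
    (hnd : NonDeg (ω.map (algebraMap F L)) (q0.map (algebraMap F L)))
    (hcop : IsCoprime q0 h0) (hωq : IsCoprime ω q0)
    (μ : I → L) (D : I → Finset L) (hμ : Function.Injective μ)
    (hμq : ∀ i, aeval (μ i) q0 ≠ 0) (hμh : ∀ i, aeval (μ i) h0 ≠ 0)
    (hμω : ∀ i, aeval (μ i) ω ≠ 0) (hD : ∀ i, GoodCluster (D i))
    (π : (L ≃ₐ[F] L) → Equiv.Perm I) (hπμ : ∀ σ i, μ (π σ i) = σ (μ i))
    (hπD : ∀ σ i, D (π σ i) = (D i).image σ)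
    (cen : A → I) (pos : A → L) (hinj : ∀ a b, cen a = cen b → pos a = pos b → a = b)
    (τ : (L ≃ₐ[F] L) → A → A) (hτc : ∀ σ a, cen (τ σ a) = π σ (cen a))
    (hτp : ∀ σ a, pos (τ σ a) = σ (pos a))
    (htype : ∀ a, (aeval (μ (cen a)) (P0 - C t * q0) = 0 ∧ InnerRoot (D (cen a)) (pos a)) ∨
      (aeval (μ (cen a)) (P0 - C t * q0) ≠ 0 ∧ pos a ∈ D (cen a)))
    (hcard : Fintype.card A = P0.natDegree + ∑ i, (D i).card) :
    ∃ q h P : F[X], Pencil ω q h P ∧ NonDeg ω q ∧ q.natDegree = q0.natDegree + ∑ i, (D i).card ∧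
      P.natDegree = Fintype.card A ∧ IsCoprime (P - C t * q) q ∧
      ∃ r : A → L, Function.Injective r ∧ (∀ σ a, r (τ σ a) = σ (r a)) ∧
        (P - C t * q).map (algebraMap F L) = ∏ a, (X - C (r a)) := by
  have hcL : CharZero L := (RingHom.charZero_iff (algebraMap F L).injective).mp inferInstance
  have hωF : ω.natDegree ≤ 1 := by
    rcases hω with rfl | rfl
    · simp
    · exact (natDegree_mul_le.trans (by simp [natDegree_ofNat]))
  have hωd : (ω.map (algebraMap F L)).natDegree ≤ 1 := natDegree_map_le.trans hωF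
  obtain ⟨d, hd0, hd2, hPd⟩ := pencil_P_natDegree (K := F) (ω := ω) hω
  -- the roots of `q0`
  set x0 : {z // z ∈ (q0.aroots L).toFinset} → L := Subtype.val with hx0def
  have hx0 : Function.Injective x0 := Subtype.val_injective
  have hrp0 : rootPoly x0 = q0.map (algebraMap F L) := rootPoly_aroots H0.monic H0.sep
  have hroot0 : ∀ k, (q0.map (algebraMap F L)).eval (x0 k) = 0 := by
    intro k
    rw [← hrp0, eval_rootPoly_eq_zero]
    exact ⟨k, rfl⟩
  have hωx : ∀ k, (ω.map (algebraMap F L)).eval (x0 k) ≠ 0 := fun k =>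
    eval_ne_zero_of_isCoprime (hωq.map (mapRingHom (algebraMap F L))) (hroot0 k)
  have H0L : Pencil (ω.map (algebraMap F L)) (rootPoly x0) (h0.map (algebraMap F L))
      (P0.map (algebraMap F L)) := by
    rw [hrp0]; exact pencil_map _ H0
  have hnd' : NonDeg (ω.map (algebraMap F L)) (rootPoly x0) := by rw [hrp0]; exact hnd
  obtain ⟨hdet0, v0, hv0, hRF0⟩ := rootForm_of_pencil hωd hx0 hωx hnd' H0L
  have hv0ne : ∀ k, v0 k ≠ 0 := by
    intro k hk
    have h1 := (hRF0.2.2 k).1
    rw [hk, zero_mul] at h1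
    exact eval_ne_zero_of_isCoprime ((hcop.symm).map (mapRingHom (algebraMap F L))) (hroot0 k) h1
  -- the centres
  have hxμ : ∀ k i, x0 k ≠ μ i := by
    intro k i h
    apply hμq i
    rw [← eval_map_algebraMap, ← h]
    exact hroot0 k
  have hωμ : ∀ i, (ω.map (algebraMap F L)).eval (μ i) ≠ 0 := by
    intro i; rw [eval_map_algebraMap]; exact hμω i
  have hμq' : ∀ i, (rootPoly x0).eval (μ i) ≠ 0 := by
    intro i; rw [hrp0, eval_map_algebraMap]; exact hμq i
  have hne : ∀ i k, μ i ≠ x0 k := fun i k h => hxμ k i h.symm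
  have hH0 : ∀ i, Hval x0 v0 (μ i) ≠ 0 := by
    intro i h
    have h1 := (hRF0.2.1 (μ i) (hne i)).1
    rw [h, zero_mul, eval_map_algebraMap] at h1
    exact hμh i h1
  have hphi : ∀ i, phiVal (ω.map (algebraMap F L)) x0 v0 (μ i) = algebraMap F L t ↔
      aeval (μ i) (P0 - C t * q0) = 0 := by
    intro i
    have h1 := (hRF0.2.1 (μ i) (hne i)).2
    rw [eval_map_algebraMap] at h1
    have h2 : (rootPoly x0).eval (μ i) = aeval (μ i) q0 := by rw [hrp0, eval_map_algebraMap]
    rw [map_sub, map_mul, aeval_C, h1, h2, ← sub_mul, mul_eq_zero, or_iff_left (hμq i), sub_eq_zero]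
  -- the clusters
  set δ : ∀ i, {z // z ∈ D i} → L := fun i => Subtype.val with hδdef
  have hδ : ∀ i, Function.Injective (δ i) := fun i => Subtype.val_injective
  have hu' : ∀ i, ∃ u : {z // z ∈ D i} → L, IsSol 1 (δ i) u := fun i => exists_isSol (hD i).1
  choose u hu using hu'
  have hu0 : ∀ i j, u i j ≠ 0 := fun i => (hD i).2 (u i) (hu i)
  obtain ⟨v, hv⟩ := ins_asymp hωd hx0 hμ hxμ hωx hωμ hdet0 hv0 hδ (fun i => (hD i).1) hu
  have htype' : ∀ a, (phiVal (ω.map (algebraMap F L)) x0 v0 (μ (cen a)) = algebraMap F L t ∧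
        (∀ j, pos a ≠ δ (cen a) j) ∧ phiVal 1 (δ (cen a)) (u (cen a)) (pos a) = 0 ∧
        Hval (δ (cen a)) (u (cen a)) (pos a) ≠ 0) ∨
      (phiVal (ω.map (algebraMap F L)) x0 v0 (μ (cen a)) ≠ algebraMap F L t ∧
        ∃ j, pos a = δ (cen a) j) := by
    intro a
    rcases htype a with ⟨h1, h2, h3⟩ | ⟨h1, h2⟩
    · left
      refine ⟨(hphi _).mpr h1, ?_, h3 _ (hu _)⟩
      intro j hj
      exact h2 (hj ▸ j.2)
    · right
      exact ⟨fun h => h1 ((hphi _).mp h), ⟨pos a, h2⟩, rfl⟩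
  obtain ⟨η, hη, hev⟩ := insertion_roots hωd hx0 hμ hxμ hωx hωμ hv0 hδ hu hH0 hv (algebraMap F L t)
    cen pos hinj htype'
  have hPne := P_ne_zero hv hv0ne hH0 hu0
  have hall := (hv.ev.and (hev.and hPne)).and self_mem_nhdsWithin
  obtain ⟨e, ⟨⟨hbi, hbω, hbdet, hbsol⟩, ⟨hsep, hroots⟩, hPne'⟩, he0⟩ :=
    (tendsto_algebraMap_punctured (F := F) (L := L) |>.eventually hall).exists
  have he0 : algebraMap F L e ≠ 0 := he0
  obtain ⟨q, hqm, hqmap⟩ := descend_bigX H0.monic H0.sep μ D π hπμ hπD e hbi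
  set ε := algebraMap F L e with hε
  set bx := bigX x0 μ δ ε with hbx
  have hqmap : q.map (algebraMap F L) = rootPoly bx := hqmap
  have hqsep : q.Separable := by
    rw [← separable_map (algebraMap F L), hqmap]
    exact rootPoly_separable hbi
  have hqnd : NonDeg ω q := by
    refine nonDeg_of_map (algebraMap F L) ?_
    rw [hqmap]
    exact nonDeg_of_det hbi hbω hbdet
  obtain ⟨h, P, HP⟩ := pencil_exists hqm hqsep hωF hqnd
  have hqdeg : q.natDegree = q0.natDegree + ∑ i, (D i).card := by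
    rw [← natDegree_map (algebraMap F L), hqmap, rpNatDegree, Fintype.card_sum,
      Fintype.card_sigma]
    congr 1
    · rw [Fintype.card_coe, (prod_X_sub_C_aroots (L := L) H0.monic H0.sep).2.1]
    · simp [Fintype.card_coe]
  obtain ⟨hPm, hPdeg⟩ := hPd HP
  obtain ⟨-, hP0deg⟩ := hPd H0
  have hPcard : P.natDegree = Fintype.card A := by
    rw [hPdeg, hqdeg, hcard, hP0deg]; ring
  -- RootForm for the new pencil
  obtain ⟨h', P', hRF⟩ := rootForm_of_sol hωd hbi hbω hbsol
  have HPL : Pencil (ω.map (algebraMap F L)) (rootPoly bx) (h.map (algebraMap F L))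
      (P.map (algebraMap F L)) := by
    rw [← hqmap]; exact pencil_map _ HP
  obtain ⟨e1, e2⟩ := pencil_unique (nonDeg_of_det hbi hbω hbdet) hRF.1 HPL
  rw [e1, e2] at hRF
  choose r hr0 hrd using hroots _ _ hRF
  have hfmap : (P - C t * q).map (algebraMap F L) =
      P.map (algebraMap F L) - C (algebraMap F L t) * rootPoly bx := by
    rw [Polynomial.map_sub, Polynomial.map_mul, map_C, hqmap]
  have hlt : (C t * q).degree < P.degree := by
    refine (degree_mul_le _ _).trans_lt ?_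
    rw [degree_eq_natDegree hPm.ne_zero, hPdeg, degree_eq_natDegree hqm.ne_zero]
    calc (C t).degree + (q.natDegree : WithBot ℕ) ≤ 0 + (q.natDegree : WithBot ℕ) := by
          gcongr; exact degree_C_le
      _ < ((q.natDegree + d : ℕ) : WithBot ℕ) := by
          rw [zero_add]; exact_mod_cast (by omega : q.natDegree < q.natDegree + d)
  have hfm : (P - C t * q).Monic := hPm.sub_of_left hlt
  have hfd : (P - C t * q).natDegree = P.natDegree := natDegree_sub_eq_left_of_natDegree_lt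
    ((natDegree_C_mul_le t q).trans_lt (by omega))
  have hrinj : Function.Injective r := by
    intro a b hab
    by_contra hne
    have h1 := hsep a b hne
    have h2 : ‖(μ (cen a) + ε * pos a) - (μ (cen b) + ε * pos b)‖ ≤
        ‖r a - (μ (cen a) + ε * pos a)‖ + ‖r b - (μ (cen b) + ε * pos b)‖ := by
      rw [← norm_neg (r a - _)]
      refine le_trans (le_of_eq ?_) (norm_add_le _ _)
      rw [hab]; congr 1; ring
    have := hrd a
    have := hrd b
    linarith
  have hfprod : (P - C t * q).map (algebraMap F L) = rootPoly r := by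
    refine eq_rootPoly_of_roots (hfm.map _) ?_ hrinj ?_
    · rw [natDegree_map, hfd, hPcard]
    · intro a
      rw [hfmap]; exact hr0 a
  refine ⟨q, h, P, HP, hqnd, hqdeg, hPcard, ?_, r, hrinj, ?_, hfprod⟩
  · -- coprimality
    have h1 : IsCoprime (P.map (algebraMap F L)) (q.map (algebraMap F L)) := by
      rw [hqmap]
      exact isCoprime_rootPoly (hPne' _ _ hRF)
    have h2 : IsCoprime P q := (isCoprime_map (algebraMap F L)).mp h1
    have h3 : P - C t * q = P + (-(C t)) * q := by ring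
    rw [h3]
    exact IsCoprime.add_mul_right_left h2 _
  · -- equivariance
    intro σ a
    have h1 : (rootPoly r).eval (σ (r a)) = 0 := by
      rw [← hfprod, eval_map_algebraMap]
      have h2 : aeval (r a) (P - C t * q) = 0 := by
        rw [← eval_map_algebraMap, hfprod, eval_rootPoly_eq_zero]
        exact ⟨a, rfl⟩
      have h3 := congrArg σ h2
      rw [map_zero, ← aeval_algHom_apply] at h3
      exact h3
    obtain ⟨b, hb⟩ := eval_rootPoly_eq_zero.mp h1
    have h4 : ‖σ (r a) - (μ (cen (τ σ a)) + ε * pos (τ σ a))‖ ≤ η * ‖ε‖ := by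
      have h5 : σ (r a) - (μ (cen (τ σ a)) + ε * pos (τ σ a)) =
          σ (r a - (μ (cen a) + ε * pos a)) := by
        rw [hτc, hτp, hπμ, map_sub, map_add, map_mul, hε, AlgEquiv.commutes]
      rw [h5, hiso]
      exact hrd a
    have h6 := hrd b
    have h7 : b = τ σ a := by
      by_contra hne
      have h8 := hsep b (τ σ a) hne
      have h9 : ‖(μ (cen b) + ε * pos b) - (μ (cen (τ σ a)) + ε * pos (τ σ a))‖ ≤
          ‖r b - (μ (cen b) + ε * pos b)‖ +
          ‖σ (r a) - (μ (cen (τ σ a)) + ε * pos (τ σ a))‖ := by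
        rw [← norm_neg (r b - _)]
        refine le_trans (le_of_eq ?_) (norm_add_le _ _)
        rw [hb]; congr 1; ring
      linarith
    rw [← h7, hb]

end main

end AnWA
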