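import Pool.Agent.H.MP_83e36b_nt.Defs

/-! Module E1: subgroups of index 2 mod 4 in solvable groups.

PROOF. Strong induction on |G|. G is nontrivial (index 2 mod 4). Let A be the last nontrivial term
of the derived series (abelian, normal), ℓ a prime dividing |A|, N={a∈A: a^ℓ=1}: normal in G,
nontrivial, |N| is a power of ℓ. [HN:H] is a power of ℓ and [G:HN][HN:H]=[G:H]=2·odd. If [HN:H] is
odd, apply induction to G/N and the image of HN. Otherwise ℓ=2, [HN:H]=2, [G:HN] is odd:
K=H, M=HN.
-/

open scoped commutatorElement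

namespace AnWA

/-- A nontrivial finite solvable group has a nontrivial normal `l`-subgroup. -/
theorem E1_normal {G : Type*} [Group G] [Finite G] [hs : Group.IsSolvable G] [Nontrivial G] :
    ∃ (l : ℕ) (N : Subgroup G), l.Prime ∧ N.Normal ∧ N ≠ ⊥ ∧ IsPGroup l N := by
  classical
  have hex : ∃ n, derivedSeries G n = ⊥ := hs.solvable
  have hn := Nat.find_spec hex
  have hmin := fun m => Nat.find_min hex (m := m)
  set n := Nat.find hex with hndef
  have hn0 : n ≠ 0 := by
    intro h
    rw [h, derivedSeries_zero] at hn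
    exact top_ne_bot hn
  obtain ⟨m, hm⟩ := Nat.exists_eq_succ_of_ne_zero hn0
  rw [hm, Nat.succ_eq_add_one, derivedSeries_succ] at hn
  have hA : derivedSeries G m ≠ ⊥ := hmin m (by omega)
  set A := derivedSeries G m with hAdef
  have hAn : A.Normal := derivedSeries_normal G m
  have hcomm : ∀ a ∈ A, ∀ b ∈ A, Commute a b := by
    intro a ha b hb
    have h1 : ⁅a, b⁆ ∈ ⁅A, A⁆ := Subgroup.commutator_mem_commutator ha hb
    rw [hn, Subgroup.mem_bot, commutatorElement_eq_one_iff_commute] at h1
    exact h1
  have hcard : Nat.card A ≠ 1 := by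
    intro h
    exact hA (Subgroup.card_eq_one.1 h)
  obtain ⟨l, hl, hdvd⟩ := Nat.exists_prime_and_dvd hcard
  have : Fact l.Prime := ⟨hl⟩
  let N : Subgroup G :=
    { carrier := {a | a ∈ A ∧ a ^ l = 1}
      one_mem' := ⟨A.one_mem, one_pow l⟩
      mul_mem' := by
        rintro a b ⟨ha, ha'⟩ ⟨hb, hb'⟩
        refine ⟨A.mul_mem ha hb, ?_⟩
        rw [(hcomm a ha b hb).mul_pow, ha', hb', one_mul]
      inv_mem' := by
        rintro a ⟨ha, ha'⟩
        refine ⟨A.inv_mem ha, ?_⟩
        rw [inv_pow, ha', inv_one] }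
  refine ⟨l, N, hl, ?_, ?_, ?_⟩
  · refine ⟨?_⟩
    rintro a ⟨ha, ha'⟩ g
    refine ⟨hAn.conj_mem a ha g, ?_⟩
    rw [conj_pow, ha', mul_one, mul_inv_cancel]
  · obtain ⟨x, hx⟩ := exists_prime_orderOf_dvd_card' (G := A) l hdvd
    intro hbot
    have hmem : (x : G) ∈ N := by
      refine ⟨x.2, ?_⟩
      rw [← hx, ← Subgroup.orderOf_coe, pow_orderOf_eq_one]
    rw [hbot, Subgroup.mem_bot] at hmem
    have hx1 : x = 1 := Subtype.ext hmem
    rw [hx1, orderOf_one] at hx
    exact hl.one_lt.ne hx
  · rintro ⟨x, hx, hx'⟩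
    refine ⟨1, ?_⟩
    apply Subtype.ext
    simpa using hx'

theorem E1_relIndex_dvd {G : Type*} [Group G] [Finite G] (H N : Subgroup G) [N.Normal] :
    H.relIndex (H ⊔ N) ∣ Nat.card N := by
  have h1 : Nat.card H * H.relIndex (H ⊔ N) = Nat.card (H ⊔ N : Subgroup G) := by
    have := Subgroup.relIndex_mul_relIndex ⊥ H (H ⊔ N) bot_le le_sup_left
    simpa only [Subgroup.relIndex_bot_left] using this
  have h2 : Nat.card N * N.relIndex (H ⊔ N) = Nat.card (H ⊔ N : Subgroup G) := by
    have := Subgroup.relIndex_mul_relIndex ⊥ N (H ⊔ N) bot_le le_sup_right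
    simpa only [Subgroup.relIndex_bot_left] using this
  have h3 : Nat.card (N ⊓ H : Subgroup G) * N.relIndex H = Nat.card H := by
    have := Subgroup.relIndex_mul_relIndex ⊥ (N ⊓ H) H bot_le inf_le_right
    simpa only [Subgroup.relIndex_bot_left, Subgroup.inf_relIndex_right] using this
  rw [Subgroup.relIndex_sup_right] at h2
  have hpos : 0 < N.relIndex H := by
    rcases Nat.eq_zero_or_pos (N.relIndex H) with h | h
    · rw [h, mul_zero] at h3
      exact absurd h3.symm Nat.card_pos.ne'
    · exact h
  refine ⟨Nat.card (N ⊓ H : Subgroup G), ?_⟩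
  apply Nat.eq_of_mul_eq_mul_right hpos
  calc Nat.card N * N.relIndex H = Nat.card H * H.relIndex (H ⊔ N) := by rw [h2, h1]
    _ = (Nat.card (N ⊓ H : Subgroup G) * N.relIndex H) * H.relIndex (H ⊔ N) := by rw [h3]
    _ = _ := by ring

theorem E1_aux (n : ℕ) : ∀ (G : Type*) [Group G] [Finite G] [Group.IsSolvable G],
    Nat.card G = n → ∀ (H : Subgroup G), H.index % 4 = 2 →
    ∃ K M : Subgroup G, H ≤ K ∧ K ≤ M ∧ Odd (H.relIndex K) ∧ K.relIndex M = 2 ∧ Odd M.index := by
  induction n using Nat.strong_induction_on with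
  | _ n ih =>
    intro G _ _ _ hG H hH
    have : Nontrivial G := by
      by_contra hnt
      rw [not_nontrivial_iff_subsingleton] at hnt
      have h1 : H = ⊤ := Subsingleton.elim _ _
      rw [h1, Subgroup.index_top] at hH
      omega
    obtain ⟨l, N, hl, hNn, hNb, hNp⟩ := E1_normal (G := G)
    have : Fact l.Prime := ⟨hl⟩
    obtain ⟨k, hk⟩ := IsPGroup.iff_card.1 hNp
    have hdvd := E1_relIndex_dvd H N
    rw [hk, Nat.dvd_prime_pow hl] at hdvd
    obtain ⟨j, _, hj⟩ := hdvd
    have hmul : H.relIndex (H ⊔ N) * (H ⊔ N).index = H.index :=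
      Subgroup.relIndex_mul_index le_sup_left
    rcases Nat.even_or_odd (H.relIndex (H ⊔ N)) with heven | hodd
    · refine ⟨H, H ⊔ N, le_rfl, le_sup_left, ?_, ?_, ?_⟩
      · rw [Subgroup.relIndex_self]
        exact odd_one
      · have hl2 : l = 2 := by
          rw [hj] at heven
          have := (Nat.even_pow.1 heven).1
          exact (Nat.Prime.even_iff hl).1 this
        subst hl2
        rcases j with _ | _ | j
        · rw [hj] at heven
          simp at heven
        · rw [hj]; norm_num
        · exfalso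
          rw [hj, pow_succ, pow_succ] at hmul
          have h4 : H.index % 4 = 0 := by
            rw [← hmul]
            have : 2 ^ j * 2 * 2 * (H ⊔ N).index = 4 * (2 ^ j * (H ⊔ N).index) := by ring
            rw [this, Nat.mul_mod_right]
          omega
      · by_contra hno
        rw [Nat.not_odd_iff_even] at hno
        obtain ⟨a, ha⟩ := heven
        obtain ⟨b, hb⟩ := hno
        rw [ha, hb] at hmul
        have h4 : H.index % 4 = 0 := by
          rw [← hmul]
          have : (a + a) * (b + b) = 4 * (a * b) := by ring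
          rw [this, Nat.mul_mod_right]
        omega
    · have hidx : (H ⊔ N).index % 4 = 2 := by
        rw [← hmul, Nat.mul_mod] at hH
        have h1 : H.relIndex (H ⊔ N) % 4 = 1 ∨ H.relIndex (H ⊔ N) % 4 = 3 := by
          obtain ⟨c, hc⟩ := hodd
          omega
        have h2 : (H ⊔ N).index % 4 < 4 := Nat.mod_lt _ (by norm_num)
        rcases h1 with h1 | h1 <;> rw [h1] at hH <;> omega
      have hlt : Nat.card (G ⧸ N) < n := by
        rw [← hG]
        have h1 : Nat.card N * N.index = Nat.card G := N.card_mul_index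
        have h2 : Nat.card (G ⧸ N) = N.index := rfl
        have h3 : 1 < Nat.card N := by
          have h4 : Nat.card N ≠ 1 := fun h => hNb (Subgroup.card_eq_one.1 h)
          have h5 : 0 < Nat.card N := Nat.card_pos
          omega
        have h4 : 0 < N.index := by
          rcases Nat.eq_zero_or_pos N.index with h | h
          · rw [h, mul_zero] at h1
            exact absurd h1.symm Nat.card_pos.ne'
          · exact h
        rw [h2, ← h1]
        nlinarith
      have hsurj := QuotientGroup.mk'_surjective N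
      have hker : (QuotientGroup.mk' N).ker ≤ H ⊔ N := by
        rw [QuotientGroup.ker_mk']
        exact le_sup_right
      have hmapi : ((H ⊔ N).map (QuotientGroup.mk' N)).index = (H ⊔ N).index :=
        Subgroup.index_map_eq _ hsurj hker
      obtain ⟨K, M, hK, hM, hoK, hM2, hMo⟩ := ih _ hlt (G ⧸ N) rfl
        ((H ⊔ N).map (QuotientGroup.mk' N)) (by rw [hmapi]; exact hidx)
      have hcomap : ((H ⊔ N).map (QuotientGroup.mk' N)).comap (QuotientGroup.mk' N) = H ⊔ N := by
        rw [Subgroup.comap_map_eq, sup_eq_left]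
        exact hker
      have hHNK : H ⊔ N ≤ K.comap (QuotientGroup.mk' N) := Subgroup.map_le_iff_le_comap.1 hK
      refine ⟨K.comap (QuotientGroup.mk' N), M.comap (QuotientGroup.mk' N),
        le_sup_left.trans hHNK, Subgroup.comap_mono hM, ?_, ?_, ?_⟩
      · rw [← Subgroup.relIndex_mul_relIndex H (H ⊔ N) _ le_sup_left hHNK]
        apply hodd.mul
        rw [← hcomap, Subgroup.relIndex_comap, Subgroup.map_comap_eq_self_of_surjective hsurj]
        exact hoK
      · rw [Subgroup.relIndex_comap, Subgroup.map_comap_eq_self_of_surjective hsurj]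
        exact hM2
      · rw [Subgroup.index_comap_of_surjective _ hsurj]
        exact hMo

theorem group_chain {G : Type*} [Group G] [Finite G] [Group.IsSolvable G] (H : Subgroup G)
    (h : H.index % 4 = 2) :
    ∃ K M : Subgroup G, H ≤ K ∧ K ≤ M ∧ Odd (H.relIndex K) ∧ K.relIndex M = 2 ∧ Odd M.index :=
  E1_aux _ G rfl H h

end AnWA
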