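import Pool.Agent.H.MP_83e36b_nt.Defs
import Pool.Agent.H.MP_83e36b_nt.E1

/-! Module E2a: fields: an element of even-odd type (irreducible case). -/

open Polynomial MulAction IntermediateField

namespace AnWA

/-- The element of even-odd type inside a finite Galois extension. -/
theorem chain_element {F E : Type*} [Field F] [CharZero F] [Field E] [Algebra F E]
    [FiniteDimensional F E] [IsGalois F E] (hs : Group.IsSolvable Gal(E/F)) (ξ : E)
    (h : (stabilizer Gal(E/F) ξ).index % 4 = 2) :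
    ∃ l : E, l ≠ 0 ∧ (∃ τ : Gal(E/F), τ l = - l) ∧
      (∀ σ ∈ stabilizer Gal(E/F) ξ, σ l = l) ∧
      Odd ((stabilizer Gal(E/F) ξ).relIndex (stabilizer Gal(E/F) l)) ∧
      Odd (stabilizer Gal(E/F) (l ^ 2)).index := by
  have : CharZero E := charZero_of_injective_algebraMap (algebraMap F E).injective
  obtain ⟨K, M, hHK, hKM, hodd, h2, hM⟩ := group_chain _ h
  obtain ⟨τ, hτM, hτK, hτ⟩ := Subgroup.relIndex_eq_two_iff_exists_notMem_and.mp h2
  -- a point fixed by `K` but not by `τ`
  obtain ⟨a, haK, haτ⟩ : ∃ a : E, (∀ k ∈ K, k a = a) ∧ τ a ≠ a := by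
    by_contra hcon
    push Not at hcon
    apply hτK
    rw [← IntermediateField.fixingSubgroup_fixedField K,
      IntermediateField.mem_fixingSubgroup_iff]
    intro x hx
    apply hcon
    intro k hk
    exact hx ⟨k, hk⟩
  -- conjugation by `τ`
  have hconj : ∀ k ∈ K, τ⁻¹ * k * τ ∈ K := by
    intro k hk
    rcases hτ (τ⁻¹ * k) (M.mul_mem (M.inv_mem hτM) (hKM hk)) with h1 | h1
    · exact h1
    · exfalso
      apply hτK
      have := K.mul_mem h1 (K.inv_mem hk)
      have h3 : τ⁻¹ ∈ K := by simpa using this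
      simpa using K.inv_mem h3
  have hττ : τ * τ ∈ K := by
    rcases hτ τ hτM with h1 | h1
    · exact h1
    · exact absurd h1 hτK
  have hK_τa : ∀ k ∈ K, k (τ a) = τ a := by
    intro k hk
    have := haK _ (hconj k hk)
    have h3 : τ ((τ⁻¹ * k * τ) a) = τ a := by rw [this]
    rw [← AlgEquiv.mul_apply] at h3
    rw [show τ * (τ⁻¹ * k * τ) = k * τ by group] at h3
    rwa [AlgEquiv.mul_apply] at h3
  have hττa : τ (τ a) = a := by
    have := haK _ hττ
    rwa [AlgEquiv.mul_apply] at this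
  set l : E := a - τ a with hl
  have hl0 : l ≠ 0 := sub_ne_zero.mpr (Ne.symm haτ)
  have hKl : ∀ k ∈ K, k l = l := by
    intro k hk
    rw [hl, map_sub, haK k hk, hK_τa k hk]
  have hτl : τ l = - l := by
    rw [hl, map_sub, hττa]; ring
  have hMl : ∀ m ∈ M, m l = l ∨ m l = - l := by
    intro m hm
    rcases hτ m hm with h1 | h1
    · right
      have := hKl _ h1
      rw [AlgEquiv.mul_apply, hτl, map_neg] at this
      exact neg_eq_iff_eq_neg.mp this
    · left
      exact hKl m h1
  set S := stabilizer Gal(E/F) l with hS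
  set S2 := stabilizer Gal(E/F) (l ^ 2) with hS2
  have memS : ∀ σ, σ ∈ S ↔ σ l = l := fun σ => by
    rw [hS, mem_stabilizer_iff, AlgEquiv.smul_def]
  have memS2 : ∀ σ, σ ∈ S2 ↔ σ l ^ 2 = l ^ 2 := fun σ => by
    rw [hS2, mem_stabilizer_iff, AlgEquiv.smul_def, map_pow]
  have hKS : K ≤ S := fun k hk => (memS k).mpr (hKl k hk)
  have hSS2 : S ≤ S2 := fun σ hσ => (memS2 σ).mpr (by rw [(memS σ).mp hσ])
  have hMS2 : M ≤ S2 := fun m hm => (memS2 m).mpr (by
    rcases hMl m hm with h1 | h1 <;> rw [h1]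
    ring)
  have hne : l ≠ - l := by
    intro h3
    exact hl0 (self_eq_neg.mp h3)
  have hSrel : S.relIndex S2 = 2 := by
    rw [Subgroup.relIndex_eq_two_iff_exists_notMem_and]
    refine ⟨τ, hMS2 hτM, ?_, ?_⟩
    · intro h3
      rw [memS, hτl] at h3
      exact hne h3.symm
    · intro b hb
      rw [memS2, sq_eq_sq_iff_eq_or_eq_neg] at hb
      rcases hb with h3 | h3
      · right; exact (memS b).mpr h3
      · left
        rw [memS, AlgEquiv.mul_apply, hτl, map_neg, h3, neg_neg]
  have e1 := Subgroup.relIndex_mul_relIndex K S S2 hKS hSS2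
  have e2 := Subgroup.relIndex_mul_relIndex K M S2 hKM hMS2
  have e3 : M.relIndex S2 * S2.index = M.index := Subgroup.relIndex_mul_index hMS2
  have e4 := Subgroup.relIndex_mul_relIndex _ K S hHK hKS
  have hcond : K.relIndex S = M.relIndex S2 := by
    rw [hSrel] at e1
    rw [h2] at e2
    omega
  rw [← e3, Nat.odd_mul] at hM
  refine ⟨l, hl0, ⟨τ, hτl⟩, ?_, ?_, hM.2⟩
  · intro σ hσ
    exact hKl σ (hHK hσ)
  · rw [← e4, Nat.odd_mul]
    exact ⟨hodd, by rw [hcond]; exact hM.1⟩

/-- Irreducible polynomial of degree `2 mod 4` with solvable Galois group. -/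
theorem structure_irreducible {F L : Type*} [Field F] [CharZero F] [Field L] [Algebra F L]
    [IsAlgClosed L] [IsGalois F L] [DecidableEq L]
    (hsolv : ∀ (E : IntermediateField F L), FiniteDimensional F E → IsGalois F E →
      Group.IsSolvable (E ≃ₐ[F] E))
    {f : F[X]} (hf : f.Monic) (hirr : Irreducible f) (hn : f.natDegree % 4 = 2) :
    ∃ p : F[X],
      (∀ x ∈ f.aroots L, aeval x p ≠ 0) ∧
      (∀ x ∈ f.aroots L, ∃ x' ∈ f.aroots L, aeval x' p = - aeval x p) ∧
      (∀ x ∈ f.aroots L, Odd ((f.aroots L).toFinset.filter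
        (fun z => aeval z p = aeval x p)).card) ∧
      Odd ((f.aroots L).toFinset.image (fun z => (aeval z p) ^ 2)).card := by
  classical
  -- a root
  obtain ⟨ξ, hξ⟩ : ∃ ξ : L, aeval ξ f = 0 := by
    obtain ⟨ξ, hξ⟩ := IsAlgClosed.exists_aeval_eq_zero L f (by
      intro h0
      rw [Polynomial.natDegree_eq_of_degree_eq_some h0] at hn
      simp at hn)
    exact ⟨ξ, hξ⟩
  have hmin : minpoly F ξ = f := (minpoly.eq_of_irreducible_of_monic hirr hξ hf).symm
  have hint : IsIntegral F ξ := ⟨f, hf, hξ⟩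
  have hfd0 : FiniteDimensional F F⟮ξ⟯ := IntermediateField.adjoin.finiteDimensional hint
  set E : IntermediateField F L := IntermediateField.normalClosure F F⟮ξ⟯ L with hE
  have hfdE : FiniteDimensional F E := inferInstance
  have hnE : Normal F E := inferInstance
  have hgE : IsGalois F E := ⟨⟩
  have hs : Group.IsSolvable Gal(E/F) := hsolv E inferInstance inferInstance
  have hξE : ξ ∈ E := (IntermediateField.le_normalClosure F⟮ξ⟯)
    (IntermediateField.mem_adjoin_simple_self F ξ)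
  obtain ⟨ξ', hξ'⟩ : ∃ ξ' : E, (ξ' : L) = ξ := ⟨⟨ξ, hξE⟩, rfl⟩
  have hmin' : minpoly F ξ' = f := by
    rw [← hmin, ← hξ']
    exact (minpoly.algebraMap_eq (algebraMap E L).injective ξ').symm
  have hint' : IsIntegral F ξ' := Algebra.IsIntegral.isIntegral ξ'
  have hf' : aeval ξ' f = 0 := by rw [← hmin']; exact minpoly.aeval F ξ'
  -- the stabilizer
  have hstab : (F⟮ξ'⟯).fixingSubgroup = stabilizer Gal(E/F) ξ' := by
    apply le_antisymm
    · intro σ hσ
      rw [IntermediateField.mem_fixingSubgroup_iff] at hσ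
      rw [mem_stabilizer_iff, AlgEquiv.smul_def]
      exact hσ _ (IntermediateField.mem_adjoin_simple_self F ξ')
    · rw [← IntermediateField.le_iff_le, IntermediateField.adjoin_simple_le_iff]
      intro σ
      exact (mem_stabilizer_iff.mp σ.2)
  have hidx : (stabilizer Gal(E/F) ξ').index = f.natDegree := by
    rw [← hstab, ← IntermediateField.finrank_eq_fixingSubgroup_index,
      IntermediateField.adjoin.finrank hint', hmin']
  obtain ⟨l, hl0, ⟨τ, hτl⟩, hfix, hodd1, hodd2⟩ := chain_element hs ξ' (by rw [hidx]; exact hn)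
  have hlmem : l ∈ F⟮ξ'⟯ := by
    rw [← IsGalois.fixedField_fixingSubgroup F⟮ξ'⟯, hstab]
    intro σ
    exact hfix σ σ.2
  obtain ⟨p, hp⟩ : ∃ p : F[X], aeval ξ' p = l := by
    have h1 : l ∈ (F⟮ξ'⟯).toSubalgebra := hlmem
    rw [IntermediateField.adjoin_simple_toSubalgebra_of_isAlgebraic hint'.isAlgebraic,
      Algebra.adjoin_singleton_eq_range_aeval] at h1
    obtain ⟨p, hp⟩ := h1
    exact ⟨p, hp⟩
  have hval : ∀ σ : Gal(E/F), aeval ((σ ξ' : E) : L) p = ((σ l : E) : L) := by
    intro σ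
    have h1 : aeval (σ ξ') p = σ l := by
      rw [← hp]; exact Polynomial.aeval_algHom_apply σ.toAlgHom ξ' p
    have h2 := Polynomial.aeval_algebraMap_apply L (σ ξ') p
    rw [h1] at h2
    exact h2
  have hroots : ∀ z : L, z ∈ f.aroots L ↔ ∃ σ : Gal(E/F), ((σ ξ' : E) : L) = z := by
    intro z
    rw [Polynomial.mem_aroots]
    constructor
    · rintro ⟨-, hz⟩
      rw [← hmin] at hz
      obtain ⟨σ, hσ⟩ := minpoly.exists_algEquiv_of_root' hint.isAlgebraic hz
      refine ⟨σ.restrictNormal E, ?_⟩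
      have := AlgEquiv.restrictNormal_commutes σ E ξ'
      rw [← hσ, ← hξ']
      exact this
    · rintro ⟨σ, rfl⟩
      refine ⟨hf.ne_zero, ?_⟩
      have h1 : aeval (σ ξ') f = 0 := by
        have := Polynomial.aeval_algHom_apply σ.toAlgHom ξ' f
        rw [hf', map_zero] at this
        exact this
      have h2 := Polynomial.aeval_algebraMap_apply L (σ ξ') f
      rw [h1, map_zero] at h2
      exact h2
  refine ⟨p, ?_, ?_, ?_, ?_⟩
  · intro x hx
    obtain ⟨σ, rfl⟩ := (hroots x).mp hx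
    rw [hval]
    intro h0
    apply hl0
    have h1 : σ l = 0 := Subtype.ext h0
    exact (map_eq_zero_iff σ σ.injective).mp h1
  · intro x hx
    obtain ⟨σ, rfl⟩ := (hroots x).mp hx
    refine ⟨(((σ * τ) ξ' : E) : L), (hroots _).mpr ⟨σ * τ, rfl⟩, ?_⟩
    rw [hval, hval, AlgEquiv.mul_apply, hτl, map_neg]
    rfl
  · intro x hx
    obtain ⟨σ, rfl⟩ := (hroots x).mp hx
    have hset : (((f.aroots L).toFinset.filter
        (fun z => aeval z p = aeval ((σ ξ' : E) : L) p) : Finset L) : Set L)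
        = (fun y : E => ((σ y : E) : L)) '' (orbit (stabilizer Gal(E/F) l) ξ') := by
      ext z
      simp only [Finset.coe_filter, Multiset.mem_toFinset, Set.mem_ofPred_eq, Set.mem_image,
        mem_orbit_iff]
      constructor
      · rintro ⟨hz, hz2⟩
        obtain ⟨ρ, rfl⟩ := (hroots z).mp hz
        rw [hval, hval] at hz2
        have hz3 : ρ l = σ l := Subtype.ext hz2
        refine ⟨(σ⁻¹ * ρ) ξ', ⟨⟨σ⁻¹ * ρ, ?_⟩, rfl⟩, ?_⟩
        · rw [mem_stabilizer_iff, AlgEquiv.smul_def, AlgEquiv.mul_apply, hz3,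
            ← AlgEquiv.mul_apply, inv_mul_cancel, AlgEquiv.one_apply]
        · rw [← AlgEquiv.mul_apply, mul_inv_cancel_left]
      · rintro ⟨y, ⟨⟨s, hs⟩, rfl⟩, rfl⟩
        have h1 : (⟨s, hs⟩ : stabilizer Gal(E/F) l) • ξ' = s ξ' := rfl
        rw [h1, ← AlgEquiv.mul_apply]
        refine ⟨(hroots _).mpr ⟨_, rfl⟩, ?_⟩
        rw [hval, hval, AlgEquiv.mul_apply]
        rw [mem_stabilizer_iff, AlgEquiv.smul_def] at hs
        rw [hs]
    rw [← Set.ncard_coe_finset, hset, Set.ncard_image_of_injective _ (by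
      intro a b hab
      exact σ.injective (Subtype.ext hab)), ← MulAction.index_stabilizer]
    have h2 : stabilizer (stabilizer Gal(E/F) l) ξ'
        = (stabilizer Gal(E/F) ξ').subgroupOf (stabilizer Gal(E/F) l) := by
      ext s
      rw [Subgroup.mem_subgroupOf, mem_stabilizer_iff, mem_stabilizer_iff]
      rfl
    rw [h2]
    exact hodd1
  · have hset : (((f.aroots L).toFinset.image (fun z => (aeval z p) ^ 2) : Finset L) : Set L)
        = (fun y : E => (y : L)) '' (orbit Gal(E/F) (l ^ 2)) := by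
      ext z
      simp only [Finset.coe_image, Set.mem_image, Finset.mem_coe, Multiset.mem_toFinset,
        mem_orbit_iff]
      constructor
      · rintro ⟨w, hw, rfl⟩
        obtain ⟨ρ, rfl⟩ := (hroots w).mp hw
        refine ⟨ρ (l ^ 2), ⟨ρ, rfl⟩, ?_⟩
        rw [hval, map_pow]
        rfl
      · rintro ⟨y, ⟨s, rfl⟩, rfl⟩
        refine ⟨((s ξ' : E) : L), (hroots _).mpr ⟨s, rfl⟩, ?_⟩
        rw [hval, AlgEquiv.smul_def, map_pow]
        rfl
    rw [← Set.ncard_coe_finset, hset, Set.ncard_image_of_injective _ Subtype.val_injective,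
      ← MulAction.index_stabilizer]
    exact hodd2

end AnWA
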