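import Pool.Agent.H.MP_83e36b_nt.Defs
import Pool.Agent.H.MP_83e36b_nt.E2a

/-! Module E2b: local_structure from the irreducible case.

PROOF. Factor f into monic irreducibles (UniqueFactorizationMonoid / normalizedFactors; f squarefree). Case 1: some factor g has degree ≡ 2 mod 4: f1=g, f2=f/g (degree ≡ 0 mod 4), p from structure_irreducible. Case 2: no factor has degree ≡ 2 mod 4. The number of factors of odd degree is even (n even) and not 0 (otherwise n ≡ 0 mod 4), so there are two different monic irreducible factors g1,g2 of odd degree, coprime. f1=g1g2, f2=f/(g1g2) of even degree. p with p≡1 mod g1, p≡-1 mod g2 (Chinese remainder/Bezout). Values ±1; aroots f1 = aroots g1 + aroots g2, disjoint; the fibres are the root sets of g1 and g2, of odd cardinality (separable: card = natDegree); image of squares={1}.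
-/

open Polynomial

namespace AnWA

lemma exists_odd_factor {F : Type*} [Field F] : ∀ (n : ℕ) (f : F[X]), f.natDegree = n →
    f.Monic → Odd f.natDegree → ∃ g : F[X], g.Monic ∧ Irreducible g ∧ g ∣ f ∧ Odd g.natDegree := by
  intro n
  induction n using Nat.strong_induction_on with
  | _ n ih =>
    intro f hfn hf hodd
    have hnu : ¬ IsUnit f := by
      intro hu
      rw [hf.isUnit_iff] at hu
      rw [hu, natDegree_one] at hodd
      exact (by decide : ¬ Odd 0) hodd
    obtain ⟨g, hg, hgi, r, hr⟩ := exists_monic_irreducible_factor f hnu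
    have hrm : r.Monic := hg.of_mul_monic_left (hr ▸ hf)
    have hd : f.natDegree = g.natDegree + r.natDegree := by rw [hr, hg.natDegree_mul hrm]
    have hgp : 0 < g.natDegree := hgi.natDegree_pos
    by_cases hgo : Odd g.natDegree
    · exact ⟨g, hg, hgi, ⟨r, hr⟩, hgo⟩
    · rw [Nat.not_odd_iff_even] at hgo
      have hro : Odd r.natDegree := by
        rw [hd] at hodd
        rcases Nat.even_or_odd r.natDegree with h | h
        · exact absurd (hgo.add h) (Nat.not_even_iff_odd.2 hodd)
        · exact h
      obtain ⟨g', h1, h2, h3, h4⟩ := ih r.natDegree (by omega) r rfl hrm hro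
      exact ⟨g', h1, h2, h3.trans ⟨g, by rw [hr, mul_comm]⟩, h4⟩

lemma exists_factor {F : Type*} [Field F] : ∀ (n : ℕ) (f : F[X]), f.natDegree = n →
    f.Monic → f.natDegree % 4 = 2 →
    (∃ g r : F[X], g.Monic ∧ Irreducible g ∧ r.Monic ∧ f = g * r ∧ g.natDegree % 4 = 2) ∨
    (∃ g r : F[X], g.Monic ∧ Irreducible g ∧ r.Monic ∧ f = g * r ∧ Odd g.natDegree ∧
      Odd r.natDegree) := by
  intro n
  induction n using Nat.strong_induction_on with
  | _ n ih =>
    intro f hfn hf hmod
    have hnu : ¬ IsUnit f := by
      intro hu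
      rw [hf.isUnit_iff] at hu
      rw [hu, natDegree_one] at hmod
      omega
    obtain ⟨g, hg, hgi, r, hr⟩ := exists_monic_irreducible_factor f hnu
    have hrm : r.Monic := hg.of_mul_monic_left (hr ▸ hf)
    have hd : f.natDegree = g.natDegree + r.natDegree := by rw [hr, hg.natDegree_mul hrm]
    have hgp : 0 < g.natDegree := hgi.natDegree_pos
    have hcases : g.natDegree % 4 = 2 ∨ g.natDegree % 4 = 0 ∨ g.natDegree % 2 = 1 := by omega
    rcases hcases with h | h | h
    · exact Or.inl ⟨g, r, hg, hgi, hrm, hr, h⟩
    · rcases ih r.natDegree (by omega) r rfl hrm (by omega) with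
        ⟨g', r', h1, h2, h3, h4, h5⟩ | ⟨g', r', h1, h2, h3, h4, h5, h6⟩
      · exact Or.inl ⟨g', g * r', h1, h2, hg.mul h3, by rw [hr, h4]; ring, h5⟩
      · refine Or.inr ⟨g', g * r', h1, h2, hg.mul h3, by rw [hr, h4]; ring, h5, ?_⟩
        rw [hg.natDegree_mul h3]
        rw [Nat.odd_iff] at h6 ⊢
        omega
    · refine Or.inr ⟨g, r, hg, hgi, hrm, hr, Nat.odd_iff.2 h, Nat.odd_iff.2 ?_⟩
      omega

lemma card_aroots_toFinset {F L : Type*} [Field F] [Field L] [Algebra F L] [IsAlgClosed L]
    [DecidableEq L] {g : F[X]} (hg : g.Separable) :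
    (g.aroots L).toFinset.card = g.natDegree := by
  have h1 : (g.aroots L).Nodup := nodup_roots hg.map
  rw [Multiset.toFinset_card_of_nodup h1]
  have h2 := (IsAlgClosed.splits (g.map (algebraMap F L))).natDegree_eq_card_roots
  rw [natDegree_map] at h2
  exact h2.symm

theorem local_structure {F L : Type*} [Field F] [CharZero F] [Field L] [Algebra F L]
    [IsAlgClosed L] [IsGalois F L] [DecidableEq L]
    (hsolv : ∀ (E : IntermediateField F L), FiniteDimensional F E → IsGalois F E →
      Group.IsSolvable (E ≃ₐ[F] E))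
    {f : F[X]} (hf : f.Monic) (hs : f.Separable) (hn : f.natDegree % 4 = 2) :
    ∃ f1 f2 p : F[X], f1.Monic ∧ f2.Monic ∧ f1 * f2 = f ∧ Even f2.natDegree ∧
      (∀ x ∈ f1.aroots L, aeval x p ≠ 0) ∧
      (∀ x ∈ f1.aroots L, ∃ x' ∈ f1.aroots L, aeval x' p = - aeval x p) ∧
      (∀ x ∈ f1.aroots L, Odd ((f1.aroots L).toFinset.filter
        (fun z => aeval z p = aeval x p)).card) ∧
      Odd ((f1.aroots L).toFinset.image (fun z => (aeval z p) ^ 2)).card := by
  classical
  have hLchar : CharZero L := charZero_of_injective_algebraMap (algebraMap F L).injective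
  rcases exists_factor f.natDegree f rfl hf hn with
    ⟨g, r, hg, hgi, hrm, hr, hg2⟩ | ⟨g1, r, hg, hgi, hrm, hr, ho1, ho2⟩
  · obtain ⟨p, h1, h2, h3, h4⟩ := structure_irreducible (L := L) hsolv hg hgi hg2
    refine ⟨g, r, p, hg, hrm, hr.symm, ?_, h1, h2, h3, h4⟩
    have hd : f.natDegree = g.natDegree + r.natDegree := by rw [hr, hg.natDegree_mul hrm]
    rw [Nat.even_iff]
    omega
  · obtain ⟨g2, hg2, hg2i, ⟨r', hr'⟩, hg2o⟩ := exists_odd_factor r.natDegree r rfl hrm ho2
    have hr'm : r'.Monic := hg2.of_mul_monic_left (hr' ▸ hrm)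
    have hs1 : (g1 * r).Separable := hr ▸ hs
    have hcop : IsCoprime g1 g2 := by
      have := hs1.isCoprime
      rw [hr'] at this
      exact this.of_mul_right_left
    have hsep1 : g1.Separable := hs1.of_mul_left
    have hsep2 : g2.Separable := by
      have := hs1.of_mul_right
      rw [hr'] at this
      exact this.of_mul_left
    obtain ⟨a, b, hab⟩ := hcop
    have hf1 : (g1 * g2) ≠ 0 := (hg.mul hg2).ne_zero
    have hroot : ∀ x : L, x ∈ (g1 * g2).aroots L ↔ aeval x g1 = 0 ∨ aeval x g2 = 0 := by
      intro x
      rw [mem_aroots, map_mul, mul_eq_zero]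
      exact ⟨fun h => h.2, fun h => ⟨hf1, h⟩⟩
    have hab' : ∀ x : L, aeval x a * aeval x g1 + aeval x b * aeval x g2 = 1 := by
      intro x
      have := congrArg (aeval x) hab
      simpa using this
    have hv1 : ∀ x : L, aeval x g1 = 0 → aeval x (b * g2 - a * g1) = 1 := by
      intro x hx
      have h := hab' x
      rw [hx, mul_zero, zero_add] at h
      rw [map_sub, map_mul, map_mul, hx, mul_zero, sub_zero, h]
    have hv2 : ∀ x : L, aeval x g2 = 0 → aeval x (b * g2 - a * g1) = -1 := by
      intro x hx
      have h := hab' x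
      rw [hx, mul_zero, add_zero] at h
      rw [map_sub, map_mul, map_mul, hx, mul_zero, zero_sub, h]
    have hex : ∀ g : F[X], Irreducible g → ∃ x : L, aeval x g = 0 := by
      intro g hgi
      apply IsAlgClosed.exists_aeval_eq_zero L g
      exact (degree_pos_of_irreducible hgi).ne'
    have hne : (1 : L) ≠ -1 := by
      intro h
      have h2 : (2 : L) = 0 := by linear_combination h
      exact two_ne_zero h2
    refine ⟨g1 * g2, r', b * g2 - a * g1, hg.mul hg2, hr'm, by rw [hr, hr']; ring, ?_, ?_, ?_,
      ?_, ?_⟩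
    · have hd : r.natDegree = g2.natDegree + r'.natDegree := by rw [hr', hg2.natDegree_mul hr'm]
      rw [Nat.odd_iff] at ho2 hg2o
      rw [Nat.even_iff]
      omega
    · intro x hx
      rcases (hroot x).1 hx with h | h
      · rw [hv1 x h]; exact one_ne_zero
      · rw [hv2 x h]; exact neg_ne_zero.2 one_ne_zero
    · intro x hx
      rcases (hroot x).1 hx with h | h
      · obtain ⟨y, hy⟩ := hex g2 hg2i
        exact ⟨y, (hroot y).2 (Or.inr hy), by rw [hv2 y hy, hv1 x h]⟩
      · obtain ⟨y, hy⟩ := hex g1 hgi
        exact ⟨y, (hroot y).2 (Or.inl hy), by rw [hv1 y hy, hv2 x h, neg_neg]⟩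
    · intro x hx
      rcases (hroot x).1 hx with h | h
      · have h1 : ((g1 * g2).aroots L).toFinset.filter
            (fun z => aeval z (b * g2 - a * g1) = aeval x (b * g2 - a * g1))
            = (g1.aroots L).toFinset := by
          ext z
          simp only [Finset.mem_filter, Multiset.mem_toFinset]
          rw [hv1 x h, hroot, mem_aroots]
          constructor
          · rintro ⟨hz | hz, hz2⟩
            · exact ⟨hg.ne_zero, hz⟩
            · rw [hv2 z hz] at hz2
              exact (hne hz2.symm).elim
          · rintro ⟨-, hz⟩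
            exact ⟨Or.inl hz, hv1 z hz⟩
        rw [h1, card_aroots_toFinset hsep1]
        exact ho1
      · have h1 : ((g1 * g2).aroots L).toFinset.filter
            (fun z => aeval z (b * g2 - a * g1) = aeval x (b * g2 - a * g1))
            = (g2.aroots L).toFinset := by
          ext z
          simp only [Finset.mem_filter, Multiset.mem_toFinset]
          rw [hv2 x h, hroot, mem_aroots]
          constructor
          · rintro ⟨hz | hz, hz2⟩
            · rw [hv1 z hz] at hz2
              exact (hne hz2).elim
            · exact ⟨hg2.ne_zero, hz⟩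
          · rintro ⟨-, hz⟩
            exact ⟨Or.inr hz, hv2 z hz⟩
        rw [h1, card_aroots_toFinset hsep2]
        exact hg2o
    · have h1 : ((g1 * g2).aroots L).toFinset.image
          (fun z => (aeval z (b * g2 - a * g1)) ^ 2) = {1} := by
        ext y
        simp only [Finset.mem_image, Multiset.mem_toFinset, Finset.mem_singleton]
        constructor
        · rintro ⟨z, hz, rfl⟩
          rcases (hroot z).1 hz with h | h
          · rw [hv1 z h, one_pow]
          · rw [hv2 z h, neg_sq, one_pow]
        · rintro rfl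
          obtain ⟨z, hz⟩ := hex g1 hgi
          exact ⟨z, (hroot z).2 (Or.inl hz), by rw [hv1 z hz, one_pow]⟩
      rw [h1, Finset.card_singleton]
      exact odd_one

end AnWA
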