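import Pool.Agent.H.MP_83e36b_nt.Defs
import Pool.Agent.H.MP_83e36b_nt.A1b

/-! Module C3a: from the kernel vector to the pencil (oddDatum_of_kernel). -/

open Polynomial

set_option linter.unusedSectionVars false

namespace AnWA

namespace C3a

variable {L ι : Type*} [Field L] [Fintype ι] [DecidableEq ι]

/-- `f_i = ∏_{j ≠ i} (X - x j)`. -/
noncomputable def coF (x : ι → L) (i : ι) : L[X] :=
  ∏ j ∈ Finset.univ.erase i, (X - C (x j))

theorem rootPoly_eq (x : ι → L) (i : ι) : rootPoly x = (X - C (x i)) * coF x i := by
  exact (Finset.mul_prod_erase Finset.univ (fun j => X - C (x j)) (Finset.mem_univ i)).symm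

theorem rootPoly_monic (x : ι → L) : (rootPoly x).Monic :=
  monic_prod_of_monic _ _ fun _ _ => monic_X_sub_C _

theorem coF_monic (x : ι → L) (i : ι) : (coF x i).Monic :=
  monic_prod_of_monic _ _ fun _ _ => monic_X_sub_C _

theorem rootPoly_natDegree (x : ι → L) : (rootPoly x).natDegree = Fintype.card ι := by
  rw [rootPoly, natDegree_prod_of_monic _ _ fun _ _ => monic_X_sub_C _]
  simp

theorem coF_natDegree (x : ι → L) (i : ι) : (coF x i).natDegree = Fintype.card ι - 1 := by
  rw [coF, natDegree_prod_of_monic _ _ fun _ _ => monic_X_sub_C _]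
  simp

theorem rootPoly_eval (x : ι → L) (i : ι) : (rootPoly x).eval (x i) = 0 := by
  rw [rootPoly_eq x i]; simp

theorem coF_eval_ne (x : ι → L) {i j : ι} (h : j ≠ i) : (coF x i).eval (x j) = 0 := by
  rw [coF, eval_prod]
  exact Finset.prod_eq_zero (Finset.mem_erase.mpr ⟨h, Finset.mem_univ _⟩) (by simp)

theorem deriv_eval (x : ι → L) (i : ι) :
    (derivative (rootPoly x)).eval (x i) = (coF x i).eval (x i) := by
  rw [rootPoly_eq x i]; simp

theorem deriv2_eval (x : ι → L) (i : ι) :
    (derivative (derivative (rootPoly x))).eval (x i) =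
      2 * (derivative (coF x i)).eval (x i) := by
  rw [rootPoly_eq x i]
  simp only [derivative_mul, derivative_sub, derivative_X, derivative_C, sub_zero, one_mul,
    derivative_add, eval_add, eval_mul, eval_sub, eval_X, eval_C, sub_self, zero_mul, add_zero]
  ring

theorem coF_eval_self_ne {x : ι → L} (hx : Function.Injective x) (i : ι) :
    (coF x i).eval (x i) ≠ 0 := by
  rw [coF, eval_prod, Finset.prod_ne_zero_iff]
  intro j hj
  rw [eval_sub, eval_X, eval_C, sub_ne_zero]
  intro h
  exact (Finset.ne_of_mem_erase hj) (hx h.symm)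

theorem coF_mul (x : ι → L) (i j : ι) :
    C (x i - x j) * (coF x i * coF x j) = rootPoly x * (coF x i - coF x j) := by
  have h1 := rootPoly_eq x i
  have h2 := rootPoly_eq x j
  calc C (x i - x j) * (coF x i * coF x j)
      = ((X - C (x j)) * coF x j) * coF x i - ((X - C (x i)) * coF x i) * coF x j := by
        rw [C_sub]; ring
    _ = rootPoly x * (coF x i - coF x j) := by rw [← h1, ← h2]; ring

theorem coF_deriv_eval {x : ι → L} (hx : Function.Injective x) {i j : ι} (h : j ≠ i) :
    (derivative (coF x j)).eval (x i) = (coF x i).eval (x i) / (x i - x j) := by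
  have hne : x i - x j ≠ 0 := sub_ne_zero.mpr fun e => h (hx e).symm
  have h1 := congrArg (fun p => (derivative p).eval (x i)) (coF_mul x i j)
  simp only [derivative_mul, derivative_C, zero_mul, zero_add, derivative_sub, eval_add, eval_mul,
    eval_sub, eval_C, coF_eval_ne x h.symm, rootPoly_eval, mul_zero, deriv_eval, add_zero,
    sub_zero] at h1
  have h2 := coF_eval_self_ne hx i
  rw [eq_div_iff hne]
  have h3 : (coF x i).eval (x i) * ((derivative (coF x j)).eval (x i) * (x i - x j)) =
      (coF x i).eval (x i) * (coF x i).eval (x i) := by linear_combination h1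
  exact mul_left_cancel₀ h2 h3

theorem wr_coF (x : ι → L) (i : ι) : wr (rootPoly x) (coF x i) = coF x i ^ 2 := by
  rw [wr, rootPoly_eq x i]
  simp only [derivative_mul, derivative_sub, derivative_X, derivative_C, sub_zero, one_mul]
  ring

theorem antisym_sum {x b : ι → L} (hker : ∀ i, ∑ j, (if i = j then 0 else b j / (x i - x j)) = 0)
    {V : Type*} [AddCommGroup V] [Module L V] (F : ι → V) :
    ∑ i, ∑ j, (if i = j then (0 : L) else b i * b j / (x i - x j)) • (F i - F j) = 0 := by
  have h1 : ∑ i, ∑ j, (if i = j then (0 : L) else b i * b j / (x i - x j)) • F i = 0 := by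
    refine Finset.sum_eq_zero fun i _ => ?_
    rw [← Finset.sum_smul]
    have h2 : ∑ j, (if i = j then (0 : L) else b i * b j / (x i - x j)) =
        b i * ∑ j, (if i = j then 0 else b j / (x i - x j)) := by
      rw [Finset.mul_sum]
      refine Finset.sum_congr rfl fun j _ => ?_
      split_ifs
      · rw [mul_zero]
      · rw [mul_div_assoc]
    rw [h2, hker, mul_zero, zero_smul]
  have h2 : ∑ i, ∑ j, (if i = j then (0 : L) else b i * b j / (x i - x j)) • F j = 0 := by
    rw [Finset.sum_comm, ← neg_eq_zero, ← h1, ← Finset.sum_neg_distrib]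
    refine Finset.sum_congr rfl fun i _ => ?_
    rw [← Finset.sum_neg_distrib]
    refine Finset.sum_congr rfl fun j _ => ?_
    rw [← neg_smul]
    congr 1
    by_cases h : i = j
    · rw [if_pos h, if_pos h.symm, neg_zero]
    · rw [if_neg h, if_neg (Ne.symm h), ← neg_sub (x i) (x j), div_neg, neg_neg, mul_comm (b j)]
  simp_rw [smul_sub, Finset.sum_sub_distrib]
  rw [h1, h2, sub_zero]

/-- `H = ∑ b i f_i`. -/
noncomputable def linF (x b : ι → L) : L[X] := ∑ i, C (b i) * coF x i

theorem partner_eq (x b : ι → L) : partner x b = linF x (fun i => b i ^ 2) := rfl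

theorem linF_eval (x b : ι → L) (i : ι) :
    (linF x b).eval (x i) = b i * (coF x i).eval (x i) := by
  rw [linF, eval_finsetSum, Finset.sum_eq_single i]
  · simp
  · intro j _ hj
    rw [eval_mul, coF_eval_ne x hj.symm, mul_zero]
  · simp

theorem linF_natDegree_le (x b : ι → L) : (linF x b).natDegree ≤ Fintype.card ι - 1 := by
  rw [linF]
  refine natDegree_sum_le_of_forall_le _ _ fun i _ => ?_
  refine (natDegree_C_mul_le _ _).trans ?_
  rw [coF_natDegree]

theorem linF_coeff (x b : ι → L) :
    (linF x b).coeff (Fintype.card ι - 1) = ∑ i, b i := by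
  rw [linF, finsetSum_coeff]
  refine Finset.sum_congr rfl fun i _ => ?_
  rw [coeff_C_mul]
  have h := (coF_monic x i).coeff_natDegree
  rw [coF_natDegree] at h
  rw [h, mul_one]

theorem linF_monic {x b : ι → L} (h : ∑ i, b i = 1) :
    (linF x b).Monic ∧ (linF x b).natDegree = Fintype.card ι - 1 := by
  have h1 : (linF x b).Monic :=
    monic_of_natDegree_le_of_coeff_eq_one _ (linF_natDegree_le x b) (by rw [linF_coeff, h])
  refine ⟨h1, le_antisymm (linF_natDegree_le x b) ?_⟩
  refine le_natDegree_of_ne_zero ?_
  rw [linF_coeff, h]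
  exact one_ne_zero

theorem rootPoly_separable {x : ι → L} (hx : Function.Injective x) : (rootPoly x).Separable := by
  rw [rootPoly, separable_prod_X_sub_C_iff]
  exact hx

theorem isCoprime_rootPoly {x : ι → L} {G : L[X]} (h : ∀ i, G.eval (x i) ≠ 0) :
    IsCoprime (rootPoly x) G := by
  rw [rootPoly]
  refine IsCoprime.prod_left fun i _ => ?_
  rw [(irreducible_X_sub_C (x i)).coprime_iff_not_dvd, dvd_iff_isRoot]
  exact h i

/-- two polynomials of degree less than the number of points which agree at the points -/
theorem eq_of_eval_x {x : ι → L} (hx : Function.Injective x) {p q : L[X]}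
    (hp : p.natDegree < Fintype.card ι) (hq : q.natDegree < Fintype.card ι)
    (h : ∀ i, p.eval (x i) = q.eval (x i)) : p = q := by
  by_contra hne
  have h0 : p - q ≠ 0 := sub_ne_zero.mpr hne
  have hdvd : rootPoly x ∣ p - q := by
    rw [rootPoly]
    refine Finset.prod_dvd_of_coprime ?_ fun i _ => ?_
    · intro i _ j _ hij
      exact isCoprime_X_sub_C_of_isUnit_sub
        (isUnit_iff_ne_zero.mpr (sub_ne_zero.mpr fun e => hij (hx e)))
    · rw [dvd_iff_isRoot, IsRoot, eval_sub, h i, sub_self]
  have h1 := natDegree_le_of_dvd hdvd h0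
  rw [rootPoly_natDegree] at h1
  have h2 := natDegree_sub_le p q
  have h3 : max p.natDegree q.natDegree < Fintype.card ι := max_lt hp hq
  omega

theorem eq_linF {x : ι → L} (hx : Function.Injective x) {p : L[X]}
    (hp : p.natDegree < Fintype.card ι) :
    p = linF x (fun i => p.eval (x i) / (coF x i).eval (x i)) := by
  refine eq_of_eval_x hx hp ?_ fun i => ?_
  · have h := linF_natDegree_le x (fun i => p.eval (x i) / (coF x i).eval (x i))
    omega
  · rw [linF_eval, div_mul_cancel₀ _ (coF_eval_self_ne hx i)]

theorem wr_identity {x b : ι → L} (hx : Function.Injective x)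
    (hker : ∀ i, ∑ j, (if i = j then 0 else b j / (x i - x j)) = 0) :
    wr (rootPoly x) (partner x b) = linF x b ^ 2 := by
  have h1 : wr (rootPoly x) (partner x b) = ∑ i, C (b i ^ 2) * coF x i ^ 2 := by
    rw [partner_eq, wr, linF, derivative_sum, Finset.mul_sum, Finset.mul_sum,
      ← Finset.sum_sub_distrib]
    refine Finset.sum_congr rfl fun i _ => ?_
    rw [← wr_coF, wr, derivative_mul, derivative_C, zero_mul, zero_add]
    ring
  have h2 : linF x b ^ 2 = ∑ i, ∑ j, C (b i * b j) * (coF x i * coF x j) := by
    rw [linF, sq, Finset.sum_mul_sum]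
    refine Finset.sum_congr rfl fun i _ => Finset.sum_congr rfl fun j _ => ?_
    rw [C_mul]; ring
  have h3 : ∀ i j, C (b i * b j) * (coF x i * coF x j) =
      (if i = j then C (b i ^ 2) * coF x i ^ 2 else 0) +
      rootPoly x * ((if i = j then (0 : L) else b i * b j / (x i - x j)) •
        (coF x i - coF x j)) := by
    intro i j
    by_cases h : i = j
    · subst h
      rw [if_pos rfl, if_pos rfl, zero_smul, mul_zero, add_zero, ← sq, ← sq]
    · rw [if_neg h, if_neg h, zero_add, mul_smul_comm, ← coF_mul, smul_eq_C_mul,
        ← mul_assoc (C (b i * b j / (x i - x j))), ← C_mul,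
        div_mul_cancel₀ _ (sub_ne_zero.mpr fun e => h (hx e))]
  have h4 := antisym_sum hker (coF x)
  rw [h1, h2]
  simp_rw [h3, Finset.sum_add_distrib, Finset.sum_ite_eq, ← Finset.mul_sum]
  rw [h4]
  simp

theorem sum_sq {x b : ι → L} (hx : Function.Injective x)
    (hker : ∀ i, ∑ j, (if i = j then 0 else b j / (x i - x j)) = 0) (hs : ∑ i, b i = 1) :
    ∑ i, b i ^ 2 = 1 := by
  have h4 := antisym_sum hker x
  have h3 : ∀ i j, b i * b j = (if i = j then b i ^ 2 else 0) +
      (if i = j then (0 : L) else b i * b j / (x i - x j)) • (x i - x j) := by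
    intro i j
    by_cases h : i = j
    · subst h
      rw [if_pos rfl, if_pos rfl, zero_smul, add_zero, sq]
    · rw [if_neg h, if_neg h, zero_add, smul_eq_mul,
        div_mul_cancel₀ _ (sub_ne_zero.mpr fun e => h (hx e))]
  have h5 : (∑ i, b i) * (∑ j, b j) = ∑ i, ∑ j, b i * b j := Finset.sum_mul_sum _ _ _ _
  rw [hs, one_mul] at h5
  rw [h5]
  conv_rhs => rw [Finset.sum_congr rfl fun i _ => Finset.sum_congr rfl fun j _ => h3 i j]
  simp_rw [Finset.sum_add_distrib, Finset.sum_ite_eq]
  rw [h4]
  simp

/-- the symmetric differential identity -/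
theorem dvd_dOp {f G H : L[X]} (h : derivative f * G - f * derivative G = H ^ 2)
    (hc : IsCoprime G H) : G ∣ 2 * derivative G * derivative H - derivative (derivative G) * H := by
  have h2 := congrArg derivative (h.trans (sq H))
  simp only [derivative_sub, derivative_mul] at h2
  have h3 : H * (2 * derivative G * derivative H - derivative (derivative G) * H) =
      G * (derivative (derivative f) * derivative G - derivative f * derivative (derivative G)) := by
    have h4 : derivative (derivative f) * G - f * derivative (derivative G) =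
        2 * H * derivative H := by
      linear_combination h2
    linear_combination (derivative G) * h4 * (-1) + (derivative (derivative G)) * h
  exact hc.dvd_of_dvd_mul_left ⟨_, h3⟩

end C3a

open C3a

theorem oddDatum_of_kernel {L ι : Type*} [Field L] [CharZero L] [Fintype ι] [DecidableEq ι]
    {x b : ι → L} (h : OddKernel x b) :
    ∃ (G H : L[X]) (t : L), OddDatum (rootPoly x) G H t := by
  have hcard : 0 < Fintype.card ι := by
    rw [Fintype.card_pos_iff]
    by_contra hne
    rw [not_nonempty_iff] at hne
    have := h.sum
    rw [Finset.univ_eq_empty, Finset.sum_empty] at this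
    exact zero_ne_one this
  set n := Fintype.card ι with hn
  have hwr := wr_identity h.inj h.ker
  have hGsum := sum_sq h.inj h.ker h.sum
  obtain ⟨hGm, hGd⟩ := linF_monic (x := x) hGsum
  obtain ⟨hHm, hHd⟩ := linF_monic (x := x) h.sum
  rw [← partner_eq] at hGm hGd
  set G := partner x b with hG
  set H := linF x b with hH
  set f := rootPoly x with hf
  have hfm : f.Monic := rootPoly_monic x
  have hfd : f.natDegree = n := rootPoly_natDegree x
  have hGev : ∀ i, G.eval (x i) = b i ^ 2 * (coF x i).eval (x i) := fun i => by
    rw [hG, partner_eq, linF_eval]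
  have hcop : IsCoprime f G := isCoprime_rootPoly fun i => by
    rw [hGev]
    exact mul_ne_zero (pow_ne_zero 2 (h.ne i)) (coF_eval_self_ne h.inj i)
  have hwr' : derivative f * G - f * derivative G = H ^ 2 := hwr
  have hGH : IsCoprime G H := by
    have h1 : IsCoprime G (derivative f * G - f * derivative G) := by
      have h2 : IsCoprime G (f * derivative G) := IsCoprime.mul_right hcop.symm h.sep
      have h3 : IsCoprime G (-(f * derivative G) + G * derivative f) :=
        (h2.neg_right).add_mul_left_right _
      have h4 : derivative f * G - f * derivative G =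
          -(f * derivative G) + G * derivative f := by ring
      rwa [h4]
    rw [hwr'] at h1
    exact (IsCoprime.pow_right_iff (by norm_num)).mp h1
  -- the quotient
  set Q := f /ₘ G with hQ
  have hfQ : f %ₘ G + G * Q = f := modByMonic_add_div f G
  have hQd : Q.natDegree = 1 := by
    rw [hQ, natDegree_divByMonic f hGm, hfd, hGd]
    omega
  have hQm : Q.Monic := by
    rw [Monic, hQ, leadingCoeff_divByMonic_of_monic hGm]
    · exact hfm
    · rw [degree_eq_natDegree hGm.ne_zero, degree_eq_natDegree hfm.ne_zero, hfd, hGd]
      exact_mod_cast Nat.sub_le _ _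
  have hQX : Q = X + C (Q.coeff 0) := hQm.eq_X_add_C hQd
  set c := Q.coeff 0 with hc
  have hdegr : (f %ₘ G).degree < G.degree := degree_modByMonic_lt _ hGm
  have hPform : f + C (-c) * G = X * G + f %ₘ G := by
    conv_lhs => rw [← hfQ, hQX]
    rw [C_neg]; ring
  have hdegHG : (H - G).degree < G.degree := by
    rw [degree_eq_natDegree hGm.ne_zero, ← hHd.trans hGd.symm]
    rw [← degree_eq_natDegree hHm.ne_zero]
    refine degree_sub_lt_left ?_ hHm.ne_zero ?_
    · rw [degree_eq_natDegree hHm.ne_zero, degree_eq_natDegree hGm.ne_zero, hHd, hGd]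
    · rw [hHm.leadingCoeff, hGm.leadingCoeff]
  have hwrt : ∀ (G' : L[X]) (t : L), wr (f + C t * G') G' =
      derivative f * G' - f * derivative G' := by
    intro G' t
    rw [wr, derivative_add, derivative_mul, derivative_C, zero_mul, zero_add]
    ring
  refine ⟨G, H, -c, ?_⟩
  refine { pen := ?_, nd := h.nd, nd2 := h.nd2, zero := h.zero, cop := hcop, uniq := ?_ }
  · refine ⟨hGm, h.sep, hdegHG, ?_, ⟨f %ₘ G, hdegr, ?_⟩, ?_⟩
    · have h1 := dvd_dOp hwr' hGH
      have h2 : dOp 1 G H = 2 * derivative G * derivative H - derivative (derivative G) * H := by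
        rw [dOp, derivative_one]; ring
      rw [h2]; exact h1
    · rw [hPform]
      have h1 : (1 : L[X]).coeff 1 = 0 := by rw [coeff_one]; norm_num
      have h2 : (1 : L[X]).coeff 0 = 1 := by rw [coeff_one]; norm_num
      rw [h1, h2]
      simp
    · rw [hwrt, hwr', one_mul]
  · intro G' H' t' hpen hcop'
    have hG'm := hpen.monic
    obtain ⟨hPm, hPd⟩ := pencil_P_one hpen
    obtain ⟨hH'm, hH'd⟩ := pencil_h_monic hpen
    have hwr1 : derivative f * G' - f * derivative G' = H' ^ 2 := by
      rw [← hwrt G' t', hpen.wr_eq, one_mul]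
    have hG'd : G'.natDegree + 1 = n := by
      have h1 : f = (f + C t' * G') - C t' * G' := by ring
      have h2 : (C t' * G').natDegree < (f + C t' * G').natDegree := by
        rw [hPd]
        exact Nat.lt_succ_of_le (natDegree_C_mul_le _ _)
      have h3 := natDegree_sub_eq_left_of_natDegree_lt h2
      rw [← h1, hfd, hPd] at h3
      exact h3.symm
    have hfsep : f.Separable := rootPoly_separable h.inj
    have hfH' : IsCoprime f H' := by
      have h1 : IsCoprime f (derivative f * G' - f * derivative G') := by
        have h2 : IsCoprime f (derivative f * G') := IsCoprime.mul_right hfsep hcop'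
        have h3 := h2.add_mul_left_right (-derivative G')
        have h4 : derivative f * G' - f * derivative G' =
            derivative f * G' + f * -derivative G' := by ring
        rwa [h4]
      rw [hwr1] at h1
      exact (IsCoprime.pow_right_iff (by norm_num)).mp h1
    have hfdvd : f ∣ 2 * derivative f * derivative H' - derivative (derivative f) * H' := by
      have h1 : derivative G' * f - G' * derivative f = -(H' ^ 2) := by
        rw [← hwr1]; ring
      have h2 := congrArg derivative (hwr1.trans (sq H'))
      simp only [derivative_sub, derivative_mul] at h2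
      have h3 : H' * (2 * derivative f * derivative H' - derivative (derivative f) * H') =
          f * (derivative (derivative f) * derivative G' -
            derivative f * derivative (derivative G')) := by
        have h4 : derivative (derivative f) * G' - f * derivative (derivative G') =
            2 * H' * derivative H' := by linear_combination h2
        linear_combination (derivative f) * h4 * (-1) + (derivative (derivative f)) * hwr1
      exact hfH'.dvd_of_dvd_mul_left ⟨_, h3⟩
    have hH'lt : H'.natDegree < Fintype.card ι := by omega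
    set c' : ι → L := fun i => H'.eval (x i) / (coF x i).eval (x i) with hc'
    have hH'lin : H' = linF x c' := eq_linF h.inj hH'lt
    have hkerc : ∀ i, ∑ j, (if i = j then 0 else c' j / (x i - x j)) = 0 := by
      intro i
      have hne := coF_eval_self_ne h.inj i
      obtain ⟨w, hw⟩ := hfdvd
      have h1 := congrArg (fun p => p.eval (x i)) hw
      simp only [eval_sub, eval_mul, eval_ofNat] at h1
      rw [hf, rootPoly_eval, zero_mul, deriv_eval, deriv2_eval] at h1
      have h2 : (derivative H').eval (x i) = c' i * (derivative (coF x i)).eval (x i) +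
          (coF x i).eval (x i) * ∑ j, (if i = j then 0 else c' j / (x i - x j)) := by
        conv_lhs => rw [hH'lin, linF, derivative_sum, eval_finsetSum]
        have h3 : ∀ j, (derivative (C (c' j) * coF x j)).eval (x i) =
            (if i = j then c' i * (derivative (coF x i)).eval (x i) else 0) +
            (coF x i).eval (x i) * (if i = j then 0 else c' j / (x i - x j)) := by
          intro j
          rw [derivative_mul, derivative_C, zero_mul, zero_add, eval_mul, eval_C]
          by_cases hij : i = j
          · subst hij; simp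
          · rw [if_neg hij, if_neg hij, coF_deriv_eval h.inj (Ne.symm hij)]
            ring
        rw [Finset.sum_congr rfl fun j _ => h3 j, Finset.sum_add_distrib, Finset.sum_ite_eq,
          ← Finset.mul_sum]
        simp
      have h4 : H'.eval (x i) = c' i * (coF x i).eval (x i) := by
        rw [hc']; simp only; rw [div_mul_cancel₀ _ hne]
      rw [h2, h4] at h1
      have h5 : (2 : L) * (coF x i).eval (x i) ^ 2 *
          ∑ j, (if i = j then 0 else c' j / (x i - x j)) = 0 := by linear_combination h1
      have h6 : (2 : L) * (coF x i).eval (x i) ^ 2 ≠ 0 :=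
        mul_ne_zero two_ne_zero (pow_ne_zero 2 hne)
      exact (mul_eq_zero.mp h5).resolve_left h6
    obtain ⟨l, hl⟩ := h.uniq c' hkerc
    have hsumc : ∑ i, c' i = 1 := by
      rw [← linF_coeff x c', ← hH'lin]
      have h1 := hH'm.coeff_natDegree
      rw [hH'd] at h1
      have h2 : Fintype.card ι - 1 = G'.natDegree := by omega
      rw [h2]; exact h1
    have hl1 : l = 1 := by
      rw [Finset.sum_congr rfl fun i _ => hl i, ← Finset.mul_sum, h.sum, mul_one] at hsumc
      exact hsumc
    have hcb : c' = b := funext fun i => by rw [hl, hl1, one_mul]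
    have hHH : H' = H := by rw [hH'lin, hcb]
    have hGG : G' = G := by
      refine eq_of_eval_x h.inj (by omega) (by omega) fun i => ?_
      have h1 := congrArg (fun p => p.eval (x i)) hwr1
      have h2 := congrArg (fun p => p.eval (x i)) hwr'
      simp only [eval_sub, eval_mul, hf, rootPoly_eval, zero_mul, sub_zero, deriv_eval] at h1 h2
      rw [hHH, ← h2] at h1
      exact mul_left_cancel₀ (coF_eval_self_ne h.inj i) h1
    refine ⟨hGG, hHH, ?_⟩
    subst hGG
    obtain ⟨r, hr, hform⟩ := hpen.form
    have h1 : (1 : L[X]).coeff 1 = 0 := by rw [coeff_one]; norm_num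
    have h2 : (1 : L[X]).coeff 0 = 1 := by rw [coeff_one]; norm_num
    rw [h1, h2] at hform
    have hform' : f + C t' * G = X * G + r := by
      rw [hform]; simp
    have h3 : C (t' - -c) * G = r - f %ₘ G := by
      rw [C_sub]
      linear_combination hform' - hPform
    by_contra hne
    have h4 : t' - -c ≠ 0 := sub_ne_zero.mpr hne
    have h5 : (C (t' - -c) * G).degree = G.degree := by
      rw [degree_C_mul h4]
    rw [h3] at h5
    have h6 := (degree_sub_le r (f %ₘ G)).trans_lt (max_lt hr hdegr)
    rw [h5] at h6
    exact lt_irrefl _ h6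

/-- useful consequences of an odd datum -/
theorem OddDatum.facts {L : Type*} [Field L] [CharZero L] {g G H : L[X]} {t : L}
    (h : OddDatum g G H t) :
    G.natDegree + 1 = g.natDegree ∧ IsCoprime G H ∧ wr g G = H ^ 2 ∧
      (∀ z, g.eval z = 0 → (derivative g).eval z ≠ 0 → H.eval z ≠ 0) := by
  have hwr : wr g G = H ^ 2 := by
    have h1 := h.pen.wr_eq
    rw [one_mul] at h1
    rw [← h1, wr, wr, derivative_add, derivative_mul, derivative_C, zero_mul, zero_add]
    ring
  have hwr' : derivative g * G - g * derivative G = H ^ 2 := hwr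
  refine ⟨?_, ?_, hwr, ?_⟩
  · obtain ⟨_, hPd⟩ := pencil_P_one h.pen
    have h1 : g = (g + C t * G) - C t * G := by ring
    have h2 : (C t * G).natDegree < (g + C t * G).natDegree := by
      rw [hPd]
      exact Nat.lt_succ_of_le (natDegree_C_mul_le _ _)
    have h3 := natDegree_sub_eq_left_of_natDegree_lt h2
    rw [← h1, hPd] at h3
    exact h3.symm
  · have h1 : IsCoprime G (derivative g * G - g * derivative G) := by
      have h2 : IsCoprime G (g * derivative G) := IsCoprime.mul_right h.cop.symm h.pen.sep
      have h3 : IsCoprime G (-(g * derivative G) + G * derivative g) :=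
        (h2.neg_right).add_mul_left_right _
      have h4 : derivative g * G - g * derivative G =
          -(g * derivative G) + G * derivative g := by ring
      rwa [h4]
    rw [hwr'] at h1
    exact (IsCoprime.pow_right_iff (by norm_num)).mp h1
  · intro z hz hz' hH
    have h1 := congrArg (fun p => p.eval z) hwr'
    simp only [eval_sub, eval_mul, eval_pow, hz, zero_mul, sub_zero, hH] at h1
    have h2 : G.eval z ≠ 0 := by
      intro hG
      obtain ⟨a, b', hab⟩ := h.cop
      have h3 := congrArg (fun p => p.eval z) hab
      simp [hz, hG] at h3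
    have h3 := mul_ne_zero hz' h2
    rw [h1] at h3
    exact h3 (by norm_num)

end AnWA
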