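import Pool.Agent.H.MP_83e36b_nt.Defs

/-! Module C3b: the example x = 1 + roots of X^n - X. -/

open Polynomial

namespace AnWA

namespace C3b

section Fac

variable {L ι : Type*} [Field L] [Fintype ι] [DecidableEq ι]

/-- `∏_{j ≠ i} (X - y j)`. -/
noncomputable def fac (y : ι → L) (i : ι) : L[X] := ∏ j ∈ Finset.univ.erase i, (X - C (y j))

lemma rootPoly_eq_mul (y : ι → L) (i : ι) : rootPoly y = (X - C (y i)) * fac y i := by
  unfold rootPoly fac
  exact (Finset.mul_prod_erase Finset.univ (fun j => X - C (y j)) (Finset.mem_univ i)).symm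

lemma eval_fac_ne (y : ι → L) {i j : ι} (h : i ≠ j) : (fac y j).eval (y i) = 0 := by
  unfold fac
  rw [eval_prod]
  exact Finset.prod_eq_zero (Finset.mem_erase.2 ⟨h, Finset.mem_univ i⟩) (by simp)

lemma eval_deriv (y : ι → L) (i : ι) :
    (derivative (rootPoly y)).eval (y i) = (fac y i).eval (y i) := by
  rw [rootPoly_eq_mul y i]
  simp [derivative_mul]

lemma eval_deriv2 (y : ι → L) (i : ι) :
    (derivative (derivative (rootPoly y))).eval (y i) =
      2 * (derivative (fac y i)).eval (y i) := by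
  rw [rootPoly_eq_mul y i]
  simp [derivative_mul]
  ring

lemma eval_deriv_fac (y : ι → L) {i j : ι} (h : i ≠ j) :
    (y i - y j) * (derivative (fac y j)).eval (y i) = (derivative (rootPoly y)).eval (y i) := by
  rw [rootPoly_eq_mul y j]
  simp only [derivative_mul, derivative_sub, derivative_X, derivative_C, sub_zero, one_mul,
    eval_add, eval_mul, eval_sub, eval_X, eval_C, eval_fac_ne y h, zero_add]

lemma natDegree_fac (y : ι → L) (i : ι) : (fac y i).natDegree = Fintype.card ι - 1 := by
  unfold fac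
  rw [natDegree_prod_of_monic _ _ fun _ _ => monic_X_sub_C _]
  simp [Finset.card_erase_of_mem, Finset.card_univ]

lemma monic_fac (y : ι → L) (i : ι) : (fac y i).Monic :=
  monic_prod_of_monic _ _ fun _ _ => monic_X_sub_C _

/-- The combination of the `fac y i` with the coefficients `c`. -/
noncomputable def comb (y c : ι → L) : L[X] := ∑ i, C (c i) * fac y i

lemma natDegree_comb_le (y c : ι → L) : (comb y c).natDegree ≤ Fintype.card ι - 1 := by
  unfold comb
  refine natDegree_sum_le_of_forall_le _ _ fun i _ => ?_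
  refine (natDegree_C_mul_le _ _).trans ?_
  rw [natDegree_fac]

lemma eval_comb (y c : ι → L) (i : ι) :
    (comb y c).eval (y i) = c i * (derivative (rootPoly y)).eval (y i) := by
  unfold comb
  rw [eval_finsetSum, Finset.sum_eq_single i]
  · rw [eval_mul, eval_C, eval_deriv]
  · intro j _ hj
    rw [eval_mul, eval_fac_ne y hj.symm, mul_zero]
  · intro h
    exact absurd (Finset.mem_univ i) h

lemma coeff_comb (y c : ι → L) : (comb y c).coeff (Fintype.card ι - 1) = ∑ i, c i := by
  unfold comb
  rw [finsetSum_coeff]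
  refine Finset.sum_congr rfl fun i _ => ?_
  rw [coeff_C_mul]
  have h := monic_fac y i
  rw [Monic, leadingCoeff, natDegree_fac] at h
  rw [h, mul_one]

lemma eval_dOp_comb {y : ι → L} (hy : Function.Injective y) (c : ι → L) (i : ι) :
    (dOp 1 (rootPoly y) (comb y c)).eval (y i) =
      2 * (derivative (rootPoly y)).eval (y i) ^ 2 *
        ∑ j, (if i = j then 0 else c j / (y i - y j)) := by
  have h1 : (derivative (comb y c)).eval (y i) =
      c i * (derivative (fac y i)).eval (y i) + (derivative (rootPoly y)).eval (y i) *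
        ∑ j, (if i = j then 0 else c j / (y i - y j)) := by
    unfold comb
    rw [derivative_sum, eval_finsetSum, Finset.mul_sum,
      ← Finset.add_sum_erase _ _ (Finset.mem_univ i),
      ← Finset.add_sum_erase (Finset.univ) (fun j => (derivative (rootPoly y)).eval (y i) *
        (if i = j then 0 else c j / (y i - y j))) (Finset.mem_univ i)]
    have h2 : ∀ j ∈ Finset.univ.erase i, eval (y i) (derivative (C (c j) * fac y j)) =
        (derivative (rootPoly y)).eval (y i) * (if i = j then 0 else c j / (y i - y j)) := by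
      intro j hj
      have hij : i ≠ j := (Finset.ne_of_mem_erase hj).symm
      have h3 : y i - y j ≠ 0 := sub_ne_zero.2 fun h => hij (hy h)
      rw [if_neg hij, derivative_C_mul, eval_mul, eval_C, ← eval_deriv_fac y hij]
      field_simp
    rw [Finset.sum_congr rfl h2]
    simp
  unfold dOp
  simp only [eval_add, eval_mul, derivative_one, zero_mul, one_mul, zero_sub, mul_one,
    eval_neg, eval_ofNat]
  rw [h1, eval_comb, eval_deriv2, eval_deriv]
  ring

lemma eq_comb {y : ι → L} (hy : Function.Injective y)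
    (hne : ∀ i, (derivative (rootPoly y)).eval (y i) ≠ 0) {h : L[X]}
    (hh : h.natDegree < Fintype.card ι) :
    h = comb y fun i => h.eval (y i) / (derivative (rootPoly y)).eval (y i) := by
  rw [← sub_eq_zero]
  refine eq_zero_of_natDegree_lt_card_of_eval_eq_zero _ hy (fun i => ?_) ?_
  · rw [eval_sub, eval_comb, div_mul_cancel₀ _ (hne i), sub_self]
  · refine lt_of_le_of_lt (natDegree_sub_le _ _) (max_lt hh ?_)
    have := natDegree_comb_le y fun i => h.eval (y i) / (derivative (rootPoly y)).eval (y i)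
    omega

end Fac

lemma exists_roots {L ι : Type*} [Field L] [IsAlgClosed L] [Fintype ι] {f : L[X]}
    (hf : f.Monic) (hs : f.Separable) (hn : f.natDegree = Fintype.card ι) :
    ∃ y : ι → L, Function.Injective y ∧ rootPoly y = f := by
  classical
  have h1 : f.roots.card = f.natDegree := (IsAlgClosed.splits f).natDegree_eq_card_roots.symm
  have h2 : f.roots.Nodup := nodup_roots hs
  have h3 : Fintype.card ι = Fintype.card {z // z ∈ f.roots.toFinset} := by
    rw [Fintype.card_coe, Multiset.toFinset_card_of_nodup h2, h1, hn]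
  let e := Fintype.equivOfCardEq h3
  refine ⟨fun i => (e i).1, fun i j h => e.injective (Subtype.ext h), ?_⟩
  unfold rootPoly
  rw [Fintype.prod_equiv e (fun i => X - C ((e i).1)) (fun z => X - C z.1) fun _ => rfl,
    Finset.prod_coe_sort f.roots.toFinset fun z => X - C z]
  show (f.roots.toFinset.val.map fun z => X - C z).prod = f
  rw [Multiset.toFinset_val, Multiset.dedup_eq_self.2 h2]
  exact prod_multiset_X_sub_C_of_monic_of_roots_card_eq hf h1

lemma coeff_X_mul_deriv {L : Type*} [Field L] (h : L[X]) (j : ℕ) :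
    (X * derivative h).coeff j = j * h.coeff j := by
  cases j with
  | zero => simp
  | succ j =>
    rw [coeff_X_mul, coeff_derivative]
    push_cast
    ring

lemma two_eq {L : Type*} [Field L] : (C 2 : L[X]) = 2 := map_ofNat C 2

section Kernel

variable {L : Type*} [Field L] [CharZero L]

lemma two_mul_sub_ne {n : ℕ} (hn : Odd n) (j : ℕ) : (2 * (j : L) - n) ≠ 0 := by
  intro h
  have h1 : ((2 * j : ℕ) : L) = (n : L) := by
    push_cast
    linear_combination h
  have h2 : 2 * j = n := by exact_mod_cast h1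
  obtain ⟨k, hk⟩ := hn
  omega

/-- The polynomial `H0 = X^m + (m-1)/(m+1)`. -/
noncomputable def H0 (L : Type*) [Field L] (m : ℕ) : L[X] := X ^ m + C (((m : L) - 1) / (m + 1))

omit [CharZero L] in
lemma natDegree_H0 (m : ℕ) : (H0 L m).natDegree = m := by
  unfold H0
  exact natDegree_X_pow_add_C

lemma eq_H0 {m : ℕ} (hm : 0 < m) (hodd : Odd (m + 1)) {h : L[X]} (hd : h.natDegree ≤ m) {l : L}
    (hh : 2 * (X * derivative h) - C ((m : L) + 1) * h = C l * (X ^ m - 1)) :
    h = C (h.coeff m) * H0 L m := by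
  have hc : ∀ j : ℕ, (2 * (j : L) - ((m + 1 : ℕ) : L)) * h.coeff j =
      l * ((X ^ m - 1 : L[X]).coeff j) := by
    intro j
    have h1 : (2 * (X * derivative h) - C ((m : L) + 1) * h).coeff j =
        (C l * (X ^ m - 1)).coeff j := by rw [hh]
    rw [coeff_sub, coeff_C_mul, coeff_C_mul] at h1
    have h2 : (2 * (X * derivative h)).coeff j = 2 * (j * h.coeff j) := by
      rw [← two_eq, coeff_C_mul, coeff_X_mul_deriv]
    rw [h2] at h1
    push_cast
    linear_combination h1
  have hm1 : ((m : L) + 1) ≠ 0 := by exact_mod_cast Nat.succ_ne_zero m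
  ext j
  rw [coeff_C_mul, H0, coeff_add, coeff_X_pow, coeff_C]
  have hcm := hc m
  have hc0 := hc 0
  simp only [coeff_sub, coeff_X_pow, if_pos, coeff_one, hm.ne', if_false, sub_zero, mul_one] at hcm
  simp only [coeff_sub, coeff_X_pow, hm.ne, if_false, coeff_one, if_true, Nat.cast_zero,
    mul_zero, zero_sub, mul_neg, mul_one] at hc0
  by_cases hj : j = m
  · subst hj
    rw [if_pos rfl, if_neg hm.ne']
    ring
  · rw [if_neg hj]
    by_cases hj0 : j = 0
    · subst hj0
      rw [if_pos rfl]
      push_cast at hcm hc0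
      field_simp
      linear_combination -hc0 - hcm
    · rw [if_neg hj0]
      have h1 := hc j
      rw [coeff_sub, coeff_X_pow, if_neg hj, coeff_one, if_neg hj0] at h1
      simp only [sub_zero, mul_zero, mul_eq_zero] at h1
      rcases h1 with h1 | h1
      · exact absurd h1 (two_mul_sub_ne hodd j)
      · rw [h1]
        simp

omit [CharZero L] in
lemma eval_dOp_pow {m : ℕ} (hm : 0 < m) (h : L[X]) {z : L} (hz : z ^ m = 1) :
    z * (dOp 1 (X ^ (m + 1) - X) h).eval z =
      m * (2 * (z * (derivative h).eval z) - (m + 1) * h.eval z) := by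
  obtain ⟨k, rfl⟩ : ∃ k, m = k + 1 := ⟨m - 1, by omega⟩
  unfold dOp
  simp only [derivative_one, zero_mul, one_mul, zero_sub, mul_one, derivative_sub,
    derivative_X_pow, derivative_X, derivative_mul, derivative_C, zero_add, sub_zero,
    eval_add, eval_mul, eval_neg, eval_sub, eval_pow, eval_X, eval_one, eval_C, eval_ofNat,
    Nat.add_sub_cancel]
  have h2 : z * z ^ k = 1 := by rw [← pow_succ']; exact hz
  push_cast
  linear_combination (2 * ((k : L) + 1 + 1) * z * (derivative h).eval z) * hz -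
    (((k : L) + 1 + 1) * ((k : L) + 1) * h.eval z) * h2

/-- A vector in the kernel gives a multiple of `H0`. -/
lemma comb_eq {ι : Type*} [Fintype ι] [DecidableEq ι] {m : ℕ} (hm : 0 < m)
    (hodd : Odd (m + 1)) (hcard : Fintype.card ι = m + 1) {y : ι → L}
    (hy : Function.Injective y) (hroot : rootPoly y = X ^ (m + 1) - X) (c : ι → L)
    (hc : ∀ i, ∑ j, (if i = j then 0 else c j / (y i - y j)) = 0) :
    comb y c = C ((comb y c).coeff m) * H0 L m := by
  set h := comb y c with hh
  have hd : h.natDegree ≤ m := by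
    have := natDegree_comb_le y c
    rw [← hh] at this
    omega
  have hz : ∀ i, y i ^ (m + 1) = y i := by
    intro i
    have h1 : (rootPoly y).eval (y i) = 0 := by
      rw [rootPoly_eq_mul y i]
      simp
    rw [hroot] at h1
    simp only [eval_sub, eval_pow, eval_X] at h1
    linear_combination h1
  obtain ⟨g0, hg0⟩ : ∃ g0 : L[X], g0 = 2 * (X * derivative h) - C ((m : L) + 1) * h := ⟨_, rfl⟩
  obtain ⟨g, hg⟩ : ∃ g : L[X], g = g0 - C (g0.coeff m) * (X ^ m - 1) := ⟨_, rfl⟩
  have hg0d : g0.natDegree ≤ m := by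
    rw [hg0]
    refine (natDegree_sub_le _ _).trans (max_le ?_ ((natDegree_C_mul_le _ _).trans hd))
    rw [← two_eq]
    refine (natDegree_C_mul_le _ _).trans ?_
    rw [natDegree_le_iff_coeff_eq_zero]
    intro N hN
    rw [coeff_X_mul_deriv, coeff_eq_zero_of_natDegree_lt (lt_of_le_of_lt hd hN), mul_zero]
  have hgc : ∀ N, m ≤ N → g.coeff N = 0 := by
    intro N hN
    rw [hg, coeff_sub, coeff_C_mul, coeff_sub, coeff_X_pow, coeff_one]
    rcases hN.eq_or_lt with h1 | h1
    · subst h1
      rw [if_pos rfl, if_neg hm.ne']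
      ring
    · rw [coeff_eq_zero_of_natDegree_lt (lt_of_le_of_lt hg0d h1), if_neg h1.ne',
        if_neg (by omega)]
      ring
  have hX : X * g = 0 := by
    refine eq_zero_of_natDegree_lt_card_of_eval_eq_zero _ hy (fun i => ?_) ?_
    · rw [eval_mul, eval_X]
      by_cases h0 : y i = 0
      · rw [h0, zero_mul]
      · have h1 : y i ^ m = 1 := by
          have h2 := hz i
          rw [pow_succ'] at h2
          exact mul_left_cancel₀ h0 (by rw [h2, mul_one])
        have h3 := eval_dOp_pow hm h h1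
        rw [← hroot, hh, eval_dOp_comb hy, hc i, mul_zero, mul_zero] at h3
        have h4 : (m : L) ≠ 0 := by exact_mod_cast hm.ne'
        have h5 := (mul_eq_zero.1 h3.symm).resolve_left h4
        have h6 : g.eval (y i) = 0 := by
          rw [hg, hg0]
          simp only [eval_sub, eval_mul, eval_pow, eval_X, eval_one, eval_C, eval_ofNat]
          rw [h1]
          linear_combination h5
        rw [h6, mul_zero]
    · rw [hcard]
      refine Nat.lt_succ_of_le (natDegree_le_iff_coeff_eq_zero.2 fun N hN => ?_)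
      obtain ⟨k, rfl⟩ : ∃ k, N = k + 1 := ⟨N - 1, by omega⟩
      rw [coeff_X_mul]
      exact hgc k (by omega)
  have hg' : g = 0 := (mul_eq_zero.1 hX).resolve_left X_ne_zero
  refine eq_H0 hm hodd hd (l := g0.coeff m) ?_
  rw [← hg0, ← sub_eq_zero, ← hg, hg']

omit [CharZero L] in
lemma dvd_of_dvd {k : ℕ} {a b : L} (ha : a ≠ 0) (hb : b ≠ 0) {E : L[X]}
    (h : (X ^ (k + 2) - C a) ∣ C b * X ^ k * E) : (X ^ (k + 2) - C a) ∣ E := by
  have h1 : IsCoprime (X ^ (k + 2) - C a) (X : L[X]) := by
    refine ⟨- C a⁻¹, C a⁻¹ * X ^ (k + 1), ?_⟩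
    have h2 : C a⁻¹ * C a = (1 : L[X]) := by rw [← C_mul, inv_mul_cancel₀ ha, C_1]
    linear_combination h2
  have h3 : IsCoprime (X ^ (k + 2) - C a) (C b * X ^ k : L[X]) := by
    refine IsCoprime.mul_right ⟨0, C b⁻¹, ?_⟩ h1.pow_right
    rw [zero_mul, zero_add, ← C_mul, inv_mul_cancel₀ hb, C_1]
  exact h3.dvd_of_dvd_mul_left h

omit [CharZero L] in
lemma eq_of_dvd {m : ℕ} (hm : 0 < m) {a : L} {E : L[X]} (hE : E.natDegree ≤ m)
    (h : (X ^ m - C a) ∣ E) : E = C (E.coeff m) * (X ^ m - C a) := by
  rw [← sub_eq_zero]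
  have hdvd : (X ^ m - C a) ∣ E - C (E.coeff m) * (X ^ m - C a) :=
    dvd_sub h (dvd_mul_left _ _)
  refine eq_zero_of_dvd_of_degree_lt hdvd ?_
  rw [degree_X_pow_sub_C hm, degree_lt_iff_coeff_zero]
  intro N hN
  rw [coeff_sub, coeff_C_mul, coeff_sub, coeff_X_pow, coeff_C]
  rcases hN.eq_or_lt with h1 | h1
  · subst h1
    rw [if_pos rfl, if_neg hm.ne']
    ring
  · rw [coeff_eq_zero_of_natDegree_lt (lt_of_le_of_lt hE h1), if_neg h1.ne', if_neg (by omega)]
    ring

lemma nonDeg_one {m : ℕ} (hm : 2 ≤ m) (hev : Even m) {a : L} (ha : a ≠ 0) :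
    NonDeg 1 (X ^ m - C a) := by
  obtain ⟨k, rfl⟩ : ∃ k, m = k + 2 := ⟨m - 2, by omega⟩
  intro w hw hdvd
  rw [degree_X_pow_sub_C (by omega), degree_lt_iff_coeff_zero] at hw
  have hwd : w.natDegree ≤ k + 1 := natDegree_le_iff_coeff_eq_zero.2 fun N hN => hw N (by omega)
  obtain ⟨E, hE⟩ : ∃ E : L[X], E = C 2 * (X * derivative w) - C ((k : L) + 1) * w := ⟨_, rfl⟩
  have h1 : dOp 1 (X ^ (k + 2) - C a) w = C ((k : L) + 2) * X ^ k * E := by
    unfold dOp
    rw [hE]
    have h3 : k + 2 - 1 = k + 1 := by omega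
    simp only [derivative_one, zero_mul, one_mul, zero_sub, mul_one, derivative_sub,
      derivative_X_pow, derivative_C, derivative_mul, zero_add, sub_zero, h3, two_eq,
      derivative_ofNat,
      Nat.add_sub_cancel, Nat.cast_add, Nat.cast_ofNat, Nat.cast_one, map_add, C_1]
    ring
  have hk2 : ((k : L) + 2) ≠ 0 := by exact_mod_cast (by omega : k + 2 ≠ 0)
  rw [h1] at hdvd
  have h2 := dvd_of_dvd ha hk2 hdvd
  have hEc : ∀ j, E.coeff j = (2 * (j : L) - ((k + 1 : ℕ) : L)) * w.coeff j := by
    intro j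
    rw [hE, coeff_sub, coeff_C_mul, coeff_C_mul, coeff_X_mul_deriv]
    push_cast
    ring
  have hEd : E.natDegree ≤ k + 2 := natDegree_le_iff_coeff_eq_zero.2 fun N hN => by
    rw [hEc, hw N (by omega), mul_zero]
  have h3 := eq_of_dvd (by omega) hEd h2
  rw [hEc, hw (k + 2) le_rfl, mul_zero, C_0, zero_mul] at h3
  ext j
  rw [coeff_zero]
  have h4 := hEc j
  rw [h3, coeff_zero] at h4
  refine (mul_eq_zero.1 h4.symm).resolve_left (two_mul_sub_ne ?_ j)
  obtain ⟨r, hr⟩ := hev
  exact ⟨r - 1, by omega⟩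

lemma nonDeg_two {m : ℕ} (hm : 2 ≤ m) (hev : Even m) {a : L} (ha : a ≠ 0) :
    NonDeg (2 * (X + 1)) (X ^ m - C a) := by
  obtain ⟨k, rfl⟩ : ∃ k, m = k + 2 := ⟨m - 2, by omega⟩
  obtain ⟨r, hr⟩ : ∃ r, k = 2 * r := by
    obtain ⟨r, hr⟩ := hev
    exact ⟨r - 1, by omega⟩
  intro w hw hdvd
  rw [degree_X_pow_sub_C (by omega), degree_lt_iff_coeff_zero] at hw
  obtain ⟨E, hE⟩ : ∃ E : L[X], E = C 2 * (X * derivative w) + X * (C 2 * (X * derivative w))
    - (C (k : L) * (X * w) + C ((k : L) + 1) * w) := ⟨_, rfl⟩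
  have h1 : dOp (2 * (X + 1)) (X ^ (k + 2) - C a) w = C (2 * ((k : L) + 2)) * X ^ k * E := by
    unfold dOp
    rw [hE]
    have h3 : k + 2 - 1 = k + 1 := by omega
    have h4 : derivative (2 * (X + 1) : L[X]) = 2 := by
      rw [← two_eq, derivative_C_mul]
      simp
    rw [h4]
    simp only [derivative_sub, derivative_ofNat,
      derivative_X_pow, derivative_C, derivative_mul, zero_add, sub_zero, zero_mul,
      Nat.add_sub_cancel, Nat.cast_add, Nat.cast_ofNat, Nat.cast_one, map_add, C_1, C_mul,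
      two_eq, h3]
    ring
  have hk2 : (2 * ((k : L) + 2)) ≠ 0 :=
    mul_ne_zero two_ne_zero (by exact_mod_cast (by omega : k + 2 ≠ 0))
  rw [h1] at hdvd
  have h2 := dvd_of_dvd ha hk2 hdvd
  have hEc : ∀ j, E.coeff (j + 1) = (2 * (j : L) - k) * w.coeff j +
      (2 * ((j : L) + 1) - (k + 1)) * w.coeff (j + 1) := by
    intro j
    have e1 : (C 2 * (X * derivative w)).coeff (j + 1) = 2 * (((j : L) + 1) * w.coeff (j + 1)) := by
      rw [coeff_C_mul, coeff_X_mul_deriv]
      push_cast
      ring
    have e2 : (X * (C 2 * (X * derivative w))).coeff (j + 1) = 2 * ((j : L) * w.coeff j) := by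
      rw [coeff_X_mul, coeff_C_mul, coeff_X_mul_deriv]
    have e3 : (C (k : L) * (X * w)).coeff (j + 1) = k * w.coeff j := by
      rw [coeff_C_mul, coeff_X_mul]
    have e4 : (C ((k : L) + 1) * w).coeff (j + 1) = (k + 1) * w.coeff (j + 1) := coeff_C_mul _
    rw [hE, coeff_sub, coeff_add, coeff_add, e1, e2, e3, e4]
    ring
  have hE0 : E.coeff 0 = - ((k : L) + 1) * w.coeff 0 := by
    rw [hE]
    simp
    ring
  have hEd : E.natDegree ≤ k + 2 := natDegree_le_iff_coeff_eq_zero.2 fun N hN => by
    obtain ⟨j, rfl⟩ : ∃ j, N = j + 1 := ⟨N - 1, by omega⟩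
    rw [hEc, hw j (by omega), hw (j + 1) (by omega), mul_zero, mul_zero, add_zero]
  have h3 := eq_of_dvd (by omega) hEd h2
  set l := E.coeff (k + 2) with hl
  have hl' : l = (2 * ((k + 1 : ℕ) : L) - k) * w.coeff (k + 1) := by
    rw [hl, hEc, hw (k + 1 + 1) le_rfl, mul_zero, add_zero]
  have hrec : ∀ j, j + 1 ≤ k + 1 → (2 * (j : L) - k) * w.coeff j +
      (2 * ((j : L) + 1) - (k + 1)) * w.coeff (j + 1) = 0 := by
    intro j hj
    rw [← hEc, h3, coeff_C_mul, coeff_sub, coeff_X_pow, if_neg (by omega), coeff_C,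
      if_neg (by omega)]
    ring
  have hodd : ∀ j : ℕ, (2 * ((j : L) + 1) - (k + 1)) ≠ 0 := by
    intro j
    have := two_mul_sub_ne (L := L) (n := k + 1) ⟨r, by omega⟩ (j + 1)
    push_cast at this
    exact this
  have hhigh : ∀ i, r + 1 + i ≤ k + 1 → w.coeff (r + 1 + i) = 0 := by
    intro i
    induction i with
    | zero =>
      intro h
      have h4 := hrec r (by omega)
      have h5 : (2 * (r : L) - k) = 0 := by
        rw [hr]
        push_cast
        ring
      rw [h5, zero_mul, zero_add] at h4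
      exact (mul_eq_zero.1 h4).resolve_left (hodd r)
    | succ i ih =>
      intro h
      have h4 := hrec (r + 1 + i) (by omega)
      rw [ih (by omega), mul_zero, zero_add] at h4
      exact (mul_eq_zero.1 h4).resolve_left (hodd _)
  have hlast : w.coeff (k + 1) = 0 := by
    have h4 := hhigh r (by omega)
    have h5 : r + 1 + r = k + 1 := by omega
    rwa [h5] at h4
  have hl0 : l = 0 := by rw [hl', hlast, mul_zero]
  have hw0 : w.coeff 0 = 0 := by
    have h4 : E.coeff 0 = 0 := by rw [h3, hl0, C_0, zero_mul, coeff_zero]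
    rw [hE0] at h4
    refine (mul_eq_zero.1 h4).resolve_left ?_
    exact neg_ne_zero.2 (by exact_mod_cast (by omega : k + 1 ≠ 0))
  have hall : ∀ i, i ≤ k + 1 → w.coeff i = 0 := by
    intro i
    induction i with
    | zero => intro _; exact hw0
    | succ i ih =>
      intro h
      have h4 := hrec i h
      rw [ih (by omega), mul_zero, zero_add] at h4
      exact (mul_eq_zero.1 h4).resolve_left (hodd i)
  ext j
  rw [coeff_zero]
  by_cases hj : j ≤ k + 1
  · exact hall j hj
  · exact hw j (by omega)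

omit [CharZero L] in
lemma nonDeg_comp {ω G : L[X]} (h : NonDeg (ω.comp (X + 1)) (G.comp (X + 1))) : NonDeg ω G := by
  intro w hw hdvd
  have hinj : Function.Injective fun p : L[X] => p.comp (X + 1) := by
    intro p q hpq
    have h1 := congrArg (fun p : L[X] => p.comp (X - 1)) hpq
    simpa [comp_assoc] using h1
  have hd : ∀ p : L[X], (p.comp (X + 1)).degree = p.degree := by
    intro p
    by_cases hp : p = 0
    · rw [hp, zero_comp]
    · have hp' : p.comp (X + 1) ≠ 0 := by
        intro h0
        exact hp (hinj (by simpa using h0))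
      rw [degree_eq_natDegree hp, degree_eq_natDegree hp', natDegree_comp]
      have : (X + 1 : L[X]).natDegree = 1 := by
        have h2 : (X + 1 : L[X]) = X + C 1 := by simp
        rw [h2, natDegree_X_add_C]
      rw [this, mul_one]
  have h1 : w.comp (X + 1) = 0 := by
    refine h _ (by rw [hd, hd]; exact hw) ?_
    have h2 : dOp (ω.comp (X + 1)) (G.comp (X + 1)) (w.comp (X + 1)) =
        (dOp ω G w).comp (X + 1) := by
      unfold dOp
      simp only [derivative_comp, derivative_add, derivative_X, derivative_one, add_zero,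
        one_mul, add_comp, mul_comp, sub_comp, ofNat_comp, Nat.cast_ofNat]
    rw [h2]
    obtain ⟨s, hs⟩ := hdvd
    exact ⟨s.comp (X + 1), by rw [hs, mul_comp]⟩
  exact hinj (by simpa using h1)

end Kernel

section Main

variable {L ι : Type*} [Field L] [CharZero L] [Fintype ι] [DecidableEq ι]

omit [CharZero L] in
lemma card_one (h : Fintype.card ι = 1) : ∃ x b : ι → L, OddKernel x b := by
  obtain ⟨i0, hi0⟩ := Fintype.card_eq_one_iff.1 h
  have hu : (Finset.univ : Finset ι) = {i0} := by
    ext i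
    simp [hi0 i]
  have hp : partner (fun _ : ι => (0 : L)) (fun _ => 1) = 1 := by
    unfold partner
    rw [hu, Finset.sum_singleton]
    simp
  have hnd : ∀ ω : L[X], NonDeg ω 1 := by
    intro ω w hw _
    rw [degree_one, Nat.WithBot.lt_zero_iff, degree_eq_bot] at hw
    exact hw
  refine ⟨fun _ => 0, fun _ => 1, ?_⟩
  constructor
  · intro i j _
    rw [hi0 i, hi0 j]
  · intro i
    exact one_ne_zero
  · rw [hu, Finset.sum_singleton]
  · intro i
    rw [hu, Finset.sum_singleton, if_pos (hi0 i)]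
  · intro c _
    exact ⟨c i0, fun i => by rw [hi0 i, mul_one]⟩
  · rw [hp]
    exact separable_one
  · rw [hp]
    exact hnd _
  · rw [hp]
    exact hnd _
  · rw [hp]
    simp

lemma separable_main {m : ℕ} (hm : 0 < m) : (X ^ (m + 1) - X : L[X]).Separable := by
  obtain ⟨k, rfl⟩ : ∃ k, m = k + 1 := ⟨m - 1, by omega⟩
  have h1 : ((k : L) + 1) ≠ 0 := by exact_mod_cast (by omega : k + 1 ≠ 0)
  refine ⟨- C (((k : L) + 2) ^ 2 / (k + 1)) * X ^ k, C (((k : L) + 2) / (k + 1)) * X ^ (k + 1) - 1,
    ?_⟩
  have h2 : derivative (X ^ (k + 1 + 1) - X : L[X]) = C ((k : L) + 2) * X ^ (k + 1) - 1 := by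
    rw [derivative_sub, derivative_X_pow, derivative_X, Nat.add_sub_cancel]
    push_cast
    congr 3
    ring
  rw [h2]
  have h3 : C (((k : L) + 2) ^ 2 / (k + 1)) = C (((k : L) + 2) / (k + 1)) * C ((k : L) + 2) := by
    rw [← C_mul]
    congr 1
    field_simp
  have h4 : C (((k : L) + 2) / (k + 1)) * C ((k : L) + 1) = C ((k : L) + 2) := by
    rw [← C_mul, div_mul_cancel₀ _ h1]
  have h5 : C ((k : L) + 2) = C ((k : L) + 1) + 1 := by
    rw [← C_1, ← C_add]
    congr 1
    ring
  rw [h3]
  linear_combination (X ^ (k + 1) : L[X]) * h4 + (C (((k : L) + 2) / (k + 1)) * X ^ (k + 1)) * h5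

lemma main_case [IsAlgClosed L] {m : ℕ} (hm : 2 ≤ m) (hev : Even m)
    (hcard : Fintype.card ι = m + 1) : ∃ x b : ι → L, OddKernel x b := by
  have hm0 : 0 < m := by omega
  have hmc : (m : L) ≠ 0 := by exact_mod_cast hm0.ne'
  have hm1 : ((m : L) + 1) ≠ 0 := by exact_mod_cast Nat.succ_ne_zero m
  have hmm : ((m : L) - 1) ≠ 0 := by
    have : ((m : L) - 1) = ((m - 1 : ℕ) : L) := by
      rw [Nat.cast_sub (by omega)]
      simp
    rw [this]
    exact_mod_cast (by omega : m - 1 ≠ 0)
  have hlt : (X : L[X]).natDegree < (X ^ (m + 1) : L[X]).natDegree := by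
    rw [natDegree_X, natDegree_X_pow]
    omega
  have hfd : (X ^ (m + 1) - X : L[X]).natDegree = m + 1 := by
    rw [natDegree_sub_eq_left_of_natDegree_lt hlt, natDegree_X_pow]
  have hfm : (X ^ (m + 1) - X : L[X]).Monic := by
    refine (monic_X_pow (m + 1)).sub_of_left ?_
    rw [degree_X, degree_X_pow]
    exact_mod_cast (by omega : 1 < m + 1)
  obtain ⟨y, hy, hroot⟩ := exists_roots (ι := ι) hfm (separable_main hm0) (by rw [hfd, hcard])
  have hne : ∀ i, (derivative (rootPoly y)).eval (y i) ≠ 0 := by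
    intro i
    rw [eval_deriv, fac, eval_prod]
    refine Finset.prod_ne_zero_iff.2 fun j hj => ?_
    rw [eval_sub, eval_X, eval_C]
    exact sub_ne_zero.2 fun h => (Finset.ne_of_mem_erase hj) (hy h).symm
  have hz : ∀ i, y i ^ (m + 1) = y i := by
    intro i
    have h1 : (rootPoly y).eval (y i) = 0 := by
      rw [rootPoly_eq_mul y i]
      simp
    rw [hroot] at h1
    simp only [eval_sub, eval_pow, eval_X] at h1
    linear_combination h1
  obtain ⟨g, hg⟩ : ∃ g : L, g = ((m : L) - 1) / (m + 1) := ⟨_, rfl⟩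
  have hg1 : (m + 1) * g = m - 1 := by
    rw [hg]
    field_simp
  have hg0 : g ≠ 0 := by
    rw [hg]
    exact div_ne_zero hmm hm1
  have hgp : 1 + g ≠ 0 := by
    intro h
    have : (2 : L) * m = 0 := by linear_combination (m + 1) * h - hg1
    exact mul_ne_zero two_ne_zero hmc this
  have hgm : 1 - g ≠ 0 := by
    intro h
    have : (2 : L) = 0 := by linear_combination (m + 1) * h + hg1
    exact two_ne_zero this
  have hH0e : ∀ z : L, (H0 L m).eval z = z ^ m + g := by
    intro z
    unfold H0
    rw [hg]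
    simp
  have htt : ∀ i, y i ^ m = 0 ∨ y i ^ m = 1 := by
    intro i
    by_cases h0 : y i = 0
    · left
      rw [h0, zero_pow hm0.ne']
    · right
      have h2 := hz i
      rw [pow_succ'] at h2
      exact mul_left_cancel₀ h0 (by rw [h2, mul_one])
  have hfe : ∀ z : L, (derivative (rootPoly y)).eval z = (m + 1) * z ^ m - 1 := by
    intro z
    rw [hroot]
    simp
  obtain ⟨b, hb⟩ : ∃ b : ι → L, b = fun i =>
    (H0 L m).eval (y i) / (derivative (rootPoly y)).eval (y i) := ⟨_, rfl⟩
  have hbi : ∀ i, b i * (derivative (rootPoly y)).eval (y i) = (H0 L m).eval (y i) := by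
    intro i
    rw [hb]
    exact div_mul_cancel₀ _ (hne i)
  have hcomb : comb y b = H0 L m := by
    rw [hb]
    exact (eq_comb hy hne (by rw [natDegree_H0, hcard]; omega)).symm
  have hpart : partner y b = X ^ m - C (g ^ 2) := by
    have h1 := eq_comb hy hne (h := (X ^ m - C (g ^ 2) : L[X]))
      (by rw [natDegree_X_pow_sub_C, hcard]; omega)
    rw [h1]
    show comb y (fun i => b i ^ 2) = _
    congr 1
    funext i
    rw [eq_div_iff (hne i)]
    have h2 := hbi i
    have h3 := hne i
    have h4 : (X ^ m - C (g ^ 2) : L[X]).eval (y i) * (derivative (rootPoly y)).eval (y i) =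
        (H0 L m).eval (y i) ^ 2 := by
      rw [hfe, hH0e]
      simp only [eval_sub, eval_pow, eval_X, eval_C]
      rcases htt i with h5 | h5
      · rw [h5]
        ring
      · rw [h5]
        linear_combination (-g - 1) * hg1
    refine mul_right_cancel₀ h3 ?_
    rw [h4, ← h2]
    ring
  have hbne : ∀ i, b i ≠ 0 := by
    intro i h0
    have h1 := hbi i
    rw [h0, zero_mul, hH0e] at h1
    rcases htt i with h5 | h5
    · rw [h5, zero_add] at h1
      exact hg0 h1.symm
    · rw [h5] at h1
      exact hgp h1.symm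
  have hker : ∀ i, ∑ j, (if i = j then 0 else b j / (y i - y j)) = 0 := by
    intro i
    have h1 := eval_dOp_comb hy b i
    have h2 : (dOp 1 (rootPoly y) (comb y b)).eval (y i) = 0 := by
      rw [hcomb, hroot]
      obtain ⟨k, rfl⟩ : ∃ k, m = k + 2 := ⟨m - 2, by omega⟩
      have h3 := hz i
      unfold dOp H0
      rw [← hg]
      have h4 : k + 2 - 1 = k + 1 := by omega
      simp only [derivative_one, zero_mul, one_mul, zero_sub, mul_one, derivative_sub,
        derivative_X_pow, derivative_X, derivative_mul, derivative_C, zero_add, sub_zero,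
        derivative_add, add_zero, eval_add, eval_mul, eval_neg, eval_sub, eval_pow, eval_X,
        eval_one, eval_C, eval_ofNat, Nat.add_sub_cancel, h4]
      push_cast at h3 hg1 ⊢
      linear_combination (((k : L) + 2) * (k + 3) * y i ^ k) * h3 -
        ((k : L) + 2) * y i ^ (k + 1) * hg1
    rw [h2] at h1
    exact (mul_eq_zero.1 h1.symm).resolve_left
      (mul_ne_zero two_ne_zero (pow_ne_zero 2 (hne i)))
  have hx : ∀ i j, (1 + y i) - (1 + y j) = y i - y j := fun i j => by ring
  have hP : (partner (fun i => 1 + y i) b).comp (X + 1) = X ^ m - C (g ^ 2) := by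
    rw [← hpart]
    unfold partner
    rw [sum_comp]
    refine Finset.sum_congr rfl fun i _ => ?_
    rw [mul_comp, C_comp, prod_comp]
    congr 1
    refine Finset.prod_congr rfl fun j _ => ?_
    rw [sub_comp, X_comp, C_comp, C_add, C_1]
    ring
  have hP' : partner (fun i => 1 + y i) b = (X ^ m - C (g ^ 2)).comp (X - 1) := by
    rw [← hP, comp_assoc]
    simp
  refine ⟨fun i => 1 + y i, b, ?_⟩
  constructor
  · intro i j h
    exact hy (add_left_cancel h)
  · exact hbne
  · have h1 := coeff_comb y b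
    rw [hcomb, hcard, Nat.add_sub_cancel] at h1
    rw [← h1]
    unfold H0
    rw [coeff_add, coeff_X_pow, if_pos rfl, coeff_C, if_neg hm0.ne', add_zero]
  · intro i
    simp only [hx]
    exact hker i
  · intro c hc
    simp only [hx] at hc
    have h1 := comb_eq hm0 (by rcases hev with ⟨r, hr⟩; exact ⟨r, by omega⟩) hcard hy hroot c hc
    refine ⟨(comb y c).coeff m, fun i => ?_⟩
    have h2 := eval_comb y c i
    rw [h1, eval_mul, eval_C, ← hbi i] at h2
    refine mul_right_cancel₀ (hne i) ?_
    rw [← h2]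
    ring
  · rw [hP']
    have h1 : (X ^ m - C (g ^ 2) : L[X]).Separable :=
      separable_X_pow_sub_C (g ^ 2) hmc (pow_ne_zero 2 hg0)
    have h2 := IsCoprime.map h1 (compRingHom (X - 1 : L[X]))
    simp only [coe_compRingHom_apply] at h2
    show IsCoprime _ _
    rw [derivative_comp]
    simpa using h2
  · refine nonDeg_comp ?_
    rw [hP, one_comp]
    exact nonDeg_one hm hev (pow_ne_zero 2 hg0)
  · refine nonDeg_comp ?_
    have h2 : (2 * X : L[X]).comp (X + 1) = 2 * (X + 1) := by simp
    rw [hP, h2]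
    exact nonDeg_two hm hev (pow_ne_zero 2 hg0)
  · rw [hP', eval_comp]
    simp only [eval_sub, eval_X, eval_one, eval_pow, eval_C, zero_sub, hev.neg_one_pow]
    intro h
    have : (1 - g) * (1 + g) = 0 := by linear_combination h
    exact (mul_ne_zero hgm hgp) this

end Main

end C3b

theorem exists_oddKernel {L ι : Type*} [Field L] [CharZero L] [IsAlgClosed L] [Fintype ι]
    [DecidableEq ι] (hodd : Odd (Fintype.card ι)) : ∃ x b : ι → L, OddKernel x b := by
  obtain ⟨r, hr⟩ := hodd
  by_cases h1 : Fintype.card ι = 1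
  · exact C3b.card_one h1
  · exact C3b.main_case (m := 2 * r) (by omega) (even_two_mul r) hr

end AnWA
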