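import Pool.Agent.H.MP_83e36b_nt.Defs

/-! Module N1: NonDeg as nonvanishing of a determinant.
-/

open Polynomial

namespace AnWA

lemma degree_mul_lt_N1 {K : Type*} [CommRing K] {a b : K[X]} {A B : ℕ} (ha : a.degree < (A : ℕ))
    (hb : b.degree < (B : ℕ)) : (a * b).degree < ((A + B - 1 : ℕ) : WithBot ℕ) := by
  rw [degree_lt_iff_coeff_zero] at ha hb ⊢
  intro k hk
  rw [coeff_mul]
  refine Finset.sum_eq_zero fun x hx => ?_
  have hx := Finset.HasAntidiagonal.mem_antidiagonal.1 hx
  rcases Nat.lt_or_ge x.1 A with h | h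
  · rw [hb x.2 (by omega), mul_zero]
  · rw [ha x.1 h, zero_mul]

lemma degree_derivative_lt_N1 {K : Type*} [CommRing K] {a : K[X]} {A : ℕ}
    (ha : a.degree < (A : ℕ)) : (derivative a).degree < ((A - 1 : ℕ) : WithBot ℕ) := by
  rw [degree_lt_iff_coeff_zero] at ha ⊢
  intro k hk
  rw [coeff_derivative, ha (k + 1) (by omega), zero_mul]

lemma degree_mono_N1 {K : Type*} [CommRing K] {a : K[X]} {A B : ℕ}
    (ha : a.degree < (A : ℕ)) (h : A ≤ B) : a.degree < (B : ℕ) :=
  lt_of_lt_of_le ha (by exact_mod_cast h)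

lemma degree_dOp_lt_N1 {K : Type*} [CommRing K] {ω q w : K[X]} {m : ℕ} (hω : ω.degree < (2 : ℕ))
    (hq : q.degree < ((m + 1 : ℕ) : WithBot ℕ)) (hw : w.degree < (m : ℕ)) (hm : 0 < m) :
    (dOp ω q w).degree < ((2 * m - 1 : ℕ) : WithBot ℕ) := by
  have hq' := degree_derivative_lt_N1 hq
  have hq'' := degree_derivative_lt_N1 hq'
  have hw' := degree_derivative_lt_N1 hw
  have hω' := degree_derivative_lt_N1 hω
  have h2 : (2 * ω).degree < (2 : ℕ) := by
    rw [two_mul]
    exact lt_of_le_of_lt (degree_add_le _ _) (max_lt hω hω)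
  unfold dOp
  refine lt_of_le_of_lt (degree_add_le _ _) (max_lt ?_ ?_)
  · exact degree_mono_N1 (degree_mul_lt_N1 (degree_mul_lt_N1 h2 hq') hw') (by omega)
  · refine degree_mono_N1 (degree_mul_lt_N1 (A := m) ?_ hw) (by omega)
    refine lt_of_le_of_lt (degree_sub_le _ _) (max_lt ?_ ?_)
    · exact degree_mono_N1 (degree_mul_lt_N1 hω' hq') (by omega)
    · exact degree_mono_N1 (degree_mul_lt_N1 hω hq'') (by omega)

lemma eq_sum_N1 {K : Type*} [CommRing K] {w : K[X]} {m : ℕ} (hw : w.degree < (m : ℕ)) :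
    w = ∑ j : Fin m, C (w.coeff (j : ℕ)) * X ^ (j : ℕ) := by
  rw [degree_lt_iff_coeff_zero] at hw
  rw [Fin.sum_univ_eq_sum_range (fun j => C (w.coeff j) * X ^ j) m]
  ext i
  rw [finsetSum_coeff]
  simp only [coeff_C_mul, coeff_X_pow]
  rw [Finset.sum_eq_single i]
  · simp
  · intro b _ hb
    rw [if_neg (Ne.symm hb), mul_zero]
  · intro hi
    rw [Finset.mem_range, not_lt] at hi
    rw [hw i hi, zero_mul]

lemma dOp_add_N1 {K : Type*} [CommRing K] (ω q u w : K[X]) :
    dOp ω q (u + w) = dOp ω q u + dOp ω q w := by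
  unfold dOp
  rw [derivative_add]
  ring

lemma dOp_C_mul_N1 {K : Type*} [CommRing K] (ω q w : K[X]) (a : K) :
    dOp ω q (C a * w) = C a * dOp ω q w := by
  unfold dOp
  rw [derivative_C_mul]
  ring

lemma dOp_zero_N1 {K : Type*} [CommRing K] (ω q : K[X]) : dOp ω q 0 = 0 := by
  unfold dOp
  simp

lemma dOp_sum_N1 {K : Type*} [CommRing K] {ι : Type*} (s : Finset ι) (ω q : K[X]) (a : ι → K)
    (u : ι → K[X]) : dOp ω q (∑ j ∈ s, C (a j) * u j) = ∑ j ∈ s, C (a j) * dOp ω q (u j) := by
  classical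
  induction s using Finset.induction_on with
  | empty => simp [dOp_zero_N1]
  | insert j s hj ih => rw [Finset.sum_insert hj, Finset.sum_insert hj, dOp_add_N1, ih, dOp_C_mul_N1]

/-- the solution of the inhomogeneous system, used for continuity -/
theorem ndMat_mulVec {K : Type*} [Field K] {ω q w s : K[X]} {m : ℕ}
    (hw : w.degree < m) (hs : s.degree < ((m - 1 : ℕ) : WithBot ℕ)) :
    (ndMat ω q m).mulVec (Sum.elim (fun j => w.coeff (j : ℕ)) (fun j => s.coeff (j : ℕ)))
      = fun r => (dOp ω q w + q * s).coeff (ndRow m r) := by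
  funext r
  have e1 : dOp ω q w = ∑ j : Fin m, C (w.coeff (j : ℕ)) * dOp ω q (X ^ (j : ℕ)) := by
    conv_lhs => rw [eq_sum_N1 hw]
    exact dOp_sum_N1 _ ω q _ _
  have e2 : q * s = ∑ j : Fin (m - 1), C (s.coeff (j : ℕ)) * (q * X ^ (j : ℕ)) := by
    conv_lhs => rw [eq_sum_N1 hs]
    rw [Finset.mul_sum]
    refine Finset.sum_congr rfl fun j _ => ?_
    ring
  rw [e1, e2, coeff_add, finsetSum_coeff, finsetSum_coeff]
  simp only [coeff_C_mul]
  unfold Matrix.mulVec dotProduct
  rw [Fintype.sum_sum_type]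
  congr 1
  · refine Finset.sum_congr rfl fun j _ => ?_
    simp only [ndMat, ndCol, Sum.elim_inl]
    ring
  · refine Finset.sum_congr rfl fun j _ => ?_
    simp only [ndMat, ndCol, Sum.elim_inr]
    ring

lemma eq_zero_of_rows_N1 {K : Type*} [CommRing K] {f : K[X]} {m : ℕ} (hm : 0 < m)
    (hf : f.degree < ((2 * m - 1 : ℕ) : WithBot ℕ)) (h : ∀ r, f.coeff (ndRow m r) = 0) :
    f = 0 := by
  rw [degree_lt_iff_coeff_zero] at hf
  ext i
  rw [coeff_zero]
  rcases Nat.lt_or_ge i (2 * m - 1) with hi | hi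
  · rcases Nat.lt_or_ge i m with h1 | h1
    · exact h (Sum.inl ⟨i, h1⟩)
    · have := h (Sum.inr ⟨i - m, by omega⟩)
      simp only [ndRow, Sum.elim_inr] at this
      rwa [Nat.add_sub_cancel' h1] at this
  · exact hf i hi

theorem nonDeg_iff_det {K : Type*} [Field K] {ω q : K[X]} (hω : ω.natDegree ≤ 1)
    (hq : q.Monic) {m : ℕ} (hm : q.natDegree = m) : NonDeg ω q ↔ (ndMat ω q m).det ≠ 0 := by
  have hqd : q.degree = (m : ℕ) := by rw [degree_eq_natDegree hq.ne_zero, hm]
  have hωd : ω.degree < (2 : ℕ) := by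
    refine lt_of_le_of_lt degree_le_natDegree ?_
    exact_mod_cast Nat.lt_succ_of_le hω
  have hqd1 : q.degree < ((m + 1 : ℕ) : WithBot ℕ) := by
    rw [hqd]
    exact_mod_cast Nat.lt_succ_self m
  rcases Nat.eq_zero_or_pos m with h0 | hpos
  · subst h0
    constructor
    · intro _
      have : IsEmpty (Fin 0 ⊕ Fin (0 - 1)) := by
        constructor
        rintro (x | x)
        · exact x.elim0
        · exact x.elim0
      rw [Matrix.det_isEmpty]
      exact one_ne_zero
    · intro _ w hw _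
      rw [hqd] at hw
      rw [degree_lt_iff_coeff_zero] at hw
      ext i
      rw [coeff_zero]
      exact hw i (Nat.zero_le i)
  constructor
  · intro hnd hdet
    obtain ⟨v, hv0, hv⟩ := Matrix.exists_mulVec_eq_zero_iff.2 hdet
    set w : K[X] := ∑ j : Fin m, C (v (Sum.inl j)) * X ^ (j : ℕ) with hw
    set s : K[X] := ∑ j : Fin (m - 1), C (v (Sum.inr j)) * X ^ (j : ℕ) with hs
    have hwc : ∀ j : Fin m, w.coeff (j : ℕ) = v (Sum.inl j) := by
      intro j
      rw [hw, finsetSum_coeff]
      simp only [coeff_C_mul, coeff_X_pow]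
      rw [Finset.sum_eq_single j]
      · simp
      · intro b _ hb
        rw [if_neg (fun h => hb (Fin.ext h.symm)), mul_zero]
      · intro h
        exact absurd (Finset.mem_univ _) h
    have hsc : ∀ j : Fin (m - 1), s.coeff (j : ℕ) = v (Sum.inr j) := by
      intro j
      rw [hs, finsetSum_coeff]
      simp only [coeff_C_mul, coeff_X_pow]
      rw [Finset.sum_eq_single j]
      · simp
      · intro b _ hb
        rw [if_neg (fun h => hb (Fin.ext h.symm)), mul_zero]
      · intro h
        exact absurd (Finset.mem_univ _) h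
    have hwd : w.degree < (m : ℕ) := by
      rw [degree_lt_iff_coeff_zero]
      intro k hk
      rw [hw, finsetSum_coeff]
      refine Finset.sum_eq_zero fun j _ => ?_
      rw [coeff_C_mul, coeff_X_pow, if_neg (by have := j.2; omega), mul_zero]
    have hsd : s.degree < ((m - 1 : ℕ) : WithBot ℕ) := by
      rw [degree_lt_iff_coeff_zero]
      intro k hk
      rw [hs, finsetSum_coeff]
      refine Finset.sum_eq_zero fun j _ => ?_
      rw [coeff_C_mul, coeff_X_pow, if_neg (by have := j.2; omega), mul_zero]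
    have hve : v = Sum.elim (fun j : Fin m => w.coeff (j : ℕ))
        (fun j : Fin (m - 1) => s.coeff (j : ℕ)) := by
      funext r
      rcases r with j | j
      · exact (hwc j).symm
      · exact (hsc j).symm
    have hz : dOp ω q w + q * s = 0 := by
      apply eq_zero_of_rows_N1 hpos
      · refine lt_of_le_of_lt (degree_add_le _ _) (max_lt ?_ ?_)
        · exact degree_dOp_lt_N1 hωd hqd1 hwd hpos
        · exact degree_mono_N1 (degree_mul_lt_N1 hqd1 hsd) (by omega)
      · intro r
        have := congrFun (ndMat_mulVec (ω := ω) (q := q) hwd hsd) r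
        rw [← hve, hv] at this
        exact this.symm
    have hw0 : w = 0 := by
      apply hnd w (by rw [hqd]; exact hwd)
      refine ⟨-s, ?_⟩
      rw [mul_neg]
      exact eq_neg_of_add_eq_zero_left hz
    have hs0 : s = 0 := by
      rw [hw0, dOp_zero_N1, zero_add] at hz
      rcases mul_eq_zero.1 hz with h | h
      · exact absurd h hq.ne_zero
      · exact h
    apply hv0
    rw [hve, hw0, hs0]
    funext r
    rcases r with j | j <;> simp
  · intro hdet w hw hdvd
    rw [hqd] at hw
    obtain ⟨t, ht⟩ := hdvd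
    have hdeg := degree_dOp_lt_N1 hωd hqd1 hw hpos
    have htd : (-t).degree < ((m - 1 : ℕ) : WithBot ℕ) := by
      rw [degree_neg]
      rcases eq_or_ne t 0 with h | h
      · rw [h, degree_zero]
        exact WithBot.bot_lt_coe _
      · rw [ht, degree_mul, hqd, degree_eq_natDegree h] at hdeg
        rw [degree_eq_natDegree h]
        have h1 : m + t.natDegree < 2 * m - 1 := by exact_mod_cast hdeg
        have h2 : t.natDegree < m - 1 := by omega
        exact_mod_cast h2
    have hmul := ndMat_mulVec (ω := ω) (q := q) hw htd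
    have hz : (ndMat ω q m).mulVec (Sum.elim (fun j : Fin m => w.coeff (j : ℕ))
        (fun j : Fin (m - 1) => (-t).coeff (j : ℕ))) = 0 := by
      rw [hmul]
      funext r
      rw [ht, mul_neg, add_neg_cancel, coeff_zero]
      rfl
    have hv := Matrix.eq_zero_of_mulVec_eq_zero hdet hz
    rw [degree_lt_iff_coeff_zero] at hw
    ext i
    rw [coeff_zero]
    rcases Nat.lt_or_ge i m with h | h
    · exact congrFun hv (Sum.inl ⟨i, h⟩)
    · exact hw i h

end AnWA
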