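import Pool.Agent.H.MP_83e36b_nt.Defs
import Pool.Agent.H.MP_83e36b_nt.C2b
import Pool.Agent.H.MP_83e36b_nt.N1

/-! Module C3c: OddKernel holds on a nonempty Zariski open set. -/

open Polynomial

namespace AnWA

section aux

variable {L ι : Type*} [Field L] [Fintype ι] [DecidableEq ι]

/-- the antisymmetric matrix `1 / (x i - x j)` -/
def c3cS (x : ι → L) : Matrix ι ι L := fun i j => if i = j then 0 else (x i - x j)⁻¹

/-- the matrix with one row replaced by ones -/
def c3cA (i0 : ι) (x : ι → L) : Matrix ι ι L := fun i j => if i = i0 then 1 else c3cS x i j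

/-- the normalized kernel vector, by Cramer's rule -/
noncomputable def c3cb (i0 : ι) (x : ι → L) : ι → L := fun i =>
  ((c3cA i0 x).updateCol i (Pi.single i0 1)).det / (c3cA i0 x).det

lemma c3c_ker_eq (x c : ι → L) (i : ι) :
    (∑ j, (if i = j then 0 else c j / (x i - x j))) = (c3cS x).mulVec c i := by
  rw [Matrix.mulVec, dotProduct]
  refine Finset.sum_congr rfl fun j _ => ?_
  rw [c3cS]
  split_ifs
  · rw [zero_mul]
  · rw [div_eq_mul_inv, mul_comm]

lemma c3cS_transpose (x : ι → L) : (c3cS x).transpose = - c3cS x := by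
  ext i j
  rw [Matrix.transpose_apply, Matrix.neg_apply, c3cS, c3cS]
  by_cases h : i = j
  · subst h; simp
  · rw [if_neg h, if_neg (Ne.symm h), ← inv_neg, neg_sub]

lemma c3cS_det [CharZero L] (hodd : Odd (Fintype.card ι)) (x : ι → L) : (c3cS x).det = 0 := by
  have h1 : (c3cS x).det = - (c3cS x).det := by
    conv_lhs => rw [← Matrix.det_transpose, c3cS_transpose, Matrix.det_neg, hodd.neg_one_pow]
    ring
  have h2 : (2 : L) * (c3cS x).det = 0 := by linear_combination h1
  exact (mul_eq_zero.1 h2).resolve_left two_ne_zero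

lemma c3cA_mulVec (i0 : ι) (x c : ι → L) (i : ι) :
    (c3cA i0 x).mulVec c i = if i = i0 then ∑ j, c j else (c3cS x).mulVec c i := by
  split_ifs with h
  · rw [Matrix.mulVec, dotProduct]
    refine Finset.sum_congr rfl fun j _ => ?_
    rw [c3cA, if_pos h, one_mul]
  · rw [Matrix.mulVec, Matrix.mulVec, dotProduct, dotProduct]
    refine Finset.sum_congr rfl fun j _ => ?_
    rw [c3cA, if_neg h]

lemma c3cA_mulVec_b {i0 : ι} {x : ι → L} (h : (c3cA i0 x).det ≠ 0) :
    (c3cA i0 x).mulVec (c3cb i0 x) = Pi.single i0 1 := by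
  have h1 : c3cb i0 x = (c3cA i0 x).det⁻¹ • (c3cA i0 x).cramer (Pi.single i0 1) := by
    ext i
    rw [c3cb, Pi.smul_apply, Matrix.cramer_apply, smul_eq_mul, div_eq_mul_inv, mul_comm]
  rw [h1, Matrix.mulVec_smul, Matrix.mulVec_cramer, smul_smul, inv_mul_cancel₀ h, one_smul]

/-- a vector annihilated by all the rows but `i0` is a multiple of `b` -/
lemma c3cA_eq {i0 : ι} {x : ι → L} (h : (c3cA i0 x).det ≠ 0) {c : ι → L}
    (hc : ∀ i, i ≠ i0 → (c3cS x).mulVec c i = 0) : c = (∑ j, c j) • c3cb i0 x := by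
  have h1 : (c3cA i0 x).mulVec (c - (∑ j, c j) • c3cb i0 x) = 0 := by
    rw [Matrix.mulVec_sub, Matrix.mulVec_smul, c3cA_mulVec_b h]
    ext i
    rw [Pi.sub_apply, c3cA_mulVec, Pi.smul_apply, Pi.single_apply, Pi.zero_apply]
    split_ifs with hi
    · simp
    · rw [hc i hi]; simp
  exact sub_eq_zero.1 (Matrix.eq_zero_of_mulVec_eq_zero h h1)

lemma c3cb_sum {i0 : ι} {x : ι → L} (h : (c3cA i0 x).det ≠ 0) : ∑ i, c3cb i0 x i = 1 := by
  have h1 := congrFun (c3cA_mulVec_b h) i0
  rw [c3cA_mulVec, if_pos rfl, Pi.single_eq_same] at h1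
  exact h1

lemma c3cb_ker [CharZero L] (hodd : Odd (Fintype.card ι)) {i0 : ι} {x : ι → L}
    (h : (c3cA i0 x).det ≠ 0) : (c3cS x).mulVec (c3cb i0 x) = 0 := by
  obtain ⟨c, hc0, hc⟩ := Matrix.exists_mulVec_eq_zero_iff.2 (c3cS_det hodd x)
  have h1 := c3cA_eq h (c := c) (fun i _ => by rw [hc]; rfl)
  have h2 : ∑ j, c j ≠ 0 := by
    intro h3
    rw [h3, zero_smul] at h1
    exact hc0 h1
  have h3 : c3cb i0 x = (∑ j, c j)⁻¹ • c := by
    conv_rhs => rw [h1]
    rw [smul_smul]
    have : (∑ j, ((∑ j, c j) • c3cb i0 x) j) = ∑ j, c j := by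
      rw [← h1]
    rw [this, inv_mul_cancel₀ h2, one_smul]
  rw [h3, Matrix.mulVec_smul, hc, smul_zero]

lemma c3cA_det_ne [CharZero L] {x0 b0 : ι → L} (h0 : OddKernel x0 b0) (i0 : ι) :
    (c3cA i0 x0).det ≠ 0 := by
  intro hdet
  obtain ⟨c, hc0, hc⟩ := Matrix.exists_mulVec_eq_zero_iff.2 hdet
  have hsum : ∑ j, c j = 0 := by
    have := congrFun hc i0
    rwa [c3cA_mulVec, if_pos rfl] at this
  have hi : ∀ i, i ≠ i0 → (c3cS x0).mulVec c i = 0 := by
    intro i hi
    have := congrFun hc i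
    rwa [c3cA_mulVec, if_neg hi] at this
  have hb0 : (c3cS x0).mulVec b0 = 0 := by
    ext i
    rw [← c3c_ker_eq]
    exact h0.ker i
  -- the remaining row
  have hdot : b0 ⬝ᵥ (c3cS x0).mulVec c = 0 := by
    rw [Matrix.dotProduct_mulVec]
    have : Matrix.vecMul b0 (c3cS x0) = 0 := by
      rw [← Matrix.mulVec_transpose, c3cS_transpose, Matrix.neg_mulVec, hb0, neg_zero]
    rw [this, zero_dotProduct]
  have hi0 : (c3cS x0).mulVec c i0 = 0 := by
    rw [dotProduct, Finset.sum_eq_single i0] at hdot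
    · exact (mul_eq_zero.1 hdot).resolve_left (h0.ne i0)
    · intro i _ h
      rw [hi i h, mul_zero]
    · intro h; exact absurd (Finset.mem_univ _) h
  obtain ⟨l, hl⟩ := h0.uniq c (fun i => by
    rw [c3c_ker_eq]
    by_cases h : i = i0
    · rw [h, hi0]
    · exact hi i h)
  have : l = 0 := by
    have h1 : ∑ j, c j = l := by
      rw [Finset.sum_congr rfl (fun i _ => hl i), ← Finset.mul_sum, h0.sum, mul_one]
    rw [← h1, hsum]
  apply hc0
  ext i
  rw [hl i, this, zero_mul]
  rfl

lemma c3cb_eq [CharZero L] {x0 b0 : ι → L} (h0 : OddKernel x0 b0) (i0 : ι) :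
    c3cb i0 x0 = b0 := by
  have hb0 : (c3cS x0).mulVec b0 = 0 := by
    ext i
    rw [← c3c_ker_eq]
    exact h0.ker i
  have h1 := c3cA_eq (c3cA_det_ne h0 i0) (c := b0) (fun i _ => by rw [hb0]; rfl)
  rw [h0.sum, one_smul] at h1
  exact h1.symm

/-- `∑ b ^ 2 = 1` -/
lemma c3c_sumsq [CharZero L] {x b : ι → L} (hinj : Function.Injective x)
    (hsum : ∑ i, b i = 1) (hker : (c3cS x).mulVec b = 0) : ∑ i, b i ^ 2 = 1 := by
  have h1 : ∑ i, ∑ j, (if i = j then 0 else b i * b j * x i / (x i - x j)) = 0 := by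
    have : ∀ i, ∑ j, (if i = j then 0 else b i * b j * x i / (x i - x j))
        = b i * x i * (c3cS x).mulVec b i := by
      intro i
      rw [← c3c_ker_eq, Finset.mul_sum]
      refine Finset.sum_congr rfl fun j _ => ?_
      split_ifs
      · rw [mul_zero]
      · ring
    rw [Finset.sum_congr rfl (fun i _ => this i), hker]
    simp
  have h2 : ∑ i, ∑ j, (if i = j then 0 else b i * b j * x j / (x j - x i)) = 0 := by
    rw [Finset.sum_comm]
    refine Eq.trans ?_ h1
    refine Finset.sum_congr rfl fun j _ => Finset.sum_congr rfl fun i _ => ?_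
    by_cases h : i = j
    · rw [if_pos h, if_pos h.symm]
    · rw [if_neg h, if_neg (Ne.symm h)]; ring
  have h3 : ∑ i, ∑ j, (if i = j then 0 else b i * b j) = 0 := by
    have e : ∀ i j, (if i = j then 0 else b i * b j)
        = (if i = j then 0 else b i * b j * x i / (x i - x j))
          + (if i = j then 0 else b i * b j * x j / (x j - x i)) := by
      intro i j
      by_cases h : i = j
      · simp [h]
      · rw [if_neg h, if_neg h, if_neg h]
        have hne : x i - x j ≠ 0 := sub_ne_zero.2 (fun h' => h (hinj h'))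
        have : x j - x i = -(x i - x j) := by ring
        rw [this, div_neg, ← sub_eq_add_neg, ← sub_div, ← mul_sub, mul_div_assoc,
          div_self hne, mul_one]
    simp only [e, Finset.sum_add_distrib, h1, h2, add_zero]
  have h4 : (∑ i, b i) * (∑ j, b j) = ∑ i, b i ^ 2
      + ∑ i, ∑ j, (if i = j then 0 else b i * b j) := by
    rw [Finset.sum_mul_sum, ← Finset.sum_add_distrib]
    refine Finset.sum_congr rfl fun i _ => ?_
    have e : ∀ j, b i * b j = (if i = j then b i ^ 2 else 0) + (if i = j then 0 else b i * b j) := by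
      intro j
      by_cases h : i = j
      · rw [if_pos h, if_pos h, ← h]; ring
      · rw [if_neg h, if_neg h]; ring
    rw [Finset.sum_congr rfl (fun j _ => e j), Finset.sum_add_distrib]
    simp
  rw [h3, hsum] at h4
  linear_combination (-1 : L) * h4

lemma c3c_partner_natDegree_le (x b : ι → L) :
    (partner x b).natDegree ≤ Fintype.card ι - 1 := by
  refine natDegree_sum_le_of_forall_le _ _ fun i _ => ?_
  refine (natDegree_C_mul_le _ _).trans ?_
  rw [natDegree_finsetProd_X_sub_C_eq_card, Finset.card_erase_of_mem (Finset.mem_univ i),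
    Finset.card_univ]

lemma c3c_partner_coeff (x b : ι → L) :
    (partner x b).coeff (Fintype.card ι - 1) = ∑ i, b i ^ 2 := by
  rw [partner, finsetSum_coeff]
  refine Finset.sum_congr rfl fun i _ => ?_
  rw [coeff_C_mul]
  have hm : (∏ j ∈ Finset.univ.erase i, (X - C (x j))).Monic :=
    monic_prod_of_monic _ _ fun j _ => monic_X_sub_C _
  have hd : (∏ j ∈ Finset.univ.erase i, (X - C (x j))).natDegree = Fintype.card ι - 1 := by
    rw [natDegree_finsetProd_X_sub_C_eq_card, Finset.card_erase_of_mem (Finset.mem_univ i),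
      Finset.card_univ]
  rw [← hd, hm.coeff_natDegree, mul_one]

lemma c3c_partner_monic {x b : ι → L} (h : ∑ i, b i ^ 2 = 1) :
    (partner x b).Monic ∧ (partner x b).natDegree = Fintype.card ι - 1 := by
  have hm : (partner x b).Monic :=
    monic_of_natDegree_le_of_coeff_eq_one _ (c3c_partner_natDegree_le x b)
      (by rw [c3c_partner_coeff, h])
  refine ⟨hm, le_antisymm (c3c_partner_natDegree_le x b) ?_⟩
  refine le_natDegree_of_ne_zero ?_
  rw [c3c_partner_coeff, h]
  exact one_ne_zero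

/-- separability in terms of the resultant with fixed degree arguments -/
lemma c3c_sep_iff [CharZero L] {G : L[X]} (hG : G.Monic) {m : ℕ} (hm : G.natDegree = m) :
    G.Separable ↔ G.resultant (derivative G) m (m - 1) ≠ 0 := by
  have h1 : (derivative G).natDegree = m - 1 := by
    rw [← hm]
    exact natDegree_derivative G
  rw [Separable]
  have h2 := resultant_eq_zero_iff (f := G) (g := derivative G)
  rw [hm, h1] at h2
  rw [Ne, h2]
  have : G ≠ 0 := hG.ne_zero
  tauto

lemma c3c_regPoly_partner {x0 : ι → L} {b : (ι → L) → ι → L}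
    (hb : ∀ i, Reg x0 (fun x => b x i)) : RegPoly x0 (fun x => partner x (b x)) := by
  unfold partner
  refine RegPoly.sum _ fun i _ => RegPoly.mul (RegPoly.C ?_) (RegPoly.prod _ fun j _ => ?_)
  · simp only [pow_two]
    exact (hb i).mul (hb i)
  · exact RegPoly.sub (RegPoly.const X) (RegPoly.C (Reg.proj j))

lemma c3c_reg_nd {x0 : ι → L} (ω : L[X]) {G : (ι → L) → L[X]} (hG : RegPoly x0 G) (m : ℕ) :
    Reg x0 (fun x => (ndMat ω (G x) m).det) := by
  refine Reg.det fun r c => ?_
  have hcol : RegPoly x0 (fun x => ndCol ω (G x) m c) := by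
    rcases c with j | j
    · simp only [ndCol, Sum.elim_inl, dOp]
      exact RegPoly.add (RegPoly.mul (RegPoly.mul (RegPoly.const _) hG.derivative)
        (RegPoly.const _)) (RegPoly.mul (RegPoly.sub (RegPoly.mul (RegPoly.const _) hG.derivative)
          (RegPoly.mul (RegPoly.const _) hG.derivative.derivative)) (RegPoly.const _))
    · simp only [ndCol, Sum.elim_inr]
      exact RegPoly.mul hG (RegPoly.const _)
  exact hcol _

lemma c3c_reg_resultant {x0 : ι → L} {f g : (ι → L) → L[X]} (hf : RegPoly x0 f)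
    (hg : RegPoly x0 g) (m n : ℕ) : Reg x0 (fun x => (f x).resultant (g x) m n) := by
  unfold resultant
  refine Reg.det fun i j => ?_
  unfold sylvester
  simp only [Matrix.of_apply]
  induction j using Fin.addCases with
  | left j =>
    simp only [Fin.addCases_left]
    split_ifs
    · exact hg _
    · exact Reg.const 0
  | right j =>
    simp only [Fin.addCases_right]
    split_ifs
    · exact hf _
    · exact Reg.const 0

lemma c3c_reg_A {x0 : ι → L} (hinj : Function.Injective x0) (i0 i j : ι) :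
    Reg x0 (fun x => c3cA i0 x i j) := by
  unfold c3cA c3cS
  by_cases h : i = i0
  · simp only [if_pos h]
    exact Reg.const 1
  · simp only [if_neg h]
    by_cases h' : i = j
    · simp only [if_pos h']
      exact Reg.const 0
    · simp only [if_neg h']
      exact Reg.inv (Reg.sub (Reg.proj i) (Reg.proj j))
        (sub_ne_zero.2 fun e => h' (hinj e))

end aux

theorem oddKernel_open {L ι : Type*} [Field L] [CharZero L] [Fintype ι]
    [DecidableEq ι] (hodd : Odd (Fintype.card ι)) {x0 b0 : ι → L} (h0 : OddKernel x0 b0) :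
    ∃ Φ : MvPolynomial ι L, MvPolynomial.eval x0 Φ ≠ 0 ∧
      ∀ x, MvPolynomial.eval x Φ ≠ 0 → ∃ b, OddKernel x b := by
  classical
  have hne : Nonempty ι := Fintype.card_pos_iff.1 hodd.pos
  obtain ⟨i0⟩ := hne
  set m := Fintype.card ι - 1 with hm
  have hA0 := c3cA_det_ne h0 i0
  have hb0 := c3cb_eq h0 i0
  have hker0 : (c3cS x0).mulVec b0 = 0 := by
    ext i
    rw [← c3c_ker_eq]
    exact h0.ker i
  obtain ⟨hG0, hd0⟩ := c3c_partner_monic (x := x0) (c3c_sumsq h0.inj h0.sum hker0)
  have rA : Reg x0 (fun x => (c3cA i0 x).det) := Reg.det fun i j => c3c_reg_A h0.inj i0 i j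
  have rb : ∀ i, Reg x0 (fun x => c3cb i0 x i) := by
    intro i
    unfold c3cb
    refine Reg.div (Reg.det fun k l => ?_) rA hA0
    simp only [Matrix.updateCol_apply]
    split_ifs
    · exact Reg.const _
    · exact c3c_reg_A h0.inj i0 k l
  have rG : RegPoly x0 (fun x => partner x (c3cb i0 x)) := c3c_regPoly_partner rb
  have rsep : Reg x0 (fun x => (partner x (c3cb i0 x)).resultant
      (derivative (partner x (c3cb i0 x))) m (m - 1)) :=
    c3c_reg_resultant rG rG.derivative _ _
  have rnd := c3c_reg_nd 1 rG m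
  have rnd2 := c3c_reg_nd (2 * X) rG m
  have rzero : Reg x0 (fun x => (partner x (c3cb i0 x)).coeff 0) := rG 0
  have rdiff : Reg x0 (fun x => ∏ p ∈ (Finset.univ : Finset (ι × ι)).filter (fun p => p.1 ≠ p.2),
      (x p.1 - x p.2)) := Reg.prod _ fun p _ => Reg.sub (Reg.proj _) (Reg.proj _)
  have rprod : Reg x0 (fun x => ∏ i, c3cb i0 x i) := Reg.prod _ fun i _ => rb i
  have hω1 : (1 : L[X]).natDegree ≤ 1 := by simp
  have hω2 : (2 * X : L[X]).natDegree ≤ 1 := by compute_degree
  have h00 : (c3cA i0 x0).det * ((partner x0 (c3cb i0 x0)).resultant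
      (derivative (partner x0 (c3cb i0 x0))) m (m - 1) *
      ((ndMat 1 (partner x0 (c3cb i0 x0)) m).det * ((ndMat (2 * X) (partner x0 (c3cb i0 x0)) m).det
        * ((partner x0 (c3cb i0 x0)).coeff 0 *
        ((∏ p ∈ (Finset.univ : Finset (ι × ι)).filter (fun p => p.1 ≠ p.2), (x0 p.1 - x0 p.2)) *
        ∏ i, c3cb i0 x0 i))))) ≠ 0 := by
      rw [hb0]
      refine mul_ne_zero hA0 (mul_ne_zero ?_ (mul_ne_zero ?_ (mul_ne_zero ?_
        (mul_ne_zero ?_ (mul_ne_zero ?_ ?_)))))
      · exact (c3c_sep_iff hG0 hd0).1 h0.sep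
      · exact (nonDeg_iff_det hω1 hG0 hd0).1 h0.nd
      · exact (nonDeg_iff_det hω2 hG0 hd0).1 h0.nd2
      · rw [coeff_zero_eq_eval_zero]; exact h0.zero
      · rw [Finset.prod_ne_zero_iff]
        intro p hp
        rw [Finset.mem_filter] at hp
        exact sub_ne_zero.2 fun e => hp.2 (h0.inj e)
      · rw [Finset.prod_ne_zero_iff]
        intro i _
        exact h0.ne i
  obtain ⟨Φ, hΦ0, hΦ⟩ := Reg.exists_poly
    (rA.mul (rsep.mul (rnd.mul (rnd2.mul (rzero.mul (rdiff.mul rprod)))))) h00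
  refine ⟨Φ, hΦ0, fun x hx => ⟨c3cb i0 x, ?_⟩⟩
  have h := hΦ x hx
  simp only [mul_ne_zero_iff, Finset.prod_ne_zero_iff] at h
  obtain ⟨h1, h2, h3, h4, h5, h6, h7⟩ := h
  have hinj : Function.Injective x := by
    intro i j hij
    by_contra hne
    exact h6 (i, j) (Finset.mem_filter.2 ⟨Finset.mem_univ _, hne⟩) (sub_eq_zero.2 hij)
  have hker := c3cb_ker hodd h1
  have hsum := c3cb_sum h1
  obtain ⟨hG, hd⟩ := c3c_partner_monic (x := x) (c3c_sumsq hinj hsum hker)
  refine ⟨hinj, fun i => h7 i (Finset.mem_univ i), hsum, ?_, ?_, ?_, ?_, ?_, ?_⟩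
  · intro i
    rw [c3c_ker_eq, hker]; rfl
  · intro c hc
    refine ⟨∑ j, c j, fun i => ?_⟩
    have := congrFun (c3cA_eq h1 (c := c) (fun i _ => by rw [← c3c_ker_eq]; exact hc i)) i
    rwa [Pi.smul_apply, smul_eq_mul] at this
  · exact (c3c_sep_iff hG hd).2 h2
  · exact (nonDeg_iff_det hω1 hG hd).2 h3
  · exact (nonDeg_iff_det hω2 hG hd).2 h4
  · rw [← coeff_zero_eq_eval_zero]; exact h5

end AnWA
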