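import Pool.Agent.H.MP_83e36b_nt.Defs
import Pool.Agent.H.MP_83e36b_nt.C3a
import Pool.Agent.H.MP_83e36b_nt.C3b
import Pool.Agent.H.MP_83e36b_nt.C3c

/-! Module C3d: generic_odd (already done).
-/

open Polynomial

namespace AnWA

theorem generic_odd {L : Type*} [Field L] [CharZero L] [IsAlgClosed L] (ι : Type*) [Fintype ι]
    [DecidableEq ι] (hodd : Odd (Fintype.card ι)) :
    ∃ Φ : MvPolynomial ι L, Φ ≠ 0 ∧ ∀ x, MvPolynomial.eval x Φ ≠ 0 →
      Function.Injective x ∧ ∃ (G H : L[X]) (t : L), OddDatum (rootPoly x) G H t := by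
  obtain ⟨x0, b0, h0⟩ := exists_oddKernel (L := L) (ι := ι) hodd
  obtain ⟨Φ, h1, h2⟩ := oddKernel_open hodd h0
  refine ⟨Φ, ?_, ?_⟩
  · rintro rfl
    simp at h1
  · intro x hx
    obtain ⟨b, hb⟩ := h2 x hx
    exact ⟨hb.inj, oddDatum_of_kernel hb⟩

end AnWA
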