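import Pool.Agent.H.MP_83e36b_nt.Defs

/-! Module D1: substitution X -> X^2 and translation of pencils. -/

open Polynomial

namespace AnWA

section D1aux

variable {K : Type*} [Field K]

theorem comp_ne_zero_of_natDegree_pos {p e : K[X]} (he : 0 < e.natDegree) (hp : p ≠ 0) :
    p.comp e ≠ 0 := by
  intro h
  have h1 : (p.comp e).natDegree = p.natDegree * e.natDegree := natDegree_comp
  rw [h, natDegree_zero] at h1
  have h2 : p.natDegree = 0 := by
    rcases Nat.mul_eq_zero.mp h1.symm with h3 | h3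
    · exact h3
    · omega
  rw [natDegree_eq_zero] at h2
  obtain ⟨c, rfl⟩ := h2
  rw [C_comp] at h
  exact hp h

theorem comp_degree_lt {p G e : K[X]} (he : 0 < e.natDegree) (h : p.degree < G.degree) :
    (p.comp e).degree < (G.comp e).degree := by
  have hG : G ≠ 0 := by
    rintro rfl
    simp at h
  have hGe := comp_ne_zero_of_natDegree_pos he hG
  by_cases hp : p = 0
  · subst hp
    rw [zero_comp, degree_zero, bot_lt_iff_ne_bot, Ne, degree_eq_bot]
    exact hGe
  · have hpe := comp_ne_zero_of_natDegree_pos he hp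
    rw [degree_eq_natDegree hpe, degree_eq_natDegree hGe, natDegree_comp, natDegree_comp]
    rw [degree_eq_natDegree hp, degree_eq_natDegree hG] at h
    norm_cast at h ⊢
    exact Nat.mul_lt_mul_of_pos_right h he

theorem comp_dvd_comp {p q : K[X]} (e : K[X]) (h : p ∣ q) : p.comp e ∣ q.comp e := by
  obtain ⟨c, rfl⟩ := h
  exact ⟨c.comp e, mul_comp p c e⟩

theorem isCoprime_comp {p q : K[X]} (e : K[X]) (h : IsCoprime p q) :
    IsCoprime (p.comp e) (q.comp e) := by
  obtain ⟨a, b, hab⟩ := h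
  refine ⟨a.comp e, b.comp e, ?_⟩
  rw [← mul_comp, ← mul_comp, ← add_comp, hab, one_comp]

theorem isCoprime_X_of_eval {p : K[X]} (h : p.eval 0 ≠ 0) : IsCoprime p X := by
  rw [isCoprime_comm, irreducible_X.coprime_iff_not_dvd, X_dvd_iff, coeff_zero_eq_eval_zero]
  exact h

theorem coeff_comp_X_sq (p : K[X]) (n : ℕ) :
    (p.comp (X ^ 2)).coeff n = if 2 ∣ n then p.coeff (n / 2) else 0 := by
  rw [← expand_eq_comp_X_pow, coeff_expand (by norm_num)]

theorem coeff_comp_X_sq_even (p : K[X]) (n : ℕ) :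
    (p.comp (X ^ 2)).coeff (2 * n) = p.coeff n := by
  rw [coeff_comp_X_sq]; simp

theorem coeff_comp_X_sq_odd (p : K[X]) (n : ℕ) :
    (p.comp (X ^ 2)).coeff (2 * n + 1) = 0 := by
  rw [coeff_comp_X_sq, if_neg (by omega)]

theorem coeff_X_mul_comp_X_sq_even (p : K[X]) (n : ℕ) :
    (X * p.comp (X ^ 2)).coeff (2 * n) = 0 := by
  rcases n with _ | n
  · simp
  · rw [show 2 * (n + 1) = (2 * n + 1) + 1 by ring, coeff_X_mul, coeff_comp_X_sq_odd]

theorem coeff_X_mul_comp_X_sq_odd (p : K[X]) (n : ℕ) :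
    (X * p.comp (X ^ 2)).coeff (2 * n + 1) = p.coeff n := by
  rw [coeff_X_mul, coeff_comp_X_sq_even]

theorem exists_even_odd (w : K[X]) :
    ∃ A B : K[X], w = A.comp (X ^ 2) + X * B.comp (X ^ 2) := by
  induction w using Polynomial.induction_on' with
  | add p q hp hq =>
    obtain ⟨A, B, h1⟩ := hp
    obtain ⟨A', B', h2⟩ := hq
    refine ⟨A + A', B + B', ?_⟩
    rw [add_comp, add_comp, h1, h2]; ring
  | monomial n a =>
    rcases Nat.even_or_odd' n with ⟨m, rfl | rfl⟩
    · refine ⟨C a * X ^ m, 0, ?_⟩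
      rw [← C_mul_X_pow_eq_monomial]
      simp [pow_mul]
    · refine ⟨0, C a * X ^ m, ?_⟩
      rw [← C_mul_X_pow_eq_monomial]
      simp only [zero_comp, mul_comp, C_comp, pow_comp, X_comp, pow_succ, pow_mul]
      ring

theorem even_odd_unique {A B A' B' : K[X]}
    (h : A.comp (X ^ 2) + X * B.comp (X ^ 2) = A'.comp (X ^ 2) + X * B'.comp (X ^ 2)) :
    A = A' ∧ B = B' := by
  constructor
  · ext n
    have := congrArg (fun p => coeff p (2 * n)) h
    simpa [coeff_add, coeff_comp_X_sq_even, coeff_X_mul_comp_X_sq_even] using this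
  · ext n
    have := congrArg (fun p => coeff p (2 * n + 1)) h
    simp only [coeff_add, coeff_comp_X_sq_odd, coeff_X_mul_comp_X_sq_odd, zero_add] at this
    exact this

theorem dOp_comp_even (G A : K[X]) :
    dOp (2 * X) (G.comp (X ^ 2)) (A.comp (X ^ 2)) = 8 * X ^ 3 * (dOp 1 G A).comp (X ^ 2) := by
  unfold dOp
  have h2 : ((2 : K[X]).comp (X ^ 2)) = 2 := by
    rw [ofNat_comp]; rfl
  have hC2 : (C (2 : K) : K[X]) = 2 := map_ofNat C 2
  simp only [derivative_comp, derivative_mul, derivative_X, derivative_X_pow, derivative_one,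
    sub_comp, add_comp, mul_comp, one_comp, zero_comp, derivative_ofNat, h2]
  norm_num [hC2]
  ring

theorem dOp_comp_odd (G B : K[X]) :
    dOp (2 * X) (G.comp (X ^ 2)) (X * B.comp (X ^ 2))
      = 4 * X ^ 2 * (dOp (2 * X) G B).comp (X ^ 2) := by
  unfold dOp
  have h2 : ((2 : K[X]).comp (X ^ 2)) = 2 := by
    rw [ofNat_comp]; rfl
  have hC2 : (C (2 : K) : K[X]) = 2 := map_ofNat C 2
  simp only [derivative_comp, derivative_mul, derivative_X, derivative_X_pow, derivative_one,
    sub_comp, add_comp, mul_comp, one_comp, zero_comp, derivative_ofNat, h2, X_comp]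
  norm_num [hC2]
  ring

theorem dOp_add (ω q w w' : K[X]) : dOp ω q (w + w') = dOp ω q w + dOp ω q w' := by
  unfold dOp; rw [derivative_add]; ring

theorem wr_comp_sq (P G : K[X]) :
    wr (P.comp (X ^ 2)) (G.comp (X ^ 2)) = 2 * X * (wr P G).comp (X ^ 2) := by
  unfold wr
  have hC2 : (C (2 : K) : K[X]) = 2 := map_ofNat C 2
  simp only [derivative_comp, derivative_X_pow, sub_comp, mul_comp]
  norm_num [hC2]
  ring

theorem form_one {G H P : K[X]} (pen : Pencil 1 G H P) :
    ∃ r : K[X], r.degree < G.degree ∧ P = X * G + r := by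
  obtain ⟨r, hr, h⟩ := pen.form
  refine ⟨r, hr, ?_⟩
  rw [h]
  simp [coeff_one]

end D1aux

theorem base_pencil {K : Type*} [Field K] [CharZero K] {G H P : K[X]} (pen : Pencil 1 G H P)
    (h0 : G.eval 0 ≠ 0) :
    Pencil (2 * X) (G.comp (X ^ 2)) (H.comp (X ^ 2)) (P.comp (X ^ 2)) := by
  have he : 0 < (X ^ 2 : K[X]).natDegree := by simp
  have hu2 : IsUnit (2 : K[X]) := by
    have : (2 : K[X]) = C 2 := (map_ofNat C 2).symm
    rw [this, isUnit_C]
    exact isUnit_iff_ne_zero.mpr two_ne_zero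
  have hcX : IsCoprime (G.comp (X ^ 2)) X := by
    apply isCoprime_X_of_eval
    rw [eval_comp]; simpa using h0
  refine ⟨?_, ?_, ?_, ?_, ?_, ?_⟩
  · exact pen.monic.comp (monic_X_pow 2) (by simp)
  · have h1 := isCoprime_comp (X ^ 2) pen.sep
    unfold Separable
    rw [derivative_comp]
    apply IsCoprime.mul_right
    · rw [derivative_X_pow]
      norm_num
      exact IsCoprime.mul_right (isCoprime_one_right.of_isCoprime_of_dvd_right
        (isUnit_iff_dvd_one.mp hu2)) hcX
    · exact h1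
  · rw [← sub_comp]
    exact comp_degree_lt he pen.hdeg
  · rw [dOp_comp_even]
    exact Dvd.dvd.mul_left (comp_dvd_comp _ pen.hD) _
  · obtain ⟨r, hr, h⟩ := form_one pen
    refine ⟨r.comp (X ^ 2), comp_degree_lt he hr, ?_⟩
    have hκ : (H.comp (X ^ 2) - G.comp (X ^ 2)).coeff ((G.comp (X ^ 2)).natDegree - 1) = 0 := by
      rw [natDegree_comp, natDegree_X_pow, ← sub_comp]
      rcases Nat.eq_zero_or_pos G.natDegree with h1 | h1
      · have h2 : (H - G) = 0 := by
          have := pen.hdeg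
          rw [degree_eq_natDegree pen.monic.ne_zero, h1] at this
          rw [← degree_eq_bot]
          exact Nat.WithBot.lt_zero_iff.mp (by simpa using this)
        rw [h2]; simp
      · rw [show G.natDegree * 2 - 1 = 2 * (G.natDegree - 1) + 1 by omega, coeff_comp_X_sq_odd]
    rw [hκ, h, add_comp, mul_comp, X_comp]
    have e1 : (2 * X : K[X]).coeff 1 = 2 := by
      rw [coeff_ofNat_mul]; simp
    have e0 : (2 * X : K[X]).coeff 0 = 0 := by
      rw [coeff_ofNat_mul]; simp
    rw [e1, e0]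
    simp
  · rw [wr_comp_sq, pen.wr_eq]
    simp

theorem base_nonDeg {K : Type*} [Field K] [CharZero K] {G : K[X]}
    (nd : NonDeg 1 G) (nd2 : NonDeg (2 * X) G) (h0 : G.eval 0 ≠ 0) :
    NonDeg (2 * X) (G.comp (X ^ 2)) := by
  intro w hw hdvd
  have hG : G ≠ 0 := by rintro rfl; simp at h0
  have hcX : IsCoprime (G.comp (X ^ 2)) X := by
    apply isCoprime_X_of_eval
    rw [eval_comp]; simpa using h0
  obtain ⟨A, B, rfl⟩ := exists_even_odd w
  have hdeg : (G.comp (X ^ 2)).degree = ((2 * G.natDegree : ℕ) : WithBot ℕ) := by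
    rw [degree_eq_natDegree (comp_ne_zero_of_natDegree_pos (by simp) hG), natDegree_comp,
      natDegree_X_pow, mul_comm]
  rw [hdeg, degree_lt_iff_coeff_zero] at hw
  have hA : A.degree < G.degree := by
    rw [degree_eq_natDegree hG, degree_lt_iff_coeff_zero]
    intro n hn
    have := hw (2 * n) (by omega)
    rwa [coeff_add, coeff_comp_X_sq_even, coeff_X_mul_comp_X_sq_even, add_zero] at this
  have hB : B.degree < G.degree := by
    rw [degree_eq_natDegree hG, degree_lt_iff_coeff_zero]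
    intro n hn
    have := hw (2 * n + 1) (by omega)
    rwa [coeff_add, coeff_comp_X_sq_odd, coeff_X_mul_comp_X_sq_odd, zero_add] at this
  rw [dOp_add, dOp_comp_even, dOp_comp_odd] at hdvd
  have h1 : 8 * X ^ 3 * (dOp 1 G A).comp (X ^ 2) + 4 * X ^ 2 * (dOp (2 * X) G B).comp (X ^ 2)
      = X ^ 2 * ((C 4 * dOp (2 * X) G B).comp (X ^ 2) + X * (C 8 * dOp 1 G A).comp (X ^ 2)) := by
    rw [mul_comp, mul_comp, C_comp, C_comp]
    have e4 : (C (4 : K) : K[X]) = 4 := map_ofNat C 4
    have e8 : (C (8 : K) : K[X]) = 8 := map_ofNat C 8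
    rw [e4, e8]
    ring
  rw [h1] at hdvd
  have h2 := (hcX.pow_right (n := 2)).dvd_of_dvd_mul_left hdvd
  obtain ⟨s, hs⟩ := h2
  obtain ⟨S0, S1, rfl⟩ := exists_even_odd s
  have h3 : (C 4 * dOp (2 * X) G B).comp (X ^ 2) + X * (C 8 * dOp 1 G A).comp (X ^ 2)
      = (G * S0).comp (X ^ 2) + X * (G * S1).comp (X ^ 2) := by
    rw [hs, mul_comp, mul_comp]; ring
  obtain ⟨h4, h5⟩ := even_odd_unique h3
  have hu4 : IsUnit (C (4 : K)) := isUnit_C.mpr (isUnit_iff_ne_zero.mpr (by norm_num))
  have hu8 : IsUnit (C (8 : K)) := isUnit_C.mpr (isUnit_iff_ne_zero.mpr (by norm_num))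
  have hB0 : B = 0 := nd2 B hB ((hu4.dvd_mul_left).mp ⟨S0, h4⟩)
  have hA0 : A = 0 := nd A hA ((hu8.dvd_mul_left).mp ⟨S1, h5⟩)
  rw [hA0, hB0]; simp

theorem dOp_comp_shift {K : Type*} [Field K] (G A : K[X]) (t : K) :
    dOp 1 (G.comp (X + C t)) (A.comp (X + C t)) = (dOp 1 G A).comp (X + C t) := by
  unfold dOp
  have h2 : ((2 : K[X]).comp (X + C t)) = 2 := by
    rw [ofNat_comp]; rfl
  simp only [derivative_comp, derivative_mul, derivative_X, derivative_add, derivative_C,
    derivative_one, sub_comp, add_comp, mul_comp, one_comp, zero_comp, h2]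
  norm_num

/-- translation of a pencil of weight one -/
theorem pencil_shift {K : Type*} [Field K] [CharZero K] {g G H : K[X]} {t : K}
    (pen : Pencil 1 G H (g + C t * G)) :
    Pencil 1 (G.comp (X + C t)) (H.comp (X + C t)) (g.comp (X + C t)) := by
  have he : 0 < (X + C t : K[X]).natDegree := by simp
  refine ⟨?_, ?_, ?_, ?_, ?_, ?_⟩
  · exact pen.monic.comp (monic_X_add_C t) (by simp)
  · have h1 := isCoprime_comp (X + C t) pen.sep
    unfold Separable
    rw [derivative_comp]
    simpa using h1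
  · rw [← sub_comp]
    exact comp_degree_lt he pen.hdeg
  · rw [dOp_comp_shift]
    exact comp_dvd_comp _ pen.hD
  · obtain ⟨r, hr, h⟩ := form_one pen
    refine ⟨r.comp (X + C t), comp_degree_lt he hr, ?_⟩
    have hg : g = X * G + r - C t * G := by rw [← h]; ring
    have h2 : g.comp (X + C t) = X * G.comp (X + C t) + r.comp (X + C t) := by
      rw [hg, sub_comp, add_comp, mul_comp, mul_comp, X_comp, C_comp]; ring
    rw [h2]
    simp [coeff_one]
  · have h1 : wr (g.comp (X + C t)) (G.comp (X + C t)) = (wr (g + C t * G) G).comp (X + C t) := by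
      unfold wr
      simp only [derivative_comp, derivative_add, derivative_mul, derivative_C, derivative_X,
        sub_comp, mul_comp, add_comp, C_comp, zero_comp]
      ring
    rw [h1, pen.wr_eq]
    simp

theorem nonDeg_shift {K : Type*} [Field K] [CharZero K] {G : K[X]} (nd : NonDeg 1 G) (t : K) :
    NonDeg 1 (G.comp (X + C t)) := by
  intro w hw hdvd
  have hcc : ∀ p : K[X], (p.comp (X - C t)).comp (X + C t) = p := by
    intro p
    rw [comp_assoc]; simp
  have hcc' : ∀ p : K[X], (p.comp (X + C t)).comp (X - C t) = p := by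
    intro p
    rw [comp_assoc]; simp
  have h1 := comp_degree_lt (e := X - C t) (by simp) hw
  rw [hcc'] at h1
  rw [← hcc w, dOp_comp_shift] at hdvd
  have h2 := comp_dvd_comp (X - C t) hdvd
  rw [hcc', hcc'] at h2
  have h3 := nd _ h1 h2
  rw [← hcc w, h3, zero_comp]

end AnWA
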