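import Pool.Agent.H.MP_83e36b_nt.Defs
import Pool.Agent.H.MP_83e36b_nt.A1b
import Pool.Agent.H.MP_83e36b_nt.C1
import Pool.Agent.H.MP_83e36b_nt.C2a
import Pool.Agent.H.MP_83e36b_nt.C3d
import Pool.Agent.H.MP_83e36b_nt.D1

/-! Module S1: base_exists: the base datum.

PROOF. Z=Y.image(·²), Galois stable, 0∉Z, odd. ι={z // z∈Z}. Φ from generic_odd ι. Ψ := bind₁ (fun ζ => C ζ * X ζ ^ 2) Φ * ∏ X ζ ∈ MvPolynomial ι L is nonzero (L algebraically closed: from a point with Φ≠0 [and the coordinates may be 0: first note Φ·∏X ζ ≠ 0 so take a point where all coordinates and Φ are nonzero] take s_ζ with s_ζ²=x_ζ/ζ). exists_equivariant (ξ=Subtype.val): κ∈F[X] with κ(ζ)≠0 and x_ζ:=ζκ(ζ)² satisfying generic_odd: x injective, OddDatum (rootPoly x) G H t. Equivariance: x_{σζ}=σ(x_ζ), so rootPoly x is Galois invariant; by uniq (apply σ: pencil_map, IsCoprime.map) G,H,t are invariant: descend (C1) to G_F,H_F,t_F, and g_F (rootPoly x = g_F.map). pencil_of_map gives Pencil 1 G_F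 H_F (g_F+C t_F G_F).
q=G_F.comp(X²), h=H_F.comp(X²), P=(g_F+C t G_F).comp(X²), m=X*κ.comp(X²) (m(y)=yκ(y²)), t. base_pencil, base_nonDeg (over L; comp commutes with map). natDegree q=2(|Z|-1) and |Y|=2|Z| (y↦y² is 2-to-1 on Y: y and -y distinct, both in Y). IsCoprime q h from IsCoprime G H (OddDatum.facts) by comp. q(0)=G(0)≠0. For y∈Y: (P-tq)(m(y))=g(m(y)²)=g(x_{y²})=0; q(m(y))=G(x_{y²})≠0 (cop); h(m(y))=H(x_{y²})≠0 (facts; g'(x)≠0 since roots distinct). InjOn: m(y)²=x_{y²} injective in y², then y²=y'² and m(y)=m(y') give y=y'.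
-/

open Polynomial

namespace AnWA

variable {F L : Type*} [Field F] [CharZero F] [Field L] [Algebra F L] [IsAlgClosed L]
  [IsGalois F L] [DecidableEq L]

omit [CharZero F] [IsAlgClosed L] [IsGalois F L] [DecidableEq L] in
/-- the action of an automorphism on a stable finite set -/
theorem exists_perm {Z : Finset L} (hZ : ∀ σ : L ≃ₐ[F] L, ∀ z ∈ Z, σ z ∈ Z) (σ : L ≃ₐ[F] L) :
    ∃ e : {z // z ∈ Z} ≃ {z // z ∈ Z}, ∀ z, ((e z : {z // z ∈ Z}) : L) = σ z := by
  let f : {z // z ∈ Z} → {z // z ∈ Z} := fun z => ⟨σ z, hZ σ z z.2⟩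
  have hf : Function.Injective f := by
    intro a b hab
    have : σ (a : L) = σ (b : L) := congrArg Subtype.val hab
    exact Subtype.ext (σ.injective this)
  exact ⟨Equiv.ofBijective f (Finite.injective_iff_bijective.1 hf), fun z => rfl⟩

omit [IsGalois F L] in
/-- the generic odd datum at the points `ζ κ(ζ)²`, `ζ ∈ Z` -/
theorem odd_point (Z : Finset L) (h0 : ∀ z ∈ Z, z ≠ 0) (hodd : Odd Z.card) :
    ∃ κ : F[X], (∀ z ∈ Z, aeval z κ ≠ 0) ∧
      Function.Injective (fun z : {z // z ∈ Z} => (z : L) * (aeval (z : L) κ) ^ 2) ∧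
      ∃ (G H : L[X]) (t : L),
        OddDatum (rootPoly fun z : {z // z ∈ Z} => (z : L) * (aeval (z : L) κ) ^ 2) G H t := by
  have hch : CharZero L := charZero_of_injective_algebraMap (algebraMap F L).injective
  obtain ⟨Φ, hΦ, hgen⟩ := generic_odd (L := L) {z // z ∈ Z} (by rwa [Fintype.card_coe])
  let Ψ : MvPolynomial {z // z ∈ Z} L :=
    MvPolynomial.bind₁ (fun z : {z // z ∈ Z} =>
      MvPolynomial.C (z : L) * MvPolynomial.X z ^ 2) Φ * ∏ z, MvPolynomial.X z
  have hev : ∀ s : {z // z ∈ Z} → L, MvPolynomial.eval s Ψ =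
      MvPolynomial.eval (fun z : {z // z ∈ Z} => (z : L) * s z ^ 2) Φ *
        ∏ z : {z // z ∈ Z}, s z := by
    intro s
    simp only [Ψ, map_mul, map_prod, MvPolynomial.eval_X]
    congr 1
    rw [← MvPolynomial.coe_aeval_eq_eval, ← MvPolynomial.coe_aeval_eq_eval]
    change MvPolynomial.aeval s (MvPolynomial.bind₁ _ Φ) = MvPolynomial.aeval _ Φ
    rw [MvPolynomial.aeval_bind₁]
    simp
  have hΨ : Ψ ≠ 0 := by
    have h1 : Φ * ∏ z : {z // z ∈ Z}, MvPolynomial.X z ≠ 0 :=
      mul_ne_zero hΦ (Finset.prod_ne_zero_iff.2 fun z _ => MvPolynomial.X_ne_zero z)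
    obtain ⟨x, hx⟩ : ∃ x, MvPolynomial.eval x (Φ * ∏ z : {z // z ∈ Z}, MvPolynomial.X z) ≠ 0 := by
      by_contra hcon
      push Not at hcon
      exact h1 (MvPolynomial.funext fun x => by rw [hcon x, map_zero])
    rw [map_mul, map_prod] at hx
    simp only [MvPolynomial.eval_X] at hx
    have hs : ∀ z : {z // z ∈ Z}, ∃ s : L, s ^ 2 = x z / z := fun z =>
      IsAlgClosed.exists_pow_nat_eq _ (by norm_num)
    choose s hs using hs
    have hz : ∀ z : {z // z ∈ Z}, (z : L) * s z ^ 2 = x z := fun z => by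
      rw [hs, mul_div_cancel₀]
      exact h0 z z.2
    intro h2
    have h3 := hev s
    rw [h2, map_zero] at h3
    simp only [hz] at h3
    have h4 : ∏ z, s z ≠ 0 := by
      rw [Finset.prod_ne_zero_iff]
      intro z _ hsz
      have h5 := hz z
      rw [hsz] at h5
      have h6 : x z ≠ 0 := (Finset.prod_ne_zero_iff.1 (right_ne_zero_of_mul hx)) z
        (Finset.mem_univ z)
      apply h6
      rw [← h5]; ring
    exact (mul_ne_zero (left_ne_zero_of_mul hx) h4) h3.symm
  have hinfF : Infinite F := inferInstance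
  obtain ⟨κ, hκ⟩ := exists_equivariant (F := F) (Subtype.val : {z // z ∈ Z} → L)
    Subtype.val_injective Ψ hΨ
  rw [hev] at hκ
  obtain ⟨hinj, G, H, t, hdat⟩ := hgen _ (left_ne_zero_of_mul hκ)
  refine ⟨κ, ?_, hinj, G, H, t, hdat⟩
  intro z hz
  exact (Finset.prod_ne_zero_iff.1 (right_ne_zero_of_mul hκ)) ⟨z, hz⟩ (Finset.mem_univ _)

theorem base_exists (Y : Finset L) (hY : ∀ σ : L ≃ₐ[F] L, ∀ y ∈ Y, σ y ∈ Y)
    (h0 : ∀ y ∈ Y, y ≠ 0) (hneg : ∀ y ∈ Y, -y ∈ Y) (hodd : Odd (Y.image (fun y => y ^ 2)).card) :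
    ∃ (q h P m : F[X]) (t : F), Pencil (2 * X) q h P ∧
      NonDeg (2 * X) (q.map (algebraMap F L)) ∧ q.natDegree + 2 = Y.card ∧ IsCoprime q h ∧
      q.eval 0 ≠ 0 ∧
      (∀ y ∈ Y, aeval y m ≠ 0 ∧ aeval (aeval y m) (P - C t * q) = 0 ∧
        aeval (aeval y m) q ≠ 0 ∧ aeval (aeval y m) h ≠ 0) ∧
      Set.InjOn (fun y => aeval y m) (Y : Set L) := by
  have hch : CharZero L := charZero_of_injective_algebraMap (algebraMap F L).injective
  set Z := Y.image (fun y => y ^ 2) with hZdef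
  have hZmem : ∀ {y}, y ∈ Y → y ^ 2 ∈ Z := fun {y} hy => Finset.mem_image_of_mem _ hy
  have hZ : ∀ σ : L ≃ₐ[F] L, ∀ z ∈ Z, σ z ∈ Z := by
    intro σ z hz
    obtain ⟨y, hy, rfl⟩ := Finset.mem_image.1 hz
    rw [map_pow]
    exact hZmem (hY σ y hy)
  have hZ0 : ∀ z ∈ Z, z ≠ 0 := by
    intro z hz
    obtain ⟨y, hy, rfl⟩ := Finset.mem_image.1 hz
    exact pow_ne_zero 2 (h0 y hy)
  obtain ⟨κ, hκ, hinj, G, H, t, hdat⟩ := odd_point (F := F) Z hZ0 hodd
  set x : {z // z ∈ Z} → L := fun z => (z : L) * (aeval (z : L) κ) ^ 2 with hx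
  -- Galois invariance
  have hroot : ∀ σ : L ≃ₐ[F] L, (rootPoly x).map (σ : L →+* L) = rootPoly x := by
    intro σ
    obtain ⟨e, he⟩ := exists_perm hZ σ
    unfold rootPoly
    rw [Polynomial.map_prod, ← Equiv.prod_comp e (fun i => X - C (x i))]
    refine Finset.prod_congr rfl fun z _ => ?_
    rw [Polynomial.map_sub, Polynomial.map_X, Polynomial.map_C]
    congr 2
    simp only [hx, he]
    have : aeval (σ (z : L)) κ = σ (aeval (z : L) κ) := aeval_algHom_apply σ.toAlgHom (z : L) κ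
    rw [this]
    simp
  have hinv : ∀ σ : L ≃ₐ[F] L, G.map (σ : L →+* L) = G ∧ H.map (σ : L →+* L) = H ∧ σ t = t := by
    intro σ
    have h1 := pencil_map (σ : L →+* L) hdat.pen
    rw [Polynomial.map_one, Polynomial.map_add, Polynomial.map_mul, Polynomial.map_C,
      hroot σ] at h1
    have h2 : IsCoprime (rootPoly x) (G.map (σ : L →+* L)) := by
      have := hdat.cop.map (Polynomial.mapRingHom (σ : L →+* L))
      simpa [hroot σ] using this
    exact hdat.uniq _ _ _ h1 h2
  obtain ⟨GF, hGF⟩ := descend_poly (F := F) (p := G) fun σ => (hinv σ).1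
  obtain ⟨HF, hHF⟩ := descend_poly (F := F) (p := H) fun σ => (hinv σ).2.1
  obtain ⟨tF, htF⟩ := descend_elem (F := F) (x := t) fun σ => (hinv σ).2.2
  obtain ⟨gF, hgF⟩ := descend_poly (F := F) (p := rootPoly x) hroot
  have hfacts := hdat.facts
  -- basic data over F
  have hpen : Pencil 1 GF HF (gF + C tF * GF) := by
    apply pencil_of_map (algebraMap F L)
    rw [Polynomial.map_one, Polynomial.map_add, Polynomial.map_mul, Polynomial.map_C, hGF, hHF,
      htF, hgF]
    exact hdat.pen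
  have hG0 : GF.eval 0 ≠ 0 := by
    intro h1
    apply hdat.zero
    rw [← hGF, ← map_zero (algebraMap F L), Polynomial.eval_map_algebraMap,
      Polynomial.aeval_algebraMap_apply, Polynomial.coe_aeval_eq_eval, h1, map_zero]
  have haev : ∀ (p : F[X]) (z : L), aeval z p = (p.map (algebraMap F L)).eval z := fun p z => by
    rw [Polynomial.eval_map_algebraMap]
  -- values of m
  have hm : ∀ y : L, aeval y (X * κ.comp (X ^ 2)) = y * aeval (y ^ 2) κ := by
    intro y
    rw [map_mul, aeval_X, Polynomial.aeval_comp, map_pow, aeval_X]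
  have hm2 : ∀ (y : L) (hy : y ∈ Y), (aeval y (X * κ.comp (X ^ 2))) ^ 2 =
      x ⟨y ^ 2, hZmem hy⟩ := by
    intro y hy
    rw [hm, hx]
    ring
  have hroot0 : ∀ z, (rootPoly x).eval (x z) = 0 := by
    intro z
    unfold rootPoly
    rw [Polynomial.eval_prod]
    exact Finset.prod_eq_zero (Finset.mem_univ z) (by simp)
  have hsep : (rootPoly x).Separable := by
    unfold rootPoly
    exact Polynomial.separable_prod_X_sub_C_iff.2 hinj
  have hder : ∀ z, (derivative (rootPoly x)).eval (x z) ≠ 0 := by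
    intro z
    have := hsep.eval₂_derivative_ne_zero (RingHom.id L) (x := x z) (by
      rw [Polynomial.eval₂_id]; exact hroot0 z)
    rwa [Polynomial.eval₂_id] at this
  refine ⟨GF.comp (X ^ 2), HF.comp (X ^ 2), (gF + C tF * GF).comp (X ^ 2), X * κ.comp (X ^ 2), tF,
    base_pencil hpen hG0, ?_, ?_, ?_, ?_, ?_, ?_⟩
  · rw [Polynomial.map_comp, Polynomial.map_pow, Polynomial.map_X, hGF]
    exact base_nonDeg hdat.nd hdat.nd2 hdat.zero
  · -- degrees
    rw [Polynomial.natDegree_comp, Polynomial.natDegree_X_pow]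
    have h1 : GF.natDegree = G.natDegree := by rw [← hGF, Polynomial.natDegree_map]
    have h2 : (rootPoly x).natDegree = Z.card := by
      unfold rootPoly
      rw [Polynomial.natDegree_prod_of_monic _ _ (fun i _ => Polynomial.monic_X_sub_C _)]
      simp
    have h3 : Y.card = 2 * Z.card := by
      rw [Finset.card_eq_sum_card_image (fun y => y ^ 2) Y, ← hZdef,
        Finset.sum_const_nat (m := 2), mul_comm]
      intro z hz
      obtain ⟨y, hy, rfl⟩ := Finset.mem_image.1 hz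
      have h4 : (Y.filter fun a => a ^ 2 = y ^ 2) = {y, -y} := by
        ext a
        simp only [Finset.mem_filter, Finset.mem_insert, Finset.mem_singleton]
        constructor
        · rintro ⟨_, h5⟩
          exact sq_eq_sq_iff_eq_or_eq_neg.1 h5
        · rintro (rfl | rfl)
          · exact ⟨hy, rfl⟩
          · exact ⟨hneg y hy, by ring⟩
      rw [h4, Finset.card_pair]
      intro h5
      have h6 : y + y = 0 := by nth_rewrite 2 [h5]; ring
      have h7 : y = 0 := by
        have : (2 : L) * y = 0 := by rw [two_mul]; exact h6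
        exact (mul_eq_zero.1 this).resolve_left two_ne_zero
      exact h0 y hy h7
    have h4 := hfacts.1
    rw [h1, h3]
    rw [h2] at h4
    omega
  · -- coprime
    have h1 : IsCoprime GF HF := by
      rw [← Polynomial.isCoprime_map (algebraMap F L), hGF, hHF]
      exact hfacts.2.1
    have := h1.map (Polynomial.compRingHom (X ^ 2))
    simpa using this
  · rw [Polynomial.eval_comp]
    simpa using hG0
  · intro y hy
    have hval : ∀ p : F[X], aeval (aeval y (X * κ.comp (X ^ 2))) (p.comp (X ^ 2)) =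
        (p.map (algebraMap F L)).eval (x ⟨y ^ 2, hZmem hy⟩) := by
      intro p
      rw [Polynomial.aeval_comp, map_pow, aeval_X, hm2 y hy, haev]
    have hxz := hroot0 ⟨y ^ 2, hZmem hy⟩
    refine ⟨?_, ?_, ?_, ?_⟩
    · rw [hm]
      exact mul_ne_zero (h0 y hy) (hκ _ (hZmem hy))
    · have h1 : (gF + C tF * GF).comp (X ^ 2) - C tF * GF.comp (X ^ 2) = gF.comp (X ^ 2) := by
        rw [Polynomial.add_comp, Polynomial.mul_comp, Polynomial.C_comp]
        ring
      rw [h1, hval, hgF, hxz]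
    · rw [hval, hGF]
      intro h1
      obtain ⟨a, b, hab⟩ := hdat.cop
      have h2 := congrArg (Polynomial.eval (x ⟨y ^ 2, hZmem hy⟩)) hab
      rw [Polynomial.eval_add, Polynomial.eval_mul, Polynomial.eval_mul, hxz, h1,
        Polynomial.eval_one] at h2
      simp at h2
    · rw [hval, hHF]
      exact hfacts.2.2.2 _ hxz (hder _)
  · intro y hy y' hy' hyy
    simp only at hyy
    have h1 : x ⟨y ^ 2, hZmem hy⟩ = x ⟨y' ^ 2, hZmem hy'⟩ := by
      rw [← hm2 y hy, ← hm2 y' hy', hyy]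
    have h2 : y ^ 2 = y' ^ 2 := congrArg Subtype.val (hinj h1)
    rw [hm, hm, h2] at hyy
    exact mul_right_cancel₀ (hκ _ (hZmem hy')) hyy

end AnWA
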