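import Pool.Agent.H.MP_83e36b_nt.Defs
import Pool.Agent.H.MP_83e36b_nt.A1b
import Pool.Agent.H.MP_83e36b_nt.B1b
import Pool.Agent.H.MP_83e36b_nt.C1
import Pool.Agent.H.MP_83e36b_nt.C2a
import Pool.Agent.H.MP_83e36b_nt.C3d
import Pool.Agent.H.MP_83e36b_nt.D1

/-! Module S3: inner_exists: inner data on the fibres.

PROOF. For y∈Y=X1.image p let fibre_y={x∈X1 | p(x)=y} (odd). generic_odd on ι_y={x // x∈fibre_y} gives Φ_y≠0; rename it to MvPolynomial {x // x∈X1} L (rename along the injection keeps it nonzero), multiply over y∈Y; exists_equivariant gives ρ∈F[X] such that for every y the tuple x_i=ρ(i), i∈fibre_y, is injective and has an OddDatum g_y G_y H_y t_y with g_y=rootPoly=∏_{x∈fibre_y}(X-C(ρ x)). Choose (G_y,H_y,t_y) by choice, for every y. For σ: σ maps fibre_y bijectively onto fibre_{σy} and ρ(σx)=σρ(x), so g_{σy}=g_y^σ; applying σ to the datum of y and uniq of the datum of σy: G_{σy}=G_y^σ, H_{σy}=H_y^σ, t_{σy}=σ(t_y).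
c(x) := ρ(x) - t_{p(x)}; D(y) := roots (as a Finset) of G̃_y := G_y.comp(X + C t_y). Let H̃_y,g̃_y be the same translations of H_y, g_y. Cardinality: G̃_y separable, so card D(y)=deg G_y=deg g_y-1 (facts). GoodCluster: δ=Subtype.val on D(y) has rootPoly δ=G̃_y; pencil_shift gives Pencil 1 G̃ H̃ g̃, nonDeg_shift gives NonDeg; rootForm_of_pencil (B1b, ω=1: natDegree ≤ 1, eval ≠ 0) gives det≠0 and v with RootForm; v_i·G̃'(x_i)=H̃(x_i)≠0 (IsCoprime G H, facts), and any IsSol u equals v (det≠0). InnerRoot D(y) (c x) with y=p(x): c x∉D: G̃(c x)=G_y(ρ(x))≠0 (cop); with RootForm (u=v): phiVal(c x)·G̃(c x)=g̃(c x)=g_y(ρ x)=0 so phiVal=0; Hval(c x)·G̃(c x)=H̃(c x)=H_y(ρ x)≠0 (facts).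
-/

open Polynomial

namespace AnWA

section S3aux

variable {L : Type*} [Field L]

/-- an injective ring endomorphism transports odd data -/
theorem s3_equiv {g G H : L[X]} {t : L} (h : OddDatum g G H t) (σ : L →+* L)
    {G' H' : L[X]} {t' : L} (h' : OddDatum (g.map σ) G' H' t') :
    G.map σ = G' ∧ H.map σ = H' ∧ σ t = t' := by
  have h1 := pencil_map σ h.pen
  rw [Polynomial.map_one, Polynomial.map_add, Polynomial.map_mul, Polynomial.map_C] at h1
  have h2 : IsCoprime (g.map σ) (G.map σ) := h.cop.map (Polynomial.mapRingHom σ)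
  exact h'.uniq _ _ _ h1 h2

theorem s3_rootPoly_coe (s : Finset L) :
    rootPoly (Subtype.val : {z // z ∈ s} → L) = ∏ z ∈ s, (X - C z) := by
  unfold rootPoly
  exact Finset.prod_coe_sort s (fun z => X - C z)

theorem s3_roots_prod [IsAlgClosed L] [DecidableEq L] {q : L[X]} (hm : q.Monic)
    (hs : q.Separable) : ∏ z ∈ q.roots.toFinset, (X - C z) = q := by
  have hnd : q.roots.Nodup := nodup_roots hs
  have hsp : q.Splits := IsAlgClosed.splits q
  rw [Finset.prod_eq_multiset_prod, Multiset.toFinset_val, Multiset.dedup_eq_self.2 hnd]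
  exact (hsp.eq_prod_roots_of_monic hm).symm

theorem s3_sol_unique {ι : Type*} [Fintype ι] [DecidableEq ι] {ω : L[X]} {x u v : ι → L}
    (hdet : (sysMat ω x).det ≠ 0) (hu : IsSol ω x u) (hv : IsSol ω x v) : u = v := by
  have h1 : (sysMat ω x).mulVec (u - v) = 0 := by
    funext i
    rw [Matrix.mulVec_sub, Pi.sub_apply, hu i, hv i, sub_self, Pi.zero_apply]
  have h2 := Matrix.eq_zero_of_mulVec_eq_zero hdet h1
  exact sub_eq_zero.1 h2

theorem s3_eval_comp (q : L[X]) (t z : L) : (q.comp (X + C t)).eval z = q.eval (z + t) := by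
  rw [eval_comp, eval_add, eval_X, eval_C]

theorem s3_not_both {a b : L[X]} (h : IsCoprime a b) {z : L} (ha : a.eval z = 0) :
    b.eval z ≠ 0 := by
  intro hb
  obtain ⟨u, v, huv⟩ := h
  have := congrArg (Polynomial.eval z) huv
  rw [eval_add, eval_mul, eval_mul, ha, hb, mul_zero, mul_zero, add_zero, eval_one] at this
  exact zero_ne_one this

/-- all local statements about the inner datum -/
theorem s3_local [CharZero L] [IsAlgClosed L] [DecidableEq L] {g G H : L[X]} {t : L}
    (h : OddDatum g G H t) :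
    ((G.comp (X + C t)).roots.toFinset.card + 1 = g.natDegree) ∧
    GoodCluster ((G.comp (X + C t)).roots.toFinset) ∧
    ∀ z, g.eval z = 0 → (derivative g).eval z ≠ 0 →
      InnerRoot ((G.comp (X + C t)).roots.toFinset) (z - t) := by
  have pen := pencil_shift h.pen
  have nd := nonDeg_shift h.nd t
  have hprod := s3_roots_prod pen.monic pen.sep
  obtain ⟨f1, f2, -, f4⟩ := h.facts
  have hcard : (G.comp (X + C t)).roots.toFinset.card = G.natDegree := by
    have h1 : (G.comp (X + C t)).natDegree = G.natDegree := by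
      rw [natDegree_comp, natDegree_X_add_C, mul_one]
    rw [← h1]
    have h2 := congrArg Polynomial.natDegree hprod
    rw [← h2, Polynomial.natDegree_prod_of_monic _ _ (fun i _ => monic_X_sub_C i)]
    simp
  set D : Finset L := (G.comp (X + C t)).roots.toFinset with hD
  have hroot : rootPoly (Subtype.val : {z // z ∈ D} → L) = G.comp (X + C t) := by
    rw [s3_rootPoly_coe]
    exact hprod
  have hinj : Function.Injective (Subtype.val : {z // z ∈ D} → L) := Subtype.val_injective
  have hωx : ∀ i : {z // z ∈ D}, (1 : L[X]).eval (i : L) ≠ 0 := by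
    intro i
    rw [eval_one]
    exact one_ne_zero
  have hω : (1 : L[X]).natDegree ≤ 1 := by
    rw [natDegree_one]
    exact zero_le_one
  obtain ⟨hdet, v, hv, hrf⟩ := rootForm_of_pencil (ω := (1 : L[X])) hω hinj hωx
    (by rw [hroot]; exact nd) (h := H.comp (X + C t)) (P := g.comp (X + C t))
    (by rw [hroot]; exact pen)
  have hcop : IsCoprime (G.comp (X + C t)) (H.comp (X + C t)) := by
    obtain ⟨a, b, hab⟩ := f2
    refine ⟨a.comp (X + C t), b.comp (X + C t), ?_⟩
    rw [← mul_comp, ← mul_comp, ← add_comp, hab, one_comp]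
  refine ⟨?_, ⟨hdet, ?_⟩, ?_⟩
  · rw [hcard, f1]
  · intro u hu j hj
    have huv : u = v := s3_sol_unique hdet hu hv
    have h1 := (hrf.2.2 j).1
    rw [← huv, hj, zero_mul] at h1
    have h2 : (G.comp (X + C t)).eval (j : L) = 0 := by
      have h3 : (j : L) ∈ (G.comp (X + C t)).roots := Multiset.mem_toFinset.1 j.2
      exact (mem_roots'.1 h3).2
    exact s3_not_both hcop h2 h1
  · intro z hz hz'
    have hG : (G.comp (X + C t)).eval (z - t) ≠ 0 := by
      rw [s3_eval_comp, sub_add_cancel]
      exact s3_not_both h.cop hz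
    have hmem : z - t ∉ D := by
      intro hm
      rw [hD, Multiset.mem_toFinset] at hm
      exact hG (mem_roots'.1 hm).2
    refine ⟨hmem, ?_⟩
    intro u hu
    have huv : u = v := s3_sol_unique hdet hu hv
    have hne : ∀ i : {z // z ∈ D}, z - t ≠ (i : L) := by
      intro i hi
      exact hmem (hi ▸ i.2)
    obtain ⟨h1, h2⟩ := hrf.2.1 (z - t) hne
    rw [hroot] at h1 h2
    rw [huv]
    constructor
    · rw [s3_eval_comp g, sub_add_cancel, hz] at h2
      rcases mul_eq_zero.1 h2.symm with h3 | h3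
      · exact h3
      · exact absurd h3 hG
    · intro h3
      rw [h3, zero_mul, s3_eval_comp H, sub_add_cancel] at h1
      exact f4 z hz hz' h1

end S3aux

variable {F L : Type*} [Field F] [CharZero F] [Field L] [Algebra F L] [IsAlgClosed L]
  [IsGalois F L] [DecidableEq L]

omit [CharZero F] [IsAlgClosed L] [IsGalois F L] [DecidableEq L] in
theorem s3_aeval (σ : L ≃ₐ[F] L) (x : L) (p : F[X]) : aeval (σ x) p = σ (aeval x p) := by
  exact Polynomial.aeval_algHom_apply (σ : L →ₐ[F] L) x p

omit [CharZero F] [IsAlgClosed L] [IsGalois F L] in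
theorem s3_fib_image (X1 : Finset L) (hX : ∀ σ : L ≃ₐ[F] L, ∀ x ∈ X1, σ x ∈ X1) (p : F[X])
    (σ : L ≃ₐ[F] L) (y : L) :
    X1.filter (fun z => aeval z p = σ y) = (X1.filter (fun z => aeval z p = y)).image σ := by
  ext x
  rw [Finset.mem_filter, Finset.mem_image]
  constructor
  · rintro ⟨h1, h2⟩
    refine ⟨σ.symm x, ?_, σ.apply_symm_apply x⟩
    rw [Finset.mem_filter]
    refine ⟨hX σ.symm x h1, ?_⟩
    rw [s3_aeval, h2]
    exact σ.symm_apply_apply y
  · rintro ⟨w, hw, rfl⟩
    rw [Finset.mem_filter] at hw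
    exact ⟨hX σ w hw.1, by rw [s3_aeval, hw.2]⟩

omit [IsGalois F L] in
/-- the generic choice of the generator on all fibres -/
theorem s3_generic (X1 : Finset L) (p : F[X])
    (hodd : ∀ x ∈ X1, Odd (X1.filter (fun z => aeval z p = aeval x p)).card) :
    ∃ ρ : F[X], ∀ x ∈ X1,
      Set.InjOn (fun z : L => aeval z ρ)
        (X1.filter (fun z => aeval z p = aeval x p) : Finset L) ∧
      ∃ (G H : L[X]) (t : L), OddDatum
        (∏ z ∈ X1.filter (fun z => aeval z p = aeval x p), (X - C (aeval z ρ))) G H t := by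
  have : CharZero L := charZero_of_injective_algebraMap (algebraMap F L).injective
  have : Infinite F := inferInstance
  have hΨ : ∀ x : L, ∃ Ψ : MvPolynomial {x // x ∈ X1} L, Ψ ≠ 0 ∧
      (x ∈ X1 → ∀ ρ : F[X], MvPolynomial.eval (fun i : {x // x ∈ X1} => aeval (i : L) ρ) Ψ ≠ 0 →
        Set.InjOn (fun z : L => aeval z ρ)
          (X1.filter (fun z => aeval z p = aeval x p) : Finset L) ∧
        ∃ (G H : L[X]) (t : L), OddDatum
          (∏ z ∈ X1.filter (fun z => aeval z p = aeval x p), (X - C (aeval z ρ))) G H t) := by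
    intro x
    by_cases hx : x ∈ X1
    · set fib : Finset L := X1.filter (fun z => aeval z p = aeval x p) with hfib
      have hcard : Odd (Fintype.card {z // z ∈ fib}) := by
        rw [Fintype.card_coe]
        exact hodd x hx
      obtain ⟨Φ, h1, h2⟩ := generic_odd (L := L) {z // z ∈ fib} hcard
      let ι : {z // z ∈ fib} → {z // z ∈ X1} := fun z => ⟨z.1, (Finset.mem_filter.1 z.2).1⟩
      have hι : Function.Injective ι := by
        intro a b hab
        exact Subtype.ext (congrArg (fun w : {z // z ∈ X1} => (w : L)) hab)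
      refine ⟨MvPolynomial.rename ι Φ, ?_, ?_⟩
      · intro h0
        apply h1
        exact MvPolynomial.rename_injective ι hι (by rw [h0, map_zero])
      · intro _ ρ hρ
        rw [MvPolynomial.eval_rename] at hρ
        obtain ⟨h3, G, H, t, h4⟩ := h2 _ hρ
        refine ⟨?_, G, H, t, ?_⟩
        · intro a ha b hb hab
          have := @h3 ⟨a, ha⟩ ⟨b, hb⟩ hab
          exact congrArg Subtype.val this
        · have e : rootPoly ((fun i : {x // x ∈ X1} => aeval (i : L) ρ) ∘ ι) =
              ∏ z ∈ fib, (X - C (aeval z ρ)) := by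
            unfold rootPoly
            exact Finset.prod_coe_sort fib (fun z => X - C (aeval z ρ))
          rw [← e]
          exact h4
    · exact ⟨1, one_ne_zero, fun h => absurd h hx⟩
  choose Ψ hΨ0 hΨ1 using hΨ
  have hprod : (∏ x ∈ X1, Ψ x) ≠ 0 := Finset.prod_ne_zero_iff.2 (fun x _ => hΨ0 x)
  obtain ⟨ρ, hρ⟩ := exists_equivariant (F := F) (Subtype.val : {x // x ∈ X1} → L)
    Subtype.val_injective _ hprod
  rw [map_prod, Finset.prod_ne_zero_iff] at hρ
  exact ⟨ρ, fun x hx => hΨ1 x hx ρ (hρ x hx)⟩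

theorem inner_exists (X1 : Finset L) (hX : ∀ σ : L ≃ₐ[F] L, ∀ x ∈ X1, σ x ∈ X1) (p : F[X])
    (hodd : ∀ x ∈ X1, Odd (X1.filter (fun z => aeval z p = aeval x p)).card) :
    ∃ (c : L → L) (D : L → Finset L),
      (∀ σ : L ≃ₐ[F] L, ∀ x ∈ X1, c (σ x) = σ (c x)) ∧
      (∀ σ : L ≃ₐ[F] L, ∀ x ∈ X1, D (aeval (σ x) p) = (D (aeval x p)).image σ) ∧
      (∀ x ∈ X1, (D (aeval x p)).card + 1 = (X1.filter (fun z => aeval z p = aeval x p)).card) ∧
      (∀ x ∈ X1, ∀ x' ∈ X1, aeval x p = aeval x' p → c x = c x' → x = x') ∧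
      (∀ x ∈ X1, GoodCluster (D (aeval x p))) ∧
      (∀ x ∈ X1, InnerRoot (D (aeval x p)) (c x)) := by
  have : CharZero L := charZero_of_injective_algebraMap (algebraMap F L).injective
  obtain ⟨ρ, hρ⟩ := s3_generic X1 p hodd
  -- the data indexed by the points of the base
  have hex : ∀ y : L, ∃ (G H : L[X]) (t : L), (∃ x ∈ X1, aeval x p = y) →
      OddDatum (∏ z ∈ X1.filter (fun z => aeval z p = y), (X - C (aeval z ρ))) G H t := by
    intro y
    by_cases hy : ∃ x ∈ X1, aeval x p = y
    · obtain ⟨x, hx, rfl⟩ := hy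
      obtain ⟨-, G, H, t, h⟩ := hρ x hx
      exact ⟨G, H, t, fun _ => h⟩
    · exact ⟨0, 0, 0, fun h => absurd h hy⟩
  choose G H t hdat using hex
  have hd : ∀ x ∈ X1, OddDatum
      (∏ z ∈ X1.filter (fun z => aeval z p = aeval x p), (X - C (aeval z ρ)))
      (G (aeval x p)) (H (aeval x p)) (t (aeval x p)) :=
    fun x hx => hdat _ ⟨x, hx, rfl⟩
  -- equivariance
  have hequi : ∀ (σ : L ≃ₐ[F] L), ∀ x ∈ X1,
      (G (aeval x p)).map (σ : L →+* L) = G (σ (aeval x p)) ∧
      (H (aeval x p)).map (σ : L →+* L) = H (σ (aeval x p)) ∧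
      (σ : L →+* L) (t (aeval x p)) = t (σ (aeval x p)) := by
    intro σ x hx
    apply s3_equiv (hd x hx) (σ : L →+* L)
    have h1 := hd (σ x) (hX σ x hx)
    rw [s3_aeval] at h1
    have h2 : (∏ z ∈ X1.filter (fun z => aeval z p = aeval x p),
        (X - C (aeval z ρ))).map (σ : L →+* L) =
        ∏ z ∈ X1.filter (fun z => aeval z p = σ (aeval x p)), (X - C (aeval z ρ)) := by
      rw [s3_fib_image X1 hX p σ, Finset.prod_image (fun a _ b _ hab => σ.injective hab),
        Polynomial.map_prod]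
      refine Finset.prod_congr rfl fun z _ => ?_
      rw [Polynomial.map_sub, map_X, map_C, s3_aeval]
      rfl
    rw [h2]
    exact h1
  have hσt : ∀ (σ : L ≃ₐ[F] L), ∀ x ∈ X1, t (σ (aeval x p)) = σ (t (aeval x p)) :=
    fun σ x hx => (hequi σ x hx).2.2.symm
  refine ⟨fun x => aeval x ρ - t (aeval x p),
    fun y => ((G y).comp (X + C (t y))).roots.toFinset, ?_, ?_, ?_, ?_, ?_, ?_⟩
  · intro σ x hx
    change aeval (σ x) ρ - t (aeval (σ x) p) = σ (aeval x ρ - t (aeval x p))
    rw [map_sub, s3_aeval, s3_aeval, hσt σ x hx]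
  · intro σ x hx
    change ((G (aeval (σ x) p)).comp (X + C (t (aeval (σ x) p)))).roots.toFinset = _
    rw [s3_aeval, hσt σ x hx, ← (hequi σ x hx).1]
    have e : ((G (aeval x p)).map (σ : L →+* L)).comp (X + C (σ (t (aeval x p)))) =
        ((G (aeval x p)).comp (X + C (t (aeval x p)))).map (σ : L →+* L) := by
      rw [Polynomial.map_comp, Polynomial.map_add, map_X, map_C]
      rfl
    rw [e]
    have hne : (G (aeval x p)).comp (X + C (t (aeval x p))) ≠ 0 :=
      (pencil_shift (hd x hx).pen).monic.ne_zero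
    ext z
    rw [Multiset.mem_toFinset, Finset.mem_image]
    constructor
    · intro hz
      refine ⟨σ.symm z, ?_, σ.apply_symm_apply z⟩
      rw [Multiset.mem_toFinset, mem_roots hne, IsRoot.def]
      have h1 := (mem_roots'.1 hz).2
      rw [IsRoot.def] at h1
      have h2 : (σ : L →+* L) (((G (aeval x p)).comp (X + C (t (aeval x p)))).eval (σ.symm z)) =
          0 := by
        rw [← Polynomial.eval₂_at_apply, ← Polynomial.eval_map]
        change (((G (aeval x p)).comp (X + C (t (aeval x p)))).map (σ : L →+* L)).eval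
          (σ (σ.symm z)) = 0
        rw [σ.apply_symm_apply]
        exact h1
      exact (map_eq_zero _).1 h2
    · rintro ⟨w, hw, rfl⟩
      rw [Multiset.mem_toFinset, mem_roots hne, IsRoot.def] at hw
      rw [mem_roots (Polynomial.map_ne_zero hne), IsRoot.def, Polynomial.eval_map]
      change Polynomial.eval₂ (σ : L →+* L) ((σ : L →+* L) w) _ = 0
      rw [Polynomial.eval₂_at_apply, hw, map_zero]
  · intro x hx
    have h1 := (s3_local (hd x hx)).1
    rw [Polynomial.natDegree_prod_of_monic _ _ (fun i _ => monic_X_sub_C _)] at h1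
    simpa using h1
  · intro x hx x' hx' hxx' hc
    have h1 := (hρ x hx).1
    apply h1
    · rw [Finset.mem_coe, Finset.mem_filter]
      exact ⟨hx, rfl⟩
    · rw [Finset.mem_coe, Finset.mem_filter]
      exact ⟨hx', hxx'.symm⟩
    · change aeval x ρ - t (aeval x p) = aeval x' ρ - t (aeval x' p) at hc
      rw [← hxx'] at hc
      exact sub_left_injective hc
  · intro x hx
    exact (s3_local (hd x hx)).2.1
  · intro x hx
    apply (s3_local (hd x hx)).2.2
    · rw [Polynomial.eval_prod]
      apply Finset.prod_eq_zero (i := x)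
      · rw [Finset.mem_filter]
        exact ⟨hx, rfl⟩
      · rw [eval_sub, eval_X, eval_C, sub_self]
    · rw [Polynomial.derivative_prod_finset]
      rw [Polynomial.eval_finsetSum]
      rw [Finset.sum_eq_single x]
      · rw [derivative_sub, derivative_X, derivative_C, sub_zero, mul_one, Polynomial.eval_prod]
        rw [Finset.prod_ne_zero_iff]
        intro z hz
        rw [Finset.mem_erase, Finset.mem_filter] at hz
        rw [eval_sub, eval_X, eval_C]
        intro h0
        have h1 := (hρ x hx).1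
        apply hz.1
        apply h1
        · rw [Finset.mem_coe, Finset.mem_filter]
          exact hz.2
        · rw [Finset.mem_coe, Finset.mem_filter]
          exact ⟨hx, rfl⟩
        · exact (sub_eq_zero.1 h0).symm
      · intro z hz hzx
        rw [eval_mul, Polynomial.eval_prod]
        rw [Finset.prod_eq_zero (i := x), zero_mul]
        · rw [Finset.mem_erase, Finset.mem_filter]
          exact ⟨Ne.symm hzx, hx, rfl⟩
        · rw [eval_sub, eval_X, eval_C, sub_self]
      · intro h0
        exfalso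
        apply h0
        rw [Finset.mem_filter]
        exact ⟨hx, rfl⟩

end AnWA
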