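import Pool.Agent.H.MP_83e36b_nt.Defs
import Pool.Agent.H.MP_83e36b_nt.A3a
import Pool.Agent.H.MP_83e36b_nt.A3b
import Pool.Agent.H.MP_83e36b_nt.E2b
import Pool.Agent.H.MP_83e36b_nt.S1
import Pool.Agent.H.MP_83e36b_nt.S3
import Pool.Agent.H.MP_83e36b_nt.S4
import Pool.Agent.H.MP_83e36b_nt.S5

/-! Module S6: local surjectivity of the family of weight `2X` in degrees `2 mod 4`. -/

open Polynomial Filter Topology

namespace AnWA

/-- from an equivariant bijection of roots to a change of generator -/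
theorem exists_chg {F L : Type*} [Field F] [Field L] [Algebra F L] [IsAlgClosed L]
    [IsGalois F L] [DecidableEq L] {n : ℕ} {f g : F[X]} (hf : f.Monic) (hs : f.Separable)
    (hn : f.natDegree = n)
    (r : {x // x ∈ (f.aroots L).toFinset} → L) (hr : Function.Injective r)
    (heq : ∀ (σ : L ≃ₐ[F] L) (a : {x // x ∈ (f.aroots L).toFinset}) (h : σ a ∈
      (f.aroots L).toFinset), r ⟨σ a, h⟩ = σ (r a))
    (hg : g.map (algebraMap F L) = ∏ a, (X - C (r a))) :
    ∃ ρ : F[X], chg n g ρ = f := by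
  obtain ⟨h1, h2, h3⟩ := prod_X_sub_C_aroots (L := L) hf hs
  -- the inverse function
  let φ : L → L := fun z => if h : ∃ a, r a = z then (h.choose : L) else 0
  have hφ : ∀ a, φ (r a) = a := by
    intro a
    have h : ∃ b, r b = r a := ⟨a, rfl⟩
    simp only [φ, dif_pos h]
    rw [hr h.choose_spec]
  have hst : ∀ σ : L ≃ₐ[F] L, ∀ x ∈ Finset.univ.image r, σ x ∈ Finset.univ.image r := by
    intro σ x hx
    rw [Finset.mem_image] at hx ⊢
    obtain ⟨a, -, rfl⟩ := hx
    exact ⟨⟨σ a, h3 σ a a.2⟩, Finset.mem_univ _, heq σ a _⟩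
  obtain ⟨ρ, -, hρ⟩ := interp (F := F) (Finset.univ.image r) hst φ (by
    intro σ x hx
    rw [Finset.mem_image] at hx
    obtain ⟨a, -, rfl⟩ := hx
    rw [← heq σ a (h3 σ a a.2), hφ, hφ])
  refine ⟨ρ, ?_⟩
  have hρ' : ∀ a, aeval (r a) ρ = a := by
    intro a
    rw [hρ _ (Finset.mem_image_of_mem _ (Finset.mem_univ a)), hφ]
  apply Polynomial.map_injective (algebraMap F L) (algebraMap F L).injective
  have hcardA : Fintype.card {x // x ∈ (f.aroots L).toFinset} = n := by
    rw [Fintype.card_coe, h2, hn]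
  let e : Fin n ≃ {x // x ∈ (f.aroots L).toFinset} := (Fintype.equivFinOfCardEq hcardA).symm
  have hgr : g.map (algebraMap F L) = rootPoly (r ∘ e) := by
    rw [hg]
    unfold rootPoly
    exact (Equiv.prod_comp e (fun a => (X - C (r a)))).symm
  rw [chg_map, hgr, chg_rootPoly _ (hr.comp e.injective), ← h1]
  unfold rootPoly
  rw [← Finset.prod_coe_sort (f.aroots L).toFinset (fun x => (X : L[X]) - C x),
    ← Equiv.prod_comp e (fun x => (X : L[X]) - C (x : L))]
  refine Finset.prod_congr rfl (fun i _ => ?_)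
  show X - C (eval (r (e i)) (Polynomial.map (algebraMap F L) ρ)) = X - C (e i : L)
  rw [eval_map_algebraMap, hρ']

/-- a point of an infinite field where a nonzero polynomial does not vanish -/
theorem exists_eval_ne_zero {F : Type*} [Field F] [Infinite F] {p : F[X]} (hp : p ≠ 0) :
    ∃ c : F, p.eval c ≠ 0 := by
  by_contra h
  exact hp (Polynomial.funext (fun x => by
    rw [eval_zero]; by_contra h'; exact h ⟨x, h'⟩))

theorem localU_of_goodPair {F L : Type*} [NontriviallyNormedField F] [CharZero F]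
    [NormedField L] [NormedAlgebra F L] [IsAlgClosed L] [IsGalois F L] (hG : GoodPair F L)
    {n : ℕ} (hn : n % 4 = 2) : LocalU F n := by
  classical
  intro f hf hfn hs
  obtain ⟨f1, f2, p, hf1, hf2, hmul, heven, hp0, hpneg, hpodd, hZ⟩ :=
    local_structure (L := L) hG.solv hf hs (by rw [hfn]; exact hn)
  have hs1 : f1.Separable := by
    have := hs; rw [← hmul] at this; exact this.of_mul_left
  have hs2 : f2.Separable := by
    have := hs; rw [← hmul] at this; exact this.of_mul_right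
  have hcop12 : IsCoprime f1 f2 := by
    have := hs; rw [← hmul] at this; exact this.isCoprime
  set X1 := (f1.aroots L).toFinset with hX1
  set X2 := (f2.aroots L).toFinset with hX2
  obtain ⟨-, hc1, hst1⟩ := prod_X_sub_C_aroots (L := L) hf1 hs1
  obtain ⟨-, hc2, hst2⟩ := prod_X_sub_C_aroots (L := L) hf2 hs2
  obtain ⟨-, hc, hst⟩ := prod_X_sub_C_aroots (L := L) hf hs
  have hmem1 : ∀ x, x ∈ X1 ↔ x ∈ f1.aroots L := fun x => Multiset.mem_toFinset
  have hmem2 : ∀ x, x ∈ X2 ↔ x ∈ f2.aroots L := fun x => Multiset.mem_toFinset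
  set Y := X1.image (fun x => aeval x p) with hY
  have hstY : ∀ σ : L ≃ₐ[F] L, ∀ y ∈ Y, σ y ∈ Y := by
    intro σ y hy
    rw [hY, Finset.mem_image] at hy ⊢
    obtain ⟨x, hx, rfl⟩ := hy
    exact ⟨σ x, hst1 σ x hx, by rw [aeval_algHom_apply]⟩
  obtain ⟨q0, h0, P0, m, t, H0, hnd, hdeg, hcop, hq00, hbase, hinjm⟩ := base_exists (F := F) Y hstY
    (by
      intro y hy
      rw [hY, Finset.mem_image] at hy
      obtain ⟨x, hx, rfl⟩ := hy
      exact hp0 x ((hmem1 x).mp hx))
    (by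
      intro y hy
      rw [hY, Finset.mem_image] at hy ⊢
      obtain ⟨x, hx, rfl⟩ := hy
      obtain ⟨x', hx', h⟩ := hpneg x ((hmem1 x).mp hx)
      exact ⟨x', (hmem1 x').mpr hx', h⟩)
    (by
      rw [hY, Finset.image_image]
      exact hZ)
  obtain ⟨c, D, hcσ, hDσ, hDcard, hcinj, hDgood, hcroot⟩ := inner_exists X1 hst1 p
    (fun x hx => hpodd x ((hmem1 x).mp hx))
  obtain ⟨r2, hr2inj, hr2good⟩ := even_exists (F := F) X2 (by rw [hc2]; exact heven)
  -- the rational centre for the even part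
  obtain ⟨hPm, hPd⟩ := pencil_P_two H0
  have hf0ne : P0 - C t * q0 ≠ 0 := by
    intro h
    have h1 : P0.natDegree ≤ q0.natDegree := by
      rw [sub_eq_zero.mp h]; exact natDegree_C_mul_le t q0
    omega
  have hh0ne : h0 ≠ 0 := (pencil_h_monic H0).1.ne_zero
  obtain ⟨c0, hc0⟩ := exists_eval_ne_zero (F := F)
    (mul_ne_zero (mul_ne_zero H0.monic.ne_zero hh0ne) (mul_ne_zero (X_ne_zero (R := F)) hf0ne))
  rw [eval_mul, eval_mul, eval_mul, eval_X] at hc0
  have hc0q : q0.eval c0 ≠ 0 := fun h => hc0 (by rw [h]; ring)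
  have hc0h : h0.eval c0 ≠ 0 := fun h => hc0 (by rw [h]; ring)
  have hc0X : c0 ≠ 0 := fun h => hc0 (by rw [h]; ring)
  have hc0f : (P0 - C t * q0).eval c0 ≠ 0 := fun h => hc0 (by rw [h]; ring)
  have haev : ∀ g : F[X], aeval (algebraMap F L c0) g = algebraMap F L (g.eval c0) := by
    intro g; rw [aeval_algebraMap_apply, coe_aeval_eq_eval]
  have hmap0 : ∀ x : F, algebraMap F L x = 0 ↔ x = 0 := fun x => map_eq_zero _
  -- the index set of the centres
  let I := {y // y ∈ Y} ⊕ Unit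
  let μ : I → L := Sum.elim (fun y => aeval (y : L) m) (fun _ => algebraMap F L c0)
  let D' : I → Finset L := Sum.elim (fun y => D y) (fun _ => X2.image (fun x => aeval x r2))
  let πY : (L ≃ₐ[F] L) → Equiv.Perm {y // y ∈ Y} := fun σ =>
    { toFun := fun y => ⟨σ y, hstY σ y y.2⟩
      invFun := fun y => ⟨σ.symm y, hstY σ.symm y y.2⟩
      left_inv := fun y => Subtype.ext (σ.symm_apply_apply _)
      right_inv := fun y => Subtype.ext (σ.apply_symm_apply _) }
  let π : (L ≃ₐ[F] L) → Equiv.Perm I := fun σ => Equiv.sumCongr (πY σ) (Equiv.refl Unit)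
  let A := {x // x ∈ (f.aroots L).toFinset}
  have hmemf : ∀ x, x ∈ (f.aroots L).toFinset ↔ x ∈ X1 ∨ x ∈ X2 := by
    intro x
    rw [Multiset.mem_toFinset, mem_aroots, hmem1, hmem2, mem_aroots, mem_aroots, ← hmul, map_mul,
      mul_eq_zero]
    constructor
    · rintro ⟨-, h | h⟩
      · exact Or.inl ⟨hf1.ne_zero, h⟩
      · exact Or.inr ⟨hf2.ne_zero, h⟩
    · rintro (⟨-, h⟩ | ⟨-, h⟩)
      · exact ⟨mul_ne_zero hf1.ne_zero hf2.ne_zero, Or.inl h⟩
      · exact ⟨mul_ne_zero hf1.ne_zero hf2.ne_zero, Or.inr h⟩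
  have hstX1 : ∀ (σ : L ≃ₐ[F] L) x, σ x ∈ X1 ↔ x ∈ X1 := by
    intro σ x
    refine ⟨fun h => ?_, hst1 σ x⟩
    have := hst1 σ.symm _ h
    rwa [AlgEquiv.symm_apply_apply] at this
  have hYmem : ∀ x, x ∈ X1 → aeval x p ∈ Y := fun x hx => Finset.mem_image_of_mem _ hx
  let cen : A → I := fun x => if h : (x : L) ∈ X1 then Sum.inl ⟨aeval (x : L) p, hYmem x h⟩
    else Sum.inr ()
  let pos : A → L := fun x => if (x : L) ∈ X1 then c x else aeval (x : L) r2
  let τ : (L ≃ₐ[F] L) → A → A := fun σ x => ⟨σ x, hst σ x x.2⟩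
  have hcen1 : ∀ (a : A) (h : (a : L) ∈ X1), cen a = Sum.inl ⟨aeval (a : L) p, hYmem a h⟩ :=
    fun a h => dif_pos h
  have hcen2 : ∀ (a : A), (a : L) ∉ X1 → cen a = Sum.inr () := fun a h => dif_neg h
  have hpos1 : ∀ (a : A), (a : L) ∈ X1 → pos a = c a := fun a h => if_pos h
  have hpos2 : ∀ (a : A), (a : L) ∉ X1 → pos a = aeval (a : L) r2 := fun a h => if_neg h
  have hA2 : ∀ (a : A), (a : L) ∉ X1 → (a : L) ∈ X2 := fun a h =>
    ((hmemf a).mp a.2).resolve_left h
  have hfμ : ∀ y : {y // y ∈ Y}, aeval (μ (Sum.inl y)) (P0 - C t * q0) = 0 :=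
    fun y => (hbase y y.2).2.1
  have hfc : aeval (μ (Sum.inr ())) (P0 - C t * q0) ≠ 0 := by
    show aeval (algebraMap F L c0) (P0 - C t * q0) ≠ 0
    rw [haev, Ne, hmap0]; exact hc0f
  have hμinj : Function.Injective μ := by
    rintro (y | ⟨⟩) (y' | ⟨⟩) h
    · have : (y : L) = y' := hinjm y.2 y'.2 h
      rw [Subtype.ext this]
    · exact absurd (h ▸ hfμ y) hfc
    · exact absurd (h.symm ▸ hfμ y') hfc
    · rfl
  have hπμ : ∀ σ i, μ (π σ i) = σ (μ i) := by
    rintro σ (y | ⟨⟩)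
    · show aeval (σ (y : L)) m = σ (aeval (y : L) m)
      rw [aeval_algHom_apply]
    · show algebraMap F L c0 = σ (algebraMap F L c0)
      rw [AlgEquiv.commutes]
  have hπD : ∀ σ i, D' (π σ i) = (D' i).image σ := by
    rintro σ (⟨y, hy⟩ | ⟨⟩)
    · show D (σ y) = (D y).image σ
      have hy' := hy
      rw [hY, Finset.mem_image] at hy'
      obtain ⟨x, hx, rfl⟩ := hy'
      rw [← hDσ σ x hx, aeval_algHom_apply]
    · show X2.image (fun x => aeval x r2) = (X2.image (fun x => aeval x r2)).image σ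
      ext z
      simp only [Finset.mem_image]
      constructor
      · rintro ⟨x, hx, rfl⟩
        refine ⟨aeval (σ.symm x) r2, ⟨σ.symm x, hst2 σ.symm x hx, rfl⟩, ?_⟩
        rw [← aeval_algHom_apply, AlgEquiv.apply_symm_apply]
      · rintro ⟨_, ⟨x, hx, rfl⟩, rfl⟩
        exact ⟨σ x, hst2 σ x hx, by rw [aeval_algHom_apply]⟩
  have hτc : ∀ σ a, cen (τ σ a) = π σ (cen a) := by
    intro σ a
    by_cases ha : (a : L) ∈ X1
    · have ha' : ((τ σ a : A) : L) ∈ X1 := (hstX1 σ a).mpr ha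
      rw [hcen1 _ ha, hcen1 _ ha']
      show Sum.inl _ = Sum.inl _
      congr 1
      apply Subtype.ext
      show aeval (σ (a : L)) p = σ (aeval (a : L) p)
      rw [aeval_algHom_apply]
    · have ha' : ((τ σ a : A) : L) ∉ X1 := fun h => ha ((hstX1 σ a).mp h)
      rw [hcen2 _ ha, hcen2 _ ha']
      rfl
  have hτp : ∀ σ a, pos (τ σ a) = σ (pos a) := by
    intro σ a
    by_cases ha : (a : L) ∈ X1
    · have ha' : ((τ σ a : A) : L) ∈ X1 := (hstX1 σ a).mpr ha
      rw [hpos1 _ ha, hpos1 _ ha']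
      exact hcσ σ a ha
    · have ha' : ((τ σ a : A) : L) ∉ X1 := fun h => ha ((hstX1 σ a).mp h)
      rw [hpos2 _ ha, hpos2 _ ha']
      show aeval (σ (a : L)) r2 = σ (aeval (a : L) r2)
      rw [aeval_algHom_apply]
  have hinj : ∀ a b, cen a = cen b → pos a = pos b → a = b := by
    intro a b h1 h2
    by_cases ha : (a : L) ∈ X1 <;> by_cases hb : (b : L) ∈ X1
    · rw [hcen1 _ ha, hcen1 _ hb] at h1
      rw [hpos1 _ ha, hpos1 _ hb] at h2
      have h3 : aeval (a : L) p = aeval (b : L) p := by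
        have := Sum.inl.inj h1
        exact congrArg Subtype.val this
      exact Subtype.ext (hcinj _ ha _ hb h3 h2)
    · rw [hcen1 _ ha, hcen2 _ hb] at h1
      exact absurd h1 (by simp)
    · rw [hcen2 _ ha, hcen1 _ hb] at h1
      exact absurd h1 (by simp)
    · rw [hpos2 _ ha, hpos2 _ hb] at h2
      exact Subtype.ext (hr2inj (hA2 a ha) (hA2 b hb) h2)
  have htype : ∀ a, (aeval (μ (cen a)) (P0 - C t * q0) = 0 ∧ InnerRoot (D' (cen a)) (pos a)) ∨
      (aeval (μ (cen a)) (P0 - C t * q0) ≠ 0 ∧ pos a ∈ D' (cen a)) := by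
    intro a
    by_cases ha : (a : L) ∈ X1
    · left
      rw [hcen1 _ ha, hpos1 _ ha]
      exact ⟨hfμ _, hcroot a ha⟩
    · right
      rw [hcen2 _ ha, hpos2 _ ha]
      exact ⟨hfc, Finset.mem_image_of_mem _ (hA2 a ha)⟩
  have hY2 : ∀ y ∈ Y, y ≠ 0 := by
    intro y hy
    rw [hY, Finset.mem_image] at hy
    obtain ⟨x, hx, rfl⟩ := hy
    exact hp0 x ((hmem1 x).mp hx)
  have hcardA : Fintype.card A = n := by
    rw [Fintype.card_coe, hc, hfn]
  have hcard : Fintype.card A = P0.natDegree + ∑ i, (D' i).card := by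
    have h1 : ∑ i, (D' i).card = ∑ y ∈ Y, (D y).card + X2.card := by
      rw [Fintype.sum_sum_type]
      congr 1
      · exact Finset.sum_coe_sort Y (fun y => (D y).card)
      · simp only [Finset.univ_unique, Finset.sum_singleton]
        exact Finset.card_image_of_injOn hr2inj
    have h2 : Y.card + ∑ y ∈ Y, (D y).card = X1.card := by
      rw [Finset.card_eq_sum_card_image (fun x => aeval x p) X1, Finset.card_eq_sum_ones,
        ← Finset.sum_add_distrib]
      refine Finset.sum_congr rfl ?_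
      intro y hy
      rw [Finset.mem_image] at hy
      obtain ⟨x, hx, rfl⟩ := hy
      rw [← hDcard x hx, add_comm]
    have h3 : n = f1.natDegree + f2.natDegree := by
      rw [← hfn, ← hmul, natDegree_mul hf1.ne_zero hf2.ne_zero]
    rw [hcardA, h1, hPd, hdeg, ← add_assoc, h2, hc1, hc2, h3]
  have hXq : IsCoprime (2 * X : F[X]) q0 := by
    have h1 : IsCoprime (X : F[X]) q0 := by
      rw [irreducible_X.coprime_iff_not_dvd, X_dvd_iff, coeff_zero_eq_eval_zero]
      exact hq00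
    have h2 : (2 * X : F[X]) = C 2 * X := by rw [map_ofNat]
    rw [h2]
    exact (isCoprime_mul_unit_left_left (isUnit_C.mpr (by norm_num)) _ _).mpr h1
  have hmap2X : (2 * X : F[X]).map (algebraMap F L) = 2 * X := by simp
  have hcL : CharZero L := (RingHom.charZero_iff (algebraMap F L).injective).mp inferInstance
  obtain ⟨q, h, P, HP, hqnd, hqdeg, hPdeg, hPq, r, hrinj, hreq, hfac⟩ :=
    assembly hG.iso (t := t) (Or.inr rfl) H0 (by rw [hmap2X]; exact hnd) hcop hXq μ D' hμinj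
      (by
        rintro (y | ⟨⟩)
        · exact (hbase y y.2).2.2.1
        · show aeval (algebraMap F L c0) q0 ≠ 0
          rw [haev, Ne, hmap0]; exact hc0q)
      (by
        rintro (y | ⟨⟩)
        · exact (hbase y y.2).2.2.2
        · show aeval (algebraMap F L c0) h0 ≠ 0
          rw [haev, Ne, hmap0]; exact hc0h)
      (by
        rintro (y | ⟨⟩)
        · show aeval (aeval (y : L) m) (2 * X : F[X]) ≠ 0
          rw [map_mul, aeval_X, map_ofNat]
          exact mul_ne_zero two_ne_zero (hbase y y.2).1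
        · show aeval (algebraMap F L c0) (2 * X : F[X]) ≠ 0
          rw [map_mul, aeval_X, map_ofNat]
          exact mul_ne_zero two_ne_zero ((hmap0 _).not.mpr hc0X))
      (by
        rintro (⟨y, hy⟩ | ⟨⟩)
        · rw [hY, Finset.mem_image] at hy
          obtain ⟨x, hx, rfl⟩ := hy
          exact hDgood x hx
        · exact hr2good)
      π hπμ hπD cen pos hinj τ hτc hτp htype hcard
  obtain ⟨ρ, hρ⟩ := exists_chg (g := P - C t * q) hf hs hfn r hrinj
    (fun σ a _ => hreq σ a) hfac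
  obtain ⟨-, hPd'⟩ := pencil_P_two HP
  refine ⟨q, h, P, ρ, t, HP, hqnd, ?_, hPq, ?_, hρ⟩
  · rw [← hPd', hPdeg, hcardA]
  · rw [← separable_map (algebraMap F L), hfac]
    exact rootPoly_separable hrinj

end AnWA
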