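import Pool.Agent.H.MP_83e36b_nt.RDefs
import Pool.Agent.H.MP_83e36b_nt.A1b
import Pool.Agent.H.MP_83e36b_nt.A3a
import Pool.Agent.H.MP_83e36b_nt.A3b
import Pool.Agent.H.MP_83e36b_nt.B1b
import Pool.Agent.H.MP_83e36b_nt.S4
import Pool.Agent.H.MP_83e36b_nt.S5
import Pool.Agent.H.MP_83e36b_nt.S6

/-! Module RNice: a nondegenerate generator.
-/

open Polynomial

namespace AnWA

theorem RNice_enum {K : Type*} [Field K] {n : ℕ} {f : K[X]}
    (hf : f.Monic) (hfn : f.natDegree = n) (hs : f.Separable) :
    ∃ x : Fin n → AlgebraicClosure K, Function.Injective x ∧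
      f.map (algebraMap K (AlgebraicClosure K)) = rootPoly x := by
  classical
  let φ := algebraMap K (AlgebraicClosure K)
  have hsep : (f.map φ).Separable := hs.map
  have hsplit : (f.map φ).Splits := IsAlgClosed.splits _
  have hcard : (f.map φ).roots.card = n := by
    rw [← hsplit.natDegree_eq_card_roots, natDegree_map, hfn]
  have hnodup : (f.map φ).roots.Nodup := nodup_roots hsep
  obtain ⟨x, hx, hxr⟩ := A3b_enum _ hcard hnodup
  refine ⟨x, hx, ?_⟩
  have h3 := hsplit.eq_prod_roots_of_monic (hf.map φ)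
  change f.map φ = rootPoly x
  rw [h3, rootPoly, ← hxr, Multiset.map_map]
  rfl

theorem chg_X {K : Type*} [Field K] [CharZero K] {n : ℕ} {f : K[X]}
    (hf : f.Monic) (hfn : f.natDegree = n) (hs : f.Separable) : chg n f X = f := by
  obtain ⟨x, hx, hfx⟩ := RNice_enum hf hfn hs
  apply Polynomial.map_injective (algebraMap K (AlgebraicClosure K))
    (algebraMap K (AlgebraicClosure K)).injective
  rw [chg_map, hfx, map_X, chg_rootPoly x hx]
  simp

theorem nice_exists {K : Type*} [Field K] [CharZero K] {n : ℕ} (hn : Even n) {f : K[X]}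
    (hf : f.Monic) (hfn : f.natDegree = n) (hs : f.Separable) :
    ∃ ρ ρ' : K[X], (chg n f ρ).Separable ∧ NonDeg 1 (chg n f ρ) ∧
      (∀ h P, Pencil 1 (chg n f ρ) h P → IsCoprime (chg n f ρ) h) ∧
      chg n (chg n f ρ) ρ' = f := by
  classical
  let L := AlgebraicClosure K
  let φ : K →+* L := algebraMap K L
  have hcL : CharZero L := (RingHom.charZero_iff (algebraMap K L).injective).mp inferInstance
  obtain ⟨h1, h2, h3⟩ := prod_X_sub_C_aroots (L := L) hf hs
  set X2 := (f.aroots L).toFinset with hX2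
  obtain ⟨r, hrinj, hrgood⟩ := even_exists (F := K) X2 (by rw [h2, hfn]; exact hn)
  have hinj' : Function.Injective (fun a : {x // x ∈ X2} => aeval (a : L) r) := by
    intro a b hab
    exact Subtype.ext (hrinj a.2 b.2 hab)
  set D := X2.image (fun x => aeval x r) with hD
  have hchg : (chg n f r).map φ = ∏ a : {x // x ∈ X2}, (X - C (aeval (a : L) r)) := by
    have hcardA : Fintype.card {x // x ∈ X2} = n := by
      rw [Fintype.card_coe, h2, hfn]
    let e : Fin n ≃ {x // x ∈ X2} := (Fintype.equivFinOfCardEq hcardA).symm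
    have hfe : f.map φ = rootPoly (fun i => ((e i : {x // x ∈ X2}) : L)) := by
      rw [← h1]
      unfold rootPoly
      rw [← Finset.prod_coe_sort X2 (fun x => (X : L[X]) - C x),
        ← Equiv.prod_comp e (fun x => (X : L[X]) - C (x : L))]
    rw [chg_map, hfe, chg_rootPoly (fun i => ((e i : {x // x ∈ X2}) : L))
      (Subtype.val_injective.comp e.injective)]
    unfold rootPoly
    rw [← Equiv.prod_comp e (fun x => (X : L[X]) - C (aeval (x : L) r))]
    refine Finset.prod_congr rfl (fun i _ => ?_)
    show X - C (eval ((e i : {x // x ∈ X2}) : L) (Polynomial.map (algebraMap K L) r)) = _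
    rw [eval_map_algebraMap]
  have hchgD : (chg n f r).map φ = rootPoly (Subtype.val : {z // z ∈ D} → L) := by
    rw [s3_rootPoly_coe, hchg, hD, Finset.prod_image (fun a ha b hb h => hrinj ha hb h)]
    exact Finset.prod_coe_sort X2 (fun x => (X : L[X]) - C (aeval x r))
  have hsep : (chg n f r).Separable := by
    rw [← separable_map φ, hchgD]
    exact rootPoly_separable Subtype.val_injective
  have hmap1 : (1 : K[X]).map φ = 1 := Polynomial.map_one φ
  have hω : ∀ i : {z // z ∈ D}, (1 : L[X]).eval ((i : L)) ≠ 0 := by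
    intro i; rw [eval_one]; exact one_ne_zero
  have hndL : NonDeg (1 : L[X]) (rootPoly (Subtype.val : {z // z ∈ D} → L)) :=
    nonDeg_of_det Subtype.val_injective hω hrgood.1
  have hnd : NonDeg 1 (chg n f r) := by
    apply nonDeg_of_map φ
    rw [hmap1, hchgD]
    exact hndL
  -- the inverse change
  obtain ⟨ρ', hρ'⟩ := exists_chg (L := L) (g := chg n f r) hf hs hfn
    (fun a => aeval (a : L) r) hinj' (by
      intro σ a h
      show aeval (σ (a : L)) r = σ (aeval (a : L) r)
      rw [aeval_algHom_apply]) hchg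
  refine ⟨r, ρ', hsep, hnd, ?_, hρ'⟩
  intro h P HP
  have HL := pencil_map φ HP
  rw [hmap1, hchgD] at HL
  obtain ⟨-, v, hv, hroot⟩ := rootForm_of_pencil (by simp) Subtype.val_injective hω hndL HL
  have hcop : IsCoprime (h.map φ) (rootPoly (Subtype.val : {z // z ∈ D} → L)) := by
    apply isCoprime_rootPoly
    intro i
    rw [(hroot.2.2 i).1]
    exact mul_ne_zero (hrgood.2 v hv i) (B1.derivative_rootPoly_ne Subtype.val_injective i)
  rw [← hchgD, Polynomial.isCoprime_map] at hcop
  exact hcop.symm

end AnWA
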