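import Pool.Agent.H.MP_83e36b_nt.Defs

/-! Module A4: coefficientwise convergence of polynomials. -/

open Polynomial Filter Topology

namespace AnWA

variable {K T : Type*} [NormedField K] {l : Filter T}

theorem PolyTendsto.const (f : K[X]) : PolyTendsto l (fun _ => f) f := fun _ => tendsto_const_nhds

theorem PolyTendsto.add {f g : T → K[X]} {f0 g0 : K[X]} (hf : PolyTendsto l f f0)
    (hg : PolyTendsto l g g0) : PolyTendsto l (fun t => f t + g t) (f0 + g0) := by
  intro j
  simp only [coeff_add]
  exact (hf j).add (hg j)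

theorem PolyTendsto.sub {f g : T → K[X]} {f0 g0 : K[X]} (hf : PolyTendsto l f f0)
    (hg : PolyTendsto l g g0) : PolyTendsto l (fun t => f t - g t) (f0 - g0) := by
  intro j
  simp only [coeff_sub]
  exact (hf j).sub (hg j)

theorem PolyTendsto.mul {f g : T → K[X]} {f0 g0 : K[X]} (hf : PolyTendsto l f f0)
    (hg : PolyTendsto l g g0) : PolyTendsto l (fun t => f t * g t) (f0 * g0) := by
  intro j
  simp only [coeff_mul]
  exact tendsto_finsetSum _ fun p _ => (hf p.1).mul (hg p.2)

theorem PolyTendsto.C {a : T → K} {a0 : K} (ha : Tendsto a l (𝓝 a0)) :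
    PolyTendsto l (fun t => Polynomial.C (a t)) (Polynomial.C a0) := by
  intro j
  simp only [coeff_C]
  split_ifs
  · exact ha
  · exact tendsto_const_nhds

theorem PolyTendsto.derivative {f : T → K[X]} {f0 : K[X]} (hf : PolyTendsto l f f0) :
    PolyTendsto l (fun t => Polynomial.derivative (f t)) (Polynomial.derivative f0) := by
  intro j
  simp only [coeff_derivative]
  exact (hf _).mul_const _

theorem PolyTendsto.eval {f : T → K[X]} {f0 : K[X]} (hf : PolyTendsto l f f0) (N : ℕ)
    (hN : ∀ᶠ t in l, (f t).natDegree ≤ N) (hN0 : f0.natDegree ≤ N) {a : T → K} {a0 : K}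
    (ha : Tendsto a l (𝓝 a0)) :
    Tendsto (fun t => (f t).eval (a t)) l (𝓝 (f0.eval a0)) := by
  rw [eval_eq_sum_range' (Nat.lt_succ_of_le hN0)]
  have h : Tendsto (fun t => ∑ i ∈ Finset.range (N + 1), (f t).coeff i * a t ^ i) l
      (𝓝 (∑ i ∈ Finset.range (N + 1), f0.coeff i * a0 ^ i)) :=
    tendsto_finsetSum _ fun i _ => (hf i).mul (ha.pow i)
  refine h.congr' ?_
  filter_upwards [hN] with t ht
  rw [eval_eq_sum_range' (Nat.lt_succ_of_le ht)]

/-- the resultant with fixed degree arguments -/
theorem PolyTendsto.resultant_fixed {f g : T → K[X]} {f0 g0 : K[X]} (hf : PolyTendsto l f f0)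
    (hg : PolyTendsto l g g0) (m n : ℕ) :
    Tendsto (fun t => (f t).resultant (g t) m n) l (𝓝 (f0.resultant g0 m n)) := by
  have h : Tendsto (fun t => sylvester (f t) (g t) m n) l (𝓝 (sylvester f0 g0 m n)) := by
    refine tendsto_pi_nhds.2 fun i => tendsto_pi_nhds.2 fun j => ?_
    unfold sylvester
    simp only [Matrix.of_apply]
    induction j using Fin.addCases with
    | left j =>
      simp only [Fin.addCases_left]
      split_ifs
      · exact hg _
      · exact tendsto_const_nhds
    | right j =>
      simp only [Fin.addCases_right]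
      split_ifs
      · exact hf _
      · exact tendsto_const_nhds
  have hdet : Continuous (fun M : Matrix (Fin (m + n)) (Fin (m + n)) K => M.det) :=
    Continuous.matrix_det continuous_id
  exact (hdet.tendsto _).comp h

theorem PolyTendsto.resultant {f g : T → K[X]} {f0 g0 : K[X]} (hf : PolyTendsto l f f0)
    (hg : PolyTendsto l g g0) (hfd : ∀ᶠ t in l, (f t).natDegree = f0.natDegree)
    (hgd : ∀ᶠ t in l, (g t).natDegree = g0.natDegree) :
    Tendsto (fun t => (f t).resultant (g t)) l (𝓝 (f0.resultant g0)) := by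
  refine (hf.resultant_fixed hg f0.natDegree g0.natDegree).congr' ?_
  filter_upwards [hfd, hgd] with t h1 h2
  rw [h1, h2]

theorem PolyTendsto.discr {f : T → K[X]} {f0 : K[X]} (hf : PolyTendsto l f f0)
    (hfm : ∀ᶠ t in l, (f t).Monic) (hf0 : f0.Monic)
    (hfd : ∀ᶠ t in l, (f t).natDegree = f0.natDegree) :
    Tendsto (fun t => (f t).discr) l (𝓝 f0.discr) := by
  rcases Nat.eq_zero_or_pos f0.natDegree with h0 | hpos
  · have e0 : f0 = 1 := eq_one_of_monic_natDegree_zero hf0 h0
    refine (tendsto_const_nhds (x := f0.discr)).congr' ?_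
    filter_upwards [hfm, hfd] with t h1 h2
    rw [e0, eq_one_of_monic_natDegree_zero h1 (h2.trans h0)]
  · have key : ∀ p : K[X], p.Monic → p.natDegree = f0.natDegree →
        p.discr = (-1) ^ (f0.natDegree * (f0.natDegree - 1) / 2)
          * p.resultant (Polynomial.derivative p) f0.natDegree (f0.natDegree - 1) := by
      intro p hp hd
      have h1 := resultant_deriv (f := p) (natDegree_pos_iff_degree_pos.1 (by omega))
      rw [hp.leadingCoeff, mul_one, hd] at h1
      rw [h1, ← mul_assoc, ← pow_add, ← two_mul, pow_mul]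
      simp
    rw [key f0 hf0 rfl]
    refine ((hf.resultant_fixed hf.derivative _ _).const_mul _).congr' ?_
    filter_upwards [hfm, hfd] with t h1 h2
    rw [key _ h1 h2]

end AnWA
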