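import Pool.Agent.H.MP_83e36b_nt.Defs
import Pool.Agent.H.MP_83e36b_nt.A2b
import Pool.Agent.H.MP_83e36b_nt.A4
import Pool.Agent.H.MP_83e36b_nt.N1

/-! Module A5: continuity of the companions.
-/

open Polynomial Filter Topology

namespace AnWA

/-- Cramer's rule and continuity -/
lemma cramer_A5 {K T n : Type*} [NormedField K] {l : Filter T} [Fintype n] [DecidableEq n]
    {M : T → Matrix n n K} {M0 : Matrix n n K}
    (hM : ∀ i j, Tendsto (fun t => M t i j) l (𝓝 (M0 i j))) (hdet : M0.det ≠ 0)
    {b : T → n → K} {b0 : n → K} (hb : ∀ i, Tendsto (fun t => b t i) l (𝓝 (b0 i)))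
    {z0 : n → K} (h0 : M0.mulVec z0 = b0) (c : n) {y : T → K}
    (hy : ∀ᶠ t in l, ∃ z, (M t).mulVec z = b t ∧ z c = y t) : Tendsto y l (𝓝 (z0 c)) := by
  have key : ∀ (A : Matrix n n K) (z b : n → K), A.det ≠ 0 → A.mulVec z = b →
      z c = A.det⁻¹ * (A.adjugate.mulVec b) c := by
    intro A z b hA hz
    rw [← hz, Matrix.mulVec_mulVec, Matrix.adjugate_mul, Matrix.smul_mulVec, Matrix.one_mulVec,
      Pi.smul_apply, smul_eq_mul, ← mul_assoc, inv_mul_cancel₀ hA, one_mul]
  have hMt : Tendsto M l (𝓝 M0) := tendsto_pi_nhds.2 fun i => tendsto_pi_nhds.2 fun j => hM i j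
  have hdt : Tendsto (fun t => (M t).det) l (𝓝 M0.det) :=
    (continuous_id.matrix_det).continuousAt.tendsto.comp hMt
  have hadj : Tendsto (fun t => (M t).adjugate) l (𝓝 M0.adjugate) :=
    (continuous_id.matrix_adjugate).continuousAt.tendsto.comp hMt
  have hadj' : ∀ i j, Tendsto (fun t => (M t).adjugate i j) l (𝓝 (M0.adjugate i j)) :=
    fun i j => tendsto_pi_nhds.1 (tendsto_pi_nhds.1 hadj i) j
  have hmv : Tendsto (fun t => ((M t).adjugate.mulVec (b t)) c) l
      (𝓝 ((M0.adjugate.mulVec b0) c)) := by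
    unfold Matrix.mulVec dotProduct
    exact tendsto_finsetSum _ fun j _ => (hadj' c j).mul (hb j)
  rw [key M0 z0 b0 hdet h0]
  refine Tendsto.congr' ?_ ((hdt.inv₀ hdet).mul hmv)
  filter_upwards [hy, hdt.eventually_ne hdet] with t ht hne
  obtain ⟨z, hz, hzc⟩ := ht
  rw [← hzc]
  exact (key (M t) z (b t) hne hz).symm

lemma mulVec_coeff_A5 {K n : Type*} [CommRing K] [Fintype n] (col : n → K[X]) (row : n → ℕ)
    (v : n → K) : Matrix.mulVec (fun r c => (col c).coeff (row r)) v
      = fun r => (∑ c, C (v c) * col c).coeff (row r) := by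
  funext r
  rw [finsetSum_coeff]
  unfold Matrix.mulVec dotProduct
  refine Finset.sum_congr rfl fun c _ => ?_
  rw [coeff_C_mul, mul_comm]

lemma PolyTendsto.dOp {K T : Type*} [NormedField K] {l : Filter T} {ω : K[X]}
    {q w : T → K[X]} {q0 w0 : K[X]} (hq : PolyTendsto l q q0) (hw : PolyTendsto l w w0) :
    PolyTendsto l (fun t => dOp ω (q t) (w t)) (dOp ω q0 w0) := by
  unfold AnWA.dOp
  exact ((((PolyTendsto.const 2).mul (PolyTendsto.const ω)).mul hq.derivative).mul
    hw.derivative).add ((((PolyTendsto.const (Polynomial.derivative ω)).mul hq.derivative).sub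
      ((PolyTendsto.const ω).mul hq.derivative.derivative)).mul hw)

/-- columns `X^j q'` and `- q X^j` -/
noncomputable def syCol {K : Type*} [CommRing K] (q : K[X]) (m : ℕ) : Fin m ⊕ Fin m → K[X] :=
  Sum.elim (fun j => X ^ (j : ℕ) * derivative q) (fun j => - (q * X ^ (j : ℕ)))

/-- rows -/
def syRow (m : ℕ) : Fin m ⊕ Fin m → ℕ := Sum.elim (fun i => (i : ℕ)) (fun i => m + (i : ℕ))

/-- matrix of `(r, T) ↦ r q' - q T` -/
noncomputable def syMat {K : Type*} [CommRing K] (q : K[X]) (m : ℕ) :
    Matrix (Fin m ⊕ Fin m) (Fin m ⊕ Fin m) K :=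
  fun r c => (syCol q m c).coeff (syRow m r)

lemma syMat_mulVec {K : Type*} [Field K] {q r s : K[X]} {m : ℕ}
    (hr : r.degree < (m : ℕ)) (hs : s.degree < (m : ℕ)) :
    (syMat q m).mulVec (Sum.elim (fun j => r.coeff (j : ℕ)) (fun j => s.coeff (j : ℕ)))
      = fun i => (r * derivative q - q * s).coeff (syRow m i) := by
  have h := mulVec_coeff_A5 (syCol q m) (syRow m)
    (Sum.elim (fun j => r.coeff (j : ℕ)) (fun j => s.coeff (j : ℕ)))
  refine h.trans ?_
  funext i
  congr 1
  rw [Fintype.sum_sum_type]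
  simp only [syCol, Sum.elim_inl, Sum.elim_inr]
  have e1 : r * derivative q = ∑ j : Fin m, C (r.coeff (j : ℕ)) * (X ^ (j : ℕ) * derivative q) := by
    conv_lhs => rw [eq_sum_N1 hr]
    rw [Finset.sum_mul]
    refine Finset.sum_congr rfl fun j _ => ?_
    ring
  have e2 : q * s = ∑ j : Fin m, C (s.coeff (j : ℕ)) * (q * X ^ (j : ℕ)) := by
    conv_lhs => rw [eq_sum_N1 hs]
    rw [Finset.mul_sum]
    refine Finset.sum_congr rfl fun j _ => ?_
    ring
  rw [e1, e2, sub_eq_add_neg, ← Finset.sum_neg_distrib]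
  congr 1
  refine Finset.sum_congr rfl fun j _ => ?_
  ring

lemma syMat_det {K : Type*} [Field K] {q : K[X]} {m : ℕ} (hq : q.Monic) (hs : q.Separable)
    (hm : q.natDegree = m) : (syMat q m).det ≠ 0 := by
  intro hdet
  have hqd : q.degree = (m : ℕ) := by rw [degree_eq_natDegree hq.ne_zero, hm]
  have hqd1 : q.degree < ((m + 1 : ℕ) : WithBot ℕ) := by
    rw [hqd]
    exact_mod_cast Nat.lt_succ_self m
  obtain ⟨v, hv0, hv⟩ := Matrix.exists_mulVec_eq_zero_iff.2 hdet
  set r : K[X] := ∑ j : Fin m, C (v (Sum.inl j)) * X ^ (j : ℕ) with hr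
  set s : K[X] := ∑ j : Fin m, C (v (Sum.inr j)) * X ^ (j : ℕ) with hs'
  have hco : ∀ (u : Fin m → K) (j : Fin m),
      (∑ i : Fin m, C (u i) * X ^ (i : ℕ) : K[X]).coeff (j : ℕ) = u j := by
    intro u j
    rw [finsetSum_coeff]
    simp only [coeff_C_mul, coeff_X_pow]
    rw [Finset.sum_eq_single j]
    · simp
    · intro b _ hb
      rw [if_neg (fun h => hb (Fin.ext h.symm)), mul_zero]
    · intro h
      exact absurd (Finset.mem_univ _) h
  have hde : ∀ (u : Fin m → K),
      (∑ i : Fin m, C (u i) * X ^ (i : ℕ) : K[X]).degree < (m : ℕ) := by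
    intro u
    rw [degree_lt_iff_coeff_zero]
    intro k hk
    rw [finsetSum_coeff]
    refine Finset.sum_eq_zero fun j _ => ?_
    rw [coeff_C_mul, coeff_X_pow, if_neg (by have := j.2; omega), mul_zero]
  have hrd : r.degree < (m : ℕ) := hde _
  have hsd : s.degree < (m : ℕ) := hde _
  have hve : v = Sum.elim (fun j : Fin m => r.coeff (j : ℕ))
      (fun j : Fin m => s.coeff (j : ℕ)) := by
    funext i
    rcases i with j | j
    · exact (hco (fun i => v (Sum.inl i)) j).symm
    · exact (hco (fun i => v (Sum.inr i)) j).symm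
  have hz : r * derivative q - q * s = 0 := by
    have hdeg : (r * derivative q - q * s).degree < ((2 * m : ℕ) : WithBot ℕ) := by
      refine lt_of_le_of_lt (degree_sub_le _ _) (max_lt ?_ ?_)
      · exact degree_mono_N1 (degree_mul_lt_N1 hrd (degree_derivative_lt_N1 hqd1)) (by omega)
      · exact degree_mono_N1 (degree_mul_lt_N1 hqd1 hsd) (by omega)
    rw [degree_lt_iff_coeff_zero] at hdeg
    have hrow : ∀ i, (r * derivative q - q * s).coeff (syRow m i) = 0 := by
      intro i
      have := congrFun (syMat_mulVec (q := q) hrd hsd) i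
      rw [← hve, hv] at this
      exact this.symm
    ext i
    rw [coeff_zero]
    rcases Nat.lt_or_ge i (2 * m) with hi | hi
    · rcases Nat.lt_or_ge i m with h1 | h1
      · exact hrow (Sum.inl ⟨i, h1⟩)
      · have := hrow (Sum.inr ⟨i - m, by omega⟩)
        simp only [syRow, Sum.elim_inr] at this
        rwa [Nat.add_sub_cancel' h1] at this
    · exact hdeg i hi
  have hr0 : r = 0 := by
    have h1 : q ∣ r * derivative q := ⟨s, sub_eq_zero.1 hz⟩
    have h2 : q ∣ r := (show IsCoprime q (derivative q) from hs).dvd_of_dvd_mul_right h1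
    exact Polynomial.eq_zero_of_dvd_of_degree_lt h2 (by rw [hqd]; exact hrd)
  have hs0 : s = 0 := by
    rw [hr0, zero_mul, zero_sub, neg_eq_zero] at hz
    rcases mul_eq_zero.1 hz with h | h
    · exact absurd h hq.ne_zero
    · exact h
  apply hv0
  rw [hve, hr0, hs0]
  funext i
  rcases i with j | j <;> simp

lemma exists_ndVec_A5 {K : Type*} [Field K] {ω q h P : K[X]} {m : ℕ} (hω : ω.natDegree ≤ 1)
    (H : Pencil ω q h P) (hm : q.natDegree = m) (hpos : 0 < m) :
    ∃ z : Fin m ⊕ Fin (m - 1) → K, (ndMat ω q m).mulVec z =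
      (fun r => (-(dOp ω q q - C ((dOp ω q q).coeff (2 * m - 1)) * X ^ (m - 1) * q)).coeff
        (ndRow m r)) ∧ ∀ j : Fin m, z (Sum.inl j) = (h - q).coeff (j : ℕ) := by
  have hq := H.monic
  have hqd : q.degree = (m : ℕ) := by rw [degree_eq_natDegree hq.ne_zero, hm]
  have hωd : ω.degree < (2 : ℕ) := by
    refine lt_of_le_of_lt degree_le_natDegree ?_
    exact_mod_cast Nat.lt_succ_of_le hω
  have hqd1 : q.degree < ((m + 1 : ℕ) : WithBot ℕ) := by
    rw [hqd]
    exact_mod_cast Nat.lt_succ_self m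
  set w := h - q with hw
  have hwd : w.degree < (m : ℕ) := by
    rw [← hqd]
    exact H.hdeg
  set R := dOp ω q q with hR
  have hRd : R.degree < ((2 * m : ℕ) : WithBot ℕ) := by
    have hq' := degree_derivative_lt_N1 hqd1
    have hq'' := degree_derivative_lt_N1 hq'
    have hω' := degree_derivative_lt_N1 hωd
    have h2 : (2 * ω).degree < (2 : ℕ) := by
      rw [two_mul]
      exact lt_of_le_of_lt (degree_add_le _ _) (max_lt hωd hωd)
    rw [hR]
    unfold dOp
    refine lt_of_le_of_lt (degree_add_le _ _) (max_lt ?_ ?_)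
    · exact degree_mono_N1 (degree_mul_lt_N1 (degree_mul_lt_N1 h2 hq') hq') (by omega)
    · refine degree_mono_N1 (degree_mul_lt_N1 (A := m) ?_ hqd1) (by omega)
      refine lt_of_le_of_lt (degree_sub_le _ _) (max_lt ?_ ?_)
      · exact degree_mono_N1 (degree_mul_lt_N1 hω' hq') (by omega)
      · exact degree_mono_N1 (degree_mul_lt_N1 hωd hq'') (by omega)
  set R1 := R - C (R.coeff (2 * m - 1)) * X ^ (m - 1) * q with hR1
  have hR1d : R1.degree < ((2 * m - 1 : ℕ) : WithBot ℕ) := by
    rw [degree_lt_iff_coeff_zero] at hRd ⊢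
    intro k hk
    rw [hR1, coeff_sub, mul_assoc, coeff_C_mul, coeff_X_pow_mul']
    rcases Nat.lt_or_ge (2 * m - 1) k with h1 | h1
    · have hq0 : q.coeff (k - (m - 1)) = 0 := coeff_eq_zero_of_natDegree_lt (by omega)
      rw [hRd k (by omega), if_pos (by omega), hq0]
      simp
    · have hk' : k = 2 * m - 1 := by omega
      rw [hk', if_pos (by omega)]
      have : 2 * m - 1 - (m - 1) = q.natDegree := by omega
      rw [this, hq.coeff_natDegree]
      ring
  obtain ⟨u, hu⟩ := H.hD
  have hh : h = q + w := by rw [hw]; ring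
  have hsum : dOp ω q w + R = q * u := by
    rw [← hu, hR, hh, dOp_add_N1]
    ring
  set s := C (R.coeff (2 * m - 1)) * X ^ (m - 1) - u with hs
  have hqs : dOp ω q w + q * s = -R1 := by
    rw [hs, hR1, mul_sub, ← hsum]
    ring
  have hsd : s.degree < ((m - 1 : ℕ) : WithBot ℕ) := by
    have h1 : (q * s).degree < ((2 * m - 1 : ℕ) : WithBot ℕ) := by
      have e : q * s = -R1 - dOp ω q w := by rw [← hqs]; ring
      rw [e]
      refine lt_of_le_of_lt (degree_sub_le _ _) (max_lt ?_ ?_)
      · rw [degree_neg]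
        exact hR1d
      · exact degree_dOp_lt_N1 hωd hqd1 hwd hpos
    rcases eq_or_ne s 0 with h | h
    · rw [h, degree_zero]
      exact WithBot.bot_lt_coe _
    · rw [degree_mul, hqd, degree_eq_natDegree h] at h1
      rw [degree_eq_natDegree h]
      have h2 : m + s.natDegree < 2 * m - 1 := by exact_mod_cast h1
      have h3 : s.natDegree < m - 1 := by omega
      exact_mod_cast h3
  refine ⟨Sum.elim (fun j => w.coeff (j : ℕ)) (fun j => s.coeff (j : ℕ)), ?_, ?_⟩
  · rw [ndMat_mulVec hwd hsd, hqs]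
  · intro j
    rfl


/-- the main part of `P` -/
noncomputable def mainP {K : Type*} [Field K] (ω q h : K[X]) (m : ℕ) : K[X] :=
  C (ω.coeff 1 / 2) * X ^ 2
      + C (ω.coeff 0 + 2 * ω.coeff 1 * (h - q).coeff (m - 1)) * X

lemma exists_syVec_A5 {K : Type*} [Field K] {ω q h P : K[X]} {m : ℕ} (hω : ω.natDegree ≤ 1)
    (H : Pencil ω q h P) (hm : q.natDegree = m) :
    (P - mainP ω q h m * q).degree < (m : ℕ) ∧
    ∃ z : Fin m ⊕ Fin m → K, (syMat q m).mulVec z =
      (fun i => (-(ω * (h - q) ^ 2)).coeff (syRow m i)) ∧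
      ∀ j : Fin m, z (Sum.inl j) = (P - mainP ω q h m * q).coeff (j : ℕ) := by
  have hq := H.monic
  have hqd : q.degree = (m : ℕ) := by rw [degree_eq_natDegree hq.ne_zero, hm]
  have hωd : ω.degree < (2 : ℕ) := by
    refine lt_of_le_of_lt degree_le_natDegree ?_
    exact_mod_cast Nat.lt_succ_of_le hω
  have hqd1 : q.degree < ((m + 1 : ℕ) : WithBot ℕ) := by
    rw [hqd]
    exact_mod_cast Nat.lt_succ_self m
  set w := h - q with hw
  have hwd : w.degree < (m : ℕ) := by
    rw [← hqd]
    exact H.hdeg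
  obtain ⟨r, hr, hP⟩ := H.form
  rw [hm] at hP
  have hP' : P - mainP ω q h m * q = r := by
    rw [hP]
    unfold mainP
    ring
  have hrd : r.degree < (m : ℕ) := by
    rw [← hqd]
    exact hr
  set Pi0 := mainP ω q h m with hPi0
  have hPr : P = Pi0 * q + r := by rw [← hP']; ring
  have hh : h = q + w := by rw [hw]; ring
  set s := derivative Pi0 * q + derivative r - ω * q - 2 * ω * w with hs
  have hqs : r * derivative q - q * s = -(ω * w ^ 2) := by
    have h1 := H.wr_eq
    unfold wr at h1
    rw [hPr, hh, derivative_add, derivative_mul] at h1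
    rw [hs]
    linear_combination (-1 : K[X]) * h1
  have hsd : s.degree < (m : ℕ) := by
    have h1 : (q * s).degree < ((2 * m : ℕ) : WithBot ℕ) := by
      have e : q * s = r * derivative q + ω * w ^ 2 := by
        linear_combination (-1 : K[X]) * hqs
      rw [e]
      refine lt_of_le_of_lt (degree_add_le _ _) (max_lt ?_ ?_)
      · exact degree_mono_N1 (degree_mul_lt_N1 hrd (degree_derivative_lt_N1 hqd1)) (by omega)
      · rw [pow_two, ← mul_assoc]
        rcases Nat.eq_zero_or_pos m with h0 | hpos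
        · have hw0 : w = 0 := by
            subst h0
            rw [degree_lt_iff_coeff_zero] at hwd
            ext i
            rw [coeff_zero]
            exact hwd i (Nat.zero_le i)
          rw [hw0, mul_zero, degree_zero]
          exact WithBot.bot_lt_coe _
        · exact degree_mono_N1 (degree_mul_lt_N1 (degree_mul_lt_N1 hωd hwd) hwd) (by omega)
    rcases eq_or_ne s 0 with h | h
    · rw [h, degree_zero]
      exact WithBot.bot_lt_coe _
    · rw [degree_mul, hqd, degree_eq_natDegree h] at h1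
      rw [degree_eq_natDegree h]
      have h2 : m + s.natDegree < 2 * m := by exact_mod_cast h1
      have h3 : s.natDegree < m := by omega
      exact_mod_cast h3
  rw [hP']
  refine ⟨hrd, Sum.elim (fun j => r.coeff (j : ℕ)) (fun j => s.coeff (j : ℕ)), ?_, ?_⟩
  · rw [syMat_mulVec hrd hsd, hqs]
  · intro j
    rfl

theorem pencil_tendsto {K T : Type*} [NormedField K] [CharZero K] {l : Filter T}
    {ω q0 h0 P0 : K[X]} (hω : ω.natDegree ≤ 1) (hnd : NonDeg ω q0) (H0 : Pencil ω q0 h0 P0)
    (q : T → K[X]) (hq : ∀ t, (q t).Monic ∧ (q t).natDegree = q0.natDegree)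
    (hlim : PolyTendsto l q q0) :
    (∀ᶠ t in l, (q t).Separable ∧ NonDeg ω (q t)) ∧
    ∀ h P : T → K[X], (∀ᶠ t in l, Pencil ω (q t) (h t) (P t)) →
      PolyTendsto l h h0 ∧ PolyTendsto l P P0 := by
  obtain ⟨m, hm⟩ : ∃ m, q0.natDegree = m := ⟨_, rfl⟩
  have hqm : ∀ t, (q t).natDegree = m := fun t => by rw [(hq t).2, hm]
  have hdet0 := (nonDeg_iff_det hω H0.monic hm).1 hnd
  have hndM : ∀ i j, Tendsto (fun t => ndMat ω (q t) m i j) l (𝓝 (ndMat ω q0 m i j)) := by
    intro i j
    have hcol : PolyTendsto l (fun t => ndCol ω (q t) m j) (ndCol ω q0 m j) := by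
      rcases j with j | j
      · exact hlim.dOp (PolyTendsto.const _)
      · exact hlim.mul (PolyTendsto.const _)
    exact hcol _
  have hdt : Tendsto (fun t => (ndMat ω (q t) m).det) l (𝓝 (ndMat ω q0 m).det) :=
    (continuous_id.matrix_det).continuousAt.tendsto.comp
      (tendsto_pi_nhds.2 fun i => tendsto_pi_nhds.2 fun j => hndM i j)
  refine ⟨?_, ?_⟩
  · have hdisc : Tendsto (fun t => (q t).discr) l (𝓝 q0.discr) :=
      hlim.discr (Eventually.of_forall fun t => (hq t).1) H0.monic
        (Eventually.of_forall fun t => (hq t).2)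
    have h1 : q0.discr ≠ 0 := (discr_ne_zero_iff_separable H0.monic).2 H0.sep
    filter_upwards [hdisc.eventually_ne h1, hdt.eventually_ne hdet0] with t ht1 ht2
    exact ⟨(discr_ne_zero_iff_separable (hq t).1).1 ht1,
      (nonDeg_iff_det hω (hq t).1 (hqm t)).2 ht2⟩
  intro h P hP
  have hqd : ∀ t, (q t).degree = (m : ℕ) := fun t => by
    rw [degree_eq_natDegree (hq t).1.ne_zero, hqm]
  have hq0d : q0.degree = (m : ℕ) := by rw [degree_eq_natDegree H0.monic.ne_zero, hm]
  -- convergence of `h - q`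
  have hw : PolyTendsto l (fun t => h t - q t) (h0 - q0) := by
    intro j
    rcases Nat.lt_or_ge j m with hj | hj
    · have hpos : 0 < m := by omega
      obtain ⟨z0, hz0, hz0'⟩ := exists_ndVec_A5 hω H0 hm hpos
      have hR : PolyTendsto l (fun t => dOp ω (q t) (q t)) (dOp ω q0 q0) := hlim.dOp hlim
      have hR1 : PolyTendsto l (fun t => -(dOp ω (q t) (q t)
          - C ((dOp ω (q t) (q t)).coeff (2 * m - 1)) * X ^ (m - 1) * q t))
          (-(dOp ω q0 q0 - C ((dOp ω q0 q0).coeff (2 * m - 1)) * X ^ (m - 1) * q0)) := by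
        intro i
        have := (hR.sub (((PolyTendsto.C (hR (2 * m - 1))).mul
          (PolyTendsto.const (X ^ (m - 1)))).mul hlim)) i
        simp only [coeff_neg]
        exact this.neg
      have := cramer_A5 hndM hdet0 (fun i => hR1 (ndRow m i)) hz0 (Sum.inl ⟨j, hj⟩)
        (y := fun t => (h t - q t).coeff j) (by
          filter_upwards [hP] with t ht
          obtain ⟨z, hz, hz'⟩ := exists_ndVec_A5 hω ht (hqm t) hpos
          exact ⟨z, hz, hz' ⟨j, hj⟩⟩)
      rw [hz0' ⟨j, hj⟩] at this
      exact this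
    · have e0 : (h0 - q0).coeff j = 0 := by
        have := H0.hdeg
        rw [hq0d, degree_lt_iff_coeff_zero] at this
        exact this j hj
      rw [e0]
      refine Tendsto.congr' ?_ tendsto_const_nhds
      filter_upwards [hP] with t ht
      have := ht.hdeg
      rw [hqd, degree_lt_iff_coeff_zero] at this
      exact (this j hj).symm
  have hh : PolyTendsto l h h0 := by
    have := hw.add hlim
    intro j
    have h1 := this j
    simpa using h1
  refine ⟨hh, ?_⟩
  have hmain : PolyTendsto l (fun t => mainP ω (q t) (h t) m) (mainP ω q0 h0 m) := by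
    unfold mainP
    refine (PolyTendsto.const _).add ((PolyTendsto.C ?_).mul (PolyTendsto.const X))
    exact tendsto_const_nhds.add (tendsto_const_nhds.mul (hw (m - 1)))
  have hr : PolyTendsto l (fun t => P t - mainP ω (q t) (h t) m * q t)
      (P0 - mainP ω q0 h0 m * q0) := by
    obtain ⟨hr0, z0, hz0, hz0'⟩ := exists_syVec_A5 hω H0 hm
    intro j
    rcases Nat.lt_or_ge j m with hj | hj
    · have hsyM : ∀ i c, Tendsto (fun t => syMat (q t) m i c) l (𝓝 (syMat q0 m i c)) := by
        intro i c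
        have hcol : PolyTendsto l (fun t => syCol (q t) m c) (syCol q0 m c) := by
          rcases c with c | c
          · exact (PolyTendsto.const _).mul hlim.derivative
          · intro a
            have := (hlim.mul (PolyTendsto.const (X ^ (c : ℕ)))) a
            simp only [syCol, Sum.elim_inr, coeff_neg]
            exact this.neg
        exact hcol _
      have hb : PolyTendsto l (fun t => -(ω * (h t - q t) ^ 2)) (-(ω * (h0 - q0) ^ 2)) := by
        intro i
        have := ((PolyTendsto.const ω).mul (hw.mul hw)) i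
        simp only [coeff_neg, pow_two]
        exact this.neg
      have := cramer_A5 hsyM (syMat_det H0.monic H0.sep hm) (fun i => hb (syRow m i)) hz0
        (Sum.inl ⟨j, hj⟩) (y := fun t => (P t - mainP ω (q t) (h t) m * q t).coeff j) (by
          filter_upwards [hP] with t ht
          obtain ⟨_, z, hz, hz'⟩ := exists_syVec_A5 hω ht (hqm t)
          exact ⟨z, hz, hz' ⟨j, hj⟩⟩)
      rw [hz0' ⟨j, hj⟩] at this
      exact this
    · rw [degree_lt_iff_coeff_zero] at hr0
      rw [hr0 j hj]
      refine Tendsto.congr' ?_ tendsto_const_nhds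
      filter_upwards [hP] with t ht
      obtain ⟨h1, _⟩ := exists_syVec_A5 hω ht (hqm t)
      rw [degree_lt_iff_coeff_zero] at h1
      exact (h1 j hj).symm
  have := hr.add (hmain.mul hlim)
  intro j
  have h1 := this j
  simpa using h1

end AnWA
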