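import Pool.Agent.H.MP_83e36b_nt.Defs
import Pool.Agent.H.MP_83e36b_nt.A1b
import Pool.Agent.H.MP_83e36b_nt.A2a
import Pool.Agent.H.MP_83e36b_nt.A2b
import Pool.Agent.H.MP_83e36b_nt.A3a
import Pool.Agent.H.MP_83e36b_nt.A3b

/-! Module H1a: the square root of c * discriminant of a member (weights 2X and 1).

PROOF. (NOTE: generalised to the twists c*disc f = y^2, c in K.) f:=P-C t*q is monic of degree n. discr_chg: discr(chg n f ρ)=discr f·chgDet². yTwo_sq: f(0)=P(0)-tq(0)=-c·discr(q)z²q(0); discr_two: discr f·discr q·Res(f,q)²=(2^{m+1}Res(f,h)Res(q,h))²·c·discr(q)z²q(0)²; multiply by c and cancel discr q≠0 (q separable). yOne_sq: discr_one (m=n-1 even): c·discr f·(c·discr q)·Res(f,q)² = c²(Res(f,h)Res(q,h))², w≠0 because c≠0 and discr q≠0. exists_z: c≠0, discr f≠0 since y≠0; c·discr f·chgDet²=y²≠0; from discr_two f(0)q(0)≠0, Res(f,h),Res(q,h)≠0. -c·f(0)q(0)discr(q)·(2^{m+1}Res(f,h)Res(q,h))² = c·discr f·(discr q·Res(f,q))², so -c f(0)q(0)discr q is a square u² (u = y/chgDet·discr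 q·Res(f,q)/(2^{m+1}Res(f,h)Res(q,h))); with z0=u/(c·q(0)·discr q): c·discr q·z0²=-f(0)/q(0)=t-P(0)/q(0). By yTwo_sq yTwo(z0)²=y², so yTwo(z0)=±y; take z=±z0 (yTwo is linear in z). exists_w: define w=c·Res(f,h)Res(q,h)chgDet/(y·Res(f,q)): w²=c·discr q by discr_one and discr_chg; w≠0; y=yOne.
-/

open Polynomial

namespace AnWA

/-- the square root of `c * discr (chg n (P - t q) ρ)` for the weight `2X` -/
noncomputable def yTwo {K : Type*} [Field K] (n : ℕ) (c : K) (q h f ρ : K[X]) (z : K) : K :=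
  2 ^ (q.natDegree + 1) * f.resultant h * q.resultant h * q.eval 0 * c * z / f.resultant q
    * chgDet n f ρ

/-- the square root of `c * discr (chg n (P - t q) ρ)` for the weight `1`, `w² = c * discr q` -/
noncomputable def yOne {K : Type*} [Field K] (n : ℕ) (c : K) (q h f ρ : K[X]) (w : K) : K :=
  c * f.resultant h * q.resultant h / (w * f.resultant q) * chgDet n f ρ

private theorem memberMonic {K : Type*} [Field K] {q P : K[X]} {t : K} (hP : P.Monic)
    (hlt : q.natDegree < P.natDegree) :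
    (P - C t * q).Monic ∧ (P - C t * q).natDegree = P.natDegree := by
  have h1 : (C t * q).natDegree < P.natDegree := (natDegree_C_mul_le t q).trans_lt hlt
  have h2 : (C t * q).degree < P.degree := degree_lt_degree h1
  exact ⟨hP.sub_of_left h2, natDegree_sub_eq_left_of_natDegree_lt h1⟩

private theorem member_eval {K : Type*} [Field K] {q P : K[X]} {t : K} :
    (P - C t * q).eval 0 = P.eval 0 - t * q.eval 0 := by
  simp

/-- the basic identity for the weight `2X` -/
private theorem key_two {K : Type*} [Field K] [CharZero K] {n : ℕ} {q h P ρ : K[X]} {t : K}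
    (H : Pencil (2 * X) q h P) (hn : q.natDegree + 2 = n)
    (hs : (P - C t * q).Separable) :
    (P - C t * q).Monic ∧
    (chg n (P - C t * q) ρ).discr = (P - C t * q).discr * (chgDet n (P - C t * q) ρ) ^ 2 ∧
    (P - C t * q).discr * q.discr * ((P - C t * q).resultant q) ^ 2 =
      - (2 ^ (q.natDegree + 1) * (P - C t * q).resultant h * q.resultant h) ^ 2
        * ((P - C t * q).eval 0 * q.eval 0) := by
  obtain ⟨hPm, hPd⟩ := pencil_P_two H
  obtain ⟨hhm, hhd⟩ := pencil_h_monic H
  obtain ⟨h1, h2⟩ := memberMonic (t := t) hPm (by omega : q.natDegree < P.natDegree)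
  exact ⟨h1, discr_chg h1 (by omega) hs ρ,
    discr_two H.monic hhm hhd hPm hPd H.wr_eq rfl⟩

/-- the basic identity for the weight `1` -/
private theorem key_one {K : Type*} [Field K] [CharZero K] {n : ℕ} {q h P ρ : K[X]} {t : K}
    (H : Pencil 1 q h P) (hn : q.natDegree + 1 = n) (hodd : Odd n)
    (hs : (P - C t * q).Separable) :
    (P - C t * q).Monic ∧
    (chg n (P - C t * q) ρ).discr = (P - C t * q).discr * (chgDet n (P - C t * q) ρ) ^ 2 ∧
    (P - C t * q).discr * q.discr * ((P - C t * q).resultant q) ^ 2 =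
      ((P - C t * q).resultant h * q.resultant h) ^ 2 := by
  obtain ⟨hPm, hPd⟩ := pencil_P_one H
  obtain ⟨hhm, hhd⟩ := pencil_h_monic H
  obtain ⟨h1, h2⟩ := memberMonic (t := t) hPm (by omega : q.natDegree < P.natDegree)
  have hev : Even q.natDegree := by
    rw [← hn] at hodd
    rcases Nat.even_or_odd q.natDegree with h | h
    · exact h
    · exact absurd (h.add_odd odd_one) (Nat.not_even_iff_odd.2 hodd)
  have hw : wr P q = h ^ 2 := by rw [H.wr_eq, one_mul]
  exact ⟨h1, discr_chg h1 (by omega) hs ρ,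
    discr_one H.monic hhm hhd hPm hPd hev hw rfl⟩

theorem yTwo_sq {K : Type*} [Field K] [CharZero K] {n : ℕ} {q h P ρ : K[X]} {c z t : K}
    (H : Pencil (2 * X) q h P) (hn : q.natDegree + 2 = n) (hq0 : q.eval 0 ≠ 0)
    (ht : t = P.eval 0 / q.eval 0 + c * q.discr * z ^ 2)
    (hres : (P - C t * q).resultant q ≠ 0) (hs : (P - C t * q).Separable) :
    c * (chg n (P - C t * q) ρ).discr = (yTwo n c q h (P - C t * q) ρ z) ^ 2 := by
  obtain ⟨-, h1, h2⟩ := key_two (ρ := ρ) H hn hs
  have hdq : q.discr ≠ 0 := (discr_ne_zero_iff_separable H.monic).2 H.sep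
  have hf0 : (P - C t * q).eval 0 = - (c * q.discr * z ^ 2 * q.eval 0) := by
    rw [member_eval]
    have h3 : t * q.eval 0 = P.eval 0 + c * q.discr * z ^ 2 * q.eval 0 := by
      conv_lhs => rw [ht]
      field_simp
    rw [h3]
    ring
  rw [hf0] at h2
  rw [h1, yTwo]
  generalize (P - C t * q).discr = fd at *
  generalize (P - C t * q).resultant q = R at *
  generalize (P - C t * q).resultant h = B at *
  generalize q.resultant h = B' at *
  generalize chgDet n (P - C t * q) ρ = D at *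
  generalize q.discr = dq at *
  generalize q.eval 0 = q0 at *
  generalize (2 : K) ^ (q.natDegree + 1) = E at *
  have h3 : fd * R ^ 2 = c * (E * B * B' * q0 * z) ^ 2 := by
    apply mul_left_cancel₀ hdq
    linear_combination h2
  have h4 : (E * B * B' * q0 * c * z / R * D) ^ 2 =
      c * (c * (E * B * B' * q0 * z) ^ 2) * D ^ 2 / R ^ 2 := by
    rw [mul_pow, div_pow]
    ring
  rw [h4, ← h3]
  field_simp

theorem yOne_sq {K : Type*} [Field K] [CharZero K] {n : ℕ} {q h P ρ : K[X]} {c w t : K}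
    (H : Pencil 1 q h P) (hn : q.natDegree + 1 = n) (hodd : Odd n)
    (hc : c ≠ 0) (hw : c * q.discr = w ^ 2)
    (hres : (P - C t * q).resultant q ≠ 0) (hs : (P - C t * q).Separable) :
    c * (chg n (P - C t * q) ρ).discr = (yOne n c q h (P - C t * q) ρ w) ^ 2 := by
  obtain ⟨-, h1, h2⟩ := key_one (ρ := ρ) H hn hodd hs
  have hdq : q.discr ≠ 0 := (discr_ne_zero_iff_separable H.monic).2 H.sep
  have hw0 : w ≠ 0 := by
    rintro rfl
    apply mul_ne_zero hc hdq
    rw [hw]
    ring
  rw [h1, yOne]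
  generalize (P - C t * q).discr = fd at *
  generalize (P - C t * q).resultant q = R at *
  generalize (P - C t * q).resultant h = B at *
  generalize q.resultant h = B' at *
  generalize chgDet n (P - C t * q) ρ = D at *
  generalize q.discr = dq at *
  have h3 : c * fd * w ^ 2 * R ^ 2 = (c * B * B') ^ 2 := by
    linear_combination c ^ 2 * h2 - c * fd * R ^ 2 * hw
  have h4 : (c * B * B' / (w * R) * D) ^ 2 = (c * B * B') ^ 2 * D ^ 2 / (w ^ 2 * R ^ 2) := by
    field_simp
  rw [h4, ← h3]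
  field_simp

/-- local choice of `z` -/
theorem exists_z {K : Type*} [Field K] [CharZero K] {n : ℕ} {q h P ρ f : K[X]} {c t y : K}
    (H : Pencil (2 * X) q h P) (hn : q.natDegree + 2 = n)
    (hcop : IsCoprime (P - C t * q) q) (hs : (P - C t * q).Separable)
    (hf : chg n (P - C t * q) ρ = f) (hy : c * f.discr = y ^ 2) (hy0 : y ≠ 0) :
    q.eval 0 ≠ 0 ∧ ∃ z : K, t = P.eval 0 / q.eval 0 + c * q.discr * z ^ 2 ∧
      y = yTwo n c q h (P - C t * q) ρ z := by
  obtain ⟨hm, h1, h2⟩ := key_two (ρ := ρ) H hn hs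
  have hdq : q.discr ≠ 0 := (discr_ne_zero_iff_separable H.monic).2 H.sep
  have hres : (P - C t * q).resultant q ≠ 0 := (resultant_ne_zero_iff_isCoprime hm H.monic).2 hcop
  have hev := member_eval (q := q) (P := P) (t := t)
  rw [hf] at h1
  rw [h1] at hy
  simp only [yTwo]
  generalize (P - C t * q).discr = fd at *
  generalize (P - C t * q).resultant q = R at *
  generalize (P - C t * q).resultant h = B at *
  generalize q.resultant h = B' at *
  generalize chgDet n (P - C t * q) ρ = D at *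
  generalize (P - C t * q).eval 0 = f0 at *
  generalize q.discr = dq at *
  generalize q.eval 0 = q0 at *
  generalize P.eval 0 = P0 at *
  generalize (2 : K) ^ (q.natDegree + 1) = E at *
  have hy1 : c * (fd * D ^ 2) ≠ 0 := by rw [hy]; exact pow_ne_zero 2 hy0
  have hc : c ≠ 0 := left_ne_zero_of_mul hy1
  have hy2 : fd * D ^ 2 ≠ 0 := right_ne_zero_of_mul hy1
  have hfd : fd ≠ 0 := left_ne_zero_of_mul hy2
  have hD : D ≠ 0 := by
    rintro rfl
    simp at hy2
  have h3 : -(E * B * B') ^ 2 * (f0 * q0) ≠ 0 := by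
    rw [← h2]
    exact mul_ne_zero (mul_ne_zero hfd hdq) (pow_ne_zero 2 hres)
  have hA : E * B * B' ≠ 0 := by
    intro h0
    rw [h0] at h3
    simp at h3
  have hq0 : q0 ≠ 0 := by
    rintro rfl
    simp at h3
  refine ⟨hq0, y * R / (D * (E * B * B') * q0 * c), ?_, ?_⟩
  · have h4 : c * dq * (y * R / (D * (E * B * B') * q0 * c)) ^ 2 = - f0 / q0 := by
      have h5 : c * dq * (y * R / (D * (E * B * B') * q0 * c)) ^ 2 =
          c * dq * y ^ 2 * R ^ 2 / (D ^ 2 * (E * B * B') ^ 2 * q0 ^ 2 * c ^ 2) := by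
        rw [div_pow]
        ring
      rw [h5, ← hy, div_eq_div_iff (mul_ne_zero (mul_ne_zero (mul_ne_zero (pow_ne_zero 2 hD)
        (pow_ne_zero 2 hA)) (pow_ne_zero 2 hq0)) (pow_ne_zero 2 hc)) hq0]
      linear_combination (c ^ 2 * q0 * D ^ 2) * h2
    rw [h4, hev]
    field_simp
    ring
  · have hEBB : E * B * B' * q0 * c * (y * R / (D * (E * B * B') * q0 * c)) / R * D = y := by
      have hE : E ≠ 0 := left_ne_zero_of_mul (left_ne_zero_of_mul hA)
      have hB : B ≠ 0 := right_ne_zero_of_mul (left_ne_zero_of_mul hA)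
      have hB' : B' ≠ 0 := right_ne_zero_of_mul hA
      field_simp
    exact hEBB.symm

/-- local choice of `w` -/
theorem exists_w {K : Type*} [Field K] [CharZero K] {n : ℕ} {q h P ρ f : K[X]} {c t y : K}
    (H : Pencil 1 q h P) (hn : q.natDegree + 1 = n) (hodd : Odd n)
    (hcop : IsCoprime (P - C t * q) q) (hs : (P - C t * q).Separable)
    (hf : chg n (P - C t * q) ρ = f) (hy : c * f.discr = y ^ 2) (hy0 : y ≠ 0) :
    ∃ w : K, w ≠ 0 ∧ c * q.discr = w ^ 2 ∧ y = yOne n c q h (P - C t * q) ρ w := by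
  obtain ⟨hm, h1, h2⟩ := key_one (ρ := ρ) H hn hodd hs
  have hdq : q.discr ≠ 0 := (discr_ne_zero_iff_separable H.monic).2 H.sep
  have hres : (P - C t * q).resultant q ≠ 0 := (resultant_ne_zero_iff_isCoprime hm H.monic).2 hcop
  rw [hf] at h1
  rw [h1] at hy
  simp only [yOne]
  generalize (P - C t * q).discr = fd at *
  generalize (P - C t * q).resultant q = R at *
  generalize (P - C t * q).resultant h = B at *
  generalize q.resultant h = B' at *
  generalize chgDet n (P - C t * q) ρ = D at *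
  generalize q.discr = dq at *
  have hy1 : c * (fd * D ^ 2) ≠ 0 := by rw [hy]; exact pow_ne_zero 2 hy0
  have hc : c ≠ 0 := left_ne_zero_of_mul hy1
  have hy2 : fd * D ^ 2 ≠ 0 := right_ne_zero_of_mul hy1
  have hfd : fd ≠ 0 := left_ne_zero_of_mul hy2
  have hD : D ≠ 0 := by
    rintro rfl
    simp at hy2
  have h3 : (B * B') ^ 2 ≠ 0 := by
    rw [← h2]
    exact mul_ne_zero (mul_ne_zero hfd hdq) (pow_ne_zero 2 hres)
  have hBB : B * B' ≠ 0 := by
    intro h0
    rw [h0] at h3
    simp at h3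
  have hB : B ≠ 0 := left_ne_zero_of_mul hBB
  have hB' : B' ≠ 0 := right_ne_zero_of_mul hBB
  refine ⟨c * B * B' * D / (y * R), ?_, ?_, ?_⟩
  · exact div_ne_zero (mul_ne_zero (mul_ne_zero (mul_ne_zero hc hB) hB') hD) (mul_ne_zero hy0 hres)
  · rw [div_pow, eq_div_iff (pow_ne_zero 2 (mul_ne_zero hy0 hres))]
    linear_combination -(c * dq * R ^ 2) * hy + c ^ 2 * D ^ 2 * h2
  · field_simp

end AnWA
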