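import Pool.Agent.H.MP_83e36b_nt.Defs

/-! Module H1b: approximating sequences over k.

PROOF. exists_seq: FieldWA with ε=1/(N+1), choose. exists_seq_poly: sum over j ≤ d of C(x_j N) X^j with x_j from exists_seq for the coefficients. exists_seq_monic: X^d + lower terms. exists_of_tendsto: for each i and each j<n eventually (finitely many conditions, Finite ι); for j=n both coefficients are 1, for j>n both are 0.
-/

open Polynomial Filter Topology

namespace AnWA

variable {k : Type*} [Field k] {ι : Type*} [Finite ι] {K : ι → Type*} [∀ i, NormedField (K i)]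
  {φ : ∀ i, k →+* K i}

omit [Finite ι] in
theorem exists_seq (hWA : FieldWA φ) (a : ∀ i, K i) :
    ∃ x : ℕ → k, ∀ i, Tendsto (fun N => φ i (x N)) atTop (𝓝 (a i)) := by
  have h : ∀ N : ℕ, ∃ x : k, ∀ i, ‖φ i x - a i‖ < 1 / ((N : ℝ) + 1) := fun N =>
    hWA a _ (by positivity)
  choose x hx using h
  refine ⟨x, fun i => ?_⟩
  rw [tendsto_iff_norm_sub_tendsto_zero]
  exact squeeze_zero (fun N => norm_nonneg _) (fun N => (hx N i).le)
    tendsto_one_div_add_atTop_nhds_zero_nat

omit [Finite ι] in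
theorem exists_seq_poly (hWA : FieldWA φ) (d : ℕ) (p : ∀ i, (K i)[X])
    (hp : ∀ i, (p i).natDegree ≤ d) :
    ∃ P : ℕ → k[X], (∀ N, (P N).natDegree ≤ d) ∧
      ∀ i, PolyTendsto atTop (fun N => (P N).map (φ i)) (p i) := by
  have h : ∀ j : ℕ, ∃ x : ℕ → k, ∀ i, Tendsto (fun N => φ i (x N)) atTop (𝓝 ((p i).coeff j)) :=
    fun j => exists_seq hWA fun i => (p i).coeff j
  choose x hx using h
  have hco : ∀ N j, (∑ l ∈ Finset.range (d + 1), C (x l N) * X ^ l : k[X]).coeff j =
      if j < d + 1 then x j N else 0 := by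
    intro N j
    rw [Polynomial.finsetSum_coeff]
    simp only [Polynomial.coeff_C_mul_X_pow, Finset.sum_ite_eq, Finset.mem_range]
  refine ⟨fun N => ∑ l ∈ Finset.range (d + 1), C (x l N) * X ^ l, ?_, ?_⟩
  · intro N
    rw [Polynomial.natDegree_le_iff_coeff_eq_zero]
    intro j hj
    rw [hco, if_neg (by omega)]
  · intro i j
    simp only [Polynomial.coeff_map, hco]
    by_cases hj : j < d + 1
    · simp only [if_pos hj]
      exact hx j i
    · simp only [if_neg hj, map_zero]
      rw [Polynomial.coeff_eq_zero_of_natDegree_lt (lt_of_le_of_lt (hp i) (by omega))]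
      exact tendsto_const_nhds

omit [Finite ι] in
theorem exists_seq_monic (hWA : FieldWA φ) (d : ℕ) (p : ∀ i, (K i)[X])
    (hp : ∀ i, (p i).Monic ∧ (p i).natDegree = d) :
    ∃ P : ℕ → k[X], (∀ N, (P N).Monic ∧ (P N).natDegree = d) ∧
      ∀ i, PolyTendsto atTop (fun N => (P N).map (φ i)) (p i) := by
  have h : ∀ j : ℕ, ∃ x : ℕ → k, ∀ i, Tendsto (fun N => φ i (x N)) atTop (𝓝 ((p i).coeff j)) :=
    fun j => exists_seq hWA fun i => (p i).coeff j
  choose x hx using h
  have hco : ∀ N j, (∑ l ∈ Finset.range d, C (x l N) * X ^ l : k[X]).coeff j =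
      if j < d then x j N else 0 := by
    intro N j
    rw [Polynomial.finsetSum_coeff]
    simp only [Polynomial.coeff_C_mul_X_pow, Finset.sum_ite_eq, Finset.mem_range]
  have hdeg : ∀ N, (∑ l ∈ Finset.range d, C (x l N) * X ^ l : k[X]).degree < d := by
    intro N
    rw [Polynomial.degree_lt_iff_coeff_zero]
    intro j hj
    rw [hco, if_neg (by omega)]
  refine ⟨fun N => X ^ d + ∑ l ∈ Finset.range d, C (x l N) * X ^ l, ?_, ?_⟩
  · intro N
    refine ⟨Polynomial.monic_X_pow_add (hdeg N), ?_⟩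
    rw [Polynomial.natDegree_add_eq_left_of_degree_lt (by rw [Polynomial.degree_X_pow]; exact hdeg N), Polynomial.natDegree_X_pow]
  · intro i j
    simp only [Polynomial.coeff_map, Polynomial.coeff_add, hco, Polynomial.coeff_X_pow]
    rcases lt_trichotomy j d with hj | hj | hj
    · simp only [if_neg hj.ne, if_pos hj, zero_add]
      exact hx j i
    · subst hj
      have h1 : (p i).coeff j = 1 := by
        have := (hp i).1.coeff_natDegree
        rwa [(hp i).2] at this
      simp only [if_true, lt_irrefl, if_false, add_zero, map_one, h1]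
      exact tendsto_const_nhds
    · simp only [if_neg hj.ne', if_neg (not_lt.2 hj.le), add_zero, map_zero]
      rw [Polynomial.coeff_eq_zero_of_natDegree_lt (by rw [(hp i).2]; exact hj)]
      exact tendsto_const_nhds

/-- back from sequences to `ε` -/
theorem exists_of_tendsto (n : ℕ) (f : ∀ i, (K i)[X]) (y : ∀ i, K i)
    (hf : ∀ i, (f i).Monic ∧ (f i).natDegree = n)
    (g : ℕ → k[X]) (z : ℕ → k) (hg : ∀ N, (g N).Monic ∧ (g N).natDegree = n)
    (h1 : ∀ i, PolyTendsto atTop (fun N => (g N).map (φ i)) (f i))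
    (h2 : ∀ i, Tendsto (fun N => φ i (z N)) atTop (𝓝 (y i)))
    (Q : ℕ → Prop) (hQ : ∀ᶠ N in atTop, Q N) (ε : ℝ) (hε : 0 < ε) :
    ∃ N, Q N ∧ ∀ i, ‖φ i (z N) - y i‖ < ε ∧ ∀ j, ‖((g N).map (φ i)).coeff j - (f i).coeff j‖ < ε := by
  have e1 : ∀ᶠ N in atTop, ∀ i, ‖φ i (z N) - y i‖ < ε := by
    rw [Filter.eventually_all]
    intro i
    have := tendsto_iff_norm_sub_tendsto_zero.1 (h2 i)
    exact this.eventually_lt_const hε
  have e2 : ∀ᶠ N in atTop, ∀ i, ∀ j ∈ Finset.range (n + 1),
      ‖((g N).map (φ i)).coeff j - (f i).coeff j‖ < ε := by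
    rw [Filter.eventually_all]
    intro i
    rw [Filter.eventually_all_finset]
    intro j _
    have := tendsto_iff_norm_sub_tendsto_zero.1 (h1 i j)
    exact this.eventually_lt_const hε
  obtain ⟨N, hN1, hN2, hN3⟩ := (hQ.and (e1.and e2)).exists
  refine ⟨N, hN1, fun i => ⟨hN2 i, fun j => ?_⟩⟩
  by_cases hj : j < n + 1
  · exact hN3 i j (Finset.mem_range.2 hj)
  · have h3 : ((g N).map (φ i)).coeff j = 0 := by
      apply Polynomial.coeff_eq_zero_of_natDegree_lt
      exact lt_of_le_of_lt Polynomial.natDegree_map_le (by rw [(hg N).2]; omega)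
    have h4 : (f i).coeff j = 0 := by
      apply Polynomial.coeff_eq_zero_of_natDegree_lt
      rw [(hf i).2]; omega
    rw [h3, h4, sub_zero, norm_zero]
    exact hε

end AnWA
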