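import Pool.Agent.H.MP_83e36b_nt.Defs
import Pool.Agent.H.MP_83e36b_nt.A1a
import Pool.Agent.H.MP_83e36b_nt.A4
import Pool.Agent.H.MP_83e36b_nt.A5
import Pool.Agent.H.MP_83e36b_nt.H1a
import Pool.Agent.H.MP_83e36b_nt.H1b

/-! Common part of the modules H1 and H2: companions of an approximating sequence, continuity of
the members of the pencils and of the square roots of their discriminants. -/

open Polynomial Filter Topology

namespace AnWA

/-- Companions over `k` of an approximating sequence. -/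
theorem exists_companions {k : Type*} [Field k] [CharZero k] {ι : Type*} [Nonempty ι]
    {K : ι → Type*} [∀ i, NormedField (K i)] [∀ i, CharZero (K i)] {φ : ∀ i, k →+* K i}
    {ω : k[X]} (hω : ω.natDegree ≤ 1) {q h P : ∀ i, (K i)[X]} {m : ℕ}
    (H : ∀ i, Pencil (ω.map (φ i)) (q i) (h i) (P i))
    (hnd : ∀ i, NonDeg (ω.map (φ i)) (q i))
    (hm : ∀ i, (q i).natDegree = m) (Q : ℕ → k[X])
    (hQ : ∀ N, (Q N).Monic ∧ (Q N).natDegree = m)
    (hlim : ∀ i, PolyTendsto atTop (fun N => (Q N).map (φ i)) (q i)) :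
    ∃ hh PP : ℕ → k[X], (∀ᶠ N in atTop, Pencil ω (Q N) (hh N) (PP N)) ∧
      ∀ i, PolyTendsto atTop (fun N => (hh N).map (φ i)) (h i) ∧
        PolyTendsto atTop (fun N => (PP N).map (φ i)) (P i) := by
  classical
  obtain ⟨i0⟩ := ‹Nonempty ι›
  have key := fun i => pencil_tendsto (T := ℕ) (l := atTop) (ω := ω.map (φ i))
    (natDegree_map_le.trans hω) (hnd i) (H i) (fun N => (Q N).map (φ i))
    (fun N => ⟨(hQ N).1.map _, by rw [natDegree_map, (hQ N).2, hm i]⟩) (hlim i)
  have ev : ∀ᶠ N in atTop, ∃ a b, Pencil ω (Q N) a b := by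
    filter_upwards [(key i0).1] with N hN
    have hs : (Q N).Separable := (separable_map (φ i0)).1 hN.1
    exact pencil_exists (hQ N).1 hs hω (nonDeg_of_map (φ i0) hN.2)
  refine ⟨fun N => if hN : ∃ a b, Pencil ω (Q N) a b then hN.choose else 0,
    fun N => if hN : ∃ a b, Pencil ω (Q N) a b then hN.choose_spec.choose else 0, ?_, ?_⟩
  · filter_upwards [ev] with N hN
    rw [dif_pos hN, dif_pos hN]
    exact hN.choose_spec.choose_spec
  · intro i
    refine (key i).2 _ _ ?_
    filter_upwards [ev] with N hN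
    rw [dif_pos hN, dif_pos hN]
    exact pencil_map (φ i) hN.choose_spec.choose_spec

theorem yTwo_map {k K : Type*} [Field k] [Field K] (φ : k →+* K) (n : ℕ) (c : k) (q h f ρ : k[X])
    (z : k) :
    φ (yTwo n c q h f ρ z) = yTwo n (φ c) (q.map φ) (h.map φ) (f.map φ) (ρ.map φ) (φ z) := by
  simp only [yTwo, map_mul, map_div₀, map_pow, chgDet_map, ← resultant_map, eval_zero_map,
    map_ofNat]
  simp only [natDegree_map]

theorem yOne_map {k K : Type*} [Field k] [Field K] (φ : k →+* K) (n : ℕ) (c : k) (q h f ρ : k[X])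
    (w : k) :
    φ (yOne n c q h f ρ w) = yOne n (φ c) (q.map φ) (h.map φ) (f.map φ) (ρ.map φ) (φ w) := by
  simp only [yOne, map_mul, map_div₀, chgDet_map, ← resultant_map]

section Limit

variable {K T : Type*} [NormedField K] {l : Filter T}

theorem member_tendsto {q P : T → K[X]} {q0 P0 : K[X]} {t : T → K} {t0 : K}
    (hq : PolyTendsto l q q0) (hP : PolyTendsto l P P0) (ht : Tendsto t l (𝓝 t0)) :
    PolyTendsto l (fun s => P s - C (t s) * q s) (P0 - C t0 * q0) :=
  hP.sub ((PolyTendsto.C ht).mul hq)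

theorem yTwo_tendsto {n d : ℕ} {c : K} {q h f ρ : T → K[X]} {q0 h0 f0 ρ0 : K[X]} {z : T → K} {z0 : K}
    (hq : PolyTendsto l q q0) (hh : PolyTendsto l h h0) (hf : PolyTendsto l f f0)
    (hρ : PolyTendsto l ρ ρ0) (hz : Tendsto z l (𝓝 z0))
    (dq : ∀ᶠ t in l, (q t).natDegree = q0.natDegree)
    (dh : ∀ᶠ t in l, (h t).natDegree = h0.natDegree)
    (df : ∀ᶠ t in l, (f t).natDegree = f0.natDegree)
    (hN : ∀ t, (ρ t).natDegree ≤ d) (hN0 : ρ0.natDegree ≤ d)
    (hres : f0.resultant q0 ≠ 0) :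
    Tendsto (fun t => yTwo n c (q t) (h t) (f t) (ρ t) (z t)) l
      (𝓝 (yTwo n c q0 h0 f0 ρ0 z0)) := by
  have h1 := hf.resultant hh df dh
  have h2 := hq.resultant hh dq dh
  have h3 := hq.eval q0.natDegree (dq.mono fun t ht => ht.le) le_rfl
    (tendsto_const_nhds (x := (0 : K)))
  have h4 := hf.resultant hq df dq
  have h5 := chgDet_tendsto n d hf hρ hN hN0
  have h6 : Tendsto (fun t => (2 : K) ^ ((q t).natDegree + 1)) l
      (𝓝 (2 ^ (q0.natDegree + 1))) := by
    refine tendsto_const_nhds.congr' ?_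
    filter_upwards [dq] with t ht
    rw [ht]
  exact ((((((h6.mul h1).mul h2).mul h3).mul tendsto_const_nhds).mul hz).div h4 hres).mul h5

theorem yOne_tendsto {n d : ℕ} {c : K} {q h f ρ : T → K[X]} {q0 h0 f0 ρ0 : K[X]} {w : T → K} {w0 : K}
    (hq : PolyTendsto l q q0) (hh : PolyTendsto l h h0) (hf : PolyTendsto l f f0)
    (hρ : PolyTendsto l ρ ρ0) (hw : Tendsto w l (𝓝 w0)) (hw0 : w0 ≠ 0)
    (dq : ∀ᶠ t in l, (q t).natDegree = q0.natDegree)
    (dh : ∀ᶠ t in l, (h t).natDegree = h0.natDegree)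
    (df : ∀ᶠ t in l, (f t).natDegree = f0.natDegree)
    (hN : ∀ t, (ρ t).natDegree ≤ d) (hN0 : ρ0.natDegree ≤ d)
    (hres : f0.resultant q0 ≠ 0) :
    Tendsto (fun t => yOne n c (q t) (h t) (f t) (ρ t) (w t)) l
      (𝓝 (yOne n c q0 h0 f0 ρ0 w0)) := by
  have h1 := hf.resultant hh df dh
  have h2 := hq.resultant hh dq dh
  have h4 := hf.resultant hq df dq
  have h5 := chgDet_tendsto n d hf hρ hN hN0
  exact (((tendsto_const_nhds.mul h1).mul h2).div (hw.mul h4) (mul_ne_zero hw0 hres)).mul h5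

end Limit

/-- degrees of the members -/
theorem member_aux {F : Type*} [Field F] {q P : F[X]} (hq : q.Monic) {e : ℕ} (he : 0 < e)
    (h1 : P.Monic) (h2 : P.natDegree = q.natDegree + e) (t : F) :
    (P - C t * q).Monic ∧ (P - C t * q).natDegree = q.natDegree + e := by
  have hlt : (C t * q).natDegree < P.natDegree := by
    refine (natDegree_C_mul_le t q).trans_lt ?_
    omega
  have hdeg : (C t * q).degree < P.degree := by
    rw [degree_eq_natDegree h1.ne_zero]
    exact degree_le_natDegree.trans_lt (by exact_mod_cast hlt)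
  exact ⟨h1.sub_of_left hdeg, by rw [natDegree_sub_eq_left_of_natDegree_lt hlt, h2]⟩

theorem member_two {F : Type*} [Field F] [CharZero F] {q h P : F[X]} (H : Pencil (2 * X) q h P)
    (t : F) : (P - C t * q).Monic ∧ (P - C t * q).natDegree = q.natDegree + 2 :=
  member_aux H.monic two_pos (pencil_P_two H).1 (pencil_P_two H).2 t

theorem member_one {F : Type*} [Field F] [CharZero F] {q h P : F[X]} (H : Pencil 1 q h P)
    (t : F) : (P - C t * q).Monic ∧ (P - C t * q).natDegree = q.natDegree + 1 :=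
  member_aux H.monic one_pos (pencil_P_one H).1 (pencil_P_one H).2 t

end AnWA
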