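import Pool.Agent.H.MP_83e36b_nt.Defs
import Pool.Agent.H.MP_83e36b_nt.A1a
import Pool.Agent.H.MP_83e36b_nt.A4
import Pool.Agent.H.MP_83e36b_nt.A5
import Pool.Agent.H.MP_83e36b_nt.H1a
import Pool.Agent.H.MP_83e36b_nt.H1b
import Pool.Agent.H.MP_83e36b_nt.H1_core

/-! Module H1: weak approximation from local surjectivity (weight 2X).

PROOF. Given (f_i,y_i), f_i separable since discr≠0 (A2b). LocalU gives q_i,h_i,P_i,ρ_i,t_i; exists_z (H1a) gives z_i with y_i=yTwo. Choose d ≥ all natDegree ρ_i. Sequences over k (H1b): q^N monic of degree m=n-2 (n ≥ 2 as natDegree+2=n), z^N, ρ^N (natDegree ≤ d) converging to q_i,z_i,ρ_i at every i. By A5 at one place i0 (Nonempty) eventually (q^N).map φ separable and NonDeg, so q^N separable and NonDeg over k (separable_map, nonDeg_of_map); choose h^N,P^N by pencil_exists (for N where it is possible, else 0). At each i, Pencil (2X) maps (pencil_map; (2*X).map φ = 2*X), so A5 gives h^N→h_i, P^N→P_i. Then q^N(0)→q_i(0)≠0, discr q^N→discr q_i (A4),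 t^N:=P^N(0)/q^N(0)+discr(q^N)(z^N)² → t_i, f^N:=P^N-C t^N q^N → P_i-t_iq_i, resultants converge (degrees are constant), chgDet, chg converge (A3a). g^N:=chg n f^N ρ^N, Y^N:=yTwo n q^N h^N f^N ρ^N z^N. Eventually: Res(f^N,q^N)≠0, discr f^N≠0 (converge to nonzero at i0; discr_map, resultant_map) so f^N separable, q^N(0)≠0; yTwo_sq gives discr g^N=(Y^N)²; Y^N≠0 eventually. exists_of_tendsto finishes. yTwo commutes with φ (map lemmas).
-/

open Polynomial Filter Topology

namespace AnWA

theorem discWA_of_localU {k : Type*} [Field k] [CharZero k] {ι : Type*} [Finite ι] [Nonempty ι]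
    {K : ι → Type*} [∀ i, NormedField (K i)] [∀ i, CharZero (K i)] {φ : ∀ i, k →+* K i}
    (hWA : FieldWA φ) {n : ℕ} (hU : ∀ i, LocalU (K i) n) (c : k) : DiscWA c n φ := by
  classical
  intro f y hf ε hε
  have hloc : ∀ i, ∃ (q h P ρ : (K i)[X]) (t : K i), Pencil (2 * X) q h P ∧ NonDeg (2 * X) q ∧
      q.natDegree + 2 = n ∧ IsCoprime (P - C t * q) q ∧ (P - C t * q).Separable ∧
      chg n (P - C t * q) ρ = f i := by
    intro i
    obtain ⟨hmon, hdeg, hdis, hy⟩ := hf i
    exact hU i (f i) hmon hdeg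
      ((discr_ne_zero_iff_separable hmon).1
        (right_ne_zero_of_mul (by rw [hdis]; exact pow_ne_zero 2 hy)))
  choose q h P ρ t H hnd hn hcop hsep hchg using hloc
  have hz : ∀ i, (q i).eval 0 ≠ 0 ∧ ∃ z : K i,
      t i = (P i).eval 0 / (q i).eval 0 + φ i c * (q i).discr * z ^ 2 ∧
      y i = yTwo n (φ i c) (q i) (h i) (P i - C (t i) * q i) (ρ i) z := fun i =>
    exists_z (H i) (hn i) (hcop i) (hsep i) (hchg i) (hf i).2.2.1 (hf i).2.2.2
  choose hq0 z ht hy using hz
  obtain ⟨d, hd⟩ : ∃ d, ∀ i, (ρ i).natDegree ≤ d := by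
    obtain ⟨d, hd⟩ := (Set.finite_range fun i => (ρ i).natDegree).bddAbove
    exact ⟨d, fun i => hd ⟨i, rfl⟩⟩
  obtain ⟨i0⟩ := ‹Nonempty ι›
  have : Nonempty ι := ⟨i0⟩
  have hm : ∀ i, (q i).natDegree = n - 2 := fun i => by have := hn i; omega
  have hn2 : n - 2 + 2 = n := by have := hn i0; omega
  obtain ⟨Q, hQ, hQl⟩ := exists_seq_monic hWA (n - 2) q (fun i => ⟨(H i).monic, hm i⟩)
  obtain ⟨Z, hZl⟩ := exists_seq hWA z
  obtain ⟨R, hR, hRl⟩ := exists_seq_poly hWA d ρ hd
  have h2X : ∀ i, (2 * X : k[X]).map (φ i) = 2 * X := by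
    intro i; simp
  have hω : (2 * X : k[X]).natDegree ≤ 1 := by
    refine natDegree_mul_le.trans ?_
    rw [natDegree_ofNat, natDegree_X]
  obtain ⟨hh, PP, hpen, hlim⟩ := exists_companions (φ := φ) (ω := 2 * X) hω
    (by intro i; rw [h2X]; exact H i) (by intro i; rw [h2X]; exact hnd i) hm Q hQ hQl
  -- degrees over the `K i`
  have dq : ∀ i, ∀ᶠ N in atTop, ((Q N).map (φ i)).natDegree = (q i).natDegree := fun i =>
    Eventually.of_forall fun N => by rw [natDegree_map, (hQ N).2, hm i]
  have qmon : ∀ i, ∀ᶠ N in atTop, ((Q N).map (φ i)).Monic := fun i =>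
    Eventually.of_forall fun N => (hQ N).1.map _
  have dh : ∀ i, ∀ᶠ N in atTop, ((hh N).map (φ i)).natDegree = (h i).natDegree := fun i => by
    filter_upwards [hpen] with N hN
    rw [natDegree_map, (pencil_h_monic hN).2, (pencil_h_monic (H i)).2, (hQ N).2, hm i]
  have dP : ∀ i, ∀ᶠ N in atTop, ((PP N).map (φ i)).natDegree = (P i).natDegree := fun i => by
    filter_upwards [hpen] with N hN
    rw [natDegree_map, (pencil_P_two hN).2, (pencil_P_two (H i)).2, (hQ N).2, hm i]
  set tt : ℕ → k := fun N => (PP N).eval 0 / (Q N).eval 0 + c * (Q N).discr * Z N ^ 2 with htt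
  have hqe : ∀ i, Tendsto (fun N => φ i ((Q N).eval 0)) atTop (𝓝 ((q i).eval 0)) := fun i => by
    have := (hQl i).eval (q i).natDegree ((dq i).mono fun N hN => hN.le) le_rfl
      (tendsto_const_nhds (x := (0 : K i)))
    simpa only [eval_zero_map] using this
  have hPe : ∀ i, Tendsto (fun N => φ i ((PP N).eval 0)) atTop (𝓝 ((P i).eval 0)) := fun i => by
    have := (hlim i).2.eval (P i).natDegree ((dP i).mono fun N hN => hN.le) le_rfl
      (tendsto_const_nhds (x := (0 : K i)))
    simpa only [eval_zero_map] using this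
  have hqd : ∀ i, Tendsto (fun N => φ i (Q N).discr) atTop (𝓝 (q i).discr) := fun i => by
    have := (hQl i).discr (qmon i) (H i).monic (dq i)
    simpa only [discr_map] using this
  have htl : ∀ i, Tendsto (fun N => φ i (tt N)) atTop (𝓝 (t i)) := fun i => by
    have := ((hPe i).div (hqe i) (hq0 i)).add
      (((tendsto_const_nhds (x := φ i c)).mul (hqd i)).mul ((hZl i).pow 2))
    rw [ht i]
    simpa only [htt, map_add, map_mul, map_div₀, map_pow, Pi.div_apply] using this
  set F : ℕ → k[X] := fun N => PP N - C (tt N) * Q N with hF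
  have hFl : ∀ i, PolyTendsto atTop (fun N => (F N).map (φ i)) (P i - C (t i) * q i) := fun i => by
    have := member_tendsto (hQl i) (hlim i).2 (htl i)
    simpa only [hF, Polynomial.map_sub, Polynomial.map_mul, map_C] using this
  have dF : ∀ i, ∀ᶠ N in atTop,
      ((F N).map (φ i)).natDegree = (P i - C (t i) * q i).natDegree := fun i => by
    filter_upwards [hpen] with N hN
    rw [natDegree_map, (member_two hN (tt N)).2, (member_two (H i) (t i)).2, (hQ N).2, hm i]
  have hres : ∀ i, (P i - C (t i) * q i).resultant (q i) ≠ 0 := fun i =>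
    (resultant_ne_zero_iff_isCoprime (member_two (H i) (t i)).1 (H i).monic).2 (hcop i)
  have hRd : ∀ i, ∀ N, ((R N).map (φ i)).natDegree ≤ d := fun i N => by
    rw [natDegree_map]; exact hR N
  set g : ℕ → k[X] := fun N => chg n (F N) (R N) with hg
  set Y : ℕ → k := fun N => yTwo n c (Q N) (hh N) (F N) (R N) (Z N) with hY
  have hgl : ∀ i, PolyTendsto atTop (fun N => (g N).map (φ i)) (f i) := fun i => by
    have := chg_tendsto n d (hFl i) (hRl i) (hRd i) (hd i)
    rw [hchg i] at this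
    simpa only [hg, chg_map] using this
  have hYl : ∀ i, Tendsto (fun N => φ i (Y N)) atTop (𝓝 (y i)) := fun i => by
    have := yTwo_tendsto (n := n) (d := d) (c := φ i c) (hQl i) (hlim i).1 (hFl i) (hRl i) (hZl i)
      (dq i) (dh i) (dF i) (hRd i) (hd i) (hres i)
    rw [← hy i] at this
    simpa only [hY, yTwo_map] using this
  have e1 : ∀ᶠ N in atTop, (F N).resultant (Q N) ≠ 0 := by
    have := (hFl i0).resultant (hQl i0) (dF i0) (dq i0)
    filter_upwards [this.eventually_ne (hres i0)] with N hN h0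
    exact hN (by rw [resultant_map, h0, map_zero])
  have e2 : ∀ᶠ N in atTop, (F N).Separable := by
    have hm0 := (member_two (H i0) (t i0)).1
    have hmF : ∀ᶠ N in atTop, ((F N).map (φ i0)).Monic := by
      filter_upwards [hpen] with N hN using ((member_two hN (tt N)).1).map _
    have := (hFl i0).discr hmF hm0 (dF i0)
    filter_upwards [this.eventually_ne ((discr_ne_zero_iff_separable hm0).2 (hsep i0)), hmF]
      with N hN hN'
    exact (separable_map (φ i0)).1 ((discr_ne_zero_iff_separable hN').1 hN)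
  have e3 : ∀ᶠ N in atTop, (Q N).eval 0 ≠ 0 := by
    filter_upwards [(hqe i0).eventually_ne (hq0 i0)] with N hN h0
    exact hN (by rw [h0, map_zero])
  have e4 : ∀ᶠ N in atTop, Y N ≠ 0 := by
    filter_upwards [(hYl i0).eventually_ne (hf i0).2.2.2] with N hN h0
    exact hN (by rw [h0, map_zero])
  have hev : ∀ᶠ N in atTop, c * (g N).discr = Y N ^ 2 ∧ Y N ≠ 0 := by
    filter_upwards [hpen, e1, e2, e3, e4] with N a0 a1 a2 a3 a4
    exact ⟨yTwo_sq a0 (by rw [(hQ N).2, hn2]) a3 rfl a1 a2, a4⟩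
  obtain ⟨N, ⟨b1, b2⟩, b3⟩ := exists_of_tendsto n f y (fun i => ⟨(hf i).1, (hf i).2.1⟩) g Y
    (fun N => chg_monic n (F N) (R N)) hgl hYl _ hev ε hε
  exact ⟨g N, Y N, (chg_monic n (F N) (R N)).1, (chg_monic n (F N) (R N)).2, b1, b2, b3⟩

end AnWA
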