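import Pool.Agent.H.MP_83e36b_nt.Defs
import Pool.Agent.H.MP_83e36b_nt.A1b
import Pool.Agent.H.MP_83e36b_nt.A3a
import Pool.Agent.H.MP_83e36b_nt.A3b
import Pool.Agent.H.MP_83e36b_nt.C1
import Pool.Agent.H.MP_83e36b_nt.C2a
import Pool.Agent.H.MP_83e36b_nt.C3d

/-! Module H2a: every separable polynomial of odd degree is a member of a pencil of weight one.

PROOF. L=AlgebraicClosure F (Galois, char 0), X=roots of f in L (Finset, n elements, prod_X_sub_C_aroots). generic_odd on {x // x∈X} and exists_equivariant: ρ0∈F[X] with x↦ρ0(x) injective on X and OddDatum g G H t, g=∏(X-C(ρ0 x)). Invariance under Galois: g^σ=g, so by uniq G^σ=G,H^σ=H,σt=t; descend: G_F,H_F,t_F,g_F. q=G_F,h=H_F,P=g_F+C t_F*G_F, so P-C t*q=g_F. pencil_of_map; NonDeg by nonDeg_of_map; degree by facts; coprime/separable descend (g separable: distinct roots). ρ: the inverse ρ0(x)↦x is equivariant on the Galois stable set ρ0(X): interp gives ρ∈F[X] with ρ(ρ0(x))=x. chg n g_F ρ=f: check after mapping to L (chg_map, map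 injective): enumerate X by Fin n, chg_rootPoly.
-/

open Polynomial Filter Topology

namespace AnWA

theorem h2a_aeval {F L : Type*} [Field F] [Field L] [Algebra F L] (σ : L ≃ₐ[F] L) (x : L)
    (p : F[X]) : aeval (σ x) p = σ (aeval x p) := by
  exact Polynomial.aeval_algHom_apply (σ : L →ₐ[F] L) x p

theorem h2a_equiv {L : Type*} [Field L] {g G H : L[X]} {t : L} (h : OddDatum g G H t)
    (σ : L →+* L) (hg : g.map σ = g) :
    G.map σ = G ∧ H.map σ = H ∧ σ t = t := by
  have h1 := pencil_map σ h.pen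
  rw [Polynomial.map_one, Polynomial.map_add, Polynomial.map_mul, Polynomial.map_C, hg] at h1
  have h2 : IsCoprime (g.map σ) (G.map σ) := h.cop.map (Polynomial.mapRingHom σ)
  rw [hg] at h2
  exact h.uniq _ _ _ h1 h2

/-- Every separable polynomial of odd degree is, after a change of generator, a member of a
pencil of weight one. -/
theorem local_odd {F : Type*} [Field F] [CharZero F] {n : ℕ} (hn : Odd n) {f : F[X]}
    (hf : f.Monic) (hfn : f.natDegree = n) (hs : f.Separable) :
    ∃ (q h P ρ : F[X]) (t : F), Pencil 1 q h P ∧ NonDeg 1 q ∧ q.natDegree + 1 = n ∧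
      IsCoprime (P - C t * q) q ∧ (P - C t * q).Separable ∧ chg n (P - C t * q) ρ = f := by
  classical
  let L := AlgebraicClosure F
  have : CharZero L := charZero_of_injective_algebraMap (algebraMap F L).injective
  have : Infinite F := inferInstance
  obtain ⟨hs1, hs2, hs3⟩ := prod_X_sub_C_aroots (L := L) hf hs
  set s : Finset L := (f.aroots L).toFinset with hsdef
  have hcard : Odd (Fintype.card {x // x ∈ s}) := by
    rw [Fintype.card_coe, hs2, hfn]
    exact hn
  obtain ⟨Φ, hΦ, hΦ2⟩ := generic_odd (L := L) {x // x ∈ s} hcard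
  obtain ⟨ρ0, hρ0⟩ := exists_equivariant (F := F) (Subtype.val : {x // x ∈ s} → L)
    Subtype.val_injective Φ hΦ
  obtain ⟨hinj, G, H, t, hd⟩ := hΦ2 _ hρ0
  have hgprod : rootPoly (fun i : {x // x ∈ s} => aeval (i : L) ρ0) =
      ∏ x ∈ s, (X - C (aeval x ρ0)) := by
    unfold rootPoly
    exact Finset.prod_coe_sort s (fun z => X - C (aeval z ρ0))
  have hsep : (rootPoly (fun i : {x // x ∈ s} => aeval (i : L) ρ0)).Separable := by
    unfold rootPoly
    exact separable_prod_X_sub_C_iff.2 hinj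
  have hinjOn : Set.InjOn (fun z : L => aeval z ρ0) (s : Set L) := by
    intro a ha b hb hab
    exact congrArg (fun w : {x // x ∈ s} => (w : L)) (@hinj ⟨a, ha⟩ ⟨b, hb⟩ hab)
  have himage : ∀ σ : L ≃ₐ[F] L, s.image σ = s := by
    intro σ
    ext x
    rw [Finset.mem_image]
    constructor
    · rintro ⟨w, hw, rfl⟩
      exact hs3 σ w hw
    · intro hx
      exact ⟨σ.symm x, hs3 σ.symm x hx, σ.apply_symm_apply x⟩
  rw [hgprod] at hd hsep
  set g : L[X] := ∏ x ∈ s, (X - C (aeval x ρ0)) with hg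
  have hgσ : ∀ σ : L ≃ₐ[F] L, g.map (σ : L →+* L) = g := by
    intro σ
    conv_rhs => rw [hg, ← himage σ, Finset.prod_image (fun a _ b _ hab => σ.injective hab)]
    rw [hg, Polynomial.map_prod]
    refine Finset.prod_congr rfl fun z _ => ?_
    rw [Polynomial.map_sub, map_X, map_C, h2a_aeval]
    rfl
  obtain ⟨gF, hgF⟩ := descend_poly (F := F) hgσ
  obtain ⟨GF, hGF⟩ := descend_poly (F := F)
    (fun σ : L ≃ₐ[F] L => (h2a_equiv hd (σ : L →+* L) (hgσ σ)).1)
  obtain ⟨HF, hHF⟩ := descend_poly (F := F)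
    (fun σ : L ≃ₐ[F] L => (h2a_equiv hd (σ : L →+* L) (hgσ σ)).2.1)
  obtain ⟨tF, htF⟩ := descend_elem (F := F)
    (fun σ : L ≃ₐ[F] L => (h2a_equiv hd (σ : L →+* L) (hgσ σ)).2.2)
  -- the inverse generator
  let φ : L → L := Function.invFunOn (fun z : L => aeval z ρ0) (s : Set L)
  have hφ : ∀ x ∈ s, φ (aeval x ρ0) = x := fun x hx => hinjOn.leftInvOn_invFunOn hx
  obtain ⟨ρ, -, hρ⟩ := interp (F := F) (s.image (fun z : L => aeval z ρ0))
    (by
      intro σ z hz
      rw [Finset.mem_image] at hz ⊢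
      obtain ⟨x, hx, rfl⟩ := hz
      exact ⟨σ x, hs3 σ x hx, h2a_aeval σ x ρ0⟩) φ
    (by
      intro σ z hz
      rw [Finset.mem_image] at hz
      obtain ⟨x, hx, rfl⟩ := hz
      rw [← h2a_aeval, hφ _ (hs3 σ x hx), hφ x hx])
  have hPq : gF + C tF * GF - C tF * GF = gF := add_sub_cancel_right _ _
  have hgdeg : g.natDegree = n := by
    rw [hg, Polynomial.natDegree_prod_of_monic _ _ (fun i _ => monic_X_sub_C _)]
    simp only [natDegree_X_sub_C, Finset.sum_const, smul_eq_mul, mul_one]
    rw [hs2, hfn]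
  refine ⟨GF, HF, gF + C tF * GF, ρ, tF, ?_, ?_, ?_, ?_, ?_, ?_⟩
  · apply pencil_of_map (algebraMap F L)
    rw [Polynomial.map_one, Polynomial.map_add, Polynomial.map_mul, map_C, hGF, hHF, hgF, htF]
    exact hd.pen
  · apply nonDeg_of_map (algebraMap F L)
    rw [Polynomial.map_one, hGF]
    exact hd.nd
  · have h1 := hd.facts.1
    rw [← hGF, natDegree_map, hgdeg] at h1
    exact h1
  · rw [hPq, ← Polynomial.isCoprime_map (algebraMap F L), hgF, hGF]
    exact hd.cop
  · rw [hPq, ← Polynomial.separable_map (algebraMap F L), hgF]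
    exact hsep
  · rw [hPq]
    apply Polynomial.map_injective (algebraMap F L) (algebraMap F L).injective
    rw [chg_map, hgF]
    have hcn : Fintype.card {x // x ∈ s} = n := by
      rw [Fintype.card_coe, hs2, hfn]
    let e : Fin n ≃ {x // x ∈ s} := (Fintype.equivFinOfCardEq hcn).symm
    have e1 : g = rootPoly (fun i : Fin n => aeval ((e i : {x // x ∈ s}) : L) ρ0) := by
      rw [← hgprod]
      unfold rootPoly
      exact (Equiv.prod_comp e (fun i : {x // x ∈ s} => X - C (aeval (i : L) ρ0))).symm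
    have hinj2 : Function.Injective (fun i : Fin n => aeval ((e i : {x // x ∈ s}) : L) ρ0) := by
      intro a b hab
      exact e.injective (hinj hab)
    rw [e1, chg_rootPoly _ hinj2, ← hs1]
    have e2 : ∀ i : Fin n, (ρ.map (algebraMap F L)).eval
        (aeval ((e i : {x // x ∈ s}) : L) ρ0) = ((e i : {x // x ∈ s}) : L) := by
      intro i
      rw [Polynomial.eval_map_algebraMap, hρ _ (Finset.mem_image_of_mem _ (e i).2),
        hφ _ (e i).2]
    unfold rootPoly
    simp only [e2]
    rw [Equiv.prod_comp e (fun i : {x // x ∈ s} => X - C (i : L))]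
    exact Finset.prod_coe_sort s (fun z => X - C z)

end AnWA
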