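import Pool.Agent.H.MP_83e36b_nt.Defs
import Pool.Agent.H.MP_83e36b_nt.A1a
import Pool.Agent.H.MP_83e36b_nt.A4
import Pool.Agent.H.MP_83e36b_nt.A5
import Pool.Agent.H.MP_83e36b_nt.H1a
import Pool.Agent.H.MP_83e36b_nt.H1b
import Pool.Agent.H.MP_83e36b_nt.H1_core
import Pool.Agent.H.MP_83e36b_nt.H2a

/-! Module H2: from degree n-1 to degree n, n odd.

PROOF. As H1 with weight 1. Given (f_i,y_i): local_odd gives q_i,h_i,P_i,ρ_i,t_i; exists_w (H1a) gives w_i≠0 with discr q_i=w_i², y_i=yOne. hprev applied to (q_i,w_i) with ε=1/(N+1) gives q^N monic of degree n-1 with discr q^N=(w^N)², w^N≠0, converging to (q_i,w_i). t^N→t_i, ρ^N→ρ_i by H1b. q^N separable (discr≠0), NonDeg eventually (A5 at i0); h^N,P^N by pencil_exists, converge (A5). f^N=P^N-C t^N q^N, g^N=chg n f^N ρ^N, Y^N=yOne n q^N h^N f^N ρ^N w^N; yOne_sq; same ending.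
-/

open Polynomial Filter Topology

namespace AnWA

theorem discWA_odd {k : Type*} [Field k] [CharZero k] {ι : Type*} [Finite ι] [Nonempty ι]
    {K : ι → Type*} [∀ i, NormedField (K i)] [∀ i, CharZero (K i)] {φ : ∀ i, k →+* K i}
    (hWA : FieldWA φ) {n : ℕ} (hn : Odd n) (h1 : 1 < n) (c : k)
    (hprev : DiscWA c (n - 1) φ) : DiscWA c n φ := by
  classical
  intro f y hf ε hε
  have hloc : ∀ i, ∃ (q h P ρ : (K i)[X]) (t : K i), Pencil 1 q h P ∧ NonDeg 1 q ∧
      q.natDegree + 1 = n ∧ IsCoprime (P - C t * q) q ∧ (P - C t * q).Separable ∧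
      chg n (P - C t * q) ρ = f i := by
    intro i
    obtain ⟨hmon, hdeg, hdis, hy⟩ := hf i
    exact local_odd hn hmon hdeg
      ((discr_ne_zero_iff_separable hmon).1
        (right_ne_zero_of_mul (by rw [hdis]; exact pow_ne_zero 2 hy)))
  choose q h P ρ t H hnd hnq hcop hsep hchg using hloc
  have hz : ∀ i, ∃ w : K i, w ≠ 0 ∧ φ i c * (q i).discr = w ^ 2 ∧
      y i = yOne n (φ i c) (q i) (h i) (P i - C (t i) * q i) (ρ i) w := fun i =>
    exists_w (H i) (hnq i) hn (hcop i) (hsep i) (hchg i) (hf i).2.2.1 (hf i).2.2.2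
  choose w hw0 hw hy using hz
  obtain ⟨d, hd⟩ : ∃ d, ∀ i, (ρ i).natDegree ≤ d := by
    obtain ⟨d, hd⟩ := (Set.finite_range fun i => (ρ i).natDegree).bddAbove
    exact ⟨d, fun i => hd ⟨i, rfl⟩⟩
  obtain ⟨i0⟩ := ‹Nonempty ι›
  have : Nonempty ι := ⟨i0⟩
  have hm : ∀ i, (q i).natDegree = n - 1 := fun i => by have := hnq i; omega
  have hn1 : n - 1 + 1 = n := by omega
  have hseq : ∀ N : ℕ, ∃ (g : k[X]) (z : k), g.Monic ∧ g.natDegree = n - 1 ∧
      c * g.discr = z ^ 2 ∧ z ≠ 0 ∧ ∀ i, ‖φ i z - w i‖ < 1 / ((N : ℝ) + 1) ∧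
        ∀ j, ‖(g.map (φ i)).coeff j - (q i).coeff j‖ < 1 / ((N : ℝ) + 1) := fun N =>
    hprev q w (fun i => ⟨(H i).monic, hm i, hw i, hw0 i⟩) _ (by positivity)
  choose Q W hQm hQd hQdis hW0 hQlim using hseq
  have hQl : ∀ i, PolyTendsto atTop (fun N => (Q N).map (φ i)) (q i) := fun i j =>
    tendsto_iff_norm_sub_tendsto_zero.2 (squeeze_zero (fun _ => norm_nonneg _)
      (fun N => ((hQlim N i).2 j).le) tendsto_one_div_add_atTop_nhds_zero_nat)
  have hWl : ∀ i, Tendsto (fun N => φ i (W N)) atTop (𝓝 (w i)) := fun i =>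
    tendsto_iff_norm_sub_tendsto_zero.2 (squeeze_zero (fun _ => norm_nonneg _)
      (fun N => (hQlim N i).1.le) tendsto_one_div_add_atTop_nhds_zero_nat)
  obtain ⟨tt, htl⟩ := exists_seq hWA t
  obtain ⟨R, hR, hRl⟩ := exists_seq_poly hWA d ρ hd
  have h1X : ∀ i, (1 : k[X]).map (φ i) = 1 := fun i => Polynomial.map_one _
  obtain ⟨hh, PP, hpen, hlim⟩ := exists_companions (φ := φ) (ω := 1)
    (by rw [natDegree_one]; exact Nat.zero_le _)
    (by intro i; rw [h1X]; exact H i) (by intro i; rw [h1X]; exact hnd i) hm Q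
    (fun N => ⟨hQm N, hQd N⟩) hQl
  -- degrees over the `K i`
  have dq : ∀ i, ∀ᶠ N in atTop, ((Q N).map (φ i)).natDegree = (q i).natDegree := fun i =>
    Eventually.of_forall fun N => by rw [natDegree_map, hQd N, hm i]
  have dh : ∀ i, ∀ᶠ N in atTop, ((hh N).map (φ i)).natDegree = (h i).natDegree := fun i => by
    filter_upwards [hpen] with N hN
    rw [natDegree_map, (pencil_h_monic hN).2, (pencil_h_monic (H i)).2, hQd N, hm i]
  set F : ℕ → k[X] := fun N => PP N - C (tt N) * Q N with hF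
  have hFl : ∀ i, PolyTendsto atTop (fun N => (F N).map (φ i)) (P i - C (t i) * q i) := fun i => by
    have := member_tendsto (hQl i) (hlim i).2 (htl i)
    simpa only [hF, Polynomial.map_sub, Polynomial.map_mul, map_C] using this
  have dF : ∀ i, ∀ᶠ N in atTop,
      ((F N).map (φ i)).natDegree = (P i - C (t i) * q i).natDegree := fun i => by
    filter_upwards [hpen] with N hN
    rw [natDegree_map, (member_one hN (tt N)).2, (member_one (H i) (t i)).2, hQd N, hm i]
  have hres : ∀ i, (P i - C (t i) * q i).resultant (q i) ≠ 0 := fun i =>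
    (resultant_ne_zero_iff_isCoprime (member_one (H i) (t i)).1 (H i).monic).2 (hcop i)
  have hRd : ∀ i, ∀ N, ((R N).map (φ i)).natDegree ≤ d := fun i N => by
    rw [natDegree_map]; exact hR N
  set g : ℕ → k[X] := fun N => chg n (F N) (R N) with hg
  set Y : ℕ → k := fun N => yOne n c (Q N) (hh N) (F N) (R N) (W N) with hY
  have hgl : ∀ i, PolyTendsto atTop (fun N => (g N).map (φ i)) (f i) := fun i => by
    have := chg_tendsto n d (hFl i) (hRl i) (hRd i) (hd i)
    rw [hchg i] at this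
    simpa only [hg, chg_map] using this
  have hYl : ∀ i, Tendsto (fun N => φ i (Y N)) atTop (𝓝 (y i)) := fun i => by
    have := yOne_tendsto (n := n) (d := d) (c := φ i c) (hQl i) (hlim i).1 (hFl i) (hRl i) (hWl i) (hw0 i)
      (dq i) (dh i) (dF i) (hRd i) (hd i) (hres i)
    rw [← hy i] at this
    simpa only [hY, yOne_map] using this
  have e1 : ∀ᶠ N in atTop, (F N).resultant (Q N) ≠ 0 := by
    have := (hFl i0).resultant (hQl i0) (dF i0) (dq i0)
    filter_upwards [this.eventually_ne (hres i0)] with N hN h0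
    exact hN (by rw [resultant_map, h0, map_zero])
  have e2 : ∀ᶠ N in atTop, (F N).Separable := by
    have hm0 := (member_one (H i0) (t i0)).1
    have hmF : ∀ᶠ N in atTop, ((F N).map (φ i0)).Monic := by
      filter_upwards [hpen] with N hN using ((member_one hN (tt N)).1).map _
    have := (hFl i0).discr hmF hm0 (dF i0)
    filter_upwards [this.eventually_ne ((discr_ne_zero_iff_separable hm0).2 (hsep i0)), hmF]
      with N hN hN'
    exact (separable_map (φ i0)).1 ((discr_ne_zero_iff_separable hN').1 hN)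
  have e4 : ∀ᶠ N in atTop, Y N ≠ 0 := by
    filter_upwards [(hYl i0).eventually_ne (hf i0).2.2.2] with N hN h0
    exact hN (by rw [h0, map_zero])
  have hc0 : c ≠ 0 := by
    rintro rfl
    have := hw i0
    rw [map_zero, zero_mul] at this
    exact hw0 i0 (pow_eq_zero_iff two_ne_zero |>.mp this.symm)
  have hev : ∀ᶠ N in atTop, c * (g N).discr = Y N ^ 2 ∧ Y N ≠ 0 := by
    filter_upwards [hpen, e1, e2, e4] with N a0 a1 a2 a4
    exact ⟨yOne_sq a0 (by rw [hQd N, hn1]) hn hc0 (hQdis N) a1 a2, a4⟩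
  obtain ⟨N, ⟨b1, b2⟩, b3⟩ := exists_of_tendsto n f y (fun i => ⟨(hf i).1, (hf i).2.1⟩) g Y
    (fun N => chg_monic n (F N) (R N)) hgl hYl _ hev ε hε
  exact ⟨g N, Y N, (chg_monic n (F N) (R N)).1, (chg_monic n (F N) (R N)).2, b1, b2, b3⟩

end AnWA
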