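import Pool.Agent.H.MP_83e36b_nt.Defs

/-! Completions of a number field at all infinite places and finitely many finite places. -/

open Polynomial NumberField IsDedekindDomain

namespace AnWA

variable {k : Type*} [Field k] [NumberField k]

/-- the completions of `k` at all infinite places and at the finite places of `T` -/
def Compl (T : Finset (HeightOneSpectrum (𝓞 k))) :
    InfinitePlace k ⊕ {v // v ∈ T} → Type _ :=
  Sum.elim (fun v => v.Completion) (fun v => v.1.adicCompletion k)

noncomputable instance (T : Finset (HeightOneSpectrum (𝓞 k))) (i) :
    NormedField (Compl T i) := by
  rcases i with v | v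
  · exact inferInstanceAs (NormedField v.Completion)
  · exact inferInstanceAs (NormedField (v.1.adicCompletion k))

/-- the embeddings -/
noncomputable def complEmb (T : Finset (HeightOneSpectrum (𝓞 k))) :
    ∀ i, k →+* Compl T i
  | Sum.inl v => algebraMap k v.Completion
  | Sum.inr v => algebraMap k (v.1.adicCompletion k)

instance (T : Finset (HeightOneSpectrum (𝓞 k))) (i) : CharZero (Compl T i) :=
  (RingHom.charZero_iff (complEmb T i).injective).mp inferInstance

end AnWA
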