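import Pool.Agent.H.MP_83e36b_nt.Defs
import Pool.Agent.H.MP_83e36b_nt.PlaceDefs

/-! Module I1a: fieldWA_numberField. -/

open Polynomial NumberField IsDedekindDomain

namespace AnWA

/-- weak approximation from a family of pairwise inequivalent absolute values -/
theorem fieldWA_of_abs {k : Type*} [Field k] {ι : Type*} [Finite ι] {K : ι → Type*}
    [∀ i, NormedField (K i)] (φ : ∀ i, k →+* K i) (w : ι → AbsoluteValue k ℝ)
    (hw : ∀ i x, ‖φ i x‖ = w i x) (hnt : ∀ i, (w i).IsNontrivial)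
    (hne : Pairwise fun i j => ¬ (w i).IsEquiv (w j))
    (hd : ∀ i (a : K i) (ε : ℝ), 0 < ε → ∃ y : k, ‖φ i y - a‖ < ε) : FieldWA φ := by
  intro a ε hε
  have := Fintype.ofFinite ι
  choose y hy using fun i => hd i (a i) (ε / 2) (half_pos hε)
  obtain ⟨x, hx⟩ := Metric.denseRange_iff.mp (AbsoluteValue.denseRange_algebraMap_pi hnt hne)
    (fun i => WithAbs.toAbs (w i) (y i)) (ε / 2) (half_pos hε)
  refine ⟨x, fun i => ?_⟩
  have h1 : dist (WithAbs.toAbs (w i) (y i)) (WithAbs.toAbs (w i) x) < ε / 2 :=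
    (dist_le_pi_dist _ _ i).trans_lt hx
  have h2 : w i (x - y i) < ε / 2 := by
    rw [dist_comm, dist_eq_norm, ← WithAbs.toAbs_sub, WithAbs.norm_toAbs_eq] at h1
    exact h1
  have h3 : φ i x - a i = φ i (x - y i) + (φ i (y i) - a i) := by
    rw [map_sub]; ring
  rw [h3]
  calc ‖φ i (x - y i) + (φ i (y i) - a i)‖ ≤ ‖φ i (x - y i)‖ + ‖φ i (y i) - a i‖ := norm_add_le _ _
    _ < ε / 2 + ε / 2 := by rw [hw]; exact add_lt_add h2 (hy i)
    _ = ε := add_halves ε

variable {k : Type*} [Field k] [NumberField k]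

/-- the absolute values of the places -/
noncomputable def plAbs (T : Finset (HeightOneSpectrum (𝓞 k))) :
    InfinitePlace k ⊕ {v // v ∈ T} → AbsoluteValue k ℝ :=
  Sum.elim (fun v => v.1) (fun v => (FinitePlace.mk v.1).1)

theorem norm_complEmb (T : Finset (HeightOneSpectrum (𝓞 k))) (i) (x : k) :
    ‖complEmb T i x‖ = plAbs T i x := by
  rcases i with v | v
  · exact InfinitePlace.Completion.norm_coe v (WithAbs.toAbs v.1 x)
  · rfl

theorem plAbs_nontrivial (T : Finset (HeightOneSpectrum (𝓞 k))) (i) :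
    (plAbs T i).IsNontrivial := by
  rcases i with v | v
  · exact v.isNontrivial
  · obtain ⟨x, hx, hx0⟩ := Submodule.exists_mem_ne_zero_of_ne_bot v.1.ne_bot
    refine ⟨algebraMap (𝓞 k) k x, ?_, ?_⟩
    · simpa using hx0
    · have h := (FinitePlace.norm_lt_one_iff_mem k v.1 x).mpr hx
      exact ne_of_lt h

theorem plAbs_inequiv (T : Finset (HeightOneSpectrum (𝓞 k))) :
    Pairwise fun i j => ¬ (plAbs T i).IsEquiv (plAbs T j) := by
  have key : ∀ (v : InfinitePlace k) (w : {v // v ∈ T}),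
      ¬ (plAbs T (Sum.inl v)).IsEquiv (plAbs T (Sum.inr w)) := by
    intro v w h
    have h1 : 1 < plAbs T (Sum.inl v) 2 := by
      have : v (2 : k) = 2 := by
        rw [← InfinitePlace.norm_embedding_eq v 2, map_ofNat]
        norm_num
      show 1 < v (2 : k)
      rw [this]; norm_num
    have h2 : plAbs T (Sum.inr w) 2 ≤ 1 := by
      have := FinitePlace.norm_le_one k w.1 (2 : 𝓞 k)
      rwa [map_ofNat] at this
    exact absurd (h.one_lt_iff.mp h1) (not_lt.mpr h2)
  intro i j hij h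
  rcases i with v | v <;> rcases j with w | w
  · exact hij (by rw [InfinitePlace.eq_iff_isEquiv.mpr h])
  · exact key v w h
  · exact key w v h.symm
  · have hvw : v.1 ≠ w.1 := fun e => hij (by rw [Subtype.ext e])
    obtain ⟨x, hx1, hx2⟩ : ∃ x : 𝓞 k, x ∈ v.1.asIdeal ∧ x ∉ w.1.asIdeal := by
      by_contra! H
      exact hvw <| HeightOneSpectrum.ext_iff.mpr <|
        Ideal.IsMaximal.eq_of_le (HeightOneSpectrum.isMaximal v.1) Ideal.IsPrime.ne_top' H
    have h1 := (FinitePlace.norm_lt_one_iff_mem k v.1 x).mpr hx1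
    have h2 := (FinitePlace.norm_eq_one_iff_notMem k w.1 x).mpr hx2
    have h3 : plAbs T (Sum.inr w) (algebraMap (𝓞 k) k x) < 1 := h.lt_one_iff.mp h1
    exact absurd h2 (ne_of_lt h3)

theorem complEmb_dense (T : Finset (HeightOneSpectrum (𝓞 k))) (i) (a : Compl T i) (ε : ℝ)
    (hε : 0 < ε) : ∃ y : k, ‖complEmb T i y - a‖ < ε := by
  rcases i with v | v
  · obtain ⟨y, hy⟩ := Metric.denseRange_iff.mp (InfinitePlace.Completion.denseRange_coe (v := v))
      a ε hε
    refine ⟨WithAbs.ofAbs y, ?_⟩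
    rw [dist_comm, dist_eq_norm] at hy
    exact hy
  · obtain ⟨y, hy⟩ := (v.1.denseRange_algebraMap k).exists_dist_lt a hε
    refine ⟨y, ?_⟩
    rw [dist_comm, dist_eq_norm] at hy
    exact hy

theorem fieldWA_numberField (T : Finset (HeightOneSpectrum (𝓞 k))) :
    FieldWA (complEmb T) :=
  fieldWA_of_abs (complEmb T) (plAbs T) (norm_complEmb T) (plAbs_nontrivial T) (plAbs_inequiv T)
    (complEmb_dense T)

end AnWA
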