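import Pool.Agent.H.MP_83e36b_nt.Defs
import Pool.Agent.H.MP_83e36b_nt.A1b
import Pool.Agent.H.MP_83e36b_nt.A3a

/-! Module F2: archimedean fields; transport of LocalU.

PROOF. iso: automorphisms of ℂ over ℝ are id or conjugation (Complex.algEquiv... / Complex.algHom_eq_id_or_conj type lemmas); over ℂ only the identity. solv: E intermediate between ℝ and ℂ has [E:ℝ] ≤ 2, the group has order ≤ 2 (card_algEquiv_le finrank / IsGalois.card_aut_eq_finrank) so it is commutative. transport: for f' over F' apply h to f=f'.map e.symm; map everything by e (pencil_map, NonDeg transports along an isomorphism: w ↦ w.map e.symm, chg_map, IsCoprime.map, Separable.map). (2*X).map e=2*X.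
-/

open Polynomial

namespace AnWA

theorem goodPair_real : GoodPair ℝ ℂ := by
  constructor
  · intro σ x
    rcases Complex.real_algHom_eq_id_or_conj σ.toAlgHom with h | h
    · have : σ x = x := DFunLike.congr_fun h x
      rw [this]
    · have : σ x = (starRingEnd ℂ) x := DFunLike.congr_fun h x
      rw [this, Complex.norm_conj]
  · intro E _ _
    have h1 : Module.finrank ℝ E ∣ 2 := by
      rw [← Complex.finrank_real_complex]
      exact Dvd.intro _ (Module.finrank_mul_finrank ℝ E ℂ)
    have h2 : Nat.card (E ≃ₐ[ℝ] E) ∣ 2 := by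
      rw [IsGalois.card_aut_eq_finrank]
      exact h1
    have : Fact (Nat.Prime 2) := ⟨Nat.prime_two⟩
    have := isCyclic_of_card_dvd_prime h2
    exact Group.isSolvable_of_comm fun a b => (IsCyclic.isMulCommutative).is_comm.comm a b

theorem goodPair_complex : GoodPair ℂ ℂ := by
  constructor
  · intro σ x
    have : σ x = x := σ.commutes x
    rw [this]
  · intro E _ _
    have : Subsingleton (E ≃ₐ[ℂ] E) := by
      refine ⟨fun σ τ => ?_⟩
      ext x
      have hx : x = algebraMap ℂ E (x : ℂ) := rfl
      rw [hx, σ.commutes, τ.commutes]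
    infer_instance

theorem LocalU.transport {F F' : Type*} [Field F] [Field F'] (e : F ≃+* F') {n : ℕ}
    (h : LocalU F n) : LocalU F' n := by
  intro f' hf' hn' hs'
  obtain ⟨q, k, P, ρ, t, H1, H2, H3, H4, H5, H6⟩ := h (f'.map (e.symm : F' →+* F)) (hf'.map _)
    (by rw [natDegree_map]; exact hn') (hs'.map)
  have h2X : ((2 * X : F[X])).map (e : F →+* F') = 2 * X := by simp
  have h2X' : ((2 * X : F'[X])).map (e.symm : F' →+* F) = 2 * X := by simp
  have hee : ∀ p : F[X], (p.map (e : F →+* F')).map (e.symm : F' →+* F) = p := by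
    intro p
    rw [map_map]
    simp
  have hee' : ∀ p : F'[X], (p.map (e.symm : F' →+* F)).map (e : F →+* F') = p := by
    intro p
    rw [map_map]
    simp
  refine ⟨q.map (e : F →+* F'), k.map (e : F →+* F'), P.map (e : F →+* F'),
    ρ.map (e : F →+* F'), e t, ?_, ?_, ?_, ?_, ?_, ?_⟩
  · have := pencil_map (e : F →+* F') H1
    rwa [h2X] at this
  · apply nonDeg_of_map (e.symm : F' →+* F)
    rw [h2X', hee]
    exact H2
  · rw [natDegree_map]
    exact H3
  · have := H4.map (mapRingHom (e : F →+* F'))
    simpa using this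
  · have := H5.map (f := (e : F →+* F'))
    simpa using this
  · have := congrArg (Polynomial.map (e : F →+* F')) H6
    rw [chg_map, hee'] at this
    simpa using this

instance isGalois_real_complex : IsGalois ℝ ℂ :=
  haveI : IsAlgClosure ℝ ℂ := ⟨inferInstance, inferInstance⟩
  IsAlgClosure.isGalois ℝ ℂ

end AnWA
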