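import Pool.Agent.H.MP_83e36b_nt.Defs
import Pool.Agent.H.MP_83e36b_nt.F2
import Pool.Agent.H.MP_83e36b_nt.S6

/-! Module I1b: localU_infinite.

PROOF. v real: InfinitePlace.Completion.ringEquivRealOfIsReal; v complex: ringEquivComplexOfIsComplex; localU_of_goodPair (S6) for ℝ⊂ℂ and ℂ⊂ℂ with goodPair_real, goodPair_complex, then LocalU.transport along the inverse ring equivalence.
-/

open Polynomial NumberField IsDedekindDomain

namespace AnWA

theorem localU_infinite {k : Type*} [Field k] [NumberField k] (v : InfinitePlace k) {n : ℕ}
    (hn : n % 4 = 2) : LocalU v.Completion n := by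
  rcases v.isReal_or_isComplex with hv | hv
  · exact (localU_of_goodPair goodPair_real hn).transport
      (InfinitePlace.Completion.ringEquivRealOfIsReal hv).symm
  · exact (localU_of_goodPair goodPair_complex hn).transport
      (InfinitePlace.Completion.ringEquivComplexOfIsComplex hv).symm

end AnWA
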