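import Pool.Agent.H.MP_83e36b_nt.Defs

/-! Module F1a: solvability of finite Galois groups over a local field.

PROOF. G=Gal(E/F) finite. I={σ | ∀x, ‖x‖≤1 → ‖σx-x‖<1}, P={σ | ∀x≠0, ‖σx-x‖<‖x‖}: normal
subgroups. (1) P is a p-group. (2) commutators of I are in P. (3) The residue field `k_E` is
finite, so its group of units is cyclic and any two automorphisms of it commute; so commutators
of G are in I.
-/

open Polynomial

namespace AnWA

section F1a

variable {F E : Type*} [NontriviallyNormedField F] [NormedField E]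
    [NormedAlgebra F E]

theorem F1a_sub (hna : ∀ x y : E, ‖x + y‖ ≤ max ‖x‖ ‖y‖) (x y : E) :
    ‖x - y‖ ≤ max ‖x‖ ‖y‖ := by
  have := hna x (-y)
  rwa [norm_neg, ← sub_eq_add_neg] at this

theorem F1a_tri (hna : ∀ x y : E, ‖x + y‖ ≤ max ‖x‖ ‖y‖) {x y z : E} {r : ℝ}
    (h1 : ‖x - y‖ < r) (h2 : ‖y - z‖ < r) : ‖x - z‖ < r := by
  have := hna (x - y) (y - z)
  rw [sub_add_sub_cancel] at this
  exact lt_of_le_of_lt this (max_lt h1 h2)

/-- the wild inertia group -/
def F1aP (hna : ∀ x y : E, ‖x + y‖ ≤ max ‖x‖ ‖y‖)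
    (hiso : ∀ (σ : E ≃ₐ[F] E) (x : E), ‖σ x‖ = ‖x‖) : Subgroup (E ≃ₐ[F] E) where
  carrier := {σ | ∀ x : E, x ≠ 0 → ‖σ x - x‖ < ‖x‖}
  one_mem' := by
    intro x hx
    simpa using hx
  mul_mem' := by
    intro σ τ hσ hτ x hx
    refine F1a_tri hna (y := τ x) ?_ (hτ x hx)
    have := hσ (τ x) (by simpa using hx)
    rwa [hiso τ x] at this
  inv_mem' := by
    intro σ hσ x hx
    have h1 := hσ ((σ⁻¹ : E ≃ₐ[F] E) x) (by
      intro h
      apply hx
      have := congrArg σ h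
      rw [← AlgEquiv.mul_apply] at this
      simpa using this)
    rw [← AlgEquiv.mul_apply, mul_inv_cancel, AlgEquiv.one_apply, hiso] at h1
    rwa [norm_sub_rev] at h1

/-- the inertia group -/
def F1aI (hna : ∀ x y : E, ‖x + y‖ ≤ max ‖x‖ ‖y‖)
    (hiso : ∀ (σ : E ≃ₐ[F] E) (x : E), ‖σ x‖ = ‖x‖) : Subgroup (E ≃ₐ[F] E) where
  carrier := {σ | ∀ x : E, ‖x‖ ≤ 1 → ‖σ x - x‖ < 1}
  one_mem' := by
    intro x hx
    simp
  mul_mem' := by
    intro σ τ hσ hτ x hx
    refine F1a_tri hna (y := τ x) ?_ (hτ x hx)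
    exact hσ (τ x) (by rw [hiso]; exact hx)
  inv_mem' := by
    intro σ hσ x hx
    have h1 := hσ ((σ⁻¹ : E ≃ₐ[F] E) x) (by rw [hiso]; exact hx)
    rw [← AlgEquiv.mul_apply, mul_inv_cancel, AlgEquiv.one_apply] at h1
    rwa [norm_sub_rev] at h1

theorem F1aP_normal (hna : ∀ x y : E, ‖x + y‖ ≤ max ‖x‖ ‖y‖)
    (hiso : ∀ (σ : E ≃ₐ[F] E) (x : E), ‖σ x‖ = ‖x‖) : (F1aP hna hiso).Normal := by
  refine ⟨fun τ hτ σ x hx => ?_⟩
  have h0 : (σ⁻¹ : E ≃ₐ[F] E) x ≠ 0 := by
    intro h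
    apply hx
    have := congrArg σ h
    rw [← AlgEquiv.mul_apply] at this
    simpa using this
  have h1 := hτ _ h0
  rw [hiso] at h1
  have h2 : (σ * τ * σ⁻¹) x - x = σ (τ ((σ⁻¹ : E ≃ₐ[F] E) x) - (σ⁻¹ : E ≃ₐ[F] E) x) := by
    rw [map_sub, ← AlgEquiv.mul_apply, ← AlgEquiv.mul_apply, ← AlgEquiv.mul_apply,
      mul_inv_cancel, AlgEquiv.one_apply, mul_assoc]
  rw [h2, hiso]
  exact h1

theorem F1aI_normal (hna : ∀ x y : E, ‖x + y‖ ≤ max ‖x‖ ‖y‖)
    (hiso : ∀ (σ : E ≃ₐ[F] E) (x : E), ‖σ x‖ = ‖x‖) : (F1aI hna hiso).Normal := by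
  refine ⟨fun τ hτ σ x hx => ?_⟩
  have h1 := hτ ((σ⁻¹ : E ≃ₐ[F] E) x) (by rw [hiso]; exact hx)
  have h2 : (σ * τ * σ⁻¹) x - x = σ (τ ((σ⁻¹ : E ≃ₐ[F] E) x) - (σ⁻¹ : E ≃ₐ[F] E) x) := by
    rw [map_sub, ← AlgEquiv.mul_apply, ← AlgEquiv.mul_apply, ← AlgEquiv.mul_apply,
      mul_inv_cancel, AlgEquiv.one_apply, mul_assoc]
  rw [h2, hiso]
  exact h1

theorem F1a_sum_lt (hna : ∀ x y : E, ‖x + y‖ ≤ max ‖x‖ ‖y‖) {r : ℝ} (hr : 0 < r)
    (f : ℕ → E) (n : ℕ) (h : ∀ i < n, ‖f i‖ < r) : ‖∑ i ∈ Finset.range n, f i‖ < r := by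
  induction n with
  | zero => simpa using hr
  | succ n ih =>
    rw [Finset.sum_range_succ]
    exact lt_of_le_of_lt (hna _ _) (max_lt (ih fun i hi => h i (by omega)) (h n (by omega)))

theorem F1aP_isPGroup (hna : ∀ x y : E, ‖x + y‖ ≤ max ‖x‖ ‖y‖)
    (hiso : ∀ (σ : E ≃ₐ[F] E) (x : E), ‖σ x‖ = ‖x‖) [Finite (E ≃ₐ[F] E)]
    {p : ℕ} (hp : p.Prime) (hp1 : ‖(p : E)‖ < 1) : IsPGroup p (F1aP hna hiso) := by
  have : IsUltrametricDist E :=
    IsUltrametricDist.isUltrametricDist_of_forall_norm_add_le_max_norm hna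
  have key : ∀ (σ : E ≃ₐ[F] E), σ ∈ F1aP hna hiso → ∀ l : ℕ, l.Prime → orderOf σ = l → l = p := by
    intro σ hσ l hl hord
    by_contra hne
    have hcop : IsCoprime (l : ℤ) (p : ℤ) := by
      rw [Nat.isCoprime_iff_coprime]
      exact (Nat.coprime_primes hl hp).2 hne
    obtain ⟨a, b, hab⟩ := hcop
    have hl1 : 1 ≤ ‖(l : E)‖ := by
      by_contra hlt
      rw [not_le] at hlt
      have h1 : ((a : E) * (l : E) + (b : E) * (p : E)) = 1 := by exact_mod_cast congrArg (Int.cast : ℤ → E) hab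
      have h2 := hna ((a : E) * (l : E)) ((b : E) * (p : E))
      rw [h1, norm_one, norm_mul, norm_mul] at h2
      have ha : ‖(a : E)‖ ≤ 1 := IsUltrametricDist.norm_intCast_le_one E a
      have hb : ‖(b : E)‖ ≤ 1 := IsUltrametricDist.norm_intCast_le_one E b
      have h3 : ‖(a : E)‖ * ‖(l : E)‖ < 1 :=
        lt_of_le_of_lt (mul_le_of_le_one_left (norm_nonneg _) ha) hlt
      have h4 : ‖(b : E)‖ * ‖(p : E)‖ < 1 :=
        lt_of_le_of_lt (mul_le_of_le_one_left (norm_nonneg _) hb) hp1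
      exact absurd h2 (not_le.2 (max_lt h3 h4))
    have hσ1 : σ ≠ 1 := by
      rintro rfl
      rw [orderOf_one] at hord
      exact hl.one_lt.ne hord
    obtain ⟨z, hz⟩ : ∃ z, σ z ≠ z := by
      by_contra hcon
      push Not at hcon
      exact hσ1 (AlgEquiv.ext hcon)
    set x := z - σ z with hx
    have hx0 : x ≠ 0 := sub_ne_zero.2 (Ne.symm hz)
    have hsum : ∑ i ∈ Finset.range l, (σ ^ i) x = 0 := by
      have h1 : ∀ i, (σ ^ i) x = (σ ^ i) z - (σ ^ (i + 1)) z := by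
        intro i
        rw [hx, map_sub, pow_succ, AlgEquiv.mul_apply]
      rw [Finset.sum_congr rfl fun i _ => h1 i, Finset.sum_range_sub' (fun i => (σ ^ i) z)]
      rw [← hord, pow_orderOf_eq_one, pow_zero, sub_self]
    have hsum2 : (l : E) * x = - ∑ i ∈ Finset.range l, ((σ ^ i) x - x) := by
      rw [Finset.sum_sub_distrib, hsum]
      simp
    have h5 : ‖∑ i ∈ Finset.range l, ((σ ^ i) x - x)‖ < ‖x‖ := by
      apply F1a_sum_lt hna (norm_pos_iff.2 hx0)
      intro i _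
      exact (F1aP hna hiso).pow_mem hσ i x hx0
    have h6 : ‖(l : E) * x‖ < ‖x‖ := by
      rw [hsum2, norm_neg]
      exact h5
    rw [norm_mul] at h6
    have := norm_pos_iff.2 hx0
    nlinarith
  intro σ
  have hfin : IsOfFinOrder σ := isOfFinOrder_of_finite σ
  have hn : orderOf σ ≠ 0 := hfin.orderOf_pos.ne'
  refine ⟨(orderOf σ).primeFactorsList.length, ?_⟩
  rw [← Nat.eq_prime_pow_of_unique_prime_dvd hn]
  · exact pow_orderOf_eq_one σ
  · intro d hd hdvd
    have hmem : ((σ ^ (orderOf σ / d) : F1aP hna hiso) : E ≃ₐ[F] E) ∈ F1aP hna hiso := SetLike.coe_mem _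
    refine key _ hmem d hd ?_
    rw [Subgroup.orderOf_coe, orderOf_pow_orderOf_div hn hdvd]

theorem F1a_comm_I (hna : ∀ x y : E, ‖x + y‖ ≤ max ‖x‖ ‖y‖)
    (hiso : ∀ (σ : E ≃ₐ[F] E) (x : E), ‖σ x‖ = ‖x‖) {σ τ : E ≃ₐ[F] E}
    (hσ : σ ∈ F1aI hna hiso) (hτ : τ ∈ F1aI hna hiso) {x : E} (hx : x ≠ 0) :
    ‖σ (τ x) - τ (σ x)‖ < ‖x‖ := by
  have hxn : 0 < ‖x‖ := norm_pos_iff.2 hx
  have key : ∀ σ τ : E ≃ₐ[F] E, σ ∈ F1aI hna hiso →
      ‖σ (τ x) / x - (τ x / x) * (σ x / x)‖ < 1 := by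
    intro σ τ hσ
    have h1 : σ (τ x) / x - (τ x / x) * (σ x / x) = (σ (τ x / x) - τ x / x) * (σ x / x) := by
      have hsx : σ x ≠ 0 := by simpa using hx
      rw [sub_mul, map_div₀]
      congr 1
      field_simp
    rw [h1, norm_mul, norm_div, hiso, div_self hxn.ne', mul_one]
    apply hσ
    rw [norm_div, hiso, div_self hxn.ne']
  have h1 := key σ τ hσ
  have h2 := key τ σ hτ
  rw [mul_comm (σ x / x)] at h2
  have h3 : ‖σ (τ x) / x - τ (σ x) / x‖ < 1 := by
    refine F1a_tri hna h1 ?_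
    rw [norm_sub_rev]
    exact h2
  rw [← sub_div, norm_div, div_lt_one hxn] at h3
  exact h3

theorem F1a_commutator_mem_P (hna : ∀ x y : E, ‖x + y‖ ≤ max ‖x‖ ‖y‖)
    (hiso : ∀ (σ : E ≃ₐ[F] E) (x : E), ‖σ x‖ = ‖x‖) {σ τ : E ≃ₐ[F] E}
    (hσ : σ ∈ F1aI hna hiso) (hτ : τ ∈ F1aI hna hiso) :
    (τ * σ)⁻¹ * (σ * τ) ∈ F1aP hna hiso := by
  intro x hx
  have h1 := F1a_comm_I hna hiso hσ hτ hx
  have h2 : ‖((τ * σ)⁻¹ * (σ * τ)) x - x‖ = ‖σ (τ x) - τ (σ x)‖ := by
    rw [← hiso (τ * σ), map_sub, ← AlgEquiv.mul_apply, mul_inv_cancel_left]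
    rfl
  rw [h2]
  exact h1

/-- the valuation ring -/
def F1aO (E : Type*) [NormedField E] (hna : ∀ x y : E, ‖x + y‖ ≤ max ‖x‖ ‖y‖) : Subring E where
  carrier := {x | ‖x‖ ≤ 1}
  one_mem' := by simp
  zero_mem' := by simp
  mul_mem' := by
    intro a b ha hb
    simp only [Set.mem_setOf_eq] at *
    rw [norm_mul]
    exact mul_le_one₀ ha (norm_nonneg _) hb
  add_mem' := by
    intro a b ha hb
    exact (hna a b).trans (max_le ha hb)
  neg_mem' := by
    intro a ha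
    simp only [Set.mem_setOf_eq] at *
    rwa [norm_neg]

/-- the maximal ideal -/
def F1aM (E : Type*) [NormedField E] (hna : ∀ x y : E, ‖x + y‖ ≤ max ‖x‖ ‖y‖) :
    Ideal (F1aO E hna) where
  carrier := {x | ‖(x : E)‖ < 1}
  zero_mem' := by simp
  add_mem' := by
    intro a b ha hb
    exact lt_of_le_of_lt (hna a b) (max_lt ha hb)
  smul_mem' := by
    intro c x hx
    simp only [Set.mem_setOf_eq, smul_eq_mul, Subring.coe_mul, norm_mul] at *
    exact lt_of_le_of_lt (mul_le_of_le_one_left (norm_nonneg _) c.2) hx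

theorem F1aM_max (hna : ∀ x y : E, ‖x + y‖ ≤ max ‖x‖ ‖y‖) : (F1aM E hna).IsMaximal := by
  rw [Ideal.isMaximal_iff]
  refine ⟨?_, ?_⟩
  · intro h
    have : ‖((1 : F1aO E hna) : E)‖ < 1 := h
    simp at this
  · intro J x _ hx hxJ
    have h1 : ‖(x : E)‖ = 1 := by
      refine le_antisymm x.2 (not_lt.1 hx)
    have h2 : ‖((x : E))⁻¹‖ ≤ 1 := by rw [norm_inv, h1, inv_one]
    have h3 : (⟨(x : E)⁻¹, h2⟩ : F1aO E hna) * x = 1 := by
      apply Subtype.ext
      change (x : E)⁻¹ * (x : E) = 1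
      apply inv_mul_cancel₀
      intro h0
      rw [h0, norm_zero] at h1
      exact zero_ne_one h1
    rw [← h3]
    exact J.mul_mem_left _ hxJ

/-- an isometric automorphism acts on the valuation ring -/
def F1aAct (hna : ∀ x y : E, ‖x + y‖ ≤ max ‖x‖ ‖y‖)
    (hiso : ∀ (σ : E ≃ₐ[F] E) (x : E), ‖σ x‖ = ‖x‖) (σ : E ≃ₐ[F] E) :
    F1aO E hna →+* F1aO E hna where
  toFun x := ⟨σ x, by
    change ‖σ x‖ ≤ 1
    rw [hiso]
    exact x.2⟩
  map_one' := by
    apply Subtype.ext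
    simp
  map_zero' := by
    apply Subtype.ext
    simp
  map_mul' a b := by
    apply Subtype.ext
    simp
  map_add' a b := by
    apply Subtype.ext
    simp

/-- two endomorphisms of a finite field commute -/
theorem F1a_comm_finite {K : Type*} [Field K] [Finite K] (α β : K →+* K) (x : K) :
    α (β x) = β (α x) := by
  by_cases hx : x = 0
  · simp [hx]
  · obtain ⟨g, hg⟩ := IsCyclic.exists_generator (α := Kˣ)
    obtain ⟨a, ha⟩ := Subgroup.mem_zpowers_iff.1 (hg (Units.map (α : K →* K) g))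
    obtain ⟨b, hb⟩ := Subgroup.mem_zpowers_iff.1 (hg (Units.map (β : K →* K) g))
    obtain ⟨c, hc⟩ := Subgroup.mem_zpowers_iff.1 (hg (Units.mk0 x hx))
    have h1 : Units.map (α : K →* K) (Units.map (β : K →* K) (Units.mk0 x hx))
        = Units.map (β : K →* K) (Units.map (α : K →* K) (Units.mk0 x hx)) := by
      rw [← hc, map_zpow, map_zpow, map_zpow, map_zpow, ← ha, ← hb, map_zpow, map_zpow, ← ha, ← hb]
      simp only [← zpow_mul]
      congr 1
      ring
    have h2 := congrArg Units.val h1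
    simpa using h2

theorem F1a_finite_residue (hna : ∀ x y : E, ‖x + y‖ ≤ max ‖x‖ ‖y‖)
    [FiniteDimensional F E] [IsGalois F E]
    (hiso : ∀ (σ : E ≃ₐ[F] E) (x : E), ‖σ x‖ = ‖x‖)
    (hres : ∃ s : Finset F, ∀ x : F, ‖x‖ ≤ 1 → ∃ y ∈ s, ‖x - y‖ < 1) :
    Finite (F1aO E hna ⧸ F1aM E hna) := by
  classical
  obtain ⟨s, hs⟩ := hres
  have := F1aM_max (E := E) hna
  let : Field (F1aO E hna ⧸ F1aM E hna) := Ideal.Quotient.field _
  have : Fintype (E ≃ₐ[F] E) := Fintype.ofFinite _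
  set d := Fintype.card (E ≃ₐ[F] E) with hd
  let red : F → (F1aO E hna ⧸ F1aM E hna) := fun y =>
    if h : ‖algebraMap F E y‖ ≤ 1 then Ideal.Quotient.mk _ ⟨algebraMap F E y, h⟩ else 0
  let poly : (Fin d → s) → (F1aO E hna ⧸ F1aM E hna)[X] := fun c =>
    X ^ d + ∑ i : Fin d, C (red (c i)) * X ^ (i : ℕ)
  have hcover : ∀ x : (F1aO E hna ⧸ F1aM E hna), ∃ c : Fin d → s, poly c ≠ 0 ∧ (poly c).IsRoot x := by
    intro x
    obtain ⟨x, rfl⟩ := Ideal.Quotient.mk_surjective x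
    let Q : (F1aO E hna)[X] := ∏ σ : E ≃ₐ[F] E, (X - C (F1aAct hna hiso σ x))
    have hQm : Q.Monic := monic_prod_of_monic _ _ fun σ _ => monic_X_sub_C _
    have hQd : Q.natDegree = d := by
      rw [natDegree_prod_of_monic _ _ fun σ _ => monic_X_sub_C _]
      simp [hd]
    have hQmap : Q.map (F1aO E hna).subtype = ∏ σ : E ≃ₐ[F] E, (X - C (σ (x : E))) := by
      rw [Polynomial.map_prod]
      refine Finset.prod_congr rfl fun σ _ => ?_
      rw [Polynomial.map_sub, map_X, map_C]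
      rfl
    have hQroot : Q.eval x = 0 := by
      rw [eval_prod]
      apply Finset.prod_eq_zero (Finset.mem_univ (1 : E ≃ₐ[F] E))
      rw [eval_sub, eval_X, eval_C, sub_eq_zero]
      apply Subtype.ext
      rfl
    have hfix : ∀ i, ∃ y : F, algebraMap F E y = (Q.coeff i : E) := by
      intro i
      apply (IsGalois.mem_range_algebraMap_iff_fixed _).2
      intro τ
      have h1 : (Q.map (F1aO E hna).subtype).map (τ : E →+* E) = Q.map (F1aO E hna).subtype := by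
        rw [hQmap, Polynomial.map_prod]
        rw [← Equiv.prod_comp (Equiv.mulLeft τ) (fun σ : E ≃ₐ[F] E => X - C (σ (x : E)))]
        refine Finset.prod_congr rfl fun σ _ => ?_
        rw [Polynomial.map_sub, map_X, map_C]
        rfl
      have h2 := congrArg (fun f => f.coeff i) h1
      simp only [coeff_map] at h2
      exact h2
    choose y hy using hfix
    have hyn : ∀ i, ‖y i‖ ≤ 1 := by
      intro i
      rw [← norm_algebraMap' E, hy]
      exact (Q.coeff i).2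
    choose c hcs hc using fun i => hs (y i) (hyn i)
    have hcn : ∀ i, ‖algebraMap F E (c i)‖ ≤ 1 := by
      intro i
      have h1 : algebraMap F E (c i) = algebraMap F E (y i) - algebraMap F E (y i - c i) := by
        rw [map_sub]; ring
      rw [h1]
      refine (F1a_sub hna _ _).trans (max_le ?_ ?_)
      · rw [norm_algebraMap']
        exact hyn i
      · rw [norm_algebraMap']
        exact (hc i).le
    have hred : ∀ i, red (c i) = Ideal.Quotient.mk _ (Q.coeff i) := by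
      intro i
      simp only [red, dif_pos (hcn i)]
      rw [Ideal.Quotient.eq]
      change ‖algebraMap F E (c i) - (Q.coeff i : E)‖ < 1
      rw [← hy, ← map_sub, norm_algebraMap', norm_sub_rev]
      exact hc i
    refine ⟨fun i => ⟨c i, hcs i⟩, ?_, ?_⟩
    · intro h0
      have h1 : (poly fun i : Fin d => ⟨c i, hcs i⟩).coeff d = 1 := by
        simp only [poly, coeff_add, coeff_X_pow, if_true, finset_sum_coeff, coeff_C_mul]
        rw [Finset.sum_eq_zero, add_zero]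
        intro i _
        rw [if_neg (by have := i.2; omega), mul_zero]
      rw [h0, coeff_zero] at h1
      exact zero_ne_one h1
    · have h1 : poly (fun i : Fin d => ⟨c i, hcs i⟩) = Q.map (Ideal.Quotient.mk (F1aM E hna)) := by
        have h2 := hQm.as_sum
        rw [hQd] at h2
        conv_rhs => rw [h2]
        simp only [poly, Polynomial.map_add, Polynomial.map_pow, map_X, Polynomial.map_sum,
          Polynomial.map_mul, map_C]
        congr 1
        rw [← Fin.sum_univ_eq_sum_range (fun i => C (Ideal.Quotient.mk (F1aM E hna) (Q.coeff i)) * X ^ i)]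
        refine Finset.sum_congr rfl fun i _ => ?_
        rw [hred]
      rw [h1, IsRoot, eval_map, eval₂_at_apply, hQroot, map_zero]
  have hfin : (⋃ c : Fin d → s, {x | poly c ≠ 0 ∧ (poly c).IsRoot x}).Finite := by
    apply Set.finite_iUnion
    intro c
    by_cases h : poly c = 0
    · simp [h]
    · refine Set.Finite.subset ((poly c).roots.toFinset.finite_toSet) ?_
      rintro x ⟨_, hx⟩
      simpa [h] using hx
  rw [← Set.finite_univ_iff]
  refine hfin.subset ?_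
  intro x _
  obtain ⟨c, hc⟩ := hcover x
  exact Set.mem_iUnion.2 ⟨c, hc⟩

theorem F1a_comm_G (hna : ∀ x y : E, ‖x + y‖ ≤ max ‖x‖ ‖y‖)
    [FiniteDimensional F E] [IsGalois F E]
    (hiso : ∀ (σ : E ≃ₐ[F] E) (x : E), ‖σ x‖ = ‖x‖)
    (hres : ∃ s : Finset F, ∀ x : F, ‖x‖ ≤ 1 → ∃ y ∈ s, ‖x - y‖ < 1)
    (σ τ : E ≃ₐ[F] E) {x : E} (hx : ‖x‖ ≤ 1) : ‖σ (τ x) - τ (σ x)‖ < 1 := by
  have := F1aM_max (E := E) hna
  have := F1a_finite_residue hna hiso hres
  let : Field (F1aO E hna ⧸ F1aM E hna) := Ideal.Quotient.field _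
  have hle : ∀ σ : E ≃ₐ[F] E, F1aM E hna ≤ (F1aM E hna).comap (F1aAct hna hiso σ) := by
    intro σ y hy
    change ‖σ (y : E)‖ < 1
    rw [hiso]
    exact hy
  let a : ∀ σ : E ≃ₐ[F] E, (F1aO E hna ⧸ F1aM E hna) →+* (F1aO E hna ⧸ F1aM E hna) := fun σ =>
    Ideal.quotientMap _ (F1aAct hna hiso σ) (hle σ)
  have h1 := F1a_comm_finite (a σ) (a τ) (Ideal.Quotient.mk _ ⟨x, hx⟩)
  simp only [a, Ideal.quotientMap_mk] at h1
  rw [Ideal.Quotient.eq] at h1
  exact h1

theorem F1a_commutator_mem_I (hna : ∀ x y : E, ‖x + y‖ ≤ max ‖x‖ ‖y‖)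
    [FiniteDimensional F E] [IsGalois F E]
    (hiso : ∀ (σ : E ≃ₐ[F] E) (x : E), ‖σ x‖ = ‖x‖)
    (hres : ∃ s : Finset F, ∀ x : F, ‖x‖ ≤ 1 → ∃ y ∈ s, ‖x - y‖ < 1)
    (σ τ : E ≃ₐ[F] E) :
    (τ * σ)⁻¹ * (σ * τ) ∈ F1aI hna hiso := by
  intro x hx
  have h1 := F1a_comm_G hna hiso hres σ τ hx
  have h2 : ‖((τ * σ)⁻¹ * (σ * τ)) x - x‖ = ‖σ (τ x) - τ (σ x)‖ := by
    rw [← hiso (τ * σ), map_sub, ← AlgEquiv.mul_apply, mul_inv_cancel_left]
    rfl
  rw [h2]
  exact h1

end F1a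

/-- Finite Galois groups over a field with an ultrametric norm, invariant under automorphisms,
and with finite residue field (in the elementary sense below), are solvable. -/
theorem solvable_of_ultrametric {F E : Type*} [NontriviallyNormedField F] [NormedField E]
    [NormedAlgebra F E] [FiniteDimensional F E] [IsGalois F E]
    (hna : ∀ x y : E, ‖x + y‖ ≤ max ‖x‖ ‖y‖) (hiso : ∀ (σ : E ≃ₐ[F] E) (x : E), ‖σ x‖ = ‖x‖)
    {p : ℕ} (hp : p.Prime) (hp1 : ‖(p : F)‖ < 1)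
    (hres : ∃ s : Finset F, ∀ x : F, ‖x‖ ≤ 1 → ∃ y ∈ s, ‖x - y‖ < 1) :
    Group.IsSolvable (E ≃ₐ[F] E) := by
  have hp1' : ‖(p : E)‖ < 1 := by
    rw [← map_natCast (algebraMap F E), norm_algebraMap']
    exact hp1
  have := F1aP_normal hna hiso
  have := F1aI_normal hna hiso
  have hPs : Group.IsSolvable (F1aP hna hiso) := by
    have : Fact p.Prime := ⟨hp⟩
    have : Group.IsNilpotent (F1aP hna hiso) := (F1aP_isPGroup hna hiso hp hp1').isNilpotent
    infer_instance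
  rw [Group.isSolvable_iff_subgroup_quotient (F1aI hna hiso)]
  constructor
  · have : ((F1aP hna hiso).subgroupOf (F1aI hna hiso)).Normal := inferInstance
    rw [Group.isSolvable_iff_subgroup_quotient ((F1aP hna hiso).subgroupOf (F1aI hna hiso))]
    constructor
    · let f : (F1aP hna hiso).subgroupOf (F1aI hna hiso) →* F1aP hna hiso :=
        { toFun := fun x => ⟨(x : F1aI hna hiso), x.2⟩
          map_one' := rfl
          map_mul' := fun _ _ => rfl }
      apply Group.isSolvable_of_isSolvable_injective (f := f)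
      intro a b hab
      apply Subtype.ext
      apply Subtype.ext
      exact congrArg (fun z : F1aP hna hiso => (z : E ≃ₐ[F] E)) hab
    · apply Group.isSolvable_of_comm
      intro a b
      induction a using QuotientGroup.induction_on with
      | H a =>
        induction b using QuotientGroup.induction_on with
        | H b =>
          rw [← QuotientGroup.mk_mul, ← QuotientGroup.mk_mul, QuotientGroup.eq]
          exact F1a_commutator_mem_P hna hiso b.2 a.2
  · apply Group.isSolvable_of_comm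
    intro a b
    induction a using QuotientGroup.induction_on with
    | H a =>
      induction b using QuotientGroup.induction_on with
      | H b =>
        rw [← QuotientGroup.mk_mul, ← QuotientGroup.mk_mul, QuotientGroup.eq]
        exact F1a_commutator_mem_I hna hiso hres b a

end AnWA
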