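import Pool.Agent.H.MP_83e36b_nt.Defs
import Pool.Agent.H.MP_83e36b_nt.F1a

/-! Module F1b: good closure of a nonarchimedean local field.

The algebraic closure with the spectral norm.
-/

namespace AnWA

theorem solvable_spectral {F : Type*} [NontriviallyNormedField F] [CompleteSpace F]
    [IsUltrametricDist F] {E : Type*} [Field E] [Algebra F E] [FiniteDimensional F E]
    [IsGalois F E]
    {p : ℕ} (hp : p.Prime) (hp1 : ‖(p : F)‖ < 1)
    (hres : ∃ s : Finset F, ∀ x : F, ‖x‖ ≤ 1 → ∃ y ∈ s, ‖x - y‖ < 1) :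
    Group.IsSolvable (E ≃ₐ[F] E) := by
  let jF : NormedField E := spectralNorm.normedField F E
  let jA : @NormedAlgebra F E _ jF.toNormedCommRing.toSeminormedCommRing.toSeminormedRing :=
    spectralNorm.normedAlgebra F E
  exact @solvable_of_ultrametric F E _ jF jA _ _
      (fun x y => isNonarchimedean_spectralNorm x y)
      (fun σ x => (spectralNorm_eq_of_equiv σ x).symm) p hp hp1 hres

theorem goodPair_spectral {F : Type*} [NontriviallyNormedField F] [CompleteSpace F]
    [IsUltrametricDist F] {L : Type*} [Field L] [Algebra F L] [Algebra.IsAlgebraic F L]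
    {p : ℕ} (hp : p.Prime) (hp1 : ‖(p : F)‖ < 1)
    (hres : ∃ s : Finset F, ∀ x : F, ‖x‖ ≤ 1 → ∃ y ∈ s, ‖x - y‖ < 1) :
    @GoodPair F L _ (spectralNorm.normedField F L) (spectralNorm.normedAlgebra F L) := by
  have key : ∀ (E : IntermediateField F L), FiniteDimensional F E → IsGalois F E →
      Group.IsSolvable (E ≃ₐ[F] E) := fun E h1 h2 =>
    solvable_spectral hp hp1 hres
  have key2 : ∀ (σ : L ≃ₐ[F] L) (x : L), spectralNorm F L (σ x) = spectralNorm F L x :=
    fun σ x => (spectralNorm_eq_of_equiv σ x).symm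
  exact @GoodPair.mk F L _ (spectralNorm.normedField F L) (spectralNorm.normedAlgebra F L)
    key2 key

theorem hasGoodClosure_of_ultrametric.{u} (F : Type u) [NontriviallyNormedField F] [CompleteSpace F]
    [CharZero F] (hna : ∀ x y : F, ‖x + y‖ ≤ max ‖x‖ ‖y‖)
    {p : ℕ} (hp : p.Prime) (hp1 : ‖(p : F)‖ < 1)
    (hres : ∃ s : Finset F, ∀ x : F, ‖x‖ ≤ 1 → ∃ y ∈ s, ‖x - y‖ < 1) :
    HasGoodClosure F := by
  have : IsUltrametricDist F :=
    IsUltrametricDist.isUltrametricDist_of_forall_norm_add_le_max_norm hna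
  have h1 : IsAlgClosed (AlgebraicClosure F) := inferInstance
  have h2 : IsGalois F (AlgebraicClosure F) := inferInstance
  exact ⟨AlgebraicClosure F, spectralNorm.normedField F (AlgebraicClosure F),
    spectralNorm.normedAlgebra F (AlgebraicClosure F), h1, h2,
    goodPair_spectral hp hp1 hres⟩

end AnWA
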