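import Pool.Agent.H.MP_83e36b_nt.Defs
import Pool.Agent.H.MP_83e36b_nt.F1b
import Pool.Agent.H.MP_83e36b_nt.S6

/-! Module I1c: localU_finite: the completions at finite places.
-/

open Polynomial NumberField IsDedekindDomain

namespace AnWA

theorem norm_algebraMap_le_one {k : Type*} [Field k] [NumberField k] (v : HeightOneSpectrum (𝓞 k))
    (y : k) : ‖algebraMap k (v.adicCompletion k) y‖ ≤ 1 ↔ v.valuation k y ≤ 1 := by
  rw [← HeightOneSpectrum.valuedAdicCompletion_eq_valuation' v y]
  exact Valued.toNormedField.norm_le_one_iff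

theorem norm_algebraMap_lt_one {k : Type*} [Field k] [NumberField k] (v : HeightOneSpectrum (𝓞 k))
    (y : k) : ‖algebraMap k (v.adicCompletion k) y‖ < 1 ↔ v.valuation k y < 1 := by
  rw [← HeightOneSpectrum.valuedAdicCompletion_eq_valuation' v y]
  exact Valued.toNormedField.norm_lt_one_iff

/-- an element of norm at most one of the completion is congruent to an algebraic integer -/
theorem exists_integer_near {k : Type*} [Field k] [NumberField k] (v : HeightOneSpectrum (𝓞 k))
    (x : v.adicCompletion k) (hx : ‖x‖ ≤ 1) :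
    ∃ r : 𝓞 k, ‖x - algebraMap k (v.adicCompletion k) (algebraMap (𝓞 k) k r)‖ < 1 := by
  obtain ⟨y, hy⟩ := (v.denseRange_algebraMap k).exists_dist_lt x one_pos
  rw [dist_eq_norm] at hy
  have hna : ∀ a b : v.adicCompletion k, ‖a + b‖ ≤ max ‖a‖ ‖b‖ :=
    fun a b => Valued.isNonarchimedean_norm (v.adicCompletion k) (WithZero (Multiplicative ℤ)) a b
  have hy1 : ‖algebraMap k (v.adicCompletion k) y‖ ≤ 1 := by
    have h := hna x (-(x - algebraMap k (v.adicCompletion k) y))
    rw [norm_neg] at h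
    have e : x + -(x - algebraMap k (v.adicCompletion k) y)
        = algebraMap k (v.adicCompletion k) y := by ring
    rw [e] at h
    exact h.trans (max_le hx hy.le)
  rw [norm_algebraMap_le_one] at hy1
  obtain ⟨a, ha⟩ := v.exists_valuation_sub_lt_of_integer hy1 1
  rw [Units.val_one, ← norm_algebraMap_lt_one, map_sub] at ha
  refine ⟨a, ?_⟩
  have h := hna (x - algebraMap k (v.adicCompletion k) y)
    (-(algebraMap k (v.adicCompletion k) (algebraMap (𝓞 k) k a)
      - algebraMap k (v.adicCompletion k) y))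
  rw [norm_neg] at h
  have e : (x - algebraMap k (v.adicCompletion k) y) +
    (-(algebraMap k (v.adicCompletion k) (algebraMap (𝓞 k) k a)
      - algebraMap k (v.adicCompletion k) y))
      = x - algebraMap k (v.adicCompletion k) (algebraMap (𝓞 k) k a) := by ring
  rw [e] at h
  exact h.trans_lt (max_lt hy ha)

/-- the residue field is finite -/
theorem exists_residues {k : Type*} [Field k] [NumberField k] (v : HeightOneSpectrum (𝓞 k)) :
    ∃ s : Finset (v.adicCompletion k), ∀ x : v.adicCompletion k, ‖x‖ ≤ 1 →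
      ∃ y ∈ s, ‖x - y‖ < 1 := by
  have hna : ∀ a b : v.adicCompletion k, ‖a + b‖ ≤ max ‖a‖ ‖b‖ :=
    fun a b => Valued.isNonarchimedean_norm (v.adicCompletion k) (WithZero (Multiplicative ℤ)) a b
  have hfin : Finite (𝓞 k ⧸ v.asIdeal) :=
    v.asIdeal.finiteQuotientOfFreeOfNeBot v.ne_bot
  have hft : Fintype (𝓞 k ⧸ v.asIdeal) := Fintype.ofFinite _
  let g : (𝓞 k ⧸ v.asIdeal) → v.adicCompletion k := fun c =>
    algebraMap k (v.adicCompletion k) (algebraMap (𝓞 k) k (Quotient.out c))
  refine ⟨(Set.finite_range g).toFinset, fun x hx => ?_⟩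
  obtain ⟨r, hr⟩ := exists_integer_near v x hx
  refine ⟨g (Ideal.Quotient.mk v.asIdeal r), by simp, ?_⟩
  have hmem : r - Quotient.out (Ideal.Quotient.mk v.asIdeal r) ∈ v.asIdeal := by
    rw [← Ideal.Quotient.eq]
    exact (Ideal.Quotient.mk_out _).symm
  have h2 : ‖algebraMap k (v.adicCompletion k) (algebraMap (𝓞 k) k
      (r - Quotient.out (Ideal.Quotient.mk v.asIdeal r)))‖ < 1 := by
    rw [norm_algebraMap_lt_one]
    exact (v.valuation_lt_one_iff_mem _).mpr hmem
  rw [map_sub, map_sub] at h2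
  have h := hna (x - algebraMap k (v.adicCompletion k) (algebraMap (𝓞 k) k r))
    (algebraMap k (v.adicCompletion k) (algebraMap (𝓞 k) k r)
      - algebraMap k (v.adicCompletion k) (algebraMap (𝓞 k) k
        (Quotient.out (Ideal.Quotient.mk v.asIdeal r))))
  rw [sub_add_sub_cancel] at h
  exact h.trans_lt (max_lt hr h2)

/-- the residue characteristic -/
theorem exists_prime_norm_lt_one {k : Type*} [Field k] [NumberField k]
    (v : HeightOneSpectrum (𝓞 k)) :
    ∃ p : ℕ, p.Prime ∧ ‖(p : v.adicCompletion k)‖ < 1 := by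
  have hfin : Finite (𝓞 k ⧸ v.asIdeal) :=
    v.asIdeal.finiteQuotientOfFreeOfNeBot v.ne_bot
  have hft : Fintype (𝓞 k ⧸ v.asIdeal) := Fintype.ofFinite _
  obtain ⟨p, hp⟩ := CharP.exists (𝓞 k ⧸ v.asIdeal)
  have hpr : p.Prime := CharP.char_is_prime (𝓞 k ⧸ v.asIdeal) p
  refine ⟨p, hpr, ?_⟩
  have hmem : (p : 𝓞 k) ∈ v.asIdeal := by
    rw [← Ideal.Quotient.eq_zero_iff_mem, map_natCast]
    exact CharP.cast_eq_zero _ p
  have h2 : ‖algebraMap k (v.adicCompletion k) (algebraMap (𝓞 k) k (p : 𝓞 k))‖ < 1 := by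
    rw [norm_algebraMap_lt_one]
    exact (v.valuation_lt_one_iff_mem _).mpr hmem
  rwa [map_natCast, map_natCast] at h2

theorem localU_finite {k : Type*} [Field k] [NumberField k] (v : HeightOneSpectrum (𝓞 k)) {n : ℕ}
    (hn : n % 4 = 2) : LocalU (v.adicCompletion k) n := by
  obtain ⟨p, hp, hp1⟩ := exists_prime_norm_lt_one v
  have hres := exists_residues v
  have hna : ∀ a b : v.adicCompletion k, ‖a + b‖ ≤ max ‖a‖ ‖b‖ :=
    fun a b => Valued.isNonarchimedean_norm (v.adicCompletion k) (WithZero (Multiplicative ℤ)) a b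
  have hch : CharZero (v.adicCompletion k) :=
    (RingHom.charZero_iff (algebraMap k (v.adicCompletion k)).injective).mp inferInstance
  let iN : NontriviallyNormedField (v.adicCompletion k) :=
    Valued.toNontriviallyNormedField (v.adicCompletion k) (WithZero (Multiplicative ℤ))
  obtain ⟨L, iL, iA, hL1, hL2, hL3⟩ :=
    hasGoodClosure_of_ultrametric (v.adicCompletion k) hna hp hp1 hres
  exact localU_of_goodPair hL3 hn

end AnWA
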