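import Pool.Agent.H.MP_83e36b_nt.Defs
import Pool.Agent.H.MP_83e36b_nt.PlaceDefs
import Pool.Agent.H.MP_83e36b_nt.I1a
import Pool.Agent.H.MP_83e36b_nt.I1b
import Pool.Agent.H.MP_83e36b_nt.I1c
import Pool.Agent.H.MP_83e36b_nt.H1
import Pool.Agent.H.MP_83e36b_nt.H2

/-! Module I1: discWA_numberField (already done).
-/

open Polynomial NumberField IsDedekindDomain

namespace AnWA

variable {k : Type*} [Field k] [NumberField k]

theorem discWA_numberField (T : Finset (HeightOneSpectrum (𝓞 k))) {n : ℕ}
    (hn : n % 4 = 2 ∨ n % 4 = 3) (c : k) : DiscWA c n (complEmb T) := by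
  have h2 : ∀ m, m % 4 = 2 → DiscWA c m (complEmb T) := by
    intro m hm
    refine discWA_of_localU (fieldWA_numberField T) ?_ c
    rintro (v | v)
    · exact localU_infinite v hm
    · exact localU_finite v.1 hm
  rcases hn with hn | hn
  · exact h2 n hn
  · exact discWA_odd (fieldWA_numberField T) (by rw [Nat.odd_iff]; omega) (by omega) c
      (h2 _ (by omega))

end AnWA
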