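import Mathlib

/-!
# The varieties `c * disc (f) = y ^ 2`

For a field `k`, an integer `n` and `c` in `k` we consider the quasi-affine variety of pairs
`(f, y)`, where `f = X ^ n + a_{n-1} X ^ (n-1) + ... + a_0` is a monic polynomial of degree `n`
and `y` is nonzero, with `c * disc (f) = y ^ 2`.  For `c = 1` it is the quotient by the
alternating group `A_n` of the space of `n`-tuples of pairwise different elements.
-/

open Polynomial

namespace AnWA

/-- The monic polynomial `X ^ n + a_{n-1} X ^ (n-1) + ... + a_0`. -/
noncomputable def monicPoly {R : Type*} [CommRing R] {n : ℕ} (a : Fin n → R) : R[X] :=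
  X ^ n + ∑ i, C (a i) * X ^ (i : ℕ)

/-- The `R`-points (`R` a field) of the variety `c * disc (f) = y ^ 2`, `y ≠ 0`, where
`f = X ^ n + a_{n-1} X ^ (n-1) + ... + a_0`: the set of the pairs `((a_0, ..., a_{n-1}), y)`.
If `R` is a topological field it carries the subspace topology. -/
def DiscPts (n : ℕ) (R : Type*) [CommRing R] (c : R) : Set ((Fin n → R) × R) :=
  {p | c * (monicPoly p.1).discr = p.2 ^ 2 ∧ p.2 ≠ 0}

/-- `monicPoly` commutes with ring homomorphisms. -/
theorem monicPoly_map {R S : Type*} [CommRing R] [CommRing S] (φ : R →+* S) {n : ℕ}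
    (a : Fin n → R) : monicPoly (fun i => φ (a i)) = (monicPoly a).map φ := by
  simp only [monicPoly, Polynomial.map_add, Polynomial.map_pow, Polynomial.map_sum,
    Polynomial.map_mul, Polynomial.map_X, Polynomial.map_C]

/-- The discriminant commutes with extensions of fields. -/
theorem discr_map_field {R S : Type*} [Field R] [Field S] (φ : R →+* S) (f : R[X]) :
    (f.map φ).discr = φ f.discr := by
  by_cases h0 : f.natDegree = 0
  · obtain ⟨a, rfl⟩ := natDegree_eq_zero.mp h0
    simp
  · have hd : 0 < f.degree := natDegree_pos_iff_degree_pos.mp (Nat.pos_of_ne_zero h0)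
    have hd' : 0 < (f.map φ).degree := by rwa [degree_map]
    have h1 := resultant_deriv hd
    have h2 := resultant_deriv hd'
    rw [natDegree_map, derivative_map, resultant_map_map, h1, leadingCoeff_map, map_mul, map_mul,
      map_pow, map_neg, map_one] at h2
    have hne : ((-1 : S)) ^ (f.natDegree * (f.natDegree - 1) / 2) * φ f.leadingCoeff ≠ 0 := by
      refine mul_ne_zero (pow_ne_zero _ (by norm_num)) ?_
      rw [_root_.map_ne_zero]
      intro h
      rw [leadingCoeff_eq_zero] at h
      rw [h] at h0
      exact h0 natDegree_zero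
    exact (mul_left_cancel₀ hne h2).symm

theorem discr_monicPoly_map {R S : Type*} [Field R] [Field S] (φ : R →+* S) {n : ℕ}
    (a : Fin n → R) : (monicPoly (fun i => φ (a i))).discr = φ (monicPoly a).discr := by
  rw [monicPoly_map, discr_map_field]

/-- The map on points induced by an embedding `φ` of fields: apply `φ` to all coordinates. -/
noncomputable def mapPt {R S : Type*} [Field R] [Field S] (φ : R →+* S) {n : ℕ} {c : R}
    (p : DiscPts n R c) : DiscPts n S (φ c) :=
  ⟨(fun i => φ (p.1.1 i), φ p.1.2), by
    refine ⟨?_, ?_⟩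
    · show φ c * (monicPoly (fun i => φ (p.1.1 i))).discr = (φ p.1.2) ^ 2
      rw [discr_monicPoly_map, ← map_mul, p.2.1, map_pow]
    · exact fun h => p.2.2 ((map_eq_zero φ).mp h)⟩

end AnWA
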