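import Pool.Agent.H.MP_83e36b_nt.Defs
import Pool.Agent.H.MP_83e36b_nt.PlaceDefs
import Pool.Agent.H.MP_83e36b_nt.Statement
import Pool.Agent.H.MP_83e36b_nt.I1

/-! Module J1: the final density statement.

PROOF. (NOTE: generalised to the twists c*disc f = y^2, c in k.) discr_monicPoly_map: monicPoly commutes with map, discr_map (A2b). main: from discWA_numberField T (I1): a nonempty open subset of the product contains a box of ε-balls in the coordinates around a point (product topology, subspace topology; the topology of v.Completion comes from its norm; the topology of adicCompletion k v from the instance NormedField agrees with its standard topology, check that it is defeq or prove it: Valued.toNormedField). Apply DiscWA to f_i=monicPoly of the coefficients (monic, natDegree n, uses n ≥ 1) and y_i.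
-/

open Polynomial NumberField IsDedekindDomain

namespace AnWA

theorem degree_sum_lt {R : Type*} [CommRing R] [Nontrivial R] {n : ℕ} (a : Fin n → R) :
    (∑ i, C (a i) * X ^ (i : ℕ) : R[X]).degree < (n : ℕ) := by
  exact degree_sum_fin_lt a

theorem monicPoly_monic {R : Type*} [CommRing R] [Nontrivial R] {n : ℕ} (a : Fin n → R) :
    (monicPoly a).Monic :=
  monic_X_pow_add (degree_sum_lt a)

theorem monicPoly_natDegree {R : Type*} [CommRing R] [Nontrivial R] {n : ℕ} (a : Fin n → R) :
    (monicPoly a).natDegree = n := by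
  apply natDegree_eq_of_degree_eq_some
  unfold monicPoly
  rw [degree_add_eq_left_of_degree_lt, degree_X_pow]
  rw [degree_X_pow]
  exact degree_sum_lt a

theorem monicPoly_coeff {R : Type*} [CommRing R] {n : ℕ} (a : Fin n → R) (i : Fin n) :
    (monicPoly a).coeff i = a i := by
  unfold monicPoly
  rw [coeff_add, coeff_X_pow, if_neg (by omega), zero_add, finsetSum_coeff]
  rw [Finset.sum_eq_single i]
  · rw [coeff_C_mul, coeff_X_pow, if_pos rfl, mul_one]
  · intro j _ hj
    rw [coeff_C_mul, coeff_X_pow, if_neg (fun e => hj (Fin.ext e.symm)), mul_zero]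
  · intro h
    exact absurd (Finset.mem_univ i) h

/-- A monic polynomial of degree `n` is given by its coefficients. -/
theorem monicPoly_of_monic {R : Type*} [CommRing R] [Nontrivial R] {n : ℕ} {g : R[X]}
    (hg : g.Monic) (hn : g.natDegree = n) : monicPoly (fun i : Fin n => g.coeff i) = g := by
  ext j
  rcases lt_trichotomy j n with hj | hj | hj
  · exact monicPoly_coeff (fun i : Fin n => g.coeff i) ⟨j, hj⟩
  · have h1 := monicPoly_monic (fun i : Fin n => g.coeff i)
    have h2 := monicPoly_natDegree (fun i : Fin n => g.coeff i)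
    rw [Monic, leadingCoeff, h2] at h1
    rw [hj, h1]
    rw [Monic, leadingCoeff, hn] at hg
    exact hg.symm
  · rw [coeff_eq_zero_of_natDegree_lt (by rw [monicPoly_natDegree]; exact hj),
      coeff_eq_zero_of_natDegree_lt (by rw [hn]; exact hj)]

/-- convergence of points of the variety -/
theorem DiscPts.tendsto {R : Type*} [NormedField R] {n : ℕ} {c : R} (p : ℕ → DiscPts n R c)
    (q : DiscPts n R c)
    (h1 : ∀ (N : ℕ) (i : Fin n), ‖(p N).1.1 i - q.1.1 i‖ < 1 / ((N : ℝ) + 1))
    (h2 : ∀ N : ℕ, ‖(p N).1.2 - q.1.2‖ < 1 / ((N : ℝ) + 1)) :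
    Filter.Tendsto p Filter.atTop (nhds q) := by
  have key : Filter.Tendsto (fun N => (p N).1) Filter.atTop (nhds q.1) := by
    rw [Prod.tendsto_iff]
    constructor
    · rw [tendsto_pi_nhds]
      intro i
      rw [tendsto_iff_norm_sub_tendsto_zero]
      exact squeeze_zero (fun _ => norm_nonneg _) (fun N => (h1 N i).le)
        tendsto_one_div_add_atTop_nhds_zero_nat
    · rw [tendsto_iff_norm_sub_tendsto_zero]
      exact squeeze_zero (fun _ => norm_nonneg _) (fun N => (h2 N).le)
        tendsto_one_div_add_atTop_nhds_zero_nat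
  exact tendsto_subtype_rng.2 key

theorem main {k : Type*} [Field k] [NumberField k] {n : ℕ} (hn : n % 4 = 2 ∨ n % 4 = 3)
    (c : k) (T : Finset (HeightOneSpectrum (𝓞 k))) :
    DenseRange (fun p : DiscPts n k c =>
      ((fun v : InfinitePlace k => mapPt (algebraMap k v.Completion) p),
       (fun v : T => mapPt (algebraMap k (v.1.adicCompletion k)) p))) := by
  have hWA := discWA_numberField T hn c
  rintro ⟨A, B⟩
  -- the data at all places
  let D : ∀ i, DiscPts n (Compl T i) (complEmb T i c) := fun i =>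
    match i with
    | Sum.inl v => A v
    | Sum.inr v => B v
  have hD : ∀ i, (monicPoly (D i).1.1).Monic ∧ (monicPoly (D i).1.1).natDegree = n ∧
      complEmb T i c * (monicPoly (D i).1.1).discr = (D i).1.2 ^ 2 ∧ (D i).1.2 ≠ 0 := fun i =>
    ⟨monicPoly_monic _, monicPoly_natDegree _, (D i).2.1, (D i).2.2⟩
  have hex : ∀ N : ℕ, ∃ p : DiscPts n k c, ∀ i,
      (∀ j : Fin n, ‖(mapPt (complEmb T i) p).1.1 j - (D i).1.1 j‖ < 1 / ((N : ℝ) + 1)) ∧
      ‖(mapPt (complEmb T i) p).1.2 - (D i).1.2‖ < 1 / ((N : ℝ) + 1) := by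
    intro N
    obtain ⟨g, z, g1, g2, g3, g4, g5⟩ := hWA (fun i => monicPoly (D i).1.1) (fun i => (D i).1.2)
      hD (1 / ((N : ℝ) + 1)) (by positivity)
    refine ⟨⟨(fun i : Fin n => g.coeff i, z), ?_, g4⟩, ?_⟩
    · change c * (monicPoly (fun i : Fin n => g.coeff i)).discr = z ^ 2
      rw [monicPoly_of_monic g1 g2]
      exact g3
    · intro i
      refine ⟨fun j => ?_, (g5 i).1⟩
      have := (g5 i).2 j
      rw [coeff_map, monicPoly_coeff] at this
      exact this
  choose p hp using hex
  refine mem_closure_of_tendsto (f := fun N => ((fun v : InfinitePlace k =>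
    mapPt (algebraMap k v.Completion) (p N)),
    (fun v : T => mapPt (algebraMap k (v.1.adicCompletion k)) (p N)))) (b := Filter.atTop) ?_
    (Filter.Eventually.of_forall fun N => ⟨p N, rfl⟩)
  rw [Prod.tendsto_iff]
  constructor
  · rw [tendsto_pi_nhds]
    intro v
    exact DiscPts.tendsto _ _ (fun N j => (hp N (Sum.inl v)).1 j) (fun N => (hp N (Sum.inl v)).2)
  · rw [tendsto_pi_nhds]
    intro v
    exact DiscPts.tendsto _ _ (fun N j => (hp N (Sum.inr v)).1 j) (fun N => (hp N (Sum.inr v)).2)

/-- Weak approximation, product over all places. -/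
theorem main_all {k : Type*} [Field k] [NumberField k] {n : ℕ} (hn : n % 4 = 2 ∨ n % 4 = 3)
    (c : k) :
    DenseRange (fun p : DiscPts n k c =>
      ((fun v : InfinitePlace k => mapPt (algebraMap k v.Completion) p),
       (fun v : HeightOneSpectrum (𝓞 k) => mapPt (algebraMap k (v.adicCompletion k)) p))) := by
  classical
  rintro ⟨A, B⟩
  rw [mem_closure_iff_nhds]
  intro U hU
  rw [nhds_prod_eq, Filter.mem_prod_iff] at hU
  obtain ⟨U1, hU1, U2, hU2, hsub⟩ := hU
  rw [nhds_pi, Filter.mem_pi] at hU2
  obtain ⟨S, hS, t, ht, hts⟩ := hU2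
  have hdense := main hn c hS.toFinset
  have h1 := hdense (A, fun v => B v.1)
  rw [mem_closure_iff_nhds] at h1
  have hnhds : U1 ×ˢ (Set.pi Set.univ (fun v : {v // v ∈ hS.toFinset} => t v.1)) ∈
      nhds (A, fun v : {v // v ∈ hS.toFinset} => B v.1) := by
    rw [nhds_prod_eq]
    refine Filter.prod_mem_prod hU1 ?_
    exact set_pi_mem_nhds Set.finite_univ (fun v _ => ht v.1)
  obtain ⟨_, ⟨hp1, hp2⟩, p, rfl⟩ := h1 _ hnhds
  refine ⟨_, hsub ⟨hp1, hts ?_⟩, p, rfl⟩
  intro v hv
  exact hp2 ⟨v, hS.mem_toFinset.mpr hv⟩ (Set.mem_univ _)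

end AnWA
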