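import Pool.Agent.H.MP_83e36b_nt.RDefs
import Pool.Agent.H.MP_83e36b_nt.H1b

/-! Module RSeq: sequences. -/

open Polynomial Filter Topology

namespace AnWA

variable {k : Type*} [Field k] {ι : Type*} [Finite ι] {K : ι → Type*} [∀ i, NormedField (K i)]
  {φ : ∀ i, k →+* K i} {c : k} {n : ℕ} {f : ∀ i, (K i)[X]} {y : ∀ i, K i}

omit [Finite ι] in
theorem App.seq (h : App c n φ f y) : ∃ (G : ℕ → k[X]) (Z : ℕ → k),
    (∀ N, (G N).Monic ∧ (G N).natDegree = n ∧ c * (G N).discr = Z N ^ 2 ∧ Z N ≠ 0) ∧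
    (∀ i, PolyTendsto atTop (fun N => (G N).map (φ i)) (f i)) ∧
    ∀ i, Tendsto (fun N => φ i (Z N)) atTop (𝓝 (y i)) := by
  have hseq : ∀ N : ℕ, ∃ (g : k[X]) (z : k), g.Monic ∧ g.natDegree = n ∧
      c * g.discr = z ^ 2 ∧ z ≠ 0 ∧ ∀ i, ‖φ i z - y i‖ < 1 / ((N : ℝ) + 1) ∧
        ∀ j, ‖(g.map (φ i)).coeff j - (f i).coeff j‖ < 1 / ((N : ℝ) + 1) := fun N =>
    h _ (by positivity)
  choose G Z h1 h2 h3 h4 h5 using hseq
  refine ⟨G, Z, fun N => ⟨h1 N, h2 N, h3 N, h4 N⟩, ?_, ?_⟩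
  · intro i j
    exact tendsto_iff_norm_sub_tendsto_zero.2 (squeeze_zero (fun _ => norm_nonneg _)
      (fun N => ((h5 N i).2 j).le) tendsto_one_div_add_atTop_nhds_zero_nat)
  · intro i
    exact tendsto_iff_norm_sub_tendsto_zero.2 (squeeze_zero (fun _ => norm_nonneg _)
      (fun N => (h5 N i).1.le) tendsto_one_div_add_atTop_nhds_zero_nat)

/-- `exists_of_tendsto` where the degree conditions hold only eventually -/
theorem App.of_seq (hf : ∀ i, (f i).Monic ∧ (f i).natDegree = n) (G : ℕ → k[X]) (Z : ℕ → k)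
    (hG : ∀ᶠ N in atTop, (G N).Monic ∧ (G N).natDegree = n ∧ c * (G N).discr = Z N ^ 2 ∧
      Z N ≠ 0)
    (h1 : ∀ i, PolyTendsto atTop (fun N => (G N).map (φ i)) (f i))
    (h2 : ∀ i, Tendsto (fun N => φ i (Z N)) atTop (𝓝 (y i))) : App c n φ f y := by
  intro ε hε
  obtain ⟨N0, hN0⟩ := eventually_atTop.1 hG
  obtain ⟨N, hN1, hN2⟩ := exists_of_tendsto n f y hf (fun N => G (N + N0)) (fun N => Z (N + N0))
    (fun N => ⟨(hN0 _ (by omega)).1, (hN0 _ (by omega)).2.1⟩)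
    (fun i j => (h1 i j).comp (tendsto_add_atTop_nat N0))
    (fun i => (h2 i).comp (tendsto_add_atTop_nat N0))
    (fun _ => True) (Eventually.of_forall fun _ => trivial) ε hε
  obtain ⟨a1, a2, a3, a4⟩ := hN0 (N + N0) (by omega)
  exact ⟨G (N + N0), Z (N + N0), a1, a2, a3, a4, hN2⟩

/-- approximation is stable under limits -/
theorem App.limit (f' : ℕ → ∀ i, (K i)[X]) (y' : ℕ → ∀ i, K i)
    (hf : ∀ i, (f i).Monic ∧ (f i).natDegree = n)
    (hf' : ∀ m i, (f' m i).Monic ∧ (f' m i).natDegree = n)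
    (h1 : ∀ i, PolyTendsto atTop (fun m => f' m i) (f i))
    (h2 : ∀ i, Tendsto (fun m => y' m i) atTop (𝓝 (y i)))
    (h : ∀ m, App c n φ (f' m) (y' m)) : App c n φ f y := by
  have hseq : ∀ N : ℕ, ∃ (g : k[X]) (z : k), g.Monic ∧ g.natDegree = n ∧
      c * g.discr = z ^ 2 ∧ z ≠ 0 ∧ ∀ i, ‖φ i z - y' N i‖ < 1 / ((N : ℝ) + 1) ∧
        ∀ j, ‖(g.map (φ i)).coeff j - (f' N i).coeff j‖ < 1 / ((N : ℝ) + 1) := fun N =>
    h N _ (by positivity)
  choose G Z g1 g2 g3 g4 g5 using hseq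
  refine App.of_seq hf G Z (Eventually.of_forall fun N => ⟨g1 N, g2 N, g3 N, g4 N⟩) ?_ ?_
  · intro i j
    have e1 : Tendsto (fun N => ((G N).map (φ i)).coeff j - (f' N i).coeff j) atTop (𝓝 0) := by
      rw [tendsto_zero_iff_norm_tendsto_zero]
      exact squeeze_zero (fun _ => norm_nonneg _)
        (fun N => ((g5 N i).2 j).le) tendsto_one_div_add_atTop_nhds_zero_nat
    have e2 := e1.add (h1 i j)
    simpa using e2
  · intro i
    have e1 : Tendsto (fun N => φ i (Z N) - y' N i) atTop (𝓝 0) := by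
      rw [tendsto_zero_iff_norm_tendsto_zero]
      exact squeeze_zero (fun _ => norm_nonneg _)
        (fun N => (g5 N i).1.le) tendsto_one_div_add_atTop_nhds_zero_nat
    have e2 := e1.add (h2 i)
    simpa using e2

end AnWA
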