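import Pool.Agent.H.MP_83e36b_nt.RDefs
import Pool.Agent.H.MP_83e36b_nt.S5

/-! Module LAssembly: assembly, stronger form. -/

open Polynomial Filter Topology

namespace AnWA

variable {F L : Type*} [NontriviallyNormedField F] [CharZero F] [NormedField L]
  [NormedAlgebra F L] [IsAlgClosed L] [IsGalois F L] [DecidableEq L]

theorem isCoprime_companion {K : Type*} [Field K] {ω q h P : K[X]} {t : K}
    (H : Pencil ω q h P) (hc : IsCoprime (P - C t * q) q) : IsCoprime q h := by
  have h1 : IsCoprime P q := by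
    have e : P = (P - C t * q) + C t * q := by ring
    rw [e]
    exact IsCoprime.add_mul_right_left hc _
  have h2 : IsCoprime (derivative q) q := H.sep.symm
  have h3 : IsCoprime (P * derivative q) q := h1.mul_left h2
  have h4 : IsCoprime (ω * h ^ 2) q := by
    rw [← H.wr_eq, wr]
    have e : derivative P * q - P * derivative q = -(P * derivative q) + derivative P * q := by
      ring
    rw [e]
    exact IsCoprime.add_mul_right_left (h3.neg_left) _
  have h5 : IsCoprime (h ^ 2) q := h4.of_mul_left_right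
  exact ((IsCoprime.pow_left_iff (by norm_num)).1 h5).symm

theorem assembly2 {I A : Type*} [Fintype I] [DecidableEq I] [Fintype A] [DecidableEq A]
    (hiso : ∀ (σ : L ≃ₐ[F] L) (x : L), ‖σ x‖ = ‖x‖)
    {ω q0 h0 P0 : F[X]} {t : F} (hω : ω = 1 ∨ ω = 2 * X) (H0 : Pencil ω q0 h0 P0)
    (hnd : NonDeg (ω.map (algebraMap F L)) (q0.map (algebraMap F L)))
    (hcop : IsCoprime q0 h0) (hωq : IsCoprime ω q0)
    (μ : I → L) (D : I → Finset L) (hμ : Function.Injective μ)
    (hμq : ∀ i, aeval (μ i) q0 ≠ 0) (hμh : ∀ i, aeval (μ i) h0 ≠ 0)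
    (hμω : ∀ i, aeval (μ i) ω ≠ 0) (hD : ∀ i, GoodCluster (D i))
    (π : (L ≃ₐ[F] L) → Equiv.Perm I) (hπμ : ∀ σ i, μ (π σ i) = σ (μ i))
    (hπD : ∀ σ i, D (π σ i) = (D i).image σ)
    (cen : A → I) (pos : A → L) (hinj : ∀ a b, cen a = cen b → pos a = pos b → a = b)
    (τ : (L ≃ₐ[F] L) → A → A) (hτc : ∀ σ a, cen (τ σ a) = π σ (cen a))
    (hτp : ∀ σ a, pos (τ σ a) = σ (pos a))
    (htype : ∀ a, (aeval (μ (cen a)) (P0 - C t * q0) = 0 ∧ InnerRoot (D (cen a)) (pos a)) ∨
      (aeval (μ (cen a)) (P0 - C t * q0) ≠ 0 ∧ pos a ∈ D (cen a)))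
    (hcard : Fintype.card A = P0.natDegree + ∑ i, (D i).card) :
    ∃ q h P : F[X], Pencil ω q h P ∧
      NonDeg (ω.map (algebraMap F L)) (q.map (algebraMap F L)) ∧
      q.natDegree = q0.natDegree + ∑ i, (D i).card ∧
      P.natDegree = Fintype.card A ∧ IsCoprime (P - C t * q) q ∧
      (∃ e : F, e ≠ 0 ∧ Function.Injective
        (bigX (Subtype.val : {z // z ∈ (q0.aroots L).toFinset} → L) μ
          (fun i => (Subtype.val : {z // z ∈ D i} → L)) (algebraMap F L e)) ∧
        q.map (algebraMap F L) =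
          rootPoly (bigX (Subtype.val : {z // z ∈ (q0.aroots L).toFinset} → L) μ
            (fun i => (Subtype.val : {z // z ∈ D i} → L)) (algebraMap F L e))) ∧
      ∃ r : A → L, Function.Injective r ∧ (∀ σ a, r (τ σ a) = σ (r a)) ∧
        (P - C t * q).map (algebraMap F L) = ∏ a, (X - C (r a)) := by
  have hcL : CharZero L := (RingHom.charZero_iff (algebraMap F L).injective).mp inferInstance
  have hωF : ω.natDegree ≤ 1 := by
    rcases hω with rfl | rfl
    · simp
    · exact (natDegree_mul_le.trans (by simp [natDegree_ofNat]))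
  have hωd : (ω.map (algebraMap F L)).natDegree ≤ 1 := natDegree_map_le.trans hωF
  obtain ⟨d, hd0, hd2, hPd⟩ := pencil_P_natDegree (K := F) (ω := ω) hω
  -- the roots of `q0`
  set x0 : {z // z ∈ (q0.aroots L).toFinset} → L := Subtype.val with hx0def
  have hx0 : Function.Injective x0 := Subtype.val_injective
  have hrp0 : rootPoly x0 = q0.map (algebraMap F L) := rootPoly_aroots H0.monic H0.sep
  have hroot0 : ∀ k, (q0.map (algebraMap F L)).eval (x0 k) = 0 := by
    intro k
    rw [← hrp0, eval_rootPoly_eq_zero]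
    exact ⟨k, rfl⟩
  have hωx : ∀ k, (ω.map (algebraMap F L)).eval (x0 k) ≠ 0 := fun k =>
    eval_ne_zero_of_isCoprime (hωq.map (mapRingHom (algebraMap F L))) (hroot0 k)
  have H0L : Pencil (ω.map (algebraMap F L)) (rootPoly x0) (h0.map (algebraMap F L))
      (P0.map (algebraMap F L)) := by
    rw [hrp0]; exact pencil_map _ H0
  have hnd' : NonDeg (ω.map (algebraMap F L)) (rootPoly x0) := by rw [hrp0]; exact hnd
  obtain ⟨hdet0, v0, hv0, hRF0⟩ := rootForm_of_pencil hωd hx0 hωx hnd' H0L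
  have hv0ne : ∀ k, v0 k ≠ 0 := by
    intro k hk
    have h1 := (hRF0.2.2 k).1
    rw [hk, zero_mul] at h1
    exact eval_ne_zero_of_isCoprime ((hcop.symm).map (mapRingHom (algebraMap F L))) (hroot0 k) h1
  -- the centres
  have hxμ : ∀ k i, x0 k ≠ μ i := by
    intro k i h
    apply hμq i
    rw [← eval_map_algebraMap, ← h]
    exact hroot0 k
  have hωμ : ∀ i, (ω.map (algebraMap F L)).eval (μ i) ≠ 0 := by
    intro i; rw [eval_map_algebraMap]; exact hμω i
  have hμq' : ∀ i, (rootPoly x0).eval (μ i) ≠ 0 := by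
    intro i; rw [hrp0, eval_map_algebraMap]; exact hμq i
  have hne : ∀ i k, μ i ≠ x0 k := fun i k h => hxμ k i h.symm
  have hH0 : ∀ i, Hval x0 v0 (μ i) ≠ 0 := by
    intro i h
    have h1 := (hRF0.2.1 (μ i) (hne i)).1
    rw [h, zero_mul, eval_map_algebraMap] at h1
    exact hμh i h1
  have hphi : ∀ i, phiVal (ω.map (algebraMap F L)) x0 v0 (μ i) = algebraMap F L t ↔
      aeval (μ i) (P0 - C t * q0) = 0 := by
    intro i
    have h1 := (hRF0.2.1 (μ i) (hne i)).2
    rw [eval_map_algebraMap] at h1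
    have h2 : (rootPoly x0).eval (μ i) = aeval (μ i) q0 := by rw [hrp0, eval_map_algebraMap]
    rw [map_sub, map_mul, aeval_C, h1, h2, ← sub_mul, mul_eq_zero, or_iff_left (hμq i), sub_eq_zero]
  -- the clusters
  set δ : ∀ i, {z // z ∈ D i} → L := fun i => Subtype.val with hδdef
  have hδ : ∀ i, Function.Injective (δ i) := fun i => Subtype.val_injective
  have hu' : ∀ i, ∃ u : {z // z ∈ D i} → L, IsSol 1 (δ i) u := fun i => exists_isSol (hD i).1
  choose u hu using hu'
  have hu0 : ∀ i j, u i j ≠ 0 := fun i => (hD i).2 (u i) (hu i)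
  obtain ⟨v, hv⟩ := ins_asymp hωd hx0 hμ hxμ hωx hωμ hdet0 hv0 hδ (fun i => (hD i).1) hu
  have htype' : ∀ a, (phiVal (ω.map (algebraMap F L)) x0 v0 (μ (cen a)) = algebraMap F L t ∧
        (∀ j, pos a ≠ δ (cen a) j) ∧ phiVal 1 (δ (cen a)) (u (cen a)) (pos a) = 0 ∧
        Hval (δ (cen a)) (u (cen a)) (pos a) ≠ 0) ∨
      (phiVal (ω.map (algebraMap F L)) x0 v0 (μ (cen a)) ≠ algebraMap F L t ∧
        ∃ j, pos a = δ (cen a) j) := by
    intro a
    rcases htype a with ⟨h1, h2, h3⟩ | ⟨h1, h2⟩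
    · left
      refine ⟨(hphi _).mpr h1, ?_, h3 _ (hu _)⟩
      intro j hj
      exact h2 (hj ▸ j.2)
    · right
      exact ⟨fun h => h1 ((hphi _).mp h), ⟨pos a, h2⟩, rfl⟩
  obtain ⟨η, hη, hev⟩ := insertion_roots hωd hx0 hμ hxμ hωx hωμ hv0 hδ hu hH0 hv (algebraMap F L t)
    cen pos hinj htype'
  have hPne := P_ne_zero hv hv0ne hH0 hu0
  have hall := (hv.ev.and (hev.and hPne)).and self_mem_nhdsWithin
  obtain ⟨e, ⟨⟨hbi, hbω, hbdet, hbsol⟩, ⟨hsep, hroots⟩, hPne'⟩, he0⟩ :=
    (tendsto_algebraMap_punctured (F := F) (L := L) |>.eventually hall).exists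
  have he0 : algebraMap F L e ≠ 0 := he0
  obtain ⟨q, hqm, hqmap⟩ := descend_bigX H0.monic H0.sep μ D π hπμ hπD e hbi
  set ε := algebraMap F L e with hε
  set bx := bigX x0 μ δ ε with hbx
  have hqmap : q.map (algebraMap F L) = rootPoly bx := hqmap
  have hqsep : q.Separable := by
    rw [← separable_map (algebraMap F L), hqmap]
    exact rootPoly_separable hbi
  have hqnd : NonDeg ω q := by
    refine nonDeg_of_map (algebraMap F L) ?_
    rw [hqmap]
    exact nonDeg_of_det hbi hbω hbdet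
  obtain ⟨h, P, HP⟩ := pencil_exists hqm hqsep hωF hqnd
  have hqdeg : q.natDegree = q0.natDegree + ∑ i, (D i).card := by
    rw [← natDegree_map (algebraMap F L), hqmap, rpNatDegree, Fintype.card_sum,
      Fintype.card_sigma]
    congr 1
    · rw [Fintype.card_coe, (prod_X_sub_C_aroots (L := L) H0.monic H0.sep).2.1]
    · simp [Fintype.card_coe]
  obtain ⟨hPm, hPdeg⟩ := hPd HP
  obtain ⟨-, hP0deg⟩ := hPd H0
  have hPcard : P.natDegree = Fintype.card A := by
    rw [hPdeg, hqdeg, hcard, hP0deg]; ring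
  -- RootForm for the new pencil
  obtain ⟨h', P', hRF⟩ := rootForm_of_sol hωd hbi hbω hbsol
  have HPL : Pencil (ω.map (algebraMap F L)) (rootPoly bx) (h.map (algebraMap F L))
      (P.map (algebraMap F L)) := by
    rw [← hqmap]; exact pencil_map _ HP
  obtain ⟨e1, e2⟩ := pencil_unique (nonDeg_of_det hbi hbω hbdet) hRF.1 HPL
  rw [e1, e2] at hRF
  choose r hr0 hrd using hroots _ _ hRF
  have hfmap : (P - C t * q).map (algebraMap F L) =
      P.map (algebraMap F L) - C (algebraMap F L t) * rootPoly bx := by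
    rw [Polynomial.map_sub, Polynomial.map_mul, map_C, hqmap]
  have hlt : (C t * q).degree < P.degree := by
    refine (degree_mul_le _ _).trans_lt ?_
    rw [degree_eq_natDegree hPm.ne_zero, hPdeg, degree_eq_natDegree hqm.ne_zero]
    calc (C t).degree + (q.natDegree : WithBot ℕ) ≤ 0 + (q.natDegree : WithBot ℕ) := by
          gcongr; exact degree_C_le
      _ < ((q.natDegree + d : ℕ) : WithBot ℕ) := by
          rw [zero_add]; exact_mod_cast (by omega : q.natDegree < q.natDegree + d)
  have hfm : (P - C t * q).Monic := hPm.sub_of_left hlt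
  have hfd : (P - C t * q).natDegree = P.natDegree := natDegree_sub_eq_left_of_natDegree_lt
    ((natDegree_C_mul_le t q).trans_lt (by omega))
  have hrinj : Function.Injective r := by
    intro a b hab
    by_contra hne
    have h1 := hsep a b hne
    have h2 : ‖(μ (cen a) + ε * pos a) - (μ (cen b) + ε * pos b)‖ ≤
        ‖r a - (μ (cen a) + ε * pos a)‖ + ‖r b - (μ (cen b) + ε * pos b)‖ := by
      rw [← norm_neg (r a - _)]
      refine le_trans (le_of_eq ?_) (norm_add_le _ _)
      rw [hab]; congr 1; ring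
    have := hrd a
    have := hrd b
    linarith
  have hfprod : (P - C t * q).map (algebraMap F L) = rootPoly r := by
    refine eq_rootPoly_of_roots (hfm.map _) ?_ hrinj ?_
    · rw [natDegree_map, hfd, hPcard]
    · intro a
      rw [hfmap]; exact hr0 a
  have hqndL : NonDeg (ω.map (algebraMap F L)) (q.map (algebraMap F L)) := by
    rw [hqmap]
    exact nonDeg_of_det hbi hbω hbdet
  have heF : e ≠ 0 := fun h0 => he0 (by rw [hε, h0, map_zero])
  refine ⟨q, h, P, HP, hqndL, hqdeg, hPcard, ?_, ⟨e, heF, hbi, hqmap⟩, r, hrinj, ?_, hfprod⟩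
  · -- coprimality
    have h1 : IsCoprime (P.map (algebraMap F L)) (q.map (algebraMap F L)) := by
      rw [hqmap]
      exact isCoprime_rootPoly (hPne' _ _ hRF)
    have h2 : IsCoprime P q := (isCoprime_map (algebraMap F L)).mp h1
    have h3 : P - C t * q = P + (-(C t)) * q := by ring
    rw [h3]
    exact IsCoprime.add_mul_right_left h2 _
  · -- equivariance
    intro σ a
    have h1 : (rootPoly r).eval (σ (r a)) = 0 := by
      rw [← hfprod, eval_map_algebraMap]
      have h2 : aeval (r a) (P - C t * q) = 0 := by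
        rw [← eval_map_algebraMap, hfprod, eval_rootPoly_eq_zero]
        exact ⟨a, rfl⟩
      have h3 := congrArg σ h2
      rw [map_zero, ← aeval_algHom_apply] at h3
      exact h3
    obtain ⟨b, hb⟩ := eval_rootPoly_eq_zero.mp h1
    have h4 : ‖σ (r a) - (μ (cen (τ σ a)) + ε * pos (τ σ a))‖ ≤ η * ‖ε‖ := by
      have h5 : σ (r a) - (μ (cen (τ σ a)) + ε * pos (τ σ a)) =
          σ (r a - (μ (cen a) + ε * pos a)) := by
        rw [hτc, hτp, hπμ, map_sub, map_add, map_mul, hε, AlgEquiv.commutes]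
      rw [h5, hiso]
      exact hrd a
    have h6 := hrd b
    have h7 : b = τ σ a := by
      by_contra hne
      have h8 := hsep b (τ σ a) hne
      have h9 : ‖(μ (cen b) + ε * pos b) - (μ (cen (τ σ a)) + ε * pos (τ σ a))‖ ≤
          ‖r b - (μ (cen b) + ε * pos b)‖ +
          ‖σ (r a) - (μ (cen (τ σ a)) + ε * pos (τ σ a))‖ := by
        rw [← norm_neg (r b - _)]
        refine le_trans (le_of_eq ?_) (norm_add_le _ _)
        rw [hb]; congr 1; ring
      linarith
    rw [← h7, hb]

end AnWA
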