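import Pool.Agent.H.MP_83e36b_nt.RDefs
import Pool.Agent.H.MP_83e36b_nt.LAssembly
import Pool.Agent.H.MP_83e36b_nt.C1
import Pool.Agent.H.MP_83e36b_nt.S4
import Pool.Agent.H.MP_83e36b_nt.S5

/-! Module LBase: the base pencil.

PROOF. even_exists (S4) for Y: r0 : F[X] injective on Y with GoodCluster D, D = Y.image (aeval · r0). Apply assembly2 (LAssembly) with ω = 1, q0 = 1, h0 = 1, P0 = X, t = 1: Pencil 1 1 1 X (all clauses trivial; form: X = (C(0/2) X^2 + C(1 + ..) X) * 1 + 0), NonDeg 1 1 (w.degree < 0 implies w = 0), I = Bool, μ false = 0 (there P0 - t q0 = X - 1 has value -1 ≠ 0), μ true = 1 (there it vanishes), D' false = D, D' true = ∅. GoodCluster ∅: determinant of an empty matrix is 1. D is Galois stable: σ(aeval y r0) = aeval (σ y) r0. π = refl. A = {y // y ∈ Y} ⊕ Unit, cen (inl y) = false, pos (inl y) = aeval y r0 ∈ D (second type); cen (inr ()) = true, pos = 0 and InnerRoot ∅ 0: phiVal 1 _ u 0 = 0 and Hval = 1 + (empty sum) = 1 ≠ 0. τ σ (inl y) = inl (σ y). hcard: |Y| + 1 = natDegree X + |D|. See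 S6.lean (localU_of_goodPair) for a complete use of assembly. Output: q, h, P with q.map = rootPoly (bigX ..): q0 = 1 has no roots, so this is ∏_{z ∈ D} (X - C (0 + e z)) = ∏_{y∈Y} (X - C (aeval y (C e * r0))): a := C e * r0 (e ≠ 0, injective on Y). r : A → L: x0: r (inr ()) is fixed by all σ, descend_elem (C1). b: interp (C1) for Y and φ(y) = r (inl y). IsCoprime q h: isCoprime_companion (LAssembly).
-/

open Polynomial Filter Topology

namespace AnWA

theorem lbase_pencil_X {K : Type*} [Field K] : Pencil (1 : K[X]) 1 1 X where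
  monic := monic_one
  sep := separable_one
  hdeg := by rw [sub_self, degree_zero, degree_one]; exact WithBot.bot_lt_coe 0
  hD := one_dvd _
  form := by
    refine ⟨0, ?_, ?_⟩
    · rw [degree_zero, degree_one]; exact WithBot.bot_lt_coe 0
    · simp [coeff_one]
  wr_eq := by simp [wr]

theorem lbase_nonDeg_one {K : Type*} [Field K] : NonDeg (1 : K[X]) 1 := by
  intro w hw _
  rw [degree_one] at hw
  by_contra h
  exact absurd hw (not_lt.mpr (zero_le_degree_iff.mpr h))

theorem lbase_goodCluster_empty {L : Type*} [Field L] [DecidableEq L] :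
    GoodCluster (∅ : Finset L) := by
  refine ⟨?_, ?_⟩
  · rw [Matrix.det_isEmpty]
    exact one_ne_zero
  · rintro u - ⟨j, hj⟩
    exact absurd hj (Finset.notMem_empty j)

theorem lbase_innerRoot_empty {L : Type*} [Field L] [DecidableEq L] :
    InnerRoot (∅ : Finset L) 0 := by
  refine ⟨Finset.notMem_empty _, ?_⟩
  intro u _
  refine ⟨?_, ?_⟩
  · unfold phiVal
    simp
  · unfold Hval
    simp

variable {F L : Type*} [NontriviallyNormedField F] [CharZero F] [NormedField L]
  [NormedAlgebra F L] [IsAlgClosed L] [IsGalois F L] [DecidableEq L]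

theorem base_pencil_one (hiso : ∀ (σ : L ≃ₐ[F] L) (x : L), ‖σ x‖ = ‖x‖) (Y : Finset L)
    (hY : ∀ σ : L ≃ₐ[F] L, ∀ y ∈ Y, σ y ∈ Y) (heven : Even Y.card) :
    ∃ (q h P : F[X]) (t x0 : F) (a b : F[X]), Pencil 1 q h P ∧
      NonDeg 1 (q.map (algebraMap F L)) ∧ IsCoprime q h ∧ IsCoprime (P - C t * q) q ∧
      Set.InjOn (fun y => aeval y a) (Y : Set L) ∧
      q.map (algebraMap F L) = ∏ y ∈ Y, (X - C (aeval y a)) ∧
      Set.InjOn (fun y => aeval y b) (Y : Set L) ∧
      (∀ y ∈ Y, aeval y b ≠ algebraMap F L x0) ∧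
      (P - C t * q).map (algebraMap F L) =
        (X - C (algebraMap F L x0)) * ∏ y ∈ Y, (X - C (aeval y b)) := by
  obtain ⟨r0, hr0inj, hr0good⟩ := even_exists (F := F) Y heven
  set D := Y.image (fun x => aeval x r0) with hD
  let μ : Bool → L := fun b => cond b 1 0
  let D' : Bool → Finset L := fun b => cond b ∅ D
  let A := {y // y ∈ Y} ⊕ Unit
  let cen : A → Bool := Sum.elim (fun _ => false) (fun _ => true)
  let pos : A → L := Sum.elim (fun y => aeval (y : L) r0) (fun _ => 0)
  let τ : (L ≃ₐ[F] L) → A → A := fun σ => Sum.map (fun y => ⟨σ y, hY σ y y.2⟩) id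
  have hDimage : ∀ σ : L ≃ₐ[F] L, D = D.image σ := by
    intro σ
    ext z
    simp only [hD, Finset.mem_image]
    constructor
    · rintro ⟨x, hx, rfl⟩
      refine ⟨aeval (σ.symm x) r0, ⟨σ.symm x, hY σ.symm x hx, rfl⟩, ?_⟩
      rw [← aeval_algHom_apply, AlgEquiv.apply_symm_apply]
    · rintro ⟨_, ⟨x, hx, rfl⟩, rfl⟩
      exact ⟨σ x, hY σ x hx, by rw [aeval_algHom_apply]⟩
  have hDcard : D.card = Y.card := Finset.card_image_of_injOn hr0inj
  obtain ⟨q, h, P, HP, hqnd, hqdeg, hPdeg, hPq, ⟨e, he0, hbi, hqmap⟩, r, hrinj, hreq, hfac⟩ :=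
    assembly2 (F := F) (L := L) (I := Bool) (A := A) hiso (ω := 1) (q0 := 1) (h0 := 1) (P0 := X)
      (t := 1) (Or.inl rfl)
      lbase_pencil_X
      (by rw [Polynomial.map_one]; exact lbase_nonDeg_one)
      isCoprime_one_left isCoprime_one_left μ D'
      (by
        rintro (_ | _) (_ | _) h
        · rfl
        · exact absurd (show (0 : L) = 1 from h) zero_ne_one
        · exact absurd (show (1 : L) = 0 from h) one_ne_zero
        · rfl)
      (by intro i; rw [map_one]; exact one_ne_zero)
      (by intro i; rw [map_one]; exact one_ne_zero)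
      (by intro i; rw [map_one]; exact one_ne_zero)
      (by
        rintro (_ | _)
        · exact hr0good
        · exact lbase_goodCluster_empty)
      (fun _ => Equiv.refl _)
      (by
        rintro σ (_ | _)
        · show (0 : L) = σ 0
          rw [map_zero]
        · show (1 : L) = σ 1
          rw [map_one])
      (by
        rintro σ (_ | _)
        · exact hDimage σ
        · show (∅ : Finset L) = (∅ : Finset L).image σ
          rw [Finset.image_empty])
      cen pos
      (by
        rintro (a | ⟨⟩) (b | ⟨⟩) h1 h2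
        · exact congrArg Sum.inl (Subtype.ext (hr0inj a.2 b.2 h2))
        · exact absurd (show false = true from h1) (by decide)
        · exact absurd (show true = false from h1) (by decide)
        · rfl)
      τ
      (by
        rintro σ (a | ⟨⟩)
        · rfl
        · rfl)
      (by
        rintro σ (a | ⟨⟩)
        · show aeval (σ (a : L)) r0 = σ (aeval (a : L) r0)
          rw [aeval_algHom_apply]
        · show (0 : L) = σ 0
          rw [map_zero])
      (by
        rintro (a | ⟨⟩)
        · right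
          refine ⟨?_, Finset.mem_image_of_mem _ a.2⟩
          show aeval (0 : L) (X - C 1 * 1 : F[X]) ≠ 0
          simp
        · left
          refine ⟨?_, lbase_innerRoot_empty⟩
          show aeval (1 : L) (X - C 1 * 1 : F[X]) = 0
          simp)
      (by
        show Fintype.card ({y // y ∈ Y} ⊕ Unit) = _
        rw [Fintype.card_sum, Fintype.card_coe, Fintype.card_unit, natDegree_X,
          Fintype.sum_bool]
        show Y.card + 1 = 1 + ((∅ : Finset L).card + D.card)
        rw [Finset.card_empty, hDcard]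
        omega)
  rw [Polynomial.map_one] at hqnd
  have he : algebraMap F L e ≠ 0 := (_root_.map_ne_zero _).mpr he0
  -- the exceptional root
  obtain ⟨x0, hx0⟩ := descend_elem (F := F) (x := r (Sum.inr ())) (by
    intro σ
    rw [← hreq σ (Sum.inr ())]
    rfl)
  -- the interpolation
  let φ : L → L := fun y => if hy : y ∈ Y then r (Sum.inl ⟨y, hy⟩) else 0
  have hφ : ∀ y (hy : y ∈ Y), φ y = r (Sum.inl ⟨y, hy⟩) := fun y hy => dif_pos hy
  obtain ⟨b, -, hb⟩ := interp (F := F) Y hY φ (by
    intro σ y hy
    rw [hφ y hy, hφ (σ y) (hY σ y hy), ← hreq σ (Sum.inl ⟨y, hy⟩)]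
    rfl)
  have hb' : ∀ y (hy : y ∈ Y), aeval y b = r (Sum.inl ⟨y, hy⟩) := fun y hy => by
    rw [hb y hy, hφ y hy]
  have ha' : ∀ y : L, aeval y (C e * r0) = algebraMap F L e * aeval y r0 := fun y => by
    rw [map_mul, aeval_C]
  refine ⟨q, h, P, 1, x0, C e * r0, b, HP, hqnd, isCoprime_companion HP hPq, hPq, ?_, ?_, ?_,
    ?_, ?_⟩
  · intro y hy y' hy' hyy
    simp only [ha'] at hyy
    exact hr0inj hy hy' (mul_left_cancel₀ he hyy)
  · rw [hqmap]
    unfold rootPoly
    rw [Fintype.prod_sum_type, Fintype.prod_sigma, Fintype.prod_bool]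
    have h1 : ∏ k : {z // z ∈ ((1 : F[X]).aroots L).toFinset},
        (X - C (bigX (Subtype.val : {z // z ∈ ((1 : F[X]).aroots L).toFinset} → L) μ
          (fun i => (Subtype.val : {z // z ∈ D' i} → L)) (algebraMap F L e) (Sum.inl k))) = 1 := by
      apply Finset.prod_eq_one
      rintro ⟨z, hz⟩ -
      exfalso
      rw [Multiset.mem_toFinset, aroots_one] at hz
      exact absurd hz (Multiset.notMem_zero z)
    have h2 : ∏ k : {z // z ∈ D' true},
        (X - C (bigX (Subtype.val : {z // z ∈ ((1 : F[X]).aroots L).toFinset} → L) μ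
          (fun i => (Subtype.val : {z // z ∈ D' i} → L)) (algebraMap F L e)
            (Sum.inr ⟨true, k⟩))) = 1 := by
      apply Finset.prod_eq_one
      rintro ⟨z, hz⟩ -
      exact absurd (show z ∈ (∅ : Finset L) from hz) (Finset.notMem_empty z)
    have h3 : ∏ k : {z // z ∈ D' false},
        (X - C (bigX (Subtype.val : {z // z ∈ ((1 : F[X]).aroots L).toFinset} → L) μ
          (fun i => (Subtype.val : {z // z ∈ D' i} → L)) (algebraMap F L e)
            (Sum.inr ⟨false, k⟩))) = ∏ y ∈ Y, (X - C (aeval y (C e * r0))) := by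
      have h4 : ∏ k : {z // z ∈ D' false},
        (X - C (bigX (Subtype.val : {z // z ∈ ((1 : F[X]).aroots L).toFinset} → L) μ
          (fun i => (Subtype.val : {z // z ∈ D' i} → L)) (algebraMap F L e)
            (Sum.inr ⟨false, k⟩))) = ∏ k : {z // z ∈ D}, (X - C (0 + algebraMap F L e * k)) := rfl
      rw [h4, Finset.prod_coe_sort D (fun k => (X : L[X]) - C (0 + algebraMap F L e * k)), hD,
        Finset.prod_image (fun a ha b hb h => hr0inj ha hb h)]
      refine Finset.prod_congr rfl fun y _ => ?_
      rw [ha', zero_add]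
    rw [h1, h2, h3, one_mul, one_mul]
  · intro y hy y' hy' hyy
    have hyy : aeval y b = aeval y' b := hyy
    rw [hb' y hy, hb' y' hy'] at hyy
    have := hrinj hyy
    exact congrArg Subtype.val (Sum.inl.inj this)
  · intro y hy hyx
    rw [hb' y hy, hx0] at hyx
    exact absurd (hrinj hyx) (by simp)
  · rw [hfac, Fintype.prod_sum_type]
    rw [mul_comm]
    congr 1
    · simp only [Finset.univ_unique, Finset.prod_singleton]
      rw [hx0]
    · rw [← Finset.prod_coe_sort Y (fun y => (X : L[X]) - C (aeval y b))]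
      refine Finset.prod_congr rfl fun y _ => ?_
      rw [hb' y y.2]

end AnWA
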