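import Pool.Agent.H.MP_83e36b_nt.RDefs
import Pool.Agent.H.MP_83e36b_nt.E2a

/-! Module LElem: field element for a chain; irreducible polynomials of even degree.

PROOF. E2a.lean contains the analogous theorems chain_element and structure_irreducible (solvable groups, degree 2 mod 4); copy their proofs. chain_element2: ChainGroup for H = stabilizer ξ: K ≥ H, Odd (H.relIndex K), K = ⊤ or K.relIndex M = 2. K = ⊤ is impossible: then H.index = H.relIndex ⊤ odd. As in E2a take τ ∈ M, τ ∉ K with M = K ∪ τK..., a fixed by K but not by τ, l0 = a - τ a: l0 ≠ 0, K fixes l0, τ l0 = - l0, every m ∈ M maps l0 to ± l0, and (m ∈ M, m l0 = l0) implies m ∈ K. Now choose θ ∈ fixedField M with F⟮θ⟯ = fixedField M (primitive element theorem; or: any θ fixed exactly by M, i.e. stabilizer θ = M), and l = l0 (θ + c), c ∈ F to be chosen. K fixes l, τ l = - l (τ ∈ M fixes θ). For σ ∉ K there is at most one c ∈ F with σ l = l: if σ(l0)(σθ + c) = l0(θ + c) for two values of c then σ l0 = l0 and then σθ = θ, so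 σ ∈ M, so σ ∈ K. F is infinite (char 0) and the group is finite: choose c such that σ l ≠ l for all σ ∉ K. Then stabilizer l = K, and l ≠ 0 since τ l ≠ l. So relIndex of H in stabilizer l is that of H in K: odd.
structure_irreducible2: copy structure_irreducible (root ξ, normal closure E, stabilizer index = natDegree f, p with p(ξ') = l, fibres of p = cosets), dropping the last claim (odd number of squares). OddType is stated with (f.aroots L).toFinset.
-/

open Polynomial MulAction IntermediateField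

namespace AnWA

theorem chain_element2 {F E : Type*} [Field F] [CharZero F] [Field E] [Algebra F E]
    [FiniteDimensional F E] [IsGalois F E] (hG : ChainGroup Gal(E/F)) (ξ : E)
    (h : Even (stabilizer Gal(E/F) ξ).index) :
    ∃ l : E, l ≠ 0 ∧ (∃ τ : Gal(E/F), τ l = - l) ∧
      (∀ σ ∈ stabilizer Gal(E/F) ξ, σ l = l) ∧
      Odd ((stabilizer Gal(E/F) ξ).relIndex (stabilizer Gal(E/F) l)) := by
  have : CharZero E := charZero_of_injective_algebraMap (algebraMap F E).injective
  obtain ⟨K, hHK, hodd, hcase⟩ := hG (stabilizer Gal(E/F) ξ)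
  rcases hcase with hK | ⟨M, hKM, h2⟩
  · exfalso
    rw [hK, Subgroup.relIndex_top_right] at hodd
    exact (Nat.not_odd_iff_even.2 h) hodd
  obtain ⟨τ, hτM, hτK, hτ⟩ := Subgroup.relIndex_eq_two_iff_exists_notMem_and.mp h2
  -- a point fixed by `K` but not by `τ`
  obtain ⟨a, haK, haτ⟩ : ∃ a : E, (∀ k ∈ K, k a = a) ∧ τ a ≠ a := by
    by_contra hcon
    push Not at hcon
    apply hτK
    rw [← IntermediateField.fixingSubgroup_fixedField K,
      IntermediateField.mem_fixingSubgroup_iff]
    intro x hx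
    apply hcon
    intro k hk
    exact hx ⟨k, hk⟩
  -- conjugation by `τ`
  have hconj : ∀ k ∈ K, τ⁻¹ * k * τ ∈ K := by
    intro k hk
    rcases hτ (τ⁻¹ * k) (M.mul_mem (M.inv_mem hτM) (hKM hk)) with h1 | h1
    · exact h1
    · exfalso
      apply hτK
      have := K.mul_mem h1 (K.inv_mem hk)
      have h3 : τ⁻¹ ∈ K := by simpa using this
      simpa using K.inv_mem h3
  have hττ : τ * τ ∈ K := by
    rcases hτ τ hτM with h1 | h1
    · exact h1
    · exact absurd h1 hτK
  have hK_τa : ∀ k ∈ K, k (τ a) = τ a := by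
    intro k hk
    have := haK _ (hconj k hk)
    have h3 : τ ((τ⁻¹ * k * τ) a) = τ a := by rw [this]
    rw [← AlgEquiv.mul_apply] at h3
    rw [show τ * (τ⁻¹ * k * τ) = k * τ by group] at h3
    rwa [AlgEquiv.mul_apply] at h3
  have hττa : τ (τ a) = a := by
    have := haK _ hττ
    rwa [AlgEquiv.mul_apply] at this
  obtain ⟨l0, hl⟩ : ∃ l0 : E, l0 = a - τ a := ⟨_, rfl⟩
  have hl0 : l0 ≠ 0 := by
    rw [hl]
    exact sub_ne_zero.mpr (Ne.symm haτ)
  have hKl : ∀ k ∈ K, k l0 = l0 := by
    intro k hk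
    rw [hl, map_sub, haK k hk, hK_τa k hk]
  have hτl : τ l0 = - l0 := by
    rw [hl, map_sub, hττa]; ring
  have hne : l0 ≠ - l0 := by
    intro h3
    exact hl0 (self_eq_neg.mp h3)
  have hMK : ∀ m ∈ M, m l0 = l0 → m ∈ K := by
    intro m hm hml
    rcases hτ m hm with h1 | h1
    · exfalso
      have := hKl _ h1
      rw [AlgEquiv.mul_apply, hτl, map_neg, hml] at this
      exact hne this.symm
    · exact h1
  -- an element with stabilizer `M`
  obtain ⟨θ, hθM, hθ⟩ : ∃ θ : E, (∀ m ∈ M, m θ = θ) ∧ ∀ σ : Gal(E/F), σ θ = θ → σ ∈ M := by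
    obtain ⟨θ', hθ'⟩ := Field.exists_primitive_element F (fixedField M)
    have h1 : F⟮(θ' : E)⟯ = fixedField M := by
      have h3 := congrArg IntermediateField.lift hθ'
      rwa [IntermediateField.lift_adjoin_simple, IntermediateField.lift_top] at h3
    refine ⟨(θ' : E), fun m hm => θ'.2 ⟨m, hm⟩, ?_⟩
    intro σ hσ
    rw [← IntermediateField.fixingSubgroup_fixedField M, ← h1]
    have h3 : Subgroup.zpowers σ ≤ (F⟮(θ' : E)⟯).fixingSubgroup := by
      rw [← IntermediateField.le_iff_le, IntermediateField.adjoin_simple_le_iff]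
      intro ρ
      obtain ⟨ρ, hρ⟩ := ρ
      have h4 : Subgroup.zpowers σ ≤ stabilizer Gal(E/F) (θ' : E) := by
        rw [Subgroup.zpowers_le, mem_stabilizer_iff, AlgEquiv.smul_def]
        exact hσ
      exact mem_stabilizer_iff.mp (h4 hρ)
    exact h3 (Subgroup.mem_zpowers σ)
  -- the choice of the constant
  obtain ⟨c, hc⟩ : ∃ c : F, ∀ σ : Gal(E/F), σ ∉ K →
      σ (l0 * (θ + algebraMap F E c)) ≠ l0 * (θ + algebraMap F E c) := by
    have hsub : ∀ σ : Gal(E/F), σ ∉ K →
        {c : F | σ (l0 * (θ + algebraMap F E c)) = l0 * (θ + algebraMap F E c)}.Subsingleton := by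
      intro σ hσ c hc d hd
      by_contra hcd
      simp only [Set.mem_ofPred_eq, map_mul, map_add, AlgEquiv.commutes] at hc hd
      have hcd' : algebraMap F E c - algebraMap F E d ≠ 0 := by
        rw [← map_sub, Ne, map_eq_zero_iff _ (algebraMap F E).injective]
        exact sub_ne_zero.2 hcd
      have h3 : σ l0 = l0 := by
        apply mul_right_cancel₀ hcd'
        linear_combination hc - hd
      have h4 : σ θ = θ := by
        rw [h3] at hc
        have := mul_left_cancel₀ hl0 hc
        exact add_right_cancel this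
      exact hσ (hMK σ (hθ σ h4) h3)
    have hfin : (⋃ σ ∈ {σ : Gal(E/F) | σ ∉ K},
        {c : F | σ (l0 * (θ + algebraMap F E c)) = l0 * (θ + algebraMap F E c)}).Finite :=
      Set.Finite.biUnion (Set.toFinite _) (fun σ hσ => (hsub σ hσ).finite)
    have : Infinite F := CharZero.infinite F
    obtain ⟨c, hc⟩ := hfin.infinite_compl.nonempty
    refine ⟨c, fun σ hσ h3 => hc ?_⟩
    exact Set.mem_biUnion hσ h3
  obtain ⟨l, hldef⟩ : ∃ l : E, l = l0 * (θ + algebraMap F E c) := ⟨_, rfl⟩
  rw [← hldef] at hc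
  have hKl2 : ∀ k ∈ K, k l = l := by
    intro k hk
    rw [hldef, map_mul, map_add, AlgEquiv.commutes, hKl k hk, hθM k (hKM hk)]
  have hτl2 : τ l = - l := by
    rw [hldef, map_mul, map_add, AlgEquiv.commutes, hτl, hθM τ hτM]
    ring
  have hstab : stabilizer Gal(E/F) l = K := by
    ext σ
    rw [mem_stabilizer_iff, AlgEquiv.smul_def]
    constructor
    · intro h3
      by_contra h4
      exact hc σ h4 h3
    · exact hKl2 σ
  refine ⟨l, ?_, ⟨τ, hτl2⟩, fun σ hσ => hKl2 σ (hHK hσ), ?_⟩
  · intro h3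
    apply hc τ hτK
    rw [h3, map_zero]
  · rw [hstab]
    exact hodd

theorem structure_irreducible2 {F L : Type*} [Field F] [CharZero F] [Field L] [Algebra F L]
    [IsAlgClosed L] [IsGalois F L] [DecidableEq L]
    (hchain : ∀ (E : IntermediateField F L), FiniteDimensional F E → IsGalois F E →
      ChainGroup (E ≃ₐ[F] E))
    {f : F[X]} (hf : f.Monic) (hirr : Irreducible f) (hn : Even f.natDegree) :
    ∃ p : F[X], OddType L f p := by
  -- a root
  obtain ⟨ξ, hξ⟩ : ∃ ξ : L, aeval ξ f = 0 := by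
    obtain ⟨ξ, hξ⟩ := IsAlgClosed.exists_aeval_eq_zero L f (by
      intro h0
      exact hirr.not_isUnit (Polynomial.isUnit_iff_degree_eq_zero.2 h0))
    exact ⟨ξ, hξ⟩
  have hmin : minpoly F ξ = f := (minpoly.eq_of_irreducible_of_monic hirr hξ hf).symm
  have hint : IsIntegral F ξ := ⟨f, hf, hξ⟩
  have hfd0 : FiniteDimensional F F⟮ξ⟯ := IntermediateField.adjoin.finiteDimensional hint
  set E : IntermediateField F L := IntermediateField.normalClosure F F⟮ξ⟯ L with hE
  have hfdE : FiniteDimensional F E := inferInstance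
  have hnE : Normal F E := inferInstance
  have hgE : IsGalois F E := ⟨⟩
  have hs : ChainGroup Gal(E/F) := hchain E inferInstance inferInstance
  have hξE : ξ ∈ E := (IntermediateField.le_normalClosure F⟮ξ⟯)
    (IntermediateField.mem_adjoin_simple_self F ξ)
  obtain ⟨ξ', hξ'⟩ : ∃ ξ' : E, (ξ' : L) = ξ := ⟨⟨ξ, hξE⟩, rfl⟩
  have hmin' : minpoly F ξ' = f := by
    rw [← hmin, ← hξ']
    exact (minpoly.algebraMap_eq (algebraMap E L).injective ξ').symm
  have hint' : IsIntegral F ξ' := Algebra.IsIntegral.isIntegral ξ'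
  have hf' : aeval ξ' f = 0 := by rw [← hmin']; exact minpoly.aeval F ξ'
  -- the stabilizer
  have hstab : (F⟮ξ'⟯).fixingSubgroup = stabilizer Gal(E/F) ξ' := by
    apply le_antisymm
    · intro σ hσ
      rw [IntermediateField.mem_fixingSubgroup_iff] at hσ
      rw [mem_stabilizer_iff, AlgEquiv.smul_def]
      exact hσ _ (IntermediateField.mem_adjoin_simple_self F ξ')
    · rw [← IntermediateField.le_iff_le, IntermediateField.adjoin_simple_le_iff]
      intro σ
      exact (mem_stabilizer_iff.mp σ.2)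
  have hidx : (stabilizer Gal(E/F) ξ').index = f.natDegree := by
    rw [← hstab, ← IntermediateField.finrank_eq_fixingSubgroup_index,
      IntermediateField.adjoin.finrank hint', hmin']
  obtain ⟨l, hl0, ⟨τ, hτl⟩, hfix, hodd1⟩ := chain_element2 hs ξ' (by rw [hidx]; exact hn)
  have hlmem : l ∈ F⟮ξ'⟯ := by
    rw [← IsGalois.fixedField_fixingSubgroup F⟮ξ'⟯, hstab]
    intro σ
    exact hfix σ σ.2
  obtain ⟨p, hp⟩ : ∃ p : F[X], aeval ξ' p = l := by
    have h1 : l ∈ (F⟮ξ'⟯).toSubalgebra := hlmem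
    rw [IntermediateField.adjoin_simple_toSubalgebra_of_isAlgebraic hint'.isAlgebraic,
      Algebra.adjoin_singleton_eq_range_aeval] at h1
    obtain ⟨p, hp⟩ := h1
    exact ⟨p, hp⟩
  have hval : ∀ σ : Gal(E/F), aeval ((σ ξ' : E) : L) p = ((σ l : E) : L) := by
    intro σ
    have h1 : aeval (σ ξ') p = σ l := by
      rw [← hp]; exact Polynomial.aeval_algHom_apply σ.toAlgHom ξ' p
    have h2 := Polynomial.aeval_algebraMap_apply L (σ ξ') p
    rw [h1] at h2
    exact h2
  have hroots : ∀ z : L, z ∈ (f.aroots L).toFinset ↔ ∃ σ : Gal(E/F), ((σ ξ' : E) : L) = z := by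
    intro z
    rw [Multiset.mem_toFinset, Polynomial.mem_aroots]
    constructor
    · rintro ⟨-, hz⟩
      rw [← hmin] at hz
      obtain ⟨σ, hσ⟩ := minpoly.exists_algEquiv_of_root' hint.isAlgebraic hz
      refine ⟨σ.restrictNormal E, ?_⟩
      have := AlgEquiv.restrictNormal_commutes σ E ξ'
      rw [← hσ, ← hξ']
      exact this
    · rintro ⟨σ, rfl⟩
      refine ⟨hf.ne_zero, ?_⟩
      have h1 : aeval (σ ξ') f = 0 := by
        have := Polynomial.aeval_algHom_apply σ.toAlgHom ξ' f
        rw [hf', map_zero] at this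
        exact this
      have h2 := Polynomial.aeval_algebraMap_apply L (σ ξ') f
      rw [h1, map_zero] at h2
      exact h2
  refine ⟨p, ?_, ?_, ?_⟩
  · intro x hx
    obtain ⟨σ, rfl⟩ := (hroots x).mp hx
    rw [hval]
    intro h0
    apply hl0
    have h1 : σ l = 0 := Subtype.ext h0
    exact (map_eq_zero_iff σ σ.injective).mp h1
  · intro x hx
    obtain ⟨σ, rfl⟩ := (hroots x).mp hx
    refine ⟨(((σ * τ) ξ' : E) : L), (hroots _).mpr ⟨σ * τ, rfl⟩, ?_⟩
    rw [hval, hval, AlgEquiv.mul_apply, hτl, map_neg]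
    rfl
  · intro x hx
    obtain ⟨σ, rfl⟩ := (hroots x).mp hx
    have hset : (((f.aroots L).toFinset.filter
        (fun z => aeval z p = aeval ((σ ξ' : E) : L) p) : Finset L) : Set L)
        = (fun y : E => ((σ y : E) : L)) '' (orbit (stabilizer Gal(E/F) l) ξ') := by
      ext z
      simp only [Finset.coe_filter, Set.mem_ofPred_eq, Set.mem_image,
        mem_orbit_iff]
      constructor
      · rintro ⟨hz, hz2⟩
        obtain ⟨ρ, rfl⟩ := (hroots z).mp hz
        rw [hval, hval] at hz2
        have hz3 : ρ l = σ l := Subtype.ext hz2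
        refine ⟨(σ⁻¹ * ρ) ξ', ⟨⟨σ⁻¹ * ρ, ?_⟩, rfl⟩, ?_⟩
        · rw [mem_stabilizer_iff, AlgEquiv.smul_def, AlgEquiv.mul_apply, hz3,
            ← AlgEquiv.mul_apply, inv_mul_cancel, AlgEquiv.one_apply]
        · rw [← AlgEquiv.mul_apply, mul_inv_cancel_left]
      · rintro ⟨y, ⟨⟨s, hs⟩, rfl⟩, rfl⟩
        have h1 : (⟨s, hs⟩ : stabilizer Gal(E/F) l) • ξ' = s ξ' := rfl
        rw [h1, ← AlgEquiv.mul_apply]
        refine ⟨(hroots _).mpr ⟨_, rfl⟩, ?_⟩
        rw [hval, hval, AlgEquiv.mul_apply]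
        rw [mem_stabilizer_iff, AlgEquiv.smul_def] at hs
        rw [hs]
    rw [← Set.ncard_coe_finset, hset, Set.ncard_image_of_injective _ (by
      intro a b hab
      exact σ.injective (Subtype.ext hab)), ← MulAction.index_stabilizer]
    have h2 : stabilizer (stabilizer Gal(E/F) l) ξ'
        = (stabilizer Gal(E/F) ξ').subgroupOf (stabilizer Gal(E/F) l) := by
      ext s
      rw [Subgroup.mem_subgroupOf, mem_stabilizer_iff, mem_stabilizer_iff]
      rfl
    rw [h2]
    exact hodd1

end AnWA
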