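import Pool.Agent.H.MP_83e36b_nt.RDefs
import Pool.Agent.H.MP_83e36b_nt.LElem
import Pool.Agent.H.MP_83e36b_nt.E2b
import Pool.Agent.H.MP_83e36b_nt.C1

/-! Module LComb: combination of types; polynomials of even degree.

PROOF. Roots of f*g: (f*g).aroots = roots of f and roots of g, disjoint because f*g is separable (f,g coprime). combine: IsCoprime f g: u f + v g = 1; r = p v g + C a q u f has r ≡ p mod f and r ≡ a q mod g. a ∈ F nonzero with a q(y) ≠ p(x) for all the finitely many pairs (x,y): for each pair there is at most one bad a as q(y) ≠ 0; F is infinite. TType.oddType: the fibre of x is {x}. OddType.glue: nonzero and symmetric: clear (on g: -(a q(y)) = a q(y')); the fibre of r on the roots of f*g through a root x of f is the fibre of p on the roots of f (by h3 no root of g is in it), and similarly for g (a ≠ 0). local_structure2: strong induction on the degree. f = 1: no roots, any p. Otherwise take a monic irreducible factor g (exists_monic_irreducible_factor), f = g r. If g has even degree: r has even degree; structure_irreducible2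 (LElem) for g, induction for r, combine + glue. If g = g1 has odd degree, r has odd degree, by exists_odd_factor (E2b) r = g2 r', g2 irreducible of odd degree, r' of even degree; p = v g2 - u g1 with u g1 + v g2 = 1 has value 1 on the roots of g1 and -1 on those of g2, fibres of sizes deg g1, deg g2: OddType L (g1*g2) p (see the proof of local_structure in E2b.lean); induction for r', combine + glue for (g1*g2) * r'. even_image: y ↦ -y is a fixed point free involution of the set of values (Finset.card_involution / even_card_of_involution like lemmas). comb_types: combine (pT, pX) and glue; the values on the roots of fT are fT.natDegree different ones (card_aroots_toFinset E2b, injectivity of pT) and the value at a root of fX (exists since natDegree > 0, L algebraically closed) is different from them.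
-/

open Polynomial

namespace AnWA

variable {F L : Type*} [Field F] [CharZero F] [Field L] [Algebra F L] [IsAlgClosed L]
  [IsGalois F L] [DecidableEq L]

lemma lcomb_mem_R {f : F[X]} (hf : f.Monic) (x : L) : x ∈ (f.aroots L).toFinset ↔ aeval x f = 0 := by
  rw [Multiset.mem_toFinset, mem_aroots]
  exact ⟨fun h => h.2, fun h => ⟨hf.ne_zero, h⟩⟩

lemma lcomb_mem_R_mul {f g : F[X]} (hf : f.Monic) (hg : g.Monic) (x : L) :
    x ∈ ((f * g).aroots L).toFinset ↔
      x ∈ (f.aroots L).toFinset ∨ x ∈ (g.aroots L).toFinset := by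
  rw [lcomb_mem_R (hf.mul hg), lcomb_mem_R hf, lcomb_mem_R hg, map_mul, mul_eq_zero]

/-- gluing of functions on the roots, with disjoint sets of values -/
theorem combine {f g : F[X]} (hf : f.Monic) (hg : g.Monic) (hs : (f * g).Separable) (p q : F[X])
    (hq : ∀ y ∈ (g.aroots L).toFinset, aeval y q ≠ 0) :
    ∃ (r : F[X]) (a : F), a ≠ 0 ∧ (∀ x ∈ (f.aroots L).toFinset, aeval x r = aeval x p) ∧
      (∀ y ∈ (g.aroots L).toFinset, aeval y r = algebraMap F L a * aeval y q) ∧
      ∀ x ∈ (f.aroots L).toFinset, ∀ y ∈ (g.aroots L).toFinset, aeval x r ≠ aeval y r := by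
  obtain ⟨u, v, huv⟩ := hs.isCoprime
  obtain ⟨a, ha⟩ : ∃ a : F, algebraMap F L a ∉ insert (0 : L) (Finset.image₂
      (fun x y => aeval x p / aeval y q) (f.aroots L).toFinset (g.aroots L).toFinset) := by
    by_contra hcon
    push Not at hcon
    have h1 : (Set.range (algebraMap F L)).Infinite :=
      Set.infinite_range_of_injective (algebraMap F L).injective
    apply h1
    apply (Finset.finite_toSet (insert (0 : L) (Finset.image₂
      (fun x y => aeval x p / aeval y q) (f.aroots L).toFinset (g.aroots L).toFinset))).subset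
    rintro _ ⟨a, rfl⟩
    exact hcon a
  rw [Finset.mem_insert, not_or] at ha
  obtain ⟨ha0, ha1⟩ := ha
  have ha0' : a ≠ 0 := by
    rintro rfl
    exact ha0 (map_zero _)
  have huv' : ∀ x : L, aeval x u * aeval x f + aeval x v * aeval x g = 1 := by
    intro x
    have := congrArg (aeval x) huv
    simpa using this
  have hx : ∀ x ∈ (f.aroots L).toFinset,
      aeval x (p * v * g + C a * q * u * f) = aeval x p := by
    intro x hx
    rw [lcomb_mem_R hf] at hx
    have h := huv' x
    rw [hx, mul_zero, zero_add] at h
    simp only [map_add, map_mul, hx, mul_zero, add_zero]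
    rw [mul_assoc, h, mul_one]
  have hy : ∀ y ∈ (g.aroots L).toFinset,
      aeval y (p * v * g + C a * q * u * f) = algebraMap F L a * aeval y q := by
    intro y hy
    rw [lcomb_mem_R hg] at hy
    have h := huv' y
    rw [hy, mul_zero, add_zero] at h
    simp only [map_add, map_mul, hy, mul_zero, zero_add, aeval_C]
    rw [mul_assoc, h, mul_one]
  refine ⟨p * v * g + C a * q * u * f, a, ha0', hx, hy, ?_⟩
  intro x hx' y hy' hxy
  rw [hx x hx', hy y hy'] at hxy
  apply ha1
  rw [Finset.mem_image₂]
  refine ⟨x, hx', y, hy', ?_⟩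
  rw [hxy, mul_div_assoc, div_self (hq y hy'), mul_one]

theorem TType.oddType {f p : F[X]} (h : TType L f p) : OddType L f p := by
  refine ⟨h.ne, h.neg, fun x hx => ?_⟩
  have h1 : (f.aroots L).toFinset.filter (fun z => aeval z p = aeval x p) = {x} := by
    ext z
    rw [Finset.mem_filter, Finset.mem_singleton]
    constructor
    · rintro ⟨hz, hz2⟩
      exact h.inj (Finset.mem_coe.2 hz) (Finset.mem_coe.2 hx) hz2
    · rintro rfl
      exact ⟨hx, rfl⟩
  rw [h1, Finset.card_singleton]
  exact odd_one

/-- gluing of types -/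
theorem OddType.glue {f g : F[X]} (hf : f.Monic) (hg : g.Monic) (hs : (f * g).Separable)
    {p q r : F[X]} {a : F} (ha : a ≠ 0) (hp : OddType L f p) (hq : OddType L g q)
    (h1 : ∀ x ∈ (f.aroots L).toFinset, aeval x r = aeval x p)
    (h2 : ∀ y ∈ (g.aroots L).toFinset, aeval y r = algebraMap F L a * aeval y q)
    (h3 : ∀ x ∈ (f.aroots L).toFinset, ∀ y ∈ (g.aroots L).toFinset, aeval x r ≠ aeval y r) :
    OddType L (f * g) r := by
  have ha' : algebraMap F L a ≠ 0 := by
    rw [Ne, map_eq_zero]
    exact ha
  refine ⟨?_, ?_, ?_⟩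
  · intro x hx
    rcases (lcomb_mem_R_mul hf hg x).1 hx with h | h
    · rw [h1 x h]; exact hp.ne x h
    · rw [h2 x h]; exact mul_ne_zero ha' (hq.ne x h)
  · intro x hx
    rcases (lcomb_mem_R_mul hf hg x).1 hx with h | h
    · obtain ⟨x', hx', e⟩ := hp.neg x h
      exact ⟨x', (lcomb_mem_R_mul hf hg x').2 (Or.inl hx'), by rw [h1 x h, h1 x' hx', e]⟩
    · obtain ⟨x', hx', e⟩ := hq.neg x h
      exact ⟨x', (lcomb_mem_R_mul hf hg x').2 (Or.inr hx'), by rw [h2 x h, h2 x' hx', e, mul_neg]⟩
  · intro x hx
    rcases (lcomb_mem_R_mul hf hg x).1 hx with h | h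
    · have e : ((f * g).aroots L).toFinset.filter (fun z => aeval z r = aeval x r) =
          (f.aroots L).toFinset.filter (fun z => aeval z p = aeval x p) := by
        ext z
        rw [Finset.mem_filter, Finset.mem_filter, lcomb_mem_R_mul hf hg]
        constructor
        · rintro ⟨hz | hz, e⟩
          · refine ⟨hz, ?_⟩
            rwa [h1 z hz, h1 x h] at e
          · exact absurd e.symm (h3 x h z hz)
        · rintro ⟨hz, e⟩
          exact ⟨Or.inl hz, by rw [h1 z hz, h1 x h, e]⟩
      rw [e]
      exact hp.odd x h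
    · have e : ((f * g).aroots L).toFinset.filter (fun z => aeval z r = aeval x r) =
          (g.aroots L).toFinset.filter (fun z => aeval z q = aeval x q) := by
        ext z
        rw [Finset.mem_filter, Finset.mem_filter, lcomb_mem_R_mul hf hg]
        constructor
        · rintro ⟨hz | hz, e⟩
          · exact absurd e (h3 z hz x h)
          · refine ⟨hz, ?_⟩
            rw [h2 z hz, h2 x h] at e
            exact mul_left_cancel₀ ha' e
        · rintro ⟨hz, e⟩
          exact ⟨Or.inr hz, by rw [h2 z hz, h2 x h, e]⟩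
      rw [e]
      exact hq.odd x h

/-- the product of two different irreducible polynomials of odd degree -/
lemma oddType_pair {g1 g2 : F[X]} (hg1 : g1.Monic) (hg2 : g2.Monic) (hs : (g1 * g2).Separable)
    (hi1 : Irreducible g1) (hi2 : Irreducible g2) (ho1 : Odd g1.natDegree)
    (ho2 : Odd g2.natDegree) : ∃ p : F[X], OddType L (g1 * g2) p := by
  have hLchar : CharZero L := charZero_of_injective_algebraMap (algebraMap F L).injective
  obtain ⟨a, b, hab⟩ := hs.isCoprime
  have hsep1 : g1.Separable := hs.of_mul_left
  have hsep2 : g2.Separable := hs.of_mul_right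
  have hab' : ∀ x : L, aeval x a * aeval x g1 + aeval x b * aeval x g2 = 1 := by
    intro x
    have := congrArg (aeval x) hab
    simpa using this
  have hv1 : ∀ x : L, aeval x g1 = 0 → aeval x (b * g2 - a * g1) = 1 := by
    intro x hx
    have h := hab' x
    rw [hx, mul_zero, zero_add] at h
    rw [map_sub, map_mul, map_mul, hx, mul_zero, sub_zero, h]
  have hv2 : ∀ x : L, aeval x g2 = 0 → aeval x (b * g2 - a * g1) = -1 := by
    intro x hx
    have h := hab' x
    rw [hx, mul_zero, add_zero] at h
    rw [map_sub, map_mul, map_mul, hx, mul_zero, zero_sub, h]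
  have hex : ∀ g : F[X], Irreducible g → ∃ x : L, aeval x g = 0 := by
    intro g hgi
    apply IsAlgClosed.exists_aeval_eq_zero L g
    exact (degree_pos_of_irreducible hgi).ne'
  have hne : (1 : L) ≠ -1 := by
    intro h
    have h2 : (2 : L) = 0 := by linear_combination h
    exact two_ne_zero h2
  refine ⟨b * g2 - a * g1, ?_, ?_, ?_⟩
  · intro x hx
    rcases (lcomb_mem_R_mul hg1 hg2 x).1 hx with h | h
    · rw [hv1 x ((lcomb_mem_R hg1 x).1 h)]; exact one_ne_zero
    · rw [hv2 x ((lcomb_mem_R hg2 x).1 h)]; exact neg_ne_zero.2 one_ne_zero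
  · intro x hx
    rcases (lcomb_mem_R_mul hg1 hg2 x).1 hx with h | h
    · obtain ⟨y, hy⟩ := hex g2 hi2
      exact ⟨y, (lcomb_mem_R_mul hg1 hg2 y).2 (Or.inr ((lcomb_mem_R hg2 y).2 hy)),
        by rw [hv2 y hy, hv1 x ((lcomb_mem_R hg1 x).1 h)]⟩
    · obtain ⟨y, hy⟩ := hex g1 hi1
      exact ⟨y, (lcomb_mem_R_mul hg1 hg2 y).2 (Or.inl ((lcomb_mem_R hg1 y).2 hy)),
        by rw [hv1 y hy, hv2 x ((lcomb_mem_R hg2 x).1 h), neg_neg]⟩
  · intro x hx
    rcases (lcomb_mem_R_mul hg1 hg2 x).1 hx with h | h
    · have h1 : ((g1 * g2).aroots L).toFinset.filter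
          (fun z => aeval z (b * g2 - a * g1) = aeval x (b * g2 - a * g1))
          = (g1.aroots L).toFinset := by
        ext z
        rw [Finset.mem_filter, lcomb_mem_R_mul hg1 hg2, hv1 x ((lcomb_mem_R hg1 x).1 h)]
        constructor
        · rintro ⟨hz | hz, hz2⟩
          · exact hz
          · rw [hv2 z ((lcomb_mem_R hg2 z).1 hz)] at hz2
            exact (hne hz2.symm).elim
        · intro hz
          exact ⟨Or.inl hz, hv1 z ((lcomb_mem_R hg1 z).1 hz)⟩
      rw [h1, card_aroots_toFinset hsep1]
      exact ho1
    · have h1 : ((g1 * g2).aroots L).toFinset.filter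
          (fun z => aeval z (b * g2 - a * g1) = aeval x (b * g2 - a * g1))
          = (g2.aroots L).toFinset := by
        ext z
        rw [Finset.mem_filter, lcomb_mem_R_mul hg1 hg2, hv2 x ((lcomb_mem_R hg2 x).1 h)]
        constructor
        · rintro ⟨hz | hz, hz2⟩
          · rw [hv1 z ((lcomb_mem_R hg1 z).1 hz)] at hz2
            exact (hne hz2).elim
          · exact hz
        · intro hz
          exact ⟨Or.inr hz, hv2 z ((lcomb_mem_R hg2 z).1 hz)⟩
      rw [h1, card_aroots_toFinset hsep2]
      exact ho2

lemma oddType_mul {f g : F[X]} (hf : f.Monic) (hg : g.Monic) (hs : (f * g).Separable)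
    (h1 : ∃ p : F[X], OddType L f p) (h2 : ∃ q : F[X], OddType L g q) :
    ∃ r : F[X], OddType L (f * g) r := by
  obtain ⟨p, hp⟩ := h1
  obtain ⟨q, hq⟩ := h2
  obtain ⟨r, a, ha, e1, e2, e3⟩ := combine hf hg hs p q hq.ne
  exact ⟨r, OddType.glue hf hg hs ha hp hq e1 e2 e3⟩

lemma local_structure2_aux
    (hchain : ∀ (E : IntermediateField F L), FiniteDimensional F E → IsGalois F E →
      ChainGroup (E ≃ₐ[F] E)) : ∀ (n : ℕ) (f : F[X]), f.natDegree = n → f.Monic →
      f.Separable → Even f.natDegree → ∃ p : F[X], OddType L f p := by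
  intro n
  induction n using Nat.strong_induction_on with
  | _ n ih =>
    intro f hfn hf hs hn
    by_cases hu : IsUnit f
    · rw [hf.isUnit_iff] at hu
      have h0 : ∀ x : L, x ∉ (f.aroots L).toFinset := by
        intro x hx
        rw [lcomb_mem_R hf, hu, map_one] at hx
        exact one_ne_zero hx
      exact ⟨0, ⟨fun x hx => absurd hx (h0 x), fun x hx => absurd hx (h0 x),
        fun x hx => absurd hx (h0 x)⟩⟩
    · obtain ⟨g, hg, hgi, r, hr⟩ := exists_monic_irreducible_factor f hu
      have hrm : r.Monic := hg.of_mul_monic_left (hr ▸ hf)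
      have hd : f.natDegree = g.natDegree + r.natDegree := by rw [hr, hg.natDegree_mul hrm]
      have hgp : 0 < g.natDegree := hgi.natDegree_pos
      have hs' : (g * r).Separable := hr ▸ hs
      by_cases hge : Even g.natDegree
      · have hre : Even r.natDegree := by
          rw [hd] at hn
          exact (Nat.even_add.1 hn).1 hge
        rw [hr]
        exact oddType_mul hg hrm hs' (structure_irreducible2 hchain hg hgi hge)
          (ih r.natDegree (by omega) r rfl hrm hs'.of_mul_right hre)
      · have hgo : Odd g.natDegree := Nat.not_even_iff_odd.1 hge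
        have hro : Odd r.natDegree := by
          rw [hd] at hn
          rw [← Nat.not_even_iff_odd]
          intro h
          exact hge ((Nat.even_add.1 hn).2 h)
        obtain ⟨g2, hg2, hg2i, ⟨r', hr'⟩, hg2o⟩ := exists_odd_factor r.natDegree r rfl hrm hro
        have hr'm : r'.Monic := hg2.of_mul_monic_left (hr' ▸ hrm)
        have hd' : r.natDegree = g2.natDegree + r'.natDegree := by
          rw [hr', hg2.natDegree_mul hr'm]
        have hf' : f = (g * g2) * r' := by rw [hr, hr']; ring
        have hs2 : ((g * g2) * r').Separable := hf' ▸ hs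
        have hr'e : Even r'.natDegree := by
          rw [hd'] at hro
          by_contra hcon
          rw [Nat.not_even_iff_odd] at hcon
          exact (Nat.not_even_iff_odd.2 hro) (hg2o.add_odd hcon)
        rw [hf']
        exact oddType_mul (hg.mul hg2) hr'm hs2
          (oddType_pair hg hg2 hs2.of_mul_left hgi hg2i hgo hg2o)
          (ih r'.natDegree (by omega) r' rfl hr'm hs2.of_mul_right hr'e)

theorem local_structure2
    (hchain : ∀ (E : IntermediateField F L), FiniteDimensional F E → IsGalois F E →
      ChainGroup (E ≃ₐ[F] E))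
    {f : F[X]} (hf : f.Monic) (hs : f.Separable) (hn : Even f.natDegree) :
    ∃ p : F[X], OddType L f p :=
  local_structure2_aux hchain f.natDegree f rfl hf hs hn

/-- the set of values of a symmetric function has an even number of elements -/
theorem OddType.even_image {f p : F[X]} (h : OddType L f p) :
    Even ((f.aroots L).toFinset.image (fun x => aeval x p)).card := by
  have hLchar : CharZero L := charZero_of_injective_algebraMap (algebraMap F L).injective
  set S := (f.aroots L).toFinset.image (fun x => aeval x p) with hS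
  have h1 : ∑ _y ∈ S, (1 : ZMod 2) = 0 := by
    apply Finset.sum_involution (fun y _ => -y)
    · intro y _
      decide
    · intro y hy _ hyy
      rw [hS, Finset.mem_image] at hy
      obtain ⟨x, hx, rfl⟩ := hy
      exact h.ne x hx (self_eq_neg.1 hyy.symm)
    · intro y _
      exact neg_neg y
    · intro y hy
      rw [hS, Finset.mem_image] at hy ⊢
      obtain ⟨x, hx, rfl⟩ := hy
      obtain ⟨x', hx', e⟩ := h.neg x hx
      exact ⟨x', hx', e⟩
  rw [Finset.sum_const, nsmul_eq_mul, mul_one] at h1
  exact (ZMod.natCast_eq_zero_iff_even).1 h1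

theorem comb_types {fT fX pT pX : F[X]} (hT : fT.Monic) (hX : fX.Monic)
    (hs : (fT * fX).Separable) (h1 : TType L fT pT) (h2 : OddType L fX pX)
    (h0 : 0 < fX.natDegree) :
    ∃ p : F[X], OddType L (fT * fX) p ∧
      fT.natDegree < (((fT * fX).aroots L).toFinset.image (fun x => aeval x p)).card := by
  obtain ⟨r, a, ha, e1, e2, e3⟩ := combine hT hX hs pT pX h2.ne
  refine ⟨r, OddType.glue hT hX hs ha h1.oddType h2 e1 e2 e3, ?_⟩
  obtain ⟨y, hy⟩ : ∃ y : L, aeval y fX = 0 := by
    apply IsAlgClosed.exists_aeval_eq_zero L fX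
    exact (natDegree_pos_iff_degree_pos.1 h0).ne'
  have hy' : y ∈ (fX.aroots L).toFinset := (lcomb_mem_R hX y).2 hy
  have hinj : Set.InjOn (fun x => aeval x r) ((fT.aroots L).toFinset : Set L) := by
    intro x hx x' hx' hxx
    simp only at hxx
    rw [e1 x (Finset.mem_coe.1 hx), e1 x' (Finset.mem_coe.1 hx')] at hxx
    exact h1.inj hx hx' hxx
  have hcard : ((fT.aroots L).toFinset.image (fun x => aeval x r)).card = fT.natDegree := by
    rw [Finset.card_image_of_injOn hinj, card_aroots_toFinset hs.of_mul_left]
  have hnot : aeval y r ∉ (fT.aroots L).toFinset.image (fun x => aeval x r) := by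
    rw [Finset.mem_image]
    rintro ⟨x, hx, e⟩
    exact e3 x hx y hy' e
  rw [← hcard, Nat.lt_iff_add_one_le, ← Finset.card_insert_of_notMem hnot]
  apply Finset.card_le_card
  intro z hz
  rw [Finset.mem_insert, Finset.mem_image] at hz
  rw [Finset.mem_image]
  rcases hz with rfl | ⟨x, hx, rfl⟩
  · exact ⟨y, (lcomb_mem_R_mul hT hX y).2 (Or.inr hy'), rfl⟩
  · exact ⟨x, (lcomb_mem_R_mul hT hX x).2 (Or.inl hx), rfl⟩

end AnWA
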