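import Pool.Agent.H.MP_83e36b_nt.RDefs

/-! Module LGroup: chains of subgroups.

PROOF. Given H ≤ G choose K ≥ H with Odd (H.relIndex K) and K maximal with this property (finite).
If K = ⊤ done. Maximality: for a normal subgroup N of G with [N : N∩K] odd we have N ≤ K, because
[K⊔N : K] = [N : N∩K] is odd and [K⊔N:H] = [K⊔N:K][K:H] is odd. (a) N = P. (b) Suppose not I ≤ K.
Choose J minimal among the subgroups with P ≤ J ≤ I and not J ≤ K; then [J : J⊓K] is prime, not odd,
so 2 and M = K ⊔ J. (c) I ≤ K ≠ ⊤: choose M minimal among the subgroups > K; [M:K] is prime, not odd.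
-/

namespace AnWA

private lemma relIndex_inf_sup {G : Type*} [Group G] [Finite G] (K N : Subgroup G) (hN : N.Normal) :
    K.relIndex (K ⊔ N) = (K ⊓ N).relIndex N := by
  have h1 : (K ⊓ N).relIndex N * N.relIndex (K ⊔ N) = (K ⊓ N).relIndex (K ⊔ N) :=
    Subgroup.relIndex_mul_relIndex _ _ _ inf_le_right le_sup_right
  have h2 : (K ⊓ N).relIndex K * K.relIndex (K ⊔ N) = (K ⊓ N).relIndex (K ⊔ N) :=
    Subgroup.relIndex_mul_relIndex _ _ _ inf_le_left le_sup_left
  have h3 : N.relIndex (K ⊔ N) = (K ⊓ N).relIndex K := by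
    rw [Subgroup.relIndex_sup_right, inf_comm, Subgroup.inf_relIndex_right]
  have h4 : (K ⊓ N).relIndex K ≠ 0 := by
    rw [Subgroup.relIndex]
    exact Subgroup.index_ne_zero_of_finite
  rw [h3] at h1
  have h5 : (K ⊓ N).relIndex K * K.relIndex (K ⊔ N) = (K ⊓ N).relIndex K * (K ⊓ N).relIndex N := by
    rw [h2, ← h1, mul_comm]
  exact Nat.eq_of_mul_eq_mul_left (Nat.pos_of_ne_zero h4) h5

private lemma prime_relIndex {G : Type*} [Group G] [Finite G] (A B : Subgroup G) (hA : A.Normal)
    (hAB : A ≤ B) (hne : A ≠ B) (hmin : ∀ C : Subgroup G, A ≤ C → C ≤ B → C = A ∨ C = B) :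
    (A.relIndex B).Prime := by
  have hn : (A.subgroupOf B).Normal := inferInstance
  have h0 : A.relIndex B ≠ 1 := by
    intro h
    rw [Subgroup.relIndex_eq_one] at h
    exact hne (le_antisymm hAB h)
  obtain ⟨l, hl, hld⟩ := Nat.exists_prime_and_dvd h0
  have : Fact l.Prime := ⟨hl⟩
  have hcard : Nat.card (B ⧸ A.subgroupOf B) = A.relIndex B := rfl
  obtain ⟨q, hq⟩ := exists_prime_orderOf_dvd_card' (G := B ⧸ A.subgroupOf B) l (hcard ▸ hld)
  set C' : Subgroup B := (Subgroup.zpowers q).comap (QuotientGroup.mk' (A.subgroupOf B)) with hC'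
  set C : Subgroup G := C'.map B.subtype with hC
  have h1 : A ≤ C := by
    intro a ha
    refine ⟨⟨a, hAB ha⟩, ?_, rfl⟩
    show QuotientGroup.mk' (A.subgroupOf B) ⟨a, hAB ha⟩ ∈ Subgroup.zpowers q
    have : QuotientGroup.mk' (A.subgroupOf B) ⟨a, hAB ha⟩ = 1 := by
      rw [QuotientGroup.mk'_apply, QuotientGroup.eq_one_iff]
      exact ha
    rw [this]
    exact Subgroup.one_mem _
  have h2 : C ≤ B := by
    rintro _ ⟨b, _, rfl⟩
    exact b.2
  obtain ⟨b, hb⟩ := QuotientGroup.mk'_surjective (A.subgroupOf B) q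
  rcases hmin C h1 h2 with h | h
  · exfalso
    have hbC : (b : G) ∈ C := by
      refine ⟨b, ?_, rfl⟩
      show QuotientGroup.mk' (A.subgroupOf B) b ∈ Subgroup.zpowers q
      rw [hb]
      exact Subgroup.mem_zpowers q
    rw [h] at hbC
    have hq1 : q = 1 := by
      rw [← hb, QuotientGroup.mk'_apply, QuotientGroup.eq_one_iff]
      exact hbC
    rw [hq1, orderOf_one] at hq
    exact hl.one_lt.ne hq
  · have htop : Subgroup.zpowers q = ⊤ := by
      rw [eq_top_iff]
      intro x _
      obtain ⟨c, hc⟩ := QuotientGroup.mk'_surjective (A.subgroupOf B) x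
      have hcC : (c : G) ∈ C := by rw [h]; exact c.2
      obtain ⟨c', hc', hcc⟩ := hcC
      have : c' = c := Subtype.ext hcc
      rw [this] at hc'
      rw [← hc]
      exact hc'
    have : A.relIndex B = l := by
      rw [← hcard, ← hq, ← Nat.card_zpowers, htop]
      exact (Nat.card_congr Subgroup.topEquiv.toEquiv).symm
    rw [this]
    exact hl

theorem chainGroup_of_normal {G : Type*} [Group G] [Finite G] (P I : Subgroup G)
    (hPn : P.Normal) (hP : Odd (Nat.card P)) (hPI : P ≤ I)
    (h1 : ∀ J : Subgroup G, P ≤ J → J ≤ I → J.Normal)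
    (h2 : ∀ J : Subgroup G, I ≤ J → J.Normal) : ChainGroup G := by
  intro H
  obtain ⟨K, ⟨hHK, hodd⟩, hmax⟩ := WellFounded.has_min
    (wellFounded_gt : WellFounded ((· > ·) : Subgroup G → Subgroup G → Prop))
    {K | H ≤ K ∧ Odd (H.relIndex K)} ⟨H, le_rfl, by simp⟩
  -- maximality
  have hM : ∀ M : Subgroup G, K ≤ M → Odd (K.relIndex M) → M ≤ K := by
    intro M hKM hoM
    by_contra hcon
    refine hmax M ⟨hHK.trans hKM, ?_⟩ (lt_of_le_of_ne hKM (fun h => hcon (h ▸ le_rfl)))
    rw [← Subgroup.relIndex_mul_relIndex H K M hHK hKM]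
    exact hodd.mul hoM
  have hN : ∀ N : Subgroup G, N.Normal → Odd ((K ⊓ N).relIndex N) → N ≤ K := by
    intro N hNn hoN
    have := hM (K ⊔ N) le_sup_left (by rw [relIndex_inf_sup K N hNn]; exact hoN)
    exact le_sup_right.trans this
  have hPK : P ≤ K := by
    apply hN P hPn
    have hdvd : (K ⊓ P).relIndex P ∣ Nat.card P := Subgroup.index_dvd_card _
    exact Odd.of_dvd_nat hP hdvd
  refine ⟨K, hHK, hodd, ?_⟩
  by_cases hIK : I ≤ K
  · by_cases hKt : K = ⊤
    · exact Or.inl hKt
    · right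
      obtain ⟨M, hKM, hmin⟩ := WellFounded.has_min
        (wellFounded_lt : WellFounded ((· < ·) : Subgroup G → Subgroup G → Prop))
        {M | K < M} ⟨⊤, lt_top_iff_ne_top.2 hKt⟩
      have hKM' : K < M := hKM
      have hp : (K.relIndex M).Prime := by
        apply prime_relIndex K M (h2 K hIK) hKM'.le hKM'.ne
        intro C hKC hCM
        by_cases hC : C = K
        · exact Or.inl hC
        · right
          by_contra hne
          exact hmin C (lt_of_le_of_ne hKC (Ne.symm hC)) (lt_of_le_of_ne hCM hne)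
      refine ⟨M, hKM'.le, ?_⟩
      rcases hp.eq_two_or_odd' with h | h
      · exact h
      · exact absurd (hM M hKM'.le h) (not_le_of_gt hKM')
  · right
    obtain ⟨J, ⟨hPJ, hJI, hJK⟩, hmin⟩ := WellFounded.has_min
      (wellFounded_lt : WellFounded ((· < ·) : Subgroup G → Subgroup G → Prop))
      {J | P ≤ J ∧ J ≤ I ∧ ¬ J ≤ K} ⟨I, hPI, le_rfl, hIK⟩
    have hJn : J.Normal := h1 J hPJ hJI
    have hKJn : (K ⊓ J).Normal := h1 _ (le_inf hPK hPJ) (inf_le_right.trans hJI)
    have hne : K ⊓ J ≠ J := fun h => hJK (h ▸ inf_le_left)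
    have hp : ((K ⊓ J).relIndex J).Prime := by
      apply prime_relIndex (K ⊓ J) J hKJn inf_le_right hne
      intro C hC1 hC2
      by_cases hC : C = J
      · exact Or.inr hC
      · left
        have hCJ : C < J := lt_of_le_of_ne hC2 hC
        have hCK : C ≤ K := by
          by_contra hcon
          exact hmin C ⟨(le_inf hPK hPJ).trans hC1, hC2.trans hJI, hcon⟩ hCJ
        exact le_antisymm (le_inf hCK hC2) hC1
    rcases hp.eq_two_or_odd' with h | h
    · exact ⟨K ⊔ J, le_sup_left, by rw [relIndex_inf_sup K J hJn]; exact h⟩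
    · exact absurd (hN J hJn h) hJK

theorem chainGroup_of_card_dvd_two {G : Type*} [Group G] [Finite G] (h : Nat.card G ∣ 2) :
    ChainGroup G := by
  have hcomm : ∀ a b : G, a * b = b * a := by
    rcases (Nat.dvd_prime Nat.prime_two).1 h with h1 | h1
    · intro a b
      have : Subsingleton G := (Nat.card_eq_one_iff_unique.1 h1).1
      exact Subsingleton.elim _ _
    · have : Fact (Nat.Prime 2) := ⟨Nat.prime_two⟩
      have : IsCyclic G := isCyclic_of_prime_card h1
      exact fun a b => (IsCyclic.commGroup (α := G)).mul_comm a b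
  have hnorm : ∀ J : Subgroup G, J.Normal := by
    intro J
    refine ⟨fun n hn g => ?_⟩
    rw [hcomm g n, mul_assoc, mul_inv_cancel, mul_one]
    exact hn
  refine chainGroup_of_normal ⊥ ⊥ (hnorm _) ?_ le_rfl (fun J _ _ => hnorm J) (fun J _ => hnorm J)
  rw [Subgroup.card_bot]
  exact odd_one

end AnWA
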