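import Pool.Agent.H.MP_83e36b_nt.RDefs
import Pool.Agent.H.MP_83e36b_nt.LAssembly
import Pool.Agent.H.MP_83e36b_nt.LBase
import Pool.Agent.H.MP_83e36b_nt.S3
import Pool.Agent.H.MP_83e36b_nt.S6
import Pool.Agent.H.MP_83e36b_nt.C1
import Pool.Agent.H.MP_83e36b_nt.A1b

/-! Module LMain: the main step.

PROOF. X1 = (f.aroots L).toFinset (Galois stable, card n; prod_X_sub_C_aroots C1), Y = X1.image (aeval · p), Galois stable, symmetric, 0 ∉ Y; |Y| even (fixed point free involution y ↦ -y). base_pencil_one (LBase) for Y: q0, h0, P0, t, x00, a, b. inner_exists (S3) for X1, p (odd fibres): c : L → L, D : L → Finset L (|D y| + 1 = size of the fibre over y; GoodCluster; InnerRoot (D (p x)) (c x); c injective on fibres). Apply assembly2 (LAssembly) with ω = 1 and q0,h0,P0,t: I = {y // y ∈ Y} ⊕ Unit, μ (inl y) = aeval y b, μ (inr ()) = x00 (the roots of P0 - t q0; injective), D' (inl y) = D y, D' (inr ()) = ∅ (GoodCluster ∅; InnerRoot ∅ 0: phiVal 1 _ u 0 = 0, Hval = 1), A = {x // x ∈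 X1} ⊕ Unit, cen (inl x) = inl (p x), pos (inl x) = c x, cen (inr ()) = inr (), pos = 0; all a are of the first type (root of P0 - t q0 and InnerRoot). hμq: a root of P0 - t q0 is not a root of q0 (coprime). hμh: f0 = P0 - t q0 is separable (product over distinct roots), f0' q0 - f0 q0' = h0^2 (wr_eq), at a root μ of f0: f0'(μ) q0(μ) = h0(μ)^2 ≠ 0. IsCoprime 1 q0 trivial. hcard: |A| = n + 1, P0.natDegree = q0.natDegree + 1 = |Y| + 1 (pencil_P_one), ∑ |D y| = n - |Y| (fibre count, as h2 in S6.lean). The proof of localU_of_goodPair in S6.lean is the model for all this.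
Output q, h, P, e, r. q0.map divides q.map: q.map = rootPoly (bigX ..) is the product over κ ⊕ Σ; the inl part is ∏ over the roots of q0 = q0.map (rootPoly_aroots S5); so q0 ∣ q (Polynomial.map_dvd_map'), q = q0 * q1, q1 monic (Monic.of_mul_monic_left). NonDeg 1 q by nonDeg_of_map (A1b). x0: r (inr ()) is fixed by all σ: descend_elem (C1): x0 ∈ F, root of P - C t q; g := (P - C t q) /ₘ (X - C x0), (X - C x0) * g = P - C t q, g.map = ∏_{x} (X - C (r (inl x))). Separable: distinct roots. exists_chg (S6) gives ρ with chg n g ρ = f. p0: interp (C1) on the set Y.image (aeval · a) = roots of q0 (function aeval y a ↦ y): aeval (aeval y a) p0 = y; TType L q0 p0: the roots of q0 are the aeval y a, y ∈ Y (q0.map = ∏ ...), the values y are nonzero, symmetric, distinct. q0.natDegree = |Y|.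
-/

open Polynomial Filter Topology

namespace AnWA

section aux

variable {L : Type*} [Field L] [DecidableEq L]

theorem lm_good_empty : GoodCluster (∅ : Finset L) := by
  have hE : IsEmpty {z // z ∈ (∅ : Finset L)} := ⟨fun z => absurd z.2 (Finset.notMem_empty _)⟩
  refine ⟨?_, fun u _ j => hE.elim j⟩
  rw [Matrix.det_isEmpty]
  exact one_ne_zero

theorem lm_inner_empty : InnerRoot (∅ : Finset L) 0 := by
  have hE : IsEmpty {z // z ∈ (∅ : Finset L)} := ⟨fun z => absurd z.2 (Finset.notMem_empty _)⟩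
  refine ⟨Finset.notMem_empty _, fun u _ => ⟨?_, ?_⟩⟩
  · unfold phiVal
    simp
  · unfold Hval
    simp

/-- at a root of a separable member `P - t q` the companion `h` does not vanish -/
theorem lm_h_ne {q h P : L[X]} {t z : L} (H : wr P q = h ^ 2)
    (hs : (P - C t * q).Separable) (hz : (P - C t * q).eval z = 0) (hq : q.eval z ≠ 0) :
    h.eval z ≠ 0 := by
  intro hh
  have h1 : derivative (P - C t * q) * q - (P - C t * q) * derivative q = h ^ 2 := by
    rw [← H]
    unfold wr
    rw [derivative_sub, derivative_C_mul]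
    ring
  have h2 := congrArg (Polynomial.eval z) h1
  rw [eval_sub, eval_mul, eval_mul, eval_pow, hz, hh] at h2
  have h3 : (derivative (P - C t * q)).eval z = 0 := by
    have h4 : (derivative (P - C t * q)).eval z * q.eval z = 0 := by
      rw [zero_mul, sub_zero] at h2
      rw [h2]; ring
    exact (mul_eq_zero.mp h4).resolve_right hq
  have h5 : IsCoprime (P - C t * q) (derivative (P - C t * q)) := hs
  exact eval_ne_zero_of_isCoprime h5 h3 hz

end aux

variable {F L : Type*} [NontriviallyNormedField F] [CharZero F] [NormedField L]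
  [NormedAlgebra F L] [IsAlgClosed L] [IsGalois F L] [DecidableEq L]

theorem main_step (hiso : ∀ (σ : L ≃ₐ[F] L) (x : L), ‖σ x‖ = ‖x‖) {n : ℕ} {f p : F[X]}
    (hf : f.Monic) (hs : f.Separable) (hfn : f.natDegree = n) (hp : OddType L f p) :
    ∃ (q0 q1 p0 h P g ρ : F[X]) (x0 t : F), q0.Monic ∧ q1.Monic ∧ TType L q0 p0 ∧
      q0.natDegree = ((f.aroots L).toFinset.image (fun x => aeval x p)).card ∧
      (q0 * q1).natDegree = n ∧ Pencil 1 (q0 * q1) h P ∧ NonDeg 1 (q0 * q1) ∧
      (X - C x0) * g = P - C t * (q0 * q1) ∧ (P - C t * (q0 * q1)).Separable ∧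
      IsCoprime (P - C t * (q0 * q1)) (q0 * q1) ∧ chg n g ρ = f := by
  have hcL : CharZero L := (RingHom.charZero_iff (algebraMap F L).injective).mp inferInstance
  set X1 := (f.aroots L).toFinset with hX1
  obtain ⟨-, hc1, hst1⟩ := prod_X_sub_C_aroots (L := L) hf hs
  set Y := X1.image (fun x => aeval x p) with hY
  have hmemY : ∀ y, y ∈ Y ↔ ∃ x ∈ X1, aeval x p = y := by
    intro y; rw [hY, Finset.mem_image]
  have hstY : ∀ σ : L ≃ₐ[F] L, ∀ y ∈ Y, σ y ∈ Y := by
    intro σ y hy
    rw [hmemY] at hy ⊢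
    obtain ⟨x, hx, rfl⟩ := hy
    exact ⟨σ x, hst1 σ x hx, by rw [aeval_algHom_apply]⟩
  have hYne : ∀ y ∈ Y, y ≠ 0 := by
    intro y hy
    rw [hmemY] at hy
    obtain ⟨x, hx, rfl⟩ := hy
    exact hp.ne x hx
  have hYneg : ∀ y ∈ Y, -y ∈ Y := by
    intro y hy
    rw [hmemY] at hy ⊢
    obtain ⟨x, hx, rfl⟩ := hy
    exact hp.neg x hx
  have heven : Even Y.card := by
    have h1 : ∑ y ∈ Y, (1 : ZMod 2) = 0 :=
      Finset.sum_involution (fun y _ => -y) (fun y _ => by decide)
        (fun y hy _ h => hYne y hy (self_eq_neg.mp h.symm)) (fun y hy => hYneg y hy)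
        (fun y _ => neg_neg y)
    rw [Finset.sum_const, nsmul_eq_mul, mul_one] at h1
    exact (ZMod.natCast_eq_zero_iff_even).mp h1
  obtain ⟨q0, h0, P0, t, x00, a, b, H0, hnd, hcop, hcopf, hainj, hqa, hbinj, hbx, hfb⟩ :=
    base_pencil_one hiso Y hstY heven
  obtain ⟨c, D, hcσ, hDσ, hDcard, hcinj, hDgood, hcroot⟩ := inner_exists X1 hst1 p hp.odd
  -- the index set of the centres
  let I := {y // y ∈ Y} ⊕ Unit
  let μ : I → L := Sum.elim (fun y => aeval (y : L) b) (fun _ => algebraMap F L x00)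
  let D' : I → Finset L := Sum.elim (fun y => D y) (fun _ => ∅)
  let πY : (L ≃ₐ[F] L) → Equiv.Perm {y // y ∈ Y} := fun σ =>
    { toFun := fun y => ⟨σ y, hstY σ y y.2⟩
      invFun := fun y => ⟨σ.symm y, hstY σ.symm y y.2⟩
      left_inv := fun y => Subtype.ext (σ.symm_apply_apply _)
      right_inv := fun y => Subtype.ext (σ.apply_symm_apply _) }
  let π : (L ≃ₐ[F] L) → Equiv.Perm I := fun σ => Equiv.sumCongr (πY σ) (Equiv.refl Unit)
  let A := {x // x ∈ X1} ⊕ Unit
  have hYmem : ∀ x, x ∈ X1 → aeval x p ∈ Y := fun x hx => (hmemY _).mpr ⟨x, hx, rfl⟩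
  let cen : A → I := Sum.map (fun x => ⟨aeval (x : L) p, hYmem x x.2⟩) id
  let pos : A → L := Sum.elim (fun x => c x) (fun _ => 0)
  let τ : (L ≃ₐ[F] L) → A → A := fun σ => Sum.map (fun x => ⟨σ x, hst1 σ x x.2⟩) id
  have hμinj : Function.Injective μ := by
    rintro (y | ⟨⟩) (y' | ⟨⟩) h
    · have : (y : L) = y' := hbinj y.2 y'.2 h
      rw [Subtype.ext this]
    · exact absurd h (hbx y y.2)
    · exact absurd h.symm (hbx y' y'.2)
    · rfl
  have hfμprod : (P0 - C t * q0).map (algebraMap F L) = rootPoly μ := by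
    rw [hfb]
    unfold rootPoly
    rw [Fintype.prod_sum_type, mul_comm]
    congr 1
    · exact (Finset.prod_coe_sort Y (fun y => (X : L[X]) - C (aeval y b))).symm
    · simp [μ]
  have hf0sep : ((P0 - C t * q0).map (algebraMap F L)).Separable := by
    rw [hfμprod]; exact rootPoly_separable hμinj
  have hfμ' : ∀ i, ((P0 - C t * q0).map (algebraMap F L)).eval (μ i) = 0 := by
    intro i
    rw [hfμprod, eval_rootPoly_eq_zero]
    exact ⟨i, rfl⟩
  have hfμ : ∀ i, aeval (μ i) (P0 - C t * q0) = 0 := by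
    intro i
    rw [← eval_map_algebraMap]
    exact hfμ' i
  have hqμ' : ∀ i, (q0.map (algebraMap F L)).eval (μ i) ≠ 0 := fun i =>
    eval_ne_zero_of_isCoprime (hcopf.symm.map (mapRingHom (algebraMap F L))) (hfμ' i)
  have hwrL : wr (P0.map (algebraMap F L)) (q0.map (algebraMap F L)) =
      (h0.map (algebraMap F L)) ^ 2 := by
    rw [← A1b_wr_map, H0.wr_eq, one_mul, Polynomial.map_pow]
  have hf0map : (P0 - C t * q0).map (algebraMap F L) =
      P0.map (algebraMap F L) - C (algebraMap F L t) * q0.map (algebraMap F L) := by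
    rw [Polynomial.map_sub, Polynomial.map_mul, map_C]
  have hhμ' : ∀ i, (h0.map (algebraMap F L)).eval (μ i) ≠ 0 := by
    intro i
    refine lm_h_ne (t := algebraMap F L t) hwrL ?_ ?_ (hqμ' i)
    · rw [← hf0map]; exact hf0sep
    · rw [← hf0map]; exact hfμ' i
  have hπμ : ∀ σ i, μ (π σ i) = σ (μ i) := by
    rintro σ (y | ⟨⟩)
    · show aeval (σ (y : L)) b = σ (aeval (y : L) b)
      rw [aeval_algHom_apply]
    · show algebraMap F L x00 = σ (algebraMap F L x00)
      rw [AlgEquiv.commutes]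
  have hπD : ∀ σ i, D' (π σ i) = (D' i).image σ := by
    rintro σ (⟨y, hy⟩ | ⟨⟩)
    · show D (σ y) = (D y).image σ
      have hy' := hy
      rw [hmemY] at hy'
      obtain ⟨x, hx, rfl⟩ := hy'
      rw [← hDσ σ x hx, aeval_algHom_apply]
    · show (∅ : Finset L) = (∅ : Finset L).image σ
      rfl
  have hτc : ∀ σ x, cen (τ σ x) = π σ (cen x) := by
    rintro σ (x | ⟨⟩)
    · show Sum.inl _ = Sum.inl _
      congr 1
      apply Subtype.ext
      show aeval (σ (x : L)) p = σ (aeval (x : L) p)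
      rw [aeval_algHom_apply]
    · rfl
  have hτp : ∀ σ x, pos (τ σ x) = σ (pos x) := by
    rintro σ (x | ⟨⟩)
    · exact hcσ σ x x.2
    · show (0 : L) = σ 0
      rw [map_zero]
  have hinj : ∀ x x', cen x = cen x' → pos x = pos x' → x = x' := by
    rintro (x | ⟨⟩) (x' | ⟨⟩) h1 h2
    · have h3 : aeval (x : L) p = aeval (x' : L) p := congrArg Subtype.val (Sum.inl.inj h1)
      exact congrArg Sum.inl (Subtype.ext (hcinj _ x.2 _ x'.2 h3 h2))
    · exact absurd h1 (by simp [cen])
    · exact absurd h1 (by simp [cen])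
    · rfl
  have htype : ∀ x, (aeval (μ (cen x)) (P0 - C t * q0) = 0 ∧ InnerRoot (D' (cen x)) (pos x)) ∨
      (aeval (μ (cen x)) (P0 - C t * q0) ≠ 0 ∧ pos x ∈ D' (cen x)) := by
    intro x
    left
    refine ⟨hfμ _, ?_⟩
    rcases x with x | ⟨⟩
    · exact hcroot x x.2
    · exact lm_inner_empty
  have hDg : ∀ i, GoodCluster (D' i) := by
    rintro (⟨y, hy⟩ | ⟨⟩)
    · have hy' := hy
      rw [hmemY] at hy'
      obtain ⟨x, hx, rfl⟩ := hy'
      exact hDgood x hx
    · exact lm_good_empty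
  have hq0d : q0.natDegree = Y.card := by
    have h1 := congrArg Polynomial.natDegree hqa
    rw [natDegree_map, natDegree_prod_of_monic _ _ (fun i _ => monic_X_sub_C _)] at h1
    rw [h1]
    simp
  obtain ⟨hP0m, hP0d⟩ := pencil_P_one H0
  have hcardA : Fintype.card A = n + 1 := by
    rw [Fintype.card_sum, Fintype.card_coe, hc1, hfn, Fintype.card_unit]
  have hcard : Fintype.card A = P0.natDegree + ∑ i, (D' i).card := by
    have h1 : ∑ i, (D' i).card = ∑ y ∈ Y, (D y).card := by
      rw [Fintype.sum_sum_type]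
      have : ∑ u : Unit, (D' (Sum.inr u)).card = 0 := by simp [D']
      rw [this, add_zero]
      exact Finset.sum_coe_sort Y (fun y => (D y).card)
    have h2 : Y.card + ∑ y ∈ Y, (D y).card = X1.card := by
      rw [Finset.card_eq_sum_card_image (fun x => aeval x p) X1, Finset.card_eq_sum_ones,
        ← Finset.sum_add_distrib]
      refine Finset.sum_congr rfl ?_
      intro y hy
      rw [Finset.mem_image] at hy
      obtain ⟨x, hx, rfl⟩ := hy
      rw [← hDcard x hx, add_comm]
    rw [hcardA, h1, hP0d, hq0d, add_right_comm, h2, hc1, hfn]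
  have hmap1 : (1 : F[X]).map (algebraMap F L) = 1 := Polynomial.map_one _
  obtain ⟨q, h, P, HP, hqnd, hqdeg, hPdeg, hPq, ⟨e, he, heinj, hqmap⟩, r, hrinj, hreq, hfac⟩ :=
    assembly2 hiso (t := t) (Or.inl rfl) H0 (by rw [hmap1]; exact hnd) hcop isCoprime_one_left μ D'
      hμinj
      (by intro i; rw [← eval_map_algebraMap]; exact hqμ' i)
      (by intro i; rw [← eval_map_algebraMap]; exact hhμ' i)
      (by intro i; rw [map_one]; exact one_ne_zero)
      hDg π hπμ hπD cen pos hinj τ hτc hτp htype hcard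
  rw [hmap1] at hqnd
  obtain ⟨hPm, hPd⟩ := pencil_P_one HP
  have hqn : q.natDegree = n := by
    rw [hPd, hcardA] at hPdeg
    omega
  -- `q0` divides `q`
  have hdvd : q0 ∣ q := by
    rw [← Polynomial.map_dvd_map' (algebraMap F L), hqmap,
      ← rootPoly_aroots (L := L) H0.monic H0.sep]
    unfold rootPoly
    rw [Fintype.prod_sum_type]
    exact Dvd.intro _ rfl
  obtain ⟨q1, rfl⟩ := hdvd
  have hq1 : q1.Monic := H0.monic.of_mul_monic_left HP.monic
  -- the rational root
  obtain ⟨x0, hx0⟩ := descend_elem (F := F) (x := r (Sum.inr ())) (fun σ => (hreq σ _).symm)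
  have hfac2 : (P - C t * (q0 * q1)).map (algebraMap F L) =
      (X - C (algebraMap F L x0)) * ∏ x : {x // x ∈ X1}, (X - C (r (Sum.inl x))) := by
    rw [hfac, Fintype.prod_sum_type, mul_comm, hx0]
    simp
  have hroot : (P - C t * (q0 * q1)).IsRoot x0 := by
    have h1 : algebraMap F L ((P - C t * (q0 * q1)).eval x0) = 0 := by
      rw [← Polynomial.eval_map_apply, hfac2, eval_mul]
      simp
    exact (map_eq_zero _).mp h1
  have hg := Polynomial.mul_divByMonic_eq_iff_isRoot.mpr hroot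
  set g := (P - C t * (q0 * q1)) /ₘ (X - C x0) with hgdef
  have hgmap : g.map (algebraMap F L) = ∏ x : {x // x ∈ X1}, (X - C (r (Sum.inl x))) := by
    have h1 := hfac2
    rw [← hg, Polynomial.map_mul, Polynomial.map_sub, map_X, map_C] at h1
    exact mul_left_cancel₀ (X_sub_C_ne_zero _) h1
  obtain ⟨ρ, hρ⟩ := exists_chg (g := g) hf hs hfn (fun x => r (Sum.inl x))
    (fun x x' hxx => Sum.inl.inj (hrinj hxx)) (fun σ x _ => hreq σ (Sum.inl x)) hgmap
  -- the type of `q0`
  have hinv : ∀ y ∈ Y, Function.invFunOn (fun y : L => aeval y a) (Y : Set L) (aeval y a) = y :=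
    fun y hy => hainj.leftInvOn_invFunOn hy
  obtain ⟨p0, -, hp0⟩ := interp (F := F) (Y.image (fun y => aeval y a))
    (by
      intro σ z hz
      rw [Finset.mem_image] at hz ⊢
      obtain ⟨y, hy, rfl⟩ := hz
      exact ⟨σ y, hstY σ y hy, by rw [aeval_algHom_apply]⟩)
    (Function.invFunOn (fun y : L => aeval y a) (Y : Set L))
    (by
      intro σ z hz
      rw [Finset.mem_image] at hz
      obtain ⟨y, hy, rfl⟩ := hz
      rw [← aeval_algHom_apply, hinv y hy]
      exact hinv (σ y) (hstY σ y hy))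
  have hp0' : ∀ y ∈ Y, aeval (aeval y a) p0 = y := by
    intro y hy
    rw [hp0 _ (Finset.mem_image_of_mem _ hy), hinv y hy]
  have hroots : ∀ z, z ∈ (q0.aroots L).toFinset ↔ ∃ y ∈ Y, aeval y a = z := by
    intro z
    rw [Multiset.mem_toFinset, mem_aroots, ← eval_map_algebraMap, hqa, eval_prod,
      Finset.prod_eq_zero_iff]
    constructor
    · rintro ⟨-, y, hy, h1⟩
      rw [eval_sub, eval_X, eval_C, sub_eq_zero] at h1
      exact ⟨y, hy, h1.symm⟩
    · rintro ⟨y, hy, rfl⟩
      exact ⟨H0.monic.ne_zero, y, hy, by simp⟩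
  refine ⟨q0, q1, p0, h, P, g, ρ, x0, t, H0.monic, hq1, ?_, hq0d, hqn, HP, nonDeg_of_map
    (algebraMap F L) (by rw [hmap1]; exact hqnd), hg, ?_, hPq, hρ⟩
  · refine ⟨?_, ?_, ?_⟩
    · intro z hz
      rw [hroots] at hz
      obtain ⟨y, hy, rfl⟩ := hz
      rw [hp0' y hy]
      exact hYne y hy
    · intro z hz
      rw [hroots] at hz
      obtain ⟨y, hy, rfl⟩ := hz
      refine ⟨aeval (-y) a, (hroots _).mpr ⟨-y, hYneg y hy, rfl⟩, ?_⟩
      rw [hp0' y hy, hp0' _ (hYneg y hy)]
    · intro z hz z' hz' hzz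
      have hz1 := (hroots z).mp hz
      have hz2 := (hroots z').mp hz'
      obtain ⟨y, hy, rfl⟩ := hz1
      obtain ⟨y', hy', rfl⟩ := hz2
      have h1 : aeval (aeval y a) p0 = aeval (aeval y' a) p0 := hzz
      rw [hp0' y hy, hp0' y' hy'] at h1
      rw [h1]
  · rw [← separable_map (algebraMap F L), hfac]
    exact rootPoly_separable hrinj

end AnWA
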