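import Pool.Agent.H.MP_83e36b_nt.RDefs
import Pool.Agent.H.MP_83e36b_nt.A3a
import Pool.Agent.H.MP_83e36b_nt.A3b
import Pool.Agent.H.MP_83e36b_nt.S5
import Pool.Agent.H.MP_83e36b_nt.S6
import Pool.Agent.H.MP_83e36b_nt.C1

/-! Module LT: polynomials of type T are reachable.

PROOF. X1 = roots of f (card n), Y = image of p, |Y| = n (injective), symmetric, 0 ∉ Y. n is even (fixed point free involution on Y). G := chg n f p; as in the proof of exists_chg (S6): G.map = ∏_{x∈X1} (X - C (aeval x p)) = ∏_{y∈Y} (X - C y) (chg_map, chg_rootPoly). G.map.comp (-X) = ∏ (-X - y) = (-1)^n ∏ (X - (-y)) = G.map (n even, Y = -Y); so (-1)^j coeff j = coeff j and the odd coefficients of G vanish; G = expand F 2 g with g = ∑ (coeff (2j)) X^j (or Polynomial.contract 2 G; coeff_expand, coeff_contract). g is monic with 2 * natDegree g = n (natDegree_expand, monic_expand_iff). G separable (distinct roots, rootPoly_separable S5). exists_chg (S6): ρ with chg n G ρ = f. Reach.gen _ _ (Reach.base g ..) (by rewriting; f separable).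
-/

open Polynomial Filter Topology

namespace AnWA

variable {F L : Type*} [Field F] [CharZero F] [Field L] [Algebra F L] [IsAlgClosed L]
  [IsGalois F L] [DecidableEq L]

/-- a polynomial whose odd coefficients vanish is even -/
theorem LT_eq_expand {F : Type*} [Field F] (G : F[X]) (h : ∀ j, Odd j → G.coeff j = 0) :
    G = expand F 2 (contract 2 G) := by
  ext j
  rw [coeff_expand (by norm_num : 0 < 2)]
  split_ifs with hj
  · rw [coeff_contract (by norm_num : (2 : ℕ) ≠ 0), Nat.div_mul_cancel hj]
  · exact h j (Nat.not_even_iff_odd.mp (fun he => hj he.two_dvd))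

/-- a monic polynomial with symmetric simple roots, none of them zero, has no odd coefficients -/
theorem LT_odd_coeff {L : Type*} [Field L] {ι : Type*} [Fintype ι] (r : ι → L)
    (hr : Function.Injective r) (hr0 : ∀ a, r a ≠ 0) (hneg : ∀ a, ∃ b, r b = - r a)
    (h2 : (2 : L) ≠ 0) : ∀ j, Odd j → (rootPoly r).coeff j = 0 := by
  have e1 : rootPoly (fun a => - r a) = rootPoly r := by
    refine eq_rootPoly_of_roots (rpMonic _) (rpNatDegree _) hr (fun a => ?_)
    rw [eval_rootPoly_eq_zero]
    obtain ⟨b, hb⟩ := hneg a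
    exact ⟨b, by rw [hb, neg_neg]⟩
  have e2 : (rootPoly r).comp (C (-1) * X) = C ((-1) ^ Fintype.card ι) * rootPoly r := by
    have e3 : (rootPoly r).comp (C (-1) * X)
        = C ((-1) ^ Fintype.card ι) * rootPoly (fun a => - r a) := by
      unfold rootPoly
      rw [Polynomial.prod_comp, C_pow, ← Finset.card_univ, ← Finset.prod_const,
        ← Finset.prod_mul_distrib]
      refine Finset.prod_congr rfl (fun a _ => ?_)
      simp only [sub_comp, X_comp, C_comp, map_neg, map_one]
      ring
    rw [e3, e1]
  have e4 : ∀ j, (rootPoly r).coeff j * (-1) ^ j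
      = (-1) ^ Fintype.card ι * (rootPoly r).coeff j := by
    intro j
    have h9 : ((rootPoly r).comp (C (-1) * X)).coeff j
        = (C ((-1) ^ Fintype.card ι) * rootPoly r).coeff j := by rw [e2]
    rw [comp_C_mul_X_coeff, coeff_C_mul] at h9
    exact h9
  have hc0 : (rootPoly r).coeff 0 ≠ 0 := by
    rw [coeff_zero_eq_eval_zero]
    intro h
    obtain ⟨a, ha⟩ := eval_rootPoly_eq_zero.mp h
    exact hr0 a ha.symm
  have e5 : (-1 : L) ^ Fintype.card ι = 1 := by
    have := e4 0
    rw [pow_zero, mul_one] at this
    exact (mul_right_cancel₀ hc0 (by rw [one_mul]; exact this)).symm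
  intro j hj
  have e6 := e4 j
  rw [e5, hj.neg_one_pow, one_mul, mul_neg_one] at e6
  have e7 : 2 * (rootPoly r).coeff j = 0 := by linear_combination -e6
  exact (mul_eq_zero.mp e7).resolve_left h2

theorem reach_of_tType {n : ℕ} {f p : F[X]} (hf : f.Monic) (hs : f.Separable)
    (hfn : f.natDegree = n) (h : TType L f p) : Reach n f := by
  classical
  obtain ⟨h1, h2, h3⟩ := prod_X_sub_C_aroots (L := L) hf hs
  let r : {x // x ∈ (f.aroots L).toFinset} → L := fun a => aeval (a : L) p
  have hr : Function.Injective r := fun a b hab => Subtype.ext (h.inj a.2 b.2 hab)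
  have hcardA : Fintype.card {x // x ∈ (f.aroots L).toFinset} = n := by
    rw [Fintype.card_coe, h2, hfn]
  let e : Fin n ≃ {x // x ∈ (f.aroots L).toFinset} := (Fintype.equivFinOfCardEq hcardA).symm
  -- the polynomial with the roots `aeval x p`
  set G := chg n f p with hG
  have hfr : f.map (algebraMap F L) = rootPoly (Subtype.val ∘ e) := by
    rw [← h1]
    unfold rootPoly
    rw [← Finset.prod_coe_sort (f.aroots L).toFinset (fun x => (X : L[X]) - C x)]
    exact (Equiv.prod_comp e (fun a => (X - C (a : L)))).symm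
  have hGr : G.map (algebraMap F L) = rootPoly (r ∘ e) := by
    rw [hG, chg_map, hfr, chg_rootPoly _ (Subtype.val_injective.comp e.injective)]
    congr 1
    funext i
    show eval ((e i : _) : L) (p.map (algebraMap F L)) = aeval ((e i : _) : L) p
    rw [eval_map_algebraMap]
  have hcL : CharZero L := (RingHom.charZero_iff (algebraMap F L).injective).mp inferInstance
  have hodd : ∀ j, Odd j → G.coeff j = 0 := by
    intro j hj
    have h5 := LT_odd_coeff (r ∘ e) (hr.comp e.injective)
      (fun i => h.ne _ (e i).2)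
      (fun i => by
        obtain ⟨x', hx', hx⟩ := h.neg _ (e i).2
        refine ⟨e.symm ⟨x', hx'⟩, ?_⟩
        show r (e (e.symm ⟨x', hx'⟩)) = - r (e i)
        rw [Equiv.apply_symm_apply]
        exact hx)
      two_ne_zero j hj
    rw [← hGr, coeff_map] at h5
    exact (map_eq_zero _).mp h5
  have hGe := LT_eq_expand G hodd
  obtain ⟨hGm, hGd⟩ := chg_monic n f p
  have hGs : G.Separable := by
    rw [← separable_map (algebraMap F L), hGr]
    exact rootPoly_separable (hr.comp e.injective)
  have hbase : Reach n G := by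
    rw [hGe]
    refine Reach.base _ ?_ ?_ ?_
    · rw [← monic_expand_iff (by norm_num : 0 < 2), ← hGe]; exact hGm
    · rw [mul_comm, ← natDegree_expand, ← hGe]; exact hGd
    · rw [← hGe]; exact hGs
  obtain ⟨ρ, hρ⟩ := exists_chg (g := G) hf hs hfn r hr
    (fun σ a _ => by
      show aeval (σ (a : L)) p = σ (aeval (a : L) p)
      rw [aeval_algHom_apply])
    (by
      rw [hGr]
      unfold rootPoly
      exact Equiv.prod_comp e (fun a => (X - C (r a))))
  rw [← hρ]
  exact Reach.gen _ _ hbase (by rw [hρ]; exact hs)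

end AnWA
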