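import Pool.Agent.H.MP_83e36b_nt.RDefs
import Pool.Agent.H.MP_83e36b_nt.LGroup
import Pool.Agent.H.MP_83e36b_nt.F1a

/-! Module LUltra: Galois groups in odd residue characteristic.

PROOF. Apply chainGroup_of_normal (LGroup) with P = F1aP hna hiso, I = F1aI hna hiso (F1a.lean: F1aP_normal, F1aI_normal). |P| is a power of p (F1aP_isPGroup, IsPGroup.iff_card) hence odd. P ≤ I: σ ∈ P, ‖x‖ ≤ 1: for x ≠ 0 ‖σx-x‖ < ‖x‖ ≤ 1. h2: for I ≤ J, σ ∈ J, τ: τ σ τ⁻¹ = (commutator) σ and commutators are in I (F1a_commutator_mem_I). h1: P ≤ J ≤ I, σ ∈ J, τ ∈ G: we find a natural number a with τ σ τ⁻¹ ∈ σ^a P (then τστ⁻¹ ∈ J). Work modulo ‖·‖ < 1 on elements of norm 1. For x ≠ 0 put χ_σ(x) = σ(x)/x (norm 1). (i) σ^a(x)/x ≡ (σ(x)/x)^a for σ ∈ I: induction, σ^{a+1}(x)/x = σ(σ^a(x)/x) * (σ(x)/x) and σ(u) ≡ u for ‖u‖ ≤ 1. (ii) with y = τ⁻¹x: τστ⁻¹(x)/x = τ(σ(y)/y); and σ(y)/y ≡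 σ(x)/x because u = y/x has norm 1 and σ(u) ≡ u, so σ(u)/u ≡ 1 (norm of u is 1). (iii) The residue field k = F1aO E hna ⧸ F1aM E hna is finite (F1a_finite_residue), kˣ is cyclic with generator g, τ induces an endomorphism of k (F1aAct, Ideal.quotientMap, see F1a_comm_G), τ(g) = g^a for some a (a natural number, as kˣ is finite), so τ(u) ≡ u^a for every u of norm 1; a depends only on τ. So τστ⁻¹(x)/x ≡ τ(σ(x)/x) ≡ (σ(x)/x)^a ≡ σ^a(x)/x, i.e. ‖τστ⁻¹(x) - σ^a(x)‖ < ‖x‖ for all x ≠ 0, hence (σ^a)⁻¹ τστ⁻¹ ∈ P (apply (σ^a)⁻¹, an isometry).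
-/

open Polynomial

namespace AnWA

section LUltra

variable {F E : Type*} [NontriviallyNormedField F] [NormedField E]
    [NormedAlgebra F E]

/-- an endomorphism of a finite field is a power map -/
theorem LU_pow_finite {K : Type*} [Field K] [Finite K] (α : K →+* K) :
    ∃ a : ℕ, ∀ x : K, x ≠ 0 → α x = x ^ a := by
  obtain ⟨g, hg⟩ := IsCyclic.exists_generator (α := Kˣ)
  have h1 : Units.map (α : K →* K) g ∈ Submonoid.powers g := by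
    rw [mem_powers_iff_mem_zpowers]
    exact hg _
  obtain ⟨a, ha⟩ := (Submonoid.mem_powers_iff _ _).1 h1
  refine ⟨a, fun x hx => ?_⟩
  obtain ⟨c, hc⟩ := Subgroup.mem_zpowers_iff.1 (hg (Units.mk0 x hx))
  have h2 : Units.map (α : K →* K) (Units.mk0 x hx) = (Units.mk0 x hx) ^ a := by
    rw [← hc, map_zpow, ← ha, ← zpow_natCast, ← zpow_natCast, ← zpow_mul, ← zpow_mul, mul_comm]
  have h3 := congrArg Units.val h2
  simpa using h3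

theorem LU_frob (hna : ∀ x y : E, ‖x + y‖ ≤ max ‖x‖ ‖y‖)
    [FiniteDimensional F E] [IsGalois F E]
    (hiso : ∀ (σ : E ≃ₐ[F] E) (x : E), ‖σ x‖ = ‖x‖)
    (hres : ∃ s : Finset F, ∀ x : F, ‖x‖ ≤ 1 → ∃ y ∈ s, ‖x - y‖ < 1)
    (τ : E ≃ₐ[F] E) : ∃ a : ℕ, ∀ u : E, ‖u‖ = 1 → ‖τ u - u ^ a‖ < 1 := by
  have := F1aM_max (E := E) hna
  have := F1a_finite_residue hna hiso hres
  let : Field (F1aO E hna ⧸ F1aM E hna) := Ideal.Quotient.field _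
  have hle : F1aM E hna ≤ (F1aM E hna).comap (F1aAct hna hiso τ) := by
    intro y hy
    change ‖τ (y : E)‖ < 1
    rw [hiso]
    exact hy
  let a : (F1aO E hna ⧸ F1aM E hna) →+* (F1aO E hna ⧸ F1aM E hna) :=
    Ideal.quotientMap _ (F1aAct hna hiso τ) hle
  obtain ⟨m, hm⟩ := LU_pow_finite a
  refine ⟨m, fun u hu => ?_⟩
  have hu0 : (Ideal.Quotient.mk (F1aM E hna) ⟨u, hu.le⟩) ≠ 0 := by
    intro h0
    rw [Ideal.Quotient.eq_zero_iff_mem] at h0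
    have h1 : ‖u‖ < 1 := h0
    rw [hu] at h1
    exact lt_irrefl _ h1
  have h1 := hm _ hu0
  simp only [a, Ideal.quotientMap_mk] at h1
  rw [← map_pow, Ideal.Quotient.eq] at h1
  exact h1

theorem LU_pow (hna : ∀ x y : E, ‖x + y‖ ≤ max ‖x‖ ‖y‖)
    (hiso : ∀ (σ : E ≃ₐ[F] E) (x : E), ‖σ x‖ = ‖x‖) {σ : E ≃ₐ[F] E}
    (hσ : σ ∈ F1aI hna hiso) {x : E} (hx : x ≠ 0) (a : ℕ) :
    ‖(σ ^ a) x / x - (σ x / x) ^ a‖ < 1 := by
  have hxn : 0 < ‖x‖ := norm_pos_iff.2 hx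
  have hw : ‖σ x / x‖ = 1 := by rw [norm_div, hiso, div_self hxn.ne']
  induction a with
  | zero => simp [hx]
  | succ a ih =>
    have hv : ‖(σ ^ a) x / x‖ = 1 := by rw [norm_div, hiso, div_self hxn.ne']
    have h1 : (σ ^ (a + 1)) x / x = σ ((σ ^ a) x / x) * (σ x / x) := by
      have hsx : σ x ≠ 0 := by simpa using hx
      rw [pow_succ', AlgEquiv.mul_apply, map_div₀]
      field_simp
    rw [h1]
    refine F1a_tri hna (y := (σ ^ a) x / x * (σ x / x)) ?_ ?_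
    · rw [← sub_mul, norm_mul, hw, mul_one]
      exact hσ _ hv.le
    · rw [pow_succ, ← sub_mul, norm_mul, hw, mul_one]
      exact ih

theorem LU_conj (hna : ∀ x y : E, ‖x + y‖ ≤ max ‖x‖ ‖y‖)
    [FiniteDimensional F E] [IsGalois F E]
    (hiso : ∀ (σ : E ≃ₐ[F] E) (x : E), ‖σ x‖ = ‖x‖)
    (hres : ∃ s : Finset F, ∀ x : F, ‖x‖ ≤ 1 → ∃ y ∈ s, ‖x - y‖ < 1)
    {σ : E ≃ₐ[F] E} (hσ : σ ∈ F1aI hna hiso) (τ : E ≃ₐ[F] E) :
    ∃ a : ℕ, (σ ^ a)⁻¹ * (τ * σ * τ⁻¹) ∈ F1aP hna hiso := by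
  obtain ⟨a, ha⟩ := LU_frob hna hiso hres τ
  refine ⟨a, fun x hx => ?_⟩
  have hxn : 0 < ‖x‖ := norm_pos_iff.2 hx
  set y : E := (τ⁻¹ : E ≃ₐ[F] E) x with hy
  have hτy : τ y = x := by
    rw [hy, ← AlgEquiv.mul_apply, mul_inv_cancel, AlgEquiv.one_apply]
  have hyn : ‖y‖ = ‖x‖ := by rw [hy, hiso]
  have hy0 : y ≠ 0 := by
    rw [← norm_pos_iff, hyn]
    exact hxn
  have hw : ‖σ x / x‖ = 1 := by rw [norm_div, hiso, div_self hxn.ne']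
  -- `σ y / y` is congruent to `σ x / x`
  have h1 : ‖σ y / y - σ x / x‖ < 1 := by
    have hu : ‖y / x‖ = 1 := by rw [norm_div, hyn, div_self hxn.ne']
    have hu0 : y / x ≠ 0 := div_ne_zero hy0 hx
    have h2 : σ y / y - σ x / x = (σ x / x) * ((σ (y / x) - y / x) / (y / x)) := by
      have hsx : σ x ≠ 0 := by simpa using hx
      rw [map_div₀]
      field_simp
    rw [h2, norm_mul, hw, one_mul, norm_div, hu, div_one]
    exact hσ _ hu.le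
  have h3 : (τ * σ * τ⁻¹) x / x = τ (σ y / y) := by
    rw [map_div₀, hτy]
    rfl
  have h4 : ‖(τ * σ * τ⁻¹) x / x - (σ ^ a) x / x‖ < 1 := by
    rw [h3]
    refine F1a_tri hna (y := τ (σ x / x)) ?_ ?_
    · rw [← map_sub, hiso]
      exact h1
    · refine F1a_tri hna (y := (σ x / x) ^ a) (ha _ hw) ?_
      rw [norm_sub_rev]
      exact LU_pow hna hiso hσ hx a
  rw [← sub_div, norm_div, div_lt_one hxn] at h4
  have h5 : ‖((σ ^ a)⁻¹ * (τ * σ * τ⁻¹)) x - x‖ = ‖(τ * σ * τ⁻¹) x - (σ ^ a) x‖ := by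
    rw [← hiso (σ ^ a), map_sub, ← AlgEquiv.mul_apply, mul_inv_cancel_left]
  rw [h5]
  exact h4

end LUltra

theorem chain_of_ultrametric {F E : Type*} [NontriviallyNormedField F] [NormedField E]
    [NormedAlgebra F E] [FiniteDimensional F E] [IsGalois F E]
    (hna : ∀ x y : E, ‖x + y‖ ≤ max ‖x‖ ‖y‖) (hiso : ∀ (σ : E ≃ₐ[F] E) (x : E), ‖σ x‖ = ‖x‖)
    {p : ℕ} (hp : p.Prime) (hp2 : p ≠ 2) (hp1 : ‖(p : F)‖ < 1)
    (hres : ∃ s : Finset F, ∀ x : F, ‖x‖ ≤ 1 → ∃ y ∈ s, ‖x - y‖ < 1) :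
    ChainGroup (E ≃ₐ[F] E) := by
  have hp1' : ‖(p : E)‖ < 1 := by
    rw [← map_natCast (algebraMap F E), norm_algebraMap']
    exact hp1
  refine chainGroup_of_normal (F1aP hna hiso) (F1aI hna hiso) (F1aP_normal hna hiso) ?_ ?_ ?_ ?_
  · have : Fact p.Prime := ⟨hp⟩
    obtain ⟨n, hn⟩ := IsPGroup.iff_card.1 (F1aP_isPGroup hna hiso hp hp1')
    rw [hn]
    exact (hp.odd_of_ne_two hp2).pow
  · intro σ hσ x hx
    by_cases hx0 : x = 0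
    · simp [hx0]
    · exact lt_of_lt_of_le (hσ x hx0) hx
  · intro J hPJ hJI
    refine ⟨fun σ hσ τ => ?_⟩
    obtain ⟨a, ha⟩ := LU_conj hna hiso hres (hJI hσ) τ
    have h1 : τ * σ * τ⁻¹ = σ ^ a * ((σ ^ a)⁻¹ * (τ * σ * τ⁻¹)) := by group
    rw [h1]
    exact J.mul_mem (J.pow_mem hσ a) (hPJ ha)
  · intro J hIJ
    refine ⟨fun σ hσ τ => ?_⟩
    have h1 := F1a_commutator_mem_I hna hiso hres σ τ⁻¹
    have h2 : τ * σ * τ⁻¹ = σ * ((τ⁻¹ * σ)⁻¹ * (σ * τ⁻¹)) := by group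
    rw [h2]
    exact J.mul_mem hσ (hIJ h1)

end AnWA
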