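import Pool.Agent.H.MP_83e36b_nt.RDefs
import Pool.Agent.H.MP_83e36b_nt.A2_Res
import Pool.Agent.H.MP_83e36b_nt.A2b
import Pool.Agent.H.MP_83e36b_nt.A3b

/-! Module RDisc: discriminant of g(X^2).

PROOF. m = deg g, f = expand 2 g = g(X^2), monic of degree 2m. derivative f = 2 X * expand 2 (derivative g) (derivative_expand). With A2_Res (resultants with monic first argument): (-1)^(2m(2m-1)/2) disc f = Res(f,f') = Res(f,C 2) Res(f,X) Res(f, expand 2 g') = 2^(2m) * (-1)^(2m) f(0) * Res(f, expand 2 g'), f(0) = g(0). Claim Res(expand 2 g, expand 2 r) = Res(g,r)^2 for g monic; and Res(g,g') = (-1)^(m(m-1)/2) disc g. Sign: (-1)^(m(2m-1)) = (-1)^m. So disc f = (-1)^m 4^m g(0) disc(g)^2. The claim: pass to the algebraic closure (resultant_map, discr_map in A2b), g = ∏ (X - a_i); there is Mathlib's formula for the resultant as a product over the roots (Polynomial.resultant_eq_prod_eval or similar); choose b_i with b_i^2 = a_i: f = ∏ (X^2 - a_i) = ∏ (X-b_i)(X+b_i), and (expand 2 r)(±b_i) = r(a_i). Alternative: over the closure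 use discr_rootPoly (A3b, Vandermonde squares) for f and g directly: roots b_i, -b_i: ∏_{i<j} ((b_i-b_j)(b_i+b_j))^4 ∏ (2b_i)^2 = ∏ (a_i-a_j)^4 ∏ 4 a_i and g(0) = (-1)^m ∏ a_i.
-/

open Polynomial

namespace AnWA

/-- multiplicativity in the first (monic) argument -/
theorem RDisc_mul_left {R : Type*} [CommRing R] [Nontrivial R] {f₁ f₂ : R[X]} (h₁ : f₁.Monic)
    (h₂ : f₂.Monic) (g : R[X]) :
    (f₁ * f₂).resultant g = f₁.resultant g * f₂.resultant g := by
  have h := resultant_mul_left f₁ f₂ g g.natDegree le_rfl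
  rw [← h₁.natDegree_mul h₂] at h
  exact h

theorem RDisc_sq {L : Type*} [Field L] [IsAlgClosed L] (r : L[X]) (s : Multiset L) :
    (expand L 2 (s.map fun a => X - C a).prod).resultant (expand L 2 r) =
      ((s.map fun a => X - C a).prod.resultant r) ^ 2 := by
  induction s using Multiset.induction_on with
  | empty => simp
  | cons a s ih =>
    rw [Multiset.map_cons, Multiset.prod_cons, map_mul]
    have hm : (s.map fun a => X - C a).prod.Monic := monic_multiset_prod_of_monic _ _
      fun i _ => monic_X_sub_C i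
    have hme : (expand L 2 (s.map fun a => X - C a).prod).Monic :=
      hm.expand (by norm_num)
    obtain ⟨b, hb⟩ := IsAlgClosed.exists_pow_nat_eq a (n := 2) (by norm_num)
    have h1 : expand L 2 (X - C a) = (X - C b) * (X - C (-b)) := by
      rw [map_sub, expand_X, expand_C, ← hb, C_pow, C_neg]
      ring
    have hev : ∀ c : L, c ^ 2 = a → (X - C c).resultant (expand L 2 r) = r.eval a := by
      intro c hc
      have h := resultant_X_sub_C_left (g := expand L 2 r) (expand L 2 r).natDegree c le_rfl
      rw [expand_eval, hc] at h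
      rw [natDegree_X_sub_C]
      exact h
    have hev' : (X - C a).resultant r = r.eval a := by
      have h := resultant_X_sub_C_left (g := r) r.natDegree a le_rfl
      rw [natDegree_X_sub_C]
      exact h
    rw [RDisc_mul_left ((monic_X_sub_C a).expand (by norm_num)) hme, ih,
      RDisc_mul_left (monic_X_sub_C a) hm, h1,
      RDisc_mul_left (monic_X_sub_C b) (monic_X_sub_C (-b)), hev b hb,
      hev (-b) (by rw [neg_sq, hb]), hev']
    ring

theorem RDisc_res {K : Type*} [Field K] {g : K[X]} (hg : g.Monic) (r : K[X]) :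
    (expand K 2 g).resultant (expand K 2 r) = (g.resultant r) ^ 2 := by
  let φ : K →+* AlgebraicClosure K := algebraMap K (AlgebraicClosure K)
  apply φ.injective
  rw [map_pow, ← resultant_map, ← resultant_map, map_expand, map_expand]
  have hs : (g.map φ).Splits := IsAlgClosed.splits _
  have hgm : (g.map φ).Monic := hg.map φ
  have h := hs.eq_prod_roots
  rw [hgm.leadingCoeff, C_1, one_mul] at h
  rw [h]
  exact RDisc_sq _ _

theorem discr_expand_two {K : Type*} [Field K] [CharZero K] {g : K[X]} (hg : g.Monic)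
    (hd : 0 < g.natDegree) :
    (expand K 2 g).discr = (-4) ^ g.natDegree * g.eval 0 * g.discr ^ 2 := by
  have hf : (expand K 2 g).Monic := hg.expand (by norm_num)
  have hder : derivative (expand K 2 g) = C 2 * (X * expand K 2 (derivative g)) := by
    rw [derivative_expand, map_ofNat C 2]
    norm_num
    ring
  have h1 := res_deriv hf
  rw [hder, res_mul hf, res_mul hf, res_C, res_X hf, RDisc_res hg, res_deriv hg,
    natDegree_expand, expand_eval] at h1
  norm_num at h1
  generalize hm : g.natDegree = m at *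
  have e1 : ((-1 : K)) ^ (m * 2) = 1 := by rw [mul_comm, pow_mul]; norm_num
  have e2 : ((-1 : K)) ^ (m * (m - 1) / 2) * (-1) ^ (m * (m - 1) / 2) = 1 := by
    rw [← mul_pow]; norm_num
  have e3 : m * 2 * (m * 2 - 1) / 2 = m * (m * 2 - 1) := by
    rw [mul_comm m 2, mul_assoc, Nat.mul_div_cancel_left _ (by norm_num)]
  have e4 : ((-1 : K)) ^ (m * (m * 2 - 1)) = (-1) ^ m := by
    obtain ⟨k, rfl⟩ := Nat.exists_eq_succ_of_ne_zero hd.ne'
    have : (k + 1) * ((k + 1) * 2 - 1) = 2 * ((k + 1) * k) + (k + 1) := by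
      have : (k + 1) * 2 - 1 = 2 * k + 1 := by omega
      rw [this]; ring
    rw [Nat.succ_eq_add_one, this, pow_add, pow_mul]
    norm_num
  have e5 : ((-4 : K)) ^ m = (-1) ^ m * 2 ^ (m * 2) := by
    rw [mul_comm m 2, pow_mul, ← mul_pow]; norm_num
  have e6 : ((-1 : K)) ^ m * (-1) ^ m = 1 := by
    rw [← mul_pow]; norm_num
  rw [e3, e4] at h1
  rw [e5]
  generalize (expand K 2 g).discr = F at *
  linear_combination (-(-1 : K) ^ m) * h1 - F * e6 +
    ((-1 : K) ^ m * 2 ^ (m * 2) * eval 0 g * g.discr ^ 2) * e2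

end AnWA
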