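import Pool.Agent.H.MP_83e36b_nt.RDefs
import Pool.Agent.H.MP_83e36b_nt.RSeq
import Pool.Agent.H.MP_83e36b_nt.RDisc
import Pool.Agent.H.MP_83e36b_nt.A4
import Pool.Agent.H.MP_83e36b_nt.H1b

/-! Module RBase: approximation for even polynomials.

PROOF. m = n/2 ≥ 1. Let y be valid. discr_expand_two: φ c (-4)^m g_i(0) discr(g_i)^2 = y_i^2 ≠ 0, so c ≠ 0 and discr g_i ≠ 0. W_i := y_i / discr (g_i): φ c (-4)^m g_i(0) = W_i^2. exists_seq (H1b): W^N → W_i; exists_seq_monic: A^N monic of degree m over k → g_i. G^N := A^N - C (A^N.coeff 0) + C ((W^N)^2/(c (-4)^m)): monic of degree m (m ≥ 1), converges to g_i (the coefficient 0 converges to W_i^2/(φ c (-4)^m) = g_i(0)). f^N := expand k 2 G^N (map_expand, coeff_expand: converges coefficientwise to expand 2 (g_i)), z^N := W^N * discr (G^N) → W_i discr g_i = y_i (PolyTendsto.discr, discr_map). c * discr f^N = c (-4)^m G^N(0) discr(G^N)^2 = (z^N)^2. natDegree_expand, Monic.expand. z^N ≠ 0 eventually at one place. App.of_seq.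
-/

open Polynomial Filter Topology

namespace AnWA

theorem AppAll.base {k : Type*} [Field k] [CharZero k] {ι : Type*} [Finite ι] [Nonempty ι]
    {K : ι → Type*} [∀ i, NormedField (K i)] [∀ i, CharZero (K i)] {φ : ∀ i, k →+* K i}
    (hWA : FieldWA φ) {c : k} {n : ℕ} (hn : 0 < n) (g : ∀ i, (K i)[X])
    (hg : ∀ i, (g i).Monic) (hgn : ∀ i, 2 * (g i).natDegree = n) :
    AppAll c n φ (fun i => expand (K i) 2 (g i)) := by
  intro y hy
  obtain ⟨i0⟩ := ‹Nonempty ι›
  obtain ⟨m, hm⟩ : ∃ m, m = (g i0).natDegree := ⟨_, rfl⟩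
  have hgm : ∀ i, (g i).natDegree = m := fun i => by
    have h1 := hgn i
    have h2 := hgn i0
    omega
  have hm0 : 0 < m := by
    have h2 := hgn i0
    omega
  have hid : ∀ i, φ i c * ((-4) ^ m * (g i).eval 0 * (g i).discr ^ 2) = y i ^ 2 := by
    intro i
    have h1 := (hy i).2.2.1
    rw [discr_expand_two (hg i) (by rw [hgm]; exact hm0), hgm] at h1
    exact h1
  have hne : ∀ i, φ i c * ((-4) ^ m * (g i).eval 0 * (g i).discr ^ 2) ≠ 0 := fun i => by
    rw [hid i]
    exact pow_ne_zero 2 (hy i).2.2.2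
  have hD : ∀ i, (g i).discr ≠ 0 := fun i h => hne i (by rw [h]; ring)
  have hc : c ≠ 0 := fun h => hne i0 (by rw [h, map_zero, zero_mul])
  have hφc : ∀ i, φ i c ≠ 0 := fun i => (map_ne_zero (φ i)).2 hc
  have h4 : ((-4 : k)) ^ m ≠ 0 := pow_ne_zero _ (by norm_num)
  have h4i : ∀ i, ((-4 : K i)) ^ m ≠ 0 := fun i => pow_ne_zero _ (by norm_num)
  obtain ⟨W, hWdef⟩ : ∃ W : ∀ i, K i, ∀ i, W i = y i / (g i).discr := ⟨_, fun i => rfl⟩
  have hWy : ∀ i, W i * (g i).discr = y i := fun i => by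
    rw [hWdef, div_mul_cancel₀ _ (hD i)]
  have hW : ∀ i, (g i).eval 0 = W i ^ 2 / (φ i c * (-4) ^ m) := by
    intro i
    rw [eq_div_iff (mul_ne_zero (hφc i) (h4i i))]
    have h1 := hid i
    rw [← hWy i] at h1
    have h2 : ((g i).eval 0 * (φ i c * (-4) ^ m)) * (g i).discr ^ 2
        = W i ^ 2 * (g i).discr ^ 2 := by
      rw [← mul_pow, ← h1]
      ring
    exact mul_right_cancel₀ (pow_ne_zero 2 (hD i)) h2
  obtain ⟨w, hw⟩ := exists_seq hWA W
  obtain ⟨A, hA, hAt⟩ := exists_seq_monic hWA m g (fun i => ⟨hg i, hgm i⟩)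
  obtain ⟨G, hGdef⟩ : ∃ G : ℕ → k[X], ∀ N, G N =
      A N - C ((A N).coeff 0) + C ((w N) ^ 2 / (c * (-4) ^ m)) := ⟨_, fun N => rfl⟩
  have hGC : ∀ N, G N = A N + C ((w N) ^ 2 / (c * (-4) ^ m) - (A N).coeff 0) := by
    intro N
    rw [hGdef, C_sub]
    ring
  have hdA : ∀ N, 0 < (A N).degree := fun N => by
    rw [← natDegree_pos_iff_degree_pos, (hA N).2]
    exact hm0
  have hGm : ∀ N, (G N).Monic ∧ (G N).natDegree = m := by
    intro N
    rw [hGC]
    refine ⟨(hA N).1.add_of_left (lt_of_le_of_lt degree_C_le (hdA N)), ?_⟩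
    rw [natDegree_add_C, (hA N).2]
  have hG0 : ∀ N, (G N).eval 0 = (w N) ^ 2 / (c * (-4) ^ m) := by
    intro N
    rw [hGdef, eval_add, eval_sub, eval_C, eval_C, coeff_zero_eq_eval_zero]
    ring
  have hw2 : ∀ i, Tendsto (fun N => φ i ((w N) ^ 2 / (c * (-4) ^ m))) atTop
      (𝓝 ((g i).eval 0)) := by
    intro i
    rw [hW i]
    have h1 : (fun N => φ i ((w N) ^ 2 / (c * (-4) ^ m))) =
        fun N => (φ i (w N)) ^ 2 / (φ i c * (-4) ^ m) := by
      funext N
      rw [map_div₀, map_pow, map_mul, map_pow, map_neg, map_ofNat]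
    rw [h1]
    exact ((hw i).pow 2).div_const _
  have hGt : ∀ i, PolyTendsto atTop (fun N => (G N).map (φ i)) (g i) := by
    intro i j
    have h1 : ∀ N, ((G N).map (φ i)).coeff j =
        if j = 0 then φ i ((w N) ^ 2 / (c * (-4) ^ m)) else ((A N).map (φ i)).coeff j := by
      intro N
      rw [hGdef, coeff_map, coeff_add, coeff_sub, coeff_C, coeff_C, coeff_map]
      split_ifs with h
      · subst h
        rw [sub_self, zero_add]
      · rw [sub_zero, add_zero]
    simp only [h1]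
    split_ifs with h
    · subst h
      rw [coeff_zero_eq_eval_zero]
      exact hw2 i
    · exact hAt i j
  have hGd : ∀ i, Tendsto (fun N => φ i (G N).discr) atTop (𝓝 (g i).discr) := by
    intro i
    have h1 : (fun N => φ i (G N).discr) = fun N => ((G N).map (φ i)).discr := by
      funext N
      rw [discr_map]
    rw [h1]
    refine (hGt i).discr (Eventually.of_forall fun N => (hGm N).1.map _) (hg i)
      (Eventually.of_forall fun N => ?_)
    rw [(hGm N).1.natDegree_map, (hGm N).2, hgm]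
  have hz : ∀ i, Tendsto (fun N => φ i (w N * (G N).discr)) atTop (𝓝 (y i)) := by
    intro i
    simp only [map_mul]
    rw [← hWy i]
    exact (hw i).mul (hGd i)
  refine App.of_seq (fun i => ⟨(hy i).1, (hy i).2.1⟩) (fun N => expand k 2 (G N))
    (fun N => w N * (G N).discr) ?_ ?_ hz
  · have hev : ∀ᶠ N in atTop, w N * (G N).discr ≠ 0 := by
      have h1 : ∀ᶠ N in atTop, φ i0 (w N * (G N).discr) ≠ 0 :=
        (hz i0).eventually_ne (hy i0).2.2.2
      filter_upwards [h1] with N hN h0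
      exact hN (by rw [h0, map_zero])
    filter_upwards [hev] with N hN
    refine ⟨(hGm N).1.expand (by norm_num), ?_, ?_, hN⟩
    · rw [natDegree_expand, (hGm N).2]
      have := hgn i0
      omega
    · rw [discr_expand_two (hGm N).1 (by rw [(hGm N).2]; exact hm0), (hGm N).2, hG0 N]
      field_simp
  · intro i j
    simp only [map_expand, coeff_expand (show 0 < 2 by norm_num)]
    split_ifs
    · exact hGt i _
    · exact tendsto_const_nhds

end AnWA
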