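import Pool.Agent.H.MP_83e36b_nt.RDefs
import Pool.Agent.H.MP_83e36b_nt.RSeq
import Pool.Agent.H.MP_83e36b_nt.A3a
import Pool.Agent.H.MP_83e36b_nt.A3b
import Pool.Agent.H.MP_83e36b_nt.A2b
import Pool.Agent.H.MP_83e36b_nt.H1b

/-! Module RChg: AppAll is stable under changes of generator.

PROOF. Let y be valid for g i = chg n (f i) (ρ i). discr_chg (A3b): discr (g i) = discr (f i) * D_i^2 with D_i = chgDet n (f i) (ρ i). Since φ c * discr(g i) = y_i^2 ≠ 0, D_i ≠ 0. Put w_i = y_i / D_i: then φ c * discr (f i) = w_i^2, w_i ≠ 0, so Valid c n φ f w; h w gives App c n φ f w and App.seq (RSeq) gives G N, Z N (all N: monic, degree n, c*discr = Z^2, Z≠0; G N → f i, Z N → w_i). Let d ≥ all natDegree (ρ i) (finite ι, as in H1.lean). exists_seq_poly (H1b): R N → ρ i with natDegree ≤ d. New sequences g N = chg n (G N) (R N), Y N = Z N * chgDet n (G N) (R N). chg_tendsto, chgDet_tendsto (A3a, with chg_map, chgDet_map, natDegree_map) give convergence to chg n (f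 i)(ρ i) and w_i * D_i = y_i. G N is separable since discr ≠ 0 (c*discr = Z^2 ≠ 0; discr_ne_zero_iff_separable, A2b), so c * discr (g N) = c*discr(G N)*chgDet^2 = (Y N)^2 by discr_chg over k. Y N ≠ 0 eventually: at one place i0 (Nonempty ι) φ(Y N) → y_{i0} ≠ 0 (eventually_ne). chg_monic: monic of degree n. Finish with App.of_seq. See H1.lean for the same argument.
-/

open Polynomial Filter Topology

namespace AnWA

theorem AppAll.chg {k : Type*} [Field k] [CharZero k] {ι : Type*} [Finite ι] [Nonempty ι]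
    {K : ι → Type*} [∀ i, NormedField (K i)] [∀ i, CharZero (K i)] {φ : ∀ i, k →+* K i}
    (hWA : FieldWA φ) {c : k} {n : ℕ} {f : ∀ i, (K i)[X]}
    (hf : ∀ i, (f i).Monic ∧ (f i).natDegree = n ∧ (f i).Separable)
    (h : AppAll c n φ f) (ρ : ∀ i, (K i)[X]) :
    AppAll c n φ (fun i => AnWA.chg n (f i) (ρ i)) := by
  intro y hy
  have key : ∀ i, φ i c * (f i).discr * (chgDet n (f i) (ρ i)) ^ 2 = y i ^ 2 := by
    intro i
    have h1 := (hy i).2.2.1
    rw [discr_chg (hf i).1 (hf i).2.1 (hf i).2.2 (ρ i)] at h1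
    rw [← h1]; ring
  have hD : ∀ i, chgDet n (f i) (ρ i) ≠ 0 := by
    intro i h0
    have h1 := key i
    rw [h0, zero_pow two_ne_zero, mul_zero] at h1
    exact pow_ne_zero 2 (hy i).2.2.2 h1.symm
  have hval : Valid c n φ f (fun i => y i / chgDet n (f i) (ρ i)) := by
    intro i
    refine ⟨(hf i).1, (hf i).2.1, ?_, div_ne_zero (hy i).2.2.2 (hD i)⟩
    rw [div_pow, ← key i, mul_div_cancel_right₀ _ (pow_ne_zero 2 (hD i))]
  obtain ⟨G, Z, hG, hGl, hZl⟩ := (h _ hval).seq
  obtain ⟨d, hd⟩ : ∃ d, ∀ i, (ρ i).natDegree ≤ d := by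
    obtain ⟨d, hd⟩ := (Set.finite_range fun i => (ρ i).natDegree).bddAbove
    exact ⟨d, fun i => hd ⟨i, rfl⟩⟩
  obtain ⟨R, hR, hRl⟩ := exists_seq_poly hWA d ρ hd
  have hRd : ∀ i, ∀ N, ((R N).map (φ i)).natDegree ≤ d := fun i N => by
    rw [natDegree_map]; exact hR N
  have hYl : ∀ i, Tendsto (fun N => φ i (Z N * chgDet n (G N) (R N))) atTop (𝓝 (y i)) := by
    intro i
    have h1 := (hZl i).mul (chgDet_tendsto n d (hGl i) (hRl i) (hRd i) (hd i))
    rw [div_mul_cancel₀ _ (hD i)] at h1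
    simpa only [map_mul, chgDet_map] using h1
  refine App.of_seq (fun i => chg_monic n (f i) (ρ i)) (fun N => AnWA.chg n (G N) (R N))
    (fun N => Z N * chgDet n (G N) (R N)) ?_ ?_ hYl
  · obtain ⟨i0⟩ := ‹Nonempty ι›
    filter_upwards [(hYl i0).eventually_ne (hy i0).2.2.2] with N hN
    refine ⟨(chg_monic n _ _).1, (chg_monic n _ _).2, ?_, fun h0 => hN (by rw [h0, map_zero])⟩
    have hdis : (G N).discr ≠ 0 := by
      intro h0
      have h1 := (hG N).2.2.1
      rw [h0, mul_zero] at h1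
      exact pow_ne_zero 2 (hG N).2.2.2 h1.symm
    rw [discr_chg (hG N).1 (hG N).2.1 ((discr_ne_zero_iff_separable (hG N).1).1 hdis) (R N),
      mul_pow, ← (hG N).2.2.1]
    ring
  · intro i
    have h1 := chg_tendsto n d (hGl i) (hRl i) (hRd i) (hd i)
    simpa only [chg_map] using h1

end AnWA
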