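import Pool.Agent.H.MP_83e36b_nt.RDefs
import Pool.Agent.H.MP_83e36b_nt.A4

/-! Module RDiv: continuity of the division by X - x.

PROOF. Polynomial.coeff_divByMonic_X_sub_C: (p /ₘ (X - C a)).coeff j = ∑ i ∈ Icc (j+1) p.natDegree, a^(i-(j+1)) * p.coeff i. Replace the upper bound by N (the coefficients above natDegree vanish), then tendsto_finset_sum, Tendsto.pow, Tendsto.mul.
-/

open Polynomial Filter Topology

namespace AnWA

theorem RDiv_coeff {K : Type*} [Field K] (p : K[X]) (a : K) (N j : ℕ) (h : p.natDegree ≤ N) :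
    (p /ₘ (X - C a)).coeff j = ∑ i ∈ Finset.Icc (j + 1) N, a ^ (i - (j + 1)) * p.coeff i := by
  rw [Polynomial.coeff_divByMonic_X_sub_C]
  refine Finset.sum_subset (Finset.Icc_subset_Icc_right h) (fun i hi hi' => ?_)
  rw [Finset.mem_Icc] at hi hi'
  have : p.natDegree < i := by
    by_contra h'
    exact hi' ⟨hi.1, not_lt.1 h'⟩
  rw [coeff_eq_zero_of_natDegree_lt this, mul_zero]

theorem divX_tendsto {K T : Type*} [NormedField K] {l : Filter T} {F : T → K[X]} {F0 : K[X]}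
    {x : T → K} {x0 : K} (N : ℕ) (hF : PolyTendsto l F F0)
    (hd : ∀ᶠ t in l, (F t).natDegree ≤ N) (hd0 : F0.natDegree ≤ N) (hx : Tendsto x l (𝓝 x0)) :
    PolyTendsto l (fun t => F t /ₘ (X - C (x t))) (F0 /ₘ (X - C x0)) := by
  intro j
  rw [RDiv_coeff F0 x0 N j hd0]
  have h : Tendsto (fun t => ∑ i ∈ Finset.Icc (j + 1) N, x t ^ (i - (j + 1)) * (F t).coeff i) l
      (𝓝 (∑ i ∈ Finset.Icc (j + 1) N, x0 ^ (i - (j + 1)) * F0.coeff i)) :=
    tendsto_finsetSum _ fun i _ => (hx.pow _).mul (hF i)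
  refine h.congr' ?_
  filter_upwards [hd] with t ht
  rw [RDiv_coeff (F t) (x t) N j ht]

end AnWA
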