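import Pool.Agent.H.MP_83e36b_nt.RDefs
import Pool.Agent.H.MP_83e36b_nt.A1b
import Pool.Agent.H.MP_83e36b_nt.A2_Res
import Pool.Agent.H.MP_83e36b_nt.A2a
import Pool.Agent.H.MP_83e36b_nt.A2b
import Pool.Agent.H.MP_83e36b_nt.A4

/-! Module RMoveId: the discriminant in a move.

PROOF. m = deg q even, f := P - C t q = (X - C x0) g. pencil_h_monic, pencil_P_one (A1b): h monic of degree m, P monic of degree m+1, so f monic of degree m+1 (member_monic, A2a) and g monic of degree m. H.wr_eq (ω=1): P'q - Pq' = 1*h^2, hence f'q - f q' = h^2 (t drops out). f' = g + (X-x0) g'.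
(4) evaluate at x0: g(x0) q(x0) = h(x0)^2.
(1) modulo g: f ≡ 0, f' ≡ (X-x0) g', so (X-x0) g' q ≡ h^2 mod g. With res_congr/res_mul/res_pow/res_deriv (A2_Res: resultants with first argument monic): Res(g,X-x0) Res(g,g') Res(g,q) = Res(g,h)^2, Res(g,g') = (-1)^(m(m-1)/2) disc g, Res(g,X-C x0) = (-1)^m g(x0) = g(x0) (res_comm, or res of X - C x0; Mathlib has resultant_X_sub_C-like lemmas; sign: Res(g,X-x0)=(-1)^m Res(X-x0,g)=(-1)^m g(x0)).
(2) modulo q: -f q' ≡ h^2: Res(q,-1)Res(q,X-x0)Res(q,g)Res(q,q')=Res(q,h)^2, i.e. (m even) q(x0) Res(g,q) (-1)^(m(m-1)/2) disc q = Res(q,h)^2 (Res(q,g) = (-1)^(m*m) Res(g,q) = Res(g,q)).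
Multiply (1) and (2), use (4): disc g * disc q * (h(x0) Res(g,q))^2 = (Res(g,h) Res(q,h))^2. Nonvanishing: f(x0)=0 and f,q coprime: q(x0) ≠ 0. f=(X-x0)g separable: X-x0 and g coprime so g(x0) ≠ 0; g separable; with (4) h(x0) ≠ 0. g | f so g,q coprime, Res(g,q) ≠ 0 (resultant_ne_zero_iff_isCoprime A2b). q separable (H.sep): disc q ≠ 0 (discr_ne_zero_iff_separable). Hence disc g = disc q * E^2, and E ≠ 0 as disc g ≠ 0.
moveE_map: resultant_map, discr_map (A2b), eval_map/eval₂_hom. moveE_tendsto: PolyTendsto.resultant, .discr, .eval (A4), Tendsto.div.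
-/

open Polynomial Filter Topology

namespace AnWA

variable {K : Type*} [Field K]

theorem move_discr [CharZero K] {q h P g : K[X]} {x0 t : K} (H : Pencil 1 q h P)
    (hm : Even q.natDegree) (hg : (X - C x0) * g = P - C t * q)
    (hs : (P - C t * q).Separable) (hc : IsCoprime (P - C t * q) q) :
    g.Monic ∧ g.natDegree = q.natDegree ∧ g.Separable ∧ q.eval x0 ≠ 0 ∧ h.eval x0 ≠ 0 ∧
      g.resultant q ≠ 0 ∧ q.discr ≠ 0 ∧ moveE q h g x0 ≠ 0 ∧
      g.discr = q.discr * moveE q h g x0 ^ 2 := by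
  obtain ⟨hPm, hPd⟩ := pencil_P_one H
  obtain ⟨hfm, hfd⟩ := member_monic (k := 0) (t := t) H.monic hPm hPd rfl
  have hPe : P = (X - C x0) * g + C t * q := by rw [hg]; ring
  rw [← hg] at hs hc hfm hfd
  have hlin : (X - C x0 : K[X]).Monic := monic_X_sub_C x0
  have hgm : g.Monic := hlin.of_mul_monic_left hfm
  have hgd : g.natDegree = q.natDegree := by
    rw [hlin.natDegree_mul hgm, natDegree_X_sub_C] at hfd; omega
  have hgs : g.Separable := hs.of_mul_right
  have hcop : IsCoprime (X - C x0) g := hs.isCoprime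
  have hcg : IsCoprime g q := hc.of_mul_left_right
  have hcx : IsCoprime (X - C x0) q := hc.of_mul_left_left
  have hwf : g * q + (X - C x0) * derivative g * q - (X - C x0) * g * derivative q = h ^ 2 := by
    have h1 := H.wr_eq
    rw [one_mul, hPe] at h1
    rw [← h1]
    simp only [wr, derivative_add, derivative_mul, derivative_sub, derivative_X, derivative_C]
    ring
  have hev : ∀ r : K[X], IsCoprime (X - C x0) r → r.eval x0 ≠ 0 := by
    intro r hr h0
    obtain ⟨a, b, hab⟩ := hr
    have h1 := congrArg (fun s => s.eval x0) hab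
    simp [h0] at h1
  have hu := hev g hcop
  have hv := hev q hcx
  have h4 : g.eval x0 * q.eval x0 = h.eval x0 ^ 2 := by
    have h1 := congrArg (fun s => s.eval x0) hwf
    simpa using h1
  have hw : h.eval x0 ≠ 0 := by
    intro h0
    rw [h0, zero_pow two_ne_zero] at h4
    exact mul_ne_zero hu hv h4
  have hlinres : ∀ r : K[X], r.resultant (X - C x0) = (-1) ^ r.natDegree * r.eval x0 := by
    intro r
    have h1 := resultant_X_sub_C_right r r.natDegree x0 le_rfl
    rw [natDegree_X_sub_C, h1]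
  have em : ((-1 : K)) ^ q.natDegree = 1 := hm.neg_one_pow
  have em' : ((-1 : K)) ^ g.natDegree = 1 := by rw [hgd]; exact em
  have et : ((-1 : K)) ^ (g.natDegree * (g.natDegree - 1) / 2)
      = (-1) ^ (q.natDegree * (q.natDegree - 1) / 2) := by rw [hgd]
  have h1 : g.eval x0 * ((-1) ^ (q.natDegree * (q.natDegree - 1) / 2) * g.discr) * g.resultant q
      = g.resultant h ^ 2 := by
    have h2 : g.resultant ((X - C x0) * derivative g * q) = g.resultant (h ^ 2) := by
      apply res_congr hgm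
      rw [← hwf]
      exact ⟨(X - C x0) * derivative q - q, by ring⟩
    rw [res_mul hgm, res_mul hgm, res_pow hgm, hlinres, res_deriv hgm, em',
      one_mul, et] at h2
    exact h2
  have h2 : q.eval x0 * g.resultant q * ((-1) ^ (q.natDegree * (q.natDegree - 1) / 2) * q.discr)
      = q.resultant h ^ 2 := by
    have h3 : q.resultant (-((X - C x0) * g * derivative q)) = q.resultant (h ^ 2) := by
      apply res_congr H.monic
      rw [← hwf]
      exact ⟨-g - (X - C x0) * derivative g, by ring⟩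
    rw [res_neg H.monic, res_mul H.monic, res_mul H.monic, res_pow H.monic, hlinres,
      res_deriv H.monic, res_comm q g, pow_mul, em, one_pow, one_mul, one_mul, one_mul] at h3
    exact h3
  have hA : g.resultant q ≠ 0 := (resultant_ne_zero_iff_isCoprime hgm H.monic).2 hcg
  have hV : q.discr ≠ 0 := (discr_ne_zero_iff_separable H.monic).2 H.sep
  have hU : g.discr ≠ 0 := (discr_ne_zero_iff_separable hgm).2 hgs
  have e3 : ((-1 : K)) ^ (q.natDegree * (q.natDegree - 1) / 2)
      * (-1) ^ (q.natDegree * (q.natDegree - 1) / 2) = 1 := by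
    rw [← mul_pow]; norm_num
  have hmain : g.discr = q.discr * moveE q h g x0 ^ 2 := by
    have hden : (q.discr * h.eval x0 * g.resultant q) ^ 2 ≠ 0 :=
      pow_ne_zero 2 (mul_ne_zero (mul_ne_zero hV hw) hA)
    rw [moveE, div_pow, mul_div_assoc', eq_div_iff hden]
    generalize ((-1 : K)) ^ (q.natDegree * (q.natDegree - 1) / 2) = s at *
    generalize g.resultant q = A at *
    generalize g.resultant h = B at *
    generalize q.resultant h = D at *
    generalize g.discr = U at *
    generalize q.discr = V at *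
    generalize g.eval x0 = u at *
    generalize q.eval x0 = v at *
    generalize h.eval x0 = w at *
    have h5 : u * (s * U) * A * (v * A * (s * V)) = B ^ 2 * D ^ 2 := by rw [h1, h2]
    have h6 : w ^ 2 * U * V * A ^ 2 = B ^ 2 * D ^ 2 := by
      rw [← h5, ← h4]
      linear_combination (-(u * v * U * V * A ^ 2)) * e3
    linear_combination V * h6
  refine ⟨hgm, hgd, hgs, hv, hw, hA, hV, ?_, hmain⟩
  intro h0
  rw [h0, zero_pow two_ne_zero, mul_zero] at hmain
  exact hU hmain

theorem moveE_map {K' : Type*} [Field K'] (φ : K →+* K') (q h g : K[X]) (x0 : K) :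
    φ (moveE q h g x0) = moveE (q.map φ) (h.map φ) (g.map φ) (φ x0) := by
  unfold moveE
  rw [map_div₀, map_mul, map_mul, map_mul, ← resultant_map, ← resultant_map, ← resultant_map,
    ← discr_map, ← eval_map_apply]

theorem moveE_tendsto {K T : Type*} [NormedField K] {l : Filter T} {q h g : T → K[X]}
    {q0 h0 g0 : K[X]} {x : T → K} {x0 : K} {n : ℕ}
    (hq : PolyTendsto l q q0) (hh : PolyTendsto l h h0) (hg : PolyTendsto l g g0)
    (hx : Tendsto x l (𝓝 x0))
    (dq : ∀ᶠ t in l, (q t).Monic ∧ (q t).natDegree = n) (dq0 : q0.Monic ∧ q0.natDegree = n)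
    (dh : ∀ᶠ t in l, (h t).Monic ∧ (h t).natDegree = n) (dh0 : h0.Monic ∧ h0.natDegree = n)
    (dg : ∀ᶠ t in l, (g t).Monic ∧ (g t).natDegree = n) (dg0 : g0.Monic ∧ g0.natDegree = n)
    (hne : q0.discr * h0.eval x0 * g0.resultant q0 ≠ 0) :
    Tendsto (fun t => moveE (q t) (h t) (g t) (x t)) l (𝓝 (moveE q0 h0 g0 x0)) := by
  have m1 : ∀ᶠ t in l, (q t).natDegree = q0.natDegree := dq.mono fun t ht => ht.2.trans dq0.2.symm
  have m2 : ∀ᶠ t in l, (h t).natDegree = h0.natDegree := dh.mono fun t ht => ht.2.trans dh0.2.symm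
  have m3 : ∀ᶠ t in l, (g t).natDegree = g0.natDegree := dg.mono fun t ht => ht.2.trans dg0.2.symm
  unfold moveE
  refine ((hg.resultant hh m3 m2).mul (hq.resultant hh m1 m2)).div ?_ hne
  exact ((hq.discr (dq.mono fun t ht => ht.1) dq0.1 m1).mul
    (hh.eval n (dh.mono fun t ht => ht.2.le) dh0.2.le hx)).mul (hg.resultant hq m3 m1)

end AnWA
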