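import Pool.Agent.H.MP_83e36b_nt.RDefs
import Pool.Agent.H.MP_83e36b_nt.RSeq
import Pool.Agent.H.MP_83e36b_nt.RMoveId
import Pool.Agent.H.MP_83e36b_nt.RDiv
import Pool.Agent.H.MP_83e36b_nt.H1_core
import Pool.Agent.H.MP_83e36b_nt.A4
import Pool.Agent.H.MP_83e36b_nt.A5

/-! Module RMove: AppAll is stable under simultaneous moves.

PROOF. Follow H2.lean (discWA_odd) and H1.lean. Let y be valid for g. move_discr (RMoveId) at every i: E_i := moveE (q i)(h i)(g i)(x0 i) ≠ 0, discr (g i) = discr (q i) * E_i^2, (q i).eval x0 ≠ 0 etc. Put z_i = y_i / E_i: φ c * discr (q i) = z_i^2, z_i ≠ 0; so Valid for q, and hq z, App.seq give Q N, Z N over k (for all N: monic of degree n, c*discr = Z^2, Z ≠ 0). exists_seq (H1b): x^N → x0 i. exists_companions (H1_core, ω=1, (1:k[X]).map=1, m=n) gives hh N, PP N. T N := PP N (x^N) / Q N (x^N), F N := PP N - C (T N) * Q N, G N := F N /ₘ (X - C (x^N)). Limits: evaluations by PolyTendsto.eval (A4); evaluating hg at x0 i: P_i(x0)=t_i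 q_i(x0), so t_i = P_i(x0)/q_i(x0) and T N → t_i; F N → P_i - C t_i q_i (member_tendsto); RDiv.divX_tendsto: G N → (P_i - C t_i q_i) /ₘ (X - C x0_i) = g i (mul_divByMonic_cancel_left with monic X - C x0). map of divByMonic: Polynomial.map_divByMonic. Eventually: Q N (x^N) ≠ 0, so F N (x^N) = 0 and (X - C x^N) * G N = F N (mul_divByMonic_eq_iff_isRoot); (F N) separable and coprime to Q N (discr and resultant converge to nonzero numbers at one place i0; see H1.lean e1,e2). Then move_discr over k: c * discr (G N) = (Z N * moveE (Q N) (hh N) (G N) (x^N))^2, G N monic of degree n. moveE_tendsto + moveE_map: φ i (Y N) → z_i * E_i = y_i; Y N ≠ 0 eventually. App.of_seq.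
-/

open Polynomial Filter Topology

namespace AnWA

theorem AppAll.move {k : Type*} [Field k] [CharZero k] {ι : Type*} [Finite ι] [Nonempty ι]
    {K : ι → Type*} [∀ i, NormedField (K i)] [∀ i, CharZero (K i)] {φ : ∀ i, k →+* K i}
    (hWA : FieldWA φ) {c : k} {n : ℕ} (hn : Even n) {q h P g : ∀ i, (K i)[X]}
    {x0 t : ∀ i, K i} (hqn : ∀ i, (q i).natDegree = n)
    (H : ∀ i, Pencil 1 (q i) (h i) (P i)) (hnd : ∀ i, NonDeg 1 (q i))
    (hg : ∀ i, (X - C (x0 i)) * g i = P i - C (t i) * q i)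
    (hs : ∀ i, (P i - C (t i) * q i).Separable)
    (hc : ∀ i, IsCoprime (P i - C (t i) * q i) (q i))
    (hq : AppAll c n φ q) : AppAll c n φ g := by
  classical
  obtain ⟨i0⟩ := ‹Nonempty ι›
  have : Nonempty ι := ⟨i0⟩
  intro y hy
  have hE := fun i => move_discr (H i) (by rw [hqn i]; exact hn) (hg i) (hs i) (hc i)
  have hE0 : ∀ i, moveE (q i) (h i) (g i) (x0 i) ≠ 0 := fun i => (hE i).2.2.2.2.2.2.2.1
  have hEd : ∀ i, (g i).discr = (q i).discr * moveE (q i) (h i) (g i) (x0 i) ^ 2 :=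
    fun i => (hE i).2.2.2.2.2.2.2.2
  have hqx : ∀ i, (q i).eval (x0 i) ≠ 0 := fun i => (hE i).2.2.2.1
  have hVq : Valid c n φ q (fun i => y i / moveE (q i) (h i) (g i) (x0 i)) := by
    intro i
    obtain ⟨gm, gd, gy, gy0⟩ := hy i
    refine ⟨(H i).monic, hqn i, ?_, div_ne_zero gy0 (hE0 i)⟩
    rw [div_pow, eq_div_iff (pow_ne_zero 2 (hE0 i)), ← gy, hEd i]
    ring
  obtain ⟨Q, Z, hQ, hQl, hZl⟩ := (hq _ hVq).seq
  obtain ⟨xx, hxl⟩ := exists_seq hWA x0
  have h1X : ∀ i, (1 : k[X]).map (φ i) = 1 := fun i => Polynomial.map_one _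
  obtain ⟨hh, PP, hpen, hlim⟩ := exists_companions (φ := φ) (ω := 1)
    (by rw [natDegree_one]; exact Nat.zero_le _)
    (by intro i; rw [h1X]; exact H i) (by intro i; rw [h1X]; exact hnd i) hqn Q
    (fun N => ⟨(hQ N).1, (hQ N).2.1⟩) hQl
  -- degrees over the `K i`
  have dq : ∀ i, ∀ᶠ N in atTop, ((Q N).map (φ i)).natDegree = (q i).natDegree := fun i =>
    Eventually.of_forall fun N => by rw [natDegree_map, (hQ N).2.1, hqn i]
  have dq' : ∀ i, ∀ᶠ N in atTop, ((Q N).map (φ i)).Monic ∧ ((Q N).map (φ i)).natDegree = n :=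
    fun i => Eventually.of_forall fun N =>
      ⟨(hQ N).1.map _, by rw [natDegree_map, (hQ N).2.1]⟩
  have dh : ∀ i, ∀ᶠ N in atTop, ((hh N).map (φ i)).Monic ∧ ((hh N).map (φ i)).natDegree = n :=
    fun i => by
    filter_upwards [hpen] with N hN
    exact ⟨(pencil_h_monic hN).1.map _, by rw [natDegree_map, (pencil_h_monic hN).2, (hQ N).2.1]⟩
  have dh0 : ∀ i, (h i).Monic ∧ (h i).natDegree = n := fun i =>
    ⟨(pencil_h_monic (H i)).1, by rw [(pencil_h_monic (H i)).2, hqn i]⟩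
  have dP : ∀ i, ∀ᶠ N in atTop, ((PP N).map (φ i)).natDegree ≤ n + 1 := fun i => by
    filter_upwards [hpen] with N hN
    rw [natDegree_map, (pencil_P_one hN).2, (hQ N).2.1]
  have dP0 : ∀ i, (P i).natDegree ≤ n + 1 := fun i => by
    rw [(pencil_P_one (H i)).2, hqn i]
  -- evaluations at the point
  have hQx : ∀ i, Tendsto (fun N => φ i ((Q N).eval (xx N))) atTop (𝓝 ((q i).eval (x0 i))) :=
    fun i => by
    have := (hQl i).eval n ((dq' i).mono fun N hN => hN.2.le) (hqn i).le (hxl i)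
    refine this.congr fun N => ?_
    rw [eval_map, eval₂_hom]
  have hPx : ∀ i, Tendsto (fun N => φ i ((PP N).eval (xx N))) atTop (𝓝 ((P i).eval (x0 i))) :=
    fun i => by
    have := (hlim i).2.eval (n + 1) (dP i) (dP0 i) (hxl i)
    refine this.congr fun N => ?_
    rw [eval_map, eval₂_hom]
  have ht : ∀ i, (P i).eval (x0 i) / (q i).eval (x0 i) = t i := fun i => by
    have h1 := congrArg (Polynomial.eval (x0 i)) (hg i)
    rw [eval_mul, eval_sub, eval_X, eval_C, sub_self, zero_mul, eval_sub, eval_mul, eval_C] at h1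
    rw [div_eq_iff (hqx i)]
    exact (sub_eq_zero.1 h1.symm)
  obtain ⟨T, hT⟩ : ∃ T : ℕ → k, ∀ N, T N = (PP N).eval (xx N) / (Q N).eval (xx N) :=
    ⟨_, fun _ => rfl⟩
  have htl : ∀ i, Tendsto (fun N => φ i (T N)) atTop (𝓝 (t i)) := fun i => by
    have := (hPx i).div (hQx i) (hqx i)
    rw [ht i] at this
    refine this.congr fun N => ?_
    rw [hT, map_div₀]
    rfl
  obtain ⟨F, hF⟩ : ∃ F : ℕ → k[X], ∀ N, F N = PP N - C (T N) * Q N := ⟨_, fun _ => rfl⟩
  have hFl : ∀ i, PolyTendsto atTop (fun N => (F N).map (φ i)) (P i - C (t i) * q i) := fun i => by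
    have := member_tendsto (hQl i) (hlim i).2 (htl i)
    simpa only [hF, Polynomial.map_sub, Polynomial.map_mul, map_C] using this
  have dF : ∀ i, ∀ᶠ N in atTop,
      ((F N).map (φ i)).natDegree = (P i - C (t i) * q i).natDegree := fun i => by
    filter_upwards [hpen] with N hN
    rw [natDegree_map, hF, (member_one hN (T N)).2, (member_one (H i) (t i)).2, (hQ N).2.1, hqn i]
  obtain ⟨G, hG⟩ : ∃ G : ℕ → k[X], ∀ N, G N = F N /ₘ (X - C (xx N)) := ⟨_, fun _ => rfl⟩
  have hGl : ∀ i, PolyTendsto atTop (fun N => (G N).map (φ i)) (g i) := fun i => by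
    have h1 := divX_tendsto (n + 1) (hFl i) (by
      filter_upwards [dF i] with N hN
      rw [hN, (member_one (H i) (t i)).2, hqn i])
      (by rw [(member_one (H i) (t i)).2, hqn i]) (hxl i)
    rw [← hg i, mul_divByMonic_cancel_left _ (monic_X_sub_C _)] at h1
    have e : (fun N => (F N).map (φ i) /ₘ (X - C (φ i (xx N)))) = fun N => (G N).map (φ i) := by
      funext N
      rw [hG, Polynomial.map_divByMonic _ (monic_X_sub_C _), Polynomial.map_sub, map_X, map_C]
    rw [e] at h1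
    exact h1
  have hres : ∀ i, (P i - C (t i) * q i).resultant (q i) ≠ 0 := fun i =>
    (resultant_ne_zero_iff_isCoprime (member_one (H i) (t i)).1 (H i).monic).2 (hc i)
  have e1 : ∀ᶠ N in atTop, IsCoprime (F N) (Q N) := by
    have := (hFl i0).resultant (hQl i0) (dF i0) (dq i0)
    filter_upwards [this.eventually_ne (hres i0), hpen] with N hN hN'
    refine (resultant_ne_zero_iff_isCoprime (hF N ▸ (member_one hN' (T N)).1) (hQ N).1).1 ?_
    intro h0
    exact hN (by rw [resultant_map, h0, map_zero])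
  have e2 : ∀ᶠ N in atTop, (F N).Separable := by
    have hm0 := (member_one (H i0) (t i0)).1
    have hmF : ∀ᶠ N in atTop, ((F N).map (φ i0)).Monic := by
      filter_upwards [hpen] with N hN
      rw [hF]
      exact ((member_one hN (T N)).1).map _
    have := (hFl i0).discr hmF hm0 (dF i0)
    filter_upwards [this.eventually_ne ((discr_ne_zero_iff_separable hm0).2 (hs i0)), hmF]
      with N hN hN'
    exact (separable_map (φ i0)).1 ((discr_ne_zero_iff_separable hN').1 hN)
  have e3 : ∀ᶠ N in atTop, (Q N).eval (xx N) ≠ 0 := by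
    filter_upwards [(hQx i0).eventually_ne (hqx i0)] with N hN h0
    exact hN (by rw [h0, map_zero])
  have emv : ∀ᶠ N in atTop, (G N).Monic ∧ (G N).natDegree = n ∧
      (G N).discr = (Q N).discr * moveE (Q N) (hh N) (G N) (xx N) ^ 2 := by
    filter_upwards [hpen, e1, e2, e3] with N a0 a1 a2 a3
    have hroot : (F N).IsRoot (xx N) := by
      rw [IsRoot.def, hF, eval_sub, eval_mul, eval_C, hT, div_mul_cancel₀ _ a3, sub_self]
    have hmul : (X - C (xx N)) * G N = PP N - C (T N) * Q N := by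
      rw [hG, mul_divByMonic_eq_iff_isRoot.2 hroot, hF]
    rw [hF] at a1 a2
    have := move_discr a0 (by rw [(hQ N).2.1]; exact hn) hmul a2 a1
    exact ⟨this.1, by rw [this.2.1, (hQ N).2.1], this.2.2.2.2.2.2.2.2⟩
  have hgm : ∀ i, (g i).Monic ∧ (g i).natDegree = n := fun i =>
    ⟨(hE i).1, by rw [(hE i).2.1, hqn i]⟩
  have hne : ∀ i, (q i).discr * (h i).eval (x0 i) * (g i).resultant (q i) ≠ 0 := fun i =>
    mul_ne_zero (mul_ne_zero (hE i).2.2.2.2.2.2.1 (hE i).2.2.2.2.1) (hE i).2.2.2.2.2.1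
  have hYl : ∀ i, Tendsto (fun N => φ i (Z N * moveE (Q N) (hh N) (G N) (xx N))) atTop
      (𝓝 (y i)) := fun i => by
    have h1 := moveE_tendsto (n := n) (hQl i) (hlim i).1 (hGl i) (hxl i) (dq' i)
      ⟨(H i).monic, hqn i⟩ (dh i) (dh0 i) (by
        filter_upwards [emv] with N hN
        exact ⟨hN.1.map _, by rw [natDegree_map, hN.2.1]⟩) (hgm i) (hne i)
    have h2 := (hZl i).mul h1
    rw [div_mul_cancel₀ _ (hE0 i)] at h2
    refine h2.congr fun N => ?_
    rw [map_mul, moveE_map]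
  refine App.of_seq hgm G (fun N => Z N * moveE (Q N) (hh N) (G N) (xx N)) ?_ hGl hYl
  have e4 : ∀ᶠ N in atTop, Z N * moveE (Q N) (hh N) (G N) (xx N) ≠ 0 := by
    filter_upwards [(hYl i0).eventually_ne (hy i0).2.2.2] with N hN h0
    exact hN (by rw [h0, map_zero])
  filter_upwards [emv, e4] with N a1 a2
  refine ⟨a1.1, a1.2.1, ?_, a2⟩
  rw [a1.2.2, ← mul_assoc, (hQ N).2.2.1, mul_pow]

end AnWA
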