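import Pool.Agent.H.MP_83e36b_nt.RDefs
import Pool.Agent.H.MP_83e36b_nt.RMoveId
import Pool.Agent.H.MP_83e36b_nt.A1b
import Pool.Agent.H.MP_83e36b_nt.A2a
import Pool.Agent.H.MP_83e36b_nt.A2b
import Pool.Agent.H.MP_83e36b_nt.A4

/-! Module RTriv: moves with x0 close to infinity are close to the identity.

PROOF. Let ‖w‖ > 1, x_m = w^m, so ‖x_m‖ → ∞; at the end shift the sequence (m ↦ m+M) to turn 'eventually' into 'for all m'. H.form with ω = 1 gives P = X q + r, deg r < deg q =: d. (i) IsCoprime P q: modulo q, -P q' ≡ h^2 (from wr P q = h^2) and h is prime to q; so P is prime to q and P - C t q is prime to q for every t. (ii) q(x_m) ≠ 0 and h(x_m) ≠ 0 eventually (finitely many roots, ‖x_m‖→∞). t_m := P(x_m)/q(x_m); F_m := P - C t_m q vanishes at x_m; g_m := F_m /ₘ (X - C x_m), (X - C x_m) g_m = F_m; g_m monic of degree d. (iii) t_m = x_m + s'_m with s'_m = r(x_m)/q(x_m) → 0 (divide by x_m^d: q(x)/x^d and r(x)/x^d are the values at 1/x of the reflected polynomials (Polynomial.reflect,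 eval₂_reflect_mul_pow), which converge to coeff d q = 1 and coeff d r = 0). F_m = (X - C x_m) q + (r - C s'_m q), so R_m := g_m - q satisfies (X - C x_m) R_m = r - C s'_m q =: A_m. Coefficients: A_m.coeff 0 = -x_m R_m.coeff 0, A_m.coeff (j+1) = R_m.coeff j - x_m R_m.coeff (j+1); since A_m.coeff j converges, by induction on j: R_m.coeff j → 0. So PolyTendsto g q. (iv) separable: discr g_m → discr q ≠ 0 (PolyTendsto.discr, A4), g_m(x_m) q(x_m) = h(x_m)^2 ≠ 0 (evaluate f'q - f q' = h^2 at x_m), so X - C x_m and g_m are coprime and F_m is separable (Separable.mul). (v) move_discr (RMoveId): E_m^2 = discr g_m / discr q → 1. s_m := 1 if ‖E_m - 1‖ ≤ ‖E_m + 1‖, else -1: then ‖s_m E_m - 1‖^2 ≤ ‖E_m-1‖‖E_m+1‖ = ‖E_m^2-1‖ → 0. d=0 (q=1) is allowed.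
-/

open Polynomial Filter Topology

namespace AnWA

/-- the value of a polynomial near infinity -/
theorem rtriv_eval_tendsto {K : Type*} [NormedField K] {w : K} (hw : 1 < ‖w‖) (p : K[X]) (d : ℕ)
    (hd : p.natDegree ≤ d) :
    Tendsto (fun m : ℕ => p.eval (w ^ m) * ((w⁻¹) ^ m) ^ d) atTop (𝓝 (p.coeff d)) := by
  have hw0 : w ≠ 0 := by
    rintro rfl
    simp at hw
    linarith
  have hy : Tendsto (fun m : ℕ => (w⁻¹) ^ m) atTop (𝓝 0) := by
    apply tendsto_pow_atTop_nhds_zero_of_norm_lt_one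
    rw [norm_inv]
    exact inv_lt_one_of_one_lt₀ hw
  have h1 : ∀ m : ℕ, p.eval (w ^ m) * ((w⁻¹) ^ m) ^ d =
      ∑ i ∈ Finset.range (d + 1), p.coeff i * ((w⁻¹) ^ m) ^ (d - i) := by
    intro m
    rw [eval_eq_sum_range' (Nat.lt_succ_of_le hd), Finset.sum_mul]
    refine Finset.sum_congr rfl fun i hi => ?_
    have hid : i ≤ d := Nat.lt_succ_iff.1 (Finset.mem_range.1 hi)
    have h2 : ((w⁻¹) ^ m) ^ d = ((w⁻¹) ^ m) ^ i * ((w⁻¹) ^ m) ^ (d - i) := by
      rw [← pow_add, Nat.add_sub_cancel' hid]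
    have h3 : (w ^ m) ^ i * ((w⁻¹) ^ m) ^ i = 1 := by
      rw [← mul_pow, ← mul_pow, mul_inv_cancel₀ hw0, one_pow, one_pow]
    calc p.coeff i * (w ^ m) ^ i * ((w⁻¹) ^ m) ^ d
        = p.coeff i * ((w ^ m) ^ i * ((w⁻¹) ^ m) ^ i) * ((w⁻¹) ^ m) ^ (d - i) := by
          rw [h2]; ring
      _ = _ := by rw [h3, mul_one]
  simp only [h1]
  have h4 : p.coeff d = ∑ i ∈ Finset.range (d + 1), p.coeff i * (0 : K) ^ (d - i) := by
    rw [Finset.sum_range_succ, Finset.sum_eq_zero]
    · simp
    · intro i hi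
      have : d - i ≠ 0 := Nat.sub_ne_zero_of_lt (Finset.mem_range.1 hi)
      rw [zero_pow this, mul_zero]
  rw [h4]
  exact tendsto_finsetSum _ fun i _ => (hy.pow _).const_mul _

/-- turning a square converging to one into a sign times a sequence converging to one -/
theorem rtriv_sign {K : Type*} [NormedField K] {E : ℕ → K}
    (h : Tendsto (fun m => E m ^ 2) atTop (𝓝 1)) :
    ∃ s : ℕ → K, (∀ m, s m = 1 ∨ s m = -1) ∧ Tendsto (fun m => s m * E m) atTop (𝓝 1) := by
  classical
  refine ⟨fun m => if ‖E m - 1‖ ≤ ‖E m + 1‖ then 1 else -1, ?_, ?_⟩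
  · intro m
    dsimp only
    split_ifs
    · exact Or.inl rfl
    · exact Or.inr rfl
  · rw [tendsto_iff_norm_sub_tendsto_zero] at h ⊢
    have h1 : Tendsto (fun m => Real.sqrt (‖E m ^ 2 - 1‖)) atTop (𝓝 0) := by
      have := (Real.continuous_sqrt.tendsto 0).comp h
      rwa [Real.sqrt_zero] at this
    refine squeeze_zero (fun m => norm_nonneg _) (fun m => ?_) h1
    apply Real.le_sqrt_of_sq_le
    have h2 : ‖E m ^ 2 - 1‖ = ‖E m - 1‖ * ‖E m + 1‖ := by
      rw [← norm_mul]; congr 1; ring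
    rw [h2]
    dsimp only
    split_ifs with hc
    · rw [one_mul, sq]
      exact mul_le_mul_of_nonneg_left hc (norm_nonneg _)
    · have h3 : ‖-1 * E m - 1‖ = ‖E m + 1‖ := by
        rw [← norm_neg]; congr 1; ring
      rw [h3, sq]
      exact mul_le_mul_of_nonneg_right (le_of_lt (not_le.1 hc)) (norm_nonneg _)

/-- all members of the pencil are prime to `q` -/
theorem rtriv_coprime {K : Type*} [Field K] {q h P : K[X]} (H : Pencil 1 q h P)
    (hqh : IsCoprime q h) (t : K) : IsCoprime (P - C t * q) q := by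
  have h1 : wr P q = h ^ 2 := by rw [H.wr_eq, one_mul]
  have h2 : IsCoprime q (h ^ 2) := hqh.pow_right
  have h3 : h ^ 2 = - (P - C t * q) * derivative q + q * (derivative (P - C t * q)) := by
    rw [← h1, wr, derivative_sub, derivative_C_mul]
    ring
  rw [h3] at h2
  have h4 : IsCoprime q (- (P - C t * q) * derivative q) := by
    have := h2.add_mul_left_right (- (derivative (P - C t * q)))
    have e : -(P - C t * q) * derivative q + q * derivative (P - C t * q)
        + q * (- derivative (P - C t * q)) = -(P - C t * q) * derivative q := by ring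
    rwa [e] at this
  exact ((IsCoprime.neg_right_iff _ _).1 h4.of_mul_right_left).symm

theorem trivial_moves {K : Type*} [NormedField K] [CharZero K] (hK : ∃ x : K, 1 < ‖x‖)
    {q h P : K[X]} (hm : Even q.natDegree) (H : Pencil 1 q h P) (hqh : IsCoprime q h) :
    ∃ (x t s : ℕ → K) (g : ℕ → K[X]),
      (∀ m, (X - C (x m)) * g m = P - C (t m) * q ∧ (P - C (t m) * q).Separable ∧
        IsCoprime (P - C (t m) * q) q ∧ (s m = 1 ∨ s m = -1)) ∧
      PolyTendsto atTop g q ∧
      Tendsto (fun m => s m * moveE q h (g m) (x m)) atTop (𝓝 1) := by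
  classical
  obtain ⟨w, hw⟩ := hK
  have hw0 : w ≠ 0 := by
    rintro rfl
    simp at hw
    linarith
  obtain ⟨hhm, hhd⟩ := pencil_h_monic H
  obtain ⟨hPm, hPd⟩ := pencil_P_one H
  have hqd : q.discr ≠ 0 := (discr_ne_zero_iff_separable H.monic).2 H.sep
  have hwr : wr P q = h ^ 2 := by rw [H.wr_eq, one_mul]
  obtain ⟨r, hr, hPr⟩ := H.form
  have c1 : (1 : K[X]).coeff 1 = 0 := by rw [coeff_one]; simp
  have c0 : (1 : K[X]).coeff 0 = 1 := by simp
  rw [c1, c0] at hPr
  simp only [zero_div, map_zero, zero_mul, zero_add, mul_zero, add_zero, map_one, one_mul] at hPr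
  set d := q.natDegree with hd
  -- limits
  have hy : Tendsto (fun m : ℕ => (w⁻¹) ^ m) atTop (𝓝 0) := by
    apply tendsto_pow_atTop_nhds_zero_of_norm_lt_one
    rw [norm_inv]
    exact inv_lt_one_of_one_lt₀ hw
  have hq1 : Tendsto (fun m : ℕ => q.eval (w ^ m) * ((w⁻¹) ^ m) ^ d) atTop (𝓝 1) := by
    have := rtriv_eval_tendsto hw q d le_rfl
    rwa [hd, H.monic.coeff_natDegree, ← hd] at this
  have hh1 : Tendsto (fun m : ℕ => h.eval (w ^ m) * ((w⁻¹) ^ m) ^ d) atTop (𝓝 1) := by
    have := rtriv_eval_tendsto hw h d (le_of_eq hhd)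
    rwa [← hhd, hhm.coeff_natDegree, hhd] at this
  have hrd : r.natDegree ≤ d := by
    by_cases hr0 : r = 0
    · rw [hr0]; simp
    · exact le_of_lt (natDegree_lt_natDegree hr0 hr)
  have hr1 : Tendsto (fun m : ℕ => r.eval (w ^ m) * ((w⁻¹) ^ m) ^ d) atTop (𝓝 0) := by
    have := rtriv_eval_tendsto hw r d hrd
    have h0 : r.coeff d = 0 := by
      apply coeff_eq_zero_of_degree_lt
      rw [degree_eq_natDegree H.monic.ne_zero] at hr
      exact hr
    rwa [h0] at this
  have hqne : ∀ᶠ m : ℕ in atTop, q.eval (w ^ m) ≠ 0 := by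
    filter_upwards [hq1.eventually_ne one_ne_zero] with m hm0 h0
    rw [h0, zero_mul] at hm0
    exact hm0 rfl
  have hhne : ∀ᶠ m : ℕ in atTop, h.eval (w ^ m) ≠ 0 := by
    filter_upwards [hh1.eventually_ne one_ne_zero] with m hm0 h0
    rw [h0, zero_mul] at hm0
    exact hm0 rfl
  have hs' : Tendsto (fun m : ℕ => r.eval (w ^ m) / q.eval (w ^ m)) atTop (𝓝 0) := by
    have h1 := hr1.div hq1 one_ne_zero
    rw [zero_div] at h1
    refine h1.congr fun m => ?_
    have : ((w⁻¹) ^ m) ^ d ≠ 0 := pow_ne_zero _ (pow_ne_zero _ (inv_ne_zero hw0))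
    exact mul_div_mul_right _ _ this
  -- the moves
  set x : ℕ → K := fun m => w ^ m with hx
  set t : ℕ → K := fun m => P.eval (w ^ m) / q.eval (w ^ m) with ht
  set g : ℕ → K[X] := fun m => (P - C (t m) * q) /ₘ (X - C (x m)) with hg
  have hgm : ∀ᶠ m in atTop, (X - C (x m)) * g m = P - C (t m) * q := by
    filter_upwards [hqne] with m hqm
    rw [hg]
    dsimp only
    rw [mul_divByMonic_eq_iff_isRoot, IsRoot.def, eval_sub, eval_mul, eval_C, ht, hx]
    dsimp only
    field_simp
    ring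
  have hgmd : ∀ᶠ m in atTop, (g m).Monic ∧ (g m).natDegree = d := by
    filter_upwards [hgm] with m hgm
    obtain ⟨hFm, hFd⟩ := member_monic (k := 0) (t := t m) H.monic hPm hPd rfl
    rw [← hgm] at hFm hFd
    have h1 : (g m).Monic := (monic_X_sub_C (x m)).of_mul_monic_left hFm
    refine ⟨h1, ?_⟩
    rw [(monic_X_sub_C (x m)).natDegree_mul h1, natDegree_X_sub_C] at hFd
    omega
  have hR : ∀ j, Tendsto (fun m => (g m - q).coeff j) atTop (𝓝 0) := by
    have hA : ∀ᶠ m in atTop, (X - C (x m)) * (g m - q) =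
        r - C (r.eval (w ^ m) / q.eval (w ^ m)) * q := by
      filter_upwards [hgm, hqne] with m hgm hqm
      have e1 : t m = w ^ m + r.eval (w ^ m) / q.eval (w ^ m) := by
        rw [ht]
        dsimp only
        rw [hPr, eval_add, eval_mul, eval_X]
        field_simp
      rw [mul_sub, hgm, e1, C_add, hx]
      nth_rewrite 1 [hPr]
      ring
    have hAc : ∀ j, Tendsto (fun m : ℕ => (r - C (r.eval (w ^ m) / q.eval (w ^ m)) * q).coeff j)
        atTop (𝓝 (r.coeff j)) := by
      intro j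
      have := (tendsto_const_nhds (x := r.coeff j)).sub (hs'.mul_const (q.coeff j))
      rw [zero_mul, sub_zero] at this
      simpa only [coeff_sub, coeff_C_mul] using this
    have hxy : ∀ m : ℕ, w ^ m * (w⁻¹) ^ m = 1 := fun m => by
      rw [← mul_pow, mul_inv_cancel₀ hw0, one_pow]
    intro j
    induction j with
    | zero =>
      have h1 := ((hAc 0).neg).mul hy
      rw [mul_zero] at h1
      refine h1.congr' ?_
      filter_upwards [hA] with m hA
      rw [← hA, mul_coeff_zero, coeff_sub, coeff_X_zero, coeff_C_zero, hx]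
      linear_combination (g m - q).coeff 0 * hxy m
    | succ j ih =>
      have h1 := (ih.sub (hAc (j + 1))).mul hy
      rw [mul_zero] at h1
      refine h1.congr' ?_
      filter_upwards [hA] with m hA
      have hc : ((X - C (x m)) * (g m - q)).coeff (j + 1) =
          (g m - q).coeff j - w ^ m * (g m - q).coeff (j + 1) := by
        generalize g m - q = R
        rw [sub_mul, coeff_sub, coeff_X_mul, coeff_C_mul]
      rw [← hA, hc]
      linear_combination (g m - q).coeff (j + 1) * hxy m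
  have hgq : PolyTendsto atTop g q := by
    intro j
    have h1 := (hR j).add_const (q.coeff j)
    rw [zero_add] at h1
    refine h1.congr fun m => ?_
    rw [coeff_sub, sub_add_cancel]
  have hdisc : Tendsto (fun m => (g m).discr) atTop (𝓝 q.discr) :=
    hgq.discr (hgmd.mono fun m h => h.1) H.monic (hgmd.mono fun m h => h.2)
  have hcop : ∀ m, IsCoprime (P - C (t m) * q) q := fun m => rtriv_coprime H hqh (t m)
  have hsep : ∀ᶠ m in atTop, (P - C (t m) * q).Separable := by
    filter_upwards [hgm, hgmd, hdisc.eventually_ne hqd, hhne] with m hgm hgmd hdm hhm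
    have h1 : (g m).Separable := (discr_ne_zero_iff_separable hgmd.1).1 hdm
    have h2 : wr (P - C (t m) * q) q = h ^ 2 := by
      rw [← hwr, wr, wr, derivative_sub, derivative_C_mul]
      ring
    have h3 : (g m).eval (x m) * q.eval (x m) = h.eval (x m) ^ 2 := by
      rw [← eval_pow, ← h2, wr, ← hgm, derivative_mul, derivative_sub, derivative_X, derivative_C]
      simp [hx]
    have h4 : (g m).eval (x m) ≠ 0 := by
      intro h0
      rw [h0, zero_mul] at h3
      exact hhm (pow_eq_zero_iff (two_ne_zero)|>.1 h3.symm)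
    rw [← hgm]
    refine (separable_X_sub_C).mul h1 ?_
    rw [(irreducible_X_sub_C (x m)).coprime_iff_not_dvd, dvd_iff_isRoot]
    exact h4
  have hall : ∀ᶠ m in atTop, ((X - C (x m)) * g m = P - C (t m) * q ∧
      (P - C (t m) * q).Separable ∧ IsCoprime (P - C (t m) * q) q) := by
    filter_upwards [hgm, hsep] with m h1 h2
    exact ⟨h1, h2, hcop m⟩
  have hE : Tendsto (fun m => moveE q h (g m) (x m) ^ 2) atTop (𝓝 1) := by
    have h1 := hdisc.div_const q.discr
    rw [div_self hqd] at h1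
    refine h1.congr' ?_
    filter_upwards [hall] with m h
    have h2 := (move_discr H hm h.1 h.2.1 h.2.2).2.2.2.2.2.2.2.2
    rw [h2]
    field_simp
  obtain ⟨M, hM⟩ := eventually_atTop.1 hall
  obtain ⟨s, hs1, hs2⟩ := rtriv_sign hE
  refine ⟨fun m => x (m + M), fun m => t (m + M), fun m => s (m + M), fun m => g (m + M),
    fun m => ?_, fun j => ?_, ?_⟩
  · obtain ⟨h1, h2, h3⟩ := hM (m + M) (by omega)
    exact ⟨h1, h2, h3, hs1 _⟩
  · exact (hgq j).comp (tendsto_add_atTop_nat M)
  · exact hs2.comp (tendsto_add_atTop_nat M)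

end AnWA
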