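import Pool.Agent.H.MP_83e36b_nt.RDefs
import Pool.Agent.H.MP_83e36b_nt.RSeq
import Pool.Agent.H.MP_83e36b_nt.RChg
import Pool.Agent.H.MP_83e36b_nt.RMove
import Pool.Agent.H.MP_83e36b_nt.RTriv
import Pool.Agent.H.MP_83e36b_nt.RNice
import Pool.Agent.H.MP_83e36b_nt.A1a
import Pool.Agent.H.MP_83e36b_nt.A3a

/-! Module RStep: one move at one place.

PROOF. step_nice: let y be valid for update f i0 g. For every j choose companions h_j, P_j of f j (pencil_exists, A1a, for j ≠ i0; for i0 the given ones: use Function.update). For j ≠ i0 trivial_moves (RTriv) gives sequences x_j, t_j, s_j, g_j; for i0 take constant sequences x0, t, 1, g. For every m AppAll.move (RMove) gives AppAll c n φ (g^m), g^m_i0 = g. Put y^m_{i0} = y_{i0} and y^m_j = y_j * (s_j^m * E_j^m), E = moveE (f j) (h j) (g_j^m) (x_j^m) for j ≠ i0. Valid c n φ (g^m) (y^m): move_discr: φ c discr(g_j^m) = φ c discr (f j) E^2 = (y_j s E)^2 as s = ±1, nonzero. So App c n φ (g^m)(y^m) for all m; App.limit (RSeq) with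 g_j^m → f j = update f i0 g j, y^m → y.
step: for j ≠ i0 take ρ_j, ρ'_j from nice_exists (RNice), for i0 take X, X (Function.update). AppAll.chg (RChg): AppAll for f'_i = chg n (f i)(ρ i), f'_{i0} = f i0 by chg_X. step_nice for f': AppAll (update f' i0 g). AppAll.chg again with ρ' (and X at i0): its members are chg n (f' j) (ρ'_j) = f j for j ≠ i0 and chg n g X = g (g is monic, separable, of degree n by move_discr), i.e. the tuple update f i0 g (funext). The hypotheses of AppAll.chg (monic, degree n, separable) hold: chg_monic (A3a).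
-/

open Polynomial Filter Topology

namespace AnWA

variable {k : Type*} [Field k] [CharZero k] {ι : Type*} [Finite ι] [Nonempty ι] [DecidableEq ι]
    {K : ι → Type*} [∀ i, NormedField (K i)] [∀ i, CharZero (K i)] {φ : ∀ i, k →+* K i}

theorem AppAll.step_nice (hWA : FieldWA φ) (hK : ∀ i, ∃ x : K i, 1 < ‖x‖) {c : k} {n : ℕ}
    (hn : Even n) {f : ∀ i, (K i)[X]}
    (hf : ∀ i, (f i).Monic ∧ (f i).natDegree = n ∧ (f i).Separable) (hA : AppAll c n φ f)
    (i0 : ι) (hnice : ∀ j, j ≠ i0 → NonDeg 1 (f j) ∧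
      ∀ h P, Pencil 1 (f j) h P → IsCoprime (f j) h)
    {h P g : (K i0)[X]} {x0 t : K i0} (H : Pencil 1 (f i0) h P) (hnd : NonDeg 1 (f i0))
    (hg : (X - C x0) * g = P - C t * f i0) (hs : (P - C t * f i0).Separable)
    (hc : IsCoprime (P - C t * f i0) (f i0)) :
    AppAll c n φ (Function.update f i0 g) := by
  classical
  intro y hy
  have hdata : ∀ j, ∃ (hh PP : (K j)[X]) (x s : ℕ → K j) (gg : ℕ → (K j)[X]) (yy : ℕ → K j),
      Pencil 1 (f j) hh PP ∧ NonDeg 1 (f j) ∧
      (∀ m, (X - C (x m)) * gg m = PP - C (s m) * f j ∧ (PP - C (s m) * f j).Separable ∧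
        IsCoprime (PP - C (s m) * f j) (f j)) ∧
      (∀ m, (gg m).Monic ∧ (gg m).natDegree = n ∧ φ j c * (gg m).discr = yy m ^ 2 ∧
        yy m ≠ 0) ∧
      PolyTendsto atTop gg (Function.update f i0 g j) ∧ Tendsto yy atTop (𝓝 (y j)) := by
    intro j
    rcases eq_or_ne j i0 with rfl | hj
    · refine ⟨h, P, fun _ => x0, fun _ => t, fun _ => g, fun _ => y j, H, hnd,
        fun _ => ⟨hg, hs, hc⟩, fun _ => ?_, ?_, tendsto_const_nhds⟩
      · have := hy j
        rw [Function.update_self] at this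
        exact this
      · rw [Function.update_self]
        exact PolyTendsto.const g
    · have hyj := hy j
      rw [Function.update_of_ne hj] at hyj ⊢
      obtain ⟨hm, hd, hsep⟩ := hf j
      obtain ⟨hndj, hcopj⟩ := hnice j hj
      obtain ⟨hh, PP, Hj⟩ := pencil_exists hm hsep (by rw [natDegree_one]; exact Nat.zero_le _) hndj
      obtain ⟨x, t, s, gg, h1, h2, h3⟩ := trivial_moves (hK j) (by rw [hd]; exact hn) Hj
        (hcopj hh PP Hj)
      have hmv := fun m => move_discr Hj (by rw [hd]; exact hn) (h1 m).1 (h1 m).2.1 (h1 m).2.2.1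
      refine ⟨hh, PP, x, t, gg, fun m => y j * (s m * moveE (f j) hh (gg m) (x m)), Hj, hndj,
        fun m => ⟨(h1 m).1, (h1 m).2.1, (h1 m).2.2.1⟩, fun m => ?_, h2, ?_⟩
      · have hE := (hmv m).2.2.2.2.2.2.2.1
        have hs2 : s m ^ 2 = 1 := by
          rcases (h1 m).2.2.2 with h | h <;> rw [h] <;> norm_num
        have hs0 : s m ≠ 0 := by
          intro h0
          rw [h0] at hs2
          norm_num at hs2
        refine ⟨(hmv m).1, by rw [(hmv m).2.1, hd], ?_, mul_ne_zero hyj.2.2.2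
          (mul_ne_zero hs0 hE)⟩
        rw [(hmv m).2.2.2.2.2.2.2.2, ← mul_assoc, hyj.2.2.1, mul_pow, mul_pow, hs2, one_mul]
      · have := h3.const_mul (y j)
        rwa [mul_one] at this
  choose hh PP x s gg yy c1 c2 c3 c4 c5 c6 using hdata
  refine App.limit (fun m j => gg j m) (fun m j => yy j m)
    (fun i => ⟨(hy i).1, (hy i).2.1⟩) (fun m i => ⟨(c4 i m).1, (c4 i m).2.1⟩)
    (fun i => c5 i) (fun i => c6 i) (fun m => ?_)
  have hmove := AppAll.move (c := c) (n := n) (φ := φ) hWA hn (q := f) (h := hh) (P := PP)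
    (g := fun j => gg j m) (x0 := fun j => x j m) (t := fun j => s j m)
    (fun i => (hf i).2.1) c1 c2 (fun i => (c3 i m).1) (fun i => (c3 i m).2.1)
    (fun i => (c3 i m).2.2) hA
  exact hmove (fun j => yy j m) (fun i => c4 i m)

theorem AppAll.step (hWA : FieldWA φ) (hK : ∀ i, ∃ x : K i, 1 < ‖x‖) {c : k} {n : ℕ}
    (hn : Even n) {f : ∀ i, (K i)[X]}
    (hf : ∀ i, (f i).Monic ∧ (f i).natDegree = n ∧ (f i).Separable) (hA : AppAll c n φ f)
    (i0 : ι) {h P g : (K i0)[X]} {x0 t : K i0} (H : Pencil 1 (f i0) h P)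
    (hnd : NonDeg 1 (f i0)) (hg : (X - C x0) * g = P - C t * f i0)
    (hs : (P - C t * f i0).Separable) (hc : IsCoprime (P - C t * f i0) (f i0)) :
    AppAll c n φ (Function.update f i0 g) := by
  classical
  have hmv := move_discr H (by rw [(hf i0).2.1]; exact hn) hg hs hc
  have hdata : ∀ j, ∃ ρ ρ' : (K j)[X], (AnWA.chg n (f j) ρ).Separable ∧
      (j ≠ i0 → NonDeg 1 (AnWA.chg n (f j) ρ) ∧
        ∀ h P, Pencil 1 (AnWA.chg n (f j) ρ) h P → IsCoprime (AnWA.chg n (f j) ρ) h) ∧
      (j ≠ i0 → AnWA.chg n (AnWA.chg n (f j) ρ) ρ' = f j) ∧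
      (j = i0 → AnWA.chg n (f j) ρ = f j ∧ ρ' = X) := by
    intro j
    obtain ⟨hm, hd, hsep⟩ := hf j
    rcases eq_or_ne j i0 with rfl | hj
    · have e := chg_X hm hd hsep
      exact ⟨X, X, by rw [e]; exact hsep, fun h => absurd rfl h, fun h => absurd rfl h,
        fun _ => ⟨e, rfl⟩⟩
    · obtain ⟨ρ, ρ', h1, h2, h3, h4⟩ := nice_exists hn hm hd hsep
      exact ⟨ρ, ρ', h1, fun _ => ⟨h2, h3⟩, fun _ => h4, fun h => absurd h hj⟩
  choose ρ ρ' r1 r2 r3 r4 using hdata
  have hA' := AppAll.chg hWA hf hA ρ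
  have hf' : ∀ i, (AnWA.chg n (f i) (ρ i)).Monic ∧ (AnWA.chg n (f i) (ρ i)).natDegree = n ∧
      (AnWA.chg n (f i) (ρ i)).Separable := fun i =>
    ⟨(chg_monic n _ _).1, (chg_monic n _ _).2, r1 i⟩
  have e0 : AnWA.chg n (f i0) (ρ i0) = f i0 := (r4 i0 rfl).1
  have hstep := AppAll.step_nice hWA hK hn (f := fun i => AnWA.chg n (f i) (ρ i)) hf' hA' i0
    (fun j hj => r2 j hj) (h := h) (P := P) (g := g) (x0 := x0) (t := t)
    (by simpa only [e0] using H) (by simpa only [e0] using hnd)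
    (by simpa only [e0] using hg) (by simpa only [e0] using hs) (by simpa only [e0] using hc)
  have hfin := AppAll.chg hWA (f := Function.update (fun i => AnWA.chg n (f i) (ρ i)) i0 g)
    (by
      intro i
      rcases eq_or_ne i i0 with rfl | hi
      · rw [Function.update_self]
        exact ⟨hmv.1, by rw [hmv.2.1, (hf i).2.1], hmv.2.2.1⟩
      · rw [Function.update_of_ne hi]
        exact hf' i) hstep ρ'
  have hfun : (fun i => AnWA.chg n (Function.update (fun i => AnWA.chg n (f i) (ρ i)) i0 g i) (ρ' i)) =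
      Function.update f i0 g := by
    funext i
    rcases eq_or_ne i i0 with rfl | hi
    · rw [Function.update_self, Function.update_self, (r4 i rfl).2]
      exact chg_X hmv.1 (by rw [hmv.2.1, (hf i).2.1]) hmv.2.2.1
    · rw [Function.update_of_ne hi, Function.update_of_ne hi]
      exact r3 i hi
  rw [hfun] at hfin
  exact hfin

end AnWA
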